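import Mathlib

/-! Permutations of the natural numbers: shift, partial trace (removal of the point `0`) and the
permutations `A i` moving the point `i` to the front. -/

namespace ArcC

open Equiv

/-- shift: fixes `0` and acts by `p` on the successors -/
def sh (p : Perm ℕ) : Perm ℕ where
  toFun := fun x => match x with
    | 0 => 0
    | x + 1 => p x + 1
  invFun := fun x => match x with
    | 0 => 0
    | x + 1 => p⁻¹ x + 1
  left_inv := by intro x; cases x <;> simp
  right_inv := by intro x; cases x <;> simp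

@[simp] lemma sh_zero (p : Perm ℕ) : sh p 0 = 0 := rfl
@[simp] lemma sh_succ (p : Perm ℕ) (x : ℕ) : sh p (x + 1) = p x + 1 := rfl

lemma sh_mul (p q : Perm ℕ) : sh (p * q) = sh p * sh q := by
  ext x; cases x <;> simp

@[simp] lemma sh_one : sh 1 = 1 := by
  ext x; cases x <;> simp

lemma sh_inv (p : Perm ℕ) : sh p⁻¹ = (sh p)⁻¹ := by
  rw [eq_inv_iff_mul_eq_one, ← sh_mul]; simp

lemma sh_injective : Function.Injective sh := by
  intro p q h
  ext x
  have := congrArg (fun r : Perm ℕ => r (x + 1)) h
  simpa using this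

lemma sh_eq_one {p : Perm ℕ} : sh p = 1 ↔ p = 1 :=
  ⟨fun h => sh_injective (by simpa using h), fun h => by simp [h]⟩

lemma sh_swap (a b : ℕ) : sh (swap a b) = swap (a + 1) (b + 1) := by
  ext x
  cases x with
  | zero => simp [swap_apply_of_ne_of_ne]
  | succ x =>
    by_cases ha : x = a
    · simp [ha]
    · by_cases hb : x = b
      · simp [hb]
      · simp [swap_apply_of_ne_of_ne, ha, hb]

/-- A permutation fixing `0` is a shift. -/
lemma exists_sh {p : Perm ℕ} (h : p 0 = 0) : ∃ q, p = sh q := by
  have h' : p⁻¹ 0 = 0 := by rw [Perm.inv_eq_iff_eq]; exact h.symm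
  have hp : ∀ x, p (x + 1) ≠ 0 := fun x hx => by
    have := p.injective (hx.trans h.symm); omega
  have hp' : ∀ x, p⁻¹ (x + 1) ≠ 0 := fun x hx => by
    have := p⁻¹.injective (hx.trans h'.symm); omega
  refine ⟨⟨fun x => p (x + 1) - 1, fun x => p⁻¹ (x + 1) - 1, ?_, ?_⟩, ?_⟩
  · intro x
    have := hp x
    simp only
    rw [Nat.sub_add_cancel (by omega)]; simp
  · intro x
    have := hp' x
    simp only
    rw [Nat.sub_add_cancel (by omega)]; simp
  · ext x
    cases x with
    | zero => simp [h]
    | succ x =>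
      have := hp x
      simp only [sh_succ, Equiv.coe_fn_mk]
      omega

/-- partial trace: the point `0` is removed -/
noncomputable def tr (p : Perm ℕ) : Perm ℕ :=
  Classical.choose (exists_sh (p := swap 0 (p 0) * p) (by simp))

lemma sh_tr (p : Perm ℕ) : sh (tr p) = swap 0 (p 0) * p :=
  (Classical.choose_spec (exists_sh (p := swap 0 (p 0) * p) (by simp))).symm

/-- `1` if `0` is a fixed point and `0` otherwise. -/
def fx (p : Perm ℕ) : ℕ := if p 0 = 0 then 1 else 0

lemma fx_eq_one {p : Perm ℕ} (h : p 0 = 0) : fx p = 1 := by simp [fx, h]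
lemma fx_eq_zero {p : Perm ℕ} (h : p 0 ≠ 0) : fx p = 0 := by simp [fx, h]

/-- the other description of `sh (tr p)` -/
lemma sh_tr' (p : Perm ℕ) : sh (tr p) = p * swap 0 (p⁻¹ 0) := by
  rw [sh_tr, Equiv.mul_swap_eq_swap_mul]; simp [swap_comm]

@[simp] lemma tr_sh (p : Perm ℕ) : tr (sh p) = p :=
  sh_injective (by rw [sh_tr, sh_zero, swap_self]; rfl)
@[simp] lemma tr_one : tr 1 = 1 := by rw [← sh_one, tr_sh, sh_one]

lemma tr_mul_sh (p q : Perm ℕ) : tr (p * sh q) = tr p * q := by
  apply sh_injective
  rw [sh_mul, sh_tr, sh_tr]; simp [mul_assoc]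

lemma tr_sh_mul (p q : Perm ℕ) : tr (sh q * p) = q * tr p := by
  apply sh_injective
  rw [sh_mul, sh_tr', sh_tr']
  simp only [mul_inv_rev, Perm.coe_mul, Function.comp_apply, ← mul_assoc]
  rw [← sh_inv]; simp

lemma fx_congr {p q : Perm ℕ} (h : p 0 = 0 ↔ q 0 = 0) : fx p = fx q := by
  unfold fx; split_ifs <;> simp_all

lemma fx_mul_sh (p q : Perm ℕ) : fx (p * sh q) = fx p := fx_congr (by simp)

lemma fx_sh_mul (p q : Perm ℕ) : fx (sh q * p) = fx p := by
  apply fx_congr
  simp only [Perm.coe_mul, Function.comp_apply]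
  constructor
  · intro h; exact (sh q).injective (by simpa using h)
  · intro h; simp [h]

@[simp] lemma fx_sh (p : Perm ℕ) : fx (sh p) = 1 := by simp [fx]
@[simp] lemma fx_one : fx 1 = 1 := by simp [fx]

/-- `A i` moves `i` to `0` and `j < i` to `j + 1`. -/
def A : ℕ → Perm ℕ
  | 0 => 1
  | i + 1 => swap 0 1 * sh (A i)

@[simp] lemma A_zero : A 0 = 1 := rfl
lemma A_succ (i : ℕ) : A (i + 1) = swap 0 1 * sh (A i) := rfl

lemma A_apply_self (i : ℕ) : A i i = 0 := by
  induction i with
  | zero => simp
  | succ i ih => simp [A_succ, ih]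

lemma A_apply_lt {i j : ℕ} (h : j < i) : A i j = j + 1 := by
  induction i generalizing j with
  | zero => omega
  | succ i ih =>
    cases j with
    | zero => simp [A_succ]
    | succ j =>
      have := ih (j := j) (by omega)
      simp [A_succ, this, swap_apply_of_ne_of_ne]

lemma A_apply_gt {i j : ℕ} (h : i < j) : A i j = j := by
  induction i generalizing j with
  | zero => simp
  | succ i ih =>
    cases j with
    | zero => omega
    | succ j =>
      have := ih (j := j) (by omega)
      have hj : j ≠ 0 := by omega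
      simp [A_succ, this, swap_apply_of_ne_of_ne, hj]

end ArcC
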