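import Mathlib
import Pool.Agent.Lib.MP_e5080e_gt.PermNat

/-! Codes of chord diagrams on `n` linear words. -/

namespace ArcC

open Equiv

/-- Codes of chord diagrams on finitely many linear words: `nil` has no words; in `emp N` the
word `0` is empty and the other words are those of `N`; in `ch i N` the first letter of the word
`0` is paired with a letter of the word `i`; after deleting the first letter and cutting the
word `i` at the other letter into the words `i`, `i+1` one gets `N`. -/
inductive Code
  | nil : Code
  | emp (N : Code) : Code
  | ch (i : ℕ) (N : Code) : Code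
deriving DecidableEq

namespace Code

/-- well-formed with `n` words -/
def wf : ℕ → Code → Prop
  | 0, nil => True
  | n + 1, emp N => wf n N
  | n + 1, ch i N => i ≤ n ∧ wf (n + 2) N
  | _, _ => False

/-- number of chords -/
def kk : Code → ℕ
  | nil => 0
  | emp N => kk N
  | ch _ N => kk N + 1

/-- concatenate the words `i` and `i+1` -/
def merge : ℕ → Code → Code
  | _, nil => nil
  | 0, emp N => N
  | i + 1, emp N => emp (merge i N)
  | i, ch j N => if j ≤ i then ch j (merge (i + 1) N) else ch (j - 1) (merge i N)

/-- insert an empty word as word number `i` -/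
def ins : ℕ → Code → Code
  | 0, N => emp N
  | _ + 1, nil => nil
  | i + 1, emp N => emp (ins i N)
  | i + 1, ch j N => if i + 1 ≤ j then ch (j + 1) (ins (i + 1) N) else ch j (ins (i + 2) N)

/-- delete the chord number `c` (numbered by first letters) -/
def cdel : ℕ → Code → Code
  | _, nil => nil
  | c, emp N => emp (cdel c N)
  | 0, ch i N => merge i N
  | c + 1, ch i N => ch i (cdel c N)

/-- the permutation of the strands: the boundary strand which starts at the start of the word `j`
ends at the end of the word `nu N j` -/
noncomputable def nu : Code → Perm ℕ
  | nil => 1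
  | emp N => sh (nu N)
  | ch i N => tr (A i * nu N) * (A i)⁻¹

/-- the number of closed strands -/
noncomputable def cc : Code → ℕ
  | nil => 0
  | emp N => cc N
  | ch i N => cc N + fx (A i * nu N)

/-- level -/
noncomputable def lev (N : Code) : ℕ := kk N + cc N

end Code

open Code

/-- boundary of chains of codes -/
noncomputable def cbd (A : Type*) [AddCommGroup A] : (Code →₀ A) →ₗ[ℤ] (Code →₀ A) :=
  Finsupp.lsum ℤ fun N => ∑ c ∈ Finset.range (kk N),
    (-1 : ℤ) ^ c • (Finsupp.lsingle (cdel c N) : A →ₗ[ℤ] _)

end ArcC
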