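import Mathlib
import Pool.Agent.Lib.MP_e5080e_gt.Codes

/-! Basic facts on merging and deleting in codes. -/

namespace ArcC

open Equiv Code

@[simp] lemma merge_nil (i : ℕ) : merge i nil = nil := by cases i <;> rfl
@[simp] lemma merge_zero_emp (N : Code) : merge 0 (emp N) = N := rfl
@[simp] lemma merge_succ_emp (i : ℕ) (N : Code) : merge (i + 1) (emp N) = emp (merge i N) := rfl
lemma merge_ch (i j : ℕ) (N : Code) :
    merge i (ch j N) = if j ≤ i then ch j (merge (i + 1) N) else ch (j - 1) (merge i N) := by
  cases i <;> rfl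
lemma merge_ch_le {i j : ℕ} (h : j ≤ i) (N : Code) :
    merge i (ch j N) = ch j (merge (i + 1) N) := by rw [merge_ch, if_pos h]
lemma merge_ch_gt {i j : ℕ} (h : i < j) (N : Code) :
    merge i (ch j N) = ch (j - 1) (merge i N) := by rw [merge_ch, if_neg (by omega)]

lemma merge_merge {i j : ℕ} (h : i ≤ j) (N : Code) :
    merge i (merge (j + 1) N) = merge j (merge i N) := by
  induction N generalizing i j with
  | nil => simp
  | emp N ih =>
    cases i with
    | zero => simp
    | succ i =>
      cases j with
      | zero => omega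
      | succ j => simp [ih (by omega : i ≤ j)]
  | ch a N ih =>
    by_cases h1 : a ≤ i
    · rw [merge_ch_le (by omega : a ≤ j + 1), merge_ch_le h1, merge_ch_le h1,
        merge_ch_le (by omega : a ≤ j), ih (by omega)]
    · by_cases h2 : a ≤ j + 1
      · rw [merge_ch_le h2, merge_ch_gt (by omega), merge_ch_gt (by omega),
          merge_ch_le (by omega), ih (by omega)]
      · rw [merge_ch_gt (by omega), merge_ch_gt (by omega), merge_ch_gt (by omega),
          merge_ch_gt (by omega), ih h]

@[simp] lemma cdel_nil (c : ℕ) : cdel c nil = nil := by cases c <;> rfl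
@[simp] lemma cdel_emp (c : ℕ) (N : Code) : cdel c (emp N) = emp (cdel c N) := by cases c <;> rfl
@[simp] lemma cdel_zero_ch (i : ℕ) (N : Code) : cdel 0 (ch i N) = merge i N := rfl
@[simp] lemma cdel_succ_ch (c i : ℕ) (N : Code) : cdel (c + 1) (ch i N) = ch i (cdel c N) := rfl

lemma merge_cdel (i c : ℕ) (N : Code) : merge i (cdel c N) = cdel c (merge i N) := by
  induction N generalizing i c with
  | nil => simp
  | emp N ih =>
    cases i with
    | zero => simp
    | succ i => simp [ih]
  | ch a N ih =>
    cases c with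
    | zero =>
      by_cases h1 : a ≤ i
      · rw [merge_ch_le h1, cdel_zero_ch, cdel_zero_ch, merge_merge h1]
      · rw [merge_ch_gt (by omega), cdel_zero_ch, cdel_zero_ch]
        have := merge_merge (i := i) (j := a - 1) (by omega) N
        rw [show a - 1 + 1 = a by omega] at this
        rw [this]
    | succ c =>
      by_cases h1 : a ≤ i
      · rw [merge_ch_le h1, cdel_succ_ch, cdel_succ_ch, merge_ch_le h1, ih]
      · rw [merge_ch_gt (by omega), cdel_succ_ch, cdel_succ_ch, merge_ch_gt (by omega), ih]

@[simp] lemma kk_merge (i : ℕ) (N : Code) : kk (merge i N) = kk N := by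
  induction N generalizing i with
  | nil => simp
  | emp N ih =>
    cases i with
    | zero => simp [kk]
    | succ i => simp [kk, ih]
  | ch a N ih =>
    rw [merge_ch]
    split_ifs <;> simp [kk, ih]

lemma kk_cdel {c : ℕ} {N : Code} (hc : c < kk N) : kk (cdel c N) + 1 = kk N := by
  induction N generalizing c with
  | nil => simp [kk] at hc
  | emp N ih => simpa [kk] using ih (by simpa [kk] using hc)
  | ch a N ih =>
    cases c with
    | zero => simp [kk]
    | succ c =>
      simp only [kk] at hc
      simp only [cdel_succ_ch, kk]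
      rw [ih (by omega)]

@[simp] lemma wf_nil {n : ℕ} : wf n nil ↔ n = 0 := by
  cases n <;> simp [wf]

lemma wf_emp {n : ℕ} {N : Code} : wf n (emp N) ↔ ∃ m, n = m + 1 ∧ wf m N := by
  cases n <;> simp [wf]

lemma wf_succ_emp {n : ℕ} {N : Code} : wf (n + 1) (emp N) ↔ wf n N := Iff.rfl

lemma wf_ch {n i : ℕ} {N : Code} : wf n (ch i N) ↔ i < n ∧ wf (n + 1) N := by
  cases n with
  | zero => simp [wf]
  | succ n => simp only [wf]; rw [Nat.lt_succ_iff]

lemma wf_merge {n i : ℕ} {N : Code} (h : wf (n + 2) N) (hi : i ≤ n) : wf (n + 1) (merge i N) := by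
  induction N generalizing i n with
  | nil => simp at h
  | emp N ih =>
    rw [wf_succ_emp] at h
    cases i with
    | zero => exact h
    | succ i =>
      obtain ⟨n, rfl⟩ : ∃ m, n = m + 1 := ⟨n - 1, by omega⟩
      rw [merge_succ_emp, wf_succ_emp]
      exact ih h (by omega)
  | ch a N ih =>
    rw [wf_ch] at h
    by_cases h1 : a ≤ i
    · rw [merge_ch_le h1, wf_ch]
      exact ⟨by omega, ih h.2 (by omega)⟩
    · rw [merge_ch_gt (by omega), wf_ch]
      exact ⟨by omega, ih h.2 (by omega)⟩

lemma wf_cdel {n c : ℕ} {N : Code} (h : wf n N) (hc : c < kk N) : wf n (cdel c N) := by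
  induction N generalizing c n with
  | nil => simp [kk] at hc
  | emp N ih =>
    rw [wf_emp] at h
    obtain ⟨m, rfl, hm⟩ := h
    rw [cdel_emp, wf_succ_emp]
    exact ih hm (by simpa [kk] using hc)
  | ch a N ih =>
    rw [wf_ch] at h
    cases c with
    | zero =>
      obtain ⟨m, rfl⟩ : ∃ m, n = m + 1 := ⟨n - 1, by omega⟩
      exact wf_merge h.2 (by omega)
    | succ c =>
      simp only [kk] at hc
      rw [cdel_succ_ch, wf_ch]
      exact ⟨h.1, ih h.2 (by omega)⟩

/-! ### The boundary operator -/

section

variable {A : Type*} [AddCommGroup A]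

lemma cbd_single (N : Code) (a : A) : cbd A (Finsupp.single N a) =
    ∑ c ∈ Finset.range (kk N), (-1 : ℤ) ^ c • Finsupp.single (cdel c N) a := by
  simp [cbd]

/-- the terms of the boundary -/
lemma cbd_single_ne {N N' : Code} {a : A} (h : cbd A (Finsupp.single N a) N' ≠ 0) :
    ∃ c < kk N, cdel c N = N' := by
  rw [cbd_single, Finsupp.finsetSum_apply] at h
  obtain ⟨c, hc, hc2⟩ := Finset.exists_ne_zero_of_sum_ne_zero h
  refine ⟨c, Finset.mem_range.1 hc, ?_⟩
  by_contra hne
  apply hc2
  rw [Finsupp.smul_apply, Finsupp.single_eq_of_ne (Ne.symm hne), smul_zero]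

lemma cbd_ne {x : Code →₀ A} {N' : Code} (h : cbd A x N' ≠ 0) :
    ∃ N, x N ≠ 0 ∧ ∃ c < kk N, cdel c N = N' := by
  have hx : x = ∑ N ∈ x.support, Finsupp.single N (x N) := by
    conv_lhs => rw [← Finsupp.sum_single x]
    rfl
  rw [hx, map_sum, Finsupp.finsetSum_apply] at h
  obtain ⟨N, hN, hN2⟩ := Finset.exists_ne_zero_of_sum_ne_zero h
  exact ⟨N, Finsupp.mem_support_iff.1 hN, cbd_single_ne hN2⟩

/-- operator induced by a map of codes -/
noncomputable abbrev op (A : Type*) [AddCommGroup A] (f : Code → Code) :
    Module.End ℤ (Code →₀ A) := Finsupp.lmapDomain A ℤ f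

lemma op_single (f : Code → Code) (N : Code) (a : A) :
    op A f (Finsupp.single N a) = Finsupp.single (f N) a := by
  simp [op]

lemma op_mul (f g : Code → Code) : op A f * op A g = op A (f ∘ g) := by
  refine Finsupp.lhom_ext fun N a => ?_
  rw [Module.End.mul_apply, op_single, op_single, op_single]; rfl

lemma cbd_emp : cbd A * op A emp = op A emp * cbd A := by
  refine Finsupp.lhom_ext fun N a => ?_
  rw [Module.End.mul_apply, Module.End.mul_apply, op_single, cbd_single, cbd_single, map_sum]
  refine Finset.sum_congr rfl fun c _ => ?_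
  rw [map_zsmul, op_single, cdel_emp]

lemma cbd_ch (i : ℕ) : cbd A * op A (ch i) = op A (merge i) - op A (ch i) * cbd A := by
  refine Finsupp.lhom_ext fun N a => ?_
  rw [LinearMap.sub_apply, Module.End.mul_apply, Module.End.mul_apply, op_single, op_single,
    cbd_single, cbd_single, map_sum]
  simp only [kk]
  rw [Finset.sum_range_succ']
  simp only [cdel_succ_ch, cdel_zero_ch, pow_zero, one_smul]
  rw [add_comm, sub_eq_add_neg]
  congr 1
  rw [← Finset.sum_neg_distrib]
  refine Finset.sum_congr rfl fun c _ => ?_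
  rw [map_zsmul, op_single, pow_succ, mul_neg_one, neg_smul]

lemma cbd_merge (i : ℕ) : cbd A * op A (merge i) = op A (merge i) * cbd A := by
  refine Finsupp.lhom_ext fun N a => ?_
  rw [Module.End.mul_apply, Module.End.mul_apply, op_single, cbd_single, cbd_single, map_sum,
    kk_merge]
  refine Finset.sum_congr rfl fun c _ => ?_
  rw [map_zsmul, op_single, merge_cdel]

lemma cbd_sq : cbd A * cbd A = 0 := by
  refine Finsupp.lhom_ext fun N a => ?_
  rw [Module.End.mul_apply, LinearMap.zero_apply]
  induction N with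
  | nil => simp [cbd_single, kk]
  | emp N ih =>
    have h1 : Finsupp.single (emp N) a = op A emp (Finsupp.single N a) := by rw [op_single]
    rw [h1, ← Module.End.mul_apply (cbd A) (op A emp), cbd_emp, Module.End.mul_apply,
      ← Module.End.mul_apply (cbd A) (op A emp), cbd_emp, Module.End.mul_apply, ih, map_zero]
  | ch i N ih =>
    have h1 : Finsupp.single (ch i N) a = op A (ch i) (Finsupp.single N a) := by rw [op_single]
    rw [h1, ← Module.End.mul_apply (cbd A) (op A (ch i)), cbd_ch, LinearMap.sub_apply, map_sub,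
      Module.End.mul_apply, ← Module.End.mul_apply (cbd A) (op A (merge i)), cbd_merge,
      Module.End.mul_apply, ← Module.End.mul_apply (cbd A) (op A (ch i)), cbd_ch,
      LinearMap.sub_apply, Module.End.mul_apply, ih, map_zero]
    simp

end

end ArcC
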