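import Mathlib
import Pool.Agent.Lib.MP_e5080e_gt.CodeBasic

/-! Operators on codes: `merge`, `ins`, `emp`, `ch`, their relations with the boundary, and the
chain operators `C_r`, `K_r`, `N_r`. -/

namespace ArcC

open Equiv Code

/-- `F_r`: word 0 of `N` is replaced by the words `x₁` and `x₂ x₁' x₃ x₂' ... x_r' w₀` -/
def Fo : ℕ → Code → Code
  | 0, N => emp N
  | r + 1, N => ch 1 (emp (Fo r N))

/-- floating chain `C_r` at the front of word 0 -/
def Co : ℕ → Code → Code
  | 0, N => N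
  | r + 1, N => ch 0 (Fo r N)

/-- `B_{r+1}` -/
def Bo (s : ℕ) : ℕ → Code → Code
  | 0, N => ch (s + 1) (emp (ins s N))
  | r + 1, N => ch 1 (emp (Bo s r N))

/-- chain `K_r` whose last chord ends at the front of word `s` -/
def Ko (s : ℕ) : ℕ → Code → Code
  | 0, N => N
  | 1, N => ch s (ins s N)
  | r + 2, N => ch 0 (Bo s r N)

/-- chain `N_r` whose first chord ends at the front of word `t` -/
def No (t : ℕ) : ℕ → Code → Code
  | 0, N => N
  | 1, N => ch t (ins t N)
  | r + 2, N => ch 0 (ch (t + 1) (Fo r (ins t N)))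

/-- sign of `N_r` -/
def sgN : ℕ → ℤ
  | 0 => 1
  | 1 => 1
  | _ + 2 => -1

/-! ### equations -/

lemma merge_ch_succ {i j : ℕ} (h : i ≤ j) (N : Code) :
    merge i (ch (j + 1) N) = ch j (merge i N) := by
  rw [merge_ch, if_neg (by omega), Nat.add_sub_cancel]
@[simp] lemma ins_zero (N : Code) : ins 0 N = emp N := by cases N <;> rfl
@[simp] lemma ins_succ_nil (i : ℕ) : ins (i + 1) nil = nil := rfl
@[simp] lemma ins_succ_emp (i : ℕ) (N : Code) : ins (i + 1) (emp N) = emp (ins i N) := rfl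
lemma ins_succ_ch (i j : ℕ) (N : Code) : ins (i + 1) (ch j N) =
    if i + 1 ≤ j then ch (j + 1) (ins (i + 1) N) else ch j (ins (i + 2) N) := rfl
lemma ins_ch_ge {i j : ℕ} (h : i + 1 ≤ j) (N : Code) :
    ins (i + 1) (ch j N) = ch (j + 1) (ins (i + 1) N) := by
  rw [ins_succ_ch, if_pos h]
lemma ins_ch_le {i j : ℕ} (h : j ≤ i) (N : Code) :
    ins (i + 1) (ch j N) = ch j (ins (i + 2) N) := by
  rw [ins_succ_ch, if_neg (by omega)]

@[simp] lemma kk_nil : kk nil = 0 := rfl
@[simp] lemma kk_emp (N : Code) : kk (emp N) = kk N := rfl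
@[simp] lemma kk_ch (i : ℕ) (N : Code) : kk (ch i N) = kk N + 1 := rfl

lemma wf_succ_ch (n i : ℕ) (N : Code) : wf (n + 1) (ch i N) ↔ i ≤ n ∧ wf (n + 2) N := Iff.rfl

/-! ### relations between `merge` and `ins` -/

@[simp] lemma merge_ins (i : ℕ) (N : Code) : merge i (ins i N) = N := by
  induction N generalizing i with
  | nil => cases i <;> simp
  | emp N ih => cases i <;> simp [ih]
  | ch l N ih =>
    cases i with
    | zero => simp
    | succ i =>
      rcases le_or_gt l i with h | h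
      · rw [ins_ch_le h, merge_ch_le (by omega), ih]
      · rw [ins_ch_ge h, merge_ch_succ (by omega), ih]

@[simp] lemma merge_ins_succ (i : ℕ) (N : Code) : merge i (ins (i + 1) N) = N := by
  induction N generalizing i with
  | nil => simp
  | emp N ih => cases i <;> simp [ih]
  | ch l N ih =>
    rcases le_or_gt l i with h | h
    · rw [ins_ch_le h, merge_ch_le h, ih]
    · rw [ins_ch_ge h, merge_ch_succ (by omega), ih]

lemma merge_succ_ins {i j : ℕ} (h : i ≤ j) (N : Code) :
    merge (j + 1) (ins i N) = ins i (merge j N) := by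
  induction N generalizing i j with
  | nil => cases i <;> simp
  | emp N ih =>
    cases i with
    | zero => simp
    | succ i =>
      obtain ⟨j, rfl⟩ : ∃ j', j = j' + 1 := ⟨j - 1, by omega⟩
      simp [ih (show i ≤ j by omega)]
  | ch l N ih =>
    cases i with
    | zero => simp
    | succ i =>
      rcases le_or_gt l i with h1 | h1
      · rw [ins_ch_le h1, merge_ch_le (by omega), merge_ch_le (by omega), ins_ch_le h1,
          ih (by omega)]
      · rw [ins_ch_ge h1]
        rcases le_or_gt l j with h2 | h2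
        · rw [merge_ch_le (by omega), merge_ch_le h2, ins_ch_ge h1, ih (by omega)]
        · rw [merge_ch_succ (by omega), merge_ch_gt h2, ins_ch_ge (by omega), ih h,
            Nat.sub_add_cancel (by omega)]

lemma merge_ins_of_lt {i j : ℕ} (h : j < i) (N : Code) :
    merge j (ins (i + 1) N) = ins i (merge j N) := by
  induction N generalizing i j with
  | nil => cases i <;> simp at h ⊢
  | emp N ih =>
    obtain ⟨i, rfl⟩ : ∃ i', i = i' + 1 := ⟨i - 1, by omega⟩
    cases j with
    | zero => simp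
    | succ j => simp [ih (show j < i by omega)]
  | ch l N ih =>
    obtain ⟨i, rfl⟩ : ∃ i', i = i' + 1 := ⟨i - 1, by omega⟩
    rcases le_or_gt l j with h1 | h1
    · rw [ins_ch_le (by omega), merge_ch_le h1, merge_ch_le h1, ins_ch_le (by omega),
        ih (by omega)]
    · obtain ⟨l, rfl⟩ : ∃ l', l = l' + 1 := ⟨l - 1, by omega⟩
      rw [merge_ch_succ (show j ≤ l by omega)]
      rcases le_or_gt l i with h2 | h2
      · rw [ins_ch_le (by omega), merge_ch_succ (by omega), ins_ch_le h2, ih (by omega)]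
      · rw [ins_ch_ge (by omega), merge_ch_succ (by omega), ins_ch_ge h2, ih h]

lemma cdel_ins (c i : ℕ) (N : Code) : cdel c (ins i N) = ins i (cdel c N) := by
  induction N generalizing c i with
  | nil => cases i <;> simp
  | emp N ih => cases i <;> simp [ih]
  | ch l N ih =>
    cases i with
    | zero => simp
    | succ i =>
      rcases le_or_gt l i with h | h
      · rw [ins_ch_le h]
        cases c with
        | zero => rw [cdel_zero_ch, cdel_zero_ch, merge_ins_of_lt (by omega)]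
        | succ c => rw [cdel_succ_ch, cdel_succ_ch, ins_ch_le h, ih]
      · rw [ins_ch_ge h]
        cases c with
        | zero => rw [cdel_zero_ch, cdel_zero_ch, merge_succ_ins (by omega)]
        | succ c => rw [cdel_succ_ch, cdel_succ_ch, ins_ch_ge h, ih]

/-! ### number of chords and well-formedness -/

theorem wf_ins {n i : ℕ} {N : Code} (h : wf n N) (hi : i ≤ n) : wf (n + 1) (ins i N) := by
  induction N generalizing n i with
  | nil =>
    cases i with
    | zero => exact h
    | succ i =>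
      obtain ⟨n, rfl⟩ : ∃ n', n = n' + 1 := ⟨n - 1, by omega⟩
      exact h.elim
  | emp N ih =>
    cases i with
    | zero => exact h
    | succ i =>
      obtain ⟨n, rfl⟩ : ∃ n', n = n' + 1 := ⟨n - 1, by omega⟩
      rw [ins_succ_emp, wf_succ_emp]
      exact ih h (by omega)
  | ch l N ih =>
    cases i with
    | zero => exact h
    | succ i =>
      obtain ⟨n, rfl⟩ : ∃ n', n = n' + 1 := ⟨n - 1, by omega⟩
      rw [wf_succ_ch] at h
      rcases le_or_gt l i with h1 | h1
      · rw [ins_ch_le h1, wf_succ_ch]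
        exact ⟨by omega, ih h.2 (by omega)⟩
      · rw [ins_ch_ge h1, wf_succ_ch]
        exact ⟨by omega, ih h.2 (by omega)⟩

theorem kk_ins' (i : ℕ) (N : Code) : kk (ins i N) = kk N := by
  induction N generalizing i with
  | nil => cases i <;> simp
  | emp N ih => cases i <;> simp [ih]
  | ch l N ih =>
    cases i with
    | zero => simp
    | succ i =>
      rcases le_or_gt l i with h | h
      · rw [ins_ch_le h, kk_ch, kk_ch, ih]
      · rw [ins_ch_ge h, kk_ch, kk_ch, ih]

theorem kk_ins {n i : ℕ} {N : Code} (_h : wf n N) (_hi : i ≤ n) : kk (ins i N) = kk N :=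
  kk_ins' i N

theorem wf_Fo {n r : ℕ} {N : Code} (hn : 0 < n) (h : wf n N) : wf (n + 1) (Fo r N) := by
  induction r with
  | zero => exact h
  | succ r ih =>
    rw [Fo, wf_succ_ch]
    exact ⟨by omega, ih⟩

theorem wf_Co {n r : ℕ} {N : Code} (hn : 0 < n) (h : wf n N) : wf n (Co r N) := by
  cases r with
  | zero => exact h
  | succ r =>
    obtain ⟨n, rfl⟩ : ∃ n', n = n' + 1 := ⟨n - 1, by omega⟩
    rw [Co, wf_succ_ch]
    exact ⟨by omega, wf_Fo hn h⟩

theorem wf_Bo {n s r : ℕ} {N : Code} (hs : 0 < s) (hs' : s < n) (h : wf n N) :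
    wf (n + 1) (Bo s r N) := by
  induction r with
  | zero =>
    rw [Bo, wf_succ_ch]
    exact ⟨by omega, wf_ins h hs'.le⟩
  | succ r ih =>
    rw [Bo, wf_succ_ch]
    exact ⟨by omega, ih⟩

theorem wf_Ko {n s r : ℕ} {N : Code} (hs : 0 < s) (hs' : s < n) (h : wf n N) : wf n (Ko s r N) := by
  obtain ⟨n, rfl⟩ : ∃ n', n = n' + 1 := ⟨n - 1, by omega⟩
  match r with
  | 0 => exact h
  | 1 =>
    rw [Ko, wf_succ_ch]
    exact ⟨by omega, wf_ins h hs'.le⟩
  | r + 2 =>
    rw [Ko, wf_succ_ch]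
    exact ⟨by omega, wf_Bo hs hs' h⟩

theorem wf_No {n t r : ℕ} {N : Code} (ht : 0 < t) (ht' : t < n) (h : wf n N) : wf n (No t r N) := by
  obtain ⟨n, rfl⟩ : ∃ n', n = n' + 1 := ⟨n - 1, by omega⟩
  match r with
  | 0 => exact h
  | 1 =>
    rw [No, wf_succ_ch]
    exact ⟨by omega, wf_ins h ht'.le⟩
  | r + 2 =>
    rw [No, wf_succ_ch, wf_succ_ch]
    exact ⟨by omega, by omega, wf_Fo (by omega) (wf_ins h ht'.le)⟩

theorem kk_Fo (r : ℕ) (N : Code) : kk (Fo r N) = kk N + r := by
  induction r with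
  | zero => rfl
  | succ r ih => rw [Fo, kk_ch, kk_emp, ih]; rfl

theorem kk_Co (r : ℕ) (N : Code) : kk (Co r N) = kk N + r := by
  cases r with
  | zero => rfl
  | succ r => rw [Co, kk_ch, kk_Fo]; rfl

theorem kk_Bo (s r : ℕ) (N : Code) : kk (Bo s r N) = kk N + r + 1 := by
  induction r with
  | zero => rw [Bo, kk_ch, kk_emp, kk_ins', Nat.add_zero]
  | succ r ih => rw [Bo, kk_ch, kk_emp, ih, Nat.add_assoc (kk N) r 1]

theorem kk_Ko (s r : ℕ) (N : Code) : kk (Ko s r N) = kk N + r := by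
  match r with
  | 0 => rfl
  | 1 => rw [Ko, kk_ch, kk_ins']
  | r + 2 => rw [Ko, kk_ch, kk_Bo]; rfl

theorem kk_No (t r : ℕ) (N : Code) : kk (No t r N) = kk N + r := by
  match r with
  | 0 => rfl
  | 1 => rw [No, kk_ch, kk_ins']
  | r + 2 => rw [No, kk_ch, kk_ch, kk_Fo, kk_ins']; rfl

/-! ### relations of the chain operators on codes -/

lemma merge_zero_Fo (r : ℕ) (N : Code) : merge 0 (Fo r N) = Co r N := by
  cases r with
  | zero => rfl
  | succ r =>
    rw [Fo, merge_ch_succ (le_refl 0), merge_zero_emp]; rfl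

lemma merge_zero_Bo (s r : ℕ) (N : Code) : merge 0 (Bo s r N) = Ko s (r + 1) N := by
  cases r with
  | zero => rw [Bo, merge_ch_succ (Nat.zero_le s), merge_zero_emp]; rfl
  | succ r => rw [Bo, merge_ch_succ (le_refl 0), merge_zero_emp]; rfl

lemma merge_succ_Fo (t r : ℕ) (N : Code) : merge (t + 1) (Fo r N) = Fo r (merge t N) := by
  induction r with
  | zero => rfl
  | succ r ih => rw [Fo, merge_ch_le (by omega), merge_succ_emp, ih]; rfl

lemma ins_succ_Fo {t : ℕ} (ht : 0 < t) (r : ℕ) (N : Code) :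
    ins (t + 1) (Fo r N) = Fo r (ins t N) := by
  induction r with
  | zero => rfl
  | succ r ih => rw [Fo, ins_ch_le (by omega), ins_succ_emp, ih]; rfl

lemma ins_Co {t : ℕ} (ht : 0 < t) (r : ℕ) (N : Code) : ins t (Co r N) = Co r (ins t N) := by
  cases r with
  | zero => rfl
  | succ r =>
    obtain ⟨t, rfl⟩ : ∃ t', t = t' + 1 := ⟨t - 1, by omega⟩
    rw [Co, ins_ch_le (by omega), ins_succ_Fo (by omega)]; rfl

section
variable (A' : Type*) [AddCommGroup A']

lemma op_id : op A' (fun N => N) = 1 := by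
  refine Finsupp.lhom_ext fun N a => ?_
  simp

theorem cbd_op_of_comm {f : Code → Code} (hk : ∀ N, kk (f N) = kk N)
    (hc : ∀ c N, cdel c (f N) = f (cdel c N)) : cbd A' * op A' f = op A' f * cbd A' := by
  refine Finsupp.lhom_ext fun N a => ?_
  simp only [Module.End.mul_apply, op_single, cbd_single, map_sum, map_zsmul, hk, hc]

theorem cbd_ins (i : ℕ) : cbd A' * op A' (ins i) = op A' (ins i) * cbd A' :=
  cbd_op_of_comm A' (fun _ => kk_ins' _ _) (fun _ _ => cdel_ins _ _ _)

/-! ### the boundary of the chain operators -/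

lemma op_Fo_zero : op A' (Fo 0) = op A' emp := rfl
lemma op_Fo_succ (r : ℕ) : op A' (Fo (r + 1)) = op A' (ch 1) * (op A' emp * op A' (Fo r)) := by
  rw [op_mul, op_mul]; rfl
lemma op_Co_zero : op A' (Co 0) = 1 := op_id A'
lemma op_Co_succ (r : ℕ) : op A' (Co (r + 1)) = op A' (ch 0) * op A' (Fo r) := by
  rw [op_mul]; rfl
lemma op_merge_zero_emp : op A' (merge 0) * op A' emp = 1 := by
  rw [op_mul]; exact op_id A'
lemma op_merge_zero_Fo (r : ℕ) : op A' (merge 0) * op A' (Fo r) = op A' (Co r) := by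
  rw [op_mul]; congr 1; funext N; exact merge_zero_Fo r N
lemma op_merge_one_emp : op A' (merge 1) * op A' emp = op A' emp * op A' (merge 0) := by
  rw [op_mul, op_mul]; rfl

theorem cbd_Fo (r : ℕ) : cbd A' * op A' (Fo r) =
    (∑ i ∈ Finset.range r, (-1) ^ i * (op A' (Fo i) * op A' (Co (r - 1 - i)))) +
      (-1) ^ r * (op A' (Fo r) * cbd A') := by
  induction r with
  | zero => simp [op_Fo_zero, cbd_emp]
  | succ r ih =>
    have h1 : cbd A' * op A' (Fo (r + 1)) =
        op A' emp * op A' (Co r) - op A' (ch 1) * (op A' emp * (cbd A' * op A' (Fo r))) := by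
      rw [op_Fo_succ, ← mul_assoc, cbd_ch, sub_mul, ← mul_assoc, op_merge_one_emp, mul_assoc,
        op_merge_zero_Fo, mul_assoc, ← mul_assoc (cbd A') (op A' emp), cbd_emp, mul_assoc]
    rw [h1, ih, Finset.sum_range_succ']
    have h2 : ∀ (X : Module.End ℤ (Code →₀ A')) (m : ℕ),
        op A' (ch 1) * (op A' emp * ((-1) ^ m * X)) = (-1) ^ m * (op A' (ch 1) * (op A' emp * X)) := by
      intro X m
      rcases neg_one_pow_eq_or (Module.End ℤ (Code →₀ A')) m with h | h <;> rw [h] <;> simp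
    have h3 : ∀ i ∈ Finset.range r,
        op A' (ch 1) * (op A' emp * ((-1) ^ i * (op A' (Fo i) * op A' (Co (r - 1 - i))))) =
        -((-1) ^ (i + 1) * (op A' (Fo (i + 1)) * op A' (Co (r + 1 - 1 - (i + 1))))) := by
      intro i hi
      rw [h2, op_Fo_succ, show r + 1 - 1 - (i + 1) = r - 1 - i by omega, pow_succ]
      simp only [mul_assoc, neg_mul, mul_neg, one_mul, neg_neg]
    rw [mul_add, mul_add, h2, Finset.mul_sum, Finset.mul_sum, Finset.sum_congr rfl h3,
      Finset.sum_neg_distrib, op_Fo_zero, op_Fo_succ, pow_succ]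
    simp only [mul_assoc, neg_mul, mul_neg, one_mul, pow_zero, Nat.sub_zero, Nat.add_sub_cancel]
    abel

lemma op_comm_neg_one_pow (X : Module.End ℤ (Code →₀ A')) (m : ℕ) :
    X * (-1) ^ m = (-1) ^ m * X := by
  rcases neg_one_pow_eq_or (Module.End ℤ (Code →₀ A')) m with h | h <;> rw [h] <;> simp

theorem cbd_Co (r : ℕ) : cbd A' * op A' (Co r) =
    (∑ i ∈ Finset.range r, (-1) ^ i * (op A' (Co i) * op A' (Co (r - 1 - i)))) +
      (-1) ^ r * (op A' (Co r) * cbd A') := by
  cases r with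
  | zero => simp [op_Co_zero]
  | succ r =>
    have h3 : ∀ i ∈ Finset.range r,
        op A' (ch 0) * ((-1) ^ i * (op A' (Fo i) * op A' (Co (r - 1 - i)))) =
        -((-1) ^ (i + 1) * (op A' (Co (i + 1)) * op A' (Co (r + 1 - 1 - (i + 1))))) := by
      intro i hi
      rw [← mul_assoc, op_comm_neg_one_pow, mul_assoc, op_Co_succ,
        show r + 1 - 1 - (i + 1) = r - 1 - i by omega, pow_succ]
      simp only [mul_assoc, neg_mul, mul_neg, one_mul, neg_neg]
    have h4 : op A' (ch 0) * ((-1) ^ r * (op A' (Fo r) * cbd A')) =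
        -((-1) ^ (r + 1) * (op A' (Co (r + 1)) * cbd A')) := by
      rw [← mul_assoc, op_comm_neg_one_pow, mul_assoc, op_Co_succ, pow_succ]
      simp only [mul_assoc, neg_mul, mul_neg, one_mul, neg_neg]
    rw [op_Co_succ, ← mul_assoc, cbd_ch, sub_mul, op_merge_zero_Fo, mul_assoc, cbd_Fo, mul_add,
      h4, Finset.mul_sum, Finset.sum_congr rfl h3, Finset.sum_neg_distrib,
      Finset.sum_range_succ', ← op_Co_succ]
    simp only [pow_zero, one_mul, Nat.sub_zero, Nat.add_sub_cancel, op_Co_zero]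
    abel

lemma op_Bo_succ (s r : ℕ) :
    op A' (Bo s (r + 1)) = op A' (ch 1) * (op A' emp * op A' (Bo s r)) := by
  rw [op_mul, op_mul]; rfl
lemma op_Bo_zero (s : ℕ) : op A' (Bo s 0) = op A' (ch (s + 1)) * (op A' emp * op A' (ins s)) := by
  rw [op_mul, op_mul]; rfl
lemma op_Ko_zero (s : ℕ) : op A' (Ko s 0) = 1 := op_id A'
lemma op_Ko_one (s : ℕ) : op A' (Ko s 1) = op A' (ch s) * op A' (ins s) := by
  rw [op_mul]; rfl
lemma op_Ko_succ_succ (s r : ℕ) : op A' (Ko s (r + 2)) = op A' (ch 0) * op A' (Bo s r) := by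
  rw [op_mul]; rfl
lemma op_merge_ins (s : ℕ) : op A' (merge s) * op A' (ins s) = 1 := by
  rw [op_mul]
  have : merge s ∘ ins s = fun N => N := by funext N; exact merge_ins s N
  rw [this]; exact op_id A'
lemma op_merge_zero_Bo (s r : ℕ) : op A' (merge 0) * op A' (Bo s r) = op A' (Ko s (r + 1)) := by
  rw [op_mul]; congr 1; funext N; exact merge_zero_Bo s r N
lemma op_merge_succ_emp (s : ℕ) :
    op A' (merge (s + 1)) * op A' emp = op A' emp * op A' (merge s) := by
  rw [op_mul, op_mul]; rfl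

theorem cbd_Bo (s r : ℕ) : cbd A' * op A' (Bo s r) =
    (∑ i ∈ Finset.range (r + 1), (-1) ^ i * (op A' (Fo i) * op A' (Ko s (r - i)))) +
      (-1) ^ (r + 1) * (op A' (Bo s r) * cbd A') := by
  induction r with
  | zero =>
    rw [op_Bo_zero, ← mul_assoc, cbd_ch, sub_mul, ← mul_assoc, op_merge_succ_emp, mul_assoc,
      op_merge_ins, mul_one, mul_assoc (op A' (ch (s + 1))), ← mul_assoc (cbd A') (op A' emp),
      cbd_emp, mul_assoc (op A' emp), cbd_ins]
    simp [op_Fo_zero, op_Ko_zero, sub_eq_add_neg, mul_assoc]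
  | succ r ih =>
    have h1 : cbd A' * op A' (Bo s (r + 1)) =
        op A' emp * op A' (Ko s (r + 1)) -
          op A' (ch 1) * (op A' emp * (cbd A' * op A' (Bo s r))) := by
      rw [op_Bo_succ, ← mul_assoc, cbd_ch, sub_mul, ← mul_assoc, op_merge_one_emp, mul_assoc,
        op_merge_zero_Bo, mul_assoc, ← mul_assoc (cbd A') (op A' emp), cbd_emp, mul_assoc]
    rw [h1, ih, Finset.sum_range_succ' _ (r + 1)]
    have h2 : ∀ (X : Module.End ℤ (Code →₀ A')) (m : ℕ),
        op A' (ch 1) * (op A' emp * ((-1) ^ m * X)) = (-1) ^ m * (op A' (ch 1) * (op A' emp * X)) := by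
      intro X m
      rcases neg_one_pow_eq_or (Module.End ℤ (Code →₀ A')) m with h | h <;> rw [h] <;> simp
    have h3 : ∀ i ∈ Finset.range (r + 1),
        op A' (ch 1) * (op A' emp * ((-1) ^ i * (op A' (Fo i) * op A' (Ko s (r - i))))) =
        -((-1) ^ (i + 1) * (op A' (Fo (i + 1)) * op A' (Ko s (r + 1 - (i + 1))))) := by
      intro i hi
      rw [h2, op_Fo_succ, show r + 1 - (i + 1) = r - i by omega, pow_succ]
      simp only [mul_assoc, neg_mul, mul_neg, one_mul, neg_neg]
    rw [mul_add, mul_add, h2, Finset.mul_sum, Finset.mul_sum, Finset.sum_congr rfl h3,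
      Finset.sum_neg_distrib, op_Fo_zero, op_Bo_succ, pow_succ _ (r + 1)]
    simp only [mul_assoc, neg_mul, mul_neg, one_mul, pow_zero, Nat.sub_zero]
    abel

theorem cbd_Ko' (s r : ℕ) : cbd A' * op A' (Ko s r) =
    (∑ i ∈ Finset.range r, (-1) ^ i * (op A' (Co i) * op A' (Ko s (r - 1 - i)))) +
      (-1) ^ r * (op A' (Ko s r) * cbd A') := by
  match r with
  | 0 => simp [op_Ko_zero]
  | 1 =>
    rw [op_Ko_one, ← mul_assoc, cbd_ch, sub_mul, op_merge_ins, mul_assoc, cbd_ins]
    simp [op_Co_zero, op_Ko_zero, sub_eq_add_neg, mul_assoc]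
  | r + 2 =>
    have h3 : ∀ i ∈ Finset.range (r + 1),
        op A' (ch 0) * ((-1) ^ i * (op A' (Fo i) * op A' (Ko s (r - i)))) =
        -((-1) ^ (i + 1) * (op A' (Co (i + 1)) * op A' (Ko s (r + 2 - 1 - (i + 1))))) := by
      intro i hi
      rw [← mul_assoc, op_comm_neg_one_pow, mul_assoc, op_Co_succ,
        show r + 2 - 1 - (i + 1) = r - i by omega, pow_succ]
      simp only [mul_assoc, neg_mul, mul_neg, one_mul, neg_neg]
    have h4 : op A' (ch 0) * ((-1) ^ (r + 1) * (op A' (Bo s r) * cbd A')) =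
        -((-1) ^ (r + 2) * (op A' (Ko s (r + 2)) * cbd A')) := by
      rw [← mul_assoc, op_comm_neg_one_pow, mul_assoc, op_Ko_succ_succ, pow_succ _ (r + 1)]
      simp only [mul_assoc, neg_mul, mul_neg, one_mul, neg_neg]
    rw [op_Ko_succ_succ, ← mul_assoc, cbd_ch, sub_mul, op_merge_zero_Bo, mul_assoc, cbd_Bo,
      mul_add, h4, Finset.mul_sum, Finset.sum_congr rfl h3, Finset.sum_neg_distrib,
      Finset.sum_range_succ' _ (r + 1), ← op_Ko_succ_succ]
    simp only [pow_zero, one_mul, Nat.sub_zero, op_Co_zero,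
      show r + 2 - 1 = r + 1 by omega]
    abel

theorem cbd_Ko {s : ℕ} (_hs : 0 < s) (r : ℕ) : cbd A' * op A' (Ko s r) =
    (∑ i ∈ Finset.range r, (-1) ^ i * (op A' (Co i) * op A' (Ko s (r - 1 - i)))) +
      (-1) ^ r * (op A' (Ko s r) * cbd A') := cbd_Ko' A' s r

/-- the signed operators `N_r` -/
noncomputable def opN (t r : ℕ) : Module.End ℤ (Code →₀ A') := sgN r • op A' (No t r)

lemma opN_zero (t : ℕ) : opN A' t 0 = 1 := by
  rw [opN, sgN, one_smul]; exact op_id A'
lemma opN_one (t : ℕ) : opN A' t 1 = op A' (ch t) * op A' (ins t) := by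
  rw [opN, sgN, one_smul, op_mul]; rfl
lemma opN_succ_succ (t r : ℕ) : opN A' t (r + 2) =
    -(op A' (ch 0) * (op A' (ch (t + 1)) * (op A' (Fo r) * op A' (ins t)))) := by
  rw [opN, sgN, op_mul, op_mul, op_mul, neg_smul, one_smul]; rfl
lemma op_ins_Co {t : ℕ} (ht : 0 < t) (r : ℕ) :
    op A' (Co r) * op A' (ins t) = op A' (ins t) * op A' (Co r) := by
  rw [op_mul, op_mul]; congr 1; funext N; exact (ins_Co ht r N).symm
lemma op_merge_succ_Fo_ins (t r : ℕ) :
    op A' (merge (t + 1)) * (op A' (Fo r) * op A' (ins t)) = op A' (Fo r) := by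
  rw [op_mul, op_mul]; congr 1; funext N
  change merge (t + 1) (Fo r (ins t N)) = Fo r N
  rw [merge_succ_Fo, merge_ins]
lemma op_merge_zero_ch_succ (t : ℕ) :
    op A' (merge 0) * op A' (ch (t + 1)) = op A' (ch t) * op A' (merge 0) := by
  rw [op_mul, op_mul]; congr 1

theorem cbd_opN' {t : ℕ} (ht : 0 < t) (r : ℕ) : cbd A' * opN A' t r =
    (∑ i ∈ Finset.range r, (-1) ^ i * (opN A' t i * op A' (Co (r - 1 - i)))) +
      (-1) ^ r * (opN A' t r * cbd A') := by
  match r with
  | 0 => simp [opN_zero]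
  | 1 =>
    rw [opN_one, ← mul_assoc, cbd_ch, sub_mul, op_merge_ins, mul_assoc, cbd_ins]
    simp [opN_zero, op_Co_zero, sub_eq_add_neg, mul_assoc]
  | r + 2 =>
    -- boundary of `F_r ins_t`
    have h0 : cbd A' * (op A' (Fo r) * op A' (ins t)) =
        (∑ i ∈ Finset.range r, (-1) ^ i *
          (op A' (Fo i) * (op A' (ins t) * op A' (Co (r - 1 - i))))) +
        (-1) ^ r * (op A' (Fo r) * (op A' (ins t) * cbd A')) := by
      rw [← mul_assoc, cbd_Fo, add_mul, Finset.sum_mul]
      congr 1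
      · refine Finset.sum_congr rfl fun i _ => ?_
        rw [mul_assoc, mul_assoc, op_ins_Co A' ht]
      · rw [mul_assoc, mul_assoc, cbd_ins]
    have h1 : cbd A' * (op A' (ch (t + 1)) * (op A' (Fo r) * op A' (ins t))) =
        op A' (Fo r) - op A' (ch (t + 1)) * (cbd A' * (op A' (Fo r) * op A' (ins t))) := by
      rw [← mul_assoc, cbd_ch, sub_mul, op_merge_succ_Fo_ins, mul_assoc]
    have h2 : cbd A' * opN A' t (r + 2) =
        -(op A' (ch t) * op A' (ins t) * op A' (Co r)) + op A' (Co (r + 1)) -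
        op A' (ch 0) * (op A' (ch (t + 1)) * (cbd A' * (op A' (Fo r) * op A' (ins t)))) := by
      rw [opN_succ_succ, mul_neg, ← mul_assoc, cbd_ch, sub_mul, ← mul_assoc,
        op_merge_zero_ch_succ, mul_assoc (op A' (ch t)), ← mul_assoc (op A' (merge 0)),
        op_merge_zero_Fo, op_ins_Co A' ht, mul_assoc (op A' (ch 0)), h1, mul_sub, ← op_Co_succ,
        mul_assoc]
      abel
    have h3 : ∀ (X : Module.End ℤ (Code →₀ A')) (m : ℕ),
        op A' (ch 0) * (op A' (ch (t + 1)) * ((-1) ^ m * X)) =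
          (-1) ^ m * (op A' (ch 0) * (op A' (ch (t + 1)) * X)) := by
      intro X m
      rcases neg_one_pow_eq_or (Module.End ℤ (Code →₀ A')) m with h | h <;> rw [h] <;> simp
    have h4 : ∀ i ∈ Finset.range r, op A' (ch 0) * (op A' (ch (t + 1)) * ((-1) ^ i *
          (op A' (Fo i) * (op A' (ins t) * op A' (Co (r - 1 - i)))))) =
        -((-1) ^ (i + 1 + 1) * (opN A' t (i + 1 + 1) *
          op A' (Co (r + 2 - 1 - (i + 1 + 1))))) := by
      intro i hi
      rw [h3, opN_succ_succ, show r + 2 - 1 - (i + 1 + 1) = r - 1 - i by omega, pow_succ, pow_succ]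
      simp only [mul_assoc, neg_mul, mul_neg, one_mul, neg_neg]
    rw [h2, h0, mul_add, mul_add, h3, Finset.mul_sum, Finset.mul_sum, Finset.sum_congr rfl h4,
      Finset.sum_neg_distrib, Finset.sum_range_succ', Finset.sum_range_succ', opN_zero, opN_one,
      opN_succ_succ, pow_succ _ (r + 1), pow_succ _ r]
    simp only [mul_assoc, neg_mul, mul_neg, one_mul, neg_neg, pow_zero, Nat.sub_zero,
      show r + 2 - 1 = r + 1 by omega, zero_add, pow_one, Nat.add_sub_cancel]
    abel

theorem cbd_opN {t : ℕ} (ht : 0 < t) (r : ℕ) (_hr : Even r) : cbd A' * opN A' t r =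
    (∑ i ∈ Finset.range r, (-1) ^ i * (opN A' t i * op A' (Co (r - 1 - i)))) +
      (-1) ^ r * (opN A' t r * cbd A') := cbd_opN' A' ht r

end

end ArcC
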