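import Mathlib

/-! The ring theoretic part of the surjectivity lemma (S). -/

namespace ArcC

open PowerSeries

section

variable {R : Type*} [Ring R]

/-- the sign automorphism `X ↦ -X` -/
noncomputable def sgn (φ : R⟦X⟧) : R⟦X⟧ := PowerSeries.mk fun n => (-1) ^ n * coeff n φ

@[simp] lemma coeff_sgn (n : ℕ) (φ : R⟦X⟧) : coeff n (sgn φ) = (-1) ^ n * coeff n φ := by
  simp [sgn]

lemma sgn_mul (φ ψ : R⟦X⟧) : sgn (φ * ψ) = sgn φ * sgn ψ := by
  ext n
  rw [coeff_sgn, coeff_mul, coeff_mul, Finset.mul_sum]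
  refine Finset.sum_congr rfl fun p hp => ?_
  rw [Finset.HasAntidiagonal.mem_antidiagonal] at hp
  rw [coeff_sgn, coeff_sgn, ← hp, pow_add]
  have h : Commute ((-1 : R) ^ p.2) (coeff p.1 φ) := (Commute.neg_one_left _).pow_left _
  rw [mul_assoc, mul_assoc, ← mul_assoc ((-1 : R) ^ p.2), h.eq, mul_assoc]

lemma sgn_one : sgn (1 : R⟦X⟧) = 1 := by
  ext n
  rw [coeff_sgn, coeff_one]
  split_ifs with h
  · simp [h]
  · simp

lemma sgn_pow {f : R⟦X⟧} (h : sgn f = f) (s : ℕ) : sgn (f ^ s) = f ^ s := by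
  induction s with
  | zero => simpa using sgn_one
  | succ s ih => rw [pow_succ, sgn_mul, ih, h]

variable (δ T : R) (N f g K : R⟦X⟧)

/-- the operators `p s` -/
noncomputable def pS (s : ℕ) : R⟦X⟧ := N * f ^ s * K

lemma delta_pS (h1 : C δ * N = N * (C δ + g)) (h2 : (C δ + g) * f = f * (C δ + g))
    (h3 : (C δ + g) * K = sgn K * C δ) (hN : sgn N = N) (hf : sgn f = f) (s : ℕ) :
    C δ * pS N f K s = sgn (pS N f K s) * C δ := by
  have h2' : (C δ + g) * f ^ s = f ^ s * (C δ + g) := by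
    have : Commute (C δ + g) (f ^ s) := Commute.pow_right h2 s
    exact this
  unfold pS
  rw [sgn_mul, sgn_mul, hN, sgn_pow hf, ← mul_assoc, ← mul_assoc, h1]
  rw [mul_assoc N, h2', mul_assoc, mul_assoc, h3]
  simp only [mul_assoc]

lemma T_pS (h4 : C T * N = N * C T) (h5 : C T * f = f * C T)
    (h6 : C T * K = sgn K * C T + X * f * K) (hN : sgn N = N) (hf : sgn f = f) (s : ℕ) :
    C T * pS N f K s = sgn (pS N f K s) * C T + X * pS N f K (s + 1) := by
  have h5' : C T * f ^ s = f ^ s * C T := by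
    have : Commute (C T) (f ^ s) := Commute.pow_right h5 s
    exact this
  unfold pS
  rw [sgn_mul, sgn_mul, hN, sgn_pow hf, ← mul_assoc, ← mul_assoc, h4]
  rw [mul_assoc N, h5', mul_assoc, mul_assoc, h6, mul_add, mul_add]
  congr 1
  · simp only [mul_assoc]
  · have hX : ∀ φ : R⟦X⟧, φ * X = X * φ := fun φ => (commute_X φ).eq
    rw [pow_succ]
    simp only [← mul_assoc]
    rw [mul_assoc N (f ^ s) X, hX, ← mul_assoc N X, hX]

end

/-- abstract form of (S): every `δ`-cycle on which `T` is nilpotent is `T` of a `δ`-cycle. -/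
theorem ring_S {V : Type*} [AddCommGroup V] (δ T : Module.End ℤ V)
    (N f g K : (Module.End ℤ V)⟦X⟧)
    (hN0 : coeff 0 N = 1) (hf0 : coeff 0 f = 1) (hK0 : coeff 0 K = 1)
    (h1 : C δ * N = N * (C δ + g)) (h2 : (C δ + g) * f = f * (C δ + g))
    (h3 : (C δ + g) * K = sgn K * C δ)
    (h4 : C T * N = N * C T) (h5 : C T * f = f * C T)
    (h6 : C T * K = sgn K * C T + X * f * K) (hN : sgn N = N) (hf : sgn f = f)
    (hδT : δ * T = - (T * δ)) (y : V) (hy : δ y = 0) (m : ℕ) (hm : (T ^ m) y = 0) :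
    ∃ z, δ z = 0 ∧ T z = y := by
  have hp0 : ∀ s, coeff 0 (pS N f K s) = 1 := by
    intro s
    unfold pS
    rw [coeff_zero_eq_constantCoeff] at *
    simp [hN0, hf0, hK0]
  have hδ : ∀ s j (v : V), δ v = 0 → δ ((coeff j (pS N f K s)) v) = 0 := by
    intro s j v hv
    have h := congrArg (coeff j) (delta_pS δ N f g K h1 h2 h3 hN hf s)
    rw [coeff_C_mul, coeff_mul_C, coeff_sgn] at h
    have h' := congrArg (fun P : Module.End ℤ V => P v) h
    simp only [Module.End.mul_apply, hv, map_zero] at h'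
    exact h'
  have hT : ∀ s j (v : V), ∃ ε : ℤ, T ((coeff (j + 1) (pS N f K s)) v) =
      ε • (coeff (j + 1) (pS N f K s)) (T v) + (coeff j (pS N f K (s + 1))) v := by
    intro s j v
    have h := congrArg (coeff (j + 1)) (T_pS T N f K h4 h5 h6 hN hf s)
    rw [coeff_C_mul, map_add, coeff_mul_C, coeff_sgn, coeff_succ_X_mul] at h
    have h' := congrArg (fun P : Module.End ℤ V => P v) h
    refine ⟨(-1) ^ (j + 1), ?_⟩
    simp only [Module.End.mul_apply, LinearMap.add_apply] at h'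
    rw [h']
    congr 1
    rcases neg_one_pow_eq_or (Module.End ℤ V) (j + 1) with h | h <;>
      rcases Nat.even_or_odd (j + 1) with he | ho
    · rw [he.neg_one_pow, he.neg_one_pow]; simp
    · rw [ho.neg_one_pow, ho.neg_one_pow]; simp
    · rw [he.neg_one_pow, he.neg_one_pow]; simp
    · rw [ho.neg_one_pow, ho.neg_one_pow]; simp
  have key : ∀ t (v : V), δ v = 0 → (T ^ t) v = 0 → ∀ s, t ≤ s → ∀ j,
      ∃ z, δ z = 0 ∧ T z = (coeff j (pS N f K s)) v := by
    intro t
    induction t with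
    | zero =>
      intro v _ hv s _ j
      have : v = 0 := by simpa using hv
      exact ⟨0, by simp, by simp [this]⟩
    | succ t ih =>
      intro v hv hTv s hs j
      obtain ⟨s', rfl⟩ : ∃ s', s = s' + 1 := ⟨s - 1, by omega⟩
      have hδTv : δ (T v) = 0 := by
        have := congrArg (fun P : Module.End ℤ V => P v) hδT
        simpa [hv] using this
      have hTTv : (T ^ t) (T v) = 0 := by
        rw [← Module.End.mul_apply, ← pow_succ]; exact hTv
      obtain ⟨z', hz'1, hz'2⟩ := ih (T v) hδTv hTTv s' (by omega) (j + 1)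
      obtain ⟨ε, hε⟩ := hT s' j v
      refine ⟨(coeff (j + 1) (pS N f K s')) v - ε • z', ?_, ?_⟩
      · rw [map_sub, hδ _ _ _ hv, map_zsmul, hz'1]; simp
      · rw [map_sub, hε, map_zsmul, hz'2]; abel
  obtain ⟨z, hz1, hz2⟩ := key m y hy hm m le_rfl 0
  exact ⟨z, hz1, by rw [hz2, hp0]; rfl⟩

end ArcC
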