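import Mathlib
import Pool.Agent.Lib.MP_e5080e_gt.RingS

/-! Filtering of chains, components of operators with respect to a grading by a group. -/

namespace ArcC

section

variable {X : Type*} {A : Type*} [AddCommGroup A]

open scoped Classical in
/-- filter as an endomorphism -/
noncomputable def flt (p : X → Prop) : Module.End ℤ (X →₀ A) where
  toFun := fun x => x.filter p
  map_add' := fun _ _ => Finsupp.filter_add
  map_smul' := fun _ _ => Finsupp.filter_smul

lemma flt_apply (p : X → Prop) (x : X →₀ A) (N : X) [Decidable (p N)] :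
    (flt p x) N = if p N then x N else 0 := by
  classical
  change (x.filter p) N = _
  rw [Finsupp.filter_apply]
  congr

lemma flt_apply_pos {p : X → Prop} (x : X →₀ A) {N : X} (h : p N) : (flt p x) N = x N := by
  classical
  rw [flt_apply, if_pos h]

lemma flt_apply_neg {p : X → Prop} (x : X →₀ A) {N : X} (h : ¬ p N) : (flt p x) N = 0 := by
  classical
  rw [flt_apply, if_neg h]

lemma flt_eq_self {p : X → Prop} {x : X →₀ A} (h : ∀ N, x N ≠ 0 → p N) : flt p x = x := by
  ext N
  by_cases hN : p N
  · rw [flt_apply_pos _ hN]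
  · rw [flt_apply_neg _ hN]
    by_contra h'
    exact hN (h N (Ne.symm h'))

lemma flt_eq_zero {p : X → Prop} {x : X →₀ A} (h : ∀ N, p N → x N = 0) : flt p x = 0 := by
  ext N
  by_cases hN : p N
  · rw [flt_apply_pos _ hN, h N hN]; rfl
  · rw [flt_apply_neg _ hN]; rfl

lemma flt_congr {p q : X → Prop} {x : X →₀ A} (h : ∀ N, x N ≠ 0 → (p N ↔ q N)) :
    flt p x = flt q x := by
  classical
  ext N
  by_cases hN : x N = 0
  · by_cases h1 : p N <;> by_cases h2 : q N <;> simp [flt_apply, h1, h2, hN]
  · have := h N hN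
    by_cases h1 : p N
    · rw [flt_apply_pos _ h1, flt_apply_pos _ (this.1 h1)]
    · rw [flt_apply_neg _ h1, flt_apply_neg _ (fun h2 => h1 (this.2 h2))]

lemma eq_sum_single (x : X →₀ A) : x = ∑ N ∈ x.support, Finsupp.single N (x N) := by
  conv_lhs => rw [← Finsupp.sum_single x]
  rfl

variable {G : Type*} [Group G] (gr : X → G)

/-- the component of degree `γ` of an operator -/
noncomputable def comp (γ : G) (P : Module.End ℤ (X →₀ A)) : Module.End ℤ (X →₀ A) :=
  Finsupp.lsum ℤ fun N => (flt fun N' => gr N' = gr N * γ) ∘ₗ P ∘ₗ Finsupp.lsingle N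

lemma comp_single (γ : G) (P : Module.End ℤ (X →₀ A)) (N : X) (a : A) :
    comp gr γ P (Finsupp.single N a) = flt (fun N' => gr N' = gr N * γ) (P (Finsupp.single N a)) := by
  simp [comp]

lemma comp_apply_of (γ : G) (P : Module.End ℤ (X →₀ A)) (x : X →₀ A) (h : G)
    (hx : ∀ N, x N ≠ 0 → gr N = h) :
    comp gr γ P x = flt (fun N' => gr N' = h * γ) (P x) := by
  conv_lhs => rw [eq_sum_single x]
  conv_rhs => rw [eq_sum_single x]
  rw [map_sum, map_sum, map_sum]
  refine Finset.sum_congr rfl fun N hN => ?_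
  rw [Finsupp.mem_support_iff] at hN
  rw [comp_single, hx N hN]

lemma comp_add (γ : G) (P Q : Module.End ℤ (X →₀ A)) :
    comp gr γ (P + Q) = comp gr γ P + comp gr γ Q := by
  refine Finsupp.lhom_ext fun N a => ?_
  rw [LinearMap.add_apply, comp_single, comp_single, comp_single, LinearMap.add_apply, map_add]

lemma comp_zero (γ : G) : comp gr γ (0 : Module.End ℤ (X →₀ A)) = 0 := by
  refine Finsupp.lhom_ext fun N a => ?_
  rw [comp_single]; simp

lemma comp_neg (γ : G) (P : Module.End ℤ (X →₀ A)) :
    comp gr γ (-P) = - comp gr γ P := by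
  refine Finsupp.lhom_ext fun N a => ?_
  rw [LinearMap.neg_apply, comp_single, comp_single, LinearMap.neg_apply, map_neg]

lemma comp_sum {ι : Type*} (s : Finset ι) (γ : G) (P : ι → Module.End ℤ (X →₀ A)) :
    comp gr γ (∑ i ∈ s, P i) = ∑ i ∈ s, comp gr γ (P i) := by
  classical
  induction s using Finset.induction_on with
  | empty => simp [comp_zero]
  | insert a s ha ih => rw [Finset.sum_insert ha, Finset.sum_insert ha, comp_add, ih]

lemma comp_negpow (γ : G) (n : ℕ) (P : Module.End ℤ (X →₀ A)) :
    comp gr γ ((-1) ^ n * P) = (-1) ^ n * comp gr γ P := by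
  rcases Nat.even_or_odd n with he | ho
  · rw [he.neg_one_pow]; simp
  · rw [ho.neg_one_pow]; simp [comp_neg]

/-- `Q` is homogeneous of degree `κ` -/
def Homog (κ : G) (Q : Module.End ℤ (X →₀ A)) : Prop :=
  ∀ N a N', (Q (Finsupp.single N a)) N' ≠ 0 → gr N' = gr N * κ

variable {gr}

lemma Homog.flt_comm {κ : G} {Q : Module.End ℤ (X →₀ A)} (hQ : Homog gr κ Q) (h : G)
    (x : X →₀ A) :
    flt (fun N => gr N = h * κ) (Q x) = Q (flt (fun N => gr N = h) x) := by
  conv_lhs => rw [eq_sum_single x]
  conv_rhs => rw [eq_sum_single x]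
  rw [map_sum, map_sum, map_sum, map_sum]
  refine Finset.sum_congr rfl fun N _ => ?_
  by_cases hN : gr N = h
  · rw [flt_eq_self (x := Finsupp.single N (x N)), flt_eq_self]
    · intro N' hN'
      rw [hQ N _ N' hN', hN]
    · intro N' hN'
      have : N = N' := by
        by_contra hne
        exact hN' (Finsupp.single_eq_of_ne (Ne.symm hne))
      rw [← this, hN]
  · rw [flt_eq_zero (x := Finsupp.single N (x N)), flt_eq_zero, map_zero]
    · intro N' hN'
      by_contra h0
      have := hQ N _ N' h0
      rw [hN'] at this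
      exact hN (mul_right_cancel this).symm
    · intro N' hN'
      have : N ≠ N' := by rintro rfl; exact hN hN'
      exact Finsupp.single_eq_of_ne (Ne.symm this)

lemma Homog.apply {κ : G} {Q : Module.End ℤ (X →₀ A)} (hQ : Homog gr κ Q) (h : G)
    (x : X →₀ A) (hx : ∀ N, x N ≠ 0 → gr N = h) (N : X) (hN : (Q x) N ≠ 0) : gr N = h * κ := by
  have h1 : flt (fun N => gr N = h) x = x := flt_eq_self hx
  by_contra hne
  rw [← h1, ← hQ.flt_comm h x, flt_apply_neg (p := fun N => gr N = h * κ) _ hne] at hN
  exact hN rfl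

lemma comp_mul_homog {κ : G} {Q : Module.End ℤ (X →₀ A)} (hQ : Homog gr κ Q) (γ : G)
    (P : Module.End ℤ (X →₀ A)) : comp gr γ (P * Q) = comp gr (κ⁻¹ * γ) P * Q := by
  refine Finsupp.lhom_ext fun N a => ?_
  rw [comp_single, Module.End.mul_apply, Module.End.mul_apply,
    comp_apply_of gr _ P _ (gr N * κ) (fun N' h => hQ N a N' h)]
  congr 1
  congr 1
  funext N'
  simp [mul_assoc]

lemma comp_homog_mul {κ : G} {Q : Module.End ℤ (X →₀ A)} (hQ : Homog gr κ Q) (γ : G)
    (P : Module.End ℤ (X →₀ A)) : comp gr γ (Q * P) = Q * comp gr (γ * κ⁻¹) P := by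
  refine Finsupp.lhom_ext fun N a => ?_
  rw [comp_single, Module.End.mul_apply, Module.End.mul_apply, comp_single, ← hQ.flt_comm]
  congr 1
  congr 1
  funext N'
  simp [mul_assoc]

lemma comp_self {κ : G} {Q : Module.End ℤ (X →₀ A)} (hQ : Homog gr κ Q) : comp gr κ Q = Q := by
  refine Finsupp.lhom_ext fun N a => ?_
  rw [comp_single]
  exact flt_eq_self fun N' h => hQ N a N' h

lemma comp_ne {κ γ : G} {Q : Module.End ℤ (X →₀ A)} (hQ : Homog gr κ Q) (h : γ ≠ κ) :
    comp gr γ Q = 0 := by
  refine Finsupp.lhom_ext fun N a => ?_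
  rw [comp_single]
  refine flt_eq_zero fun N' hN' => ?_
  by_contra h0
  have := hQ N a N' h0
  rw [hN'] at this
  exact h (mul_left_cancel this)

lemma homog_comp (γ : G) (P : Module.End ℤ (X →₀ A)) : Homog gr γ (comp gr γ P) := by
  intro N a N' h
  by_contra hne
  rw [comp_single, flt_apply_neg (p := fun N' => gr N' = gr N * γ) _ hne] at h
  exact h rfl

lemma Homog.mul {κ₁ κ₂ : G} {Q₁ Q₂ : Module.End ℤ (X →₀ A)} (h₁ : Homog gr κ₁ Q₁)
    (h₂ : Homog gr κ₂ Q₂) : Homog gr (κ₂ * κ₁) (Q₁ * Q₂) := by
  intro N a N' h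
  rw [← mul_assoc]
  exact h₁.apply (gr N * κ₂) _ (fun N'' h'' => h₂ N a N'' h'') N' h

lemma Homog.one : Homog gr 1 (1 : Module.End ℤ (X →₀ A)) := by
  intro N a N' h
  have : N = N' := by
    by_contra hne
    exact h (Finsupp.single_eq_of_ne (Ne.symm hne))
  simp [this]

/-- operators induced by maps -/
lemma Homog.lmap {κ : G} {q : X → X} (hq : ∀ N, gr (q N) = gr N * κ) :
    Homog gr κ (Finsupp.lmapDomain A ℤ q) := by
  intro N a N' h
  rw [Finsupp.lmapDomain_apply, Finsupp.mapDomain_single] at h
  have : q N = N' := by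
    by_contra hne
    exact h (Finsupp.single_eq_of_ne (Ne.symm hne))
  rw [← this, hq]

variable (gr)

/-- two components of `D * D = 0` -/
lemma comp_sq {D : Module.End ℤ (X →₀ A)} (hD : D * D = 0) (S : Set G)
    (hS : ∀ N a N', (D (Finsupp.single N a)) N' ≠ 0 → (gr N)⁻¹ * gr N' ∈ S) (t : G)
    (ht : ∀ γ₁ ∈ S, ∀ γ₂ ∈ S, γ₁ * γ₂ = t → (γ₁ = 1 ∧ γ₂ = t) ∨ (γ₁ = t ∧ γ₂ = 1)) (ht1 : t ≠ 1) :
    comp gr 1 D * comp gr t D = - (comp gr t D * comp gr 1 D) := by
  rw [eq_neg_iff_add_eq_zero]
  refine Finsupp.lhom_ext fun N a => ?_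
  have h0 : flt (fun N' => gr N' = gr N * t) (D (D (Finsupp.single N a))) = 0 := by
    have := congrArg (fun P : Module.End ℤ (X →₀ A) => P (Finsupp.single N a)) hD
    simp only [Module.End.mul_apply, LinearMap.zero_apply] at this
    rw [this, map_zero]
  rw [LinearMap.zero_apply, ← h0, LinearMap.add_apply, Module.End.mul_apply, Module.End.mul_apply,
    comp_single, comp_single]
  set y := D (Finsupp.single N a) with hy
  have e1 : comp gr 1 D (flt (fun N' => gr N' = gr N * t) y) =
      flt (fun N' => gr N' = gr N * t) (D (flt (fun N' => gr N' = gr N * t) y)) := by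
    rw [comp_apply_of gr 1 D _ (gr N * t)]
    · simp
    · intro N' h
      by_contra hne
      exact h (flt_apply_neg _ hne)
  have e2 : comp gr t D (flt (fun N' => gr N' = gr N * 1) y) =
      flt (fun N' => gr N' = gr N * t) (D (flt (fun N' => gr N' = gr N * 1) y)) := by
    rw [comp_apply_of gr t D _ (gr N * 1)]
    · simp
    · intro N' h
      by_contra hne
      exact h (flt_apply_neg _ hne)
  rw [e1, e2]
  conv_rhs => rw [eq_sum_single y]
  conv_lhs => rw [eq_sum_single y]
  simp only [map_sum]
  rw [← Finset.sum_add_distrib]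
  refine Finset.sum_congr rfl fun N' hN' => ?_
  rw [Finsupp.mem_support_iff] at hN'
  have hs := hS N a N' hN'
  have single_grade : ∀ N'', (Finsupp.single N' (y N') : X →₀ A) N'' ≠ 0 → N'' = N' := by
    intro N'' h
    by_contra hne
    exact h (Finsupp.single_eq_of_ne hne)
  by_cases c1 : gr N' = gr N * t
  · have c2 : gr N' ≠ gr N * 1 := by
      intro h; rw [c1] at h; exact ht1 (mul_left_cancel h)
    rw [flt_eq_self (p := fun N' => gr N' = gr N * t) (x := Finsupp.single N' (y N')),
      flt_eq_zero (p := fun N' => gr N' = gr N * 1) (x := Finsupp.single N' (y N'))]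
    · simp
    · intro N'' h
      by_contra hne
      rw [single_grade N'' hne] at h
      exact c2 h
    · intro N'' hne
      rw [single_grade N'' hne]; exact c1
  · by_cases c2 : gr N' = gr N * 1
    · rw [flt_eq_zero (p := fun N' => gr N' = gr N * t) (x := Finsupp.single N' (y N')),
        flt_eq_self (p := fun N' => gr N' = gr N * 1) (x := Finsupp.single N' (y N'))]
      · simp
      · intro N'' hne
        rw [single_grade N'' hne]; exact c2
      · intro N'' h
        by_contra hne
        rw [single_grade N'' hne] at h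
        exact c1 h
    · rw [flt_eq_zero (p := fun N' => gr N' = gr N * t) (x := Finsupp.single N' (y N')),
        flt_eq_zero (p := fun N' => gr N' = gr N * 1) (x := Finsupp.single N' (y N'))]
      · simp only [map_zero, add_zero]
        symm
        refine flt_eq_zero fun N'' hN'' => ?_
        by_contra hne
        have hs2 := hS N' _ N'' hne
        rcases ht _ hs _ hs2 (by rw [mul_assoc, mul_inv_cancel_left, hN'']; simp) with h | h
        · exact c2 (by rw [inv_mul_eq_iff_eq_mul] at h; exact h.1)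
        · exact c1 (by have := h.1; rw [inv_mul_eq_iff_eq_mul] at this; exact this)
      · intro N'' h
        by_contra hne
        rw [single_grade N'' hne] at h
        exact c2 h
      · intro N'' h
        by_contra hne
        rw [single_grade N'' hne] at h
        exact c1 h

end

end ArcC
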