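import Mathlib
import Pool.Agent.Lib.MP_e5080e_gt.Comp

/-! The surjectivity lemma (S) in an abstract setting. -/

namespace ArcC

open Equiv PowerSeries

/-- grading group element -/
def gd (p : Perm ℕ) (m : ℤ) : Perm ℕ × Multiplicative ℤ := (p, Multiplicative.ofAdd m)

lemma gd_mul (p q : Perm ℕ) (m n : ℤ) : gd p m * gd q n = gd (p * q) (m + n) := rfl
lemma gd_one : gd 1 0 = 1 := rfl
lemma gd_inv (p : Perm ℕ) (m : ℤ) : (gd p m)⁻¹ = gd p⁻¹ (-m) := rfl

lemma gd_inj {p q : Perm ℕ} {m n : ℤ} : gd p m = gd q n ↔ p = q ∧ m = n := by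
  unfold gd
  rw [Prod.mk.injEq]
  constructor
  · rintro ⟨h1, h2⟩; exact ⟨h1, Multiplicative.ofAdd.injective h2⟩
  · rintro ⟨h1, h2⟩; exact ⟨h1, by rw [h2]⟩

section

variable {B : Type*} {A : Type*} [AddCommGroup A] (gr : B → Perm ℕ × Multiplicative ℤ)

/-- level shift of the floating chains -/
def lc (r : ℕ) : ℤ := if Even r then (r : ℤ) else r + 1

/-- The data of chains of operators. -/
structure ChainOps (D : Module.End ℤ (B →₀ A)) (Cc Kk Nn : ℕ → Module.End ℤ (B →₀ A))
    (τ τ' : Perm ℕ) : Prop where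
  ττ : τ * τ = 1
  τ1 : τ ≠ 1
  τ1' : τ' ≠ 1
  ττ' : τ ≠ τ'
  C0 : Cc 0 = 1
  K0 : Kk 0 = 1
  N0 : Nn 0 = 1
  hC : ∀ r, Homog gr (gd 1 (lc r)) (Cc r)
  hK : ∀ r : ℕ, Homog gr (gd (τ ^ r) r) (Kk r)
  hN : ∀ r : ℕ, Homog gr (gd (if Even r then 1 else τ') r) (Nn r)
  dC : ∀ r, D * Cc r = (∑ i ∈ Finset.range r, (-1) ^ i * (Cc i * Cc (r - 1 - i))) +
    (-1) ^ r * (Cc r * D)
  dK : ∀ r, D * Kk r = (∑ i ∈ Finset.range r, (-1) ^ i * (Cc i * Kk (r - 1 - i))) +
    (-1) ^ r * (Kk r * D)
  dN : ∀ r, Even r → D * Nn r = (∑ i ∈ Finset.range r, (-1) ^ i * (Nn i * Cc (r - 1 - i))) +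
    (-1) ^ r * (Nn r * D)

variable {gr}
variable {D : Module.End ℤ (B →₀ A)} {Cc Kk Nn : ℕ → Module.End ℤ (B →₀ A)} {τ τ' : Perm ℕ}

/-- extraction of a component from a formula for `D * Q` -/
lemma extract {κ : Perm ℕ × Multiplicative ℤ} {Q : Module.End ℤ (B →₀ A)} (hQ : Homog gr κ Q)
    {r : ℕ} {P : ℕ → Module.End ℤ (B →₀ A)} {κ' : ℕ → Perm ℕ × Multiplicative ℤ}
    (hP : ∀ i < r, Homog gr (κ' i) (P i))
    (h : D * Q = (∑ i ∈ Finset.range r, (-1) ^ i * P i) + (-1) ^ r * (Q * D))
    (γ : Perm ℕ × Multiplicative ℤ) [∀ i, Decidable (κ * γ = κ' i)] :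
    comp gr γ D * Q = (∑ i ∈ Finset.range r, if κ * γ = κ' i then (-1) ^ i * P i else 0) +
      (-1) ^ r * (Q * comp gr (κ * γ * κ⁻¹) D) := by
  have h1 := congrArg (comp gr (κ * γ)) h
  rw [comp_mul_homog hQ, inv_mul_cancel_left, comp_add, comp_sum, comp_negpow,
    comp_homog_mul hQ] at h1
  rw [h1]
  congr 1
  refine Finset.sum_congr rfl fun i hi => ?_
  rw [comp_negpow]
  split_ifs with hc
  · rw [hc, comp_self (hP i (Finset.mem_range.1 hi))]
  · rw [comp_ne (hP i (Finset.mem_range.1 hi)) hc, mul_zero]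

lemma lc_even {r : ℕ} (h : Even r) : lc r = r := by simp [lc, h]
lemma lc_odd {r : ℕ} (h : ¬ Even r) : lc r = r + 1 := by simp [lc, h]

lemma pow_even (hττ : τ * τ = 1) {r : ℕ} (h : Even r) : τ ^ r = 1 := by
  obtain ⟨m, rfl⟩ := h
  rw [← two_mul, pow_mul, pow_two, hττ, one_pow]

lemma pow_odd (hττ : τ * τ = 1) {r : ℕ} (h : ¬ Even r) : τ ^ r = τ := by
  rw [Nat.not_even_iff_odd] at h
  obtain ⟨m, rfl⟩ := h
  rw [pow_succ, pow_mul, pow_two, hττ, one_pow, one_mul]

/-- the power series -/
noncomputable def fS (Cc : ℕ → Module.End ℤ (B →₀ A)) : (Module.End ℤ (B →₀ A))⟦X⟧ :=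
  PowerSeries.mk fun n => if Even n then Cc n else 0
noncomputable def gS (Cc : ℕ → Module.End ℤ (B →₀ A)) : (Module.End ℤ (B →₀ A))⟦X⟧ :=
  PowerSeries.mk fun n => if Even n ∧ n ≠ 0 then Cc (n - 1) else 0
noncomputable def NS (Nn : ℕ → Module.End ℤ (B →₀ A)) : (Module.End ℤ (B →₀ A))⟦X⟧ :=
  PowerSeries.mk fun n => if Even n then Nn n else 0
noncomputable def KS (Kk : ℕ → Module.End ℤ (B →₀ A)) : (Module.End ℤ (B →₀ A))⟦X⟧ :=
  PowerSeries.mk fun n => Kk n

lemma sum_anti {R : Type*} [AddCommMonoid R] (F : ℕ → ℕ → R) (n : ℕ) :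
    ∑ p ∈ Finset.HasAntidiagonal.antidiagonal n, F p.1 p.2 = (∑ i ∈ Finset.range n, F i (n - i)) + F n 0 := by
  rw [Finset.Nat.sum_antidiagonal_eq_sum_range_succ (fun i j => F i j), Finset.sum_range_succ]
  simp

lemma negpow_odd {r : ℕ} (h : ¬ Even r) : (-1 : Module.End ℤ (B →₀ A)) ^ r = -1 :=
  (Nat.not_even_iff_odd.1 h).neg_one_pow

lemma negpow_even {r : ℕ} (h : Even r) : (-1 : Module.End ℤ (B →₀ A)) ^ r = 1 := h.neg_one_pow

theorem abstract_S (h : ChainOps gr D Cc Kk Nn τ τ')
    (hδT : comp gr 1 D * comp gr (gd τ (-1)) D = - (comp gr (gd τ (-1)) D * comp gr 1 D))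
    (y : B →₀ A) (hy : comp gr 1 D y = 0) (m : ℕ) (hm : ((comp gr (gd τ (-1)) D) ^ m) y = 0) :
    ∃ z, comp gr 1 D z = 0 ∧ comp gr (gd τ (-1)) D z = y := by
  classical
  set δ := comp gr 1 D with hδ
  set T := comp gr (gd τ (-1)) D with hT
  have sgnN : sgn (NS Nn) = NS Nn := by
    ext n : 1
    rw [coeff_sgn]
    simp only [NS, coeff_mk]
    split_ifs with hn
    · rw [hn.neg_one_pow, one_mul]
    · simp
  have sgnf : sgn (fS Cc) = fS Cc := by
    ext n : 1
    rw [coeff_sgn]
    simp only [fS, coeff_mk]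
    split_ifs with hn
    · rw [hn.neg_one_pow, one_mul]
    · simp
  -- homogeneity of products
  have hCC : ∀ r i : ℕ, i < r → Homog gr (gd 1 (lc (r - 1 - i) + lc i)) (Cc i * Cc (r - 1 - i)) := by
    intro r i _
    have := (h.hC i).mul (h.hC (r - 1 - i))
    rwa [gd_mul, one_mul] at this
  have hCK : ∀ r i : ℕ, i < r → Homog gr (gd (τ ^ (r - 1 - i)) ((r - 1 - i : ℕ) + lc i))
      (Cc i * Kk (r - 1 - i)) := by
    intro r i _
    have := (h.hC i).mul (h.hK (r - 1 - i))
    rwa [gd_mul, mul_one] at this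
  have hNC : ∀ r i : ℕ, i < r → Homog gr (gd (if Even i then 1 else τ') (lc (r - 1 - i) + i))
      (Nn i * Cc (r - 1 - i)) := by
    intro r i _
    have := (h.hN i).mul (h.hC (r - 1 - i))
    rwa [gd_mul, one_mul] at this
  -- δ and T on even C
  have δC : ∀ r, Even r → δ * Cc r =
      (∑ i ∈ Finset.range r, (-1) ^ i * (Cc i * Cc (r - 1 - i))) + Cc r * δ := by
    intro r hr
    have e := extract (h.hC r) (hCC r) (h.dC r) 1
    rw [mul_one, mul_inv_cancel, negpow_even hr, one_mul] at e
    rw [e]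
    congr 1
    refine Finset.sum_congr rfl fun i hi => ?_
    rw [Finset.mem_range] at hi
    rw [if_pos]
    rw [gd_inj]
    refine ⟨rfl, ?_⟩
    rw [lc_even hr]
    by_cases hi2 : Even i
    · rw [lc_even hi2, lc_odd (by rw [Nat.even_iff] at *; omega)]; omega
    · rw [lc_odd hi2, lc_even (by rw [Nat.even_iff] at *; omega)]; omega
  have TC : ∀ r, Even r → T * Cc r = Cc r * T := by
    intro r hr
    have e := extract (h.hC r) (hCC r) (h.dC r) (gd τ (-1))
    rw [negpow_even hr, one_mul, Finset.sum_eq_zero, zero_add] at e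
    · rw [hT, e, gd_mul, gd_inv, gd_mul]
      simp
    · intro i _
      rw [if_neg]
      rw [gd_mul, gd_inj]
      rintro ⟨h1, _⟩
      exact h.τ1 (by simpa using h1)
  -- δ and T on K
  have δK : ∀ r, δ * Kk r =
      (∑ i ∈ Finset.range r, if Even i then 0 else - (Cc i * Kk (r - 1 - i))) +
        (-1) ^ r * (Kk r * δ) := by
    intro r
    have e := extract (h.hK r) (hCK r) (h.dK r) 1
    rw [mul_one, mul_inv_cancel] at e
    rw [e]
    congr 1
    refine Finset.sum_congr rfl fun i hi => ?_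
    rw [Finset.mem_range] at hi
    by_cases hi2 : Even i
    · rw [if_pos hi2, if_neg]
      rw [gd_inj, lc_even hi2]
      rintro ⟨_, h2⟩
      omega
    · rw [if_neg hi2, if_pos, negpow_odd hi2, neg_one_mul]
      rw [gd_inj, lc_odd hi2]
      refine ⟨?_, by omega⟩
      by_cases hr : Even r
      · rw [pow_even h.ττ hr, pow_even h.ττ (by rw [Nat.even_iff] at *; omega)]
      · rw [pow_odd h.ττ hr, pow_odd h.ττ (by rw [Nat.even_iff] at *; omega)]
  have TK : ∀ r, T * Kk r =
      (∑ i ∈ Finset.range r, if Even i then (Cc i * Kk (r - 1 - i)) else 0) +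
        (-1) ^ r * (Kk r * T) := by
    intro r
    have e := extract (h.hK r) (hCK r) (h.dK r) (gd τ (-1))
    have hconj : gd (τ ^ r) (r : ℤ) * gd τ (-1) * (gd (τ ^ r) (r : ℤ))⁻¹ = gd τ (-1) := by
      rw [gd_inv, gd_mul, gd_mul, gd_inj]
      refine ⟨?_, by ring⟩
      rw [← pow_succ, pow_succ', mul_assoc, mul_inv_cancel, mul_one]
    rw [hconj] at e
    rw [hT, e]
    congr 1
    refine Finset.sum_congr rfl fun i hi => ?_
    rw [Finset.mem_range] at hi
    by_cases hi2 : Even i
    · rw [if_pos hi2, if_pos, negpow_even hi2, one_mul]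
      rw [gd_mul, gd_inj, lc_even hi2]
      refine ⟨?_, by omega⟩
      rw [← pow_succ]
      by_cases hr : Even r
      · rw [pow_odd h.ττ (by rw [Nat.even_iff] at *; omega),
          pow_odd h.ττ (by rw [Nat.even_iff] at *; omega)]
      · rw [pow_even h.ττ (by rw [Nat.even_iff] at *; omega),
          pow_even h.ττ (by rw [Nat.even_iff] at *; omega)]
    · rw [if_neg hi2, if_neg]
      rw [gd_mul, gd_inj, lc_odd hi2]
      rintro ⟨_, h2⟩
      omega
  -- δ and T on even N
  have δN : ∀ r, Even r → δ * Nn r =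
      (∑ i ∈ Finset.range r, if Even i then (Nn i * Cc (r - 1 - i)) else 0) + Nn r * δ := by
    intro r hr
    have e := extract (h.hN r) (hNC r) (h.dN r hr) 1
    rw [mul_one, mul_inv_cancel, negpow_even hr, one_mul] at e
    rw [e]
    congr 1
    refine Finset.sum_congr rfl fun i hi => ?_
    rw [Finset.mem_range] at hi
    by_cases hi2 : Even i
    · have hc : gd (if Even r then 1 else τ') (r : ℤ) =
          gd (if Even i then 1 else τ') (lc (r - 1 - i) + i) := by
        rw [if_pos hr, if_pos hi2, gd_inj]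
        refine ⟨rfl, ?_⟩
        rw [lc_odd (by rw [Nat.even_iff] at *; omega)]; omega
      rw [if_pos hc, if_pos hi2, negpow_even hi2, one_mul]
    · have hc : ¬ (gd (if Even r then 1 else τ') (r : ℤ) =
          gd (if Even i then 1 else τ') (lc (r - 1 - i) + i)) := by
        rw [if_pos hr, if_neg hi2, gd_inj]
        rintro ⟨h1, _⟩
        exact h.τ1' h1.symm
      rw [if_neg hc, if_neg hi2]
  have TN : ∀ r, Even r → T * Nn r = Nn r * T := by
    intro r hr
    have e := extract (h.hN r) (hNC r) (h.dN r hr) (gd τ (-1))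
    rw [negpow_even hr, one_mul, if_pos hr, Finset.sum_eq_zero, zero_add] at e
    · rw [hT, e, gd_mul, gd_inv, gd_mul]
      simp
    · intro i _
      rw [if_neg]
      rw [gd_mul, gd_inj]
      by_cases hi2 : Even i
      · rw [if_pos hi2]
        rintro ⟨h1, _⟩
        exact h.τ1 (by simpa using h1)
      · rw [if_neg hi2]
        rintro ⟨h1, _⟩
        exact h.ττ' (by simpa using h1)
  -- the six identities
  have h1 : C δ * NS Nn = NS Nn * (C δ + gS Cc) := by
    rw [mul_add]
    ext n : 1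
    rw [coeff_C_mul, map_add, coeff_mul_C, coeff_mul,
      sum_anti (fun i j => coeff i (NS Nn) * coeff j (gS Cc))]
    simp only [NS, gS, coeff_mk]
    by_cases hn : Even n
    · rw [if_pos hn, δN n hn, add_comm]
      congr 1
      simp only [ne_eq, not_true_eq_false, and_false, if_false, mul_zero, add_zero]
      refine Finset.sum_congr rfl fun i hi => ?_
      rw [Finset.mem_range] at hi
      by_cases hi2 : Even i
      · rw [if_pos hi2, if_pos hi2, if_pos, show n - i - 1 = n - 1 - i by omega]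
        exact ⟨by rw [Nat.even_iff] at *; omega, by omega⟩
      · rw [if_neg hi2, if_neg hi2, zero_mul]
    · rw [if_neg hn, mul_zero, zero_mul, zero_add]
      simp only [zero_mul, add_zero]
      symm
      refine Finset.sum_eq_zero fun i hi => ?_
      rw [Finset.mem_range] at hi
      by_cases hi2 : Even i
      · have hc : ¬ (Even (n - i) ∧ n - i ≠ 0) := fun hh => hn (by
          have := hh.1
          rw [Nat.even_iff] at *; omega)
        rw [if_neg hc, mul_zero]
      · rw [if_neg hi2, zero_mul]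
  have h2 : (C δ + gS Cc) * fS Cc = fS Cc * (C δ + gS Cc) := by
    rw [mul_add, add_mul]
    ext n : 1
    rw [map_add, map_add, coeff_C_mul, coeff_mul_C, coeff_mul, coeff_mul,
      sum_anti (fun i j => coeff i (fS Cc) * coeff j (gS Cc)),
      ← Finset.Nat.sum_antidiagonal_swap]
    simp only [Prod.fst_swap, Prod.snd_swap]
    rw [sum_anti (fun i j => coeff j (gS Cc) * coeff i (fS Cc))]
    simp only [fS, gS, coeff_mk]
    simp only [ne_eq, not_true_eq_false, and_false, if_false, mul_zero, add_zero, zero_mul]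
    by_cases hn : Even n
    · rw [if_pos hn, δC n hn]
      rw [add_comm (∑ i ∈ Finset.range n, _) (Cc n * δ), add_assoc]
      congr 1
      -- sum identity
      have s1 : ∑ i ∈ Finset.range n,
          ((if Even (n - i) ∧ ¬ n - i = 0 then Cc (n - i - 1) else 0) * if Even i then Cc i else 0) =
          ∑ i ∈ Finset.range n, if Even i then 0 else (Cc i * Cc (n - 1 - i)) := by
        rw [← Finset.sum_range_reflect]
        refine Finset.sum_congr rfl fun i hi => ?_
        rw [Finset.mem_range] at hi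
        by_cases hi2 : Even i
        · rw [if_pos hi2, if_neg (fun hh => ?_), zero_mul]
          have := hh.1
          rw [Nat.even_iff] at *; omega
        · rw [if_neg hi2, if_pos, if_pos]
          · rw [show n - (n - 1 - i) - 1 = i by omega]
          · rw [Nat.even_iff] at *; omega
          · exact ⟨by rw [Nat.even_iff] at *; omega, by omega⟩
      have s2 : ∑ i ∈ Finset.range n,
          ((if Even i then Cc i else 0) * if Even (n - i) ∧ ¬ n - i = 0 then Cc (n - i - 1) else 0) =
          ∑ i ∈ Finset.range n, if Even i then (Cc i * Cc (n - 1 - i)) else 0 := by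
        refine Finset.sum_congr rfl fun i hi => ?_
        rw [Finset.mem_range] at hi
        by_cases hi2 : Even i
        · rw [if_pos hi2, if_pos hi2, if_pos, show n - i - 1 = n - 1 - i by omega]
          exact ⟨by rw [Nat.even_iff] at *; omega, by omega⟩
        · rw [if_neg hi2, if_neg hi2, zero_mul]
      rw [s1, s2, ← Finset.sum_add_distrib]
      refine Finset.sum_congr rfl fun i hi => ?_
      by_cases hi2 : Even i
      · rw [if_pos hi2, if_pos hi2, negpow_even hi2, one_mul, add_zero]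
      · rw [if_neg hi2, if_neg hi2, negpow_odd hi2]
        simp
    · rw [if_neg hn]
      simp only [mul_zero, zero_mul, zero_add]
      rw [Finset.sum_eq_zero, Finset.sum_eq_zero]
      · intro i hi
        rw [Finset.mem_range] at hi
        by_cases hi2 : Even i
        · have hc : ¬ (Even (n - i) ∧ ¬ n - i = 0) := fun hh => hn (by
            have := hh.1
            rw [Nat.even_iff] at *; omega)
          rw [if_neg hc, mul_zero]
        · rw [if_neg hi2, zero_mul]
      · intro i hi
        rw [Finset.mem_range] at hi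
        by_cases hi2 : Even i
        · have hc : ¬ (Even (n - i) ∧ ¬ n - i = 0) := fun hh => hn (by
            have := hh.1
            rw [Nat.even_iff] at *; omega)
          rw [if_neg hc, zero_mul]
        · rw [if_neg hi2, mul_zero]
  have h3 : (C δ + gS Cc) * KS Kk = sgn (KS Kk) * C δ := by
    rw [add_mul]
    ext n : 1
    rw [map_add, coeff_C_mul, coeff_mul_C, coeff_mul, coeff_sgn,
      ← Finset.Nat.sum_antidiagonal_swap]
    simp only [Prod.fst_swap, Prod.snd_swap]
    rw [sum_anti (fun i j => coeff j (gS Cc) * coeff i (KS Kk))]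
    simp only [KS, gS, coeff_mk]
    simp only [ne_eq, not_true_eq_false, and_false, if_false, add_zero, zero_mul]
    rw [δK n, add_comm (∑ i ∈ Finset.range n, _) ((-1) ^ n * (Kk n * δ)), add_assoc,
      ← mul_assoc, add_eq_left]
    rw [← Finset.sum_range_reflect (fun i => (if Even (n - i) ∧ ¬ n - i = 0 then Cc (n - i - 1) else 0) * Kk i),
      ← Finset.sum_add_distrib]
    refine Finset.sum_eq_zero fun i hi => ?_
    rw [Finset.mem_range] at hi
    by_cases hi2 : Even i
    · rw [if_pos hi2, if_neg (fun hh => ?_), zero_mul, zero_add]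
      have := hh.1
      rw [Nat.even_iff] at *; omega
    · rw [if_neg hi2, if_pos, show n - (n - 1 - i) - 1 = i by omega]
      · simp
      · exact ⟨by rw [Nat.even_iff] at *; omega, by omega⟩
  have h4 : C T * NS Nn = NS Nn * C T := by
    ext n : 1
    rw [coeff_C_mul, coeff_mul_C]
    simp only [NS, coeff_mk]
    by_cases hn : Even n
    · rw [if_pos hn, TN n hn]
    · rw [if_neg hn, mul_zero, zero_mul]
  have h5 : C T * fS Cc = fS Cc * C T := by
    ext n : 1
    rw [coeff_C_mul, coeff_mul_C]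
    simp only [fS, coeff_mk]
    by_cases hn : Even n
    · rw [if_pos hn, TC n hn]
    · rw [if_neg hn, mul_zero, zero_mul]
  have h6 : C T * KS Kk = sgn (KS Kk) * C T + X * fS Cc * KS Kk := by
    ext n : 1
    rw [map_add, coeff_C_mul, coeff_mul_C, coeff_sgn, mul_assoc]
    simp only [KS, coeff_mk]
    rw [TK n, add_comm, ← mul_assoc]
    congr 1
    cases n with
    | zero => simp
    | succ n =>
      rw [mul_assoc, coeff_succ_X_mul, coeff_mul, Finset.Nat.sum_antidiagonal_eq_sum_range_succ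
        (fun i j => coeff i (fS Cc) * coeff j (PowerSeries.mk fun n => Kk n))]
      refine Finset.sum_congr rfl fun i hi => ?_
      simp only [fS, coeff_mk]
      by_cases hi2 : Even i
      · rw [if_pos hi2, if_pos hi2, show n + 1 - 1 - i = n - i by omega]
      · rw [if_neg hi2, if_neg hi2, zero_mul]
  refine ring_S δ T (NS Nn) (fS Cc) (gS Cc) (KS Kk) ?_ ?_ ?_ h1 h2 h3 h4 h5 h6 sgnN sgnf hδT y hy m hm
  · simp [NS, h.N0]
  · simp [fS, h.C0]
  · simp [KS, h.K0]

end

end ArcC
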