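import Mathlib
import Pool.Agent.Lib.MP_e5080e_gt.Codes
import Pool.Agent.Lib.MP_e5080e_gt.SecS

/-! Strands of codes: behaviour of the strand permutation and of the number of closed strands under
merging of words, insertion of an empty word and deletion of a chord. -/

namespace ArcC

open Equiv Code

lemma A_apply (i x : ℕ) : A i x = if x = i then 0 else if x < i then x + 1 else x := by
  split_ifs with h1 h2
  · rw [h1, A_apply_self]
  · rw [A_apply_lt h2]
  · rw [A_apply_gt (by omega)]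

lemma sh_apply (p : Perm ℕ) (x : ℕ) : sh p x = if x = 0 then 0 else p (x - 1) + 1 := by
  cases x <;> simp

lemma sw_apply (a b x : ℕ) : swap a b x = if x = a then b else if x = b then a else x :=
  swap_apply_def a b x

lemma A_mul_A_succ_inv (i : ℕ) : A i * (A (i + 1))⁻¹ = swap 0 (i + 1) := by
  rw [mul_inv_eq_iff_eq_mul]
  ext x
  simp only [Perm.coe_mul, Function.comp_apply, A_apply]
  rcases lt_trichotomy x i with h | h | h
  · rw [if_neg (by omega), if_pos h, if_neg (by omega), if_pos (by omega), sw_apply,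
      if_neg (by omega), if_neg (by omega)]
  · rw [if_pos h, if_neg (by omega), if_pos (by omega), sw_apply, if_neg (by omega),
      if_pos (by omega)]
  · rcases Nat.lt_or_ge (i + 1) x with h' | h'
    · rw [if_neg (by omega), if_neg (by omega), if_neg (by omega), if_neg (by omega), sw_apply,
        if_neg (by omega), if_neg (by omega)]
    · rw [if_neg (by omega), if_neg (by omega), if_pos (by omega), sw_apply, if_pos rfl]
      omega

lemma A_comm' {i j : ℕ} (h : j ≤ i) : sh (A j) * A (i + 1) = A (i + 1) * A j := by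
  ext x
  simp only [Perm.coe_mul, Function.comp_apply]
  rcases lt_trichotomy x j with h1 | h1 | h1
  · rw [A_apply_lt (show x < i + 1 by omega), A_apply_lt h1, sh_succ, A_apply_lt h1,
      A_apply_lt (show x + 1 < i + 1 by omega)]
  · subst h1
    rw [A_apply_lt (show x < i + 1 by omega), A_apply_self, sh_succ, A_apply_self,
      A_apply_lt (show 0 < i + 1 by omega)]
  · rw [A_apply_gt h1]
    rcases lt_trichotomy x (i + 1) with h2 | h2 | h2
    · rw [A_apply_lt h2, sh_succ, A_apply_gt h1]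
    · subst h2
      rw [A_apply_self, sh_zero]
    · rw [A_apply_gt h2]
      obtain ⟨y, rfl⟩ : ∃ y, x = y + 1 := ⟨x - 1, by omega⟩
      rw [sh_succ, A_apply_gt (by omega)]

/-- sh (A j) * A (i+1) = swap 0 1 * sh (A i) * A j for j ≤ i -/
lemma A_comm {i j : ℕ} (h : j ≤ i) : sh (A j) * A (i + 1) = swap 0 1 * (sh (A i) * A j) := by
  rw [A_comm' h, A_succ, mul_assoc]

/-- removal of two points does not depend on the order -/
lemma rem_comm (p : Perm ℕ) (a b : ℕ) (hab : a ≠ b) :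
    swap b ((swap a (p a) * p) b) * (swap a (p a) * p) =
      swap a ((swap b (p b) * p) a) * (swap b (p b) * p) := by
  have hp : p a ≠ p b := fun h => hab (p.injective h)
  rw [← mul_assoc, ← mul_assoc]
  congr 1
  simp only [Perm.coe_mul, Function.comp_apply]
  generalize p a = x at hp ⊢
  generalize p b = y at hp ⊢
  by_cases h1 : y = a
  · subst h1
    rw [swap_apply_left]
    by_cases h2 : x = b
    · subst h2
      simp [swap_comm]
    · rw [swap_apply_of_ne_of_ne h2 hp]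
      have e : swap y x * swap b y = swap b x * swap y x := by
        rw [Equiv.mul_swap_eq_swap_mul, swap_apply_of_ne_of_ne (Ne.symm hab) (Ne.symm h2),
          swap_apply_left]
      rw [← e]
  · by_cases h2 : x = b
    · subst h2
      rw [swap_apply_left, swap_apply_of_ne_of_ne h1 (Ne.symm hp)]
      have e : swap x y * swap a x = swap a y * swap x y := by
        rw [Equiv.mul_swap_eq_swap_mul, swap_apply_of_ne_of_ne hab (fun h => h1 h.symm),
          swap_apply_left]
      rw [e]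
    · rw [swap_apply_of_ne_of_ne h1 (Ne.symm hp), swap_apply_of_ne_of_ne h2 hp,
        Equiv.mul_swap_eq_swap_mul, swap_apply_of_ne_of_ne hab (fun h => h1 h.symm),
        swap_apply_of_ne_of_ne h2 hp]

lemma sh_sh_tr_tr (p : Perm ℕ) :
    sh (sh (tr (tr p))) = swap 1 ((swap 0 (p 0) * p) 1) * (swap 0 (p 0) * p) := by
  rw [sh_tr, sh_mul, sh_tr, sh_swap]
  congr 2
  rw [← sh_tr, sh_succ]

lemma fix_comm {u : Perm ℕ} (h0 : u 0 = 0) (h1 : u 1 = 1) : swap 0 1 * u * swap 0 1 = u := by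
  rw [Equiv.swap_mul_eq_mul_swap]
  have e0 : u⁻¹ 0 = 0 := by rw [Perm.inv_eq_iff_eq]; exact h0.symm
  have e1 : u⁻¹ 1 = 1 := by rw [Perm.inv_eq_iff_eq]; exact h1.symm
  rw [e0, e1, mul_assoc, swap_mul_self, mul_one]

lemma shsh_comm (q : Perm ℕ) : swap 0 1 * sh (sh q) = sh (sh q) * swap 0 1 := by
  have h := fix_comm (u := sh (sh q)) (by simp) (by simp)
  calc swap 0 1 * sh (sh q) = swap 0 1 * sh (sh q) * swap 0 1 * swap 0 1 := by
        rw [mul_assoc _ (swap 0 1) (swap 0 1), swap_mul_self, mul_one]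
    _ = sh (sh q) * swap 0 1 := by rw [h]

/-- removing `τ a` from the conjugate by an involution `τ` is the conjugate of removing `a` -/
lemma rem_conj (p τ : Perm ℕ) (hτ : τ * τ = 1) (a : ℕ) :
    swap (τ a) ((τ * p * τ) (τ a)) * (τ * p * τ) = τ * (swap a (p a) * p) * τ := by
  have h0 : τ (τ a) = a := by
    have := congrArg (fun r : Perm ℕ => r a) hτ
    simpa using this
  have h : swap (τ a) (τ (p a)) * τ = τ * swap a (p a) := by
    rw [Equiv.mul_swap_eq_swap_mul]
  calc swap (τ a) ((τ * p * τ) (τ a)) * (τ * p * τ)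
      = swap (τ a) (τ (p a)) * (τ * p * τ) := by
        simp only [Perm.coe_mul, Function.comp_apply, h0]
    _ = (swap (τ a) (τ (p a)) * τ) * p * τ := by group
    _ = τ * (swap a (p a) * p) * τ := by rw [h]; group

lemma tr_tr_conj (p : Perm ℕ) : tr (tr (swap 0 1 * p * swap 0 1)) = tr (tr p) := by
  apply sh_injective
  apply sh_injective
  have hτ : (swap 0 1 : Perm ℕ) * swap 0 1 = 1 := swap_mul_self _ _
  rw [sh_sh_tr_tr, sh_sh_tr_tr]
  have h1 := rem_conj p (swap 0 1) hτ 1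
  rw [swap_apply_right] at h1
  rw [h1]
  set s := swap 1 (p 1) * p with hs
  have h2 := rem_conj s (swap 0 1) hτ 0
  rw [swap_apply_left] at h2
  rw [h2, hs, ← rem_comm p 0 1 (by norm_num)]
  apply fix_comm
  · rw [rem_comm p 0 1 (by norm_num)]
    simp
  · simp

lemma fx_tr (p : Perm ℕ) : fx (tr p) = if (p 1 = 1 ∨ (p 1 = 0 ∧ p 0 = 1)) then 1 else 0 := by
  have h : tr p 0 = 0 ↔ (p 1 = 1 ∨ (p 1 = 0 ∧ p 0 = 1)) := by
    have h1 : tr p 0 + 1 = (swap 0 (p 0) * p) 1 := by rw [← sh_tr, ← sh_succ]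
    have h2 : p 1 ≠ p 0 := fun h => by simpa using p.injective h
    rw [Perm.coe_mul, Function.comp_apply, sw_apply, if_neg h2] at h1
    split_ifs at h1 with h3 <;> omega
  unfold fx
  simp only [h]

lemma fx_tr_conj (p : Perm ℕ) :
    fx (swap 0 1 * p * swap 0 1) + fx (tr (swap 0 1 * p * swap 0 1)) = fx p + fx (tr p) := by
  rw [fx_tr, fx_tr]
  unfold fx
  have h2 : p 1 ≠ p 0 := fun h => by simpa using p.injective h
  simp only [Perm.coe_mul, Function.comp_apply, swap_apply_left, swap_apply_right]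
  simp only [sw_apply]
  by_cases a1 : p 1 = 0
  · by_cases a2 : p 0 = 1 <;> by_cases a3 : p 0 = 0 <;> simp_all
  · by_cases a2 : p 0 = 1 <;> by_cases a3 : p 0 = 0 <;> by_cases a4 : p 1 = 1 <;> simp_all

/-- `tr` of `τ * sh R * τ` -/
lemma tr_conj_sh (R : Perm ℕ) : tr (swap 0 1 * sh R * swap 0 1) = sh (tr R) := by
  apply sh_injective
  rw [sh_tr]
  have hτ : (swap 0 1 : Perm ℕ) * swap 0 1 = 1 := swap_mul_self _ _
  have h1 := rem_conj (sh R) (swap 0 1) hτ 1
  rw [swap_apply_right] at h1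
  rw [h1, show (1 : ℕ) = 0 + 1 by rfl, sh_succ, ← sh_swap, ← sh_mul, ← sh_tr, zero_add]
  exact fix_comm (by simp) (by simp)

lemma fx_conj_sh (R : Perm ℕ) : fx (swap 0 1 * sh R * swap 0 1) = fx R := by
  apply fx_congr
  simp only [Perm.coe_mul, Function.comp_apply, swap_apply_left]
  have h : sh R 1 = R 0 + 1 := sh_succ R 0
  rw [h]
  constructor
  · intro h0
    by_contra h1
    rw [swap_apply_of_ne_of_ne (by omega) (by omega)] at h0
    omega
  · intro h0
    rw [h0]
    simp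

/-! ### merge -/

lemma merge_chS (i j : ℕ) (N : Code) :
    merge i (ch j N) = if j ≤ i then ch j (merge (i + 1) N) else ch (j - 1) (merge i N) := by
  cases i <;> rfl

lemma nu_ch (i : ℕ) (N : Code) : nu (ch i N) = tr (A i * nu N * (sh (A i))⁻¹) := by
  simp only [nu]; rw [← sh_inv, tr_mul_sh]

lemma cc_ch (i : ℕ) (N : Code) : cc (ch i N) = cc N + fx (A i * nu N * (sh (A i))⁻¹) := by
  simp only [cc]; rw [← sh_inv, fx_mul_sh]

lemma tr_in (p X q : Perm ℕ) : p * tr X * q = tr (sh p * X * sh q) := by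
  rw [tr_mul_sh, tr_sh_mul]

lemma fx_in (p X q : Perm ℕ) : fx (sh p * X * sh q) = fx X := by
  rw [fx_mul_sh, fx_sh_mul]

lemma tau_inv : ((swap 0 1 : Perm ℕ))⁻¹ = swap 0 1 := swap_inv _ _

lemma tau_sq : (swap 0 1 : Perm ℕ) * swap 0 1 = 1 := swap_mul_self _ _

lemma tr_in' (p X q : Perm ℕ) : p * tr X * (sh q)⁻¹ = tr (sh p * X * (sh (sh q))⁻¹) := by
  rw [tr_in, sh_inv]

lemma tr_in'' (p X q : Perm ℕ) : p * tr X * (sh q)⁻¹ * swap 0 1 =
    tr (sh p * X * ((sh (sh q))⁻¹ * sh (swap 0 1))) := by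
  rw [mul_assoc (p * tr X), tr_in, sh_mul, sh_inv]

lemma fx_in' (p X q : Perm ℕ) : fx (sh p * X * (sh (sh q))⁻¹) = fx X := by
  rw [← sh_inv, fx_in]

lemma fx_in'' (p X q : Perm ℕ) : fx (sh p * X * ((sh (sh q))⁻¹ * sh (swap 0 1))) = fx X := by
  rw [← sh_inv, ← sh_mul, fx_in]

lemma shsh_comm_inv (q : Perm ℕ) : swap 0 1 * (sh (sh q))⁻¹ = (sh (sh q))⁻¹ * swap 0 1 := by
  have := shsh_comm q⁻¹
  rwa [sh_inv, sh_inv] at this

/-- the key identity for `merge`, first case -/
lemma merge_aux1 {i j : ℕ} (h : j ≤ i) (P : Perm ℕ) :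
    sh (A j) * (A (i + 1) * P * (sh (A (i + 1)))⁻¹ * swap 0 1) * (sh (sh (A j)))⁻¹ =
      swap 0 1 * (sh (A i) * (A j * P * (sh (A j))⁻¹) * ((sh (sh (A i)))⁻¹ * sh (swap 0 1))) *
        swap 0 1 := by
  have e1 := A_comm h
  have e2 : (sh (A (i + 1)))⁻¹ * (sh (sh (A j)))⁻¹ =
      (sh (A j))⁻¹ * (sh (sh (A i)))⁻¹ * (sh (swap 0 1))⁻¹ := by
    rw [← mul_inv_rev, ← sh_mul, e1, sh_mul, sh_mul]
    simp only [mul_inv_rev, mul_assoc]
  have e3 := shsh_comm_inv (A j)
  have e4 : (sh (swap 0 1))⁻¹ = sh (swap 0 1) := by rw [← sh_inv, tau_inv]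
  calc sh (A j) * (A (i + 1) * P * (sh (A (i + 1)))⁻¹ * swap 0 1) * (sh (sh (A j)))⁻¹
      = (sh (A j) * A (i + 1)) * P * ((sh (A (i + 1)))⁻¹ * (swap 0 1 * (sh (sh (A j)))⁻¹)) := by
        simp only [mul_assoc]
    _ = (swap 0 1 * (sh (A i) * A j)) * P *
        (((sh (A (i + 1)))⁻¹ * (sh (sh (A j)))⁻¹) * swap 0 1) := by
        rw [e3, e1]; simp only [mul_assoc]
    _ = _ := by
        rw [e2, e4]; simp only [mul_assoc]

/-- the key identity for `merge`, second case -/
lemma merge_aux2 {i k : ℕ} (h : i ≤ k) (P : Perm ℕ) :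
    sh (A i) * (A (k + 1) * P * (sh (A (k + 1)))⁻¹) * ((sh (sh (A i)))⁻¹ * sh (swap 0 1)) =
      swap 0 1 * (sh (A k) * (A i * P * (sh (A i))⁻¹ * swap 0 1) * (sh (sh (A k)))⁻¹) *
        swap 0 1 := by
  have e1 := A_comm h
  have e2 : (sh (A (k + 1)))⁻¹ * (sh (sh (A i)))⁻¹ =
      (sh (A i))⁻¹ * (sh (sh (A k)))⁻¹ * (sh (swap 0 1))⁻¹ := by
    rw [← mul_inv_rev, ← sh_mul, e1, sh_mul, sh_mul]
    simp only [mul_inv_rev, mul_assoc]
  have e4 : (sh (swap 0 1))⁻¹ * sh (swap 0 1) = 1 := by rw [inv_mul_cancel]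
  have e3 := shsh_comm_inv (A k)
  calc sh (A i) * (A (k + 1) * P * (sh (A (k + 1)))⁻¹) * ((sh (sh (A i)))⁻¹ * sh (swap 0 1))
      = (sh (A i) * A (k + 1)) * P * (((sh (A (k + 1)))⁻¹ * (sh (sh (A i)))⁻¹) *
          sh (swap 0 1)) := by
        simp only [mul_assoc]
    _ = (swap 0 1 * (sh (A k) * A i)) * P * ((sh (A i))⁻¹ * (sh (sh (A k)))⁻¹) := by
        rw [e2, e1, mul_assoc _ (sh (swap 0 1))⁻¹, e4, mul_one]
    _ = (swap 0 1 * (sh (A k) * A i)) * P * ((sh (A i))⁻¹ *
          (swap 0 1 * (sh (sh (A k)))⁻¹ * swap 0 1)) := by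
        rw [e3, mul_assoc _ (swap 0 1) (swap 0 1), tau_sq, mul_one]
    _ = _ := by
        simp only [mul_assoc]

lemma merge_nil_aux (i : ℕ) : A i * nu nil * (sh (A i))⁻¹ * swap 0 1 = swap 0 (i + 1) := by
  have h : (sh (A i))⁻¹ * swap 0 1 = (A (i + 1))⁻¹ := by
    rw [A_succ, mul_inv_rev, swap_inv]
  have h2 := A_mul_A_succ_inv i
  calc A i * nu nil * (sh (A i))⁻¹ * swap 0 1 = A i * ((sh (A i))⁻¹ * swap 0 1) := by
        simp only [nu, mul_one, mul_assoc]
    _ = _ := by rw [h, h2]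

theorem nu_merge (i : ℕ) (N : Code) :
    nu (merge i N) = tr (A i * nu N * (sh (A i))⁻¹ * swap 0 1) := by
  induction N generalizing i with
  | nil =>
    have h : nu (merge i nil) = 1 := by cases i <;> rfl
    rw [h, merge_nil_aux]
    apply sh_injective
    rw [sh_tr, swap_apply_left, swap_mul_self, sh_one]
  | emp N ih =>
    cases i with
    | zero =>
      have h : merge 0 (emp N) = N := rfl
      rw [h]
      simp only [A_zero, nu, sh_one, inv_one, mul_one, one_mul]
      rw [tr_sh_mul]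
      have h2 : tr (swap 0 1) = 1 := by
        apply sh_injective
        rw [sh_tr, swap_apply_left, swap_mul_self, sh_one]
      rw [h2, mul_one]
    | succ i =>
      have h : merge (i + 1) (emp N) = emp (merge i N) := rfl
      rw [h]
      simp only [nu]
      rw [ih, ← tr_conj_sh]
      congr 1
      simp only [A_succ, sh_mul, sh_swap, mul_inv_rev, swap_inv, sh_inv, zero_add, mul_assoc]
  | ch j N ih =>
    rw [merge_chS]
    split_ifs with hj
    · rw [nu_ch, nu_ch, ih, tr_in', tr_in'', merge_aux1 hj, tr_tr_conj]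
    · obtain ⟨k, rfl⟩ : ∃ k, j = k + 1 := ⟨j - 1, by omega⟩
      rw [Nat.add_sub_cancel, nu_ch, nu_ch, ih, tr_in', tr_in'',
        merge_aux2 (show i ≤ k by omega), tr_tr_conj]

theorem cc_merge (i : ℕ) (N : Code) :
    cc (merge i N) = cc N + fx (A i * nu N * (sh (A i))⁻¹ * swap 0 1) := by
  induction N generalizing i with
  | nil =>
    have h : cc (merge i nil) = 0 := by cases i <;> rfl
    rw [h, merge_nil_aux]
    simp [cc, fx]
  | emp N ih =>
    cases i with
    | zero =>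
      have h : merge 0 (emp N) = N := rfl
      rw [h]
      simp only [A_zero, nu, sh_one, inv_one, mul_one, one_mul, cc]
      rw [fx_sh_mul]
      simp [fx]
    | succ i =>
      have h : merge (i + 1) (emp N) = emp (merge i N) := rfl
      rw [h]
      simp only [nu, cc]
      rw [ih, ← fx_conj_sh]
      congr 2
      simp only [A_succ, sh_mul, sh_swap, mul_inv_rev, swap_inv, sh_inv, zero_add, mul_assoc]
  | ch j N ih =>
    rw [merge_chS]
    split_ifs with hj
    · rw [cc_ch, cc_ch, ih, nu_merge, nu_ch, tr_in', tr_in'']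
      have h1 := fx_tr_conj (sh (A i) * (A j * nu N * (sh (A j))⁻¹) *
        ((sh (sh (A i)))⁻¹ * sh (swap 0 1)))
      rw [← merge_aux1 hj, fx_in', fx_in''] at h1
      omega
    · obtain ⟨k, rfl⟩ : ∃ k, j = k + 1 := ⟨j - 1, by omega⟩
      rw [Nat.add_sub_cancel, cc_ch, cc_ch, ih, nu_merge, nu_ch, tr_in', tr_in'']
      have h1 := fx_tr_conj (sh (A k) * (A i * nu N * (sh (A i))⁻¹ * swap 0 1) *
        (sh (sh (A k)))⁻¹)
      rw [← merge_aux2 (show i ≤ k by omega), fx_in', fx_in''] at h1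
      omega

/-! ### insertion of an empty word -/

lemma A_comm2 {s j : ℕ} (h : s ≤ j) : A (s + 1) * A (j + 1) = sh (A j) * A s := by
  have h1 := A_comm h
  rw [A_succ s, mul_assoc, h1, ← mul_assoc, tau_sq, one_mul]

lemma ins_aux1 {s j : ℕ} (h : s + 1 ≤ j) (P : Perm ℕ) :
    A (j + 1) * ((A (s + 1))⁻¹ * sh P * A (s + 1)) * (sh (A (j + 1)))⁻¹ =
      (sh (A (s + 1)))⁻¹ * (swap 0 1 * sh (A j * P * (sh (A j))⁻¹) * swap 0 1) *
        sh (A (s + 1)) := by
  have e1 : A (j + 1) * (A (s + 1))⁻¹ = (sh (A (s + 1)))⁻¹ * (swap 0 1 * sh (A j)) := by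
    rw [← A_succ j, eq_inv_mul_iff_mul_eq, ← mul_assoc, A_comm' h, mul_inv_cancel_right]
  have e2 : A (s + 1) * (sh (A (j + 1)))⁻¹ =
      (sh (sh (A j)))⁻¹ * (swap 0 1 * sh (A (s + 1))) := by
    rw [eq_inv_mul_iff_mul_eq, ← mul_assoc, mul_inv_eq_iff_eq_mul, mul_assoc (swap 0 1), ← sh_mul,
      A_comm2 (show s ≤ j by omega), A_succ s, ← mul_assoc, ← shsh_comm, sh_mul, mul_assoc]
  calc A (j + 1) * ((A (s + 1))⁻¹ * sh P * A (s + 1)) * (sh (A (j + 1)))⁻¹
      = (A (j + 1) * (A (s + 1))⁻¹) * sh P * (A (s + 1) * (sh (A (j + 1)))⁻¹) := by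
        simp only [mul_assoc]
    _ = _ := by
        rw [e1, e2, sh_mul, sh_mul, sh_inv]; simp only [mul_assoc]

lemma ins_aux2 {s j : ℕ} (h : j ≤ s) (P : Perm ℕ) :
    A j * ((A (s + 2))⁻¹ * sh P * A (s + 2)) * (sh (A j))⁻¹ =
      (sh (A (s + 1)))⁻¹ * (swap 0 1 * sh (A j * P * (sh (A j))⁻¹) * swap 0 1) *
        sh (A (s + 1)) := by
  have e1 : A j * (A (s + 2))⁻¹ = (sh (A (s + 1)))⁻¹ * (swap 0 1 * sh (A j)) := by
    have h1 := A_comm (show j ≤ s + 1 by omega)
    rw [eq_inv_mul_iff_mul_eq, ← mul_assoc, mul_inv_eq_iff_eq_mul, mul_assoc (swap 0 1), h1,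
      ← mul_assoc, tau_sq, one_mul]
  have e2 : A (s + 2) * (sh (A j))⁻¹ =
      (sh (sh (A j)))⁻¹ * (swap 0 1 * sh (A (s + 1))) := by
    rw [eq_inv_mul_iff_mul_eq, ← mul_assoc, mul_inv_eq_iff_eq_mul, mul_assoc (swap 0 1), ← sh_mul,
      ← A_comm' h, A_succ (s + 1), ← mul_assoc, ← shsh_comm, sh_mul, mul_assoc]
  calc A j * ((A (s + 2))⁻¹ * sh P * A (s + 2)) * (sh (A j))⁻¹
      = (A j * (A (s + 2))⁻¹) * sh P * (A (s + 2) * (sh (A j))⁻¹) := by
        simp only [mul_assoc]
    _ = _ := by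
        rw [e1, e2, sh_mul, sh_mul, sh_inv]; simp only [mul_assoc]

lemma wf_nilS {n : ℕ} (h : wf n nil) : n = 0 := by
  cases n with
  | zero => rfl
  | succ n => exact h.elim

lemma wf_empS {n : ℕ} {N : Code} (h : wf n (emp N)) : ∃ m, n = m + 1 ∧ wf m N := by
  cases n with
  | zero => exact h.elim
  | succ n => exact ⟨n, rfl, h⟩

lemma wf_chS {n i : ℕ} {N : Code} (h : wf n (ch i N)) : ∃ m, n = m + 1 ∧ i ≤ m ∧ wf (m + 2) N := by
  cases n with
  | zero => exact h.elim
  | succ n => exact ⟨n, rfl, h.1, h.2⟩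

lemma ins_ch (i j : ℕ) (N : Code) : ins (i + 1) (ch j N) =
    if i + 1 ≤ j then ch (j + 1) (ins (i + 1) N) else ch j (ins (i + 2) N) := rfl

lemma nu_cc_ins {n s : ℕ} {N : Code} (h : wf n N) (hs : s ≤ n) :
    nu (ins s N) = (A s)⁻¹ * sh (nu N) * A s ∧ cc (ins s N) = cc N := by
  induction N generalizing n s with
  | nil =>
    have hn := wf_nilS h
    subst hn
    have hs0 : s = 0 := by omega
    subst hs0
    exact ⟨by simp [ins, nu], by simp [ins, cc]⟩
  | emp N ih =>
    obtain ⟨m, rfl, hm⟩ := wf_empS h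
    cases s with
    | zero => exact ⟨by simp [ins, nu], by simp [ins, cc]⟩
    | succ s =>
      obtain ⟨h1, h2⟩ := ih hm (show s ≤ m by omega)
      have e : ins (s + 1) (emp N) = emp (ins s N) := rfl
      rw [e]
      refine ⟨?_, ?_⟩
      · simp only [nu]
        rw [h1, A_succ, mul_inv_rev, tau_inv, sh_mul, sh_mul, sh_inv]
        have h3 := fix_comm (u := sh (sh (nu N))) (by simp) (by simp)
        calc (sh (A s))⁻¹ * sh (sh (nu N)) * sh (A s)
            = (sh (A s))⁻¹ * (swap 0 1 * sh (sh (nu N)) * swap 0 1) * sh (A s) := by rw [h3]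
          _ = _ := by simp only [mul_assoc]
      · simp only [cc]; exact h2
  | ch j N ih =>
    obtain ⟨m, rfl, hj, hm⟩ := wf_chS h
    cases s with
    | zero => exact ⟨by simp [ins, nu], by simp [ins, cc]⟩
    | succ s =>
      rw [ins_ch]
      have key : (A (s + 1))⁻¹ * sh (nu (ch j N)) * A (s + 1) =
          tr ((sh (A (s + 1)))⁻¹ * (swap 0 1 * sh (A j * nu N * (sh (A j))⁻¹) * swap 0 1) *
            sh (A (s + 1))) := by
        rw [nu_ch, ← tr_conj_sh, tr_in, sh_inv]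
      have key2 : fx ((sh (A (s + 1)))⁻¹ *
          (swap 0 1 * sh (A j * nu N * (sh (A j))⁻¹) * swap 0 1) * sh (A (s + 1))) =
          fx (A j * nu N * (sh (A j))⁻¹) := by
        rw [← sh_inv, fx_in, fx_conj_sh]
      split_ifs with hsj
      · obtain ⟨h1, h2⟩ := ih hm (show s + 1 ≤ m + 2 by omega)
        refine ⟨?_, ?_⟩
        · rw [nu_ch (j + 1), h1, ins_aux1 hsj, key]
        · rw [cc_ch (j + 1), h1, h2, ins_aux1 hsj, key2, ← cc_ch]
      · obtain ⟨h1, h2⟩ := ih hm (show s + 2 ≤ m + 2 by omega)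
        refine ⟨?_, ?_⟩
        · rw [nu_ch j (ins (s + 2) N), h1, ins_aux2 (show j ≤ s by omega), key]
        · rw [cc_ch j (ins (s + 2) N), h1, h2, ins_aux2 (show j ≤ s by omega), key2, ← cc_ch]

theorem nu_ins {n s : ℕ} {N : Code} (h : wf n N) (hs : s ≤ n) :
    nu (ins s N) = (A s)⁻¹ * sh (nu N) * A s := (nu_cc_ins h hs).1

theorem cc_ins {n s : ℕ} {N : Code} (h : wf n N) (hs : s ≤ n) : cc (ins s N) = cc N :=
  (nu_cc_ins h hs).2

/-! ### support of the strand permutation -/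

theorem nu_fix {n : ℕ} {N : Code} (h : wf n N) {x : ℕ} (hx : n ≤ x) : nu N x = x := by
  induction N generalizing n x with
  | nil => simp [nu]
  | emp N ih =>
    obtain ⟨m, rfl, hm⟩ := wf_empS h
    obtain ⟨y, rfl⟩ : ∃ y, x = y + 1 := ⟨x - 1, by omega⟩
    simp only [nu, sh_succ]
    rw [ih hm (show m ≤ y by omega)]
  | ch i N ih =>
    obtain ⟨m, rfl, hi, hm⟩ := wf_chS h
    simp only [nu, Perm.coe_mul, Function.comp_apply]
    have e1 : (A i)⁻¹ x = x := by
      rw [Perm.inv_eq_iff_eq, A_apply_gt (by omega)]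
    rw [e1]
    have e2 : (A i * nu N) (x + 1) = x + 1 := by
      rw [Perm.coe_mul, Function.comp_apply, ih hm (show m + 2 ≤ x + 1 by omega),
        A_apply_gt (by omega)]
    have e3 : (A i * nu N) 0 ≠ x + 1 := by
      intro h0
      rw [← e2] at h0
      have := (A i * nu N).injective h0
      omega
    have e4 : tr (A i * nu N) x + 1 = x + 1 := by
      rw [← sh_succ, sh_tr, Perm.coe_mul, Function.comp_apply, e2,
        swap_apply_of_ne_of_ne (by omega) (Ne.symm e3)]
    omega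

theorem nu_lt {n : ℕ} {N : Code} (h : wf n N) {x : ℕ} (hx : x < n) : nu N x < n := by
  by_contra hcon
  have h1 := nu_fix h (show n ≤ nu N x by omega)
  have h2 := (nu N).injective h1
  omega

/-! ### the grading -/

/-- the grading of codes -/
noncomputable def gr0 (N : Code) : Perm ℕ × Multiplicative ℤ := gd (nu N) (lev N)

/-- allowed changes of the grade under a deletion -/
def StepSet : Set (Perm ℕ × Multiplicative ℤ) :=
  {g | g = 1 ∨ (∃ a b, a ≠ b ∧ g = gd (swap a b) (-1)) ∨ g = gd 1 (-2)}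

/-- partial trace of a grade -/
noncomputable def trG (g : Perm ℕ × Multiplicative ℤ) : Perm ℕ × Multiplicative ℤ :=
  gd (tr g.1) (Multiplicative.toAdd g.2 + fx g.1)

/-- closing the strand which ends at the start `s` (gluing it there) -/
noncomputable def closeAt (s : ℕ) (g : Perm ℕ × Multiplicative ℤ) : Perm ℕ × Multiplicative ℤ :=
  gd (swap s (g.1 s) * g.1) (Multiplicative.toAdd g.2 + if g.1 s = s then 1 else 0)

lemma exists_gd (g : Perm ℕ × Multiplicative ℤ) : ∃ p m, g = gd p m :=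
  ⟨g.1, Multiplicative.toAdd g.2, rfl⟩

lemma trG_gd (p : Perm ℕ) (m : ℤ) : trG (gd p m) = gd (tr p) (m + fx p) := rfl

lemma closeAt_gd (s : ℕ) (p : Perm ℕ) (m : ℤ) :
    closeAt s (gd p m) = gd (swap s (p s) * p) (m + if p s = s then 1 else 0) := rfl

lemma mem_StepSet {g : Perm ℕ × Multiplicative ℤ} :
    g ∈ StepSet ↔ g = 1 ∨ (∃ a b, a ≠ b ∧ g = gd (swap a b) (-1)) ∨ g = gd 1 (-2) := Iff.rfl

lemma one_mem_StepSet : (1 : Perm ℕ × Multiplicative ℤ) ∈ StepSet := Or.inl rfl

lemma swap_mem_StepSet {a b : ℕ} (hab : a ≠ b) : gd (swap a b) (-1) ∈ StepSet :=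
  Or.inr (Or.inl ⟨a, b, hab, rfl⟩)

lemma two_mem_StepSet : gd 1 (-2) ∈ StepSet := Or.inr (Or.inr rfl)

/-- the conjugation invariance of the set of allowed steps -/
lemma StepSet_conj {γ : Perm ℕ × Multiplicative ℤ} (h : γ ∈ StepSet)
    (q : Perm ℕ × Multiplicative ℤ) : q⁻¹ * γ * q ∈ StepSet := by
  obtain ⟨p, m, rfl⟩ := exists_gd q
  rcases h with h | ⟨a, b, hab, h⟩ | h
  · rw [h, mul_one, inv_mul_cancel]; exact one_mem_StepSet
  · rw [h, gd_inv, gd_mul, gd_mul, Equiv.mul_swap_eq_swap_mul, inv_mul_cancel_right]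
    have e : -m + -1 + m = -1 := by ring
    rw [e]
    exact swap_mem_StepSet (fun h0 => hab (p⁻¹.injective h0))
  · rw [h, gd_inv, gd_mul, gd_mul, mul_one, inv_mul_cancel]
    have e : -m + -2 + m = -2 := by ring
    rw [e]
    exact two_mem_StepSet

lemma rem_ratio (p : Perm ℕ) (s a b : ℕ) :
    (swap s (p s) * p)⁻¹ * (swap s ((p * swap a b) s) * (p * swap a b)) =
      swap (p⁻¹ s) s * swap (p⁻¹ s) (swap a b s) * swap a b := by
  have h0 : p (p⁻¹ s) = s := by simp
  have h1 : swap s (p s) * p = p * swap (p⁻¹ s) s := by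
    rw [Equiv.mul_swap_eq_swap_mul, h0]
  have h2 : swap s ((p * swap a b) s) * (p * swap a b) =
      p * swap (p⁻¹ s) (swap a b s) * swap a b := by
    rw [Equiv.mul_swap_eq_swap_mul p (p⁻¹ s), h0, mul_assoc]
    rfl
  rw [h1, h2, mul_inv_rev, swap_inv]
  simp only [mul_assoc, inv_mul_cancel_left]

lemma three_swaps {s b c : ℕ} (h1 : c ≠ s) (h3 : b ≠ s) :
    swap c s * swap c b * swap s b = swap b c := by
  rw [Equiv.swap_mul_eq_mul_swap, swap_inv, mul_assoc]
  have e1 : swap c b c = b := swap_apply_left _ _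
  have e2 : swap c b s = s := swap_apply_of_ne_of_ne (Ne.symm h1) (Ne.symm h3)
  rw [e1, e2, swap_comm b s, swap_mul_self, mul_one, swap_comm]

/-- the case of a step by a transposition moving `s` -/
lemma closeAt_aux {s b : ℕ} (hb : b ≠ s) (p : Perm ℕ) (m : ℤ) :
    (closeAt s (gd p m))⁻¹ * closeAt s (gd (p * swap s b) (m + -1)) ∈ StepSet := by
  rw [closeAt_gd, closeAt_gd, gd_inv, gd_mul, rem_ratio, swap_apply_left]
  have e0 : (p * swap s b) s = p b := by
    rw [Perm.coe_mul, Function.comp_apply, swap_apply_left]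
  rw [e0]
  by_cases hc : p⁻¹ s = s
  · have h1 : p s = s := by
      have := Perm.inv_eq_iff_eq.mp hc
      exact this.symm
    have h2 : p b ≠ s := fun h => hb (p.injective (h.trans h1.symm))
    rw [hc, if_pos h1, if_neg h2, swap_self]
    have e5 : (Equiv.refl ℕ : Perm ℕ) * swap s b * swap s b = 1 := by
      rw [mul_assoc, swap_mul_self]; rfl
    rw [e5]
    have e : -(m + 1) + (m + -1 + 0) = -2 := by ring
    rw [e]
    exact two_mem_StepSet
  · have h1 : p s ≠ s := fun h => hc (Perm.inv_eq_iff_eq.mpr h.symm)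
    rw [if_neg h1]
    by_cases hc2 : p⁻¹ s = b
    · have h2 : p b = s := (Perm.inv_eq_iff_eq.mp hc2).symm
      rw [hc2, if_pos h2]
      have e : -(m + 0) + (m + -1 + 1) = 0 := by ring
      have e2 : swap b s * swap b b * swap s b = 1 := by
        rw [swap_self, swap_comm b s]
        exact swap_mul_self s b
      rw [e, e2]
      exact one_mem_StepSet
    · have h2 : p b ≠ s := fun h => hc2 (Perm.inv_eq_iff_eq.mpr h.symm)
      rw [if_neg h2, three_swaps hc hb]
      have e : -(m + 0) + (m + -1 + 0) = -1 := by ring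
      rw [e]
      exact swap_mem_StepSet (Ne.symm hc2)

theorem step_closeAt {s : ℕ} {g g' : Perm ℕ × Multiplicative ℤ} (h : g⁻¹ * g' ∈ StepSet) :
    (closeAt s g)⁻¹ * closeAt s g' ∈ StepSet := by
  obtain ⟨p, m, rfl⟩ := exists_gd g
  rcases h with h | ⟨a, b, hab, h⟩ | h
  · rw [inv_mul_eq_iff_eq_mul, mul_one] at h
    rw [h, inv_mul_cancel]
    exact one_mem_StepSet
  · rw [inv_mul_eq_iff_eq_mul, gd_mul] at h
    rw [h]
    by_cases hsa : s = a
    · subst hsa
      exact closeAt_aux (Ne.symm hab) p m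
    · by_cases hsb : s = b
      · subst hsb
        rw [swap_comm]
        exact closeAt_aux hab p m
      · have e0 : swap a b s = s := swap_apply_of_ne_of_ne hsa hsb
        have e1 : (p * swap a b) s = p s := by
          rw [Perm.coe_mul, Function.comp_apply, e0]
        rw [closeAt_gd, closeAt_gd, gd_inv, gd_mul, rem_ratio, e0, e1, swap_mul_self, one_mul]
        have e : -(m + if p s = s then 1 else 0) + (m + -1 + if p s = s then 1 else 0) = -1 := by
          ring
        rw [e]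
        exact swap_mem_StepSet hab
  · rw [inv_mul_eq_iff_eq_mul, gd_mul, mul_one] at h
    rw [h, closeAt_gd, closeAt_gd, gd_inv, gd_mul, inv_mul_cancel]
    have e : -(m + if p s = s then 1 else 0) + (m + -2 + if p s = s then 1 else 0) = -2 := by
      ring
    rw [e]
    exact two_mem_StepSet

/-- if a shifted step is allowed then the step is allowed -/
lemma StepSet_sh {q : Perm ℕ} {m : ℤ} : gd (sh q) m ∈ StepSet ↔ gd q m ∈ StepSet := by
  constructor
  · rintro (h | ⟨a, b, hab, h⟩ | h)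
    · rw [← gd_one, gd_inj, sh_eq_one] at h
      rw [h.1, h.2, gd_one]
      exact one_mem_StepSet
    · rw [gd_inj] at h
      have h0 : swap a b 0 = 0 := by rw [← h.1, sh_zero]
      have ha : a ≠ 0 := by
        rintro rfl
        rw [swap_apply_left] at h0
        exact hab h0.symm
      have hb : b ≠ 0 := by
        rintro rfl
        rw [swap_apply_right] at h0
        exact hab h0
      obtain ⟨x, rfl⟩ : ∃ x, a = x + 1 := ⟨a - 1, by omega⟩
      obtain ⟨y, rfl⟩ : ∃ y, b = y + 1 := ⟨b - 1, by omega⟩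
      have h1 : q = swap x y := sh_injective (by rw [h.1, sh_swap])
      rw [h1, h.2]
      exact swap_mem_StepSet (fun h => hab (by rw [h]))
    · rw [gd_inj, sh_eq_one] at h
      rw [h.1, h.2]
      exact two_mem_StepSet
  · rintro (h | ⟨a, b, hab, h⟩ | h)
    · rw [← gd_one, gd_inj] at h
      rw [h.1, h.2, sh_one, gd_one]
      exact one_mem_StepSet
    · rw [gd_inj] at h
      rw [h.1, h.2, sh_swap]
      exact swap_mem_StepSet (fun h => hab (by omega))
    · rw [gd_inj] at h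
      rw [h.1, h.2, sh_one]
      exact two_mem_StepSet

theorem step_trG {g g' : Perm ℕ × Multiplicative ℤ} (h : g⁻¹ * g' ∈ StepSet) :
    (trG g)⁻¹ * trG g' ∈ StepSet := by
  have h1 := step_closeAt (s := 0) h
  obtain ⟨p, m, rfl⟩ := exists_gd g
  obtain ⟨q, l, rfl⟩ := exists_gd g'
  rw [trG_gd, trG_gd, gd_inv, gd_mul, ← StepSet_sh, sh_mul, sh_inv]
  rw [closeAt_gd, closeAt_gd, ← sh_tr, ← sh_tr, gd_inv, gd_mul] at h1
  have e : ∀ r : Perm ℕ, ((if r 0 = 0 then (1 : ℤ) else 0)) = (fx r : ℤ) := by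
    intro r
    unfold fx
    split_ifs <;> rfl
  rwa [e, e] at h1

lemma kk_merge_aux (i : ℕ) (N : Code) : kk (merge i N) = kk N := by
  induction N generalizing i with
  | nil => cases i <;> rfl
  | emp N ih =>
    cases i with
    | zero => rfl
    | succ i => exact ih i
  | ch j N ih =>
    rw [merge_chS]
    split_ifs
    · simp only [kk]; rw [ih]
    · simp only [kk]; rw [ih]

lemma gr0_ch (i : ℕ) (N : Code) :
    gr0 (ch i N) = trG (gd (A i) 0 * gr0 N * gd (sh (A i))⁻¹ 1) := by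
  unfold gr0
  rw [gd_mul, gd_mul, trG_gd, nu_ch]
  congr 1
  unfold lev
  rw [cc_ch]
  simp only [kk]
  push_cast
  ring

lemma gr0_merge (i : ℕ) (N : Code) :
    gr0 (merge i N) = trG (gd (A i) 0 * gr0 N * gd (sh (A i))⁻¹ 1 * gd (swap 0 1) (-1)) := by
  unfold gr0
  rw [gd_mul, gd_mul, gd_mul, trG_gd, nu_merge]
  congr 1
  unfold lev
  rw [cc_merge, kk_merge_aux]
  push_cast
  ring

/-- the grade changes by an allowed step under deletion of a chord -/
theorem step_cdel (N : Code) (c : ℕ) (hc : c < kk N) :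
    (gr0 N)⁻¹ * gr0 (cdel c N) ∈ StepSet := by
  induction N generalizing c with
  | nil => simp [kk] at hc
  | emp N ih =>
    have e : cdel c (emp N) = emp (cdel c N) := by cases c <;> rfl
    have h := ih c hc
    rw [e]
    unfold gr0 at h ⊢
    simp only [nu]
    rw [gd_inv, gd_mul] at h ⊢
    rw [← sh_inv, ← sh_mul, StepSet_sh]
    exact h
  | ch i N ih =>
    cases c with
    | zero =>
      have e : cdel 0 (ch i N) = merge i N := rfl
      rw [e, gr0_ch, gr0_merge]
      apply step_trG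
      rw [inv_mul_cancel_left]
      exact swap_mem_StepSet (by norm_num)
    | succ c =>
      have e : cdel (c + 1) (ch i N) = ch i (cdel c N) := rfl
      have h := ih c (by simp only [kk] at hc; omega)
      rw [e, gr0_ch, gr0_ch]
      apply step_trG
      have h2 := StepSet_conj h (gd (sh (A i))⁻¹ 1)
      have e2 : (gd (A i) 0 * gr0 N * gd (sh (A i))⁻¹ 1)⁻¹ *
          (gd (A i) 0 * gr0 (cdel c N) * gd (sh (A i))⁻¹ 1) =
          (gd (sh (A i))⁻¹ 1)⁻¹ * ((gr0 N)⁻¹ * gr0 (cdel c N)) * gd (sh (A i))⁻¹ 1 := by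
        group
      rw [e2]
      exact h2

theorem closeAt_mul {s : ℕ} {g : Perm ℕ × Multiplicative ℤ} {q : Perm ℕ} {m : ℤ} (hq : q s = s) :
    closeAt s (g * gd q m) = closeAt s g * gd q m := by
  obtain ⟨p, k, rfl⟩ := exists_gd g
  rw [gd_mul, closeAt_gd, closeAt_gd, gd_mul, Perm.coe_mul, Function.comp_apply, hq, mul_assoc]
  congr 1
  ring

theorem comp_sq_cond {a b : ℕ} (hab : a ≠ b) :
    ∀ γ₁ ∈ StepSet, ∀ γ₂ ∈ StepSet, γ₁ * γ₂ = gd (swap a b) (-1) →
      (γ₁ = 1 ∧ γ₂ = gd (swap a b) (-1)) ∨ (γ₁ = gd (swap a b) (-1) ∧ γ₂ = 1) := by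
  intro γ₁ h1 γ₂ h2 h
  rcases h1 with h1 | ⟨x, y, hxy, h1⟩ | h1
  · left
    rw [h1, one_mul] at h
    exact ⟨h1, h⟩
  · rcases h2 with h2 | ⟨z, w, hzw, h2⟩ | h2
    · right
      rw [h2, mul_one] at h
      exact ⟨h, h2⟩
    · rw [h1, h2, gd_mul, gd_inj] at h
      have := h.2
      omega
    · rw [h1, h2, gd_mul, gd_inj] at h
      have := h.2
      omega
  · rcases h2 with h2 | ⟨z, w, hzw, h2⟩ | h2
    · rw [h1, h2, mul_one, gd_inj] at h
      have := h.2
      omega
    · rw [h1, h2, gd_mul, gd_inj] at h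
      have := h.2
      omega
    · rw [h1, h2, gd_mul, gd_inj] at h
      have := h.2
      omega

end ArcC
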