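import Mathlib
import Pool.Agent.Lib.MP_e5080e_gt.Strands
import Pool.Agent.Lib.MP_e5080e_gt.Ops

/-! Grades of the chain operators, gradings of partial closures, and the lemma (S) for codes. -/

namespace ArcC

open Equiv Code

/-! ### Grades of the chain operators -/

lemma nu_emp (N : Code) : nu (emp N) = sh (nu N) := rfl
lemma nu_ch' (i : ℕ) (N : Code) : nu (ch i N) = tr (A i * nu N) * (A i)⁻¹ := rfl
lemma cc_emp (N : Code) : cc (emp N) = cc N := rfl
lemma cc_ch' (i : ℕ) (N : Code) : cc (ch i N) = cc N + fx (A i * nu N) := rfl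

lemma tr_swap_zero (a : ℕ) : tr (swap 0 a) = 1 := by
  rw [← sh_eq_one, sh_tr, swap_apply_left, swap_mul_self]

lemma A_one : A 1 = swap 0 1 := by
  rw [show (1 : ℕ) = 0 + 1 from rfl, A_succ]; simp

lemma swap01_pow_even {r : ℕ} (h : Even r) : (swap 0 1 : Perm ℕ) ^ r = 1 :=
  pow_even (swap_mul_self 0 1) h

lemma swap01_pow_odd {r : ℕ} (h : ¬ Even r) : (swap 0 1 : Perm ℕ) ^ r = swap 0 1 :=
  pow_odd (swap_mul_self 0 1) h

lemma tr_swap01_pow (r : ℕ) : tr ((swap 0 1 : Perm ℕ) ^ r) = 1 := by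
  by_cases h : Even r
  · rw [swap01_pow_even h, tr_one]
  · rw [swap01_pow_odd h, tr_swap_zero]

lemma fx_swap_zero {a : ℕ} (h : a ≠ 0) : fx (swap 0 a) = 0 := by
  apply fx_eq_zero; simpa using h

lemma nu_ch_one_emp (N : Code) : nu (ch 1 (emp N)) = nu N * swap 0 1 := by
  rw [nu_ch', nu_emp, tr_mul_sh, A_one, tr_swap_zero, one_mul, swap_inv]

lemma cc_ch_one_emp (N : Code) : cc (ch 1 (emp N)) = cc N := by
  rw [cc_ch', nu_emp, cc_emp, fx_mul_sh, A_one, fx_swap_zero one_ne_zero, add_zero]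

lemma nu_Fo (r : ℕ) (N : Code) : nu (Fo r N) = sh (nu N) * swap 0 1 ^ r := by
  induction r with
  | zero => simp [Fo, nu_emp]
  | succ r ih => rw [Fo, nu_ch_one_emp, ih, pow_succ, mul_assoc]

lemma cc_Fo (r : ℕ) (N : Code) : cc (Fo r N) = cc N := by
  induction r with
  | zero => simp [Fo, cc_emp]
  | succ r ih => rw [Fo, cc_ch_one_emp, ih]

lemma nu_Co (r : ℕ) (N : Code) : nu (Co r N) = nu N := by
  cases r with
  | zero => rfl
  | succ r =>
    rw [Co, nu_ch', nu_Fo, A_zero, one_mul, tr_sh_mul, tr_swap01_pow]; simp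

lemma cc_Co (r : ℕ) (N : Code) : (cc (Co r N) : ℤ) + r = cc N + lc r := by
  cases r with
  | zero => simp [Co, lc]
  | succ r =>
    rw [Co, cc_ch', nu_Fo, A_zero, one_mul, fx_sh_mul, cc_Fo]
    by_cases h : Even r
    · rw [swap01_pow_even h, fx_one, lc_odd (by rw [Nat.even_iff] at *; omega)]
      push_cast; ring
    · rw [swap01_pow_odd h, fx_swap_zero one_ne_zero, lc_even (by rw [Nat.even_iff] at *; omega)]
      push_cast; ring

theorem gr0_Co {r : ℕ} {N : Code} : gr0 (Co r N) = gr0 N * gd 1 (lc r) := by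
  rw [gr0, gr0, gd_mul, gd_inj, nu_Co, mul_one]
  refine ⟨rfl, ?_⟩
  have := cc_Co r N
  simp only [lev, kk_Co]
  push_cast
  linarith

lemma A_zero_apply {s : ℕ} (hs : 0 < s) : A s 0 = 1 := A_apply_lt hs

lemma fx_A {s : ℕ} (hs : 0 < s) : fx (A s) = 0 := by
  apply fx_eq_zero; rw [A_zero_apply hs]; exact one_ne_zero

lemma tr_A_succ (s : ℕ) : tr (A (s + 1)) = A s := by
  rw [A_succ, tr_mul_sh, tr_swap_zero, one_mul]

lemma nu_Bo {n s : ℕ} (r : ℕ) {N : Code} (h : wf n N) (hs : s ≤ n) :
    nu (Bo s r N) = sh (nu N) * swap 0 (s + 1) * swap 0 1 ^ r := by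
  induction r with
  | zero =>
    rw [Bo, nu_ch', nu_emp, tr_mul_sh, tr_A_succ, nu_ins h hs, pow_zero, mul_one,
      ← A_mul_A_succ_inv]
    group
  | succ r ih => rw [Bo, nu_ch_one_emp, ih, pow_succ, mul_assoc _ _ (swap 0 1)]

lemma cc_Bo {n s : ℕ} (r : ℕ) {N : Code} (h : wf n N) (hs : s ≤ n) :
    cc (Bo s r N) = cc N := by
  induction r with
  | zero =>
    rw [Bo, cc_ch', nu_emp, cc_emp, fx_mul_sh, cc_ins h hs, fx_A (Nat.succ_pos s), add_zero]
  | succ r ih => rw [Bo, cc_ch_one_emp, ih]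

lemma nu_ch_ins {n s : ℕ} {N : Code} (hs : 0 < s) (h : wf n N) (hs' : s ≤ n) :
    nu (ch s (ins s N)) = nu N * swap 0 s := by
  obtain ⟨s, rfl⟩ : ∃ m, s = m + 1 := ⟨s - 1, by omega⟩
  rw [nu_ch', nu_ins h hs', ← mul_assoc, mul_inv_cancel_left, tr_sh_mul, tr_A_succ,
    ← A_mul_A_succ_inv, mul_assoc]

lemma cc_ch_ins {n s : ℕ} {N : Code} (hs : 0 < s) (h : wf n N) (hs' : s ≤ n) :
    cc (ch s (ins s N)) = cc N := by
  rw [cc_ch', nu_ins h hs', ← mul_assoc, mul_inv_cancel_left, fx_sh_mul, cc_ins h hs', fx_A hs,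
    add_zero]

lemma tr_swap_swap {s : ℕ} (hs : 0 < s) :
    tr (swap 0 (s + 1) * swap 0 1) = swap 0 s := by
  apply sh_injective
  rw [sh_tr, sh_swap]
  have h1 : (swap 0 (s + 1) * swap 0 1 : Perm ℕ) 0 = 1 := by
    rw [Perm.mul_apply, swap_apply_left, swap_apply_of_ne_of_ne one_ne_zero (by omega)]
  rw [h1]
  have h2 : swap 0 1 * (swap 0 (s + 1) * swap 0 1) = swap (swap 0 1 0) (swap 0 1 (s + 1)) := by
    rw [swap_apply_apply]
    simp [mul_assoc]
  rw [h2, swap_apply_left, swap_apply_of_ne_of_ne (by omega) (by omega)]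

lemma fx_swap_swap {s : ℕ} (hs : 0 < s) : fx (swap 0 (s + 1) * swap 0 1) = 0 := by
  apply fx_eq_zero
  rw [Perm.mul_apply, swap_apply_left, swap_apply_of_ne_of_ne one_ne_zero (by omega)]
  exact one_ne_zero

theorem gr0_Ko {n s r : ℕ} {N : Code} (hs : 0 < s) (hs' : s < n) (h : wf n N) :
    gr0 (Ko s r N) = gr0 N * gd (swap 0 s ^ r) r := by
  rw [gr0, gr0, gd_mul, gd_inj]
  simp only [lev, kk_Ko]
  match r with
  | 0 => simp [Ko]
  | 1 =>
    rw [Ko, nu_ch_ins hs h hs'.le, cc_ch_ins hs h hs'.le]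
    refine ⟨by simp, by push_cast; ring⟩
  | r + 2 =>
    rw [Ko, nu_ch', cc_ch', nu_Bo r h hs'.le, cc_Bo r h hs'.le, A_zero, one_mul, inv_one, mul_one,
      mul_assoc, tr_sh_mul, fx_sh_mul]
    by_cases hr : Even r
    · rw [swap01_pow_even hr, mul_one, tr_swap_zero, fx_swap_zero (by omega),
        pow_even (swap_mul_self 0 s) (by rw [Nat.even_iff] at *; omega)]
      exact ⟨rfl, by push_cast; ring⟩
    · rw [swap01_pow_odd hr, tr_swap_swap hs, fx_swap_swap hs,
        pow_odd (swap_mul_self 0 s) (by rw [Nat.even_iff] at *; omega)]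
      exact ⟨rfl, by push_cast; ring⟩

lemma swap01_comm_sh_sh (q : Perm ℕ) :
    swap 0 1 * sh (sh q) = sh (sh q) * swap 0 1 := by
  rw [Equiv.mul_swap_eq_swap_mul]
  simp

lemma conj_aux (p : Perm ℕ) (t : ℕ) :
    swap 0 1 * (A (t + 1) * sh ((A t)⁻¹ * sh p * A t) * swap 0 1 * sh (A (t + 1))⁻¹) * swap 0 1 =
      sh (sh p * (A t * sh (A t)⁻¹)) * swap 0 2 := by
  have e1 : swap 0 1 * (A (t + 1) * sh ((A t)⁻¹ * sh p * A t)) = sh (sh p * A t) := by
    rw [A_succ, ← mul_assoc, ← mul_assoc, swap_mul_self, one_mul, ← sh_mul]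
    congr 1
    group
  have e2 : swap 0 1 * sh (A (t + 1))⁻¹ * swap 0 1 = sh (sh (A t)⁻¹) * swap 0 2 := by
    rw [A_succ, mul_inv_rev, swap_inv, sh_mul, ← sh_inv, ← mul_assoc, swap01_comm_sh_sh, mul_assoc,
      mul_assoc, sh_swap]
    congr 1
    have h2 : swap 0 1 * (swap 1 2) * (swap 0 1 : Perm ℕ)⁻¹ = swap (swap 0 1 1) (swap 0 1 2) := by
      rw [swap_apply_apply]
    rw [swap_inv, swap_apply_right, swap_apply_of_ne_of_ne (by omega) (by omega)] at h2
    rw [← h2, mul_assoc]
  calc _ = (swap 0 1 * (A (t + 1) * sh ((A t)⁻¹ * sh p * A t))) *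
        (swap 0 1 * sh (A (t + 1))⁻¹ * swap 0 1) := by simp only [mul_assoc]
    _ = _ := by
      rw [e1, e2, ← mul_assoc, ← sh_mul, mul_assoc]

theorem gr0_No {n t r : ℕ} {N : Code} (ht : 0 < t) (ht' : t < n) (h : wf n N) :
    gr0 (No t r N) = gr0 N * gd (if Even r then 1 else swap 0 t) r := by
  rw [gr0, gr0, gd_mul, gd_inj]
  simp only [lev, kk_No]
  match r with
  | 0 => simp [No]
  | 1 =>
    rw [No, nu_ch_ins ht h ht'.le, cc_ch_ins ht h ht'.le]
    refine ⟨by simp, by push_cast; ring⟩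
  | r + 2 =>
    by_cases hr : Even r
    · have h1 : nu (ch (t + 1) (Fo r (ins t N))) = sh (nu N) * swap 0 (t + 1) := by
        rw [nu_ch', nu_Fo, swap01_pow_even hr, mul_one, tr_mul_sh, tr_A_succ, nu_ins h ht'.le,
          ← A_mul_A_succ_inv]
        group
      have h2 : cc (ch (t + 1) (Fo r (ins t N))) = cc N := by
        rw [cc_ch', nu_Fo, cc_Fo, swap01_pow_even hr, mul_one, fx_mul_sh, cc_ins h ht'.le,
          fx_A (Nat.succ_pos t), add_zero]
      rw [No, nu_ch', cc_ch', h1, h2, A_zero, one_mul, inv_one, mul_one, tr_sh_mul, fx_sh_mul,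
        tr_swap_zero, fx_swap_zero (by omega), if_pos (by rw [Nat.even_iff] at *; omega)]
      exact ⟨rfl, by push_cast; ring⟩
    · set q := A (t + 1) * sh ((A t)⁻¹ * sh (nu N) * A t) * swap 0 1 * sh (A (t + 1))⁻¹ with hq
      have h1 : nu (ch (t + 1) (Fo r (ins t N))) = tr q := by
        rw [nu_ch', nu_Fo, swap01_pow_odd hr, hq, tr_mul_sh, nu_ins h ht'.le, ← mul_assoc (A (t + 1))]
      have h2 : cc (ch (t + 1) (Fo r (ins t N))) = cc N + fx q := by
        rw [cc_ch', nu_Fo, swap01_pow_odd hr, hq, fx_mul_sh, nu_ins h ht'.le,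
          ← mul_assoc (A (t + 1)), cc_Fo, cc_ins h ht'.le]
      have h3 := conj_aux (nu N) t
      rw [← hq] at h3
      have h4 := tr_tr_conj q
      have h5 := fx_tr_conj q
      rw [h3, tr_sh_mul, tr_swap_zero, mul_one] at h4 h5
      rw [← mul_assoc, tr_mul_sh, tr_sh_mul] at h4
      rw [fx_sh_mul, fx_sh_mul, fx_mul_sh, fx_swap_zero two_ne_zero, fx_A ht] at h5
      have h6 : tr (A t) * (A t)⁻¹ = swap 0 t := by
        obtain ⟨t, rfl⟩ : ∃ m, t = m + 1 := ⟨t - 1, by omega⟩
        rw [tr_A_succ, A_mul_A_succ_inv]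
      rw [No, nu_ch', cc_ch', h1, h2, A_zero, one_mul, inv_one, mul_one, ← h4, mul_assoc, h6,
        if_neg (by rw [Nat.even_iff] at *; omega)]
      refine ⟨rfl, ?_⟩
      push_cast
      have h7 : (fx q : ℤ) + fx (tr q) = 0 := by exact_mod_cast h5.symm
      linarith

/-! ### Partial closures -/

/-- the grading after closing the starts `n-1, ..., n-j` by means of the closure `ρ` -/
noncomputable def grc (ρ : Perm ℕ) (n : ℕ) : ℕ → Code → Perm ℕ × Multiplicative ℤ
  | 0, N => gd ρ 0 * gr0 N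
  | j + 1, N => closeAt (n - 1 - j) (grc ρ n j N)

/-- A grading which behaves well with respect to the chain operators at the words `0, s, t`. -/
structure GoodGr (n s t : ℕ) (gr : Code → Perm ℕ × Multiplicative ℤ) : Prop where
  step : ∀ N c, wf n N → c < kk N → (gr N)⁻¹ * gr (cdel c N) ∈ StepSet
  co : ∀ N r, wf n N → gr (Co r N) = gr N * gd 1 (lc r)
  ko : ∀ N r, wf n N → gr (Ko s r N) = gr N * gd (swap 0 s ^ r) (r : ℤ)
  no : ∀ N r, wf n N → gr (No t r N) = gr N * gd (if Even r then 1 else swap 0 t) (r : ℤ)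
  lower : ∀ N, wf n N → 0 ≤ Multiplicative.toAdd (gr N).2

theorem goodGr_gr0 {n s t : ℕ} (hs : 0 < s) (hs' : s < n) (ht : 0 < t) (ht' : t < n) :
    GoodGr n s t gr0 where
  step N c _ hc := step_cdel N c hc
  co _ _ _ := gr0_Co
  ko _ _ h := gr0_Ko hs hs' h
  no _ _ h := gr0_No ht ht' h
  lower N _ := by simp [gr0, gd]

lemma toAdd_closeAt (s : ℕ) (g : Perm ℕ × Multiplicative ℤ) :
    Multiplicative.toAdd g.2 ≤ Multiplicative.toAdd (closeAt s g).2 := by
  simp only [closeAt, gd, toAdd_ofAdd]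
  split_ifs <;> omega

theorem goodGr_grc {n s t j : ℕ} (ρ : Perm ℕ) (hj : j ≤ n) (hs : 0 < s) (hs' : s < n - j)
    (ht : 0 < t) (ht' : t < n - j) : GoodGr n s t (grc ρ n j) := by
  induction j with
  | zero =>
    have h0 := goodGr_gr0 hs (by omega : s < n) ht (by omega : t < n)
    refine ⟨fun N c h hc => ?_, fun N r h => ?_, fun N r h => ?_, fun N r h => ?_, fun N h => ?_⟩
    · have := h0.step N c h hc
      simp only [grc, mul_inv_rev, mul_assoc, inv_mul_cancel_left]
      exact this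
    · simp only [grc, h0.co N r h, mul_assoc]
    · simp only [grc, h0.ko N r h, mul_assoc]
    · simp only [grc, h0.no N r h, mul_assoc]
    · simp [grc, gr0, gd]
  | succ j ih =>
    have h0 := ih (by omega) (by omega) (by omega)
    refine ⟨fun N c h hc => ?_, fun N r h => ?_, fun N r h => ?_, fun N r h => ?_, fun N h => ?_⟩
    · simp only [grc]
      exact step_closeAt (h0.step N c h hc)
    · simp only [grc, h0.co N r h]
      exact closeAt_mul rfl
    · simp only [grc, h0.ko N r h]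
      refine closeAt_mul ?_
      by_cases hr : Even r
      · rw [pow_even (swap_mul_self 0 s) hr]; rfl
      · rw [pow_odd (swap_mul_self 0 s) hr]
        exact swap_apply_of_ne_of_ne (by omega) (by omega)
    · simp only [grc, h0.no N r h]
      refine closeAt_mul ?_
      by_cases hr : Even r
      · rw [if_pos hr]; rfl
      · rw [if_neg hr]
        exact swap_apply_of_ne_of_ne (by omega) (by omega)
    · simp only [grc]
      exact (h0.lower N h).trans (toAdd_closeAt _ _)

/-! ### Restriction of operators to a part of the basis -/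

section restr

variable {X : Type*} {A : Type*} [AddCommGroup A] (p : X → Prop)

/-- inclusion of the chains supported on `p` -/
noncomputable def emb : ({x // p x} →₀ A) →ₗ[ℤ] (X →₀ A) :=
  Finsupp.lmapDomain A ℤ Subtype.val

/-- restriction of the chains to `p` -/
noncomputable def res : (X →₀ A) →ₗ[ℤ] ({x // p x} →₀ A) where
  toFun := fun x => x.subtypeDomain p
  map_add' := fun _ _ => Finsupp.subtypeDomain_add
  map_smul' := fun _ _ => by ext; simp

lemma res_apply (x : X →₀ A) (N : {x // p x}) : res p x N = x N.1 := rfl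

lemma emb_apply (x : {x // p x} →₀ A) (N : {x // p x}) : emb p x N.1 = x N := by
  rw [emb, Finsupp.lmapDomain_apply]
  exact Finsupp.mapDomain_apply Subtype.val_injective _ _

lemma emb_apply_ne (x : {x // p x} →₀ A) {N : X} (h : ¬ p N) : emb p x N = 0 := by
  rw [emb, Finsupp.lmapDomain_apply]
  apply Finsupp.mapDomain_of_notMem_range
  rintro ⟨y, rfl⟩
  exact h y.2

lemma emb_supp (x : {x // p x} →₀ A) {N : X} (h : emb p x N ≠ 0) : p N := by
  by_contra hne
  exact h (emb_apply_ne p x hne)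

lemma emb_single (N : {x // p x}) (a : A) :
    emb p (Finsupp.single N a) = Finsupp.single N.1 a := by
  rw [emb, Finsupp.lmapDomain_apply, Finsupp.mapDomain_single]

lemma res_emb (x : {x // p x} →₀ A) : res p (emb p x) = x := by
  ext N
  rw [res_apply, emb_apply]

lemma emb_res (x : X →₀ A) (hx : ∀ N, x N ≠ 0 → p N) : emb p (res p x) = x := by
  ext N
  by_cases hN : p N
  · rw [show N = (⟨N, hN⟩ : {x // p x}).1 from rfl, emb_apply, res_apply]
  · rw [emb_apply_ne p _ hN]
    by_contra h0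
    exact hN (hx N (Ne.symm h0))

/-- restriction of an operator -/
noncomputable def restr (P : Module.End ℤ (X →₀ A)) : Module.End ℤ ({x // p x} →₀ A) :=
  res p ∘ₗ P ∘ₗ emb p

lemma restr_apply (P : Module.End ℤ (X →₀ A)) (x : {x // p x} →₀ A) :
    restr p P x = res p (P (emb p x)) := rfl

lemma restr_single (P : Module.End ℤ (X →₀ A)) (N : {x // p x}) (a : A) :
    restr p P (Finsupp.single N a) = res p (P (Finsupp.single N.1 a)) := by
  rw [restr_apply, emb_single]

lemma restr_add (P Q : Module.End ℤ (X →₀ A)) : restr p (P + Q) = restr p P + restr p Q := by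
  refine LinearMap.ext fun x => ?_
  simp [restr_apply]

lemma restr_zero : restr p (0 : Module.End ℤ (X →₀ A)) = 0 := by
  refine LinearMap.ext fun x => ?_
  simp [restr_apply]

lemma restr_neg (P : Module.End ℤ (X →₀ A)) : restr p (-P) = - restr p P := by
  refine LinearMap.ext fun x => ?_
  simp [restr_apply]

lemma restr_one : restr p (1 : Module.End ℤ (X →₀ A)) = 1 := by
  refine LinearMap.ext fun x => ?_
  rw [restr_apply, Module.End.one_apply, res_emb, Module.End.one_apply]

lemma restr_sum {ι : Type*} (s : Finset ι) (P : ι → Module.End ℤ (X →₀ A)) :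
    restr p (∑ i ∈ s, P i) = ∑ i ∈ s, restr p (P i) := by
  classical
  induction s using Finset.induction_on with
  | empty => simp [restr_zero]
  | insert a s ha ih => rw [Finset.sum_insert ha, Finset.sum_insert ha, restr_add, ih]

lemma restr_negpow (n : ℕ) (P : Module.End ℤ (X →₀ A)) :
    restr p ((-1) ^ n * P) = (-1) ^ n * restr p P := by
  rcases Nat.even_or_odd n with he | ho
  · rw [he.neg_one_pow, he.neg_one_pow, one_mul, one_mul]
  · rw [ho.neg_one_pow, ho.neg_one_pow, neg_one_mul, neg_one_mul, restr_neg]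

/-- `P` preserves the chains supported on `p` -/
def Pres (P : Module.End ℤ (X →₀ A)) : Prop :=
  ∀ N, p N → ∀ a N', (P (Finsupp.single N a)) N' ≠ 0 → p N'

lemma exists_single_ne (P : Module.End ℤ (X →₀ A)) (x : X →₀ A) {N' : X} (h : (P x) N' ≠ 0) :
    ∃ N, x N ≠ 0 ∧ (P (Finsupp.single N (x N))) N' ≠ 0 := by
  rw [eq_sum_single x, map_sum, Finsupp.finsetSum_apply] at h
  obtain ⟨N, hN, hN2⟩ := Finset.exists_ne_zero_of_sum_ne_zero h
  exact ⟨N, Finsupp.mem_support_iff.1 hN, hN2⟩

variable {p}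

lemma Pres.apply {P : Module.End ℤ (X →₀ A)} (hP : Pres p P) {x : X →₀ A}
    (hx : ∀ N, x N ≠ 0 → p N) {N : X} (hN : (P x) N ≠ 0) : p N := by
  obtain ⟨N', h1, h2⟩ := exists_single_ne P x hN
  exact hP N' (hx N' h1) _ _ h2

lemma restr_mul {P Q : Module.End ℤ (X →₀ A)} (hQ : Pres p Q) :
    restr p (P * Q) = restr p P * restr p Q := by
  refine LinearMap.ext fun x => ?_
  rw [Module.End.mul_apply, restr_apply, restr_apply, restr_apply, Module.End.mul_apply, emb_res]
  intro N hN
  exact hQ.apply (fun N' hN' => emb_supp p x hN') hN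

variable {G : Type*} [Group G] (gr : X → G)

lemma comp_restr (γ : G) (P : Module.End ℤ (X →₀ A)) :
    comp (fun N : {x // p x} => gr N.1) γ (restr p P) = restr p (comp gr γ P) := by
  refine Finsupp.lhom_ext fun N a => ?_
  rw [comp_single, restr_single, restr_single, comp_single]
  ext N'
  by_cases h : gr N'.1 = gr N.1 * γ
  · rw [flt_apply_pos (p := fun N' : {x // p x} => gr N'.1 = gr N.1 * γ) _ h, res_apply, res_apply,
      flt_apply_pos (p := fun N' => gr N' = gr N.1 * γ) _ h]
  · rw [flt_apply_neg (p := fun N' : {x // p x} => gr N'.1 = gr N.1 * γ) _ h, res_apply,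
      flt_apply_neg (p := fun N' => gr N' = gr N.1 * γ) _ h]

lemma comp_single_ne {γ : G} {P : Module.End ℤ (X →₀ A)} {N N' : X} {a : A}
    (h : (comp gr γ P (Finsupp.single N a)) N' ≠ 0) :
    gr N' = gr N * γ ∧ (P (Finsupp.single N a)) N' ≠ 0 := by
  rw [comp_single] at h
  by_cases h1 : gr N' = gr N * γ
  · rw [flt_apply_pos (p := fun N' => gr N' = gr N * γ) _ h1] at h
    exact ⟨h1, h⟩
  · rw [flt_apply_neg (p := fun N' => gr N' = gr N * γ) _ h1] at h
    exact absurd rfl h

lemma Pres.comp {γ : G} {P : Module.End ℤ (X →₀ A)} (hP : Pres p P) :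
    Pres p (ArcC.comp gr γ P) := fun N hN a N' h => hP N hN a N' (comp_single_ne gr h).2

lemma emb_restr {P : Module.End ℤ (X →₀ A)} (hP : Pres p P) (x : {x // p x} →₀ A) :
    emb p (restr p P x) = P (emb p x) := by
  rw [restr_apply, emb_res]
  intro N hN
  exact hP.apply (fun N' hN' => emb_supp p x hN') hN

lemma flt_oper {q r : X → Prop} {P : Module.End ℤ (X →₀ A)}
    (h : ∀ N a N', (P (Finsupp.single N a)) N' ≠ 0 → (q N' ↔ r N)) (x : X →₀ A) :
    flt q (P x) = P (flt r x) := by
  conv_lhs => rw [eq_sum_single x]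
  conv_rhs => rw [eq_sum_single x]
  rw [map_sum, map_sum, map_sum, map_sum]
  refine Finset.sum_congr rfl fun N _ => ?_
  have single_grade : ∀ N'', (Finsupp.single N (x N) : X →₀ A) N'' ≠ 0 → N'' = N := by
    intro N'' h
    by_contra hne
    exact h (Finsupp.single_eq_of_ne hne)
  by_cases hN : r N
  · rw [flt_eq_self (x := Finsupp.single N (x N)), flt_eq_self]
    · intro N' hN'
      exact (h N _ N' hN').2 hN
    · intro N' hN'
      rw [single_grade N' hN']; exact hN
  · rw [flt_eq_zero (x := Finsupp.single N (x N)), flt_eq_zero, map_zero]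
    · intro N' hN'
      by_contra h0
      exact hN ((h N _ N' h0).1 hN')
    · intro N' hN'
      by_contra h0
      rw [single_grade N' h0] at hN'
      exact hN hN'

end restr

/-! ### The lemma (S) for codes -/

lemma op_pres {A' : Type*} [AddCommGroup A'] {p : Code → Prop} {f : Code → Code}
    (hf : ∀ N, p N → p (f N)) : Pres p (op A' f) := by
  intro N hN a N' h
  rw [op_single] at h
  have : N' = f N := by
    by_contra hne
    exact h (Finsupp.single_eq_of_ne hne)
  rw [this]
  exact hf N hN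

lemma cbd_pres {A' : Type*} [AddCommGroup A'] {n : ℕ} : Pres (wf n) (cbd A') := by
  intro N hN a N' h
  obtain ⟨c, hc, rfl⟩ := cbd_single_ne h
  exact wf_cdel hN hc

lemma homog_restr_op {A' : Type*} [AddCommGroup A'] {p : Code → Prop} {f : Code → Code}
    {G : Type*} [Group G] {gr : Code → G} {κ : G}
    (hf : ∀ N, p N → gr (f N) = gr N * κ) :
    Homog (fun N : {x // p x} => gr N.1) κ (restr p (op A' f)) := by
  intro N a N' h
  rw [restr_single, res_apply, op_single] at h
  have : N'.1 = f N.1 := by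
    by_contra hne
    exact h (Finsupp.single_eq_of_ne hne)
  simp only [this]
  exact hf N.1 N.2

lemma Homog.zsmul {X : Type*} {A : Type*} [AddCommGroup A] {G : Type*} [Group G] {gr : X → G}
    {κ : G} {Q : Module.End ℤ (X →₀ A)} (hQ : Homog gr κ Q) (c : ℤ) : Homog gr κ (c • Q) := by
  intro N a N' h
  refine hQ N a N' fun h0 => h ?_
  rw [LinearMap.smul_apply, Finsupp.smul_apply, h0, smul_zero]

lemma restr_zsmul {X : Type*} {A : Type*} [AddCommGroup A] (p : X → Prop) (c : ℤ)
    (P : Module.End ℤ (X →₀ A)) : restr p (c • P) = c • restr p P := by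
  refine LinearMap.ext fun x => ?_
  simp [restr_apply]

/-- the lemma (S) for codes: every `δ`-cycle of `n`-word codes with `k` chords is `T` of a `δ`-cycle
with `k+1` chords. -/
theorem code_S {A' : Type*} [AddCommGroup A'] {n s t : ℕ} {gr : Code → Perm ℕ × Multiplicative ℤ}
    (h : GoodGr n s t gr) (hs : 0 < s) (hs' : s < n) (ht : 0 < t) (ht' : t < n) (hst : s ≠ t)
    (k : ℕ) (y : Code →₀ A') (hy : ∀ N, y N ≠ 0 → wf n N ∧ kk N = k)
    (hd : comp gr 1 (cbd A') y = 0) :
    ∃ z : Code →₀ A', (∀ N, z N ≠ 0 → wf n N ∧ kk N = k + 1 ∧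
        ∃ N', y N' ≠ 0 ∧ gr N = gr N' * gd (swap 0 s) 1) ∧
      comp gr 1 (cbd A') z = 0 ∧ comp gr (gd (swap 0 s) (-1)) (cbd A') z = y := by
  have hn : 0 < n := by omega
  set τ : Perm ℕ := swap 0 s with hτ
  set τ' : Perm ℕ := swap 0 t with hτ'
  have hττ : τ * τ = 1 := swap_mul_self 0 s
  have hτ1 : τ ≠ 1 := by
    intro h0
    have := congrArg (fun q : Perm ℕ => q 0) h0
    simp only [hτ, swap_apply_left, Perm.one_apply] at this
    omega
  have hτ1' : τ' ≠ 1 := by
    intro h0
    have := congrArg (fun q : Perm ℕ => q 0) h0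
    simp only [hτ', swap_apply_left, Perm.one_apply] at this
    omega
  have hττ' : τ ≠ τ' := by
    intro h0
    have := congrArg (fun q : Perm ℕ => q 0) h0
    simp only [hτ, hτ', swap_apply_left] at this
    omega
  have hopC : ∀ r, Pres (wf n) (op A' (Co r)) := fun r => op_pres fun N hN => wf_Co hn hN
  have hopK : ∀ r, Pres (wf n) (op A' (Ko s r)) := fun r => op_pres fun N hN => wf_Ko hs hs' hN
  have hopN : ∀ r, Pres (wf n) (opN A' t r) := by
    intro r N hN a N' h0
    refine op_pres (A' := A') (fun N hN => wf_No (r := r) ht ht' hN) N hN a N' fun h1 => h0 ?_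
    rw [opN, LinearMap.smul_apply, Finsupp.smul_apply, h1, smul_zero]
  have key : ChainOps (fun N : {x // wf n x} => gr N.1) (restr (wf n) (cbd A'))
      (fun r => restr (wf n) (op A' (Co r))) (fun r => restr (wf n) (op A' (Ko s r)))
      (fun r => restr (wf n) (opN A' t r)) τ τ' := by
    refine ⟨hττ, hτ1, hτ1', hττ', ?_, ?_, ?_, fun r => ?_, fun r => ?_, fun r => ?_, fun r => ?_,
      fun r => ?_, fun r hr => ?_⟩
    · have : op A' (Co 0) = 1 := by
        refine Finsupp.lhom_ext fun N a => ?_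
        rw [op_single]; rfl
      simp only [this, restr_one]
    · have : op A' (Ko s 0) = 1 := by
        refine Finsupp.lhom_ext fun N a => ?_
        rw [op_single]; rfl
      simp only [this, restr_one]
    · have : opN A' t 0 = 1 := by
        refine Finsupp.lhom_ext fun N a => ?_
        rw [opN, LinearMap.smul_apply, op_single]
        simp [sgN, No]
      simp only [this, restr_one]
    · exact homog_restr_op fun N hN => h.co N r hN
    · exact homog_restr_op fun N hN => h.ko N r hN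
    · rw [opN, restr_zsmul]
      exact (homog_restr_op fun N hN => h.no N r hN).zsmul _
    · rw [← restr_mul (hopC r), cbd_Co, restr_add, restr_sum, restr_negpow, restr_mul cbd_pres]
      congr 1
      refine Finset.sum_congr rfl fun i _ => ?_
      rw [restr_negpow, restr_mul (hopC _)]
    · rw [← restr_mul (hopK r), cbd_Ko A' hs, restr_add, restr_sum, restr_negpow,
        restr_mul cbd_pres]
      congr 1
      refine Finset.sum_congr rfl fun i _ => ?_
      rw [restr_negpow, restr_mul (hopK _)]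
    · rw [← restr_mul (hopN r), cbd_opN A' ht r hr, restr_add, restr_sum, restr_negpow,
        restr_mul cbd_pres]
      congr 1
      refine Finset.sum_congr rfl fun i _ => ?_
      rw [restr_negpow, restr_mul (hopC _)]
  have hDD : restr (wf n) (cbd A') * restr (wf n) (cbd A') = 0 := by
    rw [← restr_mul cbd_pres, cbd_sq, restr_zero]
  have hδT := comp_sq (fun N : {x // wf n x} => gr N.1) hDD StepSet (by
      intro N a N' h0
      rw [restr_single, res_apply] at h0
      obtain ⟨c, hc, hc2⟩ := cbd_single_ne h0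
      simp only [← hc2]
      exact h.step N.1 c N.2 hc) (gd τ (-1)) (comp_sq_cond (by omega : (0 : ℕ) ≠ s)) (by
      rw [← gd_one]
      intro h0
      rw [gd_inj] at h0
      exact hτ1 h0.1)
  -- the restricted cycle
  have hyw : ∀ N, y N ≠ 0 → wf n N := fun N hN => (hy N hN).1
  have hT_single : ∀ (N : {x // wf n x}) (a : A') (N' : {x // wf n x}),
      (comp (fun N : {x // wf n x} => gr N.1) (gd τ (-1)) (restr (wf n) (cbd A'))
        (Finsupp.single N a)) N' ≠ 0 → kk N'.1 + 1 = kk N.1 := by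
    intro N a N' h0
    have h1 := (comp_single_ne _ h0).2
    rw [restr_single, res_apply] at h1
    obtain ⟨c, hc, hc2⟩ := cbd_single_ne h1
    rw [← hc2]
    exact kk_cdel hc
  have hnil : ∀ m, ∀ N : {x // wf n x},
      (((comp (fun N : {x // wf n x} => gr N.1) (gd τ (-1)) (restr (wf n) (cbd A'))) ^ m)
        (res (wf n) y)) N ≠ 0 → kk N.1 + m = k := by
    intro m
    induction m with
    | zero =>
      intro N h0
      rw [pow_zero, Module.End.one_apply, res_apply] at h0
      simpa using (hy N.1 h0).2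
    | succ m ih =>
      intro N h0
      rw [pow_succ', Module.End.mul_apply] at h0
      obtain ⟨N', h1, h2⟩ := exists_single_ne _ _ h0
      have h3 := ih N' h1
      have h4 := hT_single N' _ N h2
      omega
  have hδy : comp (fun N : {x // wf n x} => gr N.1) 1 (restr (wf n) (cbd A'))
      (res (wf n) y) = 0 := by
    rw [comp_restr, restr_apply, emb_res _ _ hyw, hd, map_zero]
  obtain ⟨z', hz1, hz2⟩ := abstract_S key hδT (res (wf n) y) hδy (k + 1) (by
    ext N
    by_contra h0
    have := hnil (k + 1) N h0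
    omega)
  -- the chain `z`
  have hz1' : comp gr 1 (cbd A') (emb (wf n) z') = 0 := by
    rw [← emb_restr (cbd_pres.comp gr), ← comp_restr, hz1, map_zero]
  have hz2' : comp gr (gd τ (-1)) (cbd A') (emb (wf n) z') = y := by
    rw [← emb_restr (cbd_pres.comp gr), ← comp_restr, hz2, emb_res _ _ hyw]
  set P : Code → Prop := fun N => kk N = k + 1 ∧ ∃ N', y N' ≠ 0 ∧ gr N = gr N' * gd τ 1 with hP
  refine ⟨flt P (emb (wf n) z'), ?_, ?_, ?_⟩
  · intro N hN
    have hPN : P N := by
      by_contra hne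
      exact hN (flt_apply_neg _ hne)
    rw [flt_apply_pos _ hPN] at hN
    exact ⟨emb_supp _ _ hN, hPN.1, hPN.2⟩
  · rw [← flt_oper (q := fun N' => kk N' = k ∧ ∃ N'', y N'' ≠ 0 ∧ gr N' = gr N'' * gd τ 1), hz1',
      map_zero]
    intro N a N' h0
    obtain ⟨h1, h2⟩ := comp_single_ne _ h0
    obtain ⟨c, hc, hc2⟩ := cbd_single_ne h2
    have h3 := kk_cdel hc
    rw [hc2] at h3
    rw [mul_one] at h1
    simp only [hP, h1]
    constructor
    · rintro ⟨h4, h5⟩; exact ⟨by omega, h5⟩
    · rintro ⟨h4, h5⟩; exact ⟨by omega, h5⟩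
  · rw [← flt_oper (q := fun N' => kk N' = k ∧ ∃ N'', y N'' ≠ 0 ∧ gr N' = gr N''), hz2']
    · exact flt_eq_self fun N hN => ⟨(hy N hN).2, N, hN, rfl⟩
    · intro N a N' h0
      obtain ⟨h1, h2⟩ := comp_single_ne _ h0
      obtain ⟨c, hc, hc2⟩ := cbd_single_ne h2
      have h3 := kk_cdel hc
      rw [hc2] at h3
      have h6 : gd τ (-1) * gd τ 1 = 1 := by
        rw [gd_mul, hττ, ← gd_one, gd_inj]; exact ⟨rfl, by ring⟩
      have h7 : gd τ 1 * gd τ (-1) = 1 := by
        rw [gd_mul, hττ, ← gd_one, gd_inj]; exact ⟨rfl, by ring⟩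
      simp only [hP, h1]
      constructor
      · rintro ⟨h4, N'', h5, h8⟩
        exact ⟨by omega, N'', h5, by rw [← h8, mul_assoc, h6, mul_one]⟩
      · rintro ⟨h4, N'', h5, h8⟩
        exact ⟨by omega, N'', h5, by rw [h8, mul_assoc, h7, mul_one]⟩

end ArcC
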