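import Mathlib
import Pool.Agent.Lib.MP_e5080e_gt.Grad

/-! Consequences of the strand formulas on the levels of codes. -/

namespace ArcC

open Equiv Code

/-- `A i x = 0` iff `x = i` -/
lemma A_eq_zero {i x : ℕ} : A i x = 0 ↔ x = i := by
  constructor
  · intro h
    exact (A i).injective (h.trans (A_apply_self i).symm)
  · rintro rfl; exact A_apply_self _

lemma A_inv_zero (i : ℕ) : (A i)⁻¹ 0 = i := by
  rw [Perm.inv_eq_iff_eq]; exact (A_apply_self i).symm

lemma fx_ch (i : ℕ) (N : Code) : fx (A i * nu N) = if nu N 0 = i then 1 else 0 := by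
  unfold fx
  simp only [Perm.coe_mul, Function.comp_apply, A_eq_zero]

lemma fx_merge (i : ℕ) (N : Code) :
    fx (A i * nu N * (sh (A i))⁻¹ * swap 0 1) = if nu N (i + 1) = i then 1 else 0 := by
  unfold fx
  simp only [Perm.coe_mul, Function.comp_apply, swap_apply_left]
  rw [← sh_inv, sh_succ, A_inv_zero]
  simp only [A_eq_zero]

@[simp] lemma lev_emp (N : Code) : lev (emp N) = lev N := rfl

lemma lev_ch (i : ℕ) (N : Code) : lev (ch i N) = lev N + 1 + if nu N 0 = i then 1 else 0 := by
  simp only [lev, kk, cc, fx_ch]; ring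

lemma lev_merge (i : ℕ) (N : Code) :
    lev (merge i N) = lev N + if nu N (i + 1) = i then 1 else 0 := by
  simp only [lev, kk_merge, cc_merge, fx_merge]; ring

lemma lev_ch_ge (i : ℕ) (N : Code) : lev N + 1 ≤ lev (ch i N) := by
  rw [lev_ch]; omega

lemma lev_merge_le (i : ℕ) (N : Code) : lev (merge i N) ≤ lev N + 1 := by
  rw [lev_merge]; split_ifs <;> omega

lemma lev_merge_ge (i : ℕ) (N : Code) : lev N ≤ lev (merge i N) := by
  rw [lev_merge]; omega

/-- the possible changes under a deletion -/
lemma step_cases {N : Code} {c : ℕ} (hc : c < kk N) :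
    (lev (cdel c N) = lev N ∧ nu (cdel c N) = nu N) ∨
    (∃ a b, a ≠ b ∧ lev (cdel c N) + 1 = lev N ∧ nu (cdel c N) = nu N * swap a b) ∨
    (lev (cdel c N) + 2 = lev N ∧ nu (cdel c N) = nu N) := by
  have h := step_cdel N c hc
  unfold StepSet gr0 at h
  rw [gd_inv, gd_mul] at h
  rcases h with h | ⟨a, b, hab, h⟩ | h
  · left
    rw [← gd_one, gd_inj] at h
    refine ⟨by omega, ?_⟩
    exact (inv_mul_eq_one.1 h.1).symm
  · right; left
    rw [gd_inj] at h
    refine ⟨a, b, hab, by omega, ?_⟩
    rw [← h.1]; simp
  · right; right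
    rw [gd_inj] at h
    refine ⟨by omega, ?_⟩
    exact (inv_mul_eq_one.1 h.1).symm

lemma lev_cdel_le {N : Code} {c : ℕ} (hc : c < kk N) : lev (cdel c N) ≤ lev N := by
  rcases step_cases hc with h | ⟨_, _, _, h⟩ | h <;> omega

lemma nu_cdel {N : Code} {c : ℕ} (hc : c < kk N) (h : lev (cdel c N) = lev N) :
    nu (cdel c N) = nu N := by
  rcases step_cases hc with h' | ⟨_, _, _, h'⟩ | h'
  · exact h'.2
  · omega
  · omega

/-- number of consecutive deletable front chords -/
noncomputable def fd : Code → ℕ
  | .nil => 0
  | .emp _ => 0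
  | .ch i N => if lev (merge i N) = lev (ch i N) then fd N + 1 else 0

lemma lev_merge_le_ch (i : ℕ) (N : Code) : lev (merge i N) ≤ lev (ch i N) := by
  have := lev_cdel_le (N := ch i N) (c := 0) (by simp [kk])
  simpa using this

/-- the front chord is deletable iff the strand starting at `i+1` ends at `i` -/
lemma deletable_iff (i : ℕ) (N : Code) :
    lev (merge i N) = lev (ch i N) ↔ nu N (i + 1) = i := by
  rw [lev_merge, lev_ch]
  split_ifs with h1 h2 h2
  · exfalso
    have := (nu N).injective (h1.trans h2.symm)
    omega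
  · simp [h1]
  · constructor
    · intro h; omega
    · intro h; exact absurd h h1
  · constructor
    · intro h; omega
    · intro h; exact absurd h h1

lemma fd_ch_pos {i : ℕ} {N : Code} (h : nu N (i + 1) = i) : fd (ch i N) = fd N + 1 := by
  rw [fd, if_pos ((deletable_iff i N).2 h)]

lemma fd_ch_zero {i : ℕ} {N : Code} (h : nu N (i + 1) ≠ i) : fd (ch i N) = 0 := by
  rw [fd, if_neg (fun h' => h ((deletable_iff i N).1 h'))]

lemma lev_ch_of_three {i : ℕ} {N : Code} (h : nu N (i + 1) = i) : lev (ch i N) = lev N + 1 := by
  rw [← (deletable_iff i N).2 h, lev_merge, if_pos h]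

lemma merge_three {i : ℕ} {N : Code} : nu N (i + 1) = i ↔ lev (merge i N) = lev N + 1 := by
  rw [lev_merge]; split_ifs with h <;> simp [h]

/-- merging at a closed strand does not change `fd` -/
lemma fd_merge {i : ℕ} {N : Code} (h : nu N (i + 1) = i) : fd (merge i N) = fd N := by
  rw [merge_three] at h
  induction N generalizing i with
  | nil => rw [merge_nil] at h; omega
  | emp N ih =>
    cases i with
    | zero => rw [merge_zero_emp, lev_emp] at h; omega
    | succ i => rw [merge_succ_emp]; rfl
  | ch a N ih =>
    -- the two cases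
    obtain ⟨a', i', hm, hmm⟩ : ∃ a' i', merge i (ch a N) = ch a' (merge i' N) ∧
        merge a' (merge i' N) = merge i (merge a N) := by
      by_cases h1 : a ≤ i
      · exact ⟨a, i + 1, merge_ch_le h1 N, merge_merge h1 N⟩
      · exact ⟨a - 1, i, merge_ch_gt (by omega) N, by
          have := merge_merge (i := i) (j := a - 1) (by omega) N
          rw [show a - 1 + 1 = a by omega] at this
          exact this.symm⟩
    rw [hm] at h ⊢
    by_cases hd : nu N (a + 1) = a
    · have h1 : lev (merge a N) = lev (ch a N) := (deletable_iff a N).2 hd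
      have h2 : nu (merge a N) = nu (ch a N) := by
        have := nu_cdel (N := ch a N) (c := 0) (by simp [kk]) (by simpa using h1)
        simpa using this
      have h3 : nu (ch a N) (i + 1) = i := by
        rw [merge_three, hm, h]
      have h4 : lev (merge i (merge a N)) = lev (merge a N) + 1 := by
        rw [← merge_three, h2, h3]
      have h5 : lev (merge a' (merge i' N)) = lev (ch a' (merge i' N)) := by
        rw [hmm, h4, h1, h]
      have h6 := (deletable_iff _ _).1 h5
      have h7 := lev_ch_of_three h6
      have h8 := lev_ch_of_three hd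
      rw [fd_ch_pos h6, fd_ch_pos hd, ih (by omega)]
    · have h1 : lev (merge a N) ≠ lev (ch a N) := fun h' => hd ((deletable_iff a N).1 h')
      have h2 := lev_merge_le_ch a N
      have h3 := lev_merge_le i (merge a N)
      have h4 : nu (merge i' N) (a' + 1) ≠ a' := by
        intro h'
        have := (deletable_iff _ _).2 h'
        rw [hmm] at this
        omega
      rw [fd_ch_zero h4, fd_ch_zero hd]

lemma fd_cdel_le {N : Code} {c : ℕ} (hc : c < kk N) (h : lev (cdel c N) = lev N) :
    fd (cdel c N) ≤ fd N := by
  induction N generalizing c with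
  | nil => simp [kk] at hc
  | emp N ih => rw [cdel_emp]; exact le_rfl
  | ch i N ih =>
    cases c with
    | zero =>
      rw [cdel_zero_ch] at h ⊢
      have h1 := (deletable_iff i N).1 h
      rw [fd_merge h1, fd_ch_pos h1]
      omega
    | succ c =>
      simp only [kk] at hc
      rw [cdel_succ_ch] at h ⊢
      by_cases hd : nu (cdel c N) (i + 1) = i
      · have h1 := lev_ch_of_three hd
        have h2 := lev_ch_ge i N
        have h3 := lev_cdel_le (N := N) (c := c) (by omega)
        have h4 : lev (cdel c N) = lev N := by omega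
        have h5 := nu_cdel (by omega) h4
        rw [h5] at hd
        rw [fd_ch_pos hd, fd_ch_pos (by rw [h5]; exact hd)]
        have := ih (by omega) h4
        omega
      · rw [fd_ch_zero hd]; omega

end ArcC
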