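import Mathlib
import Pool.Agent.Lib.MP_e5080e_gt.LevLemmas

/-! Chains of codes: decomposition according to the first letter, filters. -/

namespace ArcC

open Equiv Code

section

variable {A : Type*} [AddCommGroup A]

lemma emp_injective : Function.Injective Code.emp := fun _ _ h => by injection h
lemma ch_injective (i : ℕ) : Function.Injective (Code.ch i) := fun _ _ h => by injection h

/-- coefficients at the codes `emp N` -/
noncomputable def pe : (Code →₀ A) →ₗ[ℤ] (Code →₀ A) :=
  Finsupp.lcomapDomain Code.emp emp_injective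

/-- coefficients at the codes `ch i N` -/
noncomputable def pc (i : ℕ) : (Code →₀ A) →ₗ[ℤ] (Code →₀ A) :=
  Finsupp.lcomapDomain (Code.ch i) (ch_injective i)

@[simp] lemma pe_apply (x : Code →₀ A) (N : Code) : pe x N = x (emp N) := rfl
@[simp] lemma pc_apply (i : ℕ) (x : Code →₀ A) (N : Code) : pc i x N = x (ch i N) := rfl

lemma op_emp_emp (y : Code →₀ A) (N : Code) : op A emp y (emp N) = y N := by
  rw [op, Finsupp.lmapDomain_apply, Finsupp.mapDomain_apply emp_injective]

lemma op_emp_ch (y : Code →₀ A) (i : ℕ) (N : Code) : op A emp y (ch i N) = 0 := by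
  rw [op, Finsupp.lmapDomain_apply, Finsupp.mapDomain_of_notMem_range]
  simp

lemma op_emp_nil (y : Code →₀ A) : op A emp y nil = 0 := by
  rw [op, Finsupp.lmapDomain_apply, Finsupp.mapDomain_of_notMem_range]
  simp

lemma op_ch_ch_same (y : Code →₀ A) (i : ℕ) (N : Code) :
    op A (ch i) y (ch i N) = y N := by
  rw [op, Finsupp.lmapDomain_apply, Finsupp.mapDomain_apply (ch_injective i)]

lemma op_ch_ch_ne (y : Code →₀ A) {i j : ℕ} (h : i ≠ j) (N : Code) :
    op A (ch i) y (ch j N) = 0 := by
  rw [op, Finsupp.lmapDomain_apply, Finsupp.mapDomain_of_notMem_range]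
  simp only [Set.mem_range, not_exists]
  intro N' h'
  injection h' with h1 _
  exact h h1

lemma op_ch_emp (y : Code →₀ A) (i : ℕ) (N : Code) : op A (ch i) y (emp N) = 0 := by
  rw [op, Finsupp.lmapDomain_apply, Finsupp.mapDomain_of_notMem_range]
  simp

lemma op_ch_nil (y : Code →₀ A) (i : ℕ) : op A (ch i) y nil = 0 := by
  rw [op, Finsupp.lmapDomain_apply, Finsupp.mapDomain_of_notMem_range]
  simp

/-- sum over the index of the first chord -/
noncomputable def sch (n : ℕ) (y : ℕ → (Code →₀ A)) : Code →₀ A :=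
  ∑ i ∈ Finset.range n, op A (ch i) (y i)

lemma sch_ch {n : ℕ} (y : ℕ → (Code →₀ A)) {j : ℕ} (hj : j < n) (N : Code) :
    sch n y (ch j N) = y j N := by
  rw [sch, Finsupp.finsetSum_apply, Finset.sum_eq_single j]
  · rw [op_ch_ch_same]
  · intro i _ hij
    exact op_ch_ch_ne _ hij _
  · intro h; exact absurd (Finset.mem_range.2 hj) h

lemma sch_ch_ge {n : ℕ} (y : ℕ → (Code →₀ A)) {j : ℕ} (hj : n ≤ j) (N : Code) :
    sch n y (ch j N) = 0 := by
  rw [sch, Finsupp.finsetSum_apply, Finset.sum_eq_zero]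
  intro i hi
  rw [Finset.mem_range] at hi
  exact op_ch_ch_ne _ (by omega) _

@[simp] lemma sch_emp {n : ℕ} (y : ℕ → (Code →₀ A)) (N : Code) : sch n y (emp N) = 0 := by
  rw [sch, Finsupp.finsetSum_apply, Finset.sum_eq_zero]
  intro i _
  rw [op_ch_emp]

@[simp] lemma sch_nil {n : ℕ} (y : ℕ → (Code →₀ A)) : sch n y nil = 0 := by
  rw [sch, Finsupp.finsetSum_apply, Finset.sum_eq_zero]
  intro i _
  rw [op_ch_nil]

lemma pc_sch {n : ℕ} (y : ℕ → (Code →₀ A)) {j : ℕ} (hj : j < n) : pc j (sch n y) = y j := by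
  ext N
  rw [pc_apply, sch_ch y hj]

/-- decomposition -/
lemma decomp {n : ℕ} {x : Code →₀ A} (hx : ∀ N, x N ≠ 0 → wf n N) (hn : 0 < n) :
    x = op A emp (pe x) + sch n (fun i => pc i x) := by
  ext N
  rw [Finsupp.add_apply]
  cases N with
  | nil =>
    have : x nil = 0 := by
      by_contra h
      have := hx _ h
      rw [wf_nil] at this
      omega
    rw [this, op_emp_nil, sch_nil, add_zero]
  | emp N => rw [op_emp_emp, sch_emp, add_zero, pe_apply]
  | ch j N =>
    by_cases hj : j < n
    · rw [sch_ch _ hj, op_emp_ch, zero_add, pc_apply]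
    · rw [sch_ch_ge _ (by omega), op_emp_ch, zero_add]
      have : x (ch j N) = 0 := by
        by_contra h
        have := hx _ h
        rw [wf_ch] at this
        omega
      rw [this]

lemma flt_op (p : Code → Prop) (f : Code → Code) (x : Code →₀ A) :
    flt p (op A f x) = op A f (flt (fun N => p (f N)) x) := by
  have : (flt p : Module.End ℤ (Code →₀ A)) * op A f = op A f * flt (fun N => p (f N)) := by
    refine Finsupp.lhom_ext fun N a => ?_
    rw [Module.End.mul_apply, Module.End.mul_apply, op_single]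
    have key : ∀ M : Code, ∀ N' : Code, (Finsupp.single M a : Code →₀ A) N' ≠ 0 → N' = M := by
      intro M N' h
      by_contra hne
      exact h (Finsupp.single_eq_of_ne hne)
    by_cases h : p (f N)
    · rw [flt_eq_self, flt_eq_self, op_single]
      · intro N' h'; rw [key _ _ h']; exact h
      · intro N' h'; rw [key _ _ h']; exact h
    · rw [flt_eq_zero, flt_eq_zero, map_zero]
      · intro N' h'
        by_contra h0
        rw [key _ _ h0] at h'; exact h h'
      · intro N' h'
        by_contra h0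
        rw [key _ _ h0] at h'; exact h h'
  exact congrArg (fun P : Module.End ℤ (Code →₀ A) => P x) this

lemma flt_sch (p : Code → Prop) (n : ℕ) (y : ℕ → (Code →₀ A)) :
    flt p (sch n y) = sch n (fun i => flt (fun N => p (ch i N)) (y i)) := by
  rw [sch, map_sum, sch]
  exact Finset.sum_congr rfl fun i _ => flt_op _ _ _

lemma flt_cbd_congr {x : Code →₀ A} {p q : Code → Prop}
    (h : ∀ N, x N ≠ 0 → ∀ c < kk N, (p (cdel c N) ↔ q (cdel c N))) :
    flt p (cbd A x) = flt q (cbd A x) := by
  refine flt_congr fun N' hN' => ?_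
  obtain ⟨N, hN, c, hc, rfl⟩ := cbd_ne hN'
  exact h N hN c hc

lemma flt_cbd_zero {x : Code →₀ A} {p : Code → Prop}
    (h : ∀ N, x N ≠ 0 → ∀ c < kk N, ¬ p (cdel c N)) : flt p (cbd A x) = 0 := by
  refine flt_eq_zero fun N' hp => ?_
  by_contra hN'
  obtain ⟨N, hN, c, hc, rfl⟩ := cbd_ne hN'
  exact h N hN c hc hp

/-- filtering by a property preserved by the relevant deletions -/
lemma flt_cbd_flt {x : Code →₀ A} {p q : Code → Prop}
    (h : ∀ N, x N ≠ 0 → ∀ c < kk N, p (cdel c N) → (q (cdel c N) ↔ q N)) :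
    flt p (cbd A (flt q x)) = flt q (flt p (cbd A x)) := by
  have e : x = flt q x + flt (fun N => ¬ q N) x := by
    classical
    ext N
    rw [Finsupp.add_apply]
    by_cases hq : q N
    · rw [flt_apply_pos (p := q) _ hq, flt_apply_neg (p := fun N => ¬ q N) _ (by simpa using hq),
        add_zero]
    · rw [flt_apply_neg (p := q) _ hq, flt_apply_pos (p := fun N => ¬ q N) _ hq, zero_add]
  have h1 : flt q (flt p (cbd A (flt (fun N => ¬ q N) x))) = 0 := by
    refine flt_eq_zero fun N' hq => ?_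
    by_cases hp : p N'
    · rw [flt_apply_pos _ hp]
      by_contra hN'
      obtain ⟨N, hN, c, hc, rfl⟩ := cbd_ne hN'
      by_cases hqN : q N
      · exact hN (flt_apply_neg (p := fun N => ¬ q N) _ (by simpa using hqN))
      · rw [flt_apply_pos (p := fun N => ¬ q N) _ hqN] at hN
        exact hqN ((h N hN c hc hp).1 hq)
    · rw [flt_apply_neg _ hp]
  have h2 : flt q (flt p (cbd A (flt q x))) = flt p (cbd A (flt q x)) := by
    refine flt_eq_self fun N' hN' => ?_
    by_cases hp : p N'
    · rw [flt_apply_pos _ hp] at hN'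
      obtain ⟨N, hN, c, hc, rfl⟩ := cbd_ne hN'
      by_cases hqN : q N
      · rw [flt_apply_pos (p := q) _ hqN] at hN
        exact (h N hN c hc hp).2 hqN
      · exact absurd (flt_apply_neg (p := q) _ hqN) hN
    · exact absurd (flt_apply_neg _ hp) hN'
  conv_rhs => rw [e]
  rw [map_add, map_add, map_add, h1, add_zero, h2]

lemma cbd_op_emp (x : Code →₀ A) : cbd A (op A emp x) = op A emp (cbd A x) :=
  congrArg (fun P : Module.End ℤ (Code →₀ A) => P x) (cbd_emp (A := A))

lemma cbd_op_ch (i : ℕ) (x : Code →₀ A) :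
    cbd A (op A (ch i) x) = op A (merge i) x - op A (ch i) (cbd A x) :=
  congrArg (fun P : Module.End ℤ (Code →₀ A) => P x) (cbd_ch (A := A) i)

lemma cbd_cbd (x : Code →₀ A) : cbd A (cbd A x) = 0 :=
  congrArg (fun P : Module.End ℤ (Code →₀ A) => P x) (cbd_sq (A := A))

lemma op_ne {f : Code → Code} {x : Code →₀ A} {N' : Code} (h : op A f x N' ≠ 0) :
    ∃ N, x N ≠ 0 ∧ f N = N' := by
  classical
  rw [op, Finsupp.lmapDomain_apply] at h
  have := Finsupp.mapDomain_support (Finsupp.mem_support_iff.2 h)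
  rw [Finset.mem_image] at this
  obtain ⟨N, hN, hN'⟩ := this
  exact ⟨N, Finsupp.mem_support_iff.1 hN, hN'⟩

/-- boundary of a sum over the first chord, when the deletion of the first chord is filtered out -/
lemma flt_cbd_sch {n : ℕ} {y : ℕ → (Code →₀ A)} {p : Code → Prop}
    (h : ∀ i < n, ∀ N, y i N ≠ 0 → ¬ p (merge i N)) :
    flt p (cbd A (sch n y)) = - sch n (fun i => flt (fun N => p (ch i N)) (cbd A (y i))) := by
  rw [sch, map_sum, map_sum, sch, ← Finset.sum_neg_distrib]
  refine Finset.sum_congr rfl fun i hi => ?_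
  rw [Finset.mem_range] at hi
  rw [cbd_op_ch, map_sub]
  have : flt p (op A (merge i) (y i)) = 0 := by
    refine flt_eq_zero fun N' hp => ?_
    by_contra h0
    obtain ⟨N, hN, rfl⟩ := op_ne h0
    exact h i hi N hN hp
  rw [this, zero_sub, flt_op]

lemma sch_eq_zero {n : ℕ} {y : ℕ → (Code →₀ A)} (h : sch n y = 0) {i : ℕ} (hi : i < n) :
    y i = 0 := by
  rw [← pc_sch y hi, h, map_zero]

lemma neg_sch (n : ℕ) (y : ℕ → (Code →₀ A)) : - sch n y = sch n (fun i => - y i) := by
  rw [sch, sch, ← Finset.sum_neg_distrib]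
  exact Finset.sum_congr rfl fun i _ => by rw [map_neg]

lemma sch_congr {n : ℕ} {y y' : ℕ → (Code →₀ A)} (h : ∀ i < n, y i = y' i) :
    sch n y = sch n y' := by
  rw [sch, sch]
  refine Finset.sum_congr rfl fun i hi => ?_
  rw [h i (Finset.mem_range.1 hi)]

lemma sch_ne {n : ℕ} {y : ℕ → (Code →₀ A)} {N' : Code} (h : sch n y N' ≠ 0) :
    ∃ i < n, ∃ N, y i N ≠ 0 ∧ N' = ch i N := by
  cases N' with
  | nil => simp at h
  | emp N => simp at h
  | ch j N =>
    by_cases hj : j < n
    · rw [sch_ch _ hj] at h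
      exact ⟨j, hj, N, h, rfl⟩
    · rw [sch_ch_ge _ (by omega)] at h
      exact absurd rfl h

end

end ArcC
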