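import Mathlib
import Pool.Agent.Lib.MP_e5080e_gt.ChainBasic

/-! The acyclicity theorem for all-open diagrams. -/

namespace ArcC

open Equiv Code

section

variable {A : Type*} [AddCommGroup A]

lemma comp_eq_flt {G : Type*} [Group G] {gr : Code → G} {γ : G} {p : Code → Prop}
    {x : Code →₀ A}
    (h : ∀ N, x N ≠ 0 → ∀ c < kk N, (gr (cdel c N) = gr N * γ ↔ p (cdel c N))) :
    comp gr γ (cbd A) x = flt p (cbd A x) := by
  conv_lhs => rw [eq_sum_single x]
  conv_rhs => rw [eq_sum_single x]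
  rw [map_sum, map_sum, map_sum]
  refine Finset.sum_congr rfl fun N hN => ?_
  rw [Finsupp.mem_support_iff] at hN
  rw [comp_single]
  refine flt_congr fun N' hN' => ?_
  obtain ⟨c, hc, rfl⟩ := cbd_single_ne hN'
  exact h N hN c hc

lemma swap_apply_eq {a b s : ℕ} (hs : 0 ≠ s) (h : swap a b 0 = s) :
    swap a b = swap 0 s := by
  by_cases h1 : a = 0
  · rw [h1, swap_apply_left] at h
    rw [h1, h]
  · by_cases h2 : b = 0
    · rw [h2, swap_apply_right] at h
      rw [h2, h, swap_comm]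
    · rw [swap_apply_of_ne_of_ne (Ne.symm h1) (Ne.symm h2)] at h
      exact absurd h hs

lemma gr0_eq_one_iff {N : Code} {c : ℕ} (hc : c < kk N) :
    gr0 (cdel c N) = gr0 N * 1 ↔ lev (cdel c N) = lev N := by
  unfold gr0
  rw [mul_one, gd_inj]
  constructor
  · intro h; omega
  · intro h; exact ⟨nu_cdel hc h, by omega⟩

/-- (S) for all-open diagrams -/
lemma S_open {n s t i k l : ℕ} (hs : 0 < s) (hs' : s < n) (ht : 0 < t) (ht' : t < n)
    (hst : s ≠ t) (y : Code →₀ A)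
    (hy : ∀ N, y N ≠ 0 → wf n N ∧ kk N = k ∧ lev N = l ∧ nu N 0 = i)
    (hd : flt (fun N => lev N = l) (cbd A y) = 0) :
    ∃ z : Code →₀ A, (∀ N, z N ≠ 0 → wf n N ∧ kk N = k + 1 ∧ lev N = l + 1 ∧ nu N s = i) ∧
      flt (fun N => lev N = l + 1) (cbd A z) = 0 ∧
      flt (fun N => lev N = l ∧ nu N 0 = i) (cbd A z) = y := by
  have h1 : comp gr0 1 (cbd A) y = 0 := by
    rw [← hd]
    refine comp_eq_flt fun N hN c hc => ?_
    rw [gr0_eq_one_iff hc, (hy N hN).2.2.1]
  obtain ⟨z, hz1, hz2, hz3⟩ := code_S (goodGr_gr0 hs hs' ht ht') hs hs' ht ht' hst k y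
    (fun N hN => ⟨(hy N hN).1, (hy N hN).2.1⟩) h1
  have hz4 : ∀ N, z N ≠ 0 → wf n N ∧ kk N = k + 1 ∧ lev N = l + 1 ∧ nu N s = i := by
    intro N hN
    obtain ⟨h2, h3, N', hN', h4⟩ := hz1 N hN
    obtain ⟨_, _, h5, h6⟩ := hy N' hN'
    unfold gr0 at h4
    rw [gd_mul, gd_inj] at h4
    refine ⟨h2, h3, by omega, ?_⟩
    rw [h4.1, Perm.mul_apply, swap_apply_right, h6]
  refine ⟨z, hz4, ?_, ?_⟩
  · rw [← hz2]
    symm
    refine comp_eq_flt fun N hN c hc => ?_
    rw [gr0_eq_one_iff hc, (hz4 N hN).2.2.1]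
  · rw [← hz3]
    symm
    refine comp_eq_flt fun N hN c hc => ?_
    obtain ⟨_, _, h5, h6⟩ := hz4 N hN
    unfold gr0
    rw [gd_mul, gd_inj]
    constructor
    · rintro ⟨h7, h8⟩
      refine ⟨by omega, ?_⟩
      rw [h7, Perm.mul_apply, swap_apply_left, h6]
    · rintro ⟨h7, h8⟩
      rcases step_cases hc with h9 | ⟨a, b, hab, h9, h10⟩ | h9
      · omega
      · refine ⟨?_, by omega⟩
        rw [h10]
        congr 1
        rw [h10, Perm.mul_apply, ← h6] at h8
        exact swap_apply_eq (by omega) ((nu N).injective h8)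
      · omega

/-- The statement of the acyclicity theorem at level `m`. -/
def AO (A : Type*) [AddCommGroup A] (m : ℕ) : Prop :=
  ∀ n, 2 ≤ n → ∀ k, k < m → ∀ x : Code →₀ A, (∀ N, x N ≠ 0 → wf n N ∧ kk N = k ∧ lev N = m) →
    flt (fun N => lev N = m) (cbd A x) = 0 →
    ∃ y : Code →₀ A, (∀ N, y N ≠ 0 → wf n N ∧ kk N = k + 1 ∧ lev N = m) ∧
      flt (fun N => lev N = m) (cbd A y) = x

lemma flt_flt {p q : Code → Prop} (x : Code →₀ A) :
    flt p (flt q x) = flt (fun N => p N ∧ q N) x := by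
  ext N
  by_cases hp : p N
  · rw [flt_apply_pos _ hp]
    by_cases hq : q N
    · rw [flt_apply_pos _ hq, flt_apply_pos (p := fun N => p N ∧ q N) _ ⟨hp, hq⟩]
    · rw [flt_apply_neg _ hq, flt_apply_neg (p := fun N => p N ∧ q N) _ (fun h => hq h.2)]
  · rw [flt_apply_neg _ hp, flt_apply_neg (p := fun N => p N ∧ q N) _ (fun h => hp h.1)]

lemma flt_of_imp {p q : Code → Prop} {x : Code →₀ A} (h : ∀ N, p N → q N) (h0 : flt q x = 0) :
    flt p x = 0 := by
  refine flt_eq_zero fun N hp => ?_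
  have := congrArg (fun y : Code →₀ A => y N) h0
  rwa [flt_apply_pos _ (h N hp)] at this

lemma flt_ne {p : Code → Prop} {x : Code →₀ A} {N : Code} (h : flt p x N ≠ 0) :
    p N ∧ x N ≠ 0 := by
  by_cases hp : p N
  · rw [flt_apply_pos _ hp] at h
    exact ⟨hp, h⟩
  · exact absurd (flt_apply_neg _ hp) h

/-- the square of the part of the boundary preserving a monotone function -/
lemma flt_cbd_flt_cbd {m : ℕ} {f : Code → ℕ} (hf : ∀ N c, c < kk N → f (cdel c N) ≤ f N)
    {x : Code →₀ A} (hx : ∀ N, x N ≠ 0 → f N ≤ m) :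
    flt (fun N => f N = m) (cbd A (flt (fun N => f N = m) (cbd A x))) = 0 := by
  have e : cbd A x = flt (fun N => f N = m) (cbd A x) + flt (fun N => f N < m) (cbd A x) := by
    ext N
    rw [Finsupp.add_apply]
    by_cases h : f N = m
    · rw [flt_apply_pos (p := fun N => f N = m) _ h,
        flt_apply_neg (p := fun N => f N < m) _ (by omega), add_zero]
    · rw [flt_apply_neg (p := fun N => f N = m) _ h, zero_add]
      by_cases h2 : f N < m
      · rw [flt_apply_pos (p := fun N => f N < m) _ h2]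
      · rw [flt_apply_neg (p := fun N => f N < m) _ h2]
        by_contra h3
        obtain ⟨N', hN', c, hc, rfl⟩ := cbd_ne h3
        have := hx N' hN'
        have := hf N' c hc
        omega
  have h0 := cbd_cbd x
  have h1 : flt (fun N => f N = m) (cbd A (flt (fun N => f N < m) (cbd A x))) = 0 := by
    refine flt_cbd_zero fun N hN c hc h => ?_
    have := (flt_ne hN).1
    have := hf N c hc
    omega
  rw [e, map_add] at h0
  have h2 := congrArg (flt (fun N => f N = m)) h0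
  rw [map_add, h1, add_zero, map_zero] at h2
  exact h2

lemma lev_ch_cdel_le (i : ℕ) {N : Code} {c : ℕ} (hc : c < kk N) :
    lev (ch i (cdel c N)) ≤ lev (ch i N) := by
  have := lev_cdel_le (N := ch i N) (c := c + 1) (by simp [kk]; omega)
  simpa using this

lemma Dkey {m' : ℕ} (hAO : AO A m') {n k i : ℕ} (hn : 2 ≤ n) (hk : k < m')
    (v : Code →₀ A) (hv : ∀ N, v N ≠ 0 → wf (n + 1) N ∧ kk N = k ∧ lev (ch i N) = m' + 1 ∧
      nu N (i + 1) ≠ i)
    (hd : flt (fun N => lev (ch i N) = m' + 1) (cbd A v) = 0) :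
    ∃ w : Code →₀ A, (∀ N, w N ≠ 0 → wf (n + 1) N ∧ kk N = k + 1 ∧
      lev (ch i N) = m' + 1 ∧ nu N (i + 1) ≠ i) ∧
      flt (fun N => lev (ch i N) = m' + 1) (cbd A w) = v := by
  obtain ⟨m'', rfl⟩ : ∃ m'', m' = m'' + 1 := ⟨m' - 1, by omega⟩
  have ty : ∀ N, lev (ch i N) = m'' + 1 + 1 →
      (nu N 0 = i ∧ lev N = m'') ∨ (nu N 0 ≠ i ∧ lev N = m'' + 1) := by
    intro N h
    rw [lev_ch] at h
    split_ifs at h with h1
    · left; exact ⟨h1, by omega⟩
    · right; exact ⟨h1, by omega⟩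
  have ty1 : ∀ N, nu N 0 = i → lev N = m'' → lev (ch i N) = m'' + 1 + 1 := by
    intro N h1 h2
    rw [lev_ch, if_pos h1]; omega
  have ty2 : ∀ N, nu N 0 ≠ i → lev N = m'' + 1 → lev (ch i N) = m'' + 1 + 1 := by
    intro N h1 h2
    rw [lev_ch, if_neg h1]; omega
  -- step a
  set v2 := flt (fun N => lev N = m'' + 1) v with hv2
  have ha : flt (fun N => lev N = m'' + 1) (cbd A v2) = 0 := by
    have e : v = v2 + flt (fun N => lev N ≠ m'' + 1) v := by
      ext N
      rw [Finsupp.add_apply]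
      by_cases h : lev N = m'' + 1
      · rw [hv2, flt_apply_pos (p := fun N => lev N = m'' + 1) _ h,
          flt_apply_neg (p := fun N => lev N ≠ m'' + 1) _ (by simpa using h), add_zero]
      · rw [hv2, flt_apply_neg (p := fun N => lev N = m'' + 1) _ h,
          flt_apply_pos (p := fun N => lev N ≠ m'' + 1) _ h, zero_add]
    have h1 : flt (fun N => lev N = m'' + 1 ∧ nu N 0 ≠ i) (cbd A v) = 0 :=
      flt_of_imp (fun N hN => ty2 N hN.2 hN.1) hd
    have h2 : flt (fun N => lev N = m'' + 1 ∧ nu N 0 ≠ i)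
        (cbd A (flt (fun N => lev N ≠ m'' + 1) v)) = 0 := by
      refine flt_cbd_zero fun N hN c hc h => ?_
      obtain ⟨h3, h4⟩ := flt_ne hN
      obtain ⟨_, _, h5, _⟩ := hv N h4
      have h6 := lev_cdel_le hc
      rcases ty N h5 with h | h <;> omega
    rw [e, map_add, map_add, h2, add_zero] at h1
    rw [← h1]
    refine flt_cbd_congr fun N hN c hc => ?_
    obtain ⟨h3, h4⟩ := flt_ne (p := fun N => lev N = m'' + 1) hN
    obtain ⟨_, _, h5, _⟩ := hv N h4
    constructor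
    · intro h6
      refine ⟨h6, ?_⟩
      rw [nu_cdel hc (by omega)]
      rcases ty N h5 with h | h
      · omega
      · exact h.1
    · intro h6; exact h6.1
  -- step b
  obtain ⟨w2, hw2, hw2'⟩ := hAO (n + 1) (by omega) k hk v2 (fun N hN => by
    obtain ⟨h3, h4⟩ := flt_ne (p := fun N => lev N = m'' + 1) hN
    obtain ⟨h5, h6, _, _⟩ := hv N h4
    exact ⟨h5, h6, h3⟩) ha
  set w := flt (fun N => nu N 0 ≠ i ∧ nu N (i + 1) ≠ i) w2 with hw
  have hwn : ∀ N, w N ≠ 0 → wf (n + 1) N ∧ kk N = k + 1 ∧ lev N = m'' + 1 ∧ nu N 0 ≠ i ∧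
      nu N (i + 1) ≠ i := by
    intro N hN
    obtain ⟨h1, h2⟩ := flt_ne (p := fun N => nu N 0 ≠ i ∧ nu N (i + 1) ≠ i) hN
    obtain ⟨h3, h4, h5⟩ := hw2 N h2
    exact ⟨h3, h4, h5, h1.1, h1.2⟩
  have hw3 : flt (fun N => lev N = m'' + 1) (cbd A w) = v2 := by
    rw [hw, flt_cbd_flt, hw2']
    · refine flt_eq_self fun N hN => ?_
      obtain ⟨h3, h4⟩ := flt_ne (p := fun N => lev N = m'' + 1) hN
      obtain ⟨_, _, h5, h6⟩ := hv N h4
      refine ⟨?_, h6⟩
      rcases ty N h5 with h | h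
      · omega
      · exact h.1
    · intro N hN c hc h
      have h5 := (hw2 N hN).2.2
      rw [nu_cdel hc (by omega)]
  -- the remaining part
  set u := v - flt (fun N => lev (ch i N) = m'' + 1 + 1) (cbd A w) with hu
  have hu1 : ∀ N, u N ≠ 0 → wf (n + 1) N ∧ kk N = k ∧ lev N = m'' ∧ nu N 0 = i := by
    intro N hN
    have h1 : wf (n + 1) N ∧ kk N = k ∧ lev (ch i N) = m'' + 1 + 1 := by
      by_cases h2 : v N = 0
      · rw [hu, Finsupp.sub_apply, h2, zero_sub, neg_ne_zero] at hN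
        obtain ⟨h3, h4⟩ := flt_ne (p := fun N => lev (ch i N) = m'' + 1 + 1) hN
        obtain ⟨N', hN', c, hc, rfl⟩ := cbd_ne h4
        obtain ⟨h5, h6, _⟩ := hwn N' hN'
        have h7 := kk_cdel hc
        exact ⟨wf_cdel h5 hc, by omega, h3⟩
      · obtain ⟨h5, h6, h7, _⟩ := hv N h2
        exact ⟨h5, h6, h7⟩
    refine ⟨h1.1, h1.2.1, ?_⟩
    rcases ty N h1.2.2 with h | h
    · exact ⟨h.2, h.1⟩
    · exfalso
      apply hN
      rw [hu, Finsupp.sub_apply, flt_apply_pos (p := fun N => lev (ch i N) = m'' + 1 + 1) _ h1.2.2,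
        ← flt_apply_pos (p := fun N => lev N = m'' + 1) (cbd A w) h.2, hw3, hv2,
        flt_apply_pos (p := fun N => lev N = m'' + 1) _ h.2, sub_self]
  have hu2 : flt (fun N => lev N = m'') (cbd A u) = 0 := by
    have h1 : flt (fun N => lev (ch i N) = m'' + 1 + 1) (cbd A u) = 0 := by
      rw [hu, map_sub, map_sub, hd, flt_cbd_flt_cbd (f := fun N => lev (ch i N)), sub_zero]
      · intro N c hc; exact lev_ch_cdel_le i hc
      · intro N hN
        obtain ⟨_, _, h3, h4, _⟩ := hwn N hN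
        rw [ty2 N h4 h3]
    rw [← h1]
    refine flt_cbd_congr fun N hN c hc => ?_
    obtain ⟨_, _, h3, h4⟩ := hu1 N hN
    constructor
    · intro h5
      refine ty1 _ ?_ h5
      rw [nu_cdel hc (by omega), h4]
    · intro h5
      have := lev_cdel_le hc
      rcases ty _ h5 with h | h <;> omega
  -- step c
  obtain ⟨s, t, hs, hs', ht, ht', hst, hsi⟩ : ∃ s t, 0 < s ∧ s < n + 1 ∧ 0 < t ∧ t < n + 1 ∧
      s ≠ t ∧ s ≠ i + 1 := by
    by_cases h : i + 1 = 1
    · exact ⟨2, 1, by omega, by omega, by omega, by omega, by omega, by omega⟩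
    · exact ⟨1, 2, by omega, by omega, by omega, by omega, by omega, by omega⟩
  obtain ⟨z, hz1, hz2, hz3⟩ := S_open hs hs' ht ht' hst u hu1 hu2
  have hzi : ∀ N, z N ≠ 0 → nu N 0 ≠ i ∧ nu N (i + 1) ≠ i := by
    intro N hN
    obtain ⟨_, _, _, h4⟩ := hz1 N hN
    constructor
    · intro h
      have := (nu N).injective (h.trans h4.symm)
      omega
    · intro h
      have := (nu N).injective (h.trans h4.symm)
      omega
  have hz4 : flt (fun N => lev (ch i N) = m'' + 1 + 1) (cbd A z) = u := by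
    ext N
    by_cases h : lev (ch i N) = m'' + 1 + 1
    · rw [flt_apply_pos (p := fun N => lev (ch i N) = m'' + 1 + 1) _ h]
      rcases ty N h with h' | h'
      · rw [← flt_apply_pos (p := fun N => lev N = m'' ∧ nu N 0 = i) (cbd A z) ⟨h'.2, h'.1⟩, hz3]
      · rw [← flt_apply_pos (p := fun N => lev N = m'' + 1) (cbd A z) h'.2, hz2]
        symm
        by_contra h0
        have := (hu1 N h0).2.2.1
        omega
    · rw [flt_apply_neg (p := fun N => lev (ch i N) = m'' + 1 + 1) _ h]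
      symm
      by_contra h0
      obtain ⟨_, _, h1, h2⟩ := hu1 N h0
      exact h (ty1 N h2 h1)
  refine ⟨w + z, ?_, ?_⟩
  · intro N hN
    by_cases h : w N = 0
    · rw [Finsupp.add_apply, h, zero_add] at hN
      obtain ⟨h1, h2, h3, _⟩ := hz1 N hN
      obtain ⟨h4, h5⟩ := hzi N hN
      exact ⟨h1, h2, ty2 N h4 h3, h5⟩
    · obtain ⟨h1, h2, h3, h4, h5⟩ := hwn N h
      exact ⟨h1, h2, ty2 N h4 h3, h5⟩
  · rw [map_add, map_add, hz4, hu]
    abel

/-- The part of the chains with non-deletable first chord -/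
theorem Dch {m : ℕ} (hAO : ∀ m' < m, AO A m') {n k : ℕ} (hn : 2 ≤ n) (hk : k < m) (x : Code →₀ A)
    (hx : ∀ N, x N ≠ 0 → wf n N ∧ kk N = k ∧ lev N = m ∧ fd N = 0 ∧ ∃ i N', N = ch i N')
    (hd : flt (fun N => lev N = m) (cbd A x) = 0) :
    ∃ y : Code →₀ A, (∀ N, y N ≠ 0 → wf n N ∧ kk N = k + 1 ∧ lev N = m ∧ fd N = 0 ∧
      ∃ i N', N = ch i N') ∧ flt (fun N => lev N = m) (cbd A y) = x := by
  -- decomposition
  have hx0 : x = sch n (fun i => pc i x) := by
    have := decomp (fun N hN => (hx N hN).1) (by omega : 0 < n)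
    have h2 : pe x = 0 := by
      ext N
      rw [pe_apply]
      by_contra h
      obtain ⟨_, _, _, _, i, N', h'⟩ := hx _ h
      injection h'
    rw [h2, map_zero, zero_add] at this
    exact this
  have hv : ∀ i, ∀ N, pc i x N ≠ 0 → i < n ∧ wf (n + 1) N ∧ kk N + 1 = k ∧ lev (ch i N) = m ∧
      nu N (i + 1) ≠ i := by
    intro i N hN
    rw [pc_apply] at hN
    obtain ⟨h1, h2, h3, h4, _⟩ := hx _ hN
    rw [wf_ch] at h1
    refine ⟨h1.1, h1.2, h2, h3, ?_⟩
    intro h5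
    rw [fd_ch_pos h5] at h4
    omega
  have hmerge : ∀ i N, lev (ch i N) = m → nu N (i + 1) ≠ i → lev (merge i N) ≠ m := by
    intro i N h1 h2 h3
    exact h2 ((deletable_iff i N).1 (by omega))
  have hd' : ∀ i < n, flt (fun N => lev (ch i N) = m) (cbd A (pc i x)) = 0 := by
    intro i hi
    rw [hx0, flt_cbd_sch] at hd
    · have := sch_eq_zero (neg_eq_zero.1 hd) hi
      exact this
    · intro i _ N hN
      obtain ⟨_, _, _, h4, h5⟩ := hv i N hN
      exact hmerge i N h4 h5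
  -- the key claim for each index
  have key : ∀ i, ∃ w : Code →₀ A, i < n → (∀ N, w N ≠ 0 → wf (n + 1) N ∧ kk N = k ∧
      lev (ch i N) = m ∧ nu N (i + 1) ≠ i) ∧
      flt (fun N => lev (ch i N) = m) (cbd A w) = pc i x := by
    intro i
    by_cases hi : i < n
    swap
    · exact ⟨0, fun h => absurd h hi⟩
    rcases Nat.eq_zero_or_pos k with hk0 | hk0
    · refine ⟨0, fun _ => ⟨by simp, ?_⟩⟩
      rw [map_zero, map_zero]
      symm
      ext N
      by_contra h
      have := (hv i N h).2.2.1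
      omega
    · obtain ⟨m', rfl⟩ : ∃ m', m = m' + 1 := ⟨m - 1, by omega⟩
      obtain ⟨w, hw1, hw2⟩ := Dkey (hAO m' (by omega)) (n := n) (k := k - 1) (i := i) hn (by omega)
        (pc i x) (fun N hN => by
          obtain ⟨_, h2, h3, h4, h5⟩ := hv i N hN
          exact ⟨h2, by omega, h4, h5⟩) (hd' i hi)
      refine ⟨w, fun _ => ⟨fun N hN => ?_, hw2⟩⟩
      obtain ⟨h1, h2, h3, h4⟩ := hw1 N hN
      exact ⟨h1, by omega, h3, h4⟩
  choose w hw using key
  refine ⟨- sch n w, ?_, ?_⟩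
  · intro N hN
    rw [Finsupp.neg_apply, neg_ne_zero] at hN
    obtain ⟨i, hi, N', hN', rfl⟩ := sch_ne hN
    obtain ⟨h1, h2, h3, h4⟩ := (hw i hi).1 N' hN'
    exact ⟨wf_ch.2 ⟨hi, h1⟩, by simp [kk, h2], h3, fd_ch_zero h4, i, N', rfl⟩
  · rw [map_neg, map_neg, flt_cbd_sch, neg_neg]
    · conv_rhs => rw [hx0]
      exact sch_congr fun i hi => (hw i hi).2
    · intro i hi N hN
      obtain ⟨_, _, h4, h5⟩ := (hw i hi).1 N hN
      exact hmerge i N h4 h5

end

end ArcC
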