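import Mathlib
import Pool.Agent.Lib.MP_e5080e_gt.AllOpen

/-! The acyclicity theorem for all-open diagrams: end of the proof. -/

namespace ArcC

open Equiv Code

section

variable {A : Type*} [AddCommGroup A]

lemma pe_op_emp (y : Code →₀ A) : pe (op A emp y) = y := by
  ext N; rw [pe_apply, op_emp_emp]

lemma pe_sch (n : ℕ) (y : ℕ → (Code →₀ A)) : pe (sch n y) = 0 := by
  ext N; rw [pe_apply, sch_emp]; rfl

/-- exactness of the part with `fd = T` -/
def PT (A : Type*) [AddCommGroup A] (T m n : ℕ) : Prop :=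
  ∀ k, k < m → ∀ x : Code →₀ A, (∀ N, x N ≠ 0 → wf n N ∧ kk N = k ∧ lev N = m ∧ fd N = T ∧
      (1 ≤ T ∨ 3 ≤ n ∨ nu N 0 ≠ 0)) →
    flt (fun N => lev N = m ∧ fd N = T) (cbd A x) = 0 →
    ∃ y : Code →₀ A, (∀ N, y N ≠ 0 → wf n N ∧ kk N = k + 1 ∧ lev N = m ∧ fd N = T ∧
      (1 ≤ T ∨ 3 ≤ n ∨ nu N 0 ≠ 0)) ∧
      flt (fun N => lev N = m ∧ fd N = T) (cbd A y) = x

lemma nu_emp_zero (N : Code) : nu (emp N) 0 = 0 := by
  rw [nu]; rfl

/-- splitting a chain with `fd = 0` -/
lemma split_zero {n k m : ℕ} (hn : 1 ≤ n) {x : Code →₀ A}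
    (hx : ∀ N, x N ≠ 0 → wf n N ∧ kk N = k ∧ lev N = m ∧ fd N = 0)
    (hd : flt (fun N => lev N = m) (cbd A x) = 0) :
    x = op A emp (pe x) + sch n (fun i => pc i x) ∧
    (∀ N, pe x N ≠ 0 → wf (n - 1) N ∧ kk N = k ∧ lev N = m) ∧
    flt (fun N => lev N = m) (cbd A (pe x)) = 0 ∧
    (∀ N, sch n (fun i => pc i x) N ≠ 0 → wf n N ∧ kk N = k ∧ lev N = m ∧ fd N = 0 ∧
      ∃ i N', N = ch i N') ∧
    flt (fun N => lev N = m) (cbd A (sch n (fun i => pc i x))) = 0 := by
  have h1 := decomp (fun N hN => (hx N hN).1) (by omega : 0 < n)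
  have h2 : ∀ N, pe x N ≠ 0 → wf (n - 1) N ∧ kk N = k ∧ lev N = m := by
    intro N hN
    rw [pe_apply] at hN
    obtain ⟨h3, h4, h5, _⟩ := hx _ hN
    obtain ⟨n', rfl⟩ : ∃ n', n = n' + 1 := ⟨n - 1, by omega⟩
    exact ⟨h3, h4, h5⟩
  have h3 : ∀ N, sch n (fun i => pc i x) N ≠ 0 → wf n N ∧ kk N = k ∧ lev N = m ∧ fd N = 0 ∧
      ∃ i N', N = ch i N' := by
    intro N hN
    obtain ⟨i, hi, N', hN', rfl⟩ := sch_ne hN
    rw [pc_apply] at hN'
    obtain ⟨h4, h5, h6, h7⟩ := hx _ hN'
    exact ⟨h4, h5, h6, h7, i, N', rfl⟩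
  have h4 : flt (fun N => lev N = m) (cbd A (sch n (fun i => pc i x))) =
      - sch n (fun i => flt (fun N => lev (ch i N) = m) (cbd A (pc i x))) := by
    refine flt_cbd_sch fun i hi N hN h => ?_
    rw [pc_apply] at hN
    obtain ⟨_, _, h5, h6⟩ := hx _ hN
    rw [fd_ch_pos ((deletable_iff i N).1 (by omega))] at h6
    omega
  have h5 := hd
  rw [h1, map_add, map_add, cbd_op_emp, flt_op, h4] at h5
  have h6 := congrArg pe h5
  rw [map_add, pe_op_emp, map_neg, pe_sch, neg_zero, add_zero, map_zero] at h6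
  have h6' : flt (fun N => lev N = m) (cbd A (pe x)) = 0 := h6
  refine ⟨h1, h2, h6', h3, ?_⟩
  rw [h4]
  have h7 : flt (fun N => lev (emp N) = m) (cbd A (pe x)) = 0 := h6
  rw [h7, map_zero, zero_add] at h5
  exact h5

lemma PT_zero {m n : ℕ} (hAO : ∀ m' ≤ m, AO A m') (hn : 2 ≤ n) : PT A 0 m n := by
  intro k hk x hx hd
  have hd' : flt (fun N => lev N = m) (cbd A x) = 0 := by
    rw [← hd]
    refine flt_cbd_congr fun N hN c hc => ?_
    obtain ⟨_, _, h3, h4, _⟩ := hx N hN
    constructor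
    · intro h
      have := fd_cdel_le hc (by omega)
      exact ⟨h, by omega⟩
    · intro h; exact h.1
  obtain ⟨h1, h2, h3, h4, h5⟩ := split_zero (by omega : 1 ≤ n)
    (fun N hN => ⟨(hx N hN).1, (hx N hN).2.1, (hx N hN).2.2.1, (hx N hN).2.2.2.1⟩) hd'
  -- the part with empty word 0
  obtain ⟨ye, hye1, hye2⟩ : ∃ ye : Code →₀ A, (∀ N, ye N ≠ 0 → 3 ≤ n ∧ wf (n - 1) N ∧
      kk N = k + 1 ∧ lev N = m) ∧ flt (fun N => lev N = m) (cbd A ye) = pe x := by
    by_cases hn3 : 3 ≤ n
    · obtain ⟨ye, h6, h7⟩ := hAO m le_rfl (n - 1) (by omega) k hk (pe x) h2 h3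
      exact ⟨ye, fun N hN => ⟨hn3, h6 N hN⟩, h7⟩
    · refine ⟨0, by simp, ?_⟩
      rw [map_zero, map_zero]
      symm
      ext N
      by_contra h
      obtain ⟨_, _, _, _, h6⟩ := hx (emp N) h
      rcases h6 with h6 | h6 | h6
      · omega
      · omega
      · exact h6 (nu_emp_zero N)
  obtain ⟨yc, hyc1, hyc2⟩ := Dch (fun m' hm' => hAO m' (by omega)) hn hk _ h4 h5
  set yc' := flt (fun N => 3 ≤ n ∨ nu N 0 ≠ 0) yc with hyc'
  have hyc3 : flt (fun N => lev N = m) (cbd A yc') = sch n (fun i => pc i x) := by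
    rw [hyc', flt_cbd_flt, hyc2]
    · refine flt_eq_self fun N hN => ?_
      obtain ⟨i, hi, N', hN', rfl⟩ := sch_ne hN
      rw [pc_apply] at hN'
      obtain ⟨_, _, _, _, h6⟩ := hx _ hN'
      rcases h6 with h6 | h6
      · omega
      · exact h6
    · intro N hN c hc h
      obtain ⟨_, _, h6, _⟩ := hyc1 N hN
      rw [nu_cdel hc (by omega)]
  have hy1 : ∀ N, (op A emp ye + yc') N ≠ 0 → wf n N ∧ kk N = k + 1 ∧ lev N = m ∧ fd N = 0 ∧
      (1 ≤ 0 ∨ 3 ≤ n ∨ nu N 0 ≠ 0) := by
    intro N hN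
    by_cases h6 : yc' N = 0
    · rw [Finsupp.add_apply, h6, add_zero] at hN
      obtain ⟨N', hN', rfl⟩ := op_ne hN
      obtain ⟨h7, h8, h9, h10⟩ := hye1 N' hN'
      refine ⟨?_, h9, h10, rfl, Or.inr (Or.inl h7)⟩
      obtain ⟨n', rfl⟩ : ∃ n', n = n' + 1 := ⟨n - 1, by omega⟩
      exact h8
    · obtain ⟨h7, h8⟩ := flt_ne (p := fun N => 3 ≤ n ∨ nu N 0 ≠ 0) h6
      obtain ⟨h9, h10, h11, h12, _⟩ := hyc1 N h8
      exact ⟨h9, h10, h11, h12, Or.inr h7⟩
  refine ⟨op A emp ye + yc', hy1, ?_⟩
  have h6 : flt (fun N => lev N = m ∧ fd N = 0) (cbd A (op A emp ye + yc')) =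
      flt (fun N => lev N = m) (cbd A (op A emp ye + yc')) := by
    refine flt_cbd_congr fun N hN c hc => ?_
    obtain ⟨_, _, h3, h4, _⟩ := hy1 N hN
    constructor
    · intro h; exact h.1
    · intro h
      have := fd_cdel_le hc (by omega)
      exact ⟨h, by omega⟩
  rw [h6, map_add, map_add, hyc3, cbd_op_emp, flt_op]
  have h7 : flt (fun N => lev (emp N) = m) (cbd A ye) = pe x := hye2
  rw [h7]
  exact h1.symm

lemma PT_succ {T m n : ℕ} (hn : 1 ≤ n) (hPT : PT A T m (n + 1)) : PT A (T + 1) (m + 1) n := by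
  intro k hk x hx hd
  have hx0 : x = sch n (fun i => pc i x) := by
    have := decomp (fun N hN => (hx N hN).1) (by omega : 0 < n)
    have h2 : pe x = 0 := by
      ext N
      rw [pe_apply]
      by_contra h
      obtain ⟨_, _, _, h', _⟩ := hx _ h
      simp [fd] at h'
    rw [h2, map_zero, zero_add] at this
    exact this
  have hv : ∀ i, ∀ N, pc i x N ≠ 0 → i < n ∧ wf (n + 1) N ∧ kk N + 1 = k ∧ lev N = m ∧
      fd N = T ∧ nu N (i + 1) = i := by
    intro i N hN
    rw [pc_apply] at hN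
    obtain ⟨h1, h2, h3, h4, _⟩ := hx _ hN
    rw [wf_ch] at h1
    by_cases h5 : nu N (i + 1) = i
    · rw [fd_ch_pos h5] at h4
      rw [lev_ch_of_three h5] at h3
      exact ⟨h1.1, h1.2, h2, by omega, by omega, h5⟩
    · rw [fd_ch_zero h5] at h4; omega
  -- the formula for the boundary of such chains
  have hform : ∀ w : ℕ → (Code →₀ A), (∀ i < n, ∀ N, w i N ≠ 0 → lev N = m ∧ fd N = T ∧
      nu N (i + 1) = i) → flt (fun N => lev N = m + 1 ∧ fd N = T + 1) (cbd A (sch n w)) =
      - sch n (fun i => flt (fun N => lev N = m ∧ fd N = T) (cbd A (w i))) := by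
    intro w hw
    rw [flt_cbd_sch]
    · congr 1
      refine sch_congr fun i hi => ?_
      refine flt_cbd_congr fun N hN c hc => ?_
      obtain ⟨h1, h2, h3⟩ := hw i hi N hN
      constructor
      · rintro ⟨h4, h5⟩
        by_cases h6 : nu (cdel c N) (i + 1) = i
        · rw [lev_ch_of_three h6] at h4
          rw [fd_ch_pos h6] at h5
          exact ⟨by omega, by omega⟩
        · rw [fd_ch_zero h6] at h5; omega
      · rintro ⟨h4, h5⟩
        have h6 : nu (cdel c N) (i + 1) = i := by rw [nu_cdel hc (by omega), h3]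
        rw [lev_ch_of_three h6, fd_ch_pos h6]
        exact ⟨by omega, by omega⟩
    · intro i hi N hN
      obtain ⟨h1, h2, h3⟩ := hw i hi N hN
      rintro ⟨_, h5⟩
      rw [fd_merge h3] at h5
      omega
  have hd' : ∀ i < n, flt (fun N => lev N = m ∧ fd N = T) (cbd A (pc i x)) = 0 := by
    intro i hi
    rw [hx0, hform _ (fun i _ N hN => (hv i N hN).2.2.2)] at hd
    exact sch_eq_zero (neg_eq_zero.1 hd) hi
  have key : ∀ i, ∃ w : Code →₀ A, i < n → (∀ N, w N ≠ 0 → wf (n + 1) N ∧ kk N = k ∧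
      lev N = m ∧ fd N = T ∧ nu N (i + 1) = i) ∧
      flt (fun N => lev N = m ∧ fd N = T) (cbd A w) = pc i x := by
    intro i
    by_cases hi : i < n
    swap
    · exact ⟨0, fun h => absurd h hi⟩
    rcases Nat.eq_zero_or_pos k with hk0 | hk0
    · refine ⟨0, fun _ => ⟨by simp, ?_⟩⟩
      rw [map_zero, map_zero]
      symm
      ext N
      by_contra h
      have := (hv i N h).2.2.1
      omega
    · obtain ⟨w, hw1, hw2⟩ := hPT (k - 1) (by omega) (pc i x) (fun N hN => by
        obtain ⟨_, h2, h3, h4, h5, h6⟩ := hv i N hN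
        refine ⟨h2, by omega, h4, h5, ?_⟩
        by_cases h7 : 3 ≤ n + 1
        · exact Or.inr (Or.inl h7)
        · right; right
          intro h8
          have := (nu N).injective (h6.trans (show i = nu N 0 by omega))
          omega) (hd' i hi)
      refine ⟨flt (fun N => nu N (i + 1) = i) w, fun _ => ⟨fun N hN => ?_, ?_⟩⟩
      · obtain ⟨h1, h2⟩ := flt_ne (p := fun N => nu N (i + 1) = i) hN
        obtain ⟨h3, h4, h5, h6, _⟩ := hw1 N h2
        exact ⟨h3, by omega, h5, h6, h1⟩
      · rw [flt_cbd_flt, hw2]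
        · exact flt_eq_self fun N hN => (hv i N hN).2.2.2.2.2
        · intro N hN c hc h
          obtain ⟨_, _, h5, _⟩ := hw1 N hN
          rw [nu_cdel hc (by omega)]
  choose w hw using key
  refine ⟨- sch n w, ?_, ?_⟩
  · intro N hN
    rw [Finsupp.neg_apply, neg_ne_zero] at hN
    obtain ⟨i, hi, N', hN', rfl⟩ := sch_ne hN
    obtain ⟨h1, h2, h3, h4, h5⟩ := (hw i hi).1 N' hN'
    exact ⟨wf_ch.2 ⟨hi, h1⟩, by simp [kk, h2], by rw [lev_ch_of_three h5, h3],
      by rw [fd_ch_pos h5, h4], Or.inl (by omega)⟩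
  · rw [map_neg, map_neg, hform _ (fun i hi N hN => ((hw i hi).1 N hN).2.2), neg_neg]
    conv_rhs => rw [hx0]
    exact sch_congr fun i hi => (hw i hi).2

lemma PT_pos (T : ℕ) : ∀ m n : ℕ, (∀ m' < m, AO A m') → 1 ≤ n → PT A (T + 1) m n := by
  induction T with
  | zero =>
    intro m n hAO hn
    cases m with
    | zero => intro k hk; omega
    | succ m => exact PT_succ hn (PT_zero (fun m' hm' => hAO m' (by omega)) (by omega))
  | succ T ih =>
    intro m n hAO hn
    cases m with
    | zero => intro k hk; omega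
    | succ m => exact PT_succ hn (ih m (n + 1) (fun m' hm' => hAO m' (by omega)) (by omega))

/-- reduction to `fd = 0` -/
lemma reduce {m : ℕ} (hAO : ∀ m' < m, AO A m') {n k : ℕ} (hn : 1 ≤ n) (hk : k < m)
    (x : Code →₀ A) (hx : ∀ N, x N ≠ 0 → wf n N ∧ kk N = k ∧ lev N = m)
    (hd : flt (fun N => lev N = m) (cbd A x) = 0) :
    ∃ y : Code →₀ A, (∀ N, y N ≠ 0 → wf n N ∧ kk N = k + 1 ∧ lev N = m) ∧
      ∀ N, (x - flt (fun N => lev N = m) (cbd A y)) N ≠ 0 →
        wf n N ∧ kk N = k ∧ lev N = m ∧ fd N = 0 := by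
  obtain ⟨T, hT⟩ : ∃ T, ∀ N, x N ≠ 0 → fd N ≤ T := by
    refine ⟨x.support.sup fd, fun N hN => Finset.le_sup (Finsupp.mem_support_iff.2 hN)⟩
  induction T generalizing x with
  | zero =>
    refine ⟨0, by simp, fun N hN => ?_⟩
    rw [map_zero, map_zero, sub_zero] at hN
    obtain ⟨h1, h2, h3⟩ := hx N hN
    exact ⟨h1, h2, h3, Nat.le_zero.1 (hT N hN)⟩
  | succ T ih =>
    set xT := flt (fun N => fd N = T + 1) x with hxT
    have e : x = xT + flt (fun N => fd N ≠ T + 1) x := by
      ext N
      rw [Finsupp.add_apply]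
      by_cases h : fd N = T + 1
      · rw [hxT, flt_apply_pos (p := fun N => fd N = T + 1) _ h,
          flt_apply_neg (p := fun N => fd N ≠ T + 1) _ (by simpa using h), add_zero]
      · rw [hxT, flt_apply_neg (p := fun N => fd N = T + 1) _ h,
          flt_apply_pos (p := fun N => fd N ≠ T + 1) _ h, zero_add]
    have h1 : flt (fun N => lev N = m ∧ fd N = T + 1) (cbd A x) = 0 :=
      flt_of_imp (fun N hN => hN.1) hd
    have h2 : flt (fun N => lev N = m ∧ fd N = T + 1)
        (cbd A (flt (fun N => fd N ≠ T + 1) x)) = 0 := by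
      refine flt_cbd_zero fun N hN c hc h => ?_
      obtain ⟨h3, h4⟩ := flt_ne hN
      have h5 := hT N h4
      obtain ⟨_, _, h6⟩ := hx N h4
      have h7 := fd_cdel_le hc (by omega)
      omega
    rw [e, map_add, map_add, h2, add_zero] at h1
    obtain ⟨yT, hy1, hy2⟩ := PT_pos (A := A) T m n hAO hn k hk xT (fun N hN => by
      obtain ⟨h3, h4⟩ := flt_ne (p := fun N => fd N = T + 1) hN
      obtain ⟨h5, h6, h7⟩ := hx N h4
      exact ⟨h5, h6, h7, h3, Or.inl (by omega)⟩) h1
    set x' := x - flt (fun N => lev N = m) (cbd A yT) with hx'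
    have hcb : ∀ N, flt (fun N => lev N = m) (cbd A yT) N ≠ 0 → wf n N ∧ kk N = k ∧ lev N = m ∧
        fd N ≤ T + 1 := by
      intro N hN
      obtain ⟨h3, h4⟩ := flt_ne (p := fun N => lev N = m) hN
      obtain ⟨N', hN', c, hc, rfl⟩ := cbd_ne h4
      obtain ⟨h5, h6, h7, h8, _⟩ := hy1 N' hN'
      have h9 := kk_cdel hc
      have h10 := fd_cdel_le hc (by omega)
      exact ⟨wf_cdel h5 hc, by omega, h3, by omega⟩
    have hx'1 : ∀ N, x' N ≠ 0 → wf n N ∧ kk N = k ∧ lev N = m := by
      intro N hN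
      by_cases h : x N = 0
      · rw [hx', Finsupp.sub_apply, h, zero_sub, neg_ne_zero] at hN
        obtain ⟨h3, h4, h5, _⟩ := hcb N hN
        exact ⟨h3, h4, h5⟩
      · exact hx N h
    have hx'2 : flt (fun N => lev N = m) (cbd A x') = 0 := by
      rw [hx', map_sub, map_sub, hd, flt_cbd_flt_cbd (f := lev), sub_zero]
      · intro N c hc; exact lev_cdel_le hc
      · intro N hN; exact (hy1 N hN).2.2.1.le
    have hx'3 : ∀ N, x' N ≠ 0 → fd N ≤ T := by
      intro N hN
      have h3 : fd N ≤ T + 1 := by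
        by_cases h : x N = 0
        · rw [hx', Finsupp.sub_apply, h, zero_sub, neg_ne_zero] at hN
          exact (hcb N hN).2.2.2
        · exact hT N h
      by_contra h4
      have h5 : fd N = T + 1 := by omega
      have h6 := (hx'1 N hN).2.2
      apply hN
      rw [hx', Finsupp.sub_apply, flt_apply_pos (p := fun N => lev N = m) _ h6,
        ← flt_apply_pos (p := fun N => lev N = m ∧ fd N = T + 1) (cbd A yT) ⟨h6, h5⟩, hy2, hxT,
        flt_apply_pos (p := fun N => fd N = T + 1) _ h5, sub_self]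
    obtain ⟨y, hy3, hy4⟩ := ih x' hx'1 hx'2 hx'3
    refine ⟨yT + y, ?_, ?_⟩
    · intro N hN
      by_cases h : yT N = 0
      · rw [Finsupp.add_apply, h, zero_add] at hN
        exact hy3 N hN
      · obtain ⟨h5, h6, h7, _⟩ := hy1 N h
        exact ⟨h5, h6, h7⟩
    · intro N hN
      apply hy4 N
      rw [hx']
      rw [map_add, map_add] at hN
      rwa [sub_sub]

/-- chains of one-word diagrams with `fd = 0` -/
lemma one_word {k m : ℕ} (hk : k < m) {x : Code →₀ A}
    (hx : ∀ N, x N ≠ 0 → wf 1 N ∧ kk N = k ∧ lev N = m ∧ fd N = 0)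
    (hd : flt (fun N => lev N = m) (cbd A x) = 0) :
    x = op A (ch 0) (pc 0 x) ∧
    (∀ N, pc 0 x N ≠ 0 → wf 2 N ∧ kk N + 1 = k ∧ lev N + 2 = m ∧ nu N 0 = 0) ∧
    flt (fun N => lev N + 2 = m) (cbd A (pc 0 x)) = 0 := by
  obtain ⟨h1, h2, h3, h4, h5⟩ := split_zero le_rfl hx hd
  have h6 : pe x = 0 := by
    ext N
    by_contra h
    obtain ⟨h7, h8, h9⟩ := h2 N h
    simp only [Nat.sub_self] at h7
    cases N with
    | nil => simp [lev, kk, cc] at h9; omega
    | emp N => simp [wf] at h7
    | ch i N => simp [wf] at h7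
  have h7 : sch 1 (fun i => pc i x) = op A (ch 0) (pc 0 x) := by
    rw [sch, Finset.sum_range_one]
  rw [h6, map_zero, zero_add, h7] at h1
  have h8 : ∀ N, pc 0 x N ≠ 0 → wf 2 N ∧ kk N + 1 = k ∧ lev N + 2 = m ∧ nu N 0 = 0 := by
    intro N hN
    rw [pc_apply] at hN
    obtain ⟨h9, h10, h11, h12⟩ := hx _ hN
    rw [wf_ch] at h9
    have h13 : nu N 1 ≠ 0 := by
      intro h
      rw [fd_ch_pos (i := 0) h] at h12
      omega
    have h14 : nu N 0 = 0 := by
      obtain ⟨j, hj⟩ := (nu N).surjective 0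
      by_cases hj2 : 2 ≤ j
      · rw [nu_fix h9.2 hj2] at hj; omega
      · have : j = 0 ∨ j = 1 := by omega
        rcases this with rfl | rfl
        · exact hj
        · exact absurd hj h13
    rw [lev_ch, if_pos h14] at h11
    exact ⟨h9.2, h10, by omega, h14⟩
  refine ⟨h1, h8, ?_⟩
  rw [h7] at h5
  rw [cbd_op_ch, map_sub, flt_op] at h5
  have h9 : flt (fun N => lev (merge 0 N) = m) (pc 0 x) = 0 := by
    refine flt_eq_zero fun N h => ?_
    by_contra h0
    obtain ⟨_, _, h10, h11⟩ := h8 N h0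
    rw [lev_merge, if_neg] at h
    · omega
    · intro h12
      have := (nu N).injective (h12.trans h11.symm)
      omega
  rw [h9, map_zero, zero_sub, neg_eq_zero, flt_op] at h5
  have h10 : flt (fun N => lev (ch 0 N) = m) (cbd A (pc 0 x)) = 0 := by
    have := congrArg (pc 0) h5
    rw [map_zero] at this
    rw [← this]
    ext N
    rw [pc_apply, op_ch_ch_same]
  rw [← h10]
  refine flt_cbd_congr fun N hN c hc => ?_
  obtain ⟨_, _, h11, h12⟩ := h8 N hN
  constructor
  · intro h
    rw [lev_ch, nu_cdel hc (by omega), if_pos h12]; omega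
  · intro h
    have := lev_cdel_le hc
    rw [lev_ch] at h
    split_ifs at h with h13 <;> omega

/-- the operator `R` -/
noncomputable def Rop (A : Type*) [AddCommGroup A] : Module.End ℤ (Code →₀ A) :=
  op A (ch 1) * (op A emp * (op A (ch 1) * op A emp))

lemma cbd_Rop (u : Code →₀ A) : cbd A (Rop A u) = op A emp (op A (ch 0) u) -
    op A (fun N => ch 1 (emp (emp (merge 0 N)))) u + Rop A (cbd A u) := by
  have key : ∀ N : Code, ∀ a : A, cbd A (Rop A (Finsupp.single N a)) =
      op A emp (op A (ch 0) (Finsupp.single N a)) -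
      op A (fun N => ch 1 (emp (emp (merge 0 N)))) (Finsupp.single N a) +
        Rop A (cbd A (Finsupp.single N a)) := by
    intro N a
    simp only [Rop, Module.End.mul_apply]
    rw [cbd_op_ch, cbd_op_emp, cbd_op_ch, cbd_op_emp]
    simp only [map_sub]
    simp only [op_single]
    rw [show merge 1 (emp (ch 1 (emp N))) = emp (ch 0 N) from rfl,
      show merge 1 (emp N) = emp (merge 0 N) from rfl]
    abel
  have h : (cbd A * Rop A) = op A emp * op A (ch 0) -
      op A (fun N => ch 1 (emp (emp (merge 0 N)))) + Rop A * cbd A := by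
    refine Finsupp.lhom_ext fun N a => ?_
    simp only [Module.End.mul_apply, LinearMap.add_apply, LinearMap.sub_apply]
    exact key N a
  exact congrArg (fun P : Module.End ℤ (Code →₀ A) => P u) h

lemma lev_ch_one_emp (N : Code) : lev (ch 1 (emp N)) = lev N + 1 := by
  rw [lev_ch, nu_emp_zero, if_neg (by omega), lev_emp]

theorem AO_all (m : ℕ) : AO A m := by
  induction m using Nat.strong_induction_on with
  | _ m ihm =>
    intro n hn
    induction n, hn using Nat.le_induction with
    | base =>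
      intro k hk x hx hd
      obtain ⟨y0, hy0, hx'⟩ := reduce ihm (by omega : 1 ≤ 2) hk x hx hd
      set x' := x - flt (fun N => lev N = m) (cbd A y0) with hx'def
      have hd' : flt (fun N => lev N = m) (cbd A x') = 0 := by
        rw [hx'def, map_sub, map_sub, hd, flt_cbd_flt_cbd (f := lev), sub_zero]
        · intro N c hc; exact lev_cdel_le hc
        · intro N hN; exact (hy0 N hN).2.2.le
      obtain ⟨h1, h2, h3, h4, h5⟩ := split_zero (by omega : 1 ≤ 2) hx' hd'
      obtain ⟨yc, hyc1, hyc2⟩ := Dch ihm le_rfl hk _ h4 h5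
      -- the part with empty word 0
      obtain ⟨w, hw1, hw2⟩ := reduce ihm le_rfl hk (pe x') h2 h3
      set x'' := pe x' - flt (fun N => lev N = m) (cbd A w) with hx''def
      have hd'' : flt (fun N => lev N = m) (cbd A x'') = 0 := by
        rw [hx''def, map_sub, map_sub, h3, flt_cbd_flt_cbd (f := lev), sub_zero]
        · intro N c hc; exact lev_cdel_le hc
        · intro N hN; exact (hw1 N hN).2.2.le
      obtain ⟨h6, h7, h8⟩ := one_word hk hw2 hd''
      set u := pc 0 x'' with hu
      have h9 : flt (fun N => lev N = m) (cbd A (Rop A u)) = op A emp x'' := by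
        rw [cbd_Rop, map_add, map_sub, ← h6]
        have e1 : flt (fun N => lev N = m) (op A emp x'') = op A emp x'' := by
          refine flt_eq_self fun N hN => ?_
          obtain ⟨N', hN', rfl⟩ := op_ne hN
          exact (hw2 N' hN').2.2.1
        have e2 : flt (fun N => lev N = m)
            (op A (fun N => ch 1 (emp (emp (merge 0 N)))) u) = 0 := by
          rw [flt_op]
          have : flt (fun N => lev (ch 1 (emp (emp (merge 0 N)))) = m) u = 0 := by
            refine flt_eq_zero fun N h => ?_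
            by_contra h0
            obtain ⟨_, _, h10, h11⟩ := h7 N h0
            rw [lev_ch_one_emp, lev_emp, lev_merge, if_neg] at h
            · omega
            · intro h12
              have := (nu N).injective (h12.trans h11.symm)
              omega
          rw [this, map_zero]
        have e3 : flt (fun N => lev N = m) (Rop A (cbd A u)) = 0 := by
          have e4 : Rop A = op A (fun N => ch 1 (emp (ch 1 (emp N)))) := by
            rw [Rop, op_mul, op_mul, op_mul]; rfl
          rw [e4, flt_op]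
          have : flt (fun N => lev (ch 1 (emp (ch 1 (emp N)))) = m) (cbd A u) = 0 := by
            rw [← h8]
            refine flt_congr fun N _ => ?_
            rw [lev_ch_one_emp, lev_ch_one_emp]
          rw [this, map_zero]
        rw [e1, e2, e3]; simp
      refine ⟨y0 + (op A emp w + Rop A u + yc), ?_, ?_⟩
      · intro N hN
        by_cases g1 : y0 N = 0
        · rw [Finsupp.add_apply, g1, zero_add] at hN
          by_cases g2 : yc N = 0
          · rw [Finsupp.add_apply, g2, add_zero] at hN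
            by_cases g3 : op A emp w N = 0
            · rw [Finsupp.add_apply, g3, zero_add] at hN
              have e4 : Rop A = op A (fun N => ch 1 (emp (ch 1 (emp N)))) := by
                rw [Rop, op_mul, op_mul, op_mul]; rfl
              rw [e4] at hN
              obtain ⟨N', hN', rfl⟩ := op_ne hN
              obtain ⟨g4, g5, g6, g7⟩ := h7 N' hN'
              refine ⟨?_, ?_, ?_⟩
              · rw [wf_ch, wf_succ_emp, wf_ch, wf_succ_emp]
                exact ⟨by omega, by omega, g4⟩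
              · simp only [kk]; omega
              · rw [lev_ch_one_emp, lev_ch_one_emp]; omega
            · obtain ⟨N', hN', rfl⟩ := op_ne g3
              exact hw1 N' hN'
          · obtain ⟨g3, g4, g5, _⟩ := hyc1 N g2
            exact ⟨g3, g4, g5⟩
        · exact hy0 N g1
      · rw [map_add, map_add, map_add, map_add, map_add, map_add, hyc2, h9, cbd_op_emp, flt_op]
        have e5 : flt (fun N => lev (emp N) = m) (cbd A w) = pe x' - x'' := by
          rw [hx''def]
          change flt (fun N => lev N = m) (cbd A w) = _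
          abel
        rw [e5, map_sub]
        have e6 : flt (fun N => lev N = m) (cbd A y0) = x - x' := by rw [hx'def]; abel
        rw [e6]
        have e7 : x' = op A emp (pe x') + sch 2 (fun i => pc i x') := h1
        have e8 : sch 2 (fun i => pc i x') = x' - op A emp (pe x') := by
          rw [eq_sub_iff_add_eq, add_comm]; exact e7.symm
        rw [e8]
        abel
    | succ n hn ihn =>
      intro k hk x hx hd
      obtain ⟨y0, hy0, hx'⟩ := reduce ihm (by omega : 1 ≤ n + 1) hk x hx hd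
      set x' := x - flt (fun N => lev N = m) (cbd A y0) with hx'def
      have hd' : flt (fun N => lev N = m) (cbd A x') = 0 := by
        rw [hx'def, map_sub, map_sub, hd, flt_cbd_flt_cbd (f := lev), sub_zero]
        · intro N c hc; exact lev_cdel_le hc
        · intro N hN; exact (hy0 N hN).2.2.le
      obtain ⟨h1, h2, h3, h4, h5⟩ := split_zero (by omega : 1 ≤ n + 1) hx' hd'
      obtain ⟨yc, hyc1, hyc2⟩ := Dch ihm (by omega) hk _ h4 h5
      obtain ⟨ye, hye1, hye2⟩ := ihn k hk (pe x') h2 h3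
      refine ⟨y0 + (op A emp ye + yc), ?_, ?_⟩
      · intro N hN
        by_cases g1 : y0 N = 0
        · rw [Finsupp.add_apply, g1, zero_add] at hN
          by_cases g2 : yc N = 0
          · rw [Finsupp.add_apply, g2, add_zero] at hN
            obtain ⟨N', hN', rfl⟩ := op_ne hN
            exact hye1 N' hN'
          · obtain ⟨g3, g4, g5, _⟩ := hyc1 N g2
            exact ⟨g3, g4, g5⟩
        · exact hy0 N g1
      · rw [map_add, map_add, map_add, map_add, hyc2, cbd_op_emp, flt_op]
        have e5 : flt (fun N => lev (emp N) = m) (cbd A ye) = pe x' := hye2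
        have e6 : flt (fun N => lev N = m) (cbd A y0) = x - x' := by rw [hx'def]; abel
        rw [e5, e6, ← h1]
        abel

end

end ArcC
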