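import Mathlib

/-!
# Arc families on a bordered surface up to the pure mapping class group (MP_e5080e_gt)

Let `F` be a bordered surface of genus `g` with `s` (numbered) punctures and with `n ≥ 1` distinguished
points on its boundary, at least one on every boundary component.  We number the distinguished
points by `0, ..., n - 1`; `rot j` is the next distinguished point after `j` on the same boundary
component when one walks along the boundary with the surface on the left.

Let `α` be a (possibly empty) family of pairwise disjoint arcs in `F` joining distinguished points,
which are essential, not boundary parallel and pairwise not isotopic.  The orbit of `α` under the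
pure mapping class group (which fixes every distinguished point and every puncture) is determined by
the following data (`Fam`), and all data with the properties listed in `Fam.IsFam0` occur (classification
of surfaces):

* the word: for every distinguished point, in the order of their numbers, the symbol of the point
  followed by the symbols of the ends of arcs at this point, in the order given by the orientation
  of `F`.  The arcs are numbered in the order of their first ends, so the word is a normal form.
* every symbol is also regarded as a side of a complementary region of `α`: the symbol of the point
  `j` is the boundary segment which ends at `j`, and the symbol of an end of the arc `a` is the side of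
  `a` along which one arrives at this end with the region on the left.  For every symbol we record
  the number of the region which has this side (regions are numbered in the order of their first
  sides).  The permutation `face` sends every side to the next side on the boundary of the region.
* the first Betti number of every region with its punctures filled in; if the region has genus `h`
  and `b` boundary cycles, this number is `2 h + b - 1`.
* for every puncture the number of the region which contains it.
-/

namespace ArcC

/-- The symbols: `pt j` is the distinguished point number `j` (as a side of a region it is
the boundary segment which ends at that point), and `arc a false`, `arc a true` are the first and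
the second end of the arc number `a` (as a side of a region, `arc a b` is the side of the arc
along which one arrives at this end with the region on the left). -/
inductive Side
  | pt (j : ℕ)
  | arc (a : ℕ) (b : Bool)
deriving DecidableEq

namespace Side

/-- Is the symbol a distinguished point? -/
def isPt : Side → Bool
  | pt _ => true
  | arc _ _ => false

/-- Is the symbol the first end of an arc? -/
def isFirst : Side → Bool
  | pt _ => false
  | arc _ b => !b

/-- Is the symbol an end of the arc number `c`? -/
def isArc (c : ℕ) : Side → Bool
  | pt _ => false
  | arc a _ => a == c

/-- Renumbering of the arcs after the deletion of the arc number `c`. -/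
def shift (c : ℕ) : Side → Side
  | pt j => pt j
  | arc a b => arc (if c < a then a - 1 else a) b

/-- The permutation of the symbols exchanging the two ends of every arc. -/
def mate : Equiv.Perm Side where
  toFun := fun x => match x with
    | pt j => pt j
    | arc a b => arc a (!b)
  invFun := fun x => match x with
    | pt j => pt j
    | arc a b => arc a (!b)
  left_inv := by intro x; cases x <;> simp
  right_inv := by intro x; cases x <;> simp

/-- A permutation of the numbers of the distinguished points, as a permutation of the symbols. -/
def ptPerm (q : Equiv.Perm ℕ) : Equiv.Perm Side where
  toFun := fun x => match x with
    | pt j => pt (q j)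
    | arc a b => arc a b
  invFun := fun x => match x with
    | pt j => pt (q⁻¹ j)
    | arc a b => arc a b
  left_inv := by intro x; cases x <;> simp
  right_inv := by intro x; cases x <;> simp

end Side

open ArcC.Side

/-- The number of cycles of the permutation `p` which meet the set `s`. -/
noncomputable def ncyc {α : Type*} (p : Equiv.Perm α) (s : Set α) : ℕ :=
  ((fun x => (Quotient.mk (Equiv.Perm.SameCycle.setoid p) x)) '' s).ncard

/-- `IsWord n k w`: the word `w` lists the `n` distinguished points in order, each one followed by
the ends of arcs at this point in the order given by the orientation; there are `k` arcs, numbered
in the order of their first ends. -/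
structure IsWord (n k : ℕ) (w : List Side) : Prop where
  nodup : w.Nodup
  head : w.head? = some (pt 0)
  pts : w.filter isPt = (List.range n).map pt
  firsts : w.filter isFirst = (List.range k).map (fun a => arc a false)
  mem : ∀ a b, arc a b ∈ w ↔ a < k
  mates : ∀ a, a < k → List.Sublist [arc a false, arc a true] w

/-- The permutation whose cycles are the boundary cycles of the complementary regions: after the
side `x` comes the other end of the arc whose end follows `x` in the word; and if `x` is the last
symbol at the point `j` then the next side is the boundary segment ending at the point `ρ j`, where
`ρ` is the rotation of the distinguished points along the boundary of the surface. -/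
def face (ρ : Equiv.Perm ℕ) (n : ℕ) (w : List Side) : Equiv.Perm Side :=
  mate * ptPerm (ρ * (List.range n).formPerm⁻¹) * w.formPerm

/-- A bordered surface of genus `g` with `s` punctures and `n ≥ 1` distinguished points on the
boundary; `rot j` is the next distinguished point after `j` on its boundary component. -/
structure Surf where
  g : ℕ
  s : ℕ
  n : ℕ
  rot : Equiv.Perm ℕ
  n_pos : 0 < n
  rot_fix : ∀ j, n ≤ j → rot j = j

/-- The number of boundary components. -/
noncomputable def Surf.r (F : Surf) : ℕ := ncyc F.rot (Set.Iio F.n)

/-- Raw data of an arc family: the word, in which every symbol (side) carries the number of the
complementary region it belongs to; the first Betti number of every region (with its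
punctures filled in); for every puncture the number of the region which contains it. -/
@[ext] structure Fam where
  sides : List (Side × ℕ)
  betti : ℕ →₀ ℕ
  punc : List ℕ
deriving DecidableEq

namespace Fam

/-- The underlying word. -/
def word (α : Fam) : List Side := α.sides.map Prod.fst

/-- The numbers of the regions of the sides. -/
def regs (α : Fam) : List ℕ := α.sides.map Prod.snd

/-- The number of arcs. -/
def arcs (α : Fam) : ℕ := (α.word.filter isFirst).length

/-- The number of complementary regions. -/
def numReg (α : Fam) : ℕ := α.regs.toFinset.card

/-- The number of the region of a side. -/
def reg (α : Fam) (x : Side) : ℕ := ((α.sides.find? (fun s => s.1 = x)).map Prod.snd).getD 0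

/-- The sides of the region number `i`. -/
def sidesOf (α : Fam) (i : ℕ) : Set Side := {x | (x, i) ∈ α.sides}

/-- Renumbering of the regions when the regions `r₁` and `r₂` are united. -/
def union (r₁ r₂ : ℕ) (r : ℕ) : ℕ :=
  if r₁ = r₂ then r
  else if r = max r₁ r₂ then min r₁ r₂
  else if max r₁ r₂ < r then r - 1 else r

/-- Deletion of the arc number `c`. -/
noncomputable def del (c : ℕ) (α : Fam) : Fam where
  sides := (α.sides.filter (fun s => !(isArc c s.1))).map
    (fun s => (shift c s.1, union (α.reg (arc c false)) (α.reg (arc c true)) s.2))
  betti := α.betti.mapDomain (union (α.reg (arc c false)) (α.reg (arc c true))) +
    (if α.reg (arc c false) = α.reg (arc c true) then Finsupp.single (α.reg (arc c false)) 1 else 0)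
  punc := α.punc.map (union (α.reg (arc c false)) (α.reg (arc c true)))

/-- The sum of the Betti numbers of the regions. -/
def totalBetti (α : Fam) : ℕ := α.betti.sum (fun _ m => m)

/-- The rank of `H_1(F_α)`. -/
def rank (α : Fam) : ℕ := α.totalBetti + (α.punc.length - α.punc.toFinset.card)

/-- The boundary permutation of the complement of the family. -/
def bdPerm (F : Surf) (α : Fam) : Equiv.Perm Side := face F.rot F.n α.word

/-- The raw data `α` describe a possibly empty arc family in `F` up to homeomorphism. -/
structure IsFam0 (F : Surf) (α : Fam) : Prop where
  /-- the word is a word with `F.n` points and some number of arcs, in normal form -/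
  word : IsWord F.n α.arcs α.word
  /-- the regions are numbered in the order of their first sides -/
  canon : ∀ p r q, α.regs = p ++ r :: q → ∀ r' < r, r' ∈ p
  /-- the boundary of every region is a union of boundary cycles -/
  face_reg : ∀ x i, (x, i) ∈ α.sides → (bdPerm F α x, i) ∈ α.sides
  /-- no Betti numbers outside of the regions -/
  supp : ∀ i, i ∉ α.regs → α.betti i = 0
  /-- the region `i` is a surface of some genus `h` -/
  genus : ∀ i ∈ α.regs, ∃ h, α.betti i + 1 = 2 * h + ncyc (bdPerm F α) (α.sidesOf i)
  /-- the Euler characteristic -/
  euler : (α.numReg : ℤ) - α.totalBetti = 2 - 2 * F.g - F.r + α.arcs
  /-- the surface is connected -/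
  conn : ∀ i ∈ α.regs, Relation.ReflTransGen
    (fun i j => ∃ a b, (arc a b, i) ∈ α.sides ∧ (arc a (!b), j) ∈ α.sides) 0 i
  /-- every puncture lies in a region -/
  punc_len : α.punc.length = F.s
  punc_mem : ∀ i ∈ α.punc, i ∈ α.regs
  /-- the arcs are essential, not boundary parallel and pairwise not isotopic: a region which is
  a disc without punctures has at least three sides -/
  small : α.arcs ≠ 0 → ∀ i ∈ α.regs, i ∉ α.punc → α.betti i = 0 → 3 ≤ α.regs.count i

end Fam

end ArcC
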