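import Mathlib
import Pool.Agent.Lib.MP_e5080e_gt.Base

/-! Further definitions for MP_e5080e_gt used in the proof: deletion of arcs in words, boundary
operators. -/

namespace ArcC

open ArcC.Side

/-- Words: deletion of the arc number `c`. -/
def wdel (c : ℕ) (w : List Side) : List Side :=
  (w.filter (fun x => !(isArc c x))).map (shift c)

/-- The boundary of chains of words, for a coefficient group `A`. -/
noncomputable def wbd (A : Type*) [AddCommGroup A] : (List Side →₀ A) →ₗ[ℤ] (List Side →₀ A) :=
  Finsupp.lsum ℤ fun w => ∑ c ∈ Finset.range (w.filter isFirst).length,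
    (-1 : ℤ) ^ c • (Finsupp.lsingle (wdel c w) : A →ₗ[ℤ] _)

/-- The words with `k` arcs for which the complement of the arcs in the surface with `n`
distinguished points, rotation `ρ` and first Betti number `d` is connected. -/
def CW (n : ℕ) (ρ : Equiv.Perm ℕ) (d k : ℕ) : Set (List Side) :=
  {w | IsWord n k w ∧ k + ncyc (face ρ n w) {x | x ∈ w} ≤ d + 1}

/-- The part of the boundary of chains of arc families in which only the arcs selected by `S` are
deleted. -/
noncomputable def fbd (A : Type*) [AddCommGroup A] (S : Fam → ℕ → Prop) :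
    (Fam →₀ A) →ₗ[ℤ] (Fam →₀ A) := by
  classical exact
  Finsupp.lsum ℤ fun α => ∑ c ∈ (Finset.range α.arcs).filter (S α),
    (-1 : ℤ) ^ c • (Finsupp.lsingle (Fam.del c α) : A →ₗ[ℤ] _)

/-- The arc `c` is deleted by `∂²`: the rank changes. -/
def Fam.changes (α : Fam) (c : ℕ) : Prop := (α.del c).rank ≠ α.rank

/-- The arc `c` has the same region on both sides. -/
def Fam.selfArc (α : Fam) (c : ℕ) : Prop := α.reg (arc c false) = α.reg (arc c true)

end ArcC
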