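import Mathlib
import Pool.Agent.Lib.MP_e5080e_gt.Defs

/-! Definitions for the decomposition of a family at the region `j`. -/

namespace ArcC

open Equiv Side

/-- renaming of the arcs -/
def Side.ren (f : ℕ → ℕ) : Side → Side
  | pt j => pt j
  | arc a b => arc (f a) b

/-- the canonical number of the arc `a` in the list `l` -/
def num (l : List Side) (a : ℕ) : ℕ := (l.filter isFirst).idxOf (arc a false)

/-- canonical form: renumber the arcs in the order of their first ends -/
def cf (S : List (Side × ℕ)) : List (Side × ℕ) :=
  S.map (fun s => (ren (num (S.map Prod.fst)) s.1, s.2))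

/-- the number of arcs of a word -/
def narc (w : List Side) : ℕ := (w.filter isFirst).length

/-- insert after the `i`-th side of the region `j` the ends of arcs which follow the `i`-th point
in the word `w` -/
def gl (j : ℕ) : List (Side × ℕ) → List Side → List (Side × ℕ)
  | [], _ => []
  | s :: S, w => if s.2 = j then
      s :: ((w.tail.takeWhile (fun x => !(isPt x))).map (fun x => (x, j)) ++
        gl j S (w.tail.dropWhile (fun x => !(isPt x))))
    else s :: gl j S w

/-- the raw glued list: arcs of `α` keep their numbers, the number of `α.arcs` is added to the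
numbers of the arcs of `w` -/
def rawGlue (j : ℕ) (α : Fam) (w : List Side) : List (Side × ℕ) :=
  gl j α.sides (w.map (ren (· + α.arcs)))

/-- insert the arcs of the word `w` in the region `j` of `α` -/
noncomputable def glue (j : ℕ) (α : Fam) (w : List Side) : Fam where
  sides := cf (rawGlue j α w)
  betti := α.betti - Finsupp.single j (narc w)
  punc := α.punc

/-- the orientation sign of `glue j α w` -/
def eps (j : ℕ) (α : Fam) (w : List Side) : ℤ :=
  (-1) ^ (∑ a ∈ Finset.range α.arcs, (num ((rawGlue j α w).map Prod.fst) a + a))

/-- the sides of the region `j` in order -/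
def Fam.sidesL (j : ℕ) (α : Fam) : List Side :=
  (α.sides.filter (fun s => s.2 = j)).map Prod.fst

/-- the boundary permutation of the region `j` in terms of the numbers of its sides -/
def Fam.IsRho (F : Surf) (j : ℕ) (α : Fam) (ρ : Perm ℕ) : Prop :=
  (∀ i, (α.sidesL j).length ≤ i → ρ i = i) ∧
    ∀ i (hi : i < (α.sidesL j).length), (α.sidesL j)[ρ i]? = some (α.bdPerm F ((α.sidesL j)[i]))

open Classical in
/-- the boundary permutation of the region `j` in terms of the numbers of its sides -/
noncomputable def Fam.rho (F : Surf) (j : ℕ) (α : Fam) : Perm ℕ :=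
  if h : ∃ ρ : Perm ℕ, α.IsRho F j ρ then h.choose else 1

/-- families with at most one puncture per region, whose self arcs lie in regions `≥ j` -/
structure Fam.Stage (F : Surf) (j : ℕ) (α : Fam) : Prop where
  fam : α.IsFam0 F
  nodup : α.punc.Nodup
  self : ∀ c, c < α.arcs → α.selfArc c → j ≤ α.reg (arc c false)

/-- the words which can be inserted in the region `j` of `α` -/
def Fam.CW (F : Surf) (j : ℕ) (α : Fam) (k : ℕ) : Set (List Side) :=
  ArcC.CW (α.sidesL j).length (α.rho F j) (α.betti j) k

/-- gluing of chains -/
noncomputable def Gl (A : Type*) [AddCommGroup A] (j : ℕ) (α : Fam) :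
    (List Side →₀ A) →ₗ[ℤ] (Fam →₀ A) :=
  Finsupp.lsum ℤ fun w => eps j α w • (Finsupp.lsingle (glue j α w) : A →ₗ[ℤ] _)

end ArcC
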