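import Mathlib
import Pool.Agent.Lib.MP_e5080e_gt.GlueDefs

/-! Renaming of arcs and canonical forms. -/

namespace ArcC.Da

open Equiv Side

@[simp] lemma ren_pt (f : ℕ → ℕ) (j : ℕ) : ren f (pt j) = pt j := rfl
@[simp] lemma ren_arc (f : ℕ → ℕ) (a : ℕ) (b : Bool) : ren f (arc a b) = arc (f a) b := rfl
@[simp] lemma isPt_pt (i : ℕ) : isPt (pt i) = true := rfl
@[simp] lemma isPt_arc (a : ℕ) (b : Bool) : isPt (arc a b) = false := rfl
@[simp] lemma isFirst_pt (i : ℕ) : isFirst (pt i) = false := rfl
@[simp] lemma isFirst_arc (a : ℕ) (b : Bool) : isFirst (arc a b) = !b := rfl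
@[simp] lemma isPt_ren (f : ℕ → ℕ) (x : Side) : isPt (ren f x) = isPt x := by
  cases x <;> rfl
@[simp] lemma isFirst_ren (f : ℕ → ℕ) (x : Side) : isFirst (ren f x) = isFirst x := by
  cases x <;> rfl
lemma ren_ren (f g : ℕ → ℕ) (x : Side) : ren f (ren g x) = ren (f ∘ g) x := by
  cases x <;> rfl
@[simp] lemma ren_id (x : Side) : ren id x = x := by cases x <;> rfl
lemma mate_ren (f : ℕ → ℕ) (x : Side) : mate (ren f x) = ren f (mate x) := by
  cases x <;> rfl
lemma ptPerm_ren (q : Perm ℕ) (f : ℕ → ℕ) (x : Side) :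
    ptPerm q (ren f x) = ren f (ptPerm q x) := by
  cases x <;> rfl
@[simp] lemma mate_pt (j : ℕ) : mate (pt j) = pt j := rfl
@[simp] lemma mate_arc (a : ℕ) (b : Bool) : mate (arc a b) = arc a (!b) := rfl
@[simp] lemma ptPerm_pt (q : Perm ℕ) (j : ℕ) : ptPerm q (pt j) = pt (q j) := rfl
@[simp] lemma ptPerm_arc (q : Perm ℕ) (a : ℕ) (b : Bool) :
    ptPerm q (arc a b) = arc a b := rfl
lemma mate_mate (x : Side) : mate (mate x) = x := by cases x <;> simp

lemma shift_eq_ren (c : ℕ) : shift c = ren (fun a => if c < a then a - 1 else a) := by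
  funext x; cases x <;> rfl

/-- the labels of the arcs which occur in a list -/
def lab (l : List Side) : Set ℕ := {a | ∃ b, arc a b ∈ l}

lemma ren_injOn {l : List Side} {f : ℕ → ℕ} (h : Set.InjOn f (lab l)) :
    Set.InjOn (ren f) {x | x ∈ l} := by
  intro x hx y hy hxy
  cases x with
  | pt i => cases y with
    | pt j => simpa using hxy
    | arc a b => simp at hxy
  | arc a b => cases y with
    | pt j => simp at hxy
    | arc a' b' =>
      simp only [ren_arc, arc.injEq] at hxy
      rw [h ⟨b, hx⟩ ⟨b', hy⟩ hxy.1, hxy.2]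

lemma filter_isFirst_ren (f : ℕ → ℕ) (l : List Side) :
    (l.map (ren f)).filter isFirst = (l.filter isFirst).map (ren f) := by
  rw [List.filter_map]
  congr 1
  apply List.filter_congr
  intro x _; simp

lemma filter_isPt_ren (f : ℕ → ℕ) (l : List Side) :
    (l.map (ren f)).filter isPt = l.filter isPt := by
  rw [List.filter_map]
  have : (isPt ∘ ren f) = isPt := by funext x; simp
  rw [this]
  conv_rhs => rw [← List.map_id (l.filter isPt)]
  apply List.map_congr_left
  intro x hx
  cases x with
  | pt j => rfl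
  | arc a b => simp [isPt] at hx

@[simp] lemma narc_ren (f : ℕ → ℕ) (l : List Side) : narc (l.map (ren f)) = narc l := by
  unfold narc; rw [filter_isFirst_ren, List.length_map]

lemma idxOf_map_of {α β : Type*} [DecidableEq α] [DecidableEq β] {f : α → β} {l : List α} {a : α}
    (h : ∀ x ∈ l, f x = f a → x = a) : (l.map f).idxOf (f a) = l.idxOf a := by
  induction l with
  | nil => simp
  | cons x l ih =>
    rw [List.map_cons, List.idxOf_cons, List.idxOf_cons]
    by_cases hx : x = a
    · subst hx; simp
    · have h1 : f x ≠ f a := fun e => hx (h x (by simp) e)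
      have h2 : (f x == f a) = false := by simpa using h1
      have h3 : (x == a) = false := by simpa using hx
      rw [h2, h3, ih (fun y hy => h y (by simp [hy]))]

lemma num_ren {l : List Side} {f : ℕ → ℕ} (h : Set.InjOn f (lab l)) {a : ℕ} (ha : a ∈ lab l) :
    num (l.map (ren f)) (f a) = num l a := by
  unfold num
  rw [filter_isFirst_ren, ← ren_arc, idxOf_map_of]
  intro x hx hxa
  cases x with
  | pt i => simp at hxa
  | arc a' b' =>
    simp only [ren_arc, arc.injEq] at hxa
    rw [h ⟨b', (List.mem_filter.1 hx).1⟩ ha hxa.1, hxa.2]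

/-- renaming of the arcs in a list with region numbers -/
def rs (f : ℕ → ℕ) (s : Side × ℕ) : Side × ℕ := (ren f s.1, s.2)

@[simp] lemma rs_fst (f : ℕ → ℕ) (s : Side × ℕ) : (rs f s).1 = ren f s.1 := rfl
@[simp] lemma rs_snd (f : ℕ → ℕ) (s : Side × ℕ) : (rs f s).2 = s.2 := rfl
lemma rs_rs (f g : ℕ → ℕ) (s : Side × ℕ) : rs f (rs g s) = rs (f ∘ g) s := by
  unfold rs; simp [ren_ren]

lemma map_rs_fst (f : ℕ → ℕ) (S : List (Side × ℕ)) :
    (S.map (rs f)).map Prod.fst = (S.map Prod.fst).map (ren f) := by
  simp [List.map_map, Function.comp_def]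
lemma map_rs_snd (f : ℕ → ℕ) (S : List (Side × ℕ)) :
    (S.map (rs f)).map Prod.snd = S.map Prod.snd := by
  simp [List.map_map, Function.comp_def]

lemma cf_eq (S : List (Side × ℕ)) : cf S = S.map (rs (num (S.map Prod.fst))) := rfl

lemma ren_congr' {f g : ℕ → ℕ} {x : Side} (h : ∀ a b, x = arc a b → f a = g a) :
    ren f x = ren g x := by
  cases x with
  | pt i => rfl
  | arc a b => simp [h a b rfl]

lemma cf_rs {S : List (Side × ℕ)} {f : ℕ → ℕ} (h : Set.InjOn f (lab (S.map Prod.fst))) :
    cf (S.map (rs f)) = cf S := by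
  rw [cf_eq, cf_eq, List.map_map, map_rs_fst]
  apply List.map_congr_left
  intro s hs
  simp only [Function.comp_apply, rs_rs]
  unfold rs
  congr 1
  apply ren_congr'
  intro a b hab
  simp only [Function.comp_apply]
  rw [num_ren h ⟨b, ?_⟩]
  rw [← hab]; exact List.mem_map_of_mem hs

/-- canonical words: the first ends are numbered in order, and only arcs with a first end occur -/
def Canonical (l : List Side) : Prop :=
  l.filter isFirst = (List.range (narc l)).map (fun a => arc a false) ∧
    ∀ a b, arc a b ∈ l → a < narc l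

lemma arc_false_inj : Function.Injective (fun a => arc a false) := by
  intro a b h; simpa using h

lemma num_of_firsts {l : List Side} {k a : ℕ}
    (h : l.filter isFirst = (List.range k).map (fun a => arc a false)) (ha : a < k) :
    num l a = a := by
  unfold num
  rw [h]
  have := idxOf_map_of (f := fun a => arc a false) (l := List.range k) (a := a)
    (fun x _ e => arc_false_inj e)
  rw [this]
  have h2 : (List.range k)[a]'(by simpa using ha) = a := by simp
  conv_lhs => rw [← h2]
  exact List.Nodup.idxOf_getElem List.nodup_range a (by simpa using ha)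

lemma cf_eq_self {S : List (Side × ℕ)} (h : Canonical (S.map Prod.fst)) : cf S = S := by
  rw [cf_eq]
  conv_rhs => rw [← List.map_id S]
  apply List.map_congr_left
  intro s hs
  unfold rs
  have : ren (num (S.map Prod.fst)) s.1 = ren id s.1 := by
    apply ren_congr'
    intro a b hab
    rw [num_of_firsts h.1 (h.2 a b (by rw [← hab]; exact List.mem_map_of_mem hs))]; rfl
  rw [this]; simp

/-- the two ends of every arc occur -/
def Full (l : List Side) : Prop := ∀ a b, arc a b ∈ l → arc a (!b) ∈ l

lemma Full.first {l : List Side} (h : Full l) {a : ℕ} {b : Bool} (hb : arc a b ∈ l) :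
    arc a false ∈ l := by
  cases b with
  | false => exact hb
  | true => simpa using h a true hb

lemma Full.lab_iff {l : List Side} (h : Full l) {a : ℕ} : a ∈ lab l ↔ arc a false ∈ l :=
  ⟨fun ⟨_, hb⟩ => h.first hb, fun hb => ⟨false, hb⟩⟩

lemma Full.mem_iff {l : List Side} (h : Full l) {a : ℕ} {b : Bool} :
    arc a b ∈ l ↔ arc a false ∈ l := by
  cases b with
  | false => rfl
  | true => exact ⟨fun hb => h.first hb, fun hb => h a false hb⟩

lemma Full.ren {l : List Side} (h : Full l) (f : ℕ → ℕ) : Full (l.map (ren f)) := by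
  intro a b hab
  rw [List.mem_map] at hab ⊢
  obtain ⟨x, hx, hxa⟩ := hab
  cases x with
  | pt i => simp at hxa
  | arc a' b' =>
    simp only [ren_arc, arc.injEq] at hxa
    refine ⟨arc a' (!b'), h a' b' hx, by simp [hxa.1, hxa.2]⟩

lemma num_lt {l : List Side} (h : Full l) {a : ℕ} (ha : a ∈ lab l) : num l a < narc l := by
  unfold num narc
  apply List.idxOf_lt_length_of_mem
  rw [List.mem_filter]
  exact ⟨h.lab_iff.1 ha, rfl⟩

lemma num_injOn {l : List Side} (h : Full l) : Set.InjOn (num l) (lab l) := by
  intro a ha b hb hab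
  unfold num at hab
  have h1 : arc a false ∈ l.filter isFirst := List.mem_filter.2 ⟨h.lab_iff.1 ha, rfl⟩
  have h2 : arc b false ∈ l.filter isFirst := List.mem_filter.2 ⟨h.lab_iff.1 hb, rfl⟩
  have := (List.idxOf_inj h1).1 hab
  simpa using this

/-- canonical form of a word -/
def cfw (l : List Side) : List Side := l.map (ren (num l))

lemma cf_fst (S : List (Side × ℕ)) : (cf S).map Prod.fst = cfw (S.map Prod.fst) := by
  rw [cf_eq, map_rs_fst]; rfl

lemma map_idxOf_self {α : Type*} [DecidableEq α] {l : List α} (h : l.Nodup) :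
    l.map (fun x => l.idxOf x) = List.range l.length := by
  apply List.ext_getElem
  · simp
  · intro i h1 h2
    simp only [List.getElem_map, List.getElem_range]
    exact List.Nodup.idxOf_getElem h i (by simpa using h1)

lemma filter_isFirst_cfw {l : List Side} (hn : l.Nodup) :
    (cfw l).filter isFirst = (List.range (narc l)).map (fun a => arc a false) := by
  unfold cfw
  rw [filter_isFirst_ren]
  have h1 : (l.filter isFirst).map (ren (num l)) =
      ((l.filter isFirst).map (fun x => (l.filter isFirst).idxOf x)).map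
        (fun a => arc a false) := by
    rw [List.map_map]
    apply List.map_congr_left
    intro x hx
    cases x with
    | pt i => simp [isFirst] at hx
    | arc a b =>
      have : b = false := by simpa [isFirst] using (List.mem_filter.1 hx).2
      subst this
      rfl
  rw [h1, map_idxOf_self (hn.filter _)]
  rfl

lemma canonical_cfw {l : List Side} (hn : l.Nodup) (h : Full l) : Canonical (cfw l) := by
  have hk : narc (cfw l) = narc l := narc_ren _ _
  refine ⟨by rw [hk, filter_isFirst_cfw hn], ?_⟩
  intro a b hab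
  rw [hk]
  unfold cfw at hab
  rw [List.mem_map] at hab
  obtain ⟨x, hx, hxa⟩ := hab
  cases x with
  | pt i => simp at hxa
  | arc a' b' =>
    simp only [ren_arc, arc.injEq] at hxa
    rw [← hxa.1]
    exact num_lt h ⟨b', hx⟩

lemma cfw_ren {l : List Side} {f : ℕ → ℕ} (h : Set.InjOn f (lab l)) :
    cfw (l.map (ren f)) = cfw l := by
  unfold cfw
  rw [List.map_map]
  apply List.map_congr_left
  intro x hx
  simp only [Function.comp_apply, ren_ren]
  apply ren_congr'
  intro a b hab
  simp only [Function.comp_apply]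
  rw [num_ren h ⟨b, ?_⟩]
  rw [← hab]; exact hx

lemma cfw_eq_self {l : List Side} (h : Canonical l) : cfw l = l := by
  unfold cfw
  conv_rhs => rw [← List.map_id l]
  apply List.map_congr_left
  intro x hx
  have : ren (num l) x = ren id x := by
    apply ren_congr'
    intro a b hab
    rw [num_of_firsts h.1 (h.2 a b (by rw [← hab]; exact hx))]; rfl
  rw [this]; simp

lemma nodup_ren {l : List Side} {f : ℕ → ℕ} (hn : l.Nodup) (h : Set.InjOn f (lab l)) :
    (l.map (ren f)).Nodup :=
  List.Nodup.map_on (fun _ hx _ hy e => ren_injOn h hx hy e) hn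

lemma lab_ren (f : ℕ → ℕ) (l : List Side) : lab (l.map (ren f)) = f '' lab l := by
  ext a
  constructor
  · rintro ⟨b, hb⟩
    rw [List.mem_map] at hb
    obtain ⟨x, hx, hxa⟩ := hb
    cases x with
    | pt i => simp at hxa
    | arc a' b' =>
      simp only [ren_arc, arc.injEq] at hxa
      exact ⟨a', ⟨b', hx⟩, hxa.1⟩
  · rintro ⟨a', ⟨b, hb⟩, rfl⟩
    exact ⟨b, List.mem_map.2 ⟨arc a' b, hb, rfl⟩⟩

/-! ### the permutation of a mapped list -/

lemma formPerm_map_apply {α β : Type*} [DecidableEq α] [DecidableEq β] {f : α → β} {l : List α}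
    (hn : l.Nodup) (h : Set.InjOn f {x | x ∈ l}) {x : α} (hx : x ∈ l) :
    (l.map f).formPerm (f x) = f (l.formPerm x) := by
  have hn' : (l.map f).Nodup := List.Nodup.map_on (fun _ hx _ hy e => h hx hy e) hn
  obtain ⟨i, hi, rfl⟩ := List.getElem_of_mem hx
  rw [List.formPerm_apply_getElem l hn i hi]
  have h1 : f l[i] = (l.map f)[i]'(by simpa using hi) := by simp
  rw [h1, List.formPerm_apply_getElem _ hn']
  simp

lemma face_ren {ρ : Perm ℕ} {n : ℕ} {l : List Side} {f : ℕ → ℕ} (hn : l.Nodup)
    (h : Set.InjOn f (lab l)) {x : Side} (hx : x ∈ l) :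
    face ρ n (l.map (ren f)) (ren f x) = ren f (face ρ n l x) := by
  unfold face
  simp only [Perm.coe_mul, Function.comp_apply]
  rw [formPerm_map_apply hn (ren_injOn h) hx, ptPerm_ren, mate_ren]

end ArcC.Da
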