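import Mathlib
import Pool.Agent.Lib.MP_e5080e_gt.Ren

/-! The insertion relation. -/

namespace ArcC.Da

open Equiv Side

/-- `Am j fl S w G`: the list `G` arises from `S` by insertion of the ends of arcs of `w` after
the sides of the region `j`; `fl` tells whether the previous element belongs to the region `j`. -/
inductive Am (j : ℕ) : Bool → List (Side × ℕ) → List Side → List (Side × ℕ) → Prop
  | nil (fl : Bool) : Am j fl [] [] []
  | other {fl : Bool} {S : List (Side × ℕ)} {w : List Side} {G : List (Side × ℕ)} (s : Side × ℕ)
      (h : s.2 ≠ j) : Am j false S w G → Am j fl (s :: S) w (s :: G)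
  | base {fl : Bool} {S : List (Side × ℕ)} {w : List Side} {G : List (Side × ℕ)} (x : Side)
      (i : ℕ) : Am j true S w G → Am j fl ((x, j) :: S) (pt i :: w) ((x, j) :: G)
  | extra {S : List (Side × ℕ)} {w : List Side} {G : List (Side × ℕ)} (a : ℕ) (b : Bool) :
      Am j true S w G → Am j true S (arc a b :: w) ((arc a b, j) :: G)

namespace Am

variable {j : ℕ}

lemma mono {fl : Bool} {S : List (Side × ℕ)} {w : List Side} {G : List (Side × ℕ)}
    (h : Am j fl S w G) : Am j true S w G := by
  cases h with
  | nil => exact nil _
  | other s hs h => exact other s hs h
  | base x i h => exact base x i h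
  | extra a b h => exact extra a b h

lemma extras {S : List (Side × ℕ)} {w : List Side} {G : List (Side × ℕ)}
    (h : Am j true S w G) (e : List Side) (he : ∀ x ∈ e, isPt x = false) :
    Am j true S (e ++ w) (e.map (fun x => (x, j)) ++ G) := by
  induction e with
  | nil => simpa using h
  | cons x e ih =>
    cases x with
    | pt i => have := he (pt i) (by simp); simp [isPt] at this
    | arc a b =>
      simp only [List.cons_append, List.map_cons]
      exact extra a b (ih (fun y hy => he y (by simp [hy])))

lemma not_false_arc {S : List (Side × ℕ)} {a : ℕ} {b : Bool} {w : List Side}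
    {G : List (Side × ℕ)} : ¬ Am j false S (arc a b :: w) G := by
  intro h
  induction S generalizing G with
  | nil => cases h
  | cons s S ih =>
    cases h with
    | other s hs h => exact ih h

lemma unique {fl : Bool} {S : List (Side × ℕ)} {w : List Side} {G G' : List (Side × ℕ)}
    (h : Am j fl S w G) (h' : Am j fl S w G') : G = G' := by
  induction h generalizing G' with
  | nil => cases h'; rfl
  | other s hs h ih =>
    cases h' with
    | other s hs h' => rw [ih h']
    | base x i h' => simp at hs
    | extra a b h' => exact absurd h not_false_arc
  | base x i h ih =>
    cases h' with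
    | other s hs h' => simp at hs
    | base x i h' => rw [ih h']
  | extra a b h ih =>
    cases h' with
    | other s hs h' => exact absurd h' not_false_arc
    | extra a b h' => rw [ih h']

lemma gl_spec (S : List (Side × ℕ)) (w : List Side)
    (h1 : (w.filter isPt).length = (S.filter (fun s => s.2 = j)).length)
    (h2 : ∀ x ∈ w.head?, isPt x) : Am j false S w (gl j S w) := by
  induction S generalizing w with
  | nil =>
    cases w with
    | nil => exact nil _
    | cons x w =>
      have := h2 x (by simp)
      simp [this] at h1
  | cons s S ih =>
    unfold gl
    by_cases hs : s.2 = j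
    · rw [if_pos hs]
      cases w with
      | nil => simp [hs] at h1
      | cons x w =>
        have hx := h2 x (by simp)
        cases x with
        | arc a b => simp [isPt] at hx
        | pt i =>
          simp only [List.tail_cons]
          have h3 : w.filter isPt = (w.dropWhile (fun x => !(isPt x))).filter isPt := by
            conv_lhs => rw [← List.takeWhile_append_dropWhile (p := fun x => !(isPt x)) (l := w)]
            rw [List.filter_append]
            have : (w.takeWhile (fun x => !(isPt x))).filter isPt = [] := by
              rw [List.filter_eq_nil_iff]
              intro y hy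
              have := List.mem_takeWhile_imp hy
              simpa using this
            rw [this]; rfl
          have h4 := ih (w.dropWhile (fun x => !(isPt x))) (by
            rw [← h3]
            simpa [List.filter_cons, hs] using h1) (by
            intro y hy
            have := List.head?_dropWhile_not (fun x => !(isPt x)) w
            rw [Option.mem_def] at hy
            rw [hy] at this
            simpa using this)
          have h5 := h4.mono.extras (w.takeWhile (fun x => !(isPt x))) (by
            intro y hy
            have := List.mem_takeWhile_imp hy
            simpa using this)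
          rw [List.takeWhile_append_dropWhile] at h5
          obtain ⟨s1, s2⟩ := s
          simp only at hs
          subst hs
          exact base _ _ h5
    · rw [if_neg hs]
      exact other s hs (ih w (by simpa [hs] using h1) h2)

/-- the relation from a list with marked extra elements -/
lemma of_list (ext : Side → Bool) (hext : ∀ x, ext x → isPt x = false) {fl : Bool}
    {G : List (Side × ℕ)} {w : List Side} (hj : ∀ s ∈ G, ext s.1 → s.2 = j)
    (hfl : fl = false → ∀ s ∈ G.head?, ext s.1 = false)
    (hc : List.IsChain (fun s t : Side × ℕ => ext t.1 → s.2 = j) G)
    (hw : List.Forall₂ (fun m u => if ext m then u = m else isPt u = true)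
      ((G.filter (fun s => s.2 = j)).map Prod.fst) w) :
    Am j fl (G.filter (fun s => !(ext s.1))) w G := by
  induction G generalizing fl w with
  | nil => simp at hw; subst hw; exact nil _
  | cons s G ih =>
    have hc' : List.IsChain (fun s t : Side × ℕ => ext t.1 → s.2 = j) G := hc.tail
    have hfl' : ∀ t ∈ G.head?, ext t.1 → s.2 = j := by
      intro t ht
      cases G with
      | nil => simp at ht
      | cons t' G =>
        simp at ht; subst ht
        exact (List.isChain_cons_cons.1 hc).1
    obtain ⟨x, r⟩ := s
    by_cases he : ext x
    · have hr : r = j := hj (x, r) (by simp) he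
      subst hr
      have hft : fl = true := by
        cases fl with
        | true => rfl
        | false => have := hfl rfl (x, r) (by simp); simp [he] at this
      subst hft
      cases x with
      | pt i => have := hext _ he; simp [isPt] at this
      | arc a b =>
        simp only [List.filter_cons, he, Bool.not_true, Bool.false_eq_true, ↓reduceIte]
        simp only [List.filter_cons, decide_true, ↓reduceIte, List.map_cons] at hw
        cases w with
        | nil => simp at hw
        | cons u w =>
          rw [List.forall₂_cons] at hw
          simp only [he, ↓reduceIte] at hw
          rw [hw.1]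
          exact extra a b (ih (fun s hs => hj s (by simp [hs])) (by simp) hc' hw.2)
    · simp only [List.filter_cons, he, Bool.not_false, ↓reduceIte]
      by_cases hr : r = j
      · subst hr
        simp only [List.filter_cons, decide_true, ↓reduceIte, List.map_cons] at hw
        cases w with
        | nil => simp at hw
        | cons u w =>
          rw [List.forall₂_cons] at hw
          simp only [he, Bool.false_eq_true, ↓reduceIte] at hw
          cases u with
          | arc a b => simp [isPt] at hw
          | pt i => exact base x i (ih (fun s hs => hj s (by simp [hs])) (by simp) hc' hw.2)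
      · simp only [List.filter_cons, hr, decide_false, Bool.false_eq_true, ↓reduceIte] at hw
        refine other _ hr (ih (fun s hs => hj s (by simp [hs])) (fun _ t ht => ?_) hc' hw)
        by_contra h
        exact hr (hfl' t ht (by simpa using h))

variable {fl : Bool} {S : List (Side × ℕ)} {w : List Side} {G : List (Side × ℕ)}

/-- the elements of the glued list -/
lemma mem_iff (h : Am j fl S w G) (s : Side × ℕ) :
    s ∈ G ↔ s ∈ S ∨ (s.2 = j ∧ isPt s.1 = false ∧ s.1 ∈ w) := by
  induction h with
  | nil => simp
  | other t ht h ih => simp only [List.mem_cons, ih]; tauto
  | base x i h ih =>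
    simp only [List.mem_cons, ih]
    constructor
    · tauto
    · rintro ((h | h) | ⟨h1, h2, h3 | h3⟩)
      · tauto
      · tauto
      · rw [h3] at h2; simp [isPt] at h2
      · tauto
  | extra a b h ih =>
    simp only [List.mem_cons, ih]
    constructor
    · rintro (rfl | h | h)
      · simp [isPt]
      · tauto
      · tauto
    · rintro (h | ⟨h1, h2, h3 | h3⟩)
      · tauto
      · left; exact Prod.ext h3 h1
      · tauto

lemma sublist (h : Am j fl S w G) : List.Sublist S G := by
  induction h with
  | nil => simp
  | other t ht h ih => exact ih.cons_cons _
  | base x i h ih => exact ih.cons_cons _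
  | extra a b h ih => exact ih.cons _

/-- the sublist of old elements -/
lemma filter_old (h : Am j fl S w G) (P : Side → Bool) (hS : ∀ s ∈ S, P s.1)
    (hw : ∀ x ∈ w, isPt x = false → P x = false) : G.filter (fun s => P s.1) = S := by
  induction h with
  | nil => simp
  | other t ht h ih =>
    have h1 : P t.1 = true := hS t (by simp)
    simp only [List.filter_cons, h1, ↓reduceIte]
    rw [ih (fun s hs => hS s (by simp [hs])) hw]
  | base x i h ih =>
    have h1 : P x = true := hS (x, j) (by simp)
    simp only [List.filter_cons, h1, ↓reduceIte]
    rw [ih (fun s hs => hS s (by simp [hs])) (fun s hs => hw s (by simp [hs]))]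
  | extra a b h ih =>
    have h1 : P (arc a b) = false := hw (arc a b) (by simp) rfl
    simp only [List.filter_cons, h1, Bool.false_eq_true, ↓reduceIte]
    rw [ih hS (fun s hs => hw s (by simp [hs]))]

/-- the sublist of the sides of the region `j` -/
lemma filter_reg (h : Am j fl S w G) (φ : Side → Side) (hφ : ∀ a b, φ (arc a b) = arc a b)
    (hp : (w.filter isPt).map φ = (S.filter (fun s => s.2 = j)).map Prod.fst) :
    (G.filter (fun s => s.2 = j)).map Prod.fst = w.map φ := by
  induction h with
  | nil => simp
  | other t ht h ih =>
    rw [List.filter_cons_of_neg (by simpa using ht)] at hp ⊢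
    exact ih hp
  | base x i h ih =>
    simp only [List.filter_cons, isPt_pt, decide_true, ↓reduceIte, List.map_cons,
      List.cons.injEq] at hp ⊢
    exact ⟨hp.1.symm, ih hp.2⟩
  | extra a b h ih =>
    simp only [List.filter_cons, isPt_arc, decide_true, ↓reduceIte, List.map_cons,
      List.cons.injEq, Bool.false_eq_true] at hp ⊢
    exact ⟨(hφ a b).symm, ih hp⟩

lemma filter_ne (h : Am j fl S w G) :
    G.filter (fun s => s.2 ≠ j) = S.filter (fun s => s.2 ≠ j) := by
  induction h with
  | nil => simp
  | other t ht h ih =>
    rw [List.filter_cons_of_pos (by simpa using ht), List.filter_cons_of_pos (by simpa using ht),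
      ih]
  | base x i h ih =>
    rw [List.filter_cons_of_neg (by simp), List.filter_cons_of_neg (by simp), ih]
  | extra a b h ih =>
    rw [List.filter_cons_of_neg (by simp), ih]

lemma head_eq (h : Am j false S w G) : G.head? = S.head? := by
  cases h <;> rfl

end Am

end ArcC.Da
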