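import Mathlib
import Pool.Agent.Lib.MP_e5080e_gt.Am

/-! The boundary permutation of a glued list. -/

namespace ArcC.Da

open Equiv Side

lemma formPerm_insert {α : Type*} [DecidableEq α] (l₁ l₂ : List α) (e y : α)
    (h : (l₁ ++ e :: y :: l₂).Nodup) :
    (l₁ ++ e :: y :: l₂).formPerm = (l₁ ++ e :: l₂).formPerm * swap e y := by
  induction l₁ with
  | nil =>
    cases l₂ with
    | nil => simp
    | cons z l₃ =>
      simp only [List.nil_append, List.nodup_cons, List.mem_cons, not_or] at h
      obtain ⟨⟨hey, hez, hel⟩, ⟨hyz, hyl⟩, hzl, hl⟩ := h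
      simp only [List.nil_append, List.formPerm_cons_cons]
      have h1 : (z :: l₃).formPerm e = e := List.formPerm_apply_of_notMem (by simp [hez, hel])
      have h2 : (z :: l₃).formPerm y = y := List.formPerm_apply_of_notMem (by simp [hyz, hyl])
      have h3 : (z :: l₃).formPerm * swap e y = swap e y * (z :: l₃).formPerm := by
        rw [Equiv.mul_swap_eq_swap_mul, h1, h2]
      have h4 : swap e y * swap y z = swap e z * swap e y := by
        rw [Equiv.mul_swap_eq_swap_mul, swap_apply_right,
          swap_apply_of_ne_of_ne (Ne.symm hez) (Ne.symm hyz)]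
      rw [mul_assoc, h3, ← mul_assoc, ← mul_assoc, h4]
  | cons a l₁ ih =>
    have h' : (l₁ ++ e :: y :: l₂).Nodup := (List.nodup_cons.1 (by simpa using h)).2
    cases l₁ with
    | nil =>
      simp only [List.cons_append, List.nil_append, List.formPerm_cons_cons]
      have := ih h'
      simp only [List.nil_append, List.formPerm_cons_cons] at this
      rw [this, mul_assoc]
    | cons b l₁ =>
      have := ih h'
      simp only [List.cons_append, List.formPerm_cons_cons] at this ⊢
      rw [this, mul_assoc]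

namespace Am

variable {j : ℕ} {fl : Bool} {S : List (Side × ℕ)} {w : List Side} {G : List (Side × ℕ)}

lemma formPerm_eq (h : Am j fl S w G) : ∀ P Q : List Side, (P ++ G.map Prod.fst).Nodup →
    (Q ++ (G.filter (fun s => s.2 = j)).map Prod.fst).Nodup →
    (fl = true → ∃ e P' Q', P = P' ++ [e] ∧ Q = Q' ++ [e]) →
    (P ++ S.map Prod.fst).formPerm⁻¹ * (P ++ G.map Prod.fst).formPerm =
      (Q ++ (S.filter (fun s => s.2 = j)).map Prod.fst).formPerm⁻¹ *
        (Q ++ (G.filter (fun s => s.2 = j)).map Prod.fst).formPerm := by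
  induction h with
  | nil => intro P Q _ _ _; simp
  | @other fl S w G s hs h ih =>
    intro P Q h1 h2 _
    have h3 : ((s :: G).filter (fun s => s.2 = j)) = G.filter (fun s => s.2 = j) :=
      List.filter_cons_of_neg (by simpa using hs)
    have h4 : ((s :: S).filter (fun s => s.2 = j)) = S.filter (fun s => s.2 = j) :=
      List.filter_cons_of_neg (by simpa using hs)
    rw [h3] at h2 ⊢
    rw [h4]
    have := ih (P ++ [s.1]) Q (by simpa using h1) h2 (by simp)
    simpa using this
  | @base fl S w G x i h ih =>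
    intro P Q h1 h2 _
    have h3 : (((x, j) :: G).filter (fun s => s.2 = j)) = (x, j) :: G.filter (fun s => s.2 = j) :=
      List.filter_cons_of_pos (by simp)
    have h4 : (((x, j) :: S).filter (fun s => s.2 = j)) = (x, j) :: S.filter (fun s => s.2 = j) :=
      List.filter_cons_of_pos (by simp)
    rw [h3] at h2 ⊢
    rw [h4]
    have := ih (P ++ [x]) (Q ++ [x]) (by simpa using h1) (by simpa using h2)
      (fun _ => ⟨x, P, Q, rfl, rfl⟩)
    simpa using this
  | @extra S w G a b h ih =>
    intro P Q h1 h2 h0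
    obtain ⟨e, P', Q', rfl, rfl⟩ := h0 rfl
    have h3 : (((arc a b, j) :: G).filter (fun s => s.2 = j)) =
      (arc a b, j) :: G.filter (fun s => s.2 = j) := List.filter_cons_of_pos (by simp)
    rw [h3] at h2 ⊢
    have h5 := ih (P' ++ [e] ++ [arc a b]) (Q' ++ [e] ++ [arc a b]) (by simpa using h1)
      (by simpa using h2) (fun _ => ⟨arc a b, P' ++ [e], Q' ++ [e], rfl, rfl⟩)
    have h6 : (P' ++ [e] ++ [arc a b] ++ S.map Prod.fst).formPerm =
        (P' ++ [e] ++ S.map Prod.fst).formPerm * swap e (arc a b) := by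
      have := formPerm_insert P' (S.map Prod.fst) e (arc a b) (by
        refine List.Nodup.sublist ?_ h1
        simp only [List.append_assoc, List.cons_append, List.nil_append, List.map_cons]
        exact List.Sublist.append_left (((h.sublist.map _).cons_cons _).cons_cons _) _)
      simpa using this
    have h7 : (Q' ++ [e] ++ [arc a b] ++ (S.filter (fun s => s.2 = j)).map Prod.fst).formPerm =
        (Q' ++ [e] ++ (S.filter (fun s => s.2 = j)).map Prod.fst).formPerm *
          swap e (arc a b) := by
      have := formPerm_insert Q' ((S.filter (fun s => s.2 = j)).map Prod.fst) e (arc a b) (by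
        refine List.Nodup.sublist ?_ h2
        simp only [List.append_assoc, List.cons_append, List.nil_append, List.map_cons]
        exact List.Sublist.append_left ((((h.sublist.filter _).map _).cons_cons _).cons_cons _) _)
      simpa using this
    rw [h6, h7, mul_inv_rev, mul_inv_rev, mul_assoc, mul_assoc] at h5
    have h8 := mul_left_cancel h5
    simpa using h8

lemma formPerm_eq' (h : Am j false S w G) (hn : (G.map Prod.fst).Nodup) :
    (G.map Prod.fst).formPerm = (S.map Prod.fst).formPerm *
      (((S.filter (fun s => s.2 = j)).map Prod.fst).formPerm⁻¹ *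
        ((G.filter (fun s => s.2 = j)).map Prod.fst).formPerm) := by
  have := h.formPerm_eq [] [] (by simpa using hn)
    (by simpa using hn.sublist ((List.filter_sublist).map _)) (by simp)
  simp only [List.nil_append] at this
  rw [← this, mul_inv_cancel_left]

end Am

/-! ### transport of the number of cycles -/

lemma zpow_maps {α : Type*} {p : Perm α} {s : Set α} (hs : s.Finite) (hp : ∀ x ∈ s, p x ∈ s)
    (k : ℤ) : ∀ x ∈ s, (p ^ k) x ∈ s := by
  have h1 : Set.MapsTo p s s := hp
  have : Finite s := hs
  have h2 : ∀ x ∈ s, p⁻¹ x ∈ s := fun x hx => Equiv.Perm.perm_symm_mapsTo_of_mapsTo p h1 hx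
  induction k with
  | zero => simp
  | succ k ih => intro x hx; rw [add_comm, zpow_add, zpow_one]; exact hp _ (ih x hx)
  | pred k ih =>
    intro x hx
    rw [sub_eq_add_neg, add_comm, zpow_add, zpow_neg_one]
    exact h2 _ (ih x hx)

lemma ncyc_image {α β : Type*} {p : Perm α} {q : Perm β} {s : Set α} {f : α → β}
    (hs : s.Finite) (hp : ∀ x ∈ s, p x ∈ s) (hf : Set.InjOn f s)
    (hq : ∀ x ∈ s, q (f x) = f (p x)) : ncyc q (f '' s) = ncyc p s := by
  have hz : ∀ k : ℤ, ∀ x ∈ s, (q ^ k) (f x) = f ((p ^ k) x) := by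
    intro k
    induction k with
    | zero => simp
    | succ k ih =>
      intro x hx
      rw [add_comm, zpow_add, zpow_one, zpow_add, zpow_one]
      simp only [Perm.coe_mul, Function.comp_apply]
      rw [ih x hx, hq _ (zpow_maps hs hp _ x hx)]
    | pred k ih =>
      intro x hx
      rw [sub_eq_add_neg, add_comm, zpow_add, zpow_neg_one, zpow_add, zpow_neg_one]
      simp only [Perm.coe_mul, Function.comp_apply]
      rw [ih x hx, Perm.inv_eq_iff_eq, hq]
      · simp
      · have := zpow_maps hs hp (-1) _ (zpow_maps hs hp (-(k : ℤ)) x hx)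
        simpa using this
  unfold ncyc
  symm
  apply Set.ncard_congr (fun c _ => Quotient.mk _ (f (Quotient.out c)))
  · rintro _ ⟨x, hx, rfl⟩
    have h1 : Perm.SameCycle p (Quotient.out (Quotient.mk (Perm.SameCycle.setoid p) x)) x :=
      Quotient.mk_out (s := Perm.SameCycle.setoid p) x
    obtain ⟨k, hk⟩ := h1.symm
    refine ⟨_, ?_, rfl⟩
    rw [← hk]
    exact ⟨_, zpow_maps hs hp k x hx, rfl⟩
  · rintro _ _ ⟨x, hx, rfl⟩ ⟨y, hy, rfl⟩ he
    have h1 : Perm.SameCycle p (Quotient.out (Quotient.mk (Perm.SameCycle.setoid p) x)) x :=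
      Quotient.mk_out (s := Perm.SameCycle.setoid p) x
    have h2 : Perm.SameCycle p (Quotient.out (Quotient.mk (Perm.SameCycle.setoid p) y)) y :=
      Quotient.mk_out (s := Perm.SameCycle.setoid p) y
    obtain ⟨k, hk⟩ := h1.symm
    obtain ⟨l, hl⟩ := h2.symm
    rw [← hk, ← hl] at he
    obtain ⟨m, hm⟩ : Perm.SameCycle q (f ((p ^ k) x)) (f ((p ^ l) y)) := Quotient.exact he
    rw [hz m _ (zpow_maps hs hp k x hx)] at hm
    have h3 := hf (zpow_maps hs hp m _ (zpow_maps hs hp k x hx)) (zpow_maps hs hp l y hy) hm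
    apply Quotient.sound
    show Perm.SameCycle p x y
    refine ⟨-l + m + k, ?_⟩
    rw [zpow_add, zpow_add]
    simp only [Perm.coe_mul, Function.comp_apply]
    rw [h3]; simp
  · rintro _ ⟨_, ⟨x, hx, rfl⟩, rfl⟩
    refine ⟨Quotient.mk _ x, ⟨x, hx, rfl⟩, ?_⟩
    have h1 : Perm.SameCycle p (Quotient.out (Quotient.mk (Perm.SameCycle.setoid p) x)) x :=
      Quotient.mk_out (s := Perm.SameCycle.setoid p) x
    obtain ⟨k, hk⟩ := h1.symm
    apply Quotient.sound
    show Perm.SameCycle q _ _
    rw [← hk, ← hz k x hx]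
    exact (Perm.SameCycle.refl q (f x)).symm.symm.zpow_left

lemma ncyc_congr {α : Type*} {p q : Perm α} {s : Set α} (hs : s.Finite)
    (hp : ∀ x ∈ s, p x ∈ s) (hq : ∀ x ∈ s, q x = p x) : ncyc q s = ncyc p s := by
  have := ncyc_image (f := id) hs hp Function.injective_id.injOn (by simpa using hq)
  simpa using this

end ArcC.Da
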