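import Mathlib
import Pool.Agent.Lib.MP_e5080e_gt.AmFace

/-! Families with arbitrary numbering of the arcs, and the glued family. -/

namespace ArcC.Da

open Equiv Side

/-- A word with arbitrary numbering of the arcs -/
structure RawWord (n : ℕ) (w : List Side) : Prop where
  nodup : w.Nodup
  head : w.head? = some (pt 0)
  pts : w.filter isPt = (List.range n).map pt
  mates : ∀ a b, arc a b ∈ w → List.Sublist [arc a false, arc a true] w

/-- A family with arbitrary numbering of the arcs -/
structure RawFam (F : Surf) (S : List (Side × ℕ)) (be : ℕ →₀ ℕ) (pu : List ℕ) : Prop where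
  word : RawWord F.n (S.map Prod.fst)
  canon : ∀ p r q, S.map Prod.snd = p ++ r :: q → ∀ r' < r, r' ∈ p
  face_reg : ∀ x i, (x, i) ∈ S → (face F.rot F.n (S.map Prod.fst) x, i) ∈ S
  supp : ∀ i, i ∉ S.map Prod.snd → be i = 0
  genus : ∀ i ∈ S.map Prod.snd, ∃ h, be i + 1 = 2 * h +
    ncyc (face F.rot F.n (S.map Prod.fst)) {x | (x, i) ∈ S}
  euler : ((S.map Prod.snd).toFinset.card : ℤ) - (be.sum (fun _ m => m) : ℕ) =
    2 - 2 * F.g - F.r + narc (S.map Prod.fst)
  conn : ∀ i ∈ S.map Prod.snd, Relation.ReflTransGen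
    (fun i j => ∃ a b, (arc a b, i) ∈ S ∧ (arc a (!b), j) ∈ S) 0 i
  punc_len : pu.length = F.s
  punc_mem : ∀ i ∈ pu, i ∈ S.map Prod.snd
  small : narc (S.map Prod.fst) ≠ 0 → ∀ i ∈ S.map Prod.snd, i ∉ pu → be i = 0 →
    3 ≤ (S.map Prod.snd).count i

lemma RawWord.full {n : ℕ} {w : List Side} (h : RawWord n w) : Full w := by
  intro a b hab
  have h1 := (h.mates a b hab).subset
  cases b with
  | false => exact h1 (by simp)
  | true => exact h1 (by simp)

lemma _root_.ArcC.IsWord.rawWord {n k : ℕ} {w : List Side} (h : IsWord n k w) : RawWord n w :=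
  ⟨h.nodup, h.head, h.pts, fun a b hab => h.mates a ((h.mem a b).1 hab)⟩

lemma _root_.ArcC.IsWord.narc_eq {n k : ℕ} {w : List Side} (h : IsWord n k w) : narc w = k := by
  unfold narc; rw [h.firsts]; simp

lemma _root_.ArcC.IsWord.canonical {n k : ℕ} {w : List Side} (h : IsWord n k w) : Canonical w := by
  refine ⟨?_, ?_⟩
  · rw [h.narc_eq]; exact h.firsts
  · intro a b hab; rw [h.narc_eq]; exact (h.mem a b).1 hab

lemma RawWord.isWord {n : ℕ} {w : List Side} (h : RawWord n w) (hc : Canonical w) :
    IsWord n (narc w) w := by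
  have hm : ∀ a, a < narc w → arc a false ∈ w := by
    intro a ha
    have : arc a false ∈ w.filter isFirst := by
      rw [hc.1]; simp [ha]
    exact (List.mem_filter.1 this).1
  refine ⟨h.nodup, h.head, h.pts, hc.1, ?_, ?_⟩
  · intro a b
    refine ⟨hc.2 a b, fun ha => (h.full.mem_iff).2 (hm a ha)⟩
  · intro a ha
    exact h.mates a false (hm a ha)

lemma RawWord.ren {n : ℕ} {w : List Side} (h : RawWord n w) {f : ℕ → ℕ}
    (hf : Set.InjOn f (lab w)) : RawWord n (w.map (ren f)) := by
  refine ⟨nodup_ren h.nodup hf, ?_, ?_, ?_⟩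
  · rw [List.head?_map, h.head]; rfl
  · rw [filter_isPt_ren, h.pts]
  · intro a b hab
    rw [List.mem_map] at hab
    obtain ⟨x, hx, hxa⟩ := hab
    cases x with
    | pt i => simp at hxa
    | arc a' b' =>
      simp only [ren_arc, arc.injEq] at hxa
      have := (h.mates a' b' hx).map (Side.ren f)
      simpa [hxa.1] using this

lemma _root_.ArcC.Fam.IsFam0.rawFam {F : Surf} {α : Fam} (h : α.IsFam0 F) :
    RawFam F α.sides α.betti α.punc where
  word := h.word.rawWord
  canon := h.canon
  face_reg := h.face_reg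
  supp := h.supp
  genus := h.genus
  euler := h.euler
  conn := h.conn
  punc_len := h.punc_len
  punc_mem := h.punc_mem
  small := h.small

lemma RawFam.isFam0 {F : Surf} {S : List (Side × ℕ)} {be : ℕ →₀ ℕ} {pu : List ℕ}
    (h : RawFam F S be pu) (hc : Canonical (S.map Prod.fst)) : Fam.IsFam0 F ⟨S, be, pu⟩ where
  word := h.word.isWord hc
  canon := h.canon
  face_reg := h.face_reg
  supp := h.supp
  genus := h.genus
  euler := h.euler
  conn := h.conn
  punc_len := h.punc_len
  punc_mem := h.punc_mem
  small := h.small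

lemma finite_sidesOf (S : List (Side × ℕ)) (i : ℕ) : {x | (x, i) ∈ S}.Finite := by
  apply (S.map Prod.fst).finite_toSet.subset
  intro x hx
  exact List.mem_map_of_mem (f := Prod.fst) hx

lemma RawFam.rs {F : Surf} {S : List (Side × ℕ)} {be : ℕ →₀ ℕ} {pu : List ℕ}
    (h : RawFam F S be pu) {f : ℕ → ℕ} (hf : Set.InjOn f (lab (S.map Prod.fst))) :
    RawFam F (S.map (rs f)) be pu := by
  have hmem : ∀ x i, (x, i) ∈ S.map (Da.rs f) ↔ ∃ y, (y, i) ∈ S ∧ ren f y = x := by
    intro x i
    rw [List.mem_map]
    constructor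
    · rintro ⟨⟨y, i'⟩, hy, he⟩
      unfold Da.rs at he
      simp only [Prod.mk.injEq] at he
      exact ⟨y, he.2 ▸ hy, he.1⟩
    · rintro ⟨y, hy, rfl⟩
      exact ⟨(y, i), hy, rfl⟩
  have hset : ∀ i, {x | (x, i) ∈ S.map (Da.rs f)} = ren f '' {x | (x, i) ∈ S} := by
    intro i; ext x; simp only [Set.mem_ofPred_eq, hmem, Set.mem_image]
  have hfst : ∀ y i, (y, i) ∈ S → y ∈ S.map Prod.fst := fun y i hy =>
    List.mem_map_of_mem (f := Prod.fst) hy
  constructor
  · rw [map_rs_fst]; exact h.word.ren hf
  · rw [map_rs_snd]; exact h.canon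
  · intro x i hx
    rw [hmem] at hx
    obtain ⟨y, hy, rfl⟩ := hx
    rw [map_rs_fst, face_ren h.word.nodup hf (hfst y i hy), hmem]
    exact ⟨_, h.face_reg y i hy, rfl⟩
  · rw [map_rs_snd]; exact h.supp
  · rw [map_rs_snd]
    intro i hi
    obtain ⟨g, hg⟩ := h.genus i hi
    refine ⟨g, ?_⟩
    rw [hg, hset, map_rs_fst, ncyc_image (finite_sidesOf S i) (fun x hx => h.face_reg x i hx)]
    · intro x hx y hy e
      exact ren_injOn hf (hfst x i hx) (hfst y i hy) e
    · intro x hx
      exact face_ren h.word.nodup hf (hfst x i hx)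
  · rw [map_rs_snd, map_rs_fst, narc_ren]; exact h.euler
  · rw [map_rs_snd]
    intro i hi
    refine Relation.ReflTransGen.mono ?_ _ _ (h.conn i hi)
    rintro i i' ⟨a, b, h1, h2⟩
    exact ⟨f a, b, (hmem _ _).2 ⟨_, h1, rfl⟩, (hmem _ _).2 ⟨_, h2, rfl⟩⟩
  · exact h.punc_len
  · rw [map_rs_snd]; exact h.punc_mem
  · rw [map_rs_snd, map_rs_fst, narc_ren]; exact h.small

lemma RawFam.cf {F : Surf} {S : List (Side × ℕ)} {be : ℕ →₀ ℕ} {pu : List ℕ}
    (h : RawFam F S be pu) : Fam.IsFam0 F ⟨cf S, be, pu⟩ := by
  apply RawFam.isFam0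
  · rw [cf_eq]; exact h.rs (num_injOn h.word.full)
  · rw [cf_fst]; exact canonical_cfw h.word.nodup h.word.full

/-! ### recursive form of the canonical numbering of regions -/

/-- recursive form of the condition on the numbering of the regions -/
def CanonFrom : List ℕ → List ℕ → Prop
  | _, [] => True
  | A, r :: L => (∀ r' < r, r' ∈ A) ∧ CanonFrom (r :: A) L

lemma CanonFrom.mono {A B : List ℕ} {L : List ℕ} (h : CanonFrom A L) (hAB : A ⊆ B) :
    CanonFrom B L := by
  induction L generalizing A B with
  | nil => trivial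
  | cons r L ih =>
    exact ⟨fun r' hr' => hAB (h.1 r' hr'), ih h.2 (List.cons_subset_cons r hAB)⟩

lemma canonFrom_iff {A L : List ℕ} : CanonFrom A L ↔
    ∀ p r q, L = p ++ r :: q → ∀ r' < r, r' ∈ A ∨ r' ∈ p := by
  induction L generalizing A with
  | nil => simp [CanonFrom]
  | cons s L ih =>
    simp only [CanonFrom, ih]
    constructor
    · rintro ⟨h1, h2⟩ p r q he r' hr'
      cases p with
      | nil =>
        simp only [List.nil_append, List.cons.injEq] at he
        left; exact h1 r' (he.1 ▸ hr')
      | cons t p =>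
        simp only [List.cons_append, List.cons.injEq] at he
        rcases h2 p r q he.2 r' hr' with h | h
        · rw [List.mem_cons] at h
          rcases h with h | h
          · right; rw [h, he.1]; simp
          · left; exact h
        · right; simp [h]
    · intro h
      refine ⟨fun r' hr' => ?_, fun p r q he r' hr' => ?_⟩
      · rcases h [] s L rfl r' hr' with h | h
        · exact h
        · simp at h
      · rcases h (s :: p) r q (by rw [he]; rfl) r' hr' with h | h
        · left; simp [h]
        · rw [List.mem_cons] at h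
          rcases h with h | h
          · left; simp [h]
          · right; exact h

namespace Am

variable {j : ℕ} {fl : Bool} {S : List (Side × ℕ)} {w : List Side} {G : List (Side × ℕ)}

lemma canonFrom (h : Am j fl S w G) : ∀ A : List ℕ, (fl = true → ∀ r' < j, r' ∈ A) →
    CanonFrom A (S.map Prod.snd) → CanonFrom A (G.map Prod.snd) := by
  induction h with
  | nil => intro A _ _; trivial
  | other s hs h ih =>
    intro A _ hA
    exact ⟨hA.1, ih _ (by simp) hA.2⟩
  | base x i h ih =>
    intro A _ hA
    exact ⟨hA.1, ih _ (fun _ r' hr' => by simp [hA.1 r' hr']) hA.2⟩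
  | extra a b h ih =>
    intro A h0 hA
    exact ⟨h0 rfl, ih _ (fun _ r' hr' => by simp [h0 rfl r' hr'])
      (hA.mono (List.subset_cons_self _ _))⟩

lemma canon (h : Am j false S w G)
    (hc : ∀ p r q, S.map Prod.snd = p ++ r :: q → ∀ r' < r, r' ∈ p) :
    ∀ p r q, G.map Prod.snd = p ++ r :: q → ∀ r' < r, r' ∈ p := by
  have h1 := (canonFrom_iff (A := [])).1 (h.canonFrom [] (by simp) (canonFrom_iff.2
    (fun p r q he r' hr' => Or.inr (hc p r q he r' hr'))))
  intro p r q he r' hr'
  simpa using h1 p r q he r' hr'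

lemma filter_eq (h : Am j fl S w G) (P : Side × ℕ → Bool)
    (hw : ∀ x ∈ w, isPt x = false → P (x, j) = false) : G.filter P = S.filter P := by
  induction h with
  | nil => simp
  | other t ht h ih => rw [List.filter_cons, List.filter_cons, ih hw]
  | base x i h ih =>
    rw [List.filter_cons, List.filter_cons, ih (fun s hs => hw s (by simp [hs]))]
  | extra a b h ih =>
    rw [List.filter_cons, hw (arc a b) (by simp) rfl, ih (fun s hs => hw s (by simp [hs]))]
    simp

lemma perm (h : Am j fl S w G) :
    G.Perm (S ++ (w.filter (fun x => !(isPt x))).map (fun x => (x, j))) := by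
  induction h with
  | nil => simp
  | other t ht h ih => simpa using ih
  | base x i h ih => simpa [List.filter_cons] using ih
  | extra a b h ih =>
    simp only [List.filter_cons, isPt_arc, Bool.not_false, ↓reduceIte, List.map_cons]
    exact (ih.cons _).trans (List.perm_middle).symm

lemma sublist_extra (h : Am j fl S w G) :
    List.Sublist ((w.filter (fun x => !(isPt x))).map (fun x => (x, j))) G := by
  induction h with
  | nil => simp
  | other t ht h ih => exact ih.cons _
  | base x i h ih => simpa [List.filter_cons] using ih.cons _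
  | extra a b h ih =>
    simp only [List.filter_cons, isPt_arc, Bool.not_false, ↓reduceIte, List.map_cons]
    exact ih.cons_cons _

lemma mem_regs (h : Am j false S w G) (i : ℕ) : i ∈ G.map Prod.snd ↔ i ∈ S.map Prod.snd := by
  constructor
  · intro hi
    rw [List.mem_map] at hi
    obtain ⟨s, hs, rfl⟩ := hi
    rcases (h.mem_iff s).1 hs with h1 | ⟨h1, h2, h3⟩
    · exact List.mem_map_of_mem h1
    · rw [h1]
      -- the region `j` occurs, as an extra element comes after a side of `j`
      have : ∀ {fl S w G}, Am j fl S w G → fl = false → (∃ x ∈ w, isPt x = false) →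
          j ∈ S.map Prod.snd := by
        intro fl S w G h
        induction h with
        | nil => simp
        | other t ht h ih => intro _ h2; simpa using Or.inr (by simpa using ih rfl h2)
        | base x i h ih => intro _ _; simp
        | extra a b h ih => simp
      exact this h rfl ⟨_, h3, h2⟩
  · intro hi
    exact ((h.sublist.map Prod.snd).subset) hi

end Am

end ArcC.Da
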