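import Mathlib
import Pool.Agent.Lib.MP_e5080e_gt.Grad

/-! The level of a code after closing some of the strands. -/

namespace ArcC

open Equiv Code

/-- the level of a code after closing `j` strands -/
noncomputable def levc (ρ : Perm ℕ) (n j : ℕ) (N : Code) : ℤ :=
  Multiplicative.toAdd (grc ρ n j N).2

lemma step_grc (ρ : Perm ℕ) (n j : ℕ) {N : Code} {c : ℕ} (hc : c < kk N) :
    (grc ρ n j N)⁻¹ * grc ρ n j (cdel c N) ∈ StepSet := by
  induction j with
  | zero =>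
    have := step_cdel N c hc
    simp only [grc]
    rwa [mul_inv_rev, mul_assoc, inv_mul_cancel_left]
  | succ j ih => exact step_closeAt ih

/-- the possible changes of a grade under a step -/
lemma step_cases' {g g' : Perm ℕ × Multiplicative ℤ} (h : g⁻¹ * g' ∈ StepSet) :
    (Multiplicative.toAdd g'.2 = Multiplicative.toAdd g.2 ∧ g'.1 = g.1) ∨
    (∃ a b, a ≠ b ∧ Multiplicative.toAdd g'.2 + 1 = Multiplicative.toAdd g.2 ∧
      g'.1 = g.1 * swap a b) ∨
    (Multiplicative.toAdd g'.2 + 2 = Multiplicative.toAdd g.2 ∧ g'.1 = g.1) := by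
  obtain ⟨p, m, rfl⟩ := exists_gd g
  obtain ⟨p', m', rfl⟩ := exists_gd g'
  unfold StepSet at h
  rw [gd_inv, gd_mul] at h
  change (m' = m ∧ p' = p) ∨ (∃ a b, a ≠ b ∧ m' + 1 = m ∧ p' = p * swap a b) ∨
    (m' + 2 = m ∧ p' = p)
  rcases h with h | ⟨a, b, hab, h⟩ | h
  · left
    rw [← gd_one, gd_inj] at h
    exact ⟨by omega, (inv_mul_eq_one.1 h.1).symm⟩
  · right; left
    rw [gd_inj] at h
    refine ⟨a, b, hab, by omega, ?_⟩
    rw [← h.1]; simp
  · right; right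
    rw [gd_inj] at h
    exact ⟨by omega, (inv_mul_eq_one.1 h.1).symm⟩

lemma levc_cases (ρ : Perm ℕ) (n j : ℕ) {N : Code} {c : ℕ} (hc : c < kk N) :
    (levc ρ n j (cdel c N) = levc ρ n j N ∧ (grc ρ n j (cdel c N)).1 = (grc ρ n j N).1) ∨
    (∃ a b, a ≠ b ∧ levc ρ n j (cdel c N) + 1 = levc ρ n j N ∧
      (grc ρ n j (cdel c N)).1 = (grc ρ n j N).1 * swap a b) ∨
    (levc ρ n j (cdel c N) + 2 = levc ρ n j N ∧ (grc ρ n j (cdel c N)).1 = (grc ρ n j N).1) :=
  step_cases' (step_grc ρ n j hc)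

theorem levc_cdel_le {n j : ℕ} (ρ : Perm ℕ) {N : Code} {c : ℕ} (hc : c < kk N) :
    levc ρ n j (cdel c N) ≤ levc ρ n j N := by
  rcases levc_cases ρ n j hc with h | ⟨_, _, _, h⟩ | h <;> omega

lemma grc_cdel {n j : ℕ} {ρ : Perm ℕ} {N : Code} {c : ℕ} (hc : c < kk N)
    (h : levc ρ n j (cdel c N) = levc ρ n j N) : grc ρ n j (cdel c N) = grc ρ n j N := by
  rcases levc_cases ρ n j hc with h' | ⟨_, _, _, h'⟩ | h'
  · exact Prod.ext h'.2 h
  · omega
  · omega

@[simp] lemma levc_zero (ρ : Perm ℕ) (n : ℕ) (N : Code) : levc ρ n 0 N = lev N := by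
  change (0 : ℤ) + (lev N : ℤ) = lev N
  rw [zero_add]

lemma levc_succ (ρ : Perm ℕ) (n j : ℕ) (N : Code) : levc ρ n (j + 1) N =
    levc ρ n j N + if (grc ρ n j N).1 (n - 1 - j) = n - 1 - j then 1 else 0 := rfl

end ArcC
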