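import Mathlib
import Pool.Agent.Lib.MP_e5080e_gt.Defs

/-! The number of cycles of a permutation meeting a finite invariant set. -/

namespace ArcC

open Equiv Equiv.Perm

section general

variable {α β : Type*}

lemma ncard_image_congr {γ δ : Type*} (F : Set α) (g : α → γ) (h : α → δ)
    (hgh : ∀ x ∈ F, ∀ y ∈ F, g x = g y ↔ h x = h y) : (g '' F).ncard = (h '' F).ncard := by
  classical
  rcases F.eq_empty_or_nonempty with rfl | ⟨x0, hx0⟩
  · simp
  let r : γ → α := fun c => if hc : c ∈ g '' F then hc.choose else x0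
  have hr : ∀ x ∈ F, r (g x) ∈ F ∧ g (r (g x)) = g x := by
    intro x hx
    have hc : g x ∈ g '' F := ⟨x, hx, rfl⟩
    simp only [r, dif_pos hc]
    exact hc.choose_spec
  have h1 : h '' F = (fun c => h (r c)) '' (g '' F) := by
    ext d
    constructor
    · rintro ⟨x, hx, rfl⟩
      refine ⟨g x, ⟨x, hx, rfl⟩, ?_⟩
      exact (hgh _ (hr x hx).1 _ hx).mp (hr x hx).2
    · rintro ⟨_, ⟨x, hx, rfl⟩, rfl⟩
      exact ⟨r (g x), (hr x hx).1, rfl⟩
  rw [h1]
  refine (Set.InjOn.ncard_image ?_).symm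
  rintro _ ⟨x, hx, rfl⟩ _ ⟨y, hy, rfl⟩ hxy
  have h2 := (hgh _ (hr x hx).1 _ (hr y hy).1).mpr hxy
  rw [(hr x hx).2, (hr y hy).2] at h2
  exact h2

lemma ncyc_eq_ncard (p : Perm α) (F : Set α) :
    ncyc p F = ((fun x => (Quotient.mk (SameCycle.setoid p) x)) '' F).ncard := rfl

lemma mk_eq_iff (p : Perm α) (x y : α) :
    (Quotient.mk (SameCycle.setoid p) x) = Quotient.mk (SameCycle.setoid p) y ↔
      p.SameCycle x y := Quotient.eq

@[simp] lemma ncyc_empty (p : Perm α) : ncyc p ∅ = 0 := by simp [ncyc]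

lemma ncyc_singleton (p : Perm α) (a : α) : ncyc p {a} = 1 := by simp [ncyc]

/-- two permutations (possibly of different types) with the same same-cycle relation -/
lemma ncyc_congr_rel (p : Perm α) (q : Perm β) (F : Set α) (f : α → β)
    (h : ∀ x ∈ F, ∀ y ∈ F, p.SameCycle x y ↔ q.SameCycle (f x) (f y)) :
    ncyc q (f '' F) = ncyc p F := by
  rw [ncyc_eq_ncard, ncyc_eq_ncard, Set.image_image]
  apply ncard_image_congr
  intro x hx y hy
  rw [mk_eq_iff, mk_eq_iff, h x hx y hy]

lemma sameCycle_iff_nat (r : Perm α) (a b : α) : r.SameCycle a b ↔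
    (∃ n : ℕ, (r ^ n) a = b) ∨ (∃ n : ℕ, (r ^ n) b = a) := by
  constructor
  · rintro ⟨i, rfl⟩
    rcases Int.eq_nat_or_neg i with ⟨n, rfl | rfl⟩
    · exact Or.inl ⟨n, by rw [zpow_natCast]⟩
    · exact Or.inr ⟨n, by rw [zpow_neg, zpow_natCast]; simp⟩
  · rintro (⟨n, hn⟩ | ⟨n, hn⟩)
    · exact ⟨n, by rw [zpow_natCast]; exact hn⟩
    · exact SameCycle.symm ⟨n, by rw [zpow_natCast]; exact hn⟩

/-- the same-cycle relation is the smallest equivalence relation with `x ∼ p x` -/
lemma sameCycle_le (p : Perm α) (R : Setoid α) (h : ∀ x, R x (p x)) {x y : α}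
    (hxy : p.SameCycle x y) : R x y := by
  have hnat : ∀ (n : ℕ) (x : α), R x ((p ^ n) x) := by
    intro n
    induction n with
    | zero => intro x; exact R.refl x
    | succ n ih =>
      intro x
      rw [pow_succ', Perm.mul_apply]
      exact R.trans (ih x) (h _)
  rcases (sameCycle_iff_nat p x y).mp hxy with ⟨n, rfl⟩ | ⟨n, rfl⟩
  · exact hnat n x
  · exact R.symm (hnat n y)

/-- relative version: on an invariant set -/
lemma sameCycle_le_on (p : Perm α) (F : Set α) (hF : ∀ x, x ∈ F ↔ p x ∈ F) (R : α → α → Prop)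
    (hR : Equivalence R) (h : ∀ x ∈ F, R x (p x)) {x y : α} (hx : x ∈ F)
    (hxy : p.SameCycle x y) : R x y ∧ y ∈ F := by
  let S : Setoid α := ⟨fun a b => (a ∈ F ↔ b ∈ F) ∧ (a ∈ F → R a b), by
    constructor
    · intro a; exact ⟨Iff.rfl, fun _ => hR.refl a⟩
    · intro a b hab; exact ⟨hab.1.symm, fun hb => hR.symm (hab.2 (hab.1.mpr hb))⟩
    · intro a b c hab hbc
      exact ⟨hab.1.trans hbc.1, fun ha => hR.trans (hab.2 ha) (hbc.2 (hab.1.mp ha))⟩⟩
  have h1 : S x y := sameCycle_le p S (fun x => ⟨hF x, fun hx => h x hx⟩) hxy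
  exact ⟨h1.2 hx, h1.1.mp hx⟩

/-- a finite set mapped to itself is invariant in both directions -/
lemma inv_of_finite (p : Perm α) {F : Set α} (hfin : F.Finite) (hF : ∀ x ∈ F, p x ∈ F) (x : α) :
    x ∈ F ↔ p x ∈ F := by
  refine ⟨hF x, fun h => ?_⟩
  have h1 : p '' F ⊆ F := by rintro _ ⟨y, hy, rfl⟩; exact hF y hy
  have h2 : p '' F = F :=
    Set.eq_of_subset_of_ncard_le h1 (by rw [Set.ncard_image_of_injective _ p.injective]) hfin
  rw [← h2] at h
  obtain ⟨y, hy, hyx⟩ := h
  rwa [← p.injective hyx]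

lemma sameCycle_mem (p : Perm α) {F : Set α} (hfin : F.Finite) (hF : ∀ x ∈ F, p x ∈ F)
    {x y : α} (hx : x ∈ F) (h : p.SameCycle x y) : y ∈ F :=
  (sameCycle_le_on p F (inv_of_finite p hfin hF) (fun _ _ => True)
    ⟨fun _ => trivial, fun _ => trivial, fun _ _ => trivial⟩ (fun _ _ => trivial) hx h).2

/-- renaming -/
lemma ncyc_image {p : Perm α} {q : Perm β} {F : Set α} (hfin : F.Finite)
    (hF : ∀ x ∈ F, p x ∈ F) (f : α → β) (hf : Set.InjOn f F)
    (h : ∀ x ∈ F, q (f x) = f (p x)) : ncyc q (f '' F) = ncyc p F := by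
  have hinv := inv_of_finite p hfin hF
  have hnat : ∀ (n : ℕ) (x : α), x ∈ F → (p ^ n) x ∈ F ∧ (q ^ n) (f x) = f ((p ^ n) x) := by
    intro n
    induction n with
    | zero => intro x hx; simpa using hx
    | succ n ih =>
      intro x hx
      obtain ⟨h1, h2⟩ := ih x hx
      rw [pow_succ', Perm.mul_apply, pow_succ', Perm.mul_apply]
      exact ⟨hF _ h1, by rw [h2, h _ h1]⟩
  have key : ∀ x ∈ F, ∀ y ∈ F, ∀ n : ℕ, (p ^ n) x = y ↔ (q ^ n) (f x) = f y := by
    intro x hx y hy n
    rw [(hnat n x hx).2]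
    exact ⟨fun h => by rw [h], fun h => hf (hnat n x hx).1 hy h⟩
  apply ncyc_congr_rel
  intro x hx y hy
  rw [sameCycle_iff_nat, sameCycle_iff_nat]
  simp only [key x hx y hy, key y hy x hx]

/-- congruence -/
lemma ncyc_congr {p q : Perm α} {F : Set α} (hfin : F.Finite) (hF : ∀ x ∈ F, p x ∈ F)
    (h : ∀ x ∈ F, q x = p x) : ncyc q F = ncyc p F := by
  have := ncyc_image (p := p) (q := q) hfin hF id (Set.injOn_id F) h
  simpa using this

/-- additivity -/
lemma ncyc_union (p : Perm α) {F G : Set α} (hF : F.Finite) (hG : G.Finite)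
    (hpF : ∀ x ∈ F, p x ∈ F) (hFG : Disjoint F G) :
    ncyc p (F ∪ G) = ncyc p F + ncyc p G := by
  rw [ncyc_eq_ncard, Set.image_union, Set.ncard_union_eq _ (hF.image _) (hG.image _)]
  · rfl
  rw [Set.disjoint_left]
  rintro _ ⟨x, hx, rfl⟩ ⟨y, hy, hyx⟩
  have h1 : p.SameCycle x y := ((mk_eq_iff p y x).mp hyx).symm
  exact Set.disjoint_left.mp hFG (sameCycle_mem p hF hpF hx h1) hy

/-- a subset meeting every cycle -/
lemma ncyc_subset (p : Perm α) {F G : Set α} (hFG : F ⊆ G)
    (h : ∀ x ∈ G, ∃ y ∈ F, p.SameCycle x y) : ncyc p F = ncyc p G := by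
  rw [ncyc_eq_ncard, ncyc_eq_ncard]
  congr 1
  apply Set.Subset.antisymm (Set.image_mono hFG)
  rintro _ ⟨x, hx, rfl⟩
  obtain ⟨y, hy, hxy⟩ := h x hx
  exact ⟨y, hy, ((mk_eq_iff p x y).mpr hxy).symm⟩

/-- finite orbits -/
lemma exists_pow_eq (p : Perm α) {F : Set α} (hfin : F.Finite) (hF : ∀ x ∈ F, p x ∈ F) {a : α}
    (ha : a ∈ F) : ∃ n : ℕ, 0 < n ∧ (p ^ n) a = a := by
  have h1 : ∀ n : ℕ, (p ^ n) a ∈ F := by
    intro n
    induction n with
    | zero => simpa using ha
    | succ n ih => rw [pow_succ', Perm.mul_apply]; exact hF _ ih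
  have h2 : ¬ Function.Injective (fun n : ℕ => (⟨(p ^ n) a, h1 n⟩ : F)) := by
    intro hinj
    have : Finite F := hfin
    exact not_injective_infinite_finite _ hinj
  rw [Function.Injective] at h2
  push Not at h2
  obtain ⟨i, j, hij, hne⟩ := h2
  have hij' : (p ^ i) a = (p ^ j) a := congrArg Subtype.val hij
  have key : ∀ i j : ℕ, i < j → (p ^ i) a = (p ^ j) a → ∃ n : ℕ, 0 < n ∧ (p ^ n) a = a := by
    intro i j hlt h
    refine ⟨j - i, by omega, ?_⟩
    apply (p ^ i).injective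
    rw [← Perm.mul_apply, ← pow_add, Nat.add_sub_cancel' hlt.le]
    exact h.symm
  rcases lt_or_gt_of_ne hne with h | h
  · exact key i j h hij'
  · exact key j i h hij'.symm

/-- in a finite invariant set the same-cycle relation is given by positive powers -/
lemma exists_pos_pow (p : Perm α) {F : Set α} (hfin : F.Finite) (hF : ∀ x ∈ F, p x ∈ F) {a b : α}
    (ha : a ∈ F) (h : p.SameCycle a b) : ∃ n : ℕ, 0 < n ∧ (p ^ n) a = b := by
  obtain ⟨m, hm, hma⟩ := exists_pow_eq p hfin hF ha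
  obtain ⟨i, hi⟩ := h
  have hmz : ∀ k : ℤ, (p ^ ((m : ℤ) * k)) a = a := by
    intro k
    have h1 : (p ^ (m : ℤ)) a = a := by rw [zpow_natCast]; exact hma
    rw [zpow_mul]
    exact Perm.zpow_apply_eq_self_of_apply_eq_self h1 k
  have h2 : (0 : ℤ) < i % m + m := by
    have := Int.emod_nonneg i (by omega : (m : ℤ) ≠ 0); omega
  refine ⟨(i % m + m).toNat, by omega, ?_⟩
  rw [← zpow_natCast, Int.toNat_of_nonneg h2.le]
  have h3 : i = (i % m + m) + m * (i / m - 1) := by
    have := Int.emod_add_mul_ediv i m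
    rw [mul_sub]; linarith
  rw [← hi]
  conv_rhs => rw [h3, zpow_add, Perm.mul_apply, hmz]

variable [DecidableEq α]

lemma swap_mul_inv (p : Perm α) {F : Set α} (hF : ∀ x ∈ F, p x ∈ F) {a b : α} (ha : a ∈ F)
    (hb : b ∈ F) : ∀ x ∈ F, (swap a b * p) x ∈ F := by
  intro x hx
  rw [Perm.mul_apply]
  by_cases h1 : p x = a
  · rw [h1, swap_apply_left]; exact hb
  · by_cases h2 : p x = b
    · rw [h2, swap_apply_right]; exact ha
    · rw [swap_apply_of_ne_of_ne h1 h2]; exact hF x hx

/-- the iterates before the first visit of `a` or `b` -/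
lemma pow_swap_mul (p : Perm α) (a b x : α) (n : ℕ)
    (h : ∀ i, 0 < i → i < n → (p ^ i) x ≠ a ∧ (p ^ i) x ≠ b) :
    ∀ i, i < n → ((swap a b * p) ^ i) x = (p ^ i) x := by
  intro i
  induction i with
  | zero => intro _; simp
  | succ i ih =>
    intro hi
    rw [pow_succ', Perm.mul_apply, ih (by omega), Perm.mul_apply]
    have h1 := h (i + 1) (by omega) hi
    rw [pow_succ', Perm.mul_apply] at h1 ⊢
    exact swap_apply_of_ne_of_ne h1.1 h1.2

/-- exactly one of the two permutations has `a`, `b` in the same cycle: first part -/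
lemma not_sameCycle_swap_mul (p : Perm α) {F : Set α} (hfin : F.Finite) (hF : ∀ x ∈ F, p x ∈ F)
    {a b : α} (ha : a ∈ F) (hab : a ≠ b) (h : p.SameCycle a b) :
    ¬ (swap a b * p).SameCycle a b := by
  classical
  have hex := exists_pos_pow p hfin hF ha h
  set n := Nat.find hex with hn
  obtain ⟨hn0, hnb⟩ := Nat.find_spec hex
  have hmin : ∀ i, i < n → ¬ (0 < i ∧ (p ^ i) a = b) := fun i hi => Nat.find_min hex hi
  have hint : ∀ i, 0 < i → i < n → (p ^ i) a ≠ a ∧ (p ^ i) a ≠ b := by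
    intro i hi hin
    refine ⟨fun h1 => ?_, fun h1 => hmin i hin ⟨hi, h1⟩⟩
    apply hmin (n - i) (by omega)
    refine ⟨by omega, ?_⟩
    have h2 : (p ^ (n - i)) ((p ^ i) a) = b := by
      rw [← Perm.mul_apply, ← pow_add, Nat.sub_add_cancel hin.le]; exact hnb
    rwa [h1] at h2
  have hpow := pow_swap_mul p a b a n hint
  -- the orbit of a under the new permutation
  have hret : ((swap a b * p) ^ n) a = a := by
    obtain ⟨m, hm⟩ : ∃ m, n = m + 1 := ⟨n - 1, by omega⟩
    rw [hm, pow_succ', Perm.mul_apply, hpow m (by omega), Perm.mul_apply, ← Perm.mul_apply p,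
      ← pow_succ', ← hm, hnb, swap_apply_right]
  intro hsc
  obtain ⟨i, hi⟩ := hsc
  have hmz : ∀ k : ℤ, ((swap a b * p) ^ ((n : ℤ) * k)) a = a := by
    intro k
    have h1 : ((swap a b * p) ^ (n : ℤ)) a = a := by rw [zpow_natCast]; exact hret
    rw [zpow_mul]
    exact Perm.zpow_apply_eq_self_of_apply_eq_self h1 k
  have h0 := Int.emod_nonneg i (by omega : (n : ℤ) ≠ 0)
  have hlt := Int.emod_lt_of_pos i (by omega : (0 : ℤ) < n)
  have h3 : i = (i % n) + n * (i / n) := (Int.emod_add_mul_ediv i n).symm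
  rw [h3, zpow_add, Perm.mul_apply, hmz] at hi
  obtain ⟨j, hj⟩ := Int.eq_ofNat_of_zero_le h0
  rw [hj, zpow_natCast] at hi
  have hjn : j < n := by omega
  rw [hpow j hjn] at hi
  rcases Nat.eq_zero_or_pos j with h4 | h4
  · rw [h4] at hi; exact hab (by simpa using hi)
  · exact (hint j h4 hjn).2 hi

/-- second part -/
lemma sameCycle_swap_mul (p : Perm α) {F : Set α} (hfin : F.Finite) (hF : ∀ x ∈ F, p x ∈ F)
    {a b : α} (ha : a ∈ F) (h : ¬ p.SameCycle a b) :
    (swap a b * p).SameCycle a b := by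
  classical
  have hex := exists_pow_eq p hfin hF ha
  set n := Nat.find hex with hn
  obtain ⟨hn0, hna⟩ := Nat.find_spec hex
  have hmin : ∀ i, i < n → ¬ (0 < i ∧ (p ^ i) a = a) := fun i hi => Nat.find_min hex hi
  have hint : ∀ i, 0 < i → i < n → (p ^ i) a ≠ a ∧ (p ^ i) a ≠ b := by
    intro i hi hin
    refine ⟨fun h1 => hmin i hin ⟨hi, h1⟩, fun h1 => ?_⟩
    exact h ⟨i, by rw [zpow_natCast]; exact h1⟩
  have hpow := pow_swap_mul p a b a n hint
  refine ⟨n, ?_⟩
  rw [zpow_natCast]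
  obtain ⟨m, hm⟩ : ∃ m, n = m + 1 := ⟨n - 1, by omega⟩
  rw [hm, pow_succ', Perm.mul_apply, hpow m (by omega), Perm.mul_apply, ← Perm.mul_apply p,
    ← pow_succ', ← hm, hna, swap_apply_left]

/-- merging two cycles -/
lemma ncyc_swap_mul_merge (p : Perm α) {F : Set α} (hfin : F.Finite) (hF : ∀ x ∈ F, p x ∈ F)
    {a b : α} (ha : a ∈ F) (hb : b ∈ F) (h : ¬ p.SameCycle a b) :
    ncyc (swap a b * p) F + 1 = ncyc p F := by
  set q := swap a b * p with hq
  have hsc : q.SameCycle a b := sameCycle_swap_mul p hfin hF ha h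
  have hFi := inv_of_finite p hfin hF
  set C : Set α := {x | p.SameCycle a x} with hC
  have hCF : C ⊆ F := fun x hx => sameCycle_mem p hfin hF ha hx
  have hCp : ∀ x, x ∈ C ↔ p x ∈ C := fun x => (sameCycle_apply_right (f := p) (x := a) (y := x)).symm
  -- p-step is contained in the q-relation
  have hpq : ∀ x y, p.SameCycle x y → q.SameCycle x y := by
    intro x y hxy
    refine sameCycle_le p (SameCycle.setoid q) (fun z => ?_) hxy
    change q.SameCycle z (p z)
    have hz : q.SameCycle z (q z) := ⟨1, by simp⟩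
    have hqz : q z = swap a b (p z) := rfl
    by_cases h1 : p z = a
    · rw [hqz, h1, swap_apply_left] at hz
      rw [h1]; exact hz.trans hsc.symm
    · by_cases h2 : p z = b
      · rw [hqz, h2, swap_apply_right] at hz
        rw [h2]; exact hz.trans hsc
      · rw [hqz, swap_apply_of_ne_of_ne h1 h2] at hz
        exact hz
  -- the q-relation is contained in the relation E
  have hqE : ∀ x y, q.SameCycle x y → p.SameCycle x y ∨
      ((p.SameCycle a x ∨ p.SameCycle b x) ∧ (p.SameCycle a y ∨ p.SameCycle b y)) := by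
    intro x y hxy
    let E : Setoid α := ⟨fun x y => p.SameCycle x y ∨
      ((p.SameCycle a x ∨ p.SameCycle b x) ∧ (p.SameCycle a y ∨ p.SameCycle b y)), by
      constructor
      · intro x; exact Or.inl (SameCycle.refl _ _)
      · rintro x y (h1 | h1)
        · exact Or.inl h1.symm
        · exact Or.inr ⟨h1.2, h1.1⟩
      · rintro x y z (h1 | h1) (h2 | h2)
        · exact Or.inl (h1.trans h2)
        · exact Or.inr ⟨h2.1.imp (fun h => h.trans h1.symm) (fun h => h.trans h1.symm), h2.2⟩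
        · exact Or.inr ⟨h1.1, h1.2.imp (fun h => h.trans h2) (fun h => h.trans h2)⟩
        · exact Or.inr ⟨h1.1, h2.2⟩⟩
    have : E x y := by
      refine sameCycle_le q E (fun z => ?_) hxy
      change p.SameCycle z (q z) ∨ _
      have hz : p.SameCycle z (p z) := ⟨1, by simp⟩
      have hqz : q z = swap a b (p z) := rfl
      by_cases h1 : p z = a
      · right
        rw [h1] at hz
        rw [hqz, h1, swap_apply_left]
        exact ⟨Or.inl hz.symm, Or.inr (SameCycle.refl _ _)⟩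
      · by_cases h2 : p z = b
        · right
          rw [h2] at hz
          rw [hqz, h2, swap_apply_right]
          exact ⟨Or.inr hz.symm, Or.inl (SameCycle.refl _ _)⟩
        · rw [hqz, swap_apply_of_ne_of_ne h1 h2]
          exact Or.inl hz
    exact this
  have hsplit : F = C ∪ (F \ C) := by rw [Set.union_sdiff_cancel hCF]
  have hCfin : C.Finite := hfin.subset hCF
  have h1 : ncyc p F = ncyc p C + ncyc p (F \ C) := by
    conv_lhs => rw [hsplit]
    exact ncyc_union p hCfin hfin.sdiff (fun x hx => (hCp x).mp hx) Set.disjoint_sdiff_right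
  have h2 : ncyc p C = 1 := by
    rw [← ncyc_singleton p a]
    symm
    apply ncyc_subset
    · rintro _ rfl; exact SameCycle.refl _ _
    · intro x hx; exact ⟨a, rfl, SameCycle.symm hx⟩
  have h3 : ncyc q F = ncyc q (F \ C) := by
    symm
    apply ncyc_subset q Set.sdiff_subset
    intro x hx
    by_cases hxC : x ∈ C
    · exact ⟨b, ⟨hb, h⟩, (hpq _ _ (SameCycle.symm hxC)).trans hsc⟩
    · exact ⟨x, ⟨hx, hxC⟩, SameCycle.refl _ _⟩
  have h4 : ncyc q (F \ C) = ncyc p (F \ C) := by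
    have := ncyc_congr_rel p q (F \ C) id (by
      intro x hx y hy
      refine ⟨hpq x y, fun hxy => ?_⟩
      rcases hqE x y hxy with h5 | ⟨h5, h6⟩
      · exact h5
      · rcases h5 with h5 | h5
        · exact absurd h5 hx.2
        · rcases h6 with h6 | h6
          · exact absurd h6 hy.2
          · exact h5.symm.trans h6)
    simpa using this
  omega

/-- splitting a cycle -/
lemma ncyc_swap_mul_split (p : Perm α) {F : Set α} (hfin : F.Finite) (hF : ∀ x ∈ F, p x ∈ F)
    {a b : α} (ha : a ∈ F) (hb : b ∈ F) (hab : a ≠ b) (h : p.SameCycle a b) :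
    ncyc (swap a b * p) F = ncyc p F + 1 := by
  have h1 := not_sameCycle_swap_mul p hfin hF ha hab h
  have h2 := ncyc_swap_mul_merge (swap a b * p) hfin (swap_mul_inv p hF ha hb) ha hb h1
  rw [← mul_assoc, swap_mul_self, one_mul] at h2
  exact h2.symm

/-- removing a point -/
lemma ncyc_remove (p : Perm α) {F : Set α} (hfin : F.Finite) (hF : ∀ x ∈ F, p x ∈ F)
    {s : α} (hs : s ∈ F) :
    ncyc p F = ncyc (swap s (p s) * p) (F \ {s}) + (if p s = s then 1 else 0) := by
  have hfix : ∀ (q : Perm α), (∀ x ∈ F, q x ∈ F) → q s = s → ncyc q F = ncyc q (F \ {s}) + 1 := by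
    intro q hq hqs
    have hsplit : F = {s} ∪ (F \ {s}) := by
      rw [Set.union_sdiff_cancel (Set.singleton_subset_iff.mpr hs)]
    conv_lhs => rw [hsplit]
    rw [ncyc_union q (Set.finite_singleton s) hfin.sdiff _ Set.disjoint_sdiff_right,
      ncyc_singleton, add_comm]
    rintro _ rfl
    rw [hqs]; rfl
  split_ifs with h
  · rw [h, swap_self]
    have : (Equiv.refl α : Perm α) * p = p := one_mul p
    rw [this]
    exact hfix p hF h
  · rw [add_zero]
    have h1 : p.SameCycle s (p s) := ⟨1, by simp⟩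
    have h2 := ncyc_swap_mul_split p hfin hF hs (hF s hs) (fun h' => h h'.symm) h1
    have h3 := hfix (swap s (p s) * p) (swap_mul_inv p hF hs (hF s hs)) (by simp)
    omega

omit [DecidableEq α] in
/-- conjugation -/
lemma ncyc_conj (p g : Perm α) (F : Set α) (hfin : F.Finite) (hF : ∀ x ∈ F, p x ∈ F) :
    ncyc (g * p * g⁻¹) (g '' F) = ncyc p F :=
  ncyc_image hfin hF g g.injective.injOn (fun x _ => by simp)

end general

end ArcC
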