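import Mathlib
import Pool.Agent.Lib.MP_e5080e_gt.AllOpen2
import Pool.Agent.Lib.MP_e5080e_gt.Levc
import Pool.Agent.Lib.MP_e5080e_gt.Ncyc

/-! Closures of strands and numbers of cycles. -/

namespace ArcC

open Equiv Code

lemma grc_zero_fst (ρ : Perm ℕ) (n : ℕ) (N : Code) : (grc ρ n 0 N).1 = ρ * nu N := rfl

lemma grc_succ_fst (ρ : Perm ℕ) (n j : ℕ) (N : Code) : (grc ρ n (j + 1) N).1 =
    swap (n - 1 - j) ((grc ρ n j N).1 (n - 1 - j)) * (grc ρ n j N).1 := rfl

theorem grc_fix {n j : ℕ} {ρ : Perm ℕ} (hρ : ∀ x, n ≤ x → ρ x = x) {N : Code} (hN : wf n N)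
    (hj : j ≤ n) {x : ℕ} (hx : n - j ≤ x) : (grc ρ n j N).1 x = x := by
  induction j generalizing x with
  | zero =>
    rw [grc_zero_fst, Perm.mul_apply, nu_fix hN (by omega), hρ x (by omega)]
  | succ j ih =>
    rw [grc_succ_fst, Perm.mul_apply]
    rcases Nat.eq_or_lt_of_le (show n - 1 - j ≤ x by omega) with h | h
    · rw [← h, swap_apply_right]
    · have h1 : (grc ρ n j N).1 x = x := ih (by omega) (by omega)
      have h2 : (grc ρ n j N).1 (n - 1 - j) ≠ x := by
        intro h3
        have := (grc ρ n j N).1.injective (h3.trans h1.symm)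
        omega
      rw [h1, swap_apply_of_ne_of_ne (by omega) h2.symm]

lemma lt_of_fix {n : ℕ} {p : Perm ℕ} (hp : ∀ x, n ≤ x → p x = x) {x : ℕ} (hx : x < n) :
    p x < n := by
  by_contra h
  have h1 := hp (p x) (by omega)
  have h2 := p.injective h1
  omega

theorem grc_ncyc {n j : ℕ} {ρ : Perm ℕ} (hρ : ∀ x, n ≤ x → ρ x = x) {N : Code} (hN : wf n N)
    (hj : j ≤ n) : levc ρ n j N + (ncyc (grc ρ n j N).1 (Set.Iio (n - j)) : ℤ) =
      lev N + ncyc (ρ * nu N) (Set.Iio n) := by
  induction j with
  | zero => rw [levc_zero, grc_zero_fst, Nat.sub_zero]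
  | succ j ih =>
    rw [← ih (by omega), grc_succ_fst, levc_succ]
    have h1 : ∀ x ∈ Set.Iio (n - j), (grc ρ n j N).1 x ∈ Set.Iio (n - j) := fun x hx =>
      lt_of_fix (fun y hy => grc_fix hρ hN (by omega) hy) hx
    have h2 := ncyc_remove (grc ρ n j N).1 (Set.finite_Iio (n - j)) h1
      (s := n - 1 - j) (by rw [Set.mem_Iio]; omega)
    have h3 : Set.Iio (n - j) \ {n - 1 - j} = Set.Iio (n - (j + 1)) := by
      ext x
      simp only [Set.mem_sdiff, Set.mem_Iio, Set.mem_singleton_iff]
      omega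
    rw [h3] at h2
    rw [h2]
    push_cast
    split_ifs <;> ring

lemma nu_one_of_kk {N : Code} (h : kk N = 0) : nu N = 1 ∧ cc N = 0 := by
  induction N with
  | nil => exact ⟨rfl, rfl⟩
  | emp N ih =>
    obtain ⟨h1, h2⟩ := ih h
    refine ⟨?_, h2⟩
    change sh (nu N) = 1
    rw [h1]
    ext x
    cases x with
    | zero => rfl
    | succ x => rw [sh_succ]; rfl
  | ch i N _ => simp [kk] at h

theorem parity_codes {n : ℕ} {ρ : Perm ℕ} (hρ : ∀ x, n ≤ x → ρ x = x) {N : Code} (hN : wf n N) :
    (lev N + ncyc (ρ * nu N) (Set.Iio n)) % 2 = ncyc ρ (Set.Iio n) % 2 := by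
  induction hk : kk N generalizing N with
  | zero =>
    obtain ⟨h1, h2⟩ := nu_one_of_kk hk
    rw [h1, mul_one, lev, hk, h2, zero_add, zero_add]
  | succ k ih =>
    have hc : 0 < kk N := by omega
    have hN' : wf n (cdel 0 N) := wf_cdel hN hc
    have hk' := kk_cdel hc
    have h := ih hN' (by omega)
    rcases step_cases hc with ⟨h1, h2⟩ | ⟨a, b, hab, h1, h2⟩ | ⟨h1, h2⟩
    · rw [← h, h1, h2]
    · have hn : ∀ x, n ≤ x → swap a b x = x := by
        intro x hx
        have h3 : nu (cdel 0 N) x = x := nu_fix hN' hx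
        have h4 : nu N x = x := nu_fix hN hx
        rw [h2, Perm.mul_apply] at h3
        exact (nu N).injective (h3.trans h4.symm)
      have ha : a < n := by
        by_contra h3
        have := hn a (by omega)
        rw [swap_apply_left] at this
        exact hab this.symm
      have hb : b < n := by
        by_contra h3
        have := hn b (by omega)
        rw [swap_apply_right] at this
        exact hab this
      set p := ρ * nu N with hp
      have hpf : ∀ x, n ≤ x → p x = x := by
        intro x hx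
        rw [hp, Perm.mul_apply, nu_fix hN hx, hρ x hx]
      have hpF : ∀ x ∈ Set.Iio n, p x ∈ Set.Iio n := fun x hx => lt_of_fix hpf hx
      have h3 : ρ * nu (cdel 0 N) = swap (p a) (p b) * p := by
        rw [h2, ← mul_assoc, ← hp, swap_apply_apply, mul_assoc, mul_assoc, inv_mul_cancel,
          mul_one]
      rw [h3] at h
      by_cases hs : p.SameCycle (p a) (p b)
      · have h4 := ncyc_swap_mul_split p (Set.finite_Iio n) hpF (hpF a ha) (hpF b hb)
          (fun h' => hab (p.injective h')) hs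
        rw [h4] at h
        omega
      · have h4 := ncyc_swap_mul_merge p (Set.finite_Iio n) hpF (hpF a ha) (hpF b hb) hs
        omega
    · rw [h2] at h
      omega

end ArcC
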