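import Mathlib
import Pool.Agent.Lib.MP_e5080e_gt.AllOpen2
import Pool.Agent.Lib.MP_e5080e_gt.Levc

/-! The acyclicity theorem after closing some of the strands. -/

namespace ArcC

open Equiv Code

section

variable {A : Type*} [AddCommGroup A]

/-- the square of the part of the boundary preserving a monotone function -/
lemma flt_cbd_flt_cbdZ {m : ℤ} {f : Code → ℤ} (hf : ∀ N c, c < kk N → f (cdel c N) ≤ f N)
    {x : Code →₀ A} (hx : ∀ N, x N ≠ 0 → f N ≤ m) :
    flt (fun N => f N = m) (cbd A (flt (fun N => f N = m) (cbd A x))) = 0 := by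
  have e : cbd A x = flt (fun N => f N = m) (cbd A x) + flt (fun N => f N < m) (cbd A x) := by
    ext N
    rw [Finsupp.add_apply]
    by_cases h : f N = m
    · rw [flt_apply_pos (p := fun N => f N = m) _ h,
        flt_apply_neg (p := fun N => f N < m) _ (by omega), add_zero]
    · rw [flt_apply_neg (p := fun N => f N = m) _ h, zero_add]
      by_cases h2 : f N < m
      · rw [flt_apply_pos (p := fun N => f N < m) _ h2]
      · rw [flt_apply_neg (p := fun N => f N < m) _ h2]
        by_contra h3
        obtain ⟨N', hN', c, hc, rfl⟩ := cbd_ne h3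
        have := hx N' hN'
        have := hf N' c hc
        omega
  have h0 := cbd_cbd x
  have h1 : flt (fun N => f N = m) (cbd A (flt (fun N => f N < m) (cbd A x))) = 0 := by
    refine flt_cbd_zero fun N hN c hc h => ?_
    have := (flt_ne hN).1
    have := hf N c hc
    omega
  rw [e, map_add] at h0
  have h2 := congrArg (flt (fun N => f N = m)) h0
  rw [map_add, h1, add_zero, map_zero] at h2
  exact h2

lemma flt_add_flt_not (p : Code → Prop) (x : Code →₀ A) :
    x = flt p x + flt (fun N => ¬ p N) x := by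
  ext N
  rw [Finsupp.add_apply]
  by_cases h : p N
  · rw [flt_apply_pos _ h, flt_apply_neg (p := fun N => ¬ p N) _ (by simpa using h), add_zero]
  · rw [flt_apply_neg _ h, flt_apply_pos (p := fun N => ¬ p N) _ h, zero_add]

theorem AO_closed {n j : ℕ} (ρ : Perm ℕ) (hj : j + 2 ≤ n) {k : ℕ}
    {m : ℤ} (hk : (k : ℤ) < m) (x : Code →₀ A)
    (hx : ∀ N, x N ≠ 0 → wf n N ∧ kk N = k ∧ levc ρ n j N = m)
    (hd : flt (fun N => levc ρ n j N = m) (cbd A x) = 0) :
    ∃ y : Code →₀ A, (∀ N, y N ≠ 0 → wf n N ∧ kk N = k + 1 ∧ levc ρ n j N = m) ∧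
      flt (fun N => levc ρ n j N = m) (cbd A y) = x := by
  induction j generalizing k m x with
  | zero =>
    obtain ⟨m', rfl⟩ : ∃ m' : ℕ, m = m' := ⟨m.toNat, by omega⟩
    simp only [levc_zero, Nat.cast_inj] at hx hd ⊢
    exact AO_all m' n (by omega) k (by omega) x hx hd
  | succ j ih =>
    set s := n - 1 - j with hs
    set P : Code → Prop := fun N => (grc ρ n j N).1 s = s with hP
    have hL : ∀ N, levc ρ n (j + 1) N = levc ρ n j N + if P N then 1 else 0 := by
      intro N; rw [levc_succ]
    have ty : ∀ N, levc ρ n (j + 1) N = m →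
        (P N ∧ levc ρ n j N + 1 = m) ∨ (¬ P N ∧ levc ρ n j N = m) := by
      intro N h
      rw [hL] at h
      split_ifs at h with h1
      · left; exact ⟨h1, by omega⟩
      · right; exact ⟨h1, by omega⟩
    have ty1 : ∀ N, P N → levc ρ n j N + 1 = m → levc ρ n (j + 1) N = m := by
      intro N h1 h2
      rw [hL, if_pos h1]; omega
    have ty2 : ∀ N, ¬ P N → levc ρ n j N = m → levc ρ n (j + 1) N = m := by
      intro N h1 h2
      rw [hL, if_neg h1]; omega
    have hPc : ∀ {N : Code} {c : ℕ}, c < kk N → levc ρ n j (cdel c N) = levc ρ n j N →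
        (P (cdel c N) ↔ P N) := by
      intro N c hc h
      simp only [hP, grc_cdel hc h]
    -- step a
    set x2 := flt (fun N => ¬ P N) x with hx2
    have hx2' : ∀ N, x2 N ≠ 0 → wf n N ∧ kk N = k ∧ levc ρ n j N = m ∧ ¬ P N := by
      intro N hN
      obtain ⟨h1, h2⟩ := flt_ne (p := fun N => ¬ P N) hN
      obtain ⟨h3, h4, h5⟩ := hx N h2
      rcases ty N h5 with h | h
      · exact absurd h.1 h1
      · exact ⟨h3, h4, h.2, h1⟩
    have ha : flt (fun N => levc ρ n j N = m) (cbd A x2) = 0 := by
      have h1 : flt (fun N => levc ρ n (j + 1) N = m ∧ ¬ P N) (cbd A x) = 0 :=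
        flt_of_imp (fun N hN => hN.1) hd
      have h2 : flt (fun N => levc ρ n (j + 1) N = m ∧ ¬ P N) (cbd A (flt P x)) = 0 := by
        refine flt_cbd_zero fun N hN c hc h => ?_
        obtain ⟨h3, h4⟩ := flt_ne hN
        obtain ⟨_, _, h5⟩ := hx N h4
        have h6 := levc_cdel_le ρ hc (n := n) (j := j)
        rcases ty N h5 with h7 | h7
        · rcases ty _ h.1 with h8 | h8
          · exact h.2 h8.1
          · omega
        · exact h7.1 h3
      rw [flt_add_flt_not P x, map_add, map_add, h2, zero_add] at h1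
      rw [← h1]
      refine flt_cbd_congr fun N hN c hc => ?_
      obtain ⟨_, _, h5, h6⟩ := hx2' N hN
      constructor
      · intro h7
        have h8 : ¬ P (cdel c N) := by rw [hPc hc (by omega)]; exact h6
        exact ⟨ty2 _ h8 h7, h8⟩
      · intro h7
        rcases ty _ h7.1 with h | h
        · exact absurd h.1 h7.2
        · exact h.2
    -- step b
    obtain ⟨w2, hw2, hw2'⟩ := ih (by omega) hk x2 (fun N hN => by
      obtain ⟨h3, h4, h5, _⟩ := hx2' N hN
      exact ⟨h3, h4, h5⟩) ha
    set w := flt (fun N => ¬ P N) w2 with hw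
    have hwn : ∀ N, w N ≠ 0 → wf n N ∧ kk N = k + 1 ∧ levc ρ n j N = m ∧ ¬ P N := by
      intro N hN
      obtain ⟨h1, h2⟩ := flt_ne (p := fun N => ¬ P N) hN
      obtain ⟨h3, h4, h5⟩ := hw2 N h2
      exact ⟨h3, h4, h5, h1⟩
    have hw3 : flt (fun N => levc ρ n j N = m) (cbd A w) = x2 := by
      rw [hw, flt_cbd_flt, hw2']
      · exact flt_eq_self fun N hN => (hx2' N hN).2.2.2
      · intro N hN c hc h
        have h5 := (hw2 N hN).2.2
        rw [hPc hc (by omega)]
    -- the remaining part
    set u := x - flt (fun N => levc ρ n (j + 1) N = m) (cbd A w) with hu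
    have hu1 : ∀ N, u N ≠ 0 → wf n N ∧ kk N = k ∧ levc ρ n j N + 1 = m ∧ P N := by
      intro N hN
      have h1 : wf n N ∧ kk N = k ∧ levc ρ n (j + 1) N = m := by
        by_cases h2 : x N = 0
        · rw [hu, Finsupp.sub_apply, h2, zero_sub, neg_ne_zero] at hN
          obtain ⟨h3, h4⟩ := flt_ne (p := fun N => levc ρ n (j + 1) N = m) hN
          obtain ⟨N', hN', c, hc, rfl⟩ := cbd_ne h4
          obtain ⟨h5, h6, _⟩ := hwn N' hN'
          have h7 := kk_cdel hc
          exact ⟨wf_cdel h5 hc, by omega, h3⟩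
        · exact hx N h2
      refine ⟨h1.1, h1.2.1, ?_⟩
      rcases ty N h1.2.2 with h | h
      · exact ⟨h.2, h.1⟩
      · exfalso
        apply hN
        rw [hu, Finsupp.sub_apply, flt_apply_pos (p := fun N => levc ρ n (j + 1) N = m) _ h1.2.2,
          ← flt_apply_pos (p := fun N => levc ρ n j N = m) (cbd A w) h.2, hw3, hx2,
          flt_apply_pos (p := fun N => ¬ P N) _ h.1, sub_self]
    have hu2 : comp (grc ρ n j) 1 (cbd A) u = 0 := by
      have h1 : flt (fun N => levc ρ n (j + 1) N = m) (cbd A u) = 0 := by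
        rw [hu, map_sub, map_sub, hd, flt_cbd_flt_cbdZ (f := fun N => levc ρ n (j + 1) N),
          sub_zero]
        · intro N c hc; exact levc_cdel_le ρ hc
        · intro N hN
          obtain ⟨_, _, h3, h4⟩ := hwn N hN
          rw [ty2 N h4 h3]
      rw [← h1]
      refine comp_eq_flt fun N hN c hc => ?_
      obtain ⟨_, _, h3, h4⟩ := hu1 N hN
      rw [mul_one]
      constructor
      · intro h5
        have h6 : levc ρ n j (cdel c N) = levc ρ n j N := by rw [levc, h5, levc]
        refine ty1 _ ?_ (by omega)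
        rw [hPc hc h6]; exact h4
      · intro h5
        have h6 := levc_cdel_le ρ hc (n := n) (j := j)
        refine grc_cdel hc ?_
        rcases ty _ h5 with h | h <;> omega
    -- step c
    have hs2 : 2 ≤ s := by omega
    obtain ⟨z, hz1, hz2, hz3⟩ := code_S (goodGr_grc (n := n) (s := s) (t := 1) (j := j) ρ
      (by omega) (by omega) (by omega) (by omega) (by omega)) (by omega : 0 < s)
      (by omega : s < n) (by omega : 0 < 1) (by omega : 1 < n) (by omega) k u
      (fun N hN => ⟨(hu1 N hN).1, (hu1 N hN).2.1⟩) hu2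
    have hz4 : ∀ N, z N ≠ 0 → wf n N ∧ kk N = k + 1 ∧ levc ρ n j N = m ∧
        (grc ρ n j N).1 0 = s := by
      intro N hN
      obtain ⟨h2, h3, N', hN', h4⟩ := hz1 N hN
      obtain ⟨_, _, h5, h6⟩ := hu1 N' hN'
      refine ⟨h2, h3, ?_, ?_⟩
      · rw [levc, h4, Prod.snd_mul, toAdd_mul]
        change levc ρ n j N' + 1 = m
        omega
      · rw [h4, Prod.fst_mul]
        change ((grc ρ n j N').1 * swap 0 s) 0 = s
        rw [Perm.mul_apply, swap_apply_left]
        exact h6
    have hz5 : ∀ N, z N ≠ 0 → ¬ P N := by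
      intro N hN h
      have := ((grc ρ n j N).1).injective (h.trans (hz4 N hN).2.2.2.symm)
      omega
    have e1 : comp (grc ρ n j) 1 (cbd A) z = flt (fun N => levc ρ n j N = m) (cbd A z) := by
      refine comp_eq_flt fun N hN c hc => ?_
      rw [mul_one, ← (hz4 N hN).2.2.1]
      constructor
      · intro h; rw [levc, h, levc]
      · intro h; exact grc_cdel hc h
    have e2 : comp (grc ρ n j) (gd (swap 0 s) (-1)) (cbd A) z =
        flt (fun N => levc ρ n j N + 1 = m ∧ P N) (cbd A z) := by
      refine comp_eq_flt fun N hN c hc => ?_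
      obtain ⟨_, _, h5, h6⟩ := hz4 N hN
      constructor
      · intro h7
        refine ⟨?_, ?_⟩
        · rw [levc, h7, Prod.snd_mul, toAdd_mul]
          change levc ρ n j N + -1 + 1 = m
          omega
        · simp only [hP]
          rw [h7, Prod.fst_mul]
          change ((grc ρ n j N).1 * swap 0 s) s = s
          rw [Perm.mul_apply, swap_apply_right, h6]
      · rintro ⟨h7, h8⟩
        rcases levc_cases ρ n j hc with h9 | ⟨a, b, hab, h9, h10⟩ | h9
        · omega
        · have h11 : swap a b = swap 0 s := by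
            have h12 : (grc ρ n j N).1 (swap a b s) = (grc ρ n j N).1 0 := by
              rw [h6, ← Perm.mul_apply, ← h10]; exact h8
            have h13 := ((grc ρ n j N).1).injective h12
            have h14 : swap a b 0 = s := by rw [← h13, swap_apply_self]
            exact swap_apply_eq (by omega) h14
          refine Prod.ext ?_ ?_
          · rw [h10, h11]; rfl
          · have h15 : levc ρ n j (cdel c N) = levc ρ n j N + -1 := by omega
            exact h15
        · omega
    have hz6 : flt (fun N => levc ρ n (j + 1) N = m) (cbd A z) = u := by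
      ext N
      by_cases h : levc ρ n (j + 1) N = m
      · rw [flt_apply_pos (p := fun N => levc ρ n (j + 1) N = m) _ h]
        rcases ty N h with h' | h'
        · rw [← flt_apply_pos (p := fun N => levc ρ n j N + 1 = m ∧ P N) (cbd A z) ⟨h'.2, h'.1⟩,
            ← e2, hz3]
        · rw [← flt_apply_pos (p := fun N => levc ρ n j N = m) (cbd A z) h'.2, ← e1, hz2]
          symm
          by_contra h0
          exact h'.1 (hu1 N h0).2.2.2
      · rw [flt_apply_neg (p := fun N => levc ρ n (j + 1) N = m) _ h]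
        symm
        by_contra h0
        obtain ⟨_, _, h1, h2⟩ := hu1 N h0
        exact h (ty1 N h2 h1)
    refine ⟨w + z, ?_, ?_⟩
    · intro N hN
      by_cases h : w N = 0
      · rw [Finsupp.add_apply, h, zero_add] at hN
        obtain ⟨h1, h2, h3, _⟩ := hz4 N hN
        exact ⟨h1, h2, ty2 N (hz5 N hN) h3⟩
      · obtain ⟨h1, h2, h3, h4⟩ := hwn N h
        exact ⟨h1, h2, ty2 N h4 h3⟩
    · rw [map_add, map_add, hz6, hu]
      abel

end

end ArcC
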