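import Mathlib
import Pool.Agent.Lib.MP_e5080e_gt.AllOpen2

/-! Acyclicity for one word: the case of `AO_all` for `n = 1`, in degrees `k` with `k + 1 < m`. -/

namespace ArcC

open Equiv Code

theorem AO1 {A : Type*} [AddCommGroup A] {k m : ℕ} (hk : k + 1 < m) (x : Code →₀ A)
    (hx : ∀ N, x N ≠ 0 → wf 1 N ∧ kk N = k ∧ lev N = m)
    (hd : flt (fun N => lev N = m) (cbd A x) = 0) :
    ∃ y : Code →₀ A, (∀ N, y N ≠ 0 → wf 1 N ∧ kk N = k + 1 ∧ lev N = m) ∧
      flt (fun N => lev N = m) (cbd A y) = x := by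
  have ihm : ∀ m' < m, AO A m' := fun m' _ => AO_all m'
  have hkm : k < m := by omega
  obtain ⟨y0, hy0, hx'⟩ := reduce ihm le_rfl hkm x hx hd
  set x' := x - flt (fun N => lev N = m) (cbd A y0) with hx'def
  have hd' : flt (fun N => lev N = m) (cbd A x') = 0 := by
    rw [hx'def, map_sub, map_sub, hd, flt_cbd_flt_cbd (f := lev), sub_zero]
    · intro N c hc; exact lev_cdel_le hc
    · intro N hN; exact (hy0 N hN).2.2.le
  obtain ⟨h1, h2, h3⟩ := one_word hkm hx' hd'
  set u := pc 0 x' with hu
  -- it suffices to bound `x'`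
  suffices h : ∃ y1 : Code →₀ A, (∀ N, y1 N ≠ 0 → wf 1 N ∧ kk N = k + 1 ∧ lev N = m) ∧
      flt (fun N => lev N = m) (cbd A y1) = x' by
    obtain ⟨y1, hy1, hy2⟩ := h
    refine ⟨y0 + y1, fun N hN => ?_, ?_⟩
    · by_cases g : y0 N = 0
      · rw [Finsupp.add_apply, g, zero_add] at hN
        exact hy1 N hN
      · exact hy0 N g
    · rw [map_add, map_add, hy2, hx'def]
      abel
  rcases Nat.eq_zero_or_pos k with hk0 | hk0
  · refine ⟨0, by simp, ?_⟩
    have hu0 : u = 0 := by
      ext N
      by_contra h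
      have := (h2 N h).2.1
      omega
    rw [map_zero, map_zero, h1, hu0, map_zero]
  · have h3' : flt (fun N => lev N = m - 2) (cbd A u) = 0 := by
      rw [← h3]
      refine flt_congr fun N _ => ?_
      omega
    obtain ⟨u', hu1, hu2⟩ := AO_all (A := A) (m - 2) 2 le_rfl (k - 1) (by omega) u
      (fun N hN => by
        obtain ⟨g1, g2, g3, _⟩ := h2 N hN
        exact ⟨g1, by omega, by omega⟩) h3'
    set w := flt (fun N => nu N 0 = 0) u' with hw
    have hw1 : ∀ N, w N ≠ 0 → wf 2 N ∧ kk N = k ∧ lev N = m - 2 ∧ nu N 0 = 0 := by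
      intro N hN
      obtain ⟨g1, g2⟩ := flt_ne (p := fun N => nu N 0 = 0) hN
      obtain ⟨g3, g4, g5⟩ := hu1 N g2
      exact ⟨g3, by omega, g5, g1⟩
    have hw2 : flt (fun N => lev N = m - 2) (cbd A w) = u := by
      rw [hw, flt_cbd_flt, hu2]
      · exact flt_eq_self fun N hN => (h2 N hN).2.2.2
      · intro N hN c hc h
        obtain ⟨_, _, g5⟩ := hu1 N hN
        rw [nu_cdel hc (by omega)]
    refine ⟨- op A (ch 0) w, fun N hN => ?_, ?_⟩
    · rw [Finsupp.neg_apply, neg_ne_zero] at hN
      obtain ⟨N', hN', rfl⟩ := op_ne hN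
      obtain ⟨g1, g2, g3, g4⟩ := hw1 N' hN'
      exact ⟨wf_ch.2 ⟨by omega, g1⟩, by simp [kk, g2], by rw [lev_ch, if_pos g4]; omega⟩
    · rw [map_neg, map_neg, cbd_op_ch, map_sub, flt_op, flt_op]
      have e1 : flt (fun N => lev (merge 0 N) = m) w = 0 := by
        refine flt_eq_zero fun N h => ?_
        by_contra h0
        obtain ⟨_, _, g3, g4⟩ := hw1 N h0
        rw [lev_merge, if_neg] at h
        · omega
        · intro h12
          have := (nu N).injective (h12.trans g4.symm)
          omega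
      have e2 : flt (fun N => lev (ch 0 N) = m) (cbd A w) = u := by
        rw [← hw2]
        refine flt_cbd_congr fun N hN c hc => ?_
        obtain ⟨_, _, g3, g4⟩ := hw1 N hN
        constructor
        · intro h
          have := lev_cdel_le hc
          rw [lev_ch] at h
          split_ifs at h with h13 <;> omega
        · intro h
          rw [lev_ch, nu_cdel hc (by omega), if_pos g4]; omega
      rw [e1, e2, map_zero, zero_sub, neg_neg]
      exact h1.symm

end ArcC
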