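import Mathlib
import Pool.Agent.Lib.MP_e5080e_gt.OneWord
import Pool.Agent.Lib.MP_e5080e_gt.CloseNcyc
import Pool.Agent.Lib.MP_e5080e_gt.Closed

/-! The complexes of codes are spherical. -/

namespace ArcC

open Equiv Code

section

variable {A : Type*} [AddCommGroup A]

/-- a chain is filled in one level higher, then the top level is removed -/
lemma push_down {n k : ℕ} {f : Code → ℤ} {m : ℤ}
    (hf : ∀ N c, c < kk N → f (cdel c N) ≤ f N)
    (hex : ∀ x : Code →₀ A, (∀ N, x N ≠ 0 → wf n N ∧ kk N = k + 1 ∧ f N = m) →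
      flt (fun N => f N = m) (cbd A x) = 0 →
      ∃ y : Code →₀ A, (∀ N, y N ≠ 0 → wf n N ∧ kk N = k + 2 ∧ f N = m) ∧
        flt (fun N => f N = m) (cbd A y) = x)
    {z y0 : Code →₀ A} (hz : ∀ N, z N ≠ 0 → f N < m)
    (hy0 : ∀ N, y0 N ≠ 0 → wf n N ∧ kk N = k + 1 ∧ f N ≤ m) (hd : cbd A y0 = z) :
    ∃ y : Code →₀ A, (∀ N, y N ≠ 0 → wf n N ∧ kk N = k + 1 ∧ f N < m) ∧ cbd A y = z := by
  set y1 := flt (fun N => f N = m) y0 with hy1
  have e : y0 = y1 + flt (fun N => f N ≠ m) y0 := by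
    ext N
    rw [Finsupp.add_apply]
    by_cases h : f N = m
    · rw [hy1, flt_apply_pos (p := fun N => f N = m) _ h,
        flt_apply_neg (p := fun N => f N ≠ m) _ (by simpa using h), add_zero]
    · rw [hy1, flt_apply_neg (p := fun N => f N = m) _ h,
        flt_apply_pos (p := fun N => f N ≠ m) _ h, zero_add]
  have h2 : flt (fun N => f N = m) (cbd A (flt (fun N => f N ≠ m) y0)) = 0 := by
    refine flt_cbd_zero fun N hN c hc h => ?_
    obtain ⟨h3, h4⟩ := flt_ne (p := fun N => f N ≠ m) hN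
    have h5 := (hy0 N h4).2.2
    have h6 := hf N c hc
    omega
  have h3 : flt (fun N => f N = m) z = 0 := by
    refine flt_eq_zero fun N h => ?_
    by_contra h0
    have := hz N h0
    omega
  have h4 : flt (fun N => f N = m) (cbd A y1) = 0 := by
    have h5 := congrArg (flt (fun N => f N = m)) hd
    rw [e, map_add, map_add, h2, add_zero, h3] at h5
    exact h5
  obtain ⟨w, hw1, hw2⟩ := hex y1 (fun N hN => by
    obtain ⟨h5, h6⟩ := flt_ne (p := fun N => f N = m) hN
    obtain ⟨h7, h8, _⟩ := hy0 N h6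
    exact ⟨h7, h8, h5⟩) h4
  refine ⟨y0 - cbd A w, ?_, ?_⟩
  · intro N hN
    have h5 : wf n N ∧ kk N = k + 1 ∧ f N ≤ m := by
      by_cases h : y0 N = 0
      · rw [Finsupp.sub_apply, h, zero_sub, neg_ne_zero] at hN
        obtain ⟨N', hN', c, hc, rfl⟩ := cbd_ne hN
        obtain ⟨h6, h7, h8⟩ := hw1 N' hN'
        have h9 := kk_cdel hc
        have h10 := hf N' c hc
        exact ⟨wf_cdel h6 hc, by omega, by omega⟩
      · exact hy0 N h
    refine ⟨h5.1, h5.2.1, lt_of_le_of_ne h5.2.2 fun h => hN ?_⟩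
    rw [Finsupp.sub_apply, ← flt_apply_pos (p := fun N => f N = m) (cbd A w) h, hw2, hy1,
      flt_apply_pos (p := fun N => f N = m) _ h, sub_self]
  · rw [map_sub, cbd_cbd, sub_zero, hd]

end

lemma one_le_ncyc_pair (p : Perm ℕ) : 1 ≤ ncyc p (Set.Iio 2) ∧ ncyc p (Set.Iio 2) ≤ 2 := by
  have h : (Set.Iio 2 : Set ℕ) = {0, 1} := by
    ext x; simp only [Set.mem_Iio, Set.mem_insert_iff, Set.mem_singleton_iff]; omega
  rw [ncyc_eq_ncard, h]
  constructor
  · have : (0 : ℕ) < ((fun x => (Quotient.mk (Perm.SameCycle.setoid p) x)) '' {0, 1}).ncard := by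
      rw [Set.ncard_pos (Set.Finite.image _ (by simp))]
      exact ⟨_, 0, by simp, rfl⟩
    omega
  · refine (Set.ncard_image_le (by simp)).trans ?_
    rw [Set.ncard_pair (by omega)]

theorem codes_spherical {A : Type} [AddCommGroup A] {n : ℕ} (hn : 0 < n) (ρ : Perm ℕ)
    (hρ : ∀ j, n ≤ j → ρ j = j) (d : ℕ) (hpar : (d + 1) % 2 = ncyc ρ (Set.Iio n) % 2)
    (k : ℕ) (hk : k < d) (z : Code →₀ A)
    (hz : ∀ N ∈ z.support, wf n N ∧ kk N = k ∧ k + (cc N + ncyc (ρ * nu N) (Set.Iio n)) ≤ d + 1)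
    (hd : cbd A z = 0) :
    ∃ y : Code →₀ A, (∀ N ∈ y.support, wf n N ∧ kk N = k + 1 ∧
      k + 1 + (cc N + ncyc (ρ * nu N) (Set.Iio n)) ≤ d + 1) ∧ cbd A y = z := by
  simp only [Finsupp.mem_support_iff] at hz ⊢
  rcases Nat.lt_or_ge 1 n with hn2 | hn1
  · -- at least two words
    have hlev : ∀ N, wf n N → (kk N + (cc N + ncyc (ρ * nu N) (Set.Iio n)) ≤ d + 1 ↔
        levc ρ n (n - 2) N < d + 1) := by
      intro N hN
      have h1 := grc_ncyc (j := n - 2) hρ hN (by omega)
      rw [show n - (n - 2) = 2 by omega] at h1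
      obtain ⟨h2, h3⟩ := one_le_ncyc_pair (grc ρ n (n - 2) N).1
      have h4 := parity_codes hρ hN
      have h5 : lev N = kk N + cc N := rfl
      constructor
      · intro h
        omega
      · intro h
        omega
    have hy0 : ∀ N, op A (ch 1) (op A (ins 1) z) N ≠ 0 → wf n N ∧ kk N = k + 1 ∧
        levc ρ n (n - 2) N ≤ d + 1 := by
      intro N hN
      obtain ⟨N1, hN1, rfl⟩ := op_ne hN
      obtain ⟨N2, hN2, rfl⟩ := op_ne hN1
      obtain ⟨h1, h2, h3⟩ := hz N2 hN2
      rw [← h2, hlev N2 h1] at h3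
      have h4 := (goodGr_grc (n := n) (s := 1) (t := 1) (j := n - 2) ρ (by omega) (by omega)
        (by omega) (by omega) (by omega)).ko N2 1 h1
      refine ⟨?_, ?_, ?_⟩
      · rw [wf_ch]
        exact ⟨by omega, wf_ins h1 (by omega)⟩
      · simp only [kk]
        rw [kk_ins', h2]
      · have h5 : levc ρ n (n - 2) (ch 1 (ins 1 N2)) = levc ρ n (n - 2) N2 + 1 := by
          have h6 : grc ρ n (n - 2) (ch 1 (ins 1 N2)) =
            grc ρ n (n - 2) N2 * gd (swap 0 1 ^ 1) ((1 : ℕ) : ℤ) := h4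
          unfold levc
          rw [h6]
          rfl
        omega
    have hins : cbd A (op A (ins 1) z) = op A (ins 1) (cbd A z) :=
      congrArg (fun P : Module.End ℤ (Code →₀ A) => P z) (cbd_ins A 1)
    have hmi : op A (merge 1) (op A (ins 1) z) = z := by
      have h1 : op A (merge 1) * op A (ins 1) = 1 := by
        rw [op_mul]
        refine Finsupp.lhom_ext fun N a => ?_
        rw [op_single]
        simp
      exact congrArg (fun P : Module.End ℤ (Code →₀ A) => P z) h1
    have hd0 : cbd A (op A (ch 1) (op A (ins 1) z)) = z := by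
      rw [cbd_op_ch, hins, hd, map_zero, map_zero, sub_zero, hmi]
    obtain ⟨y, hy1, hy2⟩ := push_down (n := n) (k := k) (f := levc ρ n (n - 2)) (m := d + 1)
      (fun N c hc => levc_cdel_le ρ hc)
      (fun x hx hxd => AO_closed ρ (by omega) (by push_cast; omega) x hx hxd)
      (z := z) (fun N hN => by
        obtain ⟨h1, h2, h3⟩ := hz N hN
        rw [← h2, hlev N h1] at h3
        exact h3) hy0 hd0
    refine ⟨y, fun N hN => ?_, hy2⟩
    obtain ⟨h1, h2, h3⟩ := hy1 N hN
    rw [← hlev N h1] at h3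
    exact ⟨h1, h2, by omega⟩
  · -- one word
    obtain rfl : n = 1 := by omega
    have hρ1 : ρ = 1 := by
      have h0 : ρ 0 = 0 := by
        obtain ⟨j, hj⟩ := ρ.surjective 0
        rcases Nat.eq_zero_or_pos j with h | h
        · rwa [h] at hj
        · rw [hρ j h] at hj; omega
      ext x
      rcases Nat.eq_zero_or_pos x with h | h
      · rw [h, h0]; rfl
      · rw [hρ x h]; rfl
    have hnu : ∀ N, wf 1 N → nu N = 1 := by
      intro N hN
      have h0 : nu N 0 = 0 := by
        have := nu_lt hN (x := 0) (by omega)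
        omega
      ext x
      rcases Nat.eq_zero_or_pos x with h | h
      · rw [h, h0]; rfl
      · rw [nu_fix hN h]; rfl
    have hI : (Set.Iio 1 : Set ℕ) = {0} := by
      ext x; simp only [Set.mem_Iio, Set.mem_singleton_iff]; omega
    have hpar1 : (d + 1) % 2 = 1 := by
      rw [hpar, hI, ncyc_singleton]
    have hlev : ∀ N, wf 1 N → ncyc (ρ * nu N) (Set.Iio 1) = 1 ∧ lev N % 2 = 0 := by
      intro N hN
      have h1 : ncyc (ρ * nu N) (Set.Iio 1) = 1 := by rw [hI, ncyc_singleton]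
      have h4 := parity_codes hρ hN
      rw [h1, hI, ncyc_singleton] at h4
      exact ⟨h1, by omega⟩
    have hlk : ∀ N, lev N = kk N + cc N := fun _ => rfl
    have hy0 : ∀ N, op A (ch 0) (op A emp z) N ≠ 0 → wf 1 N ∧ kk N = k + 1 ∧
        (lev N : ℤ) ≤ d + 2 := by
      intro N hN
      obtain ⟨N1, hN1, rfl⟩ := op_ne hN
      obtain ⟨N2, hN2, rfl⟩ := op_ne hN1
      obtain ⟨h1, h2, h3⟩ := hz N2 hN2
      obtain ⟨h4, h5⟩ := hlev N2 h1
      have h6 := hlk N2
      refine ⟨?_, ?_, ?_⟩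
      · rw [wf_ch]
        exact ⟨by omega, h1⟩
      · simp only [kk]
        rw [h2]
      · rw [lev_ch, nu_emp_zero, if_pos rfl, lev_emp]
        push_cast
        omega
    have hmi : op A (merge 0) (op A emp z) = z := by
      have h1 : op A (merge 0) * op A emp = 1 := by
        rw [op_mul]
        refine Finsupp.lhom_ext fun N a => ?_
        rw [op_single]
        rfl
      exact congrArg (fun P : Module.End ℤ (Code →₀ A) => P z) h1
    have hd0 : cbd A (op A (ch 0) (op A emp z)) = z := by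
      rw [cbd_op_ch, cbd_op_emp, hd, map_zero, map_zero, sub_zero, hmi]
    obtain ⟨y, hy1, hy2⟩ := push_down (n := 1) (k := k) (f := fun N => (lev N : ℤ)) (m := d + 2)
      (fun N c hc => by exact_mod_cast lev_cdel_le hc)
      (fun x hx hxd => by
        have e : (fun N => (lev N : ℤ) = (d : ℤ) + 2) = (fun N => lev N = d + 2) := by
          ext N; omega
        rw [e] at hxd
        obtain ⟨y, hy1, hy2⟩ := AO1 (k := k + 1) (m := d + 2) (by omega) x (fun N hN => by
          obtain ⟨h1, h2, h3⟩ := hx N hN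
          exact ⟨h1, h2, by omega⟩) hxd
        refine ⟨y, fun N hN => ?_, ?_⟩
        · obtain ⟨h1, h2, h3⟩ := hy1 N hN
          exact ⟨h1, h2, by omega⟩
        · rw [e]; exact hy2)
      (z := z) (fun N hN => by
        obtain ⟨h1, h2, h3⟩ := hz N hN
        obtain ⟨h4, h5⟩ := hlev N h1
        have h6 := hlk N
        omega) hy0 hd0
    refine ⟨y, fun N hN => ?_, hy2⟩
    obtain ⟨h1, h2, h3⟩ := hy1 N hN
    obtain ⟨h4, h5⟩ := hlev N h1
    have h6 := hlk N
    exact ⟨h1, h2, by omega⟩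

end ArcC
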