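import Mathlib
import Pool.Agent.Lib.MP_e5080e_gt.Defs

/-! Deletion of an arc from a word. -/

namespace ArcC

open Equiv Side

@[simp] lemma isArc_pt (c j : ℕ) : isArc c (pt j) = false := rfl
@[simp] lemma isArc_arc (c a : ℕ) (b : Bool) : isArc c (arc a b) = (a == c) := rfl
@[simp] lemma shift_pt (c j : ℕ) : shift c (pt j) = pt j := rfl
@[simp] lemma shift_arc (c a : ℕ) (b : Bool) :
    shift c (arc a b) = arc (if c < a then a - 1 else a) b := rfl
@[simp] lemma isPt_pt (j : ℕ) : isPt (pt j) = true := rfl
@[simp] lemma isPt_arc (a : ℕ) (b : Bool) : isPt (arc a b) = false := rfl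
@[simp] lemma isFirst_pt (j : ℕ) : isFirst (pt j) = false := rfl
@[simp] lemma isFirst_arc (a : ℕ) (b : Bool) : isFirst (arc a b) = !b := rfl
@[simp] lemma mate_pt (j : ℕ) : mate (pt j) = pt j := rfl
@[simp] lemma mate_arc (a : ℕ) (b : Bool) : mate (arc a b) = arc a (!b) := rfl
@[simp] lemma ptPerm_pt (q : Perm ℕ) (j : ℕ) : ptPerm q (pt j) = pt (q j) := rfl
@[simp] lemma ptPerm_arc (q : Perm ℕ) (a : ℕ) (b : Bool) : ptPerm q (arc a b) = arc a b := rfl
@[simp] lemma isPt_shift (c : ℕ) (x : Side) : isPt (shift c x) = isPt x := by cases x <;> simp
@[simp] lemma isFirst_shift (c : ℕ) (x : Side) : isFirst (shift c x) = isFirst x := by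
  cases x <;> simp

lemma shift_injOn (c : ℕ) {x y : Side} (hx : isArc c x = false) (hy : isArc c y = false)
    (h : shift c x = shift c y) : x = y := by
  cases x with
  | pt i => cases y with
    | pt j => simpa using h
    | arc a b => simp at h
  | arc a b => cases y with
    | pt j => simp at h
    | arc a' b' =>
      simp only [shift_arc, arc.injEq, isArc_arc, beq_eq_false_iff_ne, ne_eq] at *
      refine ⟨?_, h.2⟩
      have := h.1
      split_ifs at this <;> omega

lemma shift_mate (c : ℕ) (x : Side) : shift c (mate x) = mate (shift c x) := by
  cases x <;> simp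

lemma shift_ptPerm (c : ℕ) (q : Perm ℕ) (x : Side) :
    shift c (ptPerm q x) = ptPerm q (shift c x) := by
  cases x <;> simp

lemma isArc_false_iff (c : ℕ) (x : Side) :
    isArc c x = false ↔ x ≠ arc c false ∧ x ≠ arc c true := by
  cases x with
  | pt j => simp
  | arc a b =>
    cases b <;> simp

/-- a preimage of a symbol under the renumbering -/
def unshift (c : ℕ) : Side → Side
  | pt j => pt j
  | arc a b => arc (if a < c then a else a + 1) b

@[simp] lemma unshift_pt (c j : ℕ) : unshift c (pt j) = pt j := rfl
@[simp] lemma unshift_arc (c a : ℕ) (b : Bool) :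
    unshift c (arc a b) = arc (if a < c then a else a + 1) b := rfl

@[simp] lemma shift_unshift (c : ℕ) (x : Side) : shift c (unshift c x) = x := by
  cases x with
  | pt j => simp
  | arc a b =>
    simp only [unshift_arc, shift_arc, arc.injEq, and_true]
    split_ifs <;> omega

@[simp] lemma isArc_unshift (c : ℕ) (x : Side) : isArc c (unshift c x) = false := by
  cases x with
  | pt j => simp
  | arc a b =>
    simp only [unshift_arc, isArc_arc, beq_eq_false_iff_ne, ne_eq]
    split_ifs <;> omega

lemma unshift_shift {c : ℕ} {x : Side} (h : isArc c x = false) : unshift c (shift c x) = x := by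
  apply shift_injOn c (by simp) h
  simp

/-- the word without the arc `c`, before the renumbering -/
def wrem (c : ℕ) (w : List Side) : List Side := w.filter (fun x => !(isArc c x))

lemma wdel_eq (c : ℕ) (w : List Side) : wdel c w = (wrem c w).map (shift c) := rfl

lemma mem_wrem {c : ℕ} {w : List Side} {x : Side} :
    x ∈ wrem c w ↔ x ∈ w ∧ isArc c x = false := by
  simp [wrem]

lemma mem_wdel {c : ℕ} {w : List Side} {x : Side} :
    x ∈ wdel c w ↔ unshift c x ∈ w := by
  rw [wdel_eq, List.mem_map]
  constructor
  · rintro ⟨y, hy, rfl⟩
    rw [mem_wrem] at hy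
    rw [unshift_shift hy.2]; exact hy.1
  · intro h
    exact ⟨unshift c x, mem_wrem.2 ⟨h, by simp⟩, by simp⟩

lemma range_filter_map (c k : ℕ) (hc : c < k + 1) :
    ((List.range (k + 1)).filter (fun a => !(a == c))).map (fun a => if c < a then a - 1 else a) =
      List.range k := by
  induction k with
  | zero =>
    have : c = 0 := by omega
    subst this
    decide
  | succ k ih =>
    rw [List.range_succ, List.filter_append, List.map_append]
    rcases Nat.lt_or_ge c (k + 1) with h | h
    · rw [ih h]
      have h1 : ¬ (k + 1 = c) := by omega
      simp [h1, h, List.range_succ]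
    · have h1 : c = k + 1 := by omega
      subst h1
      simp only [beq_self_eq_true, Bool.not_true, List.filter_cons_of_neg, List.filter_nil,
        List.map_nil, List.append_nil, Bool.false_eq_true, not_false_eq_true]
      rw [List.filter_eq_self.2]
      · conv_rhs => rw [← List.map_id (List.range (k + 1))]
        apply List.map_congr_left
        intro a ha
        rw [List.mem_range] at ha
        simp; omega
      · intro a ha
        rw [List.mem_range] at ha
        simp; omega

lemma IsWord.length_firsts {n k : ℕ} {w : List Side} (h : IsWord n k w) :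
    (w.filter isFirst).length = k := by
  rw [h.firsts]; simp

lemma IsWord.del {n k c : ℕ} {w : List Side} (h : IsWord n (k + 1) w) (hc : c < k + 1) :
    IsWord n k (wdel c w) where
  nodup := by
    rw [wdel_eq]
    apply List.Nodup.map_on
    · intro x hx y hy hxy
      exact shift_injOn c (mem_wrem.1 hx).2 (mem_wrem.1 hy).2 hxy
    · exact h.nodup.filter _
  head := by
    have := h.head
    cases w with
    | nil => simp at this
    | cons x t =>
      simp only [List.head?_cons, Option.some.injEq] at this
      subst this
      simp [wdel]
  pts := by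
    rw [wdel_eq, List.filter_map]
    have : (isPt ∘ shift c) = isPt := by ext x; simp
    rw [this, wrem, List.filter_filter]
    have h2 : (fun a => isPt a && !isArc c a) = isPt := by
      ext x; cases x <;> simp
    rw [h2, h.pts, List.map_map]
    rfl
  firsts := by
    rw [wdel_eq, List.filter_map]
    have : (isFirst ∘ shift c) = isFirst := by ext x; simp
    rw [this, wrem, List.filter_filter]
    have h2 : w.filter (fun a => isFirst a && !isArc c a) =
        (w.filter isFirst).filter (fun a => !isArc c a) := by
      rw [List.filter_filter]
      congr 1; ext x; rw [Bool.and_comm]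
    rw [h2, h.firsts, List.filter_map, List.map_map, ← range_filter_map c k hc, List.map_map]
    rfl
  mem := by
    intro a b
    rw [mem_wdel, unshift_arc, h.mem]
    split_ifs <;> omega
  mates := by
    intro a ha
    have h1 := h.mates (if a < c then a else a + 1) (by split_ifs <;> omega)
    have h2 := (h1.filter (fun x => !(isArc c x))).map (shift c)
    have h3 : ((([arc (if a < c then a else a + 1) false,
        arc (if a < c then a else a + 1) true] : List Side).filter
          (fun x => !(isArc c x))).map (shift c)) = [arc a false, arc a true] := by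
      have e1 : ¬ ((if a < c then a else a + 1) = c) := by split_ifs <;> omega
      have e2 : (if c < (if a < c then a else a + 1) then (if a < c then a else a + 1) - 1
        else (if a < c then a else a + 1)) = a := by split_ifs <;> omega
      simp only [List.filter_cons, isArc_arc, beq_eq_false_iff_ne.2 e1, Bool.not_false, if_true,
        List.filter_nil, List.map_cons, shift_arc, e2, List.map_nil]
    rw [h3] at h2
    exact h2

end ArcC
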