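import Mathlib
import Pool.Agent.Lib.MP_e5080e_gt.Ncyc

/-! Removal of a point from a permutation, in particular from the cyclic permutation of a list. -/

namespace ArcC

open Equiv Equiv.Perm

section general

variable {α β : Type*} [DecidableEq α]

/-- removal of the point `s` from a permutation (afterwards `s` is a fixed point) -/
def rem (s : α) (p : Perm α) : Perm α := swap s (p s) * p

@[simp] lemma rem_apply_self (s : α) (p : Perm α) : rem s p s = s := by simp [rem]

lemma rem_apply_of_eq {s y : α} {p : Perm α} (h : p y = s) : rem s p y = p s := by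
  simp [rem, h]

lemma rem_apply_of_ne {s y : α} {p : Perm α} (hy : y ≠ s) (h : p y ≠ s) : rem s p y = p y := by
  simp only [rem, Perm.mul_apply]
  exact swap_apply_of_ne_of_ne h (fun h' => hy (p.injective h'))

lemma rem_apply {s y : α} {p : Perm α} (hy : y ≠ s) :
    rem s p y = if p y = s then p s else p y := by
  split_ifs with h
  · exact rem_apply_of_eq h
  · exact rem_apply_of_ne hy h

lemma rem_of_fixed {s : α} {p : Perm α} (h : p s = s) : rem s p = p := by
  rw [rem, h, swap_self]
  exact one_mul p

lemma rem_ne {s y : α} {p : Perm α} (hy : y ≠ s) : rem s p y ≠ s := by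
  intro h
  apply hy
  apply (rem s p).injective
  rw [h, rem_apply_self]

/-- removal of a fixed point of the second factor -/
lemma rem_mul_left {s : α} {p q : Perm α} (hq : q s = s) : rem s (q * p) = q * rem s p := by
  have hq' : q⁻¹ s = s := by rw [Perm.inv_eq_iff_eq]; exact hq.symm
  unfold rem
  ext x
  simp only [Perm.mul_apply]
  rcases eq_or_ne (p x) s with h1 | h1
  · rw [h1, hq, swap_apply_left, swap_apply_left]
  · rcases eq_or_ne (p x) (p s) with h2 | h2
    · rw [h2, swap_apply_right, swap_apply_right, hq]
    · rw [swap_apply_of_ne_of_ne (x := p x) h1 h2, swap_apply_of_ne_of_ne]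
      · intro h; apply h1; apply q.injective; rw [h, hq]
      · intro h; exact h2 (q.injective h)

lemma rem_mul_right {s : α} {p q : Perm α} (hq : q s = s) : rem s (p * q) = rem s p * q := by
  unfold rem
  rw [Perm.mul_apply, hq, mul_assoc]

/-- removal of a letter from the cyclic permutation given by a list -/
lemma formPerm_rem {e : α} {u v : List α} (h : (u ++ e :: v).Nodup) :
    (u ++ v).formPerm = rem e ((u ++ e :: v).formPerm) := by
  have h1 : (e :: (v ++ u)).Nodup := by
    have : (u ++ e :: v).Perm (e :: (v ++ u)) :=
      (List.perm_append_comm).trans (by simp)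
    exact this.nodup_iff.1 h
  have h2 : (u ++ e :: v).formPerm = (e :: (v ++ u)).formPerm := by
    have := List.formPerm_rotate (u ++ e :: v) h u.length
    rw [List.rotate_append_length_eq] at this
    rw [← this]; rfl
  have h3 : (u ++ v).formPerm = (v ++ u).formPerm := by
    have hn : (u ++ v).Nodup := by
      have := (List.nodup_cons.1 h1).2
      exact (List.perm_append_comm.nodup_iff).1 this
    have := List.formPerm_rotate (u ++ v) hn u.length
    rw [List.rotate_append_length_eq] at this
    exact this.symm
  rw [h2, h3]
  cases hvu : v ++ u with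
  | nil =>
    rw [List.formPerm_nil, List.formPerm_singleton, rem_of_fixed (by simp)]
  | cons y l =>
    rw [hvu] at h1
    have hy : (e :: y :: l).formPerm e = y := by
      rw [List.formPerm_apply_head _ _ _ h1]
    rw [rem, hy, List.formPerm_cons_cons, ← mul_assoc, swap_mul_self, one_mul]

/-- the permutation of a list after a renaming which is injective on the list -/
lemma formPerm_map_apply [DecidableEq β] {l : List α} (hl : l.Nodup) (f : α → β)
    (hf : ∀ x ∈ l, ∀ y ∈ l, f x = f y → x = y) {x : α} (hx : x ∈ l) :
    (l.map f).formPerm (f x) = f (l.formPerm x) := by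
  have hl' : (l.map f).Nodup := hl.map_on hf
  obtain ⟨n, hn, rfl⟩ := List.mem_iff_getElem.1 hx
  have h1 := List.formPerm_apply_getElem l hl n hn
  have h2 := List.formPerm_apply_getElem (l.map f) hl' n (by simpa using hn)
  rw [h1]
  simp only [List.getElem_map, List.length_map] at h2
  exact h2

/-- the successor of a letter -/
lemma formPerm_next {u v : List α} {x y : α} (h : (u ++ x :: y :: v).Nodup) :
    (u ++ x :: y :: v).formPerm x = y := by
  have h1 := List.formPerm_apply_lt_getElem (u ++ x :: y :: v) h u.length (by simp)
  simpa using h1

end general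

end ArcC
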