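import Mathlib
import Pool.Agent.Lib.MP_e5080e_gt.FWord
import Pool.Agent.Lib.MP_e5080e_gt.Rem

/-! The boundary permutation after the deletion of an arc. -/

namespace ArcC

open Equiv Equiv.Perm Side

lemma formPerm_filter_ne {α : Type*} [DecidableEq α] {w : List α} (h : w.Nodup) (e : α) :
    (w.filter (fun x => decide (x ≠ e))).formPerm = rem e w.formPerm := by
  by_cases he : e ∈ w
  · obtain ⟨u, v, rfl⟩ := List.append_of_mem he
    rw [← formPerm_rem h]
    congr 1
    have h1 : e ∉ u := by
      intro h1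
      have := (List.nodup_append.1 h).2.2 e h1 e (by simp)
      exact this rfl
    have h2 : e ∉ v := by
      have := (List.nodup_append.1 h).2.1
      exact (List.nodup_cons.1 this).1
    rw [List.filter_append, List.filter_cons]
    simp only [ne_eq, not_true_eq_false, decide_false, Bool.false_eq_true, if_false]
    rw [List.filter_eq_self.2, List.filter_eq_self.2]
    · intro a ha; simp only [decide_eq_true_eq]; rintro rfl; exact h2 ha
    · intro a ha; simp only [decide_eq_true_eq]; rintro rfl; exact h1 ha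
  · rw [List.filter_eq_self.2, rem_of_fixed]
    · exact List.formPerm_apply_of_notMem he
    · intro a ha; simp only [ne_eq, decide_not, Bool.not_eq_eq_eq_not, Bool.not_true,
        decide_eq_false_iff_not]; rintro rfl; exact he ha

lemma wrem_eq (c : ℕ) (w : List Side) : wrem c w =
    (w.filter (fun x => decide (x ≠ arc c false))).filter (fun x => decide (x ≠ arc c true)) := by
  rw [List.filter_filter, wrem]
  congr 1
  ext x
  cases x with
  | pt j => simp
  | arc a b =>
    cases b <;> by_cases h : a = c <;> simp [h]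

/-- the boundary permutation after the deletion of the arc `c`, before the renumbering -/
def chi (c : ℕ) (φ : Perm Side) : Perm Side :=
  rem (arc c true) (rem (arc c false) (swap (arc c false) (arc c true) * φ))

lemma wrem_formPerm {w : List Side} (h : w.Nodup) (c : ℕ) :
    (wrem c w).formPerm = rem (arc c true) (rem (arc c false) w.formPerm) := by
  rw [wrem_eq, formPerm_filter_ne (h.filter _), formPerm_filter_ne h]

/-- `mate`, fixing the ends of the arc `c` -/
def mate' (c : ℕ) (q : Perm ℕ) : Perm Side := swap (arc c false) (arc c true) * (mate * ptPerm q)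

lemma mate'_false (c : ℕ) (q : Perm ℕ) : mate' c q (arc c false) = arc c false := by
  simp [mate']

lemma mate'_true (c : ℕ) (q : Perm ℕ) : mate' c q (arc c true) = arc c true := by
  simp [mate']

lemma mate'_apply {c : ℕ} {q : Perm ℕ} {x : Side} (hx : isArc c x = false) :
    mate' c q x = mate (ptPerm q x) := by
  rw [mate', Perm.mul_apply, Perm.mul_apply]
  cases x with
  | pt j =>
    rw [swap_apply_of_ne_of_ne] <;> simp
  | arc a b =>
    simp only [isArc_arc, beq_eq_false_iff_ne, ne_eq] at hx
    rw [swap_apply_of_ne_of_ne] <;> simp [hx]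

lemma chi_face (ρ : Perm ℕ) (n c : ℕ) {w : List Side} (h : w.Nodup) :
    chi c (face ρ n w) = mate' c (ρ * (List.range n).formPerm⁻¹) * (wrem c w).formPerm := by
  rw [chi, face, wrem_formPerm h]
  rw [← mul_assoc (swap _ _)]
  change rem _ (rem _ (mate' c _ * _)) = _
  rw [rem_mul_left (mate'_false c _), rem_mul_left (mate'_true c _)]

lemma isArc_of_mem_wrem {c : ℕ} {w : List Side} {x : Side} (hx : x ∈ wrem c w) :
    isArc c x = false := (mem_wrem.1 hx).2

/-- the boundary permutation of the word without the arc `c` -/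
lemma face_wdel (ρ : Perm ℕ) (n c : ℕ) {w : List Side} (h : w.Nodup) {x : Side}
    (hx : x ∈ wrem c w) :
    face ρ n (wdel c w) (shift c x) = shift c (chi c (face ρ n w) x) := by
  rw [chi_face ρ n c h, face, Perm.mul_apply, Perm.mul_apply, Perm.mul_apply, wdel_eq]
  have h1 : (wrem c w).Nodup := h.filter _
  rw [formPerm_map_apply h1 (shift c) _ hx, mate'_apply, shift_mate, shift_ptPerm]
  · apply isArc_of_mem_wrem (w := w)
    exact List.formPerm_apply_mem_of_mem hx
  · intro y hy z hz hyz
    exact shift_injOn c (isArc_of_mem_wrem hy) (isArc_of_mem_wrem hz) hyz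

lemma isArc_eq_false_of {c : ℕ} {x : Side} (h1 : x ≠ arc c false) (h2 : x ≠ arc c true) :
    isArc c x = false := (isArc_false_iff c x).2 ⟨h1, h2⟩

/-- on an invariant set without ends of the arc nothing changes -/
lemma chi_apply_of_inv {c : ℕ} {φ : Perm Side} {V : Set Side} (hV : ∀ x ∈ V, φ x ∈ V)
    (h1 : arc c false ∉ V) (h2 : arc c true ∉ V) {x : Side} (hx : x ∈ V) : chi c φ x = φ x := by
  have e1 : x ≠ arc c false := fun h => h1 (h ▸ hx)
  have e2 : x ≠ arc c true := fun h => h2 (h ▸ hx)
  have e3 : φ x ≠ arc c false := fun h => h1 (h ▸ hV x hx)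
  have e4 : φ x ≠ arc c true := fun h => h2 (h ▸ hV x hx)
  have e5 : (swap (arc c false) (arc c true) * φ) x = φ x := by
    rw [Perm.mul_apply, swap_apply_of_ne_of_ne e3 e4]
  have e6 : rem (arc c false) (swap (arc c false) (arc c true) * φ) x = φ x := by
    rw [rem_apply_of_ne e1 (by rw [e5]; exact e3), e5]
  rw [chi, rem_apply_of_ne e2 (by rw [e6]; exact e4), e6]

lemma rem_inv {α : Type*} [DecidableEq α] {p : Perm α} {F : Set α} (h : ∀ x ∈ F, p x ∈ F) (s : α) :
    ∀ x ∈ F \ {s}, rem s p x ∈ F \ {s} := by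
  rintro x ⟨hx, hxs⟩
  refine ⟨?_, rem_ne hxs⟩
  rw [rem_apply hxs]
  split_ifs with h1
  · rw [← h1]; exact h _ (h _ hx)
  · exact h _ hx

/-- invariance of a set which contains both ends of the arc -/
lemma chi_inv {c : ℕ} {φ : Perm Side} {U : Set Side} (hU : ∀ x ∈ U, φ x ∈ U)
    (h1 : arc c false ∈ U) (h2 : arc c true ∈ U) :
    ∀ x ∈ (U \ {arc c false}) \ {arc c true},
      chi c φ x ∈ (U \ {arc c false}) \ {arc c true} :=
  rem_inv (rem_inv (swap_mul_inv φ hU h1 h2) _) _

/-- the number of cycles of `chi` -/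
lemma ncyc_chi {n k c : ℕ} {w : List Side} (h : IsWord n k w) (hc : c < k) (ρ : Perm ℕ)
    {U : Set Side} (hfin : U.Finite) (hU : ∀ x ∈ U, face ρ n w x ∈ U)
    (h1 : arc c false ∈ U) (h2 : arc c true ∈ U) :
    ncyc (chi c (face ρ n w)) ((U \ {arc c false}) \ {arc c true}) =
      ncyc (swap (arc c false) (arc c true) * face ρ n w) U := by
  have hne : (arc c true : Side) ≠ arc c false := by simp
  have hp0 : pt 0 ∈ w := by
    have := h.head
    cases w with
    | nil => simp at this
    | cons x t => simp only [List.head?_cons, Option.some.injEq] at this; simp [this]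
  have e1 : swap (arc c false) (arc c true) * face ρ n w =
      mate' c (ρ * (List.range n).formPerm⁻¹) * w.formPerm := by
    rw [face, ← mul_assoc (swap _ _)]; rfl
  have hmem1 : arc c false ∈ w := (h.mem _ _).2 hc
  have hmem2 : arc c true ∈ w := (h.mem _ _).2 hc
  -- no fixed points
  have f1 : (swap (arc c false) (arc c true) * face ρ n w) (arc c false) ≠ arc c false := by
    rw [e1, Perm.mul_apply]
    intro h3
    have h4 := (mate' c (ρ * (List.range n).formPerm⁻¹)).injective
      (h3.trans (mate'_false c _).symm)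
    rw [List.formPerm_apply_mem_eq_self_iff w h.nodup _ hmem1] at h4
    have h5 : [pt 0, arc c false].Subperm w :=
      (List.subperm_of_subset (by simp) (by intro x hx; simp at hx; rcases hx with rfl | rfl <;>
        assumption))
    have := h5.length_le
    simp at this
    omega
  have f2 : rem (arc c false) (swap (arc c false) (arc c true) * face ρ n w) (arc c true) ≠
      arc c true := by
    rw [e1, rem_mul_left (mate'_false c _), Perm.mul_apply]
    intro h3
    have h4 := (mate' c (ρ * (List.range n).formPerm⁻¹)).injective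
      (h3.trans (mate'_true c _).symm)
    rw [← formPerm_filter_ne h.nodup] at h4
    have hm : arc c true ∈ w.filter (fun x => decide (x ≠ arc c false)) := by
      simp [hmem2]
    rw [List.formPerm_apply_mem_eq_self_iff _ (h.nodup.filter _) _ hm] at h4
    have h5 : [pt 0, arc c true].Subperm (w.filter (fun x => decide (x ≠ arc c false))) :=
      (List.subperm_of_subset (by simp) (by
        intro x hx
        simp only [List.mem_cons, List.not_mem_nil, or_false] at hx
        rcases hx with rfl | rfl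
        · simp [hp0]
        · exact hm))
    have := h5.length_le
    simp only [List.length_cons, List.length_nil] at this
    omega
  have hU' := swap_mul_inv (face ρ n w) hU h1 h2
  have g1 := ncyc_remove (swap (arc c false) (arc c true) * face ρ n w) hfin hU' h1
  rw [if_neg f1, add_zero] at g1
  have g2 := ncyc_remove (rem (arc c false) (swap (arc c false) (arc c true) * face ρ n w))
    (hfin.sdiff (t := {arc c false})) (rem_inv hU' _) (s := arc c true) ⟨h2, hne⟩
  rw [if_neg f2, add_zero] at g2
  rw [g1]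
  exact g2.symm

lemma pt_mem_iff {n k : ℕ} {w : List Side} (h : IsWord n k w) (j : ℕ) : pt j ∈ w ↔ j < n := by
  have h1 : pt j ∈ w ↔ pt j ∈ w.filter isPt := by simp
  rw [h1, h.pts]
  simp

/-- the boundary permutation permutes the letters of the word -/
lemma face_mem {n k : ℕ} {w : List Side} (h : IsWord n k w) {ρ : Perm ℕ}
    (hρ : ∀ j, n ≤ j → ρ j = j) {x : Side} (hx : x ∈ w) : face ρ n w x ∈ w := by
  rw [face, Perm.mul_apply, Perm.mul_apply]
  have h1 : w.formPerm x ∈ w := List.formPerm_apply_mem_of_mem hx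
  generalize w.formPerm x = y at h1
  set q : Perm ℕ := ρ * (List.range n).formPerm⁻¹ with hq
  have hfix : ∀ j, n ≤ j → q j = j := by
    intro j hj
    rw [hq, Perm.mul_apply]
    have h2 : (List.range n).formPerm⁻¹ j = j := by
      rw [Perm.inv_eq_iff_eq]
      exact (List.formPerm_apply_of_notMem (by simp; omega)).symm
    rw [h2, hρ j hj]
  cases y with
  | pt j =>
    rw [pt_mem_iff h] at h1
    rw [ptPerm_pt, mate_pt, pt_mem_iff h]
    by_contra h2
    have h3 := hfix _ (not_lt.1 h2)
    have h4 := q.injective h3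
    omega
  | arc a b =>
    rw [ptPerm_arc, mate_arc, h.mem]
    exact (h.mem a b).1 h1

/-- the boundary cycles after the deletion of an arc -/
lemma ncyc_wdel {n k c : ℕ} {w : List Side} (h : IsWord n k w) (hc : c < k) {ρ : Perm ℕ}
    (hρ : ∀ j, n ≤ j → ρ j = j) :
    ncyc (face ρ n (wdel c w)) {x | x ∈ wdel c w} =
      ncyc (swap (arc c false) (arc c true) * face ρ n w) {x | x ∈ w} := by
  have hU : ∀ x ∈ {x | x ∈ w}, face ρ n w x ∈ {x | x ∈ w} := fun x hx => face_mem h hρ hx
  have h1 : arc c false ∈ {x | x ∈ w} := (h.mem _ _).2 hc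
  have h2 : arc c true ∈ {x | x ∈ w} := (h.mem _ _).2 hc
  have hfin : ({x | x ∈ w} : Set Side).Finite := List.finite_toSet w
  rw [← ncyc_chi h hc ρ hfin hU h1 h2]
  have hset : {x | x ∈ wdel c w} =
      shift c '' (({x | x ∈ w} \ {arc c false}) \ {arc c true}) := by
    ext y
    simp only [Set.mem_ofPred_eq, Set.mem_image, Set.mem_sdiff, Set.mem_singleton_iff]
    rw [wdel_eq, List.mem_map]
    constructor
    · rintro ⟨x, hx, rfl⟩
      rw [mem_wrem, isArc_false_iff] at hx
      exact ⟨x, ⟨⟨hx.1, hx.2.1⟩, hx.2.2⟩, rfl⟩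
    · rintro ⟨x, ⟨⟨h1, h2⟩, h3⟩, rfl⟩
      exact ⟨x, mem_wrem.2 ⟨h1, isArc_eq_false_of h2 h3⟩, rfl⟩
  rw [hset]
  apply ncyc_image ((hfin.sdiff).sdiff) (chi_inv hU h1 h2)
  · rintro x ⟨⟨_, h3⟩, h4⟩ y ⟨⟨_, h5⟩, h6⟩ hxy
    exact shift_injOn c (isArc_eq_false_of h3 h4) (isArc_eq_false_of h5 h6) hxy
  · rintro x ⟨⟨h3, h4⟩, h5⟩
    exact face_wdel ρ n c h.nodup (mem_wrem.2 ⟨h3, isArc_eq_false_of h4 h5⟩)

lemma ncyc_wdel_le {n k c : ℕ} {w : List Side} (h : IsWord n k w) (hc : c < k) {ρ : Perm ℕ}
    (hρ : ∀ j, n ≤ j → ρ j = j) :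
    ncyc (face ρ n (wdel c w)) {x | x ∈ wdel c w} ≤ ncyc (face ρ n w) {x | x ∈ w} + 1 := by
  rw [ncyc_wdel h hc hρ]
  have hU : ∀ x ∈ {x | x ∈ w}, face ρ n w x ∈ {x | x ∈ w} := fun x hx => face_mem h hρ hx
  have h1 : arc c false ∈ {x | x ∈ w} := (h.mem _ _).2 hc
  have h2 : arc c true ∈ {x | x ∈ w} := (h.mem _ _).2 hc
  have hfin : ({x | x ∈ w} : Set Side).Finite := List.finite_toSet w
  by_cases h4 : (face ρ n w).SameCycle (arc c false) (arc c true)
  · exact (ncyc_swap_mul_split _ hfin hU h1 h2 (by simp) h4).le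
  · have := ncyc_swap_mul_merge _ hfin hU h1 h2 h4
    omega

end ArcC
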