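import Mathlib
import Pool.Agent.Lib.MP_e5080e_gt.FFace

/-! Faces of families are families (JOB F). -/

namespace ArcC

open Equiv Equiv.Perm Side

namespace Fam

variable {F : Surf} {α : Fam}

lemma reg_eq (h : α.word.Nodup) {x : Side} {i : ℕ} (hx : (x, i) ∈ α.sides) : α.reg x = i := by
  unfold reg
  obtain ⟨s, hs⟩ : ∃ s, α.sides.find? (fun s => s.1 = x) = some s := by
    rw [← Option.isSome_iff_exists, List.find?_isSome]
    exact ⟨(x, i), hx, by simp⟩
  rw [hs]
  have h1 := List.find?_some hs
  have h2 := List.mem_of_find?_eq_some hs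
  simp only [decide_eq_true_eq] at h1
  obtain ⟨a, j⟩ := s
  simp only at h1
  subst h1
  have h3 := List.inj_on_of_nodup_map h h2 hx rfl
  simp only [Option.map_some, Option.getD_some]
  exact (Prod.ext_iff.1 h3).2

lemma mem_word {x : Side} {i : ℕ} (hx : (x, i) ∈ α.sides) : x ∈ α.word :=
  List.mem_map.2 ⟨_, hx, rfl⟩

lemma mem_regs {x : Side} {i : ℕ} (hx : (x, i) ∈ α.sides) : i ∈ α.regs :=
  List.mem_map.2 ⟨_, hx, rfl⟩

lemma mem_sides_reg (h : α.word.Nodup) {x : Side} (hx : x ∈ α.word) : (x, α.reg x) ∈ α.sides := by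
  obtain ⟨⟨y, i⟩, hs, rfl⟩ := List.mem_map.1 hx
  simp only
  rw [reg_eq h hs]; exact hs

lemma mem_sides_iff (h : α.word.Nodup) {x : Side} {i : ℕ} :
    (x, i) ∈ α.sides ↔ x ∈ α.word ∧ α.reg x = i := by
  constructor
  · intro hx; exact ⟨mem_word hx, reg_eq h hx⟩
  · rintro ⟨h1, rfl⟩; exact mem_sides_reg h h1

lemma exists_side {i : ℕ} (hi : i ∈ α.regs) : ∃ x, (x, i) ∈ α.sides := by
  obtain ⟨⟨y, j⟩, hs, rfl⟩ := List.mem_map.1 hi
  exact ⟨y, hs⟩

/-- the deletion of `c` acts on the region numbers by this function -/
abbrev un (α : Fam) (c : ℕ) (i : ℕ) : ℕ := union (α.reg (arc c false)) (α.reg (arc c true)) i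

lemma word_del (α : Fam) (c : ℕ) : (α.del c).word = wdel c α.word := by
  unfold word del wdel
  simp only [List.map_map]
  rw [List.filter_map, List.map_map]
  rfl

lemma mem_sides_del {c : ℕ} {y : Side} {j : ℕ} : (y, j) ∈ (α.del c).sides ↔
    ∃ x i, (x, i) ∈ α.sides ∧ isArc c x = false ∧ shift c x = y ∧ α.un c i = j := by
  unfold del
  simp only [List.mem_map, List.mem_filter, Prod.mk.injEq, Prod.exists, Bool.not_eq_true']
  constructor
  · rintro ⟨x, i, ⟨h1, h2⟩, h3, h4⟩; exact ⟨x, i, h1, h2, h3, h4⟩
  · rintro ⟨x, i, h1, h2, h3, h4⟩; exact ⟨x, i, ⟨h1, h2⟩, h3, h4⟩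

lemma mem_regs_del {c j : ℕ} : j ∈ (α.del c).regs ↔
    ∃ x i, (x, i) ∈ α.sides ∧ isArc c x = false ∧ α.un c i = j := by
  constructor
  · intro h
    obtain ⟨y, hy⟩ := exists_side h
    obtain ⟨x, i, h1, h2, _, h4⟩ := mem_sides_del.1 hy
    exact ⟨x, i, h1, h2, h4⟩
  · rintro ⟨x, i, h1, h2, h4⟩
    exact mem_regs (mem_sides_del.2 ⟨x, i, h1, h2, rfl, h4⟩)

/-! ### the function `union` -/

lemma union_self (r i : ℕ) : union r r i = i := by simp [union]

lemma union_zero (r₁ r₂ : ℕ) : union r₁ r₂ 0 = 0 := by
  unfold union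
  split_ifs with h1 h2 h3 <;> omega

lemma union_left (r₁ r₂ : ℕ) : union r₁ r₂ r₁ = min r₁ r₂ := by
  unfold union
  split_ifs with h1 h2 h3 <;> omega

lemma union_right (r₁ r₂ : ℕ) : union r₁ r₂ r₂ = min r₁ r₂ := by
  unfold union
  split_ifs with h1 h2 h3 <;> omega

lemma union_eq_union {r₁ r₂ i j : ℕ} : union r₁ r₂ i = union r₁ r₂ j ↔
    i = j ∨ ((i = r₁ ∨ i = r₂) ∧ (j = r₁ ∨ j = r₂)) := by
  unfold union
  split_ifs <;> omega

lemma union_lt {r₁ r₂ r t : ℕ} (h : t < union r₁ r₂ r) :
    ∃ r' < r, union r₁ r₂ r' = t ∧ (r₁ ≠ r₂ → r' ≠ max r₁ r₂) := by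
  by_cases h1 : r₁ = r₂
  · subst h1
    rw [union_self] at h
    exact ⟨t, h, union_self _ _, fun h => absurd rfl h⟩
  · by_cases h2 : t < max r₁ r₂
    · refine ⟨t, ?_, ?_, fun _ => by omega⟩
      · unfold union at h
        split_ifs at h <;> omega
      · unfold union
        split_ifs <;> omega
    · refine ⟨t + 1, ?_, ?_, fun _ => by omega⟩
      · unfold union at h
        split_ifs at h <;> omega
      · unfold union
        split_ifs <;> omega

/-! ### first sides -/

/-- the first side of a region: if it is an end of an arc, then the other side of this arc belongs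
to a region with a smaller number -/
lemma first_end (h : α.IsFam0 F) {P Q : List (Side × ℕ)} {a r : ℕ} {b : Bool}
    (hs : α.sides = P ++ (arc a b, r) :: Q) (hr : r ∉ P.map Prod.snd) :
    α.reg (arc a (!b)) < r := by
  have hnd := h.word.nodup
  rcases List.eq_nil_or_concat P with hP | ⟨P0, ⟨y, s⟩, hP⟩
  · subst hP
    have h1 := h.word.head
    unfold word at h1
    rw [hs] at h1
    simp at h1
  · rw [List.concat_eq_append] at hP
    subst hP
    have hw : α.word = P0.map Prod.fst ++ y :: arc a b :: Q.map Prod.fst := by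
      unfold word
      rw [hs]
      simp
    have hys : (y, s) ∈ α.sides := by rw [hs]; simp
    have h2 := h.face_reg y s hys
    have h3 : bdPerm F α y = arc a (!b) := by
      rw [bdPerm, face, Perm.mul_apply, Perm.mul_apply, hw, formPerm_next (by rw [← hw]; exact hnd)]
      simp
    rw [h3] at h2
    rw [reg_eq hnd h2]
    have hsr : s ≠ r := by
      rintro rfl
      exact hr (by simp)
    rcases Nat.lt_or_ge s r with h4 | h4
    · exact h4
    · exfalso
      have h5 : r < s := by omega
      have h6 := h.canon (P0.map Prod.snd) s (r :: Q.map Prod.snd) (by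
        unfold regs
        rw [hs]
        simp) r h5
      exact hr (by
        rw [List.map_append, List.mem_append]
        exact Or.inl h6)

/-- every region, except the one with the larger number next to the arc, has a side which is
not an end of the arc; more precisely the first side has this property -/
lemma exists_first (h : α.IsFam0 F) {c i : ℕ}
    (hi : α.reg (arc c false) ≠ α.reg (arc c true) →
      i ≠ max (α.reg (arc c false)) (α.reg (arc c true)))
    {P Q : List (Side × ℕ)} (hs : α.sides = P ++ Q) (hP : i ∈ P.map Prod.snd) :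
    ∃ x, (x, i) ∈ P ∧ isArc c x = false := by
  classical
  -- the first occurrence
  obtain ⟨P1, P2, x, hP12, hn⟩ : ∃ P1 P2 x, P = P1 ++ (x, i) :: P2 ∧ i ∉ P1.map Prod.snd := by
    clear hs
    induction P with
    | nil => simp at hP
    | cons y t ih =>
      obtain ⟨y1, y2⟩ := y
      by_cases hy : y2 = i
      · exact ⟨[], t, y1, by simp [hy], by simp⟩
      · simp only [List.map_cons, List.mem_cons] at hP
        rcases hP with hP | hP
        · exact absurd hP.symm hy
        · obtain ⟨P1, P2, x, h1, h2⟩ := ih hP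
          refine ⟨(y1, y2) :: P1, P2, x, by rw [h1]; rfl, ?_⟩
          simp only [List.map_cons, List.mem_cons, not_or]
          exact ⟨fun h => hy h.symm, h2⟩
  refine ⟨x, by rw [hP12]; simp, ?_⟩
  by_contra hx
  rw [Bool.not_eq_false] at hx
  cases x with
  | pt j => simp at hx
  | arc a b =>
    have ha : a = c := by simpa using hx
    subst ha
    have hs' : α.sides = P1 ++ (arc a b, i) :: (P2 ++ Q) := by
      rw [hs, hP12]; simp
    have h1 := first_end h hs' hn
    have h2 : α.reg (arc a b) = i := reg_eq h.word.nodup (by rw [hs']; simp)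
    cases b
    · simp only [Bool.not_false] at h1
      rw [h2] at hi
      exact hi (by omega) (by omega)
    · simp only [Bool.not_true] at h1
      rw [h2] at hi
      exact hi (by omega) (by omega)

lemma arc_mem_word (h : α.IsFam0 F) {c : ℕ} (hc : c < α.arcs) (b : Bool) : arc c b ∈ α.word :=
  (h.word.mem c b).2 hc

lemma arc_mem_sides (h : α.IsFam0 F) {c : ℕ} (hc : c < α.arcs) (b : Bool) :
    (arc c b, α.reg (arc c b)) ∈ α.sides := mem_sides_reg h.word.nodup (arc_mem_word h hc b)

lemma reg_mem_regs (h : α.IsFam0 F) {c : ℕ} (hc : c < α.arcs) (b : Bool) :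
    α.reg (arc c b) ∈ α.regs := mem_regs (arc_mem_sides h hc b)

/-- the regions of the face -/
lemma un_mem_regs_del (h : α.IsFam0 F) {c i : ℕ} (hc : c < α.arcs) (hi : i ∈ α.regs) :
    α.un c i ∈ (α.del c).regs := by
  rw [mem_regs_del]
  by_cases h1 : α.reg (arc c false) ≠ α.reg (arc c true) ∧
      i = max (α.reg (arc c false)) (α.reg (arc c true))
  · obtain ⟨h1, h2⟩ := h1
    -- replace by the region with the smaller number
    set m := min (α.reg (arc c false)) (α.reg (arc c true)) with hm
    have hmr : m ∈ α.regs := by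
      rcases min_choice (α.reg (arc c false)) (α.reg (arc c true)) with h3 | h3
      · rw [hm, h3]; exact reg_mem_regs h hc false
      · rw [hm, h3]; exact reg_mem_regs h hc true
    obtain ⟨x, hx, hx2⟩ := exists_first h (i := m) (c := c) (fun _ => by omega)
      (P := α.sides) (Q := []) (by simp) hmr
    refine ⟨x, m, hx, hx2, ?_⟩
    unfold un
    rw [union_eq_union]
    omega
  · obtain ⟨x, hx, hx2⟩ := exists_first h (i := i) (c := c) (fun h2 h3 => h1 ⟨h2, h3⟩)
      (P := α.sides) (Q := []) (by simp) hi
    exact ⟨x, i, hx, hx2, rfl⟩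

lemma mem_regs_del_iff (h : α.IsFam0 F) {c j : ℕ} (hc : c < α.arcs) :
    j ∈ (α.del c).regs ↔ ∃ i ∈ α.regs, α.un c i = j := by
  constructor
  · intro hj
    obtain ⟨x, i, h1, _, h3⟩ := mem_regs_del.1 hj
    exact ⟨i, mem_regs h1, h3⟩
  · rintro ⟨i, hi, rfl⟩
    exact un_mem_regs_del h hc hi

lemma arcs_del {c : ℕ} (h : α.IsFam0 F) (hc : c < α.arcs) :
    (α.del c).arcs + 1 = α.arcs := by
  obtain ⟨k, hk⟩ : ∃ k, α.arcs = k + 1 := ⟨α.arcs - 1, by omega⟩
  have hw := h.word
  rw [hk] at hw
  have h1 := (hw.del (c := c) (by omega)).length_firsts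
  unfold arcs
  rw [word_del, h1, hw.length_firsts]

lemma isWord_del {c : ℕ} (h : α.IsFam0 F) (hc : c < α.arcs) :
    IsWord F.n (α.del c).arcs (α.del c).word := by
  have h1 := arcs_del h hc
  have hw := h.word
  rw [← h1] at hw
  rw [word_del]
  exact hw.del (by omega)

lemma canon_del {c : ℕ} (h : α.IsFam0 F) :
    ∀ p r q, (α.del c).regs = p ++ r :: q → ∀ r' < r, r' ∈ p := by
  intro p t q hpq t' ht'
  have h1 : (α.del c).regs =
      ((α.sides.filter (fun s => !(isArc c s.1))).map (fun s => α.un c s.2)) := by
    unfold regs del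
    simp only [List.map_map]
    rfl
  rw [h1] at hpq
  rw [List.map_eq_append_iff] at hpq
  obtain ⟨l1, l2, hl, hp, hq⟩ := hpq
  rw [List.map_eq_cons_iff] at hq
  obtain ⟨⟨x, r⟩, l3, rfl, hr, hq⟩ := hq
  rw [List.filter_eq_append_iff] at hl
  obtain ⟨P, P', hs, hP, hP'⟩ := hl
  rw [List.filter_eq_cons_iff] at hP'
  obtain ⟨Q1, Q2, hP', hQ1, hx, hQ2⟩ := hP'
  simp only at hr
  rw [← hr] at ht'
  obtain ⟨r', hr', hu, hmax⟩ := union_lt ht'
  have hs2 : α.sides = (P ++ Q1) ++ (x, r) :: Q2 := by rw [hs, hP']; simp
  have h2 : r' ∈ (P ++ Q1).map Prod.snd := by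
    have := h.canon ((P ++ Q1).map Prod.snd) r (Q2.map Prod.snd) (by
      unfold regs; rw [hs2]; simp) r' hr'
    exact this
  obtain ⟨y, hy, hy2⟩ := exists_first h hmax hs2 h2
  rw [← hp, List.mem_map]
  refine ⟨(y, r'), ?_, hu⟩
  rw [← hP, List.mem_filter]
  rw [List.mem_append] at hy
  rcases hy with hy | hy
  · exact ⟨hy, by simp [hy2]⟩
  · exfalso
    have := hQ1 (y, r') hy
    simp [hy2] at this

/-! ### the boundary permutation of the face -/

lemma sidesOf_finite (α : Fam) (i : ℕ) : (α.sidesOf i).Finite := by
  apply (List.finite_toSet α.word).subset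
  intro x hx
  exact mem_word hx

/-- the sides of the region number `j` of the face, before the renumbering -/
def dset (α : Fam) (c j : ℕ) : Set Side :=
  {x | ∃ i, (x, i) ∈ α.sides ∧ isArc c x = false ∧ α.un c i = j}

lemma sidesOf_del (α : Fam) (c j : ℕ) : (α.del c).sidesOf j = shift c '' α.dset c j := by
  ext y
  simp only [sidesOf, dset, Set.mem_ofPred_eq, Set.mem_image, mem_sides_del]
  constructor
  · rintro ⟨x, i, h1, h2, h3, h4⟩; exact ⟨x, ⟨i, h1, h2, h4⟩, h3⟩
  · rintro ⟨x, ⟨i, h1, h2, h4⟩, h3⟩; exact ⟨x, i, h1, h2, h3, h4⟩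

/-- the two regions next to the arc -/
def uset (α : Fam) (c : ℕ) : Set Side :=
  α.sidesOf (α.reg (arc c false)) ∪ α.sidesOf (α.reg (arc c true))

lemma uset_finite (α : Fam) (c : ℕ) : (α.uset c).Finite :=
  (sidesOf_finite α _).union (sidesOf_finite α _)

lemma sidesOf_inv (h : α.IsFam0 F) (i : ℕ) : ∀ x ∈ α.sidesOf i, bdPerm F α x ∈ α.sidesOf i :=
  fun x hx => h.face_reg x i hx

lemma uset_inv (h : α.IsFam0 F) (c : ℕ) : ∀ x ∈ α.uset c, bdPerm F α x ∈ α.uset c := by
  rintro x (hx | hx)
  · exact Or.inl (sidesOf_inv h _ x hx)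
  · exact Or.inr (sidesOf_inv h _ x hx)

lemma false_mem_uset (h : α.IsFam0 F) {c : ℕ} (hc : c < α.arcs) : arc c false ∈ α.uset c :=
  Or.inl (arc_mem_sides h hc false)

lemma true_mem_uset (h : α.IsFam0 F) {c : ℕ} (hc : c < α.arcs) : arc c true ∈ α.uset c :=
  Or.inr (arc_mem_sides h hc true)

lemma not_mem_sidesOf (h : α.IsFam0 F) {c i : ℕ} {b : Bool}
    (hi : i ≠ α.reg (arc c false) ∧ i ≠ α.reg (arc c true)) : arc c b ∉ α.sidesOf i := by
  intro hx
  have := reg_eq h.word.nodup hx
  cases b
  · exact hi.1 this.symm
  · exact hi.2 this.symm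

lemma dset_other (h : α.IsFam0 F) {c i : ℕ}
    (hi : i ≠ α.reg (arc c false) ∧ i ≠ α.reg (arc c true)) :
    α.dset c (α.un c i) = α.sidesOf i := by
  ext x
  simp only [dset, sidesOf, Set.mem_ofPred_eq]
  constructor
  · rintro ⟨j, h1, _, h3⟩
    rw [un, un, union_eq_union] at h3
    rcases h3 with h3 | h3
    · rwa [← h3]
    · rcases h3.2 with h4 | h4
      · exact absurd h4 hi.1
      · exact absurd h4 hi.2
  · intro hx
    refine ⟨i, hx, ?_, rfl⟩
    apply isArc_eq_false_of
    · rintro rfl; exact not_mem_sidesOf h hi hx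
    · rintro rfl; exact not_mem_sidesOf h hi hx

lemma dset_merged {c i : ℕ}
    (hi : i = α.reg (arc c false) ∨ i = α.reg (arc c true)) :
    α.dset c (α.un c i) = (α.uset c \ {arc c false}) \ {arc c true} := by
  ext x
  simp only [dset, uset, sidesOf, Set.mem_ofPred_eq, Set.mem_sdiff, Set.mem_union,
    Set.mem_singleton_iff]
  constructor
  · rintro ⟨j, h1, h2, h3⟩
    rw [isArc_false_iff] at h2
    rw [un, un, union_eq_union] at h3
    have h4 : j = α.reg (arc c false) ∨ j = α.reg (arc c true) := by
      rcases h3 with h3 | h3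
      · rw [h3]; exact hi
      · exact h3.1
    refine ⟨⟨?_, h2.1⟩, h2.2⟩
    rcases h4 with h4 | h4
    · left; rwa [← h4]
    · right; rwa [← h4]
  · rintro ⟨⟨h1 | h1, h2⟩, h3⟩
    · exact ⟨_, h1, isArc_eq_false_of h2 h3, by rw [un, un, union_eq_union]; omega⟩
    · exact ⟨_, h1, isArc_eq_false_of h2 h3, by rw [un, un, union_eq_union]; omega⟩

lemma dset_sub_wrem {c j : ℕ} {x : Side} (hx : x ∈ α.dset c j) : x ∈ wrem c α.word := by
  obtain ⟨i, h1, h2, _⟩ := hx
  exact mem_wrem.2 ⟨mem_word h1, h2⟩

lemma bdPerm_del (h : α.IsFam0 F) {c : ℕ} {x : Side} (hx : x ∈ wrem c α.word) :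
    bdPerm F (α.del c) (shift c x) = shift c (chi c (bdPerm F α) x) := by
  rw [bdPerm, word_del]
  exact face_wdel F.rot F.n c h.word.nodup hx

lemma dset_inv (h : α.IsFam0 F) {c : ℕ} (hc : c < α.arcs) (j : ℕ) :
    ∀ x ∈ α.dset c j, chi c (bdPerm F α) x ∈ α.dset c j := by
  intro x hx
  obtain ⟨i, h1, h2, h3⟩ := id hx
  subst h3
  by_cases hi : i = α.reg (arc c false) ∨ i = α.reg (arc c true)
  · rw [dset_merged hi] at hx ⊢
    exact chi_inv (uset_inv h c) (false_mem_uset h hc) (true_mem_uset h hc) x hx
  · rw [not_or] at hi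
    rw [dset_other h hi] at hx ⊢
    rw [chi_apply_of_inv (sidesOf_inv h i) (not_mem_sidesOf h hi) (not_mem_sidesOf h hi) hx]
    exact sidesOf_inv h i x hx

lemma dset_finite (α : Fam) (c j : ℕ) : (α.dset c j).Finite := by
  apply (List.finite_toSet α.word).subset
  rintro x ⟨i, hx, _⟩
  exact mem_word hx

/-- the number of boundary cycles of a region of the face -/
lemma ncyc_del (h : α.IsFam0 F) {c : ℕ} (hc : c < α.arcs) (j : ℕ) :
    ncyc (bdPerm F (α.del c)) ((α.del c).sidesOf j) = ncyc (chi c (bdPerm F α)) (α.dset c j) := by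
  rw [sidesOf_del]
  apply ncyc_image (dset_finite α c j) (dset_inv h hc j)
  · rintro x ⟨_, _, hx, _⟩ y ⟨_, _, hy, _⟩ hxy
    exact shift_injOn c hx hy hxy
  · intro x hx
    exact bdPerm_del h (dset_sub_wrem hx)

lemma ncyc_del_other (h : α.IsFam0 F) {c : ℕ} (hc : c < α.arcs) {i : ℕ}
    (hi : i ≠ α.reg (arc c false) ∧ i ≠ α.reg (arc c true)) :
    ncyc (bdPerm F (α.del c)) ((α.del c).sidesOf (α.un c i)) =
      ncyc (bdPerm F α) (α.sidesOf i) := by
  rw [ncyc_del h hc, dset_other h hi]
  apply ncyc_congr (sidesOf_finite α i) (sidesOf_inv h i)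
  intro x hx
  exact chi_apply_of_inv (sidesOf_inv h i) (not_mem_sidesOf h hi) (not_mem_sidesOf h hi) hx

lemma ncyc_del_merged (h : α.IsFam0 F) {c : ℕ} (hc : c < α.arcs) {i : ℕ}
    (hi : i = α.reg (arc c false) ∨ i = α.reg (arc c true)) :
    ncyc (bdPerm F (α.del c)) ((α.del c).sidesOf (α.un c i)) =
      ncyc (swap (arc c false) (arc c true) * bdPerm F α) (α.uset c) := by
  rw [ncyc_del h hc, dset_merged hi]
  exact ncyc_chi h.word hc F.rot (uset_finite α c) (uset_inv h c) (false_mem_uset h hc)
    (true_mem_uset h hc)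

/-! ### Betti numbers -/

lemma betti_del_apply (α : Fam) (c j : ℕ) : (α.del c).betti j =
    (α.betti.mapDomain (α.un c)) j +
      (if α.reg (arc c false) = α.reg (arc c true) ∧ j = α.reg (arc c false) then 1 else 0) := by
  unfold del
  rw [Finsupp.add_apply]
  congr 1
  by_cases h1 : α.reg (arc c false) = α.reg (arc c true)
  · by_cases h2 : j = α.reg (arc c false)
    · rw [if_pos h1, if_pos ⟨h1, h2⟩, h2, Finsupp.single_eq_same]
    · rw [if_pos h1, if_neg (fun h => h2 h.2), Finsupp.single_eq_of_ne h2]
  · rw [if_neg h1, if_neg (fun h => h1 h.1)]; rfl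

lemma betti_del_other {c i : ℕ}
    (hi : i ≠ α.reg (arc c false) ∧ i ≠ α.reg (arc c true)) :
    (α.del c).betti (α.un c i) = α.betti i := by
  rw [betti_del_apply, if_neg, add_zero]
  · rw [Finsupp.mapDomain, Finsupp.sum_apply, Finsupp.sum]
    have h1 : ∀ a ∈ α.betti.support, ((Finsupp.single (α.un c a) (α.betti a) : ℕ →₀ ℕ))
        (α.un c i) = if a = i then α.betti a else 0 := by
      intro a _
      by_cases h2 : a = i
      · rw [h2, Finsupp.single_eq_same, if_pos rfl]
      · rw [if_neg h2, Finsupp.single_eq_of_ne]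
        rw [un, un, ne_eq, union_eq_union]
        omega
    rw [Finset.sum_congr rfl h1, Finset.sum_ite_eq']
    split_ifs with h2
    · rfl
    · exact (Finsupp.notMem_support_iff.1 h2).symm
  · rintro ⟨h1, h2⟩
    rw [un, h1, union_self] at h2
    rw [← h1] at h2
    exact hi.1 h2

lemma betti_del_self {c i : ℕ}
    (hi : i = α.reg (arc c false) ∨ i = α.reg (arc c true))
    (hs : α.reg (arc c false) = α.reg (arc c true)) :
    (α.del c).betti (α.un c i) = α.betti i + 1 := by
  have h1 : i = α.reg (arc c false) := by rcases hi with h | h <;> omega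
  have h2 : (α.un c) = id := by
    ext x; rw [un, hs, union_self]; rfl
  rw [betti_del_apply, h2, Finsupp.mapDomain_id, if_pos ⟨hs, h1⟩]
  rfl

lemma betti_del_merged {c i : ℕ}
    (hi : i = α.reg (arc c false) ∨ i = α.reg (arc c true))
    (hs : α.reg (arc c false) ≠ α.reg (arc c true)) :
    (α.del c).betti (α.un c i) =
      α.betti (α.reg (arc c false)) + α.betti (α.reg (arc c true)) := by
  rw [betti_del_apply, if_neg (fun h => hs h.1), add_zero]
  rw [Finsupp.mapDomain, Finsupp.sum_apply, Finsupp.sum]
  have h1 : ∀ a ∈ α.betti.support, ((Finsupp.single (α.un c a) (α.betti a) : ℕ →₀ ℕ))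
      (α.un c i) = (if a = α.reg (arc c false) then α.betti a else 0) +
        (if a = α.reg (arc c true) then α.betti a else 0) := by
    intro a _
    by_cases h2 : a = α.reg (arc c false)
    · rw [if_pos h2, if_neg (by omega), add_zero]
      have : α.un c a = α.un c i := by rw [un, un, union_eq_union]; omega
      rw [this, Finsupp.single_eq_same]
    · by_cases h3 : a = α.reg (arc c true)
      · rw [if_neg h2, if_pos h3, zero_add]
        have : α.un c a = α.un c i := by rw [un, un, union_eq_union]; omega
        rw [this, Finsupp.single_eq_same]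
      · rw [if_neg h2, if_neg h3, add_zero, Finsupp.single_eq_of_ne]
        rw [un, un, ne_eq, union_eq_union]
        omega
  rw [Finset.sum_congr rfl h1, Finset.sum_add_distrib, Finset.sum_ite_eq', Finset.sum_ite_eq']
  congr 1
  · split_ifs with h2
    · rfl
    · exact (Finsupp.notMem_support_iff.1 h2).symm
  · split_ifs with h2
    · rfl
    · exact (Finsupp.notMem_support_iff.1 h2).symm

lemma totalBetti_del (α : Fam) (c : ℕ) : (α.del c).totalBetti =
    α.totalBetti + (if α.reg (arc c false) = α.reg (arc c true) then 1 else 0) := by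
  unfold totalBetti del
  simp only
  rw [Finsupp.sum_add_index' (by simp) (by simp), Finsupp.sum_mapDomain_index (by simp) (by simp)]
  congr 1
  split_ifs
  · simp
  · simp

lemma supp_del (h : α.IsFam0 F) {c : ℕ} (hc : c < α.arcs) {j : ℕ} (hj : j ∉ (α.del c).regs) :
    (α.del c).betti j = 0 := by
  rw [betti_del_apply, if_neg, add_zero]
  · by_contra h1
    have h2 : j ∈ (α.betti.mapDomain (α.un c)).support := Finsupp.mem_support_iff.2 h1
    have h3 := Finsupp.mapDomain_support h2
    rw [Finset.mem_image] at h3
    obtain ⟨i, hi, rfl⟩ := h3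
    apply hj
    apply un_mem_regs_del h hc
    by_contra h4
    exact (Finsupp.mem_support_iff.1 hi) (h.supp i h4)
  · rintro ⟨h1, h2⟩
    apply hj
    have h3 := un_mem_regs_del h hc (reg_mem_regs h hc false)
    rwa [un, h1, union_self, ← h1, ← h2] at h3

/-! ### the number of regions -/

lemma numReg_del (h : α.IsFam0 F) {c : ℕ} (hc : c < α.arcs) :
    (α.del c).numReg + (if α.reg (arc c false) = α.reg (arc c true) then 0 else 1) =
      α.numReg := by
  classical
  unfold numReg
  have h1 : (α.del c).regs.toFinset = α.regs.toFinset.image (α.un c) := by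
    ext j
    rw [List.mem_toFinset, Finset.mem_image, mem_regs_del_iff h hc]
    simp only [List.mem_toFinset]
  rw [h1]
  split_ifs with h2
  · rw [add_zero]
    apply Finset.card_image_of_injOn
    intro x _ y _ hxy
    simp only [un, h2, union_self] at hxy
    exact hxy
  · set m := max (α.reg (arc c false)) (α.reg (arc c true)) with hm
    have hm' : m ∈ α.regs.toFinset := by
      rw [List.mem_toFinset]
      rcases max_choice (α.reg (arc c false)) (α.reg (arc c true)) with h3 | h3
      · rw [hm, h3]; exact reg_mem_regs h hc false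
      · rw [hm, h3]; exact reg_mem_regs h hc true
    have h3 : α.regs.toFinset.image (α.un c) = (α.regs.toFinset.erase m).image (α.un c) := by
      ext j
      simp only [Finset.mem_image, Finset.mem_erase, ne_eq]
      constructor
      · rintro ⟨i, hi, rfl⟩
        by_cases h4 : i = m
        · refine ⟨min (α.reg (arc c false)) (α.reg (arc c true)), ⟨by omega, ?_⟩, ?_⟩
          · rw [List.mem_toFinset]
            rcases min_choice (α.reg (arc c false)) (α.reg (arc c true)) with h3 | h3
            · rw [h3]; exact reg_mem_regs h hc false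
            · rw [h3]; exact reg_mem_regs h hc true
          · rw [un, un, union_eq_union]; omega
        · exact ⟨i, ⟨h4, hi⟩, rfl⟩
      · rintro ⟨i, ⟨_, hi⟩, rfl⟩
        exact ⟨i, hi, rfl⟩
    rw [h3, Finset.card_image_of_injOn, Finset.card_erase_of_mem hm']
    · have := Finset.card_pos.2 ⟨m, hm'⟩
      omega
    · intro x hx y hy hxy
      simp only [Finset.coe_erase, Set.mem_sdiff, Set.mem_singleton_iff] at hx hy
      have hxy' : union (α.reg (arc c false)) (α.reg (arc c true)) x =
        union (α.reg (arc c false)) (α.reg (arc c true)) y := hxy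
      rw [union_eq_union] at hxy'
      omega

/-! ### connectivity -/

lemma conn_del_aux (h : α.IsFam0 F) {c : ℕ} {i : ℕ}
    (hi : Relation.ReflTransGen
      (fun i j => ∃ a b, (arc a b, i) ∈ α.sides ∧ (arc a (!b), j) ∈ α.sides) 0 i) :
    Relation.ReflTransGen
      (fun i j => ∃ a b, (arc a b, i) ∈ (α.del c).sides ∧ (arc a (!b), j) ∈ (α.del c).sides)
        0 (α.un c i) := by
  induction hi with
  | refl => rw [un, union_zero]
  | tail _ hst ih =>
    rename_i j k hjk
    obtain ⟨a, b, h1, h2⟩ := hst
    by_cases hac : a = c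
    · subst hac
      have h3 := reg_eq h.word.nodup h1
      have h4 := reg_eq h.word.nodup h2
      have h5 : α.un a j = α.un a k := by
        rw [un, un, union_eq_union]
        cases b
        · simp only [Bool.not_false] at h4; omega
        · simp only [Bool.not_true] at h4; omega
      rwa [h5] at ih
    · refine ih.tail ⟨if c < a then a - 1 else a, b, ?_, ?_⟩
      · rw [mem_sides_del]
        exact ⟨arc a b, j, h1, by simpa using hac, by simp, rfl⟩
      · rw [mem_sides_del]
        exact ⟨arc a (!b), k, h2, by simpa using hac, by simp, rfl⟩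

/-! ### the number of sides -/

lemma count_del (α : Fam) (c j : ℕ) : (α.del c).regs.count j =
    α.sides.countP (fun s => decide (α.un c s.2 = j) && !(isArc c s.1)) := by
  have h1 : (α.del c).regs =
      ((α.sides.filter (fun s => !(isArc c s.1))).map (fun s => α.un c s.2)) := by
    unfold regs del
    simp only [List.map_map]
    rfl
  rw [h1, List.count, List.countP_map, List.countP_filter]
  congr 1

lemma count_regs (α : Fam) (j : ℕ) : α.regs.count j =
    α.sides.countP (fun s => decide (s.2 = j)) := by
  unfold regs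
  rw [List.count, List.countP_map]
  congr 1

lemma count_del_other (h : α.IsFam0 F) {c i : ℕ}
    (hi : i ≠ α.reg (arc c false) ∧ i ≠ α.reg (arc c true)) :
    (α.del c).regs.count (α.un c i) = α.regs.count i := by
  rw [count_del, count_regs]
  apply List.countP_congr
  rintro ⟨x, j⟩ hs
  simp only [Bool.and_eq_true, decide_eq_true_eq, Bool.not_eq_true']
  constructor
  · rintro ⟨h1, _⟩
    rw [un, un, union_eq_union] at h1
    omega
  · rintro rfl
    refine ⟨rfl, ?_⟩
    apply isArc_eq_false_of
    · rintro rfl; exact not_mem_sidesOf h hi hs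
    · rintro rfl; exact not_mem_sidesOf h hi hs

lemma countP_isArc (h : α.IsFam0 F) (c : ℕ) :
    α.sides.countP (fun s => isArc c s.1) ≤ 2 := by
  have h1 : α.sides.countP (fun s => isArc c s.1) = (α.word.filter (isArc c)).length := by
    unfold word
    rw [← List.countP_eq_length_filter, List.countP_map]
    rfl
  rw [h1]
  have h2 : (α.word.filter (isArc c)).Nodup := h.word.nodup.filter _
  have h3 : (α.word.filter (isArc c)).Subperm [arc c false, arc c true] := by
    apply List.subperm_of_subset h2
    intro x hx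
    rw [List.mem_filter] at hx
    obtain ⟨_, hx⟩ := hx
    cases x with
    | pt j => simp at hx
    | arc a b =>
      have : a = c := by simpa using hx
      subst this
      cases b <;> simp
  simpa using h3.length_le

lemma count_del_merged (h : α.IsFam0 F) {c i : ℕ}
    (hi : i = α.reg (arc c false) ∨ i = α.reg (arc c true))
    (hs : α.reg (arc c false) ≠ α.reg (arc c true)) :
    α.regs.count (α.reg (arc c false)) + α.regs.count (α.reg (arc c true)) ≤
      (α.del c).regs.count (α.un c i) + 2 := by
  rw [count_del, count_regs, count_regs]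
  have h1 := countP_isArc h c
  have key : ∀ l : List (Side × ℕ),
      l.countP (fun s => decide (s.2 = α.reg (arc c false))) +
      l.countP (fun s => decide (s.2 = α.reg (arc c true))) ≤
      l.countP (fun s => decide (α.un c s.2 = α.un c i) && !(isArc c s.1)) +
      l.countP (fun s => isArc c s.1) := by
    intro l
    induction l with
    | nil => simp
    | cons s l ih =>
      obtain ⟨x, j⟩ := s
      simp only [List.countP_cons]
      by_cases h2 : j = α.reg (arc c false) ∨ j = α.reg (arc c true)
      · have h3 : α.un c j = α.un c i := by rw [un, un, union_eq_union]; omega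
        by_cases h4 : isArc c x = true
        · rcases h2 with h2 | h2
          · have h5 : ¬ (j = α.reg (arc c true)) := by omega
            simp only [h2, h4, decide_true] at *
            simp only [hs, decide_false, Bool.not_true, Bool.and_false, Bool.false_eq_true,
              if_false, if_true]
            omega
          · have h5 : ¬ (j = α.reg (arc c false)) := by omega
            have h6 : ¬ (α.reg (arc c true) = α.reg (arc c false)) := fun h => hs h.symm
            simp only [h2, h4, decide_true] at *
            simp only [h6, decide_false, Bool.not_true, Bool.and_false, Bool.false_eq_true,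
              if_false, if_true]
            omega
        · rw [Bool.not_eq_true] at h4
          rcases h2 with h2 | h2
          · simp only [h2] at h3 ⊢
            simp only [hs, h3, h4, decide_true, decide_false, Bool.not_false, Bool.and_true,
              Bool.false_eq_true, if_false, if_true]
            omega
          · have h6 : ¬ (α.reg (arc c true) = α.reg (arc c false)) := fun h => hs h.symm
            simp only [h2] at h3 ⊢
            simp only [h6, h3, h4, decide_true, decide_false, Bool.not_false, Bool.and_true,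
              Bool.false_eq_true, if_false, if_true]
            omega
      · rw [not_or] at h2
        simp only [h2.1, h2.2, decide_false, Bool.false_eq_true, if_false]
        omega
  have := key α.sides
  omega

/-! ### the face of a family is a family -/

theorem IsFam0.del {c : ℕ} (h : α.IsFam0 F) (hc : c < α.arcs) : (α.del c).IsFam0 F where
  word := isWord_del h hc
  canon := canon_del h
  face_reg := by
    intro y j hy
    have hy' : y ∈ (α.del c).sidesOf j := hy
    rw [sidesOf_del] at hy'
    obtain ⟨x, hx, rfl⟩ := hy'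
    rw [bdPerm_del h (dset_sub_wrem hx)]
    have h1 : shift c (chi c (bdPerm F α) x) ∈ (α.del c).sidesOf j := by
      rw [sidesOf_del]
      exact ⟨_, dset_inv h hc j x hx, rfl⟩
    exact h1
  supp := fun j hj => supp_del h hc hj
  genus := by
    intro j hj
    obtain ⟨i, hi, rfl⟩ := (mem_regs_del_iff h hc).1 hj
    by_cases h1 : i = α.reg (arc c false) ∨ i = α.reg (arc c true)
    · rw [ncyc_del_merged h hc h1]
      have hne : (arc c false : Side) ≠ arc c true := by simp
      by_cases h2 : α.reg (arc c false) = α.reg (arc c true)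
      · rw [betti_del_self h1 h2]
        have h3 : α.uset c = α.sidesOf i := by
          have : i = α.reg (arc c false) := by omega
          rw [uset, ← h2, Set.union_self, this]
        obtain ⟨g, hg⟩ := h.genus i hi
        rw [h3]
        have m1 := false_mem_uset h hc
        have m2 := true_mem_uset h hc
        rw [h3] at m1 m2
        by_cases h4 : (bdPerm F α).SameCycle (arc c false) (arc c true)
        · have h5 := ncyc_swap_mul_split (bdPerm F α) (sidesOf_finite α i) (sidesOf_inv h i) m1 m2
            hne h4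
          exact ⟨g, by omega⟩
        · have h5 := ncyc_swap_mul_merge (bdPerm F α) (sidesOf_finite α i) (sidesOf_inv h i) m1 m2
            h4
          exact ⟨g + 1, by omega⟩
      · rw [betti_del_merged h1 h2]
        obtain ⟨g1, hg1⟩ := h.genus _ (reg_mem_regs h hc false)
        obtain ⟨g2, hg2⟩ := h.genus _ (reg_mem_regs h hc true)
        have hd : Disjoint (α.sidesOf (α.reg (arc c false)))
            (α.sidesOf (α.reg (arc c true))) := by
          rw [Set.disjoint_left]
          intro x hx hx'
          exact h2 ((reg_eq h.word.nodup hx).symm.trans (reg_eq h.word.nodup hx'))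
        have h4 : ¬ (bdPerm F α).SameCycle (arc c false) (arc c true) := by
          intro h4
          have h5 := sameCycle_mem (bdPerm F α) (sidesOf_finite α _) (sidesOf_inv h _)
            (arc_mem_sides h hc false : arc c false ∈ α.sidesOf _) h4
          exact Set.disjoint_left.1 hd h5 (arc_mem_sides h hc true)
        have h5 := ncyc_swap_mul_merge (bdPerm F α) (uset_finite α c) (uset_inv h c)
          (false_mem_uset h hc) (true_mem_uset h hc) h4
        have h6 : ncyc (bdPerm F α) (α.uset c) =
            ncyc (bdPerm F α) (α.sidesOf (α.reg (arc c false))) +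
            ncyc (bdPerm F α) (α.sidesOf (α.reg (arc c true))) :=
          ncyc_union (bdPerm F α) (sidesOf_finite α _) (sidesOf_finite α _) (sidesOf_inv h _) hd
        exact ⟨g1 + g2, by omega⟩
    · rw [not_or] at h1
      rw [ncyc_del_other h hc h1, betti_del_other h1]
      exact h.genus i hi
  euler := by
    have h1 := h.euler
    have h2 := numReg_del h hc
    have h3 := totalBetti_del α c
    have h4 := arcs_del h hc
    split_ifs at h2 h3 <;> omega
  conn := by
    intro j hj
    obtain ⟨i, hi, rfl⟩ := (mem_regs_del_iff h hc).1 hj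
    exact conn_del_aux h (h.conn i hi)
  punc_len := by
    rw [← h.punc_len]
    simp [Fam.del]
  punc_mem := by
    intro j hj
    simp only [Fam.del, List.mem_map] at hj
    obtain ⟨i, hi, rfl⟩ := hj
    exact un_mem_regs_del h hc (h.punc_mem i hi)
  small := by
    intro _ j hj hp hb
    obtain ⟨i, hi, rfl⟩ := (mem_regs_del_iff h hc).1 hj
    have hp' : ∀ k ∈ α.punc, α.un c k ≠ α.un c i := by
      intro k hk he
      apply hp
      simp only [Fam.del, List.mem_map]
      exact ⟨k, hk, he⟩
    by_cases h1 : i = α.reg (arc c false) ∨ i = α.reg (arc c true)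
    · by_cases h2 : α.reg (arc c false) = α.reg (arc c true)
      · rw [betti_del_self h1 h2] at hb
        omega
      · rw [betti_del_merged h1 h2] at hb
        have h3 := count_del_merged h h1 h2
        have e1 : α.un c (α.reg (arc c false)) = α.un c i := by
          rw [un, un, union_eq_union]; omega
        have e2 : α.un c (α.reg (arc c true)) = α.un c i := by
          rw [un, un, union_eq_union]; omega
        have h4 := h.small (by omega) _ (reg_mem_regs h hc false) (fun hk => hp' _ hk e1) (by omega)
        have h5 := h.small (by omega) _ (reg_mem_regs h hc true) (fun hk => hp' _ hk e2) (by omega)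
        omega
    · rw [not_or] at h1
      rw [count_del_other h h1]
      rw [betti_del_other h1] at hb
      exact h.small (by omega) i hi (fun hk => hp' _ hk rfl) hb

/-! ### the rank -/

lemma punc_del (α : Fam) (c : ℕ) : (α.del c).punc = α.punc.map (α.un c) := rfl

lemma card_le_length (l : List ℕ) : l.toFinset.card ≤ l.length := List.toFinset_card_le l

theorem rank_del_self {c : ℕ} (_h : α.IsFam0 F) (_hc : c < α.arcs) (hs : α.selfArc c) :
    (α.del c).rank = α.rank + 1 := by
  unfold selfArc at hs
  have h1 : (α.un c) = id := by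
    ext x; rw [un, hs, union_self]; rfl
  unfold rank
  rw [punc_del, h1, List.map_id, totalBetti_del, if_pos hs]
  omega

theorem rank_del_punc {c : ℕ} (_h : α.IsFam0 F) (_hc : c < α.arcs) (hs : ¬ α.selfArc c)
    (h1 : α.reg (arc c false) ∈ α.punc) (h2 : α.reg (arc c true) ∈ α.punc) :
    (α.del c).rank = α.rank + 1 := by
  unfold selfArc at hs
  have h3 : ((α.punc.map (α.un c)).toFinset).card + 1 = α.punc.toFinset.card := by
    set m := max (α.reg (arc c false)) (α.reg (arc c true)) with hm
    have hm' : m ∈ α.punc.toFinset := by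
      rw [List.mem_toFinset]
      rcases max_choice (α.reg (arc c false)) (α.reg (arc c true)) with h3 | h3
      · rw [hm, h3]; exact h1
      · rw [hm, h3]; exact h2
    have h4 : (α.punc.map (α.un c)).toFinset = (α.punc.toFinset.erase m).image (α.un c) := by
      ext j
      simp only [List.mem_toFinset, List.mem_map, Finset.mem_image, Finset.mem_erase, ne_eq]
      constructor
      · rintro ⟨i, hi, rfl⟩
        by_cases h4 : i = m
        · refine ⟨min (α.reg (arc c false)) (α.reg (arc c true)), ⟨by omega, ?_⟩, ?_⟩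
          · rcases min_choice (α.reg (arc c false)) (α.reg (arc c true)) with h3 | h3
            · rw [h3]; exact h1
            · rw [h3]; exact h2
          · rw [un, un, union_eq_union]; omega
        · exact ⟨i, ⟨h4, hi⟩, rfl⟩
      · rintro ⟨i, ⟨_, hi⟩, rfl⟩
        exact ⟨i, hi, rfl⟩
    rw [h4, Finset.card_image_of_injOn, Finset.card_erase_of_mem hm']
    · have := Finset.card_pos.2 ⟨m, hm'⟩
      omega
    · intro x hx y hy hxy
      simp only [Finset.coe_erase, Set.mem_sdiff, Set.mem_singleton_iff] at hx hy
      have hxy' : union (α.reg (arc c false)) (α.reg (arc c true)) x =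
        union (α.reg (arc c false)) (α.reg (arc c true)) y := hxy
      rw [union_eq_union] at hxy'
      omega
  unfold rank
  rw [punc_del, totalBetti_del, if_neg hs, List.length_map]
  have h5 := card_le_length α.punc
  omega

theorem rank_del_other {c : ℕ} (_h : α.IsFam0 F) (_hc : c < α.arcs) (hs : ¬ α.selfArc c)
    (h1 : ¬ (α.reg (arc c false) ∈ α.punc ∧ α.reg (arc c true) ∈ α.punc)) :
    (α.del c).rank = α.rank := by
  unfold selfArc at hs
  have h3 : ((α.punc.map (α.un c)).toFinset).card = α.punc.toFinset.card := by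
    have h4 : (α.punc.map (α.un c)).toFinset = α.punc.toFinset.image (α.un c) := by
      ext j
      simp only [List.mem_toFinset, List.mem_map, Finset.mem_image]
    rw [h4]
    apply Finset.card_image_of_injOn
    intro x hx y hy hxy
    rw [Finset.mem_coe, List.mem_toFinset] at hx hy
    have hxy' : union (α.reg (arc c false)) (α.reg (arc c true)) x =
      union (α.reg (arc c false)) (α.reg (arc c true)) y := hxy
    rw [union_eq_union] at hxy'
    rcases hxy' with h4 | ⟨h4 | h4, h5 | h5⟩
    · exact h4
    · rw [h4, h5]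
    · exact absurd ⟨h4 ▸ hx, h5 ▸ hy⟩ h1
    · exact absurd ⟨h5 ▸ hy, h4 ▸ hx⟩ h1
    · rw [h4, h5]
  unfold rank
  rw [punc_del, totalBetti_del, if_neg hs, List.length_map, h3, add_zero]

theorem changes_iff {c : ℕ} (h : α.IsFam0 F) (hc : c < α.arcs) :
    α.changes c ↔ (α.selfArc c ∨
      (α.reg (arc c false) ∈ α.punc ∧ α.reg (arc c true) ∈ α.punc)) := by
  unfold changes
  by_cases hs : α.selfArc c
  · have := rank_del_self h hc hs
    simp only [hs, true_or, iff_true]
    omega
  · by_cases h1 : α.reg (arc c false) ∈ α.punc ∧ α.reg (arc c true) ∈ α.punc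
    · have := rank_del_punc h hc hs h1.1 h1.2
      simp only [h1, and_self, or_true, iff_true]
      omega
    · have := rank_del_other h hc hs h1
      simp only [hs, h1, or_self, iff_false, ne_eq, not_not]
      exact this

end Fam

end ArcC
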