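import Mathlib
import Pool.Agent.Lib.MP_e5080e_gt.AmRaw

/-! The glued raw family. -/

namespace ArcC.Da

open Equiv Side

/-- the sides of the region `j` in order -/
def regL (j : ℕ) (S : List (Side × ℕ)) : List Side :=
  (S.filter (fun s => s.2 = j)).map Prod.fst

/-- the point `i` goes to the element number `i` of `X` -/
def plug (X : List Side) : Side → Side
  | pt i => X.getD i (pt 0)
  | arc a b => arc a b

@[simp] lemma plug_pt (X : List Side) (i : ℕ) : plug X (pt i) = X.getD i (pt 0) := rfl
@[simp] lemma plug_arc (X : List Side) (a : ℕ) (b : Bool) : plug X (arc a b) = arc a b := rfl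

/-- hypotheses for gluing -/
structure GlueHyp (F : Surf) (j : ℕ) (S : List (Side × ℕ)) (w : List Side) (ρ : Perm ℕ) :
    Prop where
  wd : RawWord (regL j S).length w
  disj : ∀ a, a ∈ lab w → a ∉ lab (S.map Prod.fst)
  rho_fix : ∀ i, (regL j S).length ≤ i → ρ i = i
  rho : ∀ i, i < (regL j S).length → (regL j S).getD (ρ i) (pt 0) =
    face F.rot F.n (S.map Prod.fst) ((regL j S).getD i (pt 0))

lemma mem_regL {j : ℕ} {S : List (Side × ℕ)} {x : Side} : x ∈ regL j S ↔ (x, j) ∈ S := by
  unfold regL
  simp only [List.mem_map, List.mem_filter, decide_eq_true_eq]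
  constructor
  · rintro ⟨⟨y, i⟩, ⟨h1, h2⟩, h3⟩
    simp only at h2 h3; subst h2; subst h3; exact h1
  · intro h; exact ⟨(x, j), ⟨h, rfl⟩, rfl⟩

lemma regL_sublist (j : ℕ) (S : List (Side × ℕ)) : List.Sublist (regL j S) (S.map Prod.fst) :=
  (List.filter_sublist).map _

lemma range_map_getD {α : Type*} (X : List α) (d : α) :
    (List.range X.length).map (fun i => X.getD i d) = X := by
  apply List.ext_getElem
  · simp
  · intro i h1 h2; simp [h2]

lemma face_mem_word {n : ℕ} {w : List Side} (h : RawWord n w) {ρ : Perm ℕ}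
    (hρ : ∀ i, n ≤ i → ρ i = i) {x : Side} (hx : x ∈ w) : face ρ n w x ∈ w := by
  unfold face
  simp only [Perm.coe_mul, Function.comp_apply]
  have h1 : w.formPerm x ∈ w := List.formPerm_apply_mem_of_mem hx
  generalize w.formPerm x = v at h1
  cases v with
  | arc a b => exact h.full a b h1
  | pt i =>
    have hi : pt i ∈ w.filter isPt := List.mem_filter.2 ⟨h1, rfl⟩
    rw [h.pts] at hi
    simp only [List.mem_map, List.mem_range, pt.injEq, exists_eq_right] at hi
    simp only [ptPerm_pt, mate_pt]
    have h3 : ∀ m, n ≤ m → (ρ * (List.range n).formPerm⁻¹) m = m := by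
      intro m hm
      have : (List.range n).formPerm⁻¹ m = m := by
        rw [Perm.inv_eq_iff_eq]
        symm
        exact List.formPerm_apply_of_notMem (by simpa using hm)
      rw [Perm.coe_mul, Function.comp_apply, this, hρ _ hm]
    have h2 : (ρ * (List.range n).formPerm⁻¹) i < n := by
      by_contra hc
      push Not at hc
      have h4 := (ρ * (List.range n).formPerm⁻¹).injective (h3 _ hc)
      omega
    have h5 : pt ((ρ * (List.range n).formPerm⁻¹) i) ∈ w.filter isPt := by
      rw [h.pts]; simpa using h2
    exact (List.mem_filter.1 h5).1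

section

variable {F : Surf} {j : ℕ} {S : List (Side × ℕ)} {be : ℕ →₀ ℕ} {pu : List ℕ} {w : List Side}
  {ρ : Perm ℕ} {G : List (Side × ℕ)}

lemma GlueHyp.pt_mem (g : GlueHyp F j S w ρ) {i : ℕ} : pt i ∈ w ↔ i < (regL j S).length := by
  have : pt i ∈ w ↔ pt i ∈ w.filter isPt := by rw [List.mem_filter]; simp
  rw [this, g.wd.pts]; simp

lemma GlueHyp.regL_glue (g : GlueHyp F j S w ρ) (hA : Am j false S w G) :
    regL j G = w.map (plug (regL j S)) := by
  refine hA.filter_reg _ (fun a b => rfl) ?_
  rw [g.wd.pts, List.map_map]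
  have : (plug (regL j S) ∘ pt) = fun i => (regL j S).getD i (pt 0) := rfl
  rw [this, range_map_getD]
  rfl

lemma GlueHyp.plug_injOn (g : GlueHyp F j S w ρ) (hn : (S.map Prod.fst).Nodup) :
    Set.InjOn (plug (regL j S)) {x | x ∈ w} := by
  have hX : (regL j S).Nodup := hn.sublist (regL_sublist j S)
  intro x hx y hy hxy
  cases x with
  | pt i =>
    have hi := g.pt_mem.1 hx
    cases y with
    | pt i' =>
      have hi' := g.pt_mem.1 hy
      simp only [plug_pt] at hxy
      rw [List.getD_eq_getElem _ _ hi, List.getD_eq_getElem _ _ hi'] at hxy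
      rw [(hX.getElem_inj_iff).1 hxy]
    | arc a b =>
      exfalso
      simp only [plug_pt, plug_arc] at hxy
      rw [List.getD_eq_getElem _ _ hi] at hxy
      apply g.disj a ⟨b, hy⟩
      refine ⟨b, (regL_sublist j S).subset ?_⟩
      rw [← hxy]; exact List.getElem_mem hi
  | arc a b =>
    cases y with
    | pt i' =>
      have hi' := g.pt_mem.1 hy
      exfalso
      simp only [plug_pt, plug_arc] at hxy
      rw [List.getD_eq_getElem _ _ hi'] at hxy
      apply g.disj a ⟨b, hx⟩
      refine ⟨b, (regL_sublist j S).subset ?_⟩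
      rw [hxy]; exact List.getElem_mem hi'
    | arc a' b' => simpa using hxy

lemma Am.map_perm {j : ℕ} {fl : Bool} (hA : Am j fl S w G) :
    (G.map Prod.fst).Perm (S.map Prod.fst ++ w.filter (fun x => !(isPt x))) := by
  have := hA.perm.map Prod.fst
  simpa [List.map_map, Function.comp_def] using this

lemma GlueHyp.nodup (g : GlueHyp F j S w ρ) (hn : (S.map Prod.fst).Nodup)
    (hA : Am j false S w G) : (G.map Prod.fst).Nodup := by
  rw [hA.map_perm.nodup_iff, List.nodup_append]
  refine ⟨hn, g.wd.nodup.filter _, ?_⟩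
  intro x hx y hy hxy
  subst hxy
  rw [List.mem_filter] at hy
  cases x with
  | pt i => simp at hy
  | arc a b => exact g.disj a ⟨b, hy.1⟩ ⟨b, hx⟩

lemma GlueHyp.face_other (g : GlueHyp F j S w ρ) (hn : (S.map Prod.fst).Nodup)
    (hA : Am j false S w G) {x : Side} (hx : x ∉ regL j G) (q : Perm ℕ) (n : ℕ) :
    face q n (G.map Prod.fst) x = face q n (S.map Prod.fst) x := by
  unfold face
  simp only [Perm.coe_mul, Function.comp_apply]
  rw [hA.formPerm_eq' (g.nodup hn hA)]
  simp only [Perm.coe_mul, Function.comp_apply]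
  have h1 : ((G.filter (fun s => s.2 = j)).map Prod.fst).formPerm x = x :=
    List.formPerm_apply_of_notMem hx
  rw [h1]
  have h2 : ((S.filter (fun s => s.2 = j)).map Prod.fst).formPerm⁻¹ x = x := by
    rw [Perm.inv_eq_iff_eq]; symm
    apply List.formPerm_apply_of_notMem
    intro hc
    exact hx (((hA.sublist.filter _).map _).subset hc)
  rw [h2]

lemma GlueHyp.face_self (g : GlueHyp F j S w ρ) (hn : (S.map Prod.fst).Nodup)
    (hA : Am j false S w G) {u : Side} (hu : u ∈ w) :
    face F.rot F.n (G.map Prod.fst) (plug (regL j S) u) =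
      plug (regL j S) (face ρ (regL j S).length w u) := by
  have hX : (regL j S).Nodup := hn.sublist (regL_sublist j S)
  conv_lhs => unfold face
  conv_rhs => unfold face
  simp only [Perm.coe_mul, Function.comp_apply]
  rw [hA.formPerm_eq' (g.nodup hn hA)]
  simp only [Perm.coe_mul, Function.comp_apply]
  have h0 : ((G.filter (fun s => s.2 = j)).map Prod.fst) = w.map (plug (regL j S)) :=
    g.regL_glue hA
  rw [h0, formPerm_map_apply g.wd.nodup (g.plug_injOn hn) hu]
  have hv : w.formPerm u ∈ w := List.formPerm_apply_mem_of_mem hu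
  generalize w.formPerm u = v at hv
  have hXe : ((S.filter (fun s => s.2 = j)).map Prod.fst) = regL j S := rfl
  rw [hXe]
  cases v with
  | arc a b =>
    have h1 : arc a b ∉ regL j S := fun hc => g.disj a ⟨b, hv⟩
      ⟨b, (regL_sublist j S).subset hc⟩
    have h2 : arc a b ∉ S.map Prod.fst := fun hc => g.disj a ⟨b, hv⟩ ⟨b, hc⟩
    have h3 : (regL j S).formPerm⁻¹ (arc a b) = arc a b := by
      rw [Perm.inv_eq_iff_eq]; symm
      exact List.formPerm_apply_of_notMem h1
    rw [plug_arc, h3, List.formPerm_apply_of_notMem h2]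
    simp
  | pt i =>
    have hi := g.pt_mem.1 hv
    have hc : (List.range (regL j S).length).formPerm⁻¹ i < (regL j S).length := by
      have h1 : (List.range (regL j S).length).formPerm
          ((List.range (regL j S).length).formPerm⁻¹ i) ∈
            List.range (regL j S).length := by simpa using hi
      have := List.mem_of_formPerm_apply_mem h1
      simpa using this
    have h3 : (regL j S).formPerm⁻¹ (plug (regL j S) (pt i)) =
        (regL j S).getD ((List.range (regL j S).length).formPerm⁻¹ i) (pt 0) := by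
      rw [Perm.inv_eq_iff_eq]
      have h4 := formPerm_map_apply (f := fun i => (regL j S).getD i (pt 0))
        (l := List.range (regL j S).length) List.nodup_range (by
          intro a ha b hb hab
          simp only [Set.mem_ofPred_eq, List.mem_range] at ha hb
          simp only at hab
          rw [List.getD_eq_getElem _ _ ha, List.getD_eq_getElem _ _ hb] at hab
          exact (hX.getElem_inj_iff).1 hab)
        (x := (List.range (regL j S).length).formPerm⁻¹ i) (by simpa using hc)
      rw [range_map_getD] at h4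
      rw [h4]; simp
    rw [h3]
    have h5 := g.rho _ hc
    unfold face at h5
    simp only [Perm.coe_mul, Function.comp_apply] at h5
    rw [← h5]
    simp

end

end ArcC.Da
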