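import Mathlib
import Pool.Agent.Lib.MP_e5080e_gt.GlueRaw

/-! The glued raw family is a family. -/

namespace ArcC.Da

open Equiv Side

lemma label_unique {G : List (Side × ℕ)} (hn : (G.map Prod.fst).Nodup) {x : Side} {i i' : ℕ}
    (h : (x, i) ∈ G) (h' : (x, i') ∈ G) : i = i' := by
  have := List.inj_on_of_nodup_map hn h h' rfl
  simpa using this

lemma narc_filter_notPt (w : List Side) : narc (w.filter (fun x => !(isPt x))) = narc w := by
  unfold narc
  rw [List.filter_filter]
  congr 1
  apply List.filter_congr
  intro x _
  cases x <;> simp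

lemma narc_perm {l l' : List Side} (h : l.Perm l') : narc l = narc l' :=
  (h.filter _).length_eq

lemma narc_append (l l' : List Side) : narc (l ++ l') = narc l + narc l' := by
  unfold narc; rw [List.filter_append, List.length_append]

lemma Am.narc_eq {j : ℕ} {fl : Bool} {S G : List (Side × ℕ)} {w : List Side}
    (hA : Am j fl S w G) : narc (G.map Prod.fst) = narc (S.map Prod.fst) + narc w := by
  rw [narc_perm hA.map_perm, narc_append, narc_filter_notPt]

lemma Am.count_eq {j : ℕ} {fl : Bool} {S G : List (Side × ℕ)} {w : List Side}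
    (hA : Am j fl S w G) (i : ℕ) : (G.map Prod.snd).count i = (S.map Prod.snd).count i +
      if i = j then (w.filter (fun x => !(isPt x))).length else 0 := by
  rw [(hA.perm.map Prod.snd).count_eq, List.map_append, List.count_append]
  congr 1
  rw [List.map_map]
  have : (Prod.snd ∘ fun x : Side => (x, j)) = fun _ => j := rfl
  rw [this, List.map_const', List.count_replicate]
  by_cases h : i = j
  · simp [h]
  · simp [h, Ne.symm h]

lemma RawWord.two_le {n : ℕ} {w : List Side} (h : RawWord n w) (hk : narc w ≠ 0) :
    2 ≤ (w.filter (fun x => !(isPt x))).length := by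
  unfold narc at hk
  have h1 : w.filter isFirst ≠ [] := by intro hc; simp [hc] at hk
  obtain ⟨x, hx⟩ := List.exists_mem_of_ne_nil _ h1
  rw [List.mem_filter] at hx
  cases x with
  | pt i => simp at hx
  | arc a b =>
    have h2 := (h.mates a b hx.1).filter (fun x => !(isPt x))
    have := h2.length_le
    simpa [List.filter_cons] using this

lemma ncyc_pos {α : Type*} {p : Perm α} {s : Set α} (hs : s.Finite) (hne : s.Nonempty) :
    0 < ncyc p s := by
  unfold ncyc
  rw [Set.ncard_pos (hs.image _)]
  exact hne.image _

lemma RawWord.ncyc_pos {n : ℕ} {w : List Side} (h : RawWord n w) (p : Perm Side) :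
    0 < ncyc p {x | x ∈ w} := by
  apply Da.ncyc_pos w.finite_toSet
  cases hw : w with
  | nil => have := h.head; simp [hw] at this
  | cons x w => exact ⟨x, by simp⟩

variable {F : Surf} {j : ℕ} {S : List (Side × ℕ)} {be : ℕ →₀ ℕ} {pu : List ℕ} {w : List Side}
  {ρ : Perm ℕ} {G : List (Side × ℕ)}

lemma GlueHyp.rawWord (g : GlueHyp F j S w ρ) (hS : RawWord F.n (S.map Prod.fst))
    (hA : Am j false S w G) : RawWord F.n (G.map Prod.fst) := by
  refine ⟨g.nodup hS.nodup hA, ?_, ?_, ?_⟩
  · have h1 := hS.head
    rw [List.head?_map] at h1 ⊢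
    rw [hA.head_eq]; exact h1
  · rw [← hS.pts, List.filter_map, List.filter_map]
    congr 1
    apply hA.filter_eq
    intro x _ hx2
    simpa using hx2
  · intro a b hab
    have hmem : arc a b ∈ S.map Prod.fst ∨ arc a b ∈ w := by
      have := hA.map_perm.mem_iff.1 hab
      rw [List.mem_append, List.mem_filter] at this
      tauto
    rcases hmem with h | h
    · exact (hS.mates a b h).trans (hA.sublist.map _)
    · have h1 := (g.wd.mates a b h).filter (fun x => !(isPt x))
      have h2 := (hA.sublist_extra).map Prod.fst
      rw [List.map_map] at h2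
      have h3 : (Prod.fst ∘ fun x : Side => (x, j)) = id := rfl
      rw [h3, List.map_id] at h2
      simpa [List.filter_cons] using h1.trans h2

lemma sum_sub_single {be : ℕ →₀ ℕ} {j K : ℕ} (h : K ≤ be j) :
    (be - Finsupp.single j K).sum (fun _ m => m) + K = be.sum (fun _ m => m) := by
  have h1 : be = (be - Finsupp.single j K) + Finsupp.single j K := by
    ext i
    rw [Finsupp.add_apply, Finsupp.tsub_apply]
    by_cases hi : i = j
    · subst hi; simp; omega
    · rw [Finsupp.single_eq_of_ne hi]; omega
  conv_rhs => rw [h1]
  rw [Finsupp.sum_add_index' (by simp) (by simp), Finsupp.sum_single_index rfl]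

theorem GlueHyp.rawFam (h : RawFam F S be pu) (g : GlueHyp F j S w ρ) (hA : Am j false S w G)
    (hK : narc w + ncyc (face ρ (regL j S).length w) {x | x ∈ w} ≤ be j + 1)
    (hpar : (narc w + ncyc (face ρ (regL j S).length w) {x | x ∈ w}) % 2 = (be j + 1) % 2) :
    RawFam F G (be - Finsupp.single j (narc w)) pu := by
  have hGn := g.nodup h.word.nodup hA
  have hpos := g.wd.ncyc_pos (face ρ (regL j S).length w)
  have hKj : narc w ≤ be j := by omega
  have hjS : j ∈ S.map Prod.snd := by
    have h0 : pt 0 ∈ w := by
      have := g.wd.head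
      cases hw : w with
      | nil => simp [hw] at this
      | cons x w' => simp [hw] at this; simp [this]
    have h1 := g.pt_mem.1 h0
    have h2 : (regL j S)[0] ∈ regL j S := List.getElem_mem h1
    rw [mem_regL] at h2
    exact List.mem_map_of_mem (f := Prod.snd) h2
  have hsub : ∀ i, i ≠ j → {x | (x, i) ∈ G} = {x | (x, i) ∈ S} := by
    intro i hi; ext x
    simp only [Set.mem_ofPred_eq, hA.mem_iff]
    constructor
    · rintro (h | ⟨h, _⟩)
      · exact h
      · exact absurd h hi
    · exact Or.inl
  have hne : ∀ x i, i ≠ j → (x, i) ∈ G → x ∉ regL j G := by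
    intro x i hi hx hc
    rw [mem_regL] at hc
    exact hi (label_unique hGn hx hc)
  have hset : {x | (x, j) ∈ G} = plug (regL j S) '' {x | x ∈ w} := by
    ext x
    have h1 := g.regL_glue hA
    simp only [Set.mem_ofPred_eq, Set.mem_image]
    rw [← mem_regL, h1, List.mem_map]
  have hfw : ∀ x ∈ w, face ρ (regL j S).length w x ∈ w := fun x hx =>
    face_mem_word g.wd g.rho_fix hx
  constructor
  · exact g.rawWord h.word hA
  · exact hA.canon h.canon
  · intro x i hx
    by_cases hi : i = j
    · subst hi
      have h1 : x ∈ plug (regL i S) '' {x | x ∈ w} := by rw [← hset]; exact hx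
      obtain ⟨u, hu, rfl⟩ := h1
      rw [g.face_self h.word.nodup hA hu]
      have : plug (regL i S) (face ρ (regL i S).length w u) ∈ {x | (x, i) ∈ G} := by
        rw [hset]; exact ⟨_, hfw u hu, rfl⟩
      exact this
    · rw [g.face_other h.word.nodup hA (hne x i hi hx)]
      have h1 : x ∈ {x | (x, i) ∈ G} := hx
      rw [hsub i hi] at h1
      have h2 : face F.rot F.n (S.map Prod.fst) x ∈ {x | (x, i) ∈ S} := h.face_reg x i h1
      rw [← hsub i hi] at h2
      exact h2
  · intro i hi
    rw [hA.mem_regs] at hi
    rw [Finsupp.tsub_apply, h.supp i hi]; simp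
  · intro i hi
    by_cases hij : i = j
    · subst hij
      rw [hset, ncyc_image w.finite_toSet (fun x hx => hfw x hx) (g.plug_injOn h.word.nodup)
        (fun x hx => g.face_self h.word.nodup hA hx)]
      rw [Finsupp.tsub_apply, Finsupp.single_eq_same]
      refine ⟨(be i + 1 - (narc w + ncyc (face ρ (regL i S).length w) {x | x ∈ w})) / 2, ?_⟩
      omega
    · rw [hA.mem_regs] at hi
      obtain ⟨g', hg'⟩ := h.genus i hi
      refine ⟨g', ?_⟩
      rw [Finsupp.tsub_apply, Finsupp.single_eq_of_ne hij, hsub i hij, tsub_zero, hg']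
      congr 1
      symm
      apply ncyc_congr (finite_sidesOf S i) (fun x hx => h.face_reg x i hx)
      intro x hx
      apply g.face_other h.word.nodup hA
      apply hne x i hij
      have : x ∈ {x | (x, i) ∈ G} := by rw [hsub i hij]; exact hx
      exact this
  · have h1 : (G.map Prod.snd).toFinset = (S.map Prod.snd).toFinset := by
      ext i; rw [List.mem_toFinset, List.mem_toFinset, hA.mem_regs]
    rw [h1, hA.narc_eq]
    have h2 := h.euler
    have h3 := sum_sub_single hKj
    push_cast
    rw [← h3] at h2
    push_cast at h2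
    linarith
  · intro i hi
    rw [hA.mem_regs] at hi
    refine Relation.ReflTransGen.mono ?_ _ _ (h.conn i hi)
    rintro i i' ⟨a, b, h1, h2⟩
    exact ⟨a, b, hA.sublist.subset h1, hA.sublist.subset h2⟩
  · exact h.punc_len
  · intro i hi; rw [hA.mem_regs]; exact h.punc_mem i hi
  · intro hk i hi hip hbi
    rw [hA.mem_regs] at hi
    rw [hA.count_eq]
    rw [hA.narc_eq] at hk
    have hpi : 0 < (S.map Prod.snd).count i := List.count_pos_iff.2 hi
    by_cases hij : i = j
    · subst hij
      rw [if_pos rfl]
      by_cases hw0 : narc w = 0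
      · rw [hw0] at hk hbi
        have := h.small (by omega) i hi hip (by simpa using hbi)
        omega
      · have := g.wd.two_le hw0
        omega
    · rw [if_neg hij]
      rw [Finsupp.tsub_apply, Finsupp.single_eq_of_ne hij, tsub_zero] at hbi
      have hk' : narc (S.map Prod.fst) ≠ 0 := by
        intro hc
        have hno : ∀ a b, arc a b ∉ S.map Prod.fst := by
          intro a b hab
          have h1 := h.word.full.first hab
          have h2 : arc a false ∈ (S.map Prod.fst).filter isFirst :=
            List.mem_filter.2 ⟨h1, rfl⟩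
          have h3 : 0 < narc (S.map Prod.fst) := List.length_pos_of_mem h2
          omega
        have hz : ∀ i, i ∈ S.map Prod.snd → i = 0 := by
          intro i hi
          have h1 := h.conn i hi
          rcases Relation.ReflTransGen.cases_tail h1 with h2 | ⟨c, _, a, b, h3, h4⟩
          · exact h2
          · exact absurd (List.mem_map_of_mem (f := Prod.fst) h4) (hno _ _)
        exact hij ((hz i hi).trans (hz j hjS).symm)
      have := h.small hk' i hi hip hbi
      omega

end ArcC.Da
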