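import Mathlib
import Pool.Agent.Lib.MP_e5080e_gt.GlueRaw2
import Pool.Agent.Lib.MP_e5080e_gt.Faces

/-! The type of a region, and the parity of the number of boundary cycles of a word. -/

namespace ArcC.Da

open Equiv Side

/-! ### parity for words -/

lemma ncyc_range {n : ℕ} {ρ : Perm ℕ} (hρ : ∀ i, n ≤ i → ρ i = i) {γ : Type*} {q : Perm γ}
    (f : ℕ → γ) (hf : Set.InjOn f (Set.Iio n)) (hq : ∀ i < n, q (f i) = f (ρ i)) :
    ncyc q (f '' Set.Iio n) = ncyc ρ (Set.Iio n) := by
  apply ncyc_image (Set.finite_Iio n) _ hf (fun x hx => hq x hx)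
  intro x hx
  simp only [Set.mem_Iio] at hx ⊢
  by_contra hc
  push Not at hc
  have := ρ.injective (hρ _ hc)
  omega

lemma word_parity {n k : ℕ} {w : List Side} (h : IsWord n k w) {ρ : Perm ℕ}
    (hρ : ∀ i, n ≤ i → ρ i = i) :
    (k + ncyc (face ρ n w) {x | x ∈ w}) % 2 = ncyc ρ (Set.Iio n) % 2 := by
  induction k generalizing w with
  | zero =>
    have hw : w = (List.range n).map pt := by
      rw [← h.pts]
      symm
      rw [List.filter_eq_self]
      intro x hx
      cases x with
      | pt i => rfl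
      | arc a b => exact absurd ((h.mem a b).1 hx) (by omega)
    subst hw
    have hset : {x | x ∈ (List.range n).map pt} = pt '' Set.Iio n := by
      ext x; simp
    rw [hset, zero_add, ncyc_range hρ]
    · intro a _ b _ e; simpa using e
    · intro i hi
      unfold face
      simp only [Perm.coe_mul, Function.comp_apply]
      rw [formPerm_map_apply List.nodup_range (by intro a _ b _ e; simpa using e)
        (by simpa using hi)]
      simp
  | succ k ih =>
    have hc : k < k + 1 := by omega
    have h1 := ih (h.del hc)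
    rw [ncyc_wdel h hc hρ] at h1
    have hU : ∀ x ∈ {x | x ∈ w}, face ρ n w x ∈ {x | x ∈ w} := fun x hx => face_mem h hρ hx
    have h2 : arc k false ∈ {x | x ∈ w} := (h.mem _ _).2 hc
    have h3 : arc k true ∈ {x | x ∈ w} := (h.mem _ _).2 hc
    have hfin : ({x | x ∈ w} : Set Side).Finite := List.finite_toSet w
    by_cases h4 : (face ρ n w).SameCycle (arc k false) (arc k true)
    · have h5 := ncyc_swap_mul_split _ hfin hU h2 h3 (by simp) h4
      omega
    · have h5 := ncyc_swap_mul_merge _ hfin hU h2 h3 h4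
      omega

/-! ### the type -/

variable {F : Surf} {j : ℕ} {α : Fam}

lemma sidesL_eq (j : ℕ) (α : Fam) : α.sidesL j = regL j α.sides := rfl

lemma bdPerm_mem_iff (h : α.IsFam0 F) (j : ℕ) (x : Side) :
    x ∈ α.sidesL j ↔ α.bdPerm F x ∈ α.sidesL j := by
  rw [sidesL_eq, mem_regL, mem_regL]
  constructor
  · exact h.face_reg x j
  · intro hx
    have := zpow_maps (finite_sidesOf α.sides j) (fun y hy => h.face_reg y j hy) (-1) _ hx
    simpa using this

lemma exists_rho (h : α.IsFam0 F) (j : ℕ) : ∃ ρ : Perm ℕ, α.IsRho F j ρ := by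
  have hn : (α.sidesL j).Nodup := h.word.nodup.sublist (regL_sublist j α.sides)
  let e : Fin (α.sidesL j).length ≃ {x // x ∈ α.sidesL j} := hn.getEquiv (α.sidesL j)
  let q : Perm {x // x ∈ α.sidesL j} :=
    (α.bdPerm F).subtypePerm (fun x => (bdPerm_mem_iff h j x).symm)
  let p : Perm (Fin (α.sidesL j).length) := (e.trans q).trans e.symm
  refine ⟨p.extendDomain Fin.equivSubtype, ?_, ?_⟩
  · intro i hi
    rw [Perm.extendDomain_apply_not_subtype]
    omega
  · intro i hi
    have h1 := Perm.extendDomain_apply_image p Fin.equivSubtype ⟨i, hi⟩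
    have h2 : ((Fin.equivSubtype (⟨i, hi⟩ : Fin (α.sidesL j).length)) : ℕ) = i := rfl
    rw [h2] at h1
    rw [h1]
    have h3 : ((Fin.equivSubtype (p ⟨i, hi⟩)) : ℕ) = (p ⟨i, hi⟩ : ℕ) := rfl
    rw [h3, List.getElem?_eq_getElem (p ⟨i, hi⟩).2]
    congr 1
    have h4 : e (p ⟨i, hi⟩) = q (e ⟨i, hi⟩) := by simp [p]
    have h5 : ((e (p ⟨i, hi⟩)) : Side) = (α.sidesL j)[(p ⟨i, hi⟩ : ℕ)] := rfl
    have h6 : ((e ⟨i, hi⟩ : {x // x ∈ α.sidesL j}) : Side) = (α.sidesL j)[i] := rfl
    rw [← h5, h4]
    exact congrArg (α.bdPerm F) h6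

lemma rho_spec (h : α.IsFam0 F) (j : ℕ) : α.IsRho F j (α.rho F j) := by
  unfold Fam.rho
  rw [dif_pos (exists_rho h j)]
  exact (exists_rho h j).choose_spec

lemma isRho_lt {ρ : Perm ℕ} (h : α.IsRho F j ρ) {i : ℕ} (hi : i < (α.sidesL j).length) :
    ρ i < (α.sidesL j).length := by
  have := h.2 i hi
  rw [List.getElem?_eq_some_iff] at this
  exact this.1

lemma isRho_unique {ρ ρ' : Perm ℕ} (hn : (α.sidesL j).Nodup) (h : α.IsRho F j ρ)
    (h' : α.IsRho F j ρ') : ρ = ρ' := by
  ext i
  by_cases hi : i < (α.sidesL j).length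
  · have h1 := h.2 i hi
    have h2 := h'.2 i hi
    rw [List.getElem?_eq_some_iff] at h1 h2
    obtain ⟨h3, h4⟩ := h1
    obtain ⟨h5, h6⟩ := h2
    exact (hn.getElem_inj_iff).1 (h4.trans h6.symm)
  · rw [h.1 i (by omega), h'.1 i (by omega)]

lemma rho_getD (h : α.IsFam0 F) {i : ℕ} (hi : i < (α.sidesL j).length) :
    (α.sidesL j).getD (α.rho F j i) (pt 0) = α.bdPerm F ((α.sidesL j).getD i (pt 0)) := by
  have h1 := (rho_spec h j).2 i hi
  rw [List.getD_eq_getElem?_getD, h1, List.getD_eq_getElem _ _ hi]
  rfl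

lemma reg_mem (h : α.IsFam0 F) (hj : j < α.numReg) : j ∈ α.regs := by
  by_contra hc
  have h1 : ∀ L : List ℕ, ∀ A : List ℕ, CanonFrom A L → j ∉ A → j ∉ L → ∀ r ∈ L, r < j := by
    intro L
    induction L with
    | nil => simp
    | cons s L ih =>
      intro A hA hjA hjL r hr
      have hs : s < j := by
        by_contra hc
        have h1 : s ≠ j := fun e => hjL (by simp [e])
        exact hjA (hA.1 j (by omega))
      rw [List.mem_cons] at hr
      rcases hr with rfl | hr
      · exact hs
      · exact ih (s :: A) hA.2 (by simp [hjA]; omega) (fun h => hjL (by simp [h])) r hr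
  have h2 := h1 α.regs [] (canonFrom_iff.2
    (fun p r q he r' hr' => Or.inr (h.canon p r q he r' hr'))) (by simp) hc
  have h3 : α.regs.toFinset ⊆ Finset.range j := by
    intro r hr
    rw [List.mem_toFinset] at hr
    simpa using h2 r hr
  have h4 := Finset.card_le_card h3
  rw [Finset.card_range] at h4
  unfold Fam.numReg at hj
  omega

end ArcC.Da

namespace ArcC

open Equiv Side Da

variable {F : Surf} {j : ℕ} {α : Fam}

theorem Fam.sidesL_pos (h : α.IsFam0 F) (hj : j < α.numReg) : 0 < (α.sidesL j).length := by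
  have h1 := reg_mem h hj
  unfold Fam.regs at h1
  rw [List.mem_map] at h1
  obtain ⟨⟨x, i⟩, hs, hi⟩ := h1
  simp only at hi; subst hi
  exact List.length_pos_of_mem (mem_regL.2 hs)

theorem Fam.rho_fix (F : Surf) (j : ℕ) (α : Fam) (i : ℕ) (hi : (α.sidesL j).length ≤ i) :
    α.rho F j i = i := by
  unfold Fam.rho
  split_ifs with h
  · exact h.choose_spec.1 i hi
  · rfl

theorem Da.ncyc_sidesOf (h : α.IsFam0 F) :
    ncyc (α.bdPerm F) (α.sidesOf j) = ncyc (α.rho F j) (Set.Iio (α.sidesL j).length) := by
  have hn : (α.sidesL j).Nodup := h.word.nodup.sublist (regL_sublist j α.sides)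
  have hset : α.sidesOf j =
      (fun i => (α.sidesL j).getD i (pt 0)) '' Set.Iio (α.sidesL j).length := by
    ext x
    unfold Fam.sidesOf
    rw [Set.mem_ofPred_eq, ← mem_regL, ← sidesL_eq, List.mem_iff_getElem]
    constructor
    · rintro ⟨i, hi, rfl⟩
      exact ⟨i, hi, by simp [hi]⟩
    · rintro ⟨i, hi, rfl⟩
      have hi' : i < (α.sidesL j).length := hi
      exact ⟨i, hi', by simp [hi']⟩
  rw [hset]
  apply ncyc_range (Fam.rho_fix F j α)
  · intro a ha b hb hab
    simp only [Set.mem_Iio] at ha hb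
    simp only at hab
    rw [List.getD_eq_getElem _ _ ha, List.getD_eq_getElem _ _ hb] at hab
    exact (hn.getElem_inj_iff).1 hab
  · intro i hi
    exact (rho_getD h hi).symm

theorem Fam.rho_parity (h : α.IsFam0 F) (hj : j < α.numReg) :
    (α.betti j + 1) % 2 = ncyc (α.rho F j) (Set.Iio (α.sidesL j).length) % 2 := by
  obtain ⟨g, hg⟩ := h.genus j (reg_mem h hj)
  rw [ncyc_sidesOf h] at hg
  omega

/-- `k ≤ betti j` is automatic -/
theorem Fam.CW_le {k : ℕ} {w : List Side} (hw : w ∈ α.CW F j k) : k ≤ α.betti j := by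
  have h1 := hw.2
  have h2 := hw.1.rawWord.ncyc_pos (face (α.rho F j) (α.sidesL j).length w)
  omega

/-- deletion of a self arc of `α` in a region `> j` does not change the type of the region `j` -/
theorem Fam.Stage.del_self {c : ℕ} (h : α.Stage F (j + 1)) (hc : c < α.arcs) (hs : α.selfArc c) :
    (α.del c).Stage F (j + 1) ∧ ((α.del c).sidesL j).length = (α.sidesL j).length ∧
      (α.del c).rho F j = α.rho F j ∧ (α.del c).betti j = α.betti j ∧
      (α.del c).numReg = α.numReg := by
  have hd := Fam.IsFam0.del h.fam hc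
  have hcj := h.self c hc hs
  unfold Fam.selfArc at hs
  have hU : Fam.union (α.reg (arc c false)) (α.reg (arc c true)) = id := by
    funext r; rw [hs, Fam.union_self]; rfl
  have hsides : (α.del c).sides = (α.sides.filter (fun s => !(isArc c s.1))).map
      (fun s => (shift c s.1, s.2)) := by
    unfold Fam.del; rw [hU]; rfl
  have hpunc : (α.del c).punc = α.punc := by
    unfold Fam.del; rw [hU]; simp
  have hbetti : (α.del c).betti j = α.betti j := by
    unfold Fam.del
    rw [hU, if_pos hs, Finsupp.mapDomain_id, Finsupp.add_apply,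
      Finsupp.single_eq_of_ne (by omega)]
    rfl
  have hmem : ∀ i, (∀ b, (arc c b, i) ∉ α.sides) →
      (α.del c).sidesL i = (α.sidesL i).map (shift c) := by
    intro i hi
    unfold Fam.sidesL
    rw [hsides, List.filter_map, List.map_map, List.map_map]
    have h1 : ((fun s : Side × ℕ => decide (s.2 = i)) ∘ fun s : Side × ℕ => (shift c s.1, s.2)) =
      fun s : Side × ℕ => decide (s.2 = i) := rfl
    have h2 : (Prod.fst ∘ fun s : Side × ℕ => (shift c s.1, s.2)) = shift c ∘ Prod.fst := rfl
    rw [h1, h2, List.filter_filter]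
    congr 1
    apply List.filter_congr
    rintro ⟨x, r⟩ hx
    by_cases hr : r = i
    · subst hr
      have : isArc c x = false := by
        cases x with
        | pt i => rfl
        | arc a b =>
          by_contra hc'
          simp only [isArc_arc, beq_eq_false_iff_ne, ne_eq, Decidable.not_not] at hc'
          subst hc'
          exact hi b hx
      simp [this]
    · simp [hr]
  have hnot : ∀ b, (arc c b, j) ∉ α.sides := by
    intro b hb
    have h1 := Fam.reg_eq h.fam.word.nodup hb
    cases b with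
    | false => omega
    | true => omega
  have hL := hmem j hnot
  have hlen : ((α.del c).sidesL j).length = (α.sidesL j).length := by rw [hL, List.length_map]
  refine ⟨⟨hd, by rw [hpunc]; exact h.nodup, ?_⟩, hlen, ?_, hbetti, ?_⟩
  · -- self arcs
    intro c' hc' hs'
    have h1 : ∀ b, (arc c' b, (α.del c).reg (arc c' b)) ∈ (α.del c).sides := by
      intro b
      exact Fam.mem_sides_reg hd.word.nodup ((hd.word.mem c' b).2 hc')
    have h2 : ∀ b, ∃ a, (arc a b, (α.del c).reg (arc c' b)) ∈ α.sides ∧
        (if c < a then a - 1 else a) = c' ∧ a ≠ c := by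
      intro b
      have := h1 b
      rw [hsides, List.mem_map] at this
      obtain ⟨⟨x, r⟩, hx, he⟩ := this
      rw [List.mem_filter] at hx
      simp only [Prod.mk.injEq] at he
      cases x with
      | pt i => simp at he
      | arc a b' =>
        simp only [shift_arc, arc.injEq] at he
        refine ⟨a, ?_, he.1.1, ?_⟩
        · obtain ⟨⟨_, hb⟩, hr⟩ := he
          subst hb
          rw [← hr]; exact hx.1
        · have := hx.2
          simpa using this
    obtain ⟨a, ha1, ha2, ha3⟩ := h2 false
    obtain ⟨a', ha1', ha2', ha3'⟩ := h2 true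
    have haa : a' = a := by
      split_ifs at ha2 ha2' <;> omega
    subst haa
    unfold Fam.selfArc at hs'
    rw [← hs'] at ha1'
    have h3 := Fam.reg_eq h.fam.word.nodup ha1
    have h4 := Fam.reg_eq h.fam.word.nodup ha1'
    have h5 : a' < α.arcs := (h.fam.word.mem a' false).1 (Fam.mem_word ha1)
    have := h.self a' h5 (by unfold Fam.selfArc; rw [h3, h4])
    omega
  · -- rho
    have hn' : ((α.del c).sidesL j).Nodup :=
      hd.word.nodup.sublist (regL_sublist j (α.del c).sides)
    apply isRho_unique hn' (rho_spec hd j)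
    have hr := rho_spec h.fam j
    refine ⟨fun i hi => hr.1 i (by omega), fun i hi => ?_⟩
    have hi' : i < (α.sidesL j).length := by omega
    have h1 := hr.2 i hi'
    have h2 : ((α.del c).sidesL j)[i] = shift c ((α.sidesL j)[i]) := by
      simp only [hL, List.getElem_map]
    rw [h2, hL, List.getElem?_map, h1, Option.map_some]
    congr 1
    have hx : (α.sidesL j)[i] ∈ α.sidesL j := List.getElem_mem hi'
    have hx' : ((α.sidesL j)[i], j) ∈ α.sides := mem_regL.1 hx
    rw [Fam.bdPerm_del h.fam, chi_apply_of_inv (V := α.sidesOf j)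
      (fun x hx => h.fam.face_reg x j hx) (hnot false) (hnot true) hx']
    rw [mem_wrem]
    refine ⟨Fam.mem_word hx', ?_⟩
    cases hxe : (α.sidesL j)[i] with
    | pt i => rfl
    | arc a b =>
      rw [hxe] at hx'
      by_contra hc'
      simp only [isArc_arc, beq_eq_false_iff_ne, ne_eq, Decidable.not_not] at hc'
      subst hc'
      exact hnot b hx'
  · have := Fam.numReg_del h.fam hc
    rw [if_pos hs, add_zero] at this
    exact this

end ArcC
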