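import Mathlib
import Pool.Agent.Lib.MP_e5080e_gt.GlueRho

/-! Gluing gives a family. -/

namespace ArcC.Da

open Equiv Side

variable {F : Surf} {j : ℕ} {α : Fam}

lemma Am.rs {fl : Bool} {S G : List (Side × ℕ)} {w : List Side} (h : Am j fl S w G)
    (f : ℕ → ℕ) : Am j fl (S.map (Da.rs f)) (w.map (ren f)) (G.map (Da.rs f)) := by
  induction h with
  | nil => exact Am.nil _
  | other s hs h ih => exact Am.other _ hs ih
  | base x i h ih => exact Am.base _ i ih
  | extra a b h ih => exact Am.extra _ b ih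

lemma add_injective (K : ℕ) : Function.Injective (· + K) := fun _ _ h => by simpa using h

lemma glueHyp (h : α.IsFam0 F) {k : ℕ} {w : List Side} (hw : IsWord (α.sidesL j).length k w) :
    GlueHyp F j α.sides (w.map (ren (· + α.arcs))) (α.rho F j) where
  wd := hw.rawWord.ren (add_injective _).injOn
  disj := by
    intro a ha ha'
    rw [lab_ren] at ha
    obtain ⟨a', _, rfl⟩ := ha
    obtain ⟨b, hb⟩ := ha'
    have := (h.word.mem (a' + α.arcs) b).1 hb
    omega
  rho_fix := Fam.rho_fix F j α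
  rho := fun _ hi => rho_getD h hi

lemma am_rawGlue {k : ℕ} {w : List Side} (hw : IsWord (α.sidesL j).length k w) :
    Am j false α.sides (w.map (ren (· + α.arcs))) (rawGlue j α w) := by
  apply Am.gl_spec
  · rw [filter_isPt_ren, hw.pts]
    simp [Fam.sidesL]
  · intro x hx
    rw [List.head?_map, hw.head] at hx
    simp at hx
    subst hx; rfl

lemma ncyc_face_ren {n : ℕ} {w : List Side} (hw : RawWord n w) {ρ : Perm ℕ}
    (hρ : ∀ i, n ≤ i → ρ i = i) {f : ℕ → ℕ} (hf : Set.InjOn f (lab w)) :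
    ncyc (face ρ n (w.map (ren f))) {x | x ∈ w.map (ren f)} =
      ncyc (face ρ n w) {x | x ∈ w} := by
  have : {x | x ∈ w.map (ren f)} = ren f '' {x | x ∈ w} := by ext x; simp
  rw [this]
  exact ncyc_image w.finite_toSet (fun x hx => face_mem_word hw hρ hx) (ren_injOn hf)
    (fun x hx => face_ren hw.nodup hf hx)

lemma reg_cf {S : List (Side × ℕ)} {n : ℕ} (hS : RawWord n (S.map Prod.fst)) {be : ℕ →₀ ℕ}
    {pu : List ℕ} {a r : ℕ} {b : Bool} (h : (arc a b, r) ∈ S) :
    (⟨cf S, be, pu⟩ : Fam).reg (arc (num (S.map Prod.fst) a) b) = r := by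
  apply Fam.reg_eq
  · show ((cf S).map Prod.fst).Nodup
    rw [cf_fst]
    exact nodup_ren hS.nodup (num_injOn hS.full)
  · show _ ∈ cf S
    rw [cf_eq, List.mem_map]
    exact ⟨_, h, rfl⟩

/-- the arcs of the canonical form -/
lemma exists_of_lt {S : List (Side × ℕ)} {n : ℕ} (hS : RawWord n (S.map Prod.fst)) {c : ℕ}
    (hc : c < narc (S.map Prod.fst)) : ∃ a r r', num (S.map Prod.fst) a = c ∧
      (arc a false, r) ∈ S ∧ (arc a true, r') ∈ S := by
  unfold narc at hc
  have h1 : ((S.map Prod.fst).filter isFirst)[c] ∈ (S.map Prod.fst).filter isFirst :=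
    List.getElem_mem hc
  obtain ⟨x, hx⟩ : ∃ x, x = ((S.map Prod.fst).filter isFirst)[c] := ⟨_, rfl⟩
  rw [← hx] at h1
  cases x with
  | pt i => simp at h1
  | arc a b =>
    have hb : b = false := by simpa using (List.mem_filter.1 h1).2
    subst hb
    have h2 := (List.mem_filter.1 h1).1
    have h3 := (hS.full.mem_iff (b := true)).2 h2
    rw [List.mem_map] at h2 h3
    obtain ⟨⟨x, r⟩, h4, h5⟩ := h2
    obtain ⟨⟨x', r'⟩, h6, h7⟩ := h3
    simp only at h5 h7
    subst h5; subst h7
    refine ⟨a, r, r', ?_, h4, h6⟩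
    unfold num
    rw [hx]
    exact List.Nodup.idxOf_getElem (hS.nodup.filter _) c hc

end ArcC.Da

namespace ArcC

open Equiv Side Da

variable {F : Surf} {j : ℕ} {α : Fam}

lemma Da.rawGlue_rawFam (h : α.IsFam0 F) (hj : j < α.numReg) {k : ℕ} {w : List Side}
    (hw : w ∈ α.CW F j k) :
    RawFam F (rawGlue j α w) (α.betti - Finsupp.single j (narc w)) α.punc := by
  have hg := glueHyp h hw.1
  have hA := am_rawGlue hw.1
  have h1 := ncyc_face_ren hw.1.rawWord (Fam.rho_fix F j α) (add_injective α.arcs).injOn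
  have h2 := word_parity hw.1 (Fam.rho_fix F j α)
  have h3 := Fam.rho_parity h hj
  have h4 := hw.2
  have h5 := hg.rawFam h.rawFam hA (by
    rw [narc_ren, hw.1.narc_eq]
    rw [sidesL_eq] at h1 h4
    rw [h1]
    exact h4) (by
    rw [narc_ren, hw.1.narc_eq]
    rw [sidesL_eq] at h1 h2 h3
    rw [h1, h2, h3])
  rw [narc_ren] at h5
  exact h5

theorem glue_stage (h : α.Stage F (j + 1)) (hj : j < α.numReg) {k : ℕ} {w : List Side}
    (hw : w ∈ α.CW F j k) : (glue j α w).Stage F j ∧ (glue j α w).arcs = α.arcs + k ∧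
      (glue j α w).betti = α.betti - Finsupp.single j k ∧
      (glue j α w).totalBetti + k = α.totalBetti ∧ (glue j α w).numReg = α.numReg := by
  have hA := am_rawGlue hw.1
  have hR := rawGlue_rawFam h.fam hj hw
  have hk := hw.1.narc_eq
  have harcs : (glue j α w).arcs = α.arcs + k := by
    have h1 : (glue j α w).arcs = narc ((cf (rawGlue j α w)).map Prod.fst) := rfl
    rw [h1, cf_fst, cfw, narc_ren, hA.narc_eq, narc_ren, hk]
    rfl
  have hbetti : (glue j α w).betti = α.betti - Finsupp.single j k := by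
    rw [← hk]; rfl
  refine ⟨⟨hR.cf, h.nodup, ?_⟩, harcs, hbetti, ?_, ?_⟩
  · intro c hc hs
    have h1 : (glue j α w).arcs = narc ((cf (rawGlue j α w)).map Prod.fst) := rfl
    rw [h1, cf_fst, cfw, narc_ren] at hc
    obtain ⟨a, r, r', hac, hr, hr'⟩ := exists_of_lt hR.word hc
    subst hac
    have h2 : (glue j α w).reg (arc (num ((rawGlue j α w).map Prod.fst) a) false) = r :=
      reg_cf hR.word hr
    have h3 : (glue j α w).reg (arc (num ((rawGlue j α w).map Prod.fst) a) true) = r' :=
      reg_cf hR.word hr'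
    unfold Fam.selfArc at hs
    rw [h2] at hs ⊢
    rw [h3] at hs
    subst hs
    rw [hA.mem_iff] at hr hr'
    rcases hr with hr | ⟨hr, _⟩
    · rcases hr' with hr' | ⟨hr', _⟩
      · have h4 := Fam.reg_eq h.fam.word.nodup hr
        have h5 := Fam.reg_eq h.fam.word.nodup hr'
        have h6 : a < α.arcs := (h.fam.word.mem a false).1 (Fam.mem_word hr)
        have := h.self a h6 (by unfold Fam.selfArc; rw [h4, h5])
        omega
      · simp only at hr'; omega
    · simp only at hr; omega
  · have h1 := sum_sub_single (Fam.CW_le hw)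
    rw [← hbetti] at h1
    exact h1
  · have h1 : (glue j α w).numReg = ((cf (rawGlue j α w)).map Prod.snd).toFinset.card := rfl
    rw [h1, cf_eq, map_rs_snd]
    have h2 : ((rawGlue j α w).map Prod.snd).toFinset = α.regs.toFinset := by
      ext i; rw [List.mem_toFinset, List.mem_toFinset, hA.mem_regs]; rfl
    rw [h2]; rfl

end ArcC
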