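import Mathlib
import Pool.Agent.Lib.MP_e5080e_gt.GlueStage

/-! The inverse of gluing: the word of a region and the remaining family. -/

namespace ArcC.Da

open Equiv Side

/-- is `x` an end of an arc which has the region `j` on both sides? -/
def ext (j : ℕ) (S : List (Side × ℕ)) (x : Side) : Bool :=
  !(isPt x) && decide ((x, j) ∈ S) && decide ((mate x, j) ∈ S)

/-- the remaining family -/
def strip (j : ℕ) (S : List (Side × ℕ)) : List (Side × ℕ) := S.filter (fun s => !(ext j S s.1))

/-- the sides of the region `j` which are not ends of self arcs -/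
def nonext (j : ℕ) (S : List (Side × ℕ)) : List Side := (regL j S).filter (fun x => !(ext j S x))

/-- replace the other sides by points -/
def unplug (j : ℕ) (S : List (Side × ℕ)) (x : Side) : Side :=
  if ext j S x then x else pt ((nonext j S).idxOf x)

/-- the word of the region `j` -/
def wordOf (j : ℕ) (S : List (Side × ℕ)) : List Side := (regL j S).map (unplug j S)

lemma ext_iff {j : ℕ} {S : List (Side × ℕ)} {x : Side} : ext j S x = true ↔
    isPt x = false ∧ (x, j) ∈ S ∧ (mate x, j) ∈ S := by
  unfold ext; simp [and_assoc]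

lemma nonext_eq (j : ℕ) (S : List (Side × ℕ)) : nonext j S = regL j (strip j S) := by
  unfold nonext regL strip
  rw [List.filter_map, List.filter_filter, List.filter_filter]
  congr 1
  apply List.filter_congr
  intro s _
  simp [Bool.and_comm]

/-! ### renaming -/

lemma mem_rs_iff {S : List (Side × ℕ)} {f : ℕ → ℕ} (hf : Set.InjOn f (lab (S.map Prod.fst)))
    {x : Side} {r : ℕ} (hx : ∀ a b, x = arc a b → a ∈ lab (S.map Prod.fst)) :
    (ren f x, r) ∈ S.map (rs f) ↔ (x, r) ∈ S := by
  rw [List.mem_map]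
  constructor
  · rintro ⟨⟨y, r'⟩, hy, he⟩
    unfold rs at he
    simp only [Prod.mk.injEq] at he
    obtain ⟨he, rfl⟩ := he
    have hyS : y ∈ S.map Prod.fst := List.mem_map_of_mem (f := Prod.fst) hy
    have : y = x := by
      cases x with
      | pt i => cases y with
        | pt i' => simpa using he
        | arc a b => simp at he
      | arc a b => cases y with
        | pt i' => simp at he
        | arc a' b' =>
          simp only [ren_arc, arc.injEq] at he
          rw [hf ⟨b', hyS⟩ (hx a b rfl) he.1, he.2]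
    rw [← this]; exact hy
  · intro h
    exact ⟨_, h, rfl⟩

lemma regL_rs (j : ℕ) (S : List (Side × ℕ)) (f : ℕ → ℕ) :
    regL j (S.map (rs f)) = (regL j S).map (ren f) := by
  unfold regL
  rw [List.filter_map, List.map_map, List.map_map]
  rfl

lemma ext_rs {j : ℕ} {S : List (Side × ℕ)} {f : ℕ → ℕ}
    (hf : Set.InjOn f (lab (S.map Prod.fst))) {x : Side} (hx : x ∈ S.map Prod.fst) :
    ext j (S.map (rs f)) (ren f x) = ext j S x := by
  unfold ext
  rw [mate_ren, isPt_ren]
  have h1 : (ren f x, j) ∈ S.map (rs f) ↔ (x, j) ∈ S := by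
    apply mem_rs_iff hf
    rintro a b rfl; exact ⟨b, hx⟩
  have h2 : (ren f (mate x), j) ∈ S.map (rs f) ↔ (mate x, j) ∈ S := by
    apply mem_rs_iff hf
    intro a b hab
    cases x with
    | pt i => simp at hab
    | arc a' b' =>
      simp only [mate_arc, arc.injEq] at hab
      exact ⟨b', hab.1 ▸ hx⟩
  rw [decide_eq_decide.2 h1, decide_eq_decide.2 h2]

lemma strip_rs {j : ℕ} {S : List (Side × ℕ)} {f : ℕ → ℕ}
    (hf : Set.InjOn f (lab (S.map Prod.fst))) :
    strip j (S.map (rs f)) = (strip j S).map (rs f) := by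
  unfold strip
  rw [List.filter_map]
  congr 1
  apply List.filter_congr
  intro s hs
  simp only [Function.comp_apply, rs_fst]
  rw [ext_rs hf (List.mem_map_of_mem hs)]

lemma regL_sub {j : ℕ} {S : List (Side × ℕ)} {x : Side} (hx : x ∈ regL j S) :
    x ∈ S.map Prod.fst := (regL_sublist j S).subset hx

lemma nonext_rs {j : ℕ} {S : List (Side × ℕ)} {f : ℕ → ℕ}
    (hf : Set.InjOn f (lab (S.map Prod.fst))) :
    nonext j (S.map (rs f)) = (nonext j S).map (ren f) := by
  rw [nonext_eq, strip_rs hf, regL_rs, nonext_eq]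

lemma wordOf_rs {j : ℕ} {S : List (Side × ℕ)} {f : ℕ → ℕ}
    (hf : Set.InjOn f (lab (S.map Prod.fst))) :
    wordOf j (S.map (rs f)) = (wordOf j S).map (ren f) := by
  unfold wordOf
  rw [regL_rs, List.map_map, List.map_map]
  apply List.map_congr_left
  intro x hx
  simp only [Function.comp_apply]
  unfold unplug
  rw [ext_rs hf (regL_sub hx)]
  split_ifs with h
  · rfl
  · rw [nonext_rs hf, idxOf_map_of]
    · rfl
    · intro y hy hxy
      exact ren_injOn hf (regL_sub ((List.filter_sublist).subset hy)) (regL_sub hx) hxy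

/-! ### the glued list -/

section

variable {F : Surf} {j : ℕ} {S : List (Side × ℕ)} {w : List Side} {ρ : Perm ℕ}
  {G : List (Side × ℕ)}

lemma GlueHyp.ext_iff (g : GlueHyp F j S w ρ) (hA : Am j false S w G)
    (hself : ∀ a, ¬ ((arc a false, j) ∈ S ∧ (arc a true, j) ∈ S)) (x : Side) :
    ext j G x = true ↔ isPt x = false ∧ x ∈ w := by
  rw [Da.ext_iff]
  constructor
  · rintro ⟨h1, h2, h3⟩
    refine ⟨h1, ?_⟩
    cases x with
    | pt i => simp at h1
    | arc a b =>
      rw [hA.mem_iff] at h2 h3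
      rcases h2 with h2 | h2
      · exfalso
        rcases h3 with h3 | h3
        · apply hself a
          cases b with
          | false => exact ⟨h2, h3⟩
          | true => exact ⟨h3, h2⟩
        · exact g.disj a ⟨_, h3.2.2⟩ ⟨b, List.mem_map_of_mem (f := Prod.fst) h2⟩
      · exact h2.2.2
  · rintro ⟨h1, h2⟩
    cases x with
    | pt i => simp at h1
    | arc a b =>
      have h3 := g.wd.full a b h2
      refine ⟨h1, ?_, ?_⟩
      · rw [hA.mem_iff]; exact Or.inr ⟨rfl, rfl, h2⟩
      · rw [hA.mem_iff]; exact Or.inr ⟨rfl, rfl, h3⟩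

lemma GlueHyp.strip_eq (g : GlueHyp F j S w ρ) (hA : Am j false S w G)
    (hself : ∀ a, ¬ ((arc a false, j) ∈ S ∧ (arc a true, j) ∈ S)) : strip j G = S := by
  unfold strip
  refine hA.filter_old (fun x => !(ext j G x)) ?_ ?_
  · intro s hs
    have : ¬ (ext j G s.1 = true) := by
      rw [g.ext_iff hA hself]
      rintro ⟨h1, h2⟩
      obtain ⟨x, r⟩ := s
      cases x with
      | pt i => simp at h1
      | arc a b => exact g.disj a ⟨b, h2⟩ ⟨b, List.mem_map_of_mem (f := Prod.fst) hs⟩
    simpa using this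
  · intro x hx hx2
    have := (g.ext_iff hA hself x).2 ⟨hx2, hx⟩
    simp [this]

lemma GlueHyp.wordOf_eq (g : GlueHyp F j S w ρ) (hn : (S.map Prod.fst).Nodup)
    (hA : Am j false S w G)
    (hself : ∀ a, ¬ ((arc a false, j) ∈ S ∧ (arc a true, j) ∈ S)) : wordOf j G = w := by
  have hX : (regL j S).Nodup := hn.sublist (regL_sublist j S)
  unfold wordOf
  rw [g.regL_glue hA, List.map_map]
  conv_rhs => rw [← List.map_id w]
  apply List.map_congr_left
  intro u hu
  simp only [Function.comp_apply, id]
  unfold unplug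
  cases u with
  | arc a b =>
    have := (g.ext_iff hA hself (arc a b)).2 ⟨rfl, hu⟩
    rw [plug_arc, if_pos this]
  | pt i =>
    have hi := g.pt_mem.1 hu
    rw [plug_pt, List.getD_eq_getElem _ _ hi, if_neg, nonext_eq, g.strip_eq hA hself]
    · rw [List.Nodup.idxOf_getElem hX i hi]
    · rw [g.ext_iff hA hself]
      rintro ⟨h1, h2⟩
      have h3 : (regL j S)[i] ∈ regL j S := List.getElem_mem hi
      generalize (regL j S)[i] = x at h1 h2 h3
      cases x with
      | pt i => simp at h1
      | arc a b => exact g.disj a ⟨b, h2⟩ ⟨b, regL_sub h3⟩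

end

/-! ### families -/

variable {F : Surf} {j : ℕ} {α : Fam}

lemma stage_self (h : α.Stage F (j + 1)) (a : ℕ) :
    ¬ ((arc a false, j) ∈ α.sides ∧ (arc a true, j) ∈ α.sides) := by
  rintro ⟨h1, h2⟩
  have h3 := Fam.reg_eq h.fam.word.nodup h1
  have h4 := Fam.reg_eq h.fam.word.nodup h2
  have h5 : a < α.arcs := (h.fam.word.mem a false).1 (Fam.mem_word h1)
  have := h.self a h5 (by unfold Fam.selfArc; rw [h3, h4])
  omega

lemma lab_mono {l l' : List Side} (h : l ⊆ l') : lab l ⊆ lab l' := by
  rintro a ⟨b, hb⟩; exact ⟨b, h hb⟩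

lemma strip_subset (j : ℕ) (S : List (Side × ℕ)) :
    (strip j S).map Prod.fst ⊆ S.map Prod.fst := by
  apply List.map_subset
  exact (List.filter_sublist).subset

lemma wordOf_lab (j : ℕ) (S : List (Side × ℕ)) : lab (wordOf j S) ⊆ lab (S.map Prod.fst) := by
  rintro a ⟨b, hb⟩
  unfold wordOf at hb
  rw [List.mem_map] at hb
  obtain ⟨x, hx, hxa⟩ := hb
  unfold unplug at hxa
  split_ifs at hxa
  · subst hxa; exact ⟨b, regL_sub hx⟩

lemma glue_strip (h : α.Stage F (j + 1)) (hj : j < α.numReg) {k : ℕ} {w : List Side}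
    (hw : w ∈ α.CW F j k) : cf (strip j (glue j α w).sides) = α.sides := by
  have hR := rawGlue_rawFam h.fam hj hw
  have h1 : (glue j α w).sides = (rawGlue j α w).map
    (rs (num ((rawGlue j α w).map Prod.fst))) := rfl
  have hinj := num_injOn hR.word.full
  rw [h1, strip_rs hinj, cf_rs (hinj.mono (lab_mono (strip_subset _ _))),
    (glueHyp h.fam hw.1).strip_eq (am_rawGlue hw.1) (stage_self h)]
  exact cf_eq_self h.fam.word.canonical

lemma glue_wordOf (h : α.Stage F (j + 1)) (hj : j < α.numReg) {k : ℕ} {w : List Side}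
    (hw : w ∈ α.CW F j k) : cfw (wordOf j (glue j α w).sides) = w := by
  have hR := rawGlue_rawFam h.fam hj hw
  have h1 : (glue j α w).sides = (rawGlue j α w).map
    (rs (num ((rawGlue j α w).map Prod.fst))) := rfl
  have hinj := num_injOn hR.word.full
  rw [h1, wordOf_rs hinj, cfw_ren (hinj.mono (wordOf_lab _ _)),
    (glueHyp h.fam hw.1).wordOf_eq h.fam.word.nodup (am_rawGlue hw.1) (stage_self h),
    cfw_ren (add_injective _).injOn]
  exact cfw_eq_self hw.1.canonical

end ArcC.Da

namespace ArcC

open Equiv Side Da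

variable {F : Surf} {j : ℕ} {α : Fam}

theorem glue_inj {α' : Fam} {k k' : ℕ} {w w' : List Side}
    (h : α.Stage F (j + 1)) (hj : j < α.numReg) (hw : w ∈ α.CW F j k)
    (h' : α'.Stage F (j + 1)) (hj' : j < α'.numReg) (hw' : w' ∈ α'.CW F j k')
    (he : glue j α w = glue j α' w') : α = α' ∧ w = w' := by
  have h1 : α.sides = α'.sides := by
    rw [← glue_strip h hj hw, ← glue_strip h' hj' hw', he]
  have h2 : w = w' := by
    rw [← glue_wordOf h hj hw, ← glue_wordOf h' hj' hw', he]
  refine ⟨?_, h2⟩
  have h3' : (glue j α w).punc = (glue j α' w').punc := congrArg Fam.punc he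
  have h3 : α.punc = α'.punc := h3'
  have h4 := (glue_stage h hj hw).2.2.1
  have h5 := (glue_stage h' hj' hw').2.2.1
  have hk : k = k' := by rw [← hw.1.narc_eq, ← hw'.1.narc_eq, h2]
  subst hk
  rw [he, h5] at h4
  have h6 := Fam.CW_le hw
  have h7 := Fam.CW_le hw'
  have h8 : α.betti = α'.betti := by
    ext i
    have h9 := DFunLike.congr_fun h4 i
    rw [Finsupp.tsub_apply, Finsupp.tsub_apply] at h9
    by_cases hi : i = j
    · subst hi
      rw [Finsupp.single_eq_same] at h9
      omega
    · rw [Finsupp.single_eq_of_ne hi] at h9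
      omega
  exact Fam.ext h1 h8 h3

end ArcC
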