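import Mathlib
import Pool.Agent.Lib.MP_e5080e_gt.GlueInv

/-! Every family is glued. -/

namespace ArcC.Da

open Equiv Side

variable {F : Surf} {j : ℕ} {β : Fam}

lemma am_strip (h : β.IsFam0 F) (j : ℕ) :
    Am j false (strip j β.sides) (wordOf j β.sides) β.sides := by
  have hn : (β.sides.map Prod.fst).Nodup := h.word.nodup
  apply Am.of_list (ext j β.sides)
  · intro x hx; exact (ext_iff.1 hx).1
  · rintro ⟨x, r⟩ hs hx
    exact label_unique hn hs (ext_iff.1 hx).2.1
  · intro _ s hs
    have h1 := h.word.head
    have h2 : β.word = β.sides.map Prod.fst := rfl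
    rw [h2, List.head?_map] at h1
    rw [Option.mem_def] at hs
    rw [hs] at h1
    simp only [Option.map_some, Option.some.injEq] at h1
    rw [h1]; rfl
  · rw [List.isChain_iff_forall_rel_of_append_cons_cons]
    rintro ⟨x, r⟩ ⟨y, r'⟩ l₁ l₂ hl hy
    simp only at hy ⊢
    have hx : (x, r) ∈ β.sides := by rw [hl]; simp
    have h1 := h.face_reg x r hx
    have h2 : β.word.formPerm x = y := by
      have h3 : β.word = l₁.map Prod.fst ++ x :: y :: l₂.map Prod.fst := by
        unfold Fam.word; rw [hl]; simp
      rw [h3]
      apply formPerm_next
      rw [← h3]; exact hn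
    obtain ⟨h3, _, h5⟩ := ext_iff.1 hy
    have h6 : β.bdPerm F x = mate y := by
      unfold Fam.bdPerm face
      simp only [Perm.coe_mul, Function.comp_apply]
      rw [h2]
      cases y with
      | pt i => simp at h3
      | arc a b => simp
    rw [h6] at h1
    exact label_unique hn h1 h5
  · unfold wordOf
    rw [List.forall₂_map_right_iff]
    change List.Forall₂ _ (regL j β.sides) (regL j β.sides)
    rw [List.forall₂_same]
    intro x _
    unfold unplug
    split_ifs <;> rfl

lemma wordOf_pts (j : ℕ) (S : List (Side × ℕ)) (hn : (S.map Prod.fst).Nodup) :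
    (wordOf j S).filter isPt = (List.range (regL j (strip j S)).length).map pt := by
  unfold wordOf
  rw [List.filter_map]
  have h1 : (regL j S).filter (isPt ∘ unplug j S) = nonext j S := by
    unfold nonext
    apply List.filter_congr
    intro x _
    simp only [Function.comp_apply]
    unfold unplug
    cases he : ext j S x with
    | true =>
      have := (ext_iff.1 he).1
      simp [this]
    | false => simp
  rw [h1]
  have h2 : (nonext j S).map (unplug j S) =
      ((nonext j S).map (fun x => (nonext j S).idxOf x)).map pt := by
    rw [List.map_map]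
    apply List.map_congr_left
    intro x hx
    have : ext j S x = false := by
      unfold nonext at hx
      have := (List.mem_filter.1 hx).2
      simpa using this
    unfold unplug
    simp [this]
  have hnn : (nonext j S).Nodup := (hn.sublist (regL_sublist j S)).filter _
  rw [h2, map_idxOf_self hnn, nonext_eq]

lemma unplug_injOn (j : ℕ) (S : List (Side × ℕ)) :
    Set.InjOn (unplug j S) {x | x ∈ regL j S} := by
  intro x hx y hy hxy
  unfold unplug at hxy
  cases hex : ext j S x with
  | true =>
    cases hey : ext j S y with
    | true => simpa [hex, hey] using hxy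
    | false =>
      rw [hex, hey] at hxy
      simp only [↓reduceIte, Bool.false_eq_true] at hxy
      have := (ext_iff.1 hex).1
      rw [hxy] at this; simp at this
  | false =>
    cases hey : ext j S y with
    | true =>
      rw [hex, hey] at hxy
      simp only [↓reduceIte, Bool.false_eq_true] at hxy
      have := (ext_iff.1 hey).1
      rw [← hxy] at this; simp at this
    | false =>
      rw [hex, hey] at hxy
      simp only [Bool.false_eq_true, ↓reduceIte, pt.injEq] at hxy
      have h1 : x ∈ nonext j S := List.mem_filter.2 ⟨hx, by simp [hex]⟩
      exact (List.idxOf_inj h1).1 hxy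

lemma arc_mem_wordOf {j : ℕ} {S : List (Side × ℕ)} {a : ℕ} {b : Bool} :
    arc a b ∈ wordOf j S ↔ ext j S (arc a b) = true := by
  unfold wordOf
  rw [List.mem_map]
  constructor
  · rintro ⟨x, hx, hxa⟩
    unfold unplug at hxa
    split_ifs at hxa with he
    · rw [← hxa]; exact he
  · intro he
    refine ⟨arc a b, mem_regL.2 (ext_iff.1 he).2.1, ?_⟩
    unfold unplug
    rw [if_pos he]

lemma rawWord_wordOf (h : β.IsFam0 F) (hj : j < β.numReg) :
    RawWord (regL j (strip j β.sides)).length (wordOf j β.sides) := by
  have hn : (β.sides.map Prod.fst).Nodup := h.word.nodup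
  have hp := wordOf_pts j β.sides hn
  have hX : (regL j β.sides).Nodup := hn.sublist (regL_sublist j β.sides)
  refine ⟨List.Nodup.map_on (fun x hx y hy e => unplug_injOn j β.sides hx hy e) hX, ?_, hp, ?_⟩
  · have hA := am_strip h j
    have hlen := Fam.sidesL_pos h hj
    cases hw : wordOf j β.sides with
    | nil =>
      unfold wordOf at hw
      rw [List.map_eq_nil_iff] at hw
      rw [sidesL_eq, hw] at hlen
      simp at hlen
    | cons x w' =>
      rw [hw] at hA hp
      cases x with
      | arc a b => exact absurd hA Am.not_false_arc
      | pt i =>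
        simp only [List.filter_cons, isPt_pt, ↓reduceIte] at hp
        cases hl : (regL j (strip j β.sides)).length with
        | zero => rw [hl] at hp; simp at hp
        | succ n =>
          rw [hl, List.range_succ_eq_map] at hp
          simp only [List.map_cons, List.cons.injEq, pt.injEq] at hp
          rw [hp.1]; rfl
  · intro a b hab
    rw [arc_mem_wordOf, ext_iff] at hab
    obtain ⟨_, h1, h2⟩ := hab
    have h3 : (arc a false, j) ∈ β.sides ∧ (arc a true, j) ∈ β.sides := by
      cases b with
      | false => exact ⟨h1, h2⟩
      | true => exact ⟨h2, h1⟩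
    have h4 : a < β.arcs := (h.word.mem a false).1 (Fam.mem_word h3.1)
    have h5 := h.word.mates a h4
    have h6 : β.word = β.sides.map Prod.fst := rfl
    rw [h6, List.sublist_map_iff] at h5
    obtain ⟨l, hl, hle⟩ := h5
    have h7 : l = [(arc a false, j), (arc a true, j)] := by
      cases l with
      | nil => simp at hle
      | cons s l =>
        cases l with
        | nil => simp at hle
        | cons t l =>
          simp only [List.map_cons, List.cons.injEq, List.nil_eq, List.map_eq_nil_iff] at hle
          obtain ⟨e1, e2, rfl⟩ := hle
          obtain ⟨x, r⟩ := s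
          obtain ⟨y, r'⟩ := t
          simp only at e1 e2
          subst e1; subst e2
          have e3 : (arc a false, r) ∈ β.sides := hl.subset (by simp)
          have e4 : (arc a true, r') ∈ β.sides := hl.subset (by simp)
          rw [label_unique hn e3 h3.1, label_unique hn e4 h3.2]
    subst h7
    have h8 := ((hl.filter (fun s => s.2 = j)).map Prod.fst).map (unplug j β.sides)
    have h9 : ext j β.sides (arc a false) = true := ext_iff.2 ⟨rfl, h3.1, h3.2⟩
    have h10 : ext j β.sides (arc a true) = true := ext_iff.2 ⟨rfl, h3.2, h3.1⟩
    have h11 : unplug j β.sides (arc a false) = arc a false := by unfold unplug; rw [if_pos h9]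
    have h12 : unplug j β.sides (arc a true) = arc a true := by unfold unplug; rw [if_pos h10]
    unfold wordOf regL
    simpa [h11, h12] using h8

/-! ### the remaining family is a family -/

lemma narc_pos_iff {n : ℕ} {w : List Side} (hw : RawWord n w) : 0 < narc w ↔ ∃ a, arc a false ∈ w := by
  unfold narc
  rw [List.length_pos_iff_exists_mem]
  constructor
  · rintro ⟨x, hx⟩
    rw [List.mem_filter] at hx
    cases x with
    | pt i => simp at hx
    | arc a b =>
      have : b = false := by simpa using hx.2
      subst this
      exact ⟨a, hx.1⟩
  · rintro ⟨a, ha⟩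
    exact ⟨arc a false, List.mem_filter.2 ⟨ha, rfl⟩⟩

lemma narc_filter_isArc {w : List Side} (hw : w.Nodup) {c : ℕ} (hc : arc c false ∈ w) :
    narc (w.filter (fun x => !(isArc c x))) + 1 = narc w := by
  unfold narc
  rw [List.filter_comm]
  have h1 : arc c false ∈ w.filter isFirst := List.mem_filter.2 ⟨hc, rfl⟩
  have h2 : (w.filter isFirst).filter (fun x => !(isArc c x)) =
      (w.filter isFirst).erase (arc c false) := by
    rw [(hw.filter _).erase_eq_filter]
    apply List.filter_congr
    intro x hx
    have h3 := (List.mem_filter.1 hx).2
    cases x with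
    | pt i => simp at h3
    | arc a b =>
      have : b = false := by simpa using h3
      subst this
      simp [bne]
  rw [h2, List.length_erase_of_mem h1]
  have := List.length_pos_of_mem h1
  omega

lemma shift_injOn_lab (c : ℕ) {S : List Side} (hS : ∀ b, arc c b ∉ S) :
    Set.InjOn (fun a => if c < a then a - 1 else a) (lab S) := by
  intro a ha b hb hab
  have h1 : a ≠ c := by rintro rfl; obtain ⟨b', hb'⟩ := ha; exact hS b' hb'
  have h2 : b ≠ c := by rintro rfl; obtain ⟨b', hb'⟩ := hb; exact hS b' hb'
  simp only at hab
  split_ifs at hab <;> omega

lemma strip_filter {S : List (Side × ℕ)} {c : ℕ} (hc : ext j S (arc c false) = true) :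
    strip j (S.filter (fun s => !(isArc c s.1))) = strip j S := by
  unfold strip
  rw [List.filter_filter]
  apply List.filter_congr
  intro s hs
  have hmem : ∀ x r, isArc c x = false →
      ((x, r) ∈ S.filter (fun s => !(isArc c s.1)) ↔ (x, r) ∈ S) := by
    intro x r hx
    rw [List.mem_filter]; simp [hx]
  obtain ⟨x, r⟩ := s
  simp only
  cases hx : isArc c x with
  | true =>
    have : ext j S x = true := by
      cases x with
      | pt i => simp at hx
      | arc a b =>
        have : a = c := by simpa using hx
        subst this
        obtain ⟨_, h1, h2⟩ := ext_iff.1 hc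
        rw [ext_iff]
        cases b with
        | false => exact ⟨rfl, h1, h2⟩
        | true => exact ⟨rfl, h2, h1⟩
    simp [this]
  | false =>
    have hm : isArc c (mate x) = false := by cases x <;> simpa using hx
    have : ext j (S.filter (fun s => !(isArc c s.1))) x = ext j S x := by
      unfold ext
      rw [decide_eq_decide.2 (hmem x j hx), decide_eq_decide.2 (hmem (mate x) j hm)]
    rw [this]; simp

lemma ext_filter {S : List (Side × ℕ)} {c : ℕ} {x : Side} (hx : isArc c x = false) :
    ext j (S.filter (fun s => !(isArc c s.1))) x = ext j S x := by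
  have hmem : ∀ x r, isArc c x = false →
      ((x, r) ∈ S.filter (fun s => !(isArc c s.1)) ↔ (x, r) ∈ S) := by
    intro x r hx
    rw [List.mem_filter]; simp [hx]
  have hm : isArc c (mate x) = false := by cases x <;> simpa using hx
  unfold ext
  rw [decide_eq_decide.2 (hmem x j hx), decide_eq_decide.2 (hmem (mate x) j hm)]

lemma narc_wordOf_filter {S : List (Side × ℕ)} (hn : (S.map Prod.fst).Nodup) {c : ℕ}
    (hc : ext j S (arc c false) = true) :
    narc (wordOf j (S.filter (fun s => !(isArc c s.1)))) + 1 = narc (wordOf j S) := by
  have hX : (regL j S).Nodup := hn.sublist (regL_sublist j S)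
  have hnd : (wordOf j S).Nodup :=
    List.Nodup.map_on (fun x hx y hy e => unplug_injOn j S hx hy e) hX
  rw [← narc_filter_isArc hnd (arc_mem_wordOf.2 hc)]
  congr 2
  unfold wordOf
  rw [List.filter_map]
  have h1 : regL j (S.filter (fun s => !(isArc c s.1))) =
      (regL j S).filter (fun x => !(isArc c x)) := by
    unfold regL
    rw [List.filter_map, List.filter_comm]
    rfl
  rw [h1]
  have h2 : (regL j S).filter ((fun x => !(isArc c x)) ∘ unplug j S) =
      (regL j S).filter (fun x => !(isArc c x)) := by
    apply List.filter_congr
    intro x _
    simp only [Function.comp_apply]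
    unfold unplug
    split_ifs with he
    · rfl
    · cases hx : isArc c x with
      | false => simp
      | true =>
        exfalso
        apply he
        cases x with
        | pt i => simp at hx
        | arc a b =>
          have : a = c := by simpa using hx
          subst this
          obtain ⟨_, h1, h2⟩ := ext_iff.1 hc
          rw [ext_iff]
          cases b with
          | false => exact ⟨rfl, h1, h2⟩
          | true => exact ⟨rfl, h2, h1⟩
  rw [h2]
  apply List.map_congr_left
  intro x hx
  have hx' : isArc c x = false := by simpa using (List.mem_filter.1 hx).2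
  unfold unplug
  rw [ext_filter hx', nonext_eq, nonext_eq, strip_filter hc]

lemma isFam0_strip (h : β.IsFam0 F) (hj : j < β.numReg) :
    Fam.IsFam0 F ⟨cf (strip j β.sides), β.betti + Finsupp.single j (narc (wordOf j β.sides)),
      β.punc⟩ := by
  obtain ⟨m, hm⟩ : ∃ m, narc (wordOf j β.sides) = m := ⟨_, rfl⟩
  induction m generalizing β with
  | zero =>
    have h1 : ∀ x, ext j β.sides x = false := by
      intro x
      by_contra hx
      have hx' : ext j β.sides x = true := by simpa using hx
      have := narc_pos_iff (rawWord_wordOf h hj)
      rw [hm] at this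
      have h2 : ∃ a, arc a false ∈ wordOf j β.sides := by
        cases x with
        | pt i => have := (ext_iff.1 hx').1; simp at this
        | arc a b =>
          refine ⟨a, arc_mem_wordOf.2 ?_⟩
          obtain ⟨_, h3, h4⟩ := ext_iff.1 hx'
          rw [ext_iff]
          cases b with
          | false => exact ⟨rfl, h3, h4⟩
          | true => exact ⟨rfl, h4, h3⟩
      exact absurd (this.2 h2) (by omega)
    have h2 : strip j β.sides = β.sides := by
      unfold strip
      rw [List.filter_eq_self]
      intro s _
      simp [h1]
    have h3 : cf β.sides = β.sides := cf_eq_self h.word.canonical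
    rw [hm, h2, h3, Finsupp.single_zero, add_zero]
    exact h
  | succ m ih =>
    obtain ⟨c, hc⟩ := (narc_pos_iff (rawWord_wordOf h hj)).1 (by omega)
    rw [arc_mem_wordOf] at hc
    have hn : (β.sides.map Prod.fst).Nodup := h.word.nodup
    obtain ⟨_, h1, h2⟩ := ext_iff.1 hc
    have h1' := Fam.reg_eq h.word.nodup h1
    have h2' := Fam.reg_eq h.word.nodup h2
    simp only [mate_arc, Bool.not_false] at h2'
    have hs : β.reg (arc c false) = β.reg (arc c true) := by rw [h1', h2']
    have hcc : c < β.arcs := (h.word.mem c false).1 (Fam.mem_word h1)
    have hd := Fam.IsFam0.del h hcc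
    have hnr : (β.del c).numReg = β.numReg := by
      have := Fam.numReg_del h hcc
      rw [if_pos hs, add_zero] at this
      exact this
    have hU : Fam.union (β.reg (arc c false)) (β.reg (arc c true)) = id := by
      funext r; rw [h1', h2', Fam.union_self]; rfl
    have hsides : (β.del c).sides = (β.sides.filter (fun s => !(isArc c s.1))).map
        (rs (fun a => if c < a then a - 1 else a)) := by
      unfold Fam.del; rw [hU]
      simp only
      apply List.map_congr_left
      intro s _
      rw [shift_eq_ren]; rfl
    have hpunc : (β.del c).punc = β.punc := by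
      unfold Fam.del; rw [hU]; simp
    have hbetti : (β.del c).betti = β.betti + Finsupp.single j 1 := by
      unfold Fam.del
      rw [hU, if_pos hs, Finsupp.mapDomain_id, h1']
    have hnot : ∀ b, arc c b ∉ (β.sides.filter (fun s => !(isArc c s.1))).map Prod.fst := by
      intro b hb
      rw [List.mem_map] at hb
      obtain ⟨s, hs, hs'⟩ := hb
      have := (List.mem_filter.1 hs).2
      rw [hs'] at this
      simp at this
    have hinj := shift_injOn_lab c hnot
    have hst : strip j (β.del c).sides =
        (strip j β.sides).map (rs (fun a => if c < a then a - 1 else a)) := by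
      rw [hsides, strip_rs hinj, strip_filter hc]
    have hna : narc (wordOf j (β.del c).sides) + 1 = narc (wordOf j β.sides) := by
      rw [hsides, wordOf_rs hinj, narc_ren, narc_wordOf_filter hn hc]
    have hih := ih hd (by rw [hnr]; exact hj) (by omega)
    have hcf : cf (strip j (β.del c).sides) = cf (strip j β.sides) := by
      rw [hst, cf_rs]
      apply hinj.mono
      apply lab_mono
      rw [← strip_filter hc]
      exact strip_subset _ _
    have hbe : (β.del c).betti + Finsupp.single j (narc (wordOf j (β.del c).sides)) =
        β.betti + Finsupp.single j (narc (wordOf j β.sides)) := by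
      rw [hbetti, ← hna, add_assoc, ← Finsupp.single_add, add_comm 1]
    rw [hcf, hbe, hpunc] at hih
    exact hih

end ArcC.Da
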