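import Mathlib
import Pool.Agent.Lib.MP_e5080e_gt.GlueEx

/-! Every family is glued (end). -/

namespace ArcC.Da

open Equiv Side

lemma ext_mate {j : ℕ} {S : List (Side × ℕ)} {x : Side} : ext j S (mate x) = ext j S x := by
  unfold ext
  rw [mate_mate]
  have : isPt (mate x) = isPt x := by cases x <;> rfl
  rw [this, Bool.and_assoc, Bool.and_assoc, Bool.and_comm (decide ((mate x, j) ∈ S))]

lemma mem_strip_fst {j : ℕ} {S : List (Side × ℕ)} {x : Side} :
    x ∈ (strip j S).map Prod.fst ↔ x ∈ S.map Prod.fst ∧ ext j S x = false := by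
  unfold strip
  simp only [List.mem_map, List.mem_filter]
  constructor
  · rintro ⟨s, ⟨h1, h2⟩, rfl⟩
    exact ⟨⟨s, h1, rfl⟩, by simpa using h2⟩
  · rintro ⟨⟨s, h1, rfl⟩, h2⟩
    exact ⟨s, ⟨h1, by simp [h2]⟩, rfl⟩

lemma full_strip {j : ℕ} {S : List (Side × ℕ)} (h : Full (S.map Prod.fst)) :
    Full ((strip j S).map Prod.fst) := by
  intro a b hab
  rw [mem_strip_fst] at hab ⊢
  refine ⟨h a b hab.1, ?_⟩
  have : arc a (!b) = mate (arc a b) := rfl
  rw [this, ext_mate]
  exact hab.2

lemma ncyc_glue_reg {F : Surf} {j : ℕ} {S G : List (Side × ℕ)} {w : List Side} {ρ : Perm ℕ}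
    (g : GlueHyp F j S w ρ) (hn : (S.map Prod.fst).Nodup) (hA : Am j false S w G) :
    ncyc (face F.rot F.n (G.map Prod.fst)) {x | (x, j) ∈ G} =
      ncyc (face ρ (regL j S).length w) {x | x ∈ w} := by
  have hset : {x | (x, j) ∈ G} = plug (regL j S) '' {x | x ∈ w} := by
    ext x
    have h1 := g.regL_glue hA
    simp only [Set.mem_ofPred_eq, Set.mem_image]
    rw [← mem_regL, h1, List.mem_map]
  rw [hset]
  exact ncyc_image w.finite_toSet (fun x hx => face_mem_word g.wd g.rho_fix hx)
    (g.plug_injOn hn) (fun x hx => g.face_self hn hA hx)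

lemma ncyc_rs {F : Surf} {i : ℕ} {S : List (Side × ℕ)} (hn : (S.map Prod.fst).Nodup)
    (hface : ∀ x, (x, i) ∈ S → (face F.rot F.n (S.map Prod.fst) x, i) ∈ S)
    {f : ℕ → ℕ} (hf : Set.InjOn f (lab (S.map Prod.fst))) :
    ncyc (face F.rot F.n ((S.map (rs f)).map Prod.fst)) {x | (x, i) ∈ S.map (rs f)} =
      ncyc (face F.rot F.n (S.map Prod.fst)) {x | (x, i) ∈ S} := by
  have hset : {x | (x, i) ∈ S.map (rs f)} = ren f '' {x | (x, i) ∈ S} := by
    ext x
    simp only [Set.mem_ofPred_eq, Set.mem_image, List.mem_map]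
    constructor
    · rintro ⟨⟨y, i'⟩, hy, he⟩
      unfold rs at he
      simp only [Prod.mk.injEq] at he
      exact ⟨y, he.2 ▸ hy, he.1⟩
    · rintro ⟨y, hy, rfl⟩
      exact ⟨(y, i), hy, rfl⟩
  rw [hset, map_rs_fst]
  have hfst : ∀ y, (y, i) ∈ S → y ∈ S.map Prod.fst := fun y hy =>
    List.mem_map_of_mem (f := Prod.fst) hy
  exact ncyc_image (finite_sidesOf S i) (fun x hx => hface x hx)
    (fun x hx y hy e => ren_injOn hf (hfst x hx) (hfst y hy) e)
    (fun x hx => face_ren hn hf (hfst x hx))

end ArcC.Da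

namespace ArcC

open Equiv Side Da

variable {F : Surf} {j : ℕ}

theorem exists_glue {β : Fam} (h : β.Stage F j) (hj : j < β.numReg) :
    ∃ α k w, α.Stage F (j + 1) ∧ j < α.numReg ∧ w ∈ α.CW F j k ∧ glue j α w = β := by
  classical
  have hn : (β.sides.map Prod.fst).Nodup := h.fam.word.nodup
  have hfull : Full (β.sides.map Prod.fst) := h.fam.word.rawWord.full
  have hA := am_strip h.fam j
  have hRW := rawWord_wordOf h.fam hj
  set S0 := strip j β.sides with hS0
  set w0 := wordOf j β.sides with hw0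
  set k := narc w0 with hk
  set α : Fam := ⟨cf S0, β.betti + Finsupp.single j k, β.punc⟩ with hα
  have hα0 : α.IsFam0 F := isFam0_strip h.fam hj
  have hfull0 : Full (S0.map Prod.fst) := full_strip hfull
  have hinj0 := num_injOn hfull0
  have hinjw := num_injOn hRW.full
  have hlen : (α.sidesL j).length = (regL j S0).length := by
    have h1 : α.sidesL j = (regL j S0).map (ren (num (S0.map Prod.fst))) := by
      rw [sidesL_eq]
      change regL j (cf S0) = _
      rw [cf_eq, regL_rs]
    rw [h1, List.length_map]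
  have hw : IsWord (α.sidesL j).length k (cfw w0) := by
    have h1 : RawWord (regL j S0).length (cfw w0) := hRW.ren hinjw
    have h2 := h1.isWord (canonical_cfw hRW.nodup hRW.full)
    have h3 : narc (cfw w0) = k := narc_ren _ _
    rw [h3] at h2
    rw [hlen]; exact h2
  have harcs : α.arcs = narc (S0.map Prod.fst) := by
    have h1 : α.arcs = narc ((cf S0).map Prod.fst) := rfl
    rw [h1, cf_fst, cfw, narc_ren]
  -- the renaming
  set f : ℕ → ℕ := fun a => if a ∈ lab (S0.map Prod.fst) then num (S0.map Prod.fst) a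
    else num w0 a + α.arcs with hf
  have hlab : ∀ a, a ∈ lab (β.sides.map Prod.fst) → a ∉ lab (S0.map Prod.fst) → a ∈ lab w0 := by
    rintro a ⟨b, hb⟩ ha
    refine ⟨b, arc_mem_wordOf.2 ?_⟩
    by_contra hc
    exact ha ⟨b, mem_strip_fst.2 ⟨hb, by simpa using hc⟩⟩
  have hfinj : Set.InjOn f (lab (β.sides.map Prod.fst)) := by
    intro a ha b hb hab
    simp only [hf] at hab
    by_cases h1 : a ∈ lab (S0.map Prod.fst)
    · have h3 := num_lt hfull0 h1
      by_cases h2 : b ∈ lab (S0.map Prod.fst)
      · rw [if_pos h1, if_pos h2] at hab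
        exact hinj0 h1 h2 hab
      · rw [if_pos h1, if_neg h2] at hab
        omega
    · by_cases h2 : b ∈ lab (S0.map Prod.fst)
      · have h3 := num_lt hfull0 h2
        rw [if_neg h1, if_pos h2] at hab
        omega
      · rw [if_neg h1, if_neg h2] at hab
        exact hinjw (hlab a ha h1) (hlab b hb h2) (by omega)
  have hS0f : S0.map (rs f) = α.sides := by
    change S0.map (rs f) = cf S0
    rw [cf_eq]
    apply List.map_congr_left
    rintro ⟨x, r⟩ hx
    unfold rs
    congr 1
    apply ren_congr'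
    rintro a b rfl
    have : a ∈ lab (S0.map Prod.fst) := ⟨b, List.mem_map_of_mem (f := Prod.fst) hx⟩
    simp only [hf]
    rw [if_pos this]
  have hw0f : w0.map (ren f) = (cfw w0).map (ren (· + α.arcs)) := by
    unfold cfw
    rw [List.map_map]
    apply List.map_congr_left
    intro x hx
    simp only [Function.comp_apply, ren_ren]
    apply ren_congr'
    rintro a b rfl
    have h1 : a ∉ lab (S0.map Prod.fst) := by
      rintro ⟨b', hb'⟩
      have h2 := (mem_strip_fst.1 ((hfull0.mem_iff (b := b)).2 (hfull0.first hb'))).2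
      rw [hw0, arc_mem_wordOf, h2] at hx
      exact absurd hx (by simp)
    simp only [hf, Function.comp_apply]
    rw [if_neg h1]
  have hG : β.sides.map (rs f) = rawGlue j α (cfw w0) := by
    have h1 := hA.rs f
    rw [hS0f, hw0f] at h1
    exact h1.unique (am_rawGlue hw)
  have hcf : cf (rawGlue j α (cfw w0)) = β.sides := by
    rw [← hG, cf_rs hfinj]
    exact cf_eq_self h.fam.word.canonical
  have hCW : cfw w0 ∈ α.CW F j k := by
    refine ⟨hw, ?_⟩
    obtain ⟨g, hg⟩ := h.fam.genus j (reg_mem h.fam hj)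
    have h1 : ncyc (β.bdPerm F) (β.sidesOf j) =
        ncyc (face (α.rho F j) (α.sidesL j).length (cfw w0)) {x | x ∈ cfw w0} := by
      have e1 := ncyc_rs (F := F) (i := j) hn (fun x hx => h.fam.face_reg x j hx) hfinj
      have e2 := ncyc_glue_reg (glueHyp hα0 hw) hα0.word.nodup (am_rawGlue hw)
      have e3 := ncyc_face_ren hw.rawWord (Fam.rho_fix F j α) (add_injective α.arcs).injOn
      rw [hG] at e1
      rw [sidesL_eq] at e3 ⊢
      rw [← e3, ← e2, e1]
      rfl
    have h2 : α.betti j = β.betti j + k := by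
      simp [hα]
    rw [h1] at hg
    omega
  refine ⟨α, k, cfw w0, ⟨hα0, h.nodup, ?_⟩, ?_, hCW, ?_⟩
  · intro c hc hs
    have h1 : ∀ b, ∃ a, (arc a b, α.reg (arc c b)) ∈ S0 ∧ num (S0.map Prod.fst) a = c := by
      intro b
      have h2 : (arc c b, α.reg (arc c b)) ∈ α.sides :=
        Fam.mem_sides_reg hα0.word.nodup ((hα0.word.mem c b).2 hc)
      change _ ∈ cf S0 at h2
      rw [cf_eq, List.mem_map] at h2
      obtain ⟨⟨y, r⟩, hy, he⟩ := h2
      unfold rs at he
      simp only [Prod.mk.injEq] at he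
      cases y with
      | pt i => simp at he
      | arc a b' =>
        simp only [ren_arc, arc.injEq] at he
        obtain ⟨⟨h3, h4⟩, h5⟩ := he
        subst h4
        rw [← h5]
        exact ⟨a, hy, h3⟩
    obtain ⟨a, ha1, ha2⟩ := h1 false
    obtain ⟨a', ha1', ha2'⟩ := h1 true
    have haa : a' = a := hinj0 ⟨_, List.mem_map_of_mem (f := Prod.fst) ha1'⟩
      ⟨_, List.mem_map_of_mem (f := Prod.fst) ha1⟩ (by rw [ha2, ha2'])
    subst haa
    unfold Fam.selfArc at hs
    rw [← hs] at ha1'
    have h3 : (arc a' false, α.reg (arc c false)) ∈ β.sides := (List.mem_filter.1 ha1).1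
    have h4 : (arc a' true, α.reg (arc c false)) ∈ β.sides := (List.mem_filter.1 ha1').1
    have h5 := Fam.reg_eq h.fam.word.nodup h3
    have h6 := Fam.reg_eq h.fam.word.nodup h4
    have h7 : a' < β.arcs := (h.fam.word.mem a' false).1 (Fam.mem_word h3)
    have h8 := h.self a' h7 (by unfold Fam.selfArc; rw [h5, h6])
    rw [h5] at h8
    rcases Nat.lt_or_ge j (α.reg (arc c false)) with h9 | h9
    · exact h9
    · exfalso
      have h10 : α.reg (arc c false) = j := by omega
      rw [h10] at h3 h4 ha1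
      have h11 : ext j β.sides (arc a' false) = true := ext_iff.2 ⟨rfl, h3, h4⟩
      have h12 := (List.mem_filter.1 ha1).2
      simp [h11] at h12
  · have h1 : α.numReg = β.numReg := by
      unfold Fam.numReg
      have h2 : α.regs = S0.map Prod.snd := by
        change (cf S0).map Prod.snd = _
        rw [cf_eq, map_rs_snd]
      congr 1
      ext i
      rw [List.mem_toFinset, List.mem_toFinset, h2]
      exact (hA.mem_regs i).symm
    rw [h1]; exact hj
  · have h1 : narc (cfw w0) = k := narc_ren _ _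
    unfold glue
    rw [hcf, h1]
    have h2 : α.betti - Finsupp.single j k = β.betti := by
      ext i
      simp [hα]
    rw [h2]

end ArcC
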