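import Mathlib
import Pool.Agent.Lib.MP_e5080e_gt.GlueEx2

/-! Canonical numbers after the deletion of an arc. -/

namespace ArcC.Da

open Equiv Side

lemma idxOf_erase {α : Type*} [DecidableEq α] {L : List α} (hn : L.Nodup) {x y : α} (hx : x ∈ L)
    (hxy : x ≠ y) : (L.erase x).idxOf y =
      L.idxOf y - (if L.idxOf x < L.idxOf y then 1 else 0) := by
  induction L with
  | nil => simp at hx
  | cons z L ih =>
    rw [List.nodup_cons] at hn
    by_cases hz : z = x
    · subst hz
      rw [List.erase_cons_head, List.idxOf_cons_self, List.idxOf_cons_ne _ hxy]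
      simp
    · rw [List.erase_cons_tail (by simpa using hz)]
      have hx' : x ∈ L := by
        rcases List.mem_cons.1 hx with h | h
        · exact absurd h.symm hz
        · exact h
      by_cases hzy : z = y
      · subst hzy
        rw [List.idxOf_cons_self, List.idxOf_cons_self]; simp
      · rw [List.idxOf_cons_ne _ hzy, List.idxOf_cons_ne _ hzy, List.idxOf_cons_ne _ hz,
          ih hn.2 hx']
        have hlt : L.idxOf x + 1 < L.idxOf y + 1 ↔ L.idxOf x < L.idxOf y := by omega
        simp only [Nat.succ_eq_add_one, hlt]
        split_ifs with h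
        · omega
        · omega

lemma idxOf_lt_of_sublist {α : Type*} [DecidableEq α] {L L' : List α} (h : List.Sublist L L')
    (hn : L'.Nodup) {x y : α} (hx : x ∈ L) (hy : y ∈ L) (hlt : L.idxOf x < L.idxOf y) :
    L'.idxOf x < L'.idxOf y := by
  induction h with
  | slnil => simp at hx
  | @cons L L' z h ih =>
    rw [List.nodup_cons] at hn
    have h1 : z ≠ x := by rintro rfl; exact hn.1 (h.subset hx)
    have h2 : z ≠ y := by rintro rfl; exact hn.1 (h.subset hy)
    rw [List.idxOf_cons_ne _ h1, List.idxOf_cons_ne _ h2]
    have := ih hn.2 hx hy hlt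
    omega
  | @cons_cons L L' z h ih =>
    rw [List.nodup_cons] at hn
    have h2 : z ≠ y := by rintro rfl; rw [List.idxOf_cons_self] at hlt; omega
    have hy' : y ∈ L := by
      rcases List.mem_cons.1 hy with h | h
      · exact absurd h.symm h2
      · exact h
    by_cases h1 : z = x
    · subst h1
      rw [List.idxOf_cons_self, List.idxOf_cons_ne _ h2]; omega
    · have hx' : x ∈ L := by
        rcases List.mem_cons.1 hx with h | h
        · exact absurd h.symm h1
        · exact h
      rw [List.idxOf_cons_ne _ h1, List.idxOf_cons_ne _ h2] at hlt ⊢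
      have := ih hn.2 hx' hy' (by omega)
      omega

lemma num_filter {l : List Side} (hn : l.Nodup) {a b : ℕ} (ha : arc a false ∈ l) (hab : a ≠ b) :
    num (l.filter (fun x => !(isArc a x))) b =
      num l b - (if num l a < num l b then 1 else 0) := by
  unfold num
  rw [List.filter_comm]
  have h1 : arc a false ∈ l.filter isFirst := List.mem_filter.2 ⟨ha, rfl⟩
  have h2 : (l.filter isFirst).filter (fun x => !(isArc a x)) =
      (l.filter isFirst).erase (arc a false) := by
    rw [(hn.filter _).erase_eq_filter]
    apply List.filter_congr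
    intro x hx
    have h3 := (List.mem_filter.1 hx).2
    cases x with
    | pt i => simp at h3
    | arc a b =>
      have : b = false := by simpa using h3
      subst this
      simp [bne]
  rw [h2, idxOf_erase (hn.filter _) h1 (by simpa using hab)]

lemma num_lt_of_sublist {l l' : List Side} (h : List.Sublist l l') (hn : l'.Nodup) {a b : ℕ}
    (ha : arc a false ∈ l) (hb : arc b false ∈ l) (hlt : num l a < num l b) :
    num l' a < num l' b :=
  idxOf_lt_of_sublist (h.filter _) (hn.filter _) (List.mem_filter.2 ⟨ha, rfl⟩)
    (List.mem_filter.2 ⟨hb, rfl⟩) hlt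

/-! ### deletion of an arc in a glued list -/

lemma Am.filter {j : ℕ} {fl : Bool} {S G : List (Side × ℕ)} {w : List Side}
    (h : Am j fl S w G) (P : Side → Bool) (hP : ∀ x, (x, j) ∈ S → P x = true)
    (hpt : ∀ i, P (pt i) = true) :
    Am j fl (S.filter (fun s => P s.1)) (w.filter P) (G.filter (fun s => P s.1)) := by
  induction h with
  | nil => exact Am.nil _
  | @other fl S w G s hs h ih =>
    have ih' := ih (fun x hx => hP x (by simp [hx]))
    cases hp : P s.1 with
    | true =>
      simp only [List.filter_cons, hp, ↓reduceIte]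
      exact Am.other s hs ih'
    | false =>
      simp only [List.filter_cons, hp, Bool.false_eq_true, ↓reduceIte]
      cases fl with
      | true => exact ih'.mono
      | false => exact ih'
  | @base fl S w G x i h ih =>
    have ih' := ih (fun x hx => hP x (by simp [hx]))
    have hp := hP x (by simp)
    simp only [List.filter_cons, hp, hpt i, ↓reduceIte]
    exact Am.base x i ih'
  | @extra S w G a b h ih =>
    have ih' := ih hP
    cases hp : P (arc a b) with
    | true =>
      simp only [List.filter_cons, hp, ↓reduceIte]
      exact Am.extra a b ih'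
    | false =>
      simp only [List.filter_cons, hp, Bool.false_eq_true, ↓reduceIte]
      exact ih'

/-- the renumbering after the deletion of the arc `c` -/
def sh (c a : ℕ) : ℕ := if c < a then a - 1 else a

lemma shift_eq (c : ℕ) : shift c = ren (sh c) := shift_eq_ren c

variable {F : Surf} {j : ℕ} {α : Fam}

lemma sides_del_self {c : ℕ} (hs : α.selfArc c) :
    (α.del c).sides = (α.sides.filter (fun s => !(isArc c s.1))).map (rs (sh c)) := by
  unfold Fam.selfArc at hs
  have hU : Fam.union (α.reg (arc c false)) (α.reg (arc c true)) = id := by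
    funext r; rw [hs, Fam.union_self]; rfl
  unfold Fam.del; rw [hU]
  simp only
  apply List.map_congr_left
  intro s _
  rw [shift_eq]; rfl

lemma punc_del_self {c : ℕ} (hs : α.selfArc c) : (α.del c).punc = α.punc := by
  unfold Fam.selfArc at hs
  have hU : Fam.union (α.reg (arc c false)) (α.reg (arc c true)) = id := by
    funext r; rw [hs, Fam.union_self]; rfl
  unfold Fam.del; rw [hU]; simp

lemma betti_del_self {c : ℕ} (hs : α.selfArc c) :
    (α.del c).betti = α.betti + Finsupp.single (α.reg (arc c false)) 1 := by
  unfold Fam.selfArc at hs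
  have hU : Fam.union (α.reg (arc c false)) (α.reg (arc c true)) = id := by
    funext r; rw [hs, Fam.union_self]; rfl
  unfold Fam.del
  rw [hU, if_pos hs, Finsupp.mapDomain_id]

lemma isArc_ren {f : ℕ → ℕ} {c : ℕ} {x : Side} (hf : ∀ a b, x = arc a b → (f a = f c ↔ a = c)) :
    isArc (f c) (ren f x) = isArc c x := by
  cases x with
  | pt i => rfl
  | arc a b =>
    have := hf a b rfl
    simp only [ren_arc, isArc_arc]
    by_cases h : a = c
    · simp [h]
    · have h' : f a ≠ f c := fun e => h (this.1 e)
      rw [beq_eq_false_iff_ne.2 h, beq_eq_false_iff_ne.2 h']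

/-- deletion of an old self arc -/
lemma rawGlue_del_old (h : α.Stage F (j + 1)) {k : ℕ} {w : List Side}
    (hw : IsWord (α.sidesL j).length k w) {c : ℕ} (hc : c < α.arcs) (hs : α.selfArc c) :
    ((rawGlue j α w).filter (fun s => !(isArc c s.1))).map (rs (sh c)) =
      rawGlue j (α.del c) w := by
  have hd := h.del_self hc hs
  have hA := am_rawGlue hw
  have hcj := h.self c hc hs
  have hnot : ∀ b, (arc c b, j) ∉ α.sides := by
    intro b hb
    have h1 := Fam.reg_eq h.fam.word.nodup hb
    unfold Fam.selfArc at hs
    cases b with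
    | false => omega
    | true => omega
  have h1 := (hA.filter (fun x => !(isArc c x)) (by
    intro x hx
    cases x with
    | pt i => rfl
    | arc a b =>
      have : a ≠ c := by rintro rfl; exact hnot b hx
      simp [this]) (fun i => rfl)).rs (sh c)
  have harcs := Fam.arcs_del h.fam hc
  have hw' : IsWord ((α.del c).sidesL j).length k w := by rw [hd.2.1]; exact hw
  have h2 : ((w.map (ren (· + α.arcs))).filter (fun x => !(isArc c x))).map (ren (sh c)) =
      w.map (ren (· + (α.del c).arcs)) := by
    have h3 : (w.map (ren (· + α.arcs))).filter (fun x => !(isArc c x)) =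
        w.map (ren (· + α.arcs)) := by
      rw [List.filter_eq_self]
      intro x hx
      rw [List.mem_map] at hx
      obtain ⟨y, _, rfl⟩ := hx
      cases y with
      | pt i => rfl
      | arc a b =>
        have : a + α.arcs ≠ c := by omega
        simp [this]
    rw [h3, List.map_map]
    apply List.map_congr_left
    intro x _
    simp only [Function.comp_apply, ren_ren]
    apply ren_congr'
    intro a b _
    simp only [Function.comp_apply, sh]
    rw [if_pos (by omega)]
    omega
  rw [h2, ← sides_del_self hs] at h1
  exact h1.unique (am_rawGlue hw')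

/-- deletion of an arc of the word -/
lemma rawGlue_del_new (h : α.IsFam0 F) {k : ℕ} {w : List Side}
    (hw : IsWord (α.sidesL j).length (k + 1) w) {c : ℕ} (hc : c < k + 1) :
    ((rawGlue j α w).filter (fun s => !(isArc (c + α.arcs) s.1))).map (rs (sh (c + α.arcs))) =
      rawGlue j α (wdel c w) := by
  have hA := am_rawGlue hw
  have hlt : ∀ a b, arc a b ∈ α.sides.map Prod.fst → a < α.arcs := fun a b hab =>
    (h.word.mem a b).1 hab
  have hne : ∀ x, x ∈ α.sides.map Prod.fst → isArc (c + α.arcs) x = false := by
    intro x hx
    cases x with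
    | pt i => rfl
    | arc a b =>
      have := hlt a b hx
      have h2 : a ≠ c + α.arcs := by omega
      simpa using h2
  have h1 := (hA.filter (fun x => !(isArc (c + α.arcs) x)) (by
    intro x hx
    rw [hne x (List.mem_map_of_mem (f := Prod.fst) hx)]; rfl) (fun i => rfl)).rs
      (sh (c + α.arcs))
  have h3 : (α.sides.filter (fun s => !(isArc (c + α.arcs) s.1))) = α.sides := by
    rw [List.filter_eq_self]
    intro s hs
    rw [hne s.1 (List.mem_map_of_mem (f := Prod.fst) hs)]; rfl
  have h4 : α.sides.map (rs (sh (c + α.arcs))) = α.sides := by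
    conv_rhs => rw [← List.map_id α.sides]
    apply List.map_congr_left
    rintro ⟨x, r⟩ hx
    unfold rs
    simp only [id]
    congr 1
    cases x with
    | pt i => rfl
    | arc a b =>
      have := hlt a b (List.mem_map_of_mem (f := Prod.fst) hx)
      simp only [ren_arc, sh]
      rw [if_neg (by omega)]
  have h2 : ((w.map (ren (· + α.arcs))).filter (fun x => !(isArc (c + α.arcs) x))).map
      (ren (sh (c + α.arcs))) = (wdel c w).map (ren (· + α.arcs)) := by
    unfold wdel
    rw [List.filter_map, List.map_map, List.map_map, shift_eq]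
    have h5 : (w.filter ((fun x => !(isArc (c + α.arcs) x)) ∘ ren (· + α.arcs))) =
        w.filter (fun x => !(isArc c x)) := by
      apply List.filter_congr
      intro x _
      simp only [Function.comp_apply]
      have := isArc_ren (f := (· + α.arcs)) (c := c) (x := x) (fun a b _ => by simp)
      rw [this]
    rw [h5]
    apply List.map_congr_left
    intro x _
    simp only [Function.comp_apply, ren_ren]
    apply ren_congr'
    intro a b _
    simp only [Function.comp_apply, sh]
    split_ifs <;> omega
  have hw' : IsWord (α.sidesL j).length k (wdel c w) := hw.del hc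
  rw [h3, h4, h2] at h1
  exact h1.unique (am_rawGlue hw')

/-- deletion of a self arc from a canonical form -/
lemma del_cf {S : List (Side × ℕ)} {be : ℕ →₀ ℕ} {pu : List ℕ} (hR : RawFam F S be pu)
    {a r : ℕ} (h1 : (arc a false, r) ∈ S) (h2 : (arc a true, r) ∈ S) :
    (⟨cf S, be, pu⟩ : Fam).selfArc (num (S.map Prod.fst) a) ∧
    (⟨cf S, be, pu⟩ : Fam).del (num (S.map Prod.fst) a) =
      ⟨cf (S.filter (fun s => !(isArc a s.1))), be + Finsupp.single r 1, pu⟩ := by
  have e1 : (⟨cf S, be, pu⟩ : Fam).reg (arc (num (S.map Prod.fst) a) false) = r :=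
    reg_cf hR.word h1
  have e2 : (⟨cf S, be, pu⟩ : Fam).reg (arc (num (S.map Prod.fst) a) true) = r :=
    reg_cf hR.word h2
  have hs : (⟨cf S, be, pu⟩ : Fam).selfArc (num (S.map Prod.fst) a) := by
    unfold Fam.selfArc; rw [e1, e2]
  refine ⟨hs, ?_⟩
  have hla : a ∈ lab (S.map Prod.fst) := ⟨false, List.mem_map_of_mem (f := Prod.fst) h1⟩
  have hinj := num_injOn hR.word.full
  have hlt : num (S.map Prod.fst) a < (⟨cf S, be, pu⟩ : Fam).arcs := by
    have e3 : (⟨cf S, be, pu⟩ : Fam).arcs = narc ((cf S).map Prod.fst) := rfl
    rw [e3, cf_fst, cfw, narc_ren]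
    exact num_lt hR.word.full hla
  have hcan := (Fam.IsFam0.del hR.cf hlt).word.canonical
  apply Fam.ext
  · have e4 : ((⟨cf S, be, pu⟩ : Fam).del (num (S.map Prod.fst) a)).sides =
        (S.filter (fun s => !(isArc a s.1))).map
          (rs (sh (num (S.map Prod.fst) a) ∘ num (S.map Prod.fst))) := by
      rw [sides_del_self hs]
      change ((cf S).filter _).map _ = _
      rw [cf_eq, List.filter_map, List.map_map]
      have e5 : S.filter ((fun s : Side × ℕ => !(isArc (num (S.map Prod.fst) a) s.1)) ∘
          rs (num (S.map Prod.fst))) = S.filter (fun s => !(isArc a s.1)) := by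
        apply List.filter_congr
        rintro ⟨x, r'⟩ hx
        simp only [Function.comp_apply, rs_fst]
        rw [isArc_ren]
        rintro a' b rfl
        exact ⟨fun e => hinj ⟨b, List.mem_map_of_mem (f := Prod.fst) hx⟩ hla e, fun e => by rw [e]⟩
      rw [e5]
      apply List.map_congr_left
      intro s _
      simp only [Function.comp_apply, rs_rs]
    have e6 := cf_eq_self hcan
    change cf ((⟨cf S, be, pu⟩ : Fam).del (num (S.map Prod.fst) a)).sides =
      ((⟨cf S, be, pu⟩ : Fam).del (num (S.map Prod.fst) a)).sides at e6
    rw [← e6, e4, cf_rs]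
    intro x hx y hy hxy
    simp only [Function.comp_apply, sh] at hxy
    have hx' : x ∈ lab (S.map Prod.fst) ∧ x ≠ a := by
      obtain ⟨b, hb⟩ := hx
      rw [List.mem_map] at hb
      obtain ⟨s, hs, hs'⟩ := hb
      have := List.mem_filter.1 hs
      rw [hs'] at this
      refine ⟨⟨b, ?_⟩, by simpa using this.2⟩
      rw [← hs']; exact List.mem_map_of_mem this.1
    have hy' : y ∈ lab (S.map Prod.fst) ∧ y ≠ a := by
      obtain ⟨b, hb⟩ := hy
      rw [List.mem_map] at hb
      obtain ⟨s, hs, hs'⟩ := hb
      have := List.mem_filter.1 hs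
      rw [hs'] at this
      refine ⟨⟨b, ?_⟩, by simpa using this.2⟩
      rw [← hs']; exact List.mem_map_of_mem this.1
    apply hinj hx'.1 hy'.1
    have e7 : num (S.map Prod.fst) x ≠ num (S.map Prod.fst) a :=
      fun e => hx'.2 (hinj hx'.1 hla e)
    have e8 : num (S.map Prod.fst) y ≠ num (S.map Prod.fst) a :=
      fun e => hy'.2 (hinj hy'.1 hla e)
    split_ifs at hxy <;> omega
  · rw [betti_del_self hs, e1]
  · exact punc_del_self hs

end ArcC.Da
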