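import Mathlib
import Pool.Agent.Lib.MP_e5080e_gt.GlueNum

/-! Signs. -/

namespace ArcC.Da

open Equiv Side

variable {F : Surf} {j : ℕ} {α : Fam}

/-- the word of the raw glued list -/
abbrev gw (j : ℕ) (α : Fam) (w : List Side) : List Side := (rawGlue j α w).map Prod.fst

section

variable {k : ℕ} {w : List Side}

lemma gw_nodup (h : α.IsFam0 F) (hw : IsWord (α.sidesL j).length k w) : (gw j α w).Nodup :=
  (glueHyp h hw).nodup h.word.nodup (am_rawGlue hw)

lemma gw_rawWord (h : α.IsFam0 F) (hw : IsWord (α.sidesL j).length k w) :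
    RawWord F.n (gw j α w) :=
  (glueHyp h hw).rawWord h.word.rawWord (am_rawGlue hw)

lemma gw_narc (hw : IsWord (α.sidesL j).length k w) :
    narc (gw j α w) = α.arcs + k := by
  rw [(am_rawGlue hw).narc_eq, narc_ren, hw.narc_eq]; rfl

lemma mem_raw (h : α.IsFam0 F) (hw : IsWord (α.sidesL j).length k w) {a r : ℕ} {b : Bool} :
    (arc a b, r) ∈ rawGlue j α w ↔ (arc a b, r) ∈ α.sides ∨
      (r = j ∧ ∃ c < k, a = c + α.arcs) := by
  rw [(am_rawGlue hw).mem_iff]
  simp only [isPt_arc, true_and, List.mem_map]
  constructor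
  · rintro (h1 | ⟨h1, x, hx, he⟩)
    · exact Or.inl h1
    · right
      refine ⟨h1, ?_⟩
      cases x with
      | pt i => simp at he
      | arc a' b' =>
        simp only [ren_arc, arc.injEq] at he
        exact ⟨a', (hw.mem a' b').1 hx, he.1.symm⟩
  · rintro (h1 | ⟨h1, c, hc, rfl⟩)
    · exact Or.inl h1
    · right
      exact ⟨h1, arc c b, (hw.mem c b).2 hc, rfl⟩

lemma mem_gw (h : α.IsFam0 F) (hw : IsWord (α.sidesL j).length k w) {a : ℕ} {b : Bool} :
    arc a b ∈ gw j α w ↔ a < α.arcs + k := by
  constructor
  · intro h1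
    rw [List.mem_map] at h1
    obtain ⟨⟨x, r⟩, h2, h3⟩ := h1
    simp only at h3
    subst h3
    rcases (mem_raw h hw).1 h2 with h4 | ⟨_, c, hc, rfl⟩
    · have := (h.word.mem a b).1 (List.mem_map_of_mem (f := Prod.fst) h4)
      omega
    · omega
  · intro h1
    by_cases h2 : a < α.arcs
    · have h3 := (h.word.mem a b).2 h2
      unfold Fam.word at h3
      rw [List.mem_map] at h3 ⊢
      obtain ⟨⟨x, r⟩, h4, h5⟩ := h3
      simp only at h5
      subst h5
      exact ⟨_, (mem_raw h hw).2 (Or.inl h4), rfl⟩
    · rw [List.mem_map]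
      refine ⟨(arc a b, j), (mem_raw h hw).2 (Or.inr ⟨rfl, a - α.arcs, by omega, by omega⟩), rfl⟩

lemma mem_lab_gw (h : α.IsFam0 F) (hw : IsWord (α.sidesL j).length k w) {a : ℕ} :
    a ∈ lab (gw j α w) ↔ a < α.arcs + k :=
  ⟨fun ⟨_, hb⟩ => (mem_gw h hw).1 hb, fun ha => ⟨false, (mem_gw h hw).2 ha⟩⟩

lemma num_gw_lt (h : α.IsFam0 F) (hw : IsWord (α.sidesL j).length k w) {a : ℕ}
    (ha : a < α.arcs + k) : num (gw j α w) a < α.arcs + k := by
  rw [← gw_narc hw]
  exact num_lt (gw_rawWord h hw).full ((mem_lab_gw h hw).2 ha)

lemma num_gw_inj (h : α.IsFam0 F) (hw : IsWord (α.sidesL j).length k w) :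
    Set.InjOn (num (gw j α w)) (Finset.range (α.arcs + k)) := by
  intro a ha b hb hab
  simp only [Finset.coe_range, Set.mem_Iio] at ha hb
  exact num_injOn (gw_rawWord h hw).full ((mem_lab_gw h hw).2 ha) ((mem_lab_gw h hw).2 hb) hab

lemma num_gw_old (h : α.IsFam0 F) (hw : IsWord (α.sidesL j).length k w) {a b : ℕ}
    (hab : a < b) (hb : b < α.arcs) : num (gw j α w) a < num (gw j α w) b := by
  apply num_lt_of_sublist (l := α.word) ((am_rawGlue hw).sublist.map _) (gw_nodup h hw)
    ((h.word.mem _ _).2 (by omega)) ((h.word.mem _ _).2 hb)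
  rw [num_of_firsts h.word.firsts (by omega), num_of_firsts h.word.firsts hb]
  exact hab

lemma num_gw_new (h : α.IsFam0 F) (hw : IsWord (α.sidesL j).length k w) {a b : ℕ}
    (hab : a < b) (hb : b < k) :
    num (gw j α w) (a + α.arcs) < num (gw j α w) (b + α.arcs) := by
  have hsub := ((am_rawGlue hw).sublist_extra).map Prod.fst
  rw [List.map_map] at hsub
  have h3 : (Prod.fst ∘ fun x : Side => (x, j)) = id := rfl
  rw [h3, List.map_id] at hsub
  have hmem : ∀ c < k, arc (c + α.arcs) false ∈
      (w.map (ren (· + α.arcs))).filter (fun x => !(isPt x)) := by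
    intro c hc
    rw [List.mem_filter]
    exact ⟨List.mem_map.2 ⟨arc c false, (hw.mem c false).2 hc, rfl⟩, rfl⟩
  have hnum : ∀ c < k, num ((w.map (ren (· + α.arcs))).filter (fun x => !(isPt x)))
      (c + α.arcs) = c := by
    intro c hc
    have e1 : num ((w.map (ren (· + α.arcs))).filter (fun x => !(isPt x))) (c + α.arcs) =
        num (w.map (ren (· + α.arcs))) (c + α.arcs) := by
      unfold num
      congr 1
      rw [List.filter_filter]
      apply List.filter_congr
      intro x _
      cases x <;> simp
    rw [e1]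
    have e2 := num_ren (l := w) (f := (· + α.arcs)) (add_injective _).injOn (a := c)
      ⟨false, (hw.mem c false).2 hc⟩
    rw [e2]
    exact num_of_firsts hw.firsts hc
  apply num_lt_of_sublist hsub (gw_nodup h hw) (hmem a (by omega)) (hmem b hb)
  rw [hnum a (by omega), hnum b hb]
  exact hab

lemma num_gw_old_iff (h : α.IsFam0 F) (hw : IsWord (α.sidesL j).length k w) {a b : ℕ}
    (ha : a < α.arcs) (hb : b < α.arcs) :
    num (gw j α w) a < num (gw j α w) b ↔ a < b := by
  constructor
  · intro h1
    by_contra hc
    rcases Nat.lt_or_ge b a with h2 | h2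
    · have := num_gw_old h hw h2 ha
      omega
    · have : a = b := by omega
      subst this; omega
  · intro h1; exact num_gw_old h hw h1 hb

lemma num_gw_new_iff (h : α.IsFam0 F) (hw : IsWord (α.sidesL j).length k w) {a b : ℕ}
    (ha : a < k) (hb : b < k) :
    num (gw j α w) (a + α.arcs) < num (gw j α w) (b + α.arcs) ↔ a < b := by
  constructor
  · intro h1
    by_contra hc
    rcases Nat.lt_or_ge b a with h2 | h2
    · have := num_gw_new h hw h2 ha
      omega
    · have : a = b := by omega
      subst this; omega
  · intro h1; exact num_gw_new h hw h1 hb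

lemma eps_eq_prod (j : ℕ) (α : Fam) (w : List Side) :
    eps j α w = ∏ a ∈ Finset.range α.arcs, (-1 : ℤ) ^ (num (gw j α w) a + a) := by
  unfold eps
  rw [Finset.prod_pow_eq_pow_sum]

lemma eps_mul_self (j : ℕ) (α : Fam) (w : List Side) : eps j α w * eps j α w = 1 := by
  unfold eps
  rw [← pow_add, ← two_mul, pow_mul]; simp

/-- sign of the deletion of an old self arc -/
lemma sign_old (h : α.Stage F (j + 1)) (hw : IsWord (α.sidesL j).length k w) {c : ℕ}
    (hc : c < α.arcs) (hs : α.selfArc c) :
    (-1 : ℤ) ^ num (gw j α w) c * eps j α w = (-1) ^ c * eps j (α.del c) w := by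
  have hdel := rawGlue_del_old h hw hc hs
  have harcs := Fam.arcs_del h.fam hc
  have hnd := gw_nodup h.fam hw
  have hcm : arc c false ∈ gw j α w := (mem_gw h.fam hw).2 (by omega)
  have hl1 : gw j (α.del c) w = ((gw j α w).filter (fun x => !(isArc c x))).map (ren (sh c)) := by
    unfold gw
    rw [← hdel, map_rs_fst, List.filter_map]
    rfl
  have hnot : ∀ b, arc c b ∉ (gw j α w).filter (fun x => !(isArc c x)) := by
    intro b hb
    have := (List.mem_filter.1 hb).2
    simp at this
  have key : ∀ a ∈ (Finset.range α.arcs).erase c,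
      (-1 : ℤ) ^ (num (gw j α w) a + a) = (-1) ^ (num (gw j (α.del c) w) (sh c a) + sh c a) := by
    intro a ha
    rw [Finset.mem_erase, Finset.mem_range] at ha
    have hm : arc a false ∈ (gw j α w).filter (fun x => !(isArc c x)) := by
      rw [List.mem_filter]
      refine ⟨(mem_gw h.fam hw).2 (by omega), by simpa using ha.1⟩
    have e0 := num_ren (shift_injOn_lab c hnot) (a := a) ⟨false, hm⟩
    change num (((gw j α w).filter (fun x => !(isArc c x))).map (ren (sh c))) (sh c a) = _ at e0
    rw [hl1, e0, num_filter hnd hcm (Ne.symm ha.1)]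
    simp only [num_gw_old_iff h.fam hw hc ha.2, sh]
    by_cases hca : c < a
    · rw [if_pos hca, if_pos hca]
      have h1 := num_gw_old h.fam hw hca ha.2
      obtain ⟨x, hx⟩ : ∃ x, num (gw j α w) a = x + 1 := ⟨num (gw j α w) a - 1, by omega⟩
      obtain ⟨y, hy⟩ : ∃ y, a = y + 1 := ⟨a - 1, by omega⟩
      rw [hx]
      have e1 : x + 1 + a = (x + 1 - 1 + (a - 1)) + 2 := by omega
      rw [e1, pow_add]; simp
    · rw [if_neg hca, if_neg hca, Nat.sub_zero]
  have hprod : eps j (α.del c) w =
      ∏ a ∈ (Finset.range α.arcs).erase c, (-1 : ℤ) ^ (num (gw j α w) a + a) := by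
    rw [eps_eq_prod, Finset.prod_congr rfl key]
    symm
    apply Finset.prod_nbij' (sh c) (fun b => if b < c then b else b + 1)
    · intro a ha
      rw [Finset.mem_erase, Finset.mem_range] at ha
      rw [Finset.mem_range]
      unfold sh; split_ifs <;> omega
    · intro b hb
      rw [Finset.mem_range] at hb
      rw [Finset.mem_erase, Finset.mem_range]
      split_ifs <;> omega
    · intro a ha
      rw [Finset.mem_erase, Finset.mem_range] at ha
      unfold sh; split_ifs <;> omega
    · intro b hb
      unfold sh; split_ifs <;> omega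
    · intro a _; rfl
  rw [hprod, eps_eq_prod, ← Finset.mul_prod_erase _ _ (Finset.mem_range.2 hc), ← mul_assoc,
    ← pow_add, ← add_assoc, ← two_mul, pow_add, pow_mul]
  simp

lemma count_gw (h : α.IsFam0 F) (hw : IsWord (α.sidesL j).length k w) {c : ℕ} (hc : c < k) :
    ((Finset.range α.arcs).filter
      (fun a => num (gw j α w) (c + α.arcs) < num (gw j α w) a)).card +
        num (gw j α w) (c + α.arcs) = α.arcs + c := by
  set f := num (gw j α w) with hf
  set p := f (c + α.arcs) with hp
  have hpl : p < α.arcs + k := num_gw_lt h hw (by omega)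
  -- the image of the range is the range
  have himg : (Finset.range (α.arcs + k)).image f = Finset.range (α.arcs + k) := by
    apply Finset.eq_of_subset_of_card_le
    · intro x hx
      rw [Finset.mem_image] at hx
      obtain ⟨a, ha, rfl⟩ := hx
      rw [Finset.mem_range] at ha ⊢
      exact num_gw_lt h hw ha
    · rw [Finset.card_image_of_injOn (num_gw_inj h hw)]
  have h1 : ((Finset.range (α.arcs + k)).filter (fun a => f a < p)).card = p := by
    have e1 : (((Finset.range (α.arcs + k)).filter (fun a => f a < p)).image f) =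
        Finset.range p := by
      ext x
      simp only [Finset.mem_image, Finset.mem_filter, Finset.mem_range]
      constructor
      · rintro ⟨a, ⟨_, h3⟩, rfl⟩; exact h3
      · intro hx
        have : x ∈ (Finset.range (α.arcs + k)).image f := by
          rw [himg, Finset.mem_range]; omega
        rw [Finset.mem_image] at this
        obtain ⟨a, ha, rfl⟩ := this
        exact ⟨a, ⟨Finset.mem_range.1 ha, hx⟩, rfl⟩
    rw [← Finset.card_image_of_injOn (f := f), e1, Finset.card_range]
    intro a ha b hb hab
    simp only [Finset.coe_filter, Finset.mem_range, Set.mem_ofPred_eq] at ha hb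
    exact num_gw_inj h hw (by simpa using ha.1) (by simpa using hb.1) hab
  have h2 : (Finset.range (α.arcs + k)).filter (fun a => f a < p) =
      (Finset.range α.arcs).filter (fun a => f a < p) ∪
        (Finset.range c).image (· + α.arcs) := by
    ext x
    simp only [Finset.mem_filter, Finset.mem_range, Finset.mem_union, Finset.mem_image]
    constructor
    · rintro ⟨h3, h4⟩
      by_cases h5 : x < α.arcs
      · exact Or.inl ⟨h5, h4⟩
      · right
        refine ⟨x - α.arcs, ?_, by omega⟩
        have h6 : x = (x - α.arcs) + α.arcs := by omega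
        rw [h6, hp] at h4
        exact (num_gw_new_iff h hw (by omega) hc).1 h4
    · rintro (⟨h3, h4⟩ | ⟨y, hy, rfl⟩)
      · exact ⟨by omega, h4⟩
      · exact ⟨by omega, (num_gw_new_iff h hw (by omega) hc).2 hy⟩
  have hdisj : Disjoint ((Finset.range α.arcs).filter (fun a => f a < p))
      ((Finset.range c).image (· + α.arcs)) := by
    rw [Finset.disjoint_left]
    intro x hx hx'
    simp only [Finset.mem_filter, Finset.mem_range] at hx
    simp only [Finset.mem_image, Finset.mem_range] at hx'
    obtain ⟨y, _, rfl⟩ := hx'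
    omega
  rw [h2, Finset.card_union_of_disjoint hdisj,
    Finset.card_image_of_injective _ (add_injective _), Finset.card_range] at h1
  have h3 : ((Finset.range α.arcs).filter (fun a => f a < p)).card +
      ((Finset.range α.arcs).filter (fun a => p < f a)).card = α.arcs := by
    rw [← Finset.card_union_of_disjoint]
    · have : (Finset.range α.arcs).filter (fun a => f a < p) ∪
          (Finset.range α.arcs).filter (fun a => p < f a) = Finset.range α.arcs := by
        ext x
        simp only [Finset.mem_filter, Finset.mem_range, Finset.mem_union]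
        constructor
        · rintro (h | h) <;> exact h.1
        · intro hx
          have : f x ≠ p := by
            intro e
            have := num_gw_inj h hw (x₁ := x) (x₂ := c + α.arcs)
              (by simp; omega) (by simp; omega) e
            omega
          rcases Nat.lt_or_gt_of_ne this with h | h
          · exact Or.inl ⟨hx, h⟩
          · exact Or.inr ⟨hx, h⟩
      rw [this, Finset.card_range]
    · rw [Finset.disjoint_left]
      intro x hx hx'
      simp only [Finset.mem_filter] at hx hx'
      omega
  omega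

/-- sign of the deletion of an arc of the word -/
lemma sign_new (h : α.IsFam0 F) (hw : IsWord (α.sidesL j).length (k + 1) w) {c : ℕ}
    (hc : c < k + 1) :
    (-1 : ℤ) ^ num (gw j α w) (c + α.arcs) * eps j α w =
      (-1) ^ α.arcs * ((-1) ^ c * eps j α (wdel c w)) := by
  have hdel := rawGlue_del_new h hw hc
  have hnd := gw_nodup h hw
  have hcm : arc (c + α.arcs) false ∈ gw j α w := (mem_gw h hw).2 (by omega)
  have hl1 : gw j α (wdel c w) =
      ((gw j α w).filter (fun x => !(isArc (c + α.arcs) x))).map (ren (sh (c + α.arcs))) := by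
    unfold gw
    rw [← hdel, map_rs_fst, List.filter_map]
    rfl
  have hnot : ∀ b, arc (c + α.arcs) b ∉
      (gw j α w).filter (fun x => !(isArc (c + α.arcs) x)) := by
    intro b hb
    have := (List.mem_filter.1 hb).2
    simp at this
  have key : ∀ a ∈ Finset.range α.arcs,
      (-1 : ℤ) ^ (num (gw j α (wdel c w)) a + a) = (-1) ^ (num (gw j α w) a + a) *
        (if num (gw j α w) (c + α.arcs) < num (gw j α w) a then (-1) else 1) := by
    intro a ha
    rw [Finset.mem_range] at ha
    have hm : arc a false ∈ (gw j α w).filter (fun x => !(isArc (c + α.arcs) x)) := by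
      rw [List.mem_filter]
      have : a ≠ c + α.arcs := by omega
      refine ⟨(mem_gw h hw).2 (by omega), by simpa using this⟩
    have hsh : sh (c + α.arcs) a = a := by unfold sh; rw [if_neg (by omega)]
    have e0 := num_ren (shift_injOn_lab (c + α.arcs) hnot) (a := a) ⟨false, hm⟩
    rw [if_neg (by omega : ¬ (c + α.arcs < a))] at e0
    have e1 : num (gw j α (wdel c w)) a =
        num ((gw j α w).filter (fun x => !(isArc (c + α.arcs) x))) a := by
      rw [hl1]; exact e0
    rw [e1, num_filter hnd hcm (by omega)]
    split_ifs with h1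
    · obtain ⟨x, hx⟩ : ∃ x, num (gw j α w) a = x + 1 := ⟨num (gw j α w) a - 1, by omega⟩
      rw [hx]
      have e1 : x + 1 + a = (x + 1 - 1 + a) + 1 := by omega
      rw [e1, pow_succ]; simp
    · simp
  have hprod : eps j α (wdel c w) = eps j α w *
      (-1) ^ ((Finset.range α.arcs).filter
        (fun a => num (gw j α w) (c + α.arcs) < num (gw j α w) a)).card := by
    rw [eps_eq_prod, Finset.prod_congr rfl key, Finset.prod_mul_distrib, ← eps_eq_prod]
    congr 1
    rw [Finset.prod_ite, Finset.prod_const_one, mul_one, Finset.prod_const]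
  have hcount := count_gw h hw hc
  rw [hprod]
  set m := ((Finset.range α.arcs).filter
        (fun a => num (gw j α w) (c + α.arcs) < num (gw j α w) a)).card with hm
  set p := num (gw j α w) (c + α.arcs) with hp
  have e2 : (-1 : ℤ) ^ α.arcs * ((-1) ^ c * (eps j α w * (-1) ^ m)) =
      (-1) ^ (α.arcs + c + m) * eps j α w := by
    rw [pow_add, pow_add]; ring
  rw [e2, ← hcount]
  have e3 : m + p + m = p + 2 * m := by ring
  rw [e3, pow_add, pow_mul]; simp

end

end ArcC.Da
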