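import Mathlib
import Pool.Agent.Lib.MP_e5080e_gt.GlueSign

/-! The boundary of a glued chain. -/

namespace ArcC.Da

open Equiv Side

lemma linear_ext_support {γ : Type*} {A M : Type*} [AddCommGroup A] [AddCommGroup M]
    (L₁ L₂ : (γ →₀ A) →ₗ[ℤ] M) (x : γ →₀ A)
    (h : ∀ w ∈ x.support, ∀ a, L₁ (Finsupp.single w a) = L₂ (Finsupp.single w a)) :
    L₁ x = L₂ x := by
  rw [← Finsupp.sum_single x]
  unfold Finsupp.sum
  rw [map_sum, map_sum]
  exact Finset.sum_congr rfl (fun w hw => h w hw _)

lemma Gl_single {A : Type*} [AddCommGroup A] (j : ℕ) (α : Fam) (w : List Side) (a : A) :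
    Gl A j α (Finsupp.single w a) = eps j α w • Finsupp.single (glue j α w) a := by
  unfold Gl
  rw [Finsupp.lsum_single]
  simp

lemma wbd_single {A : Type*} [AddCommGroup A] (w : List Side) (a : A) :
    wbd A (Finsupp.single w a) =
      ∑ c ∈ Finset.range (narc w), (-1 : ℤ) ^ c • Finsupp.single (wdel c w) a := by
  unfold wbd
  rw [Finsupp.lsum_single]
  simp [narc]

open Classical in
lemma fbd_single {A : Type*} [AddCommGroup A] (S : Fam → ℕ → Prop) (α : Fam) (a : A) :
    fbd A S (Finsupp.single α a) =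
      ∑ c ∈ (Finset.range α.arcs).filter (S α), (-1 : ℤ) ^ c • Finsupp.single (α.del c) a := by
  unfold fbd
  rw [Finsupp.lsum_single]
  simp

variable {F : Surf} {j : ℕ} {α : Fam}

open Classical in
lemma sum_glue (h : α.Stage F (j + 1)) (hj : j < α.numReg) {k : ℕ} {w : List Side}
    (hw : w ∈ α.CW F j k) {M : Type*} [AddCommGroup M] (g : ℕ → M) :
    ∑ c ∈ (Finset.range (glue j α w).arcs).filter (glue j α w).selfArc, g c =
      ∑ c ∈ (Finset.range α.arcs).filter α.selfArc, g (num (gw j α w) c) +
        ∑ c ∈ Finset.range k, g (num (gw j α w) (c + α.arcs)) := by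
  have hR := rawGlue_rawFam h.fam hj hw
  have harcs := (glue_stage h hj hw).2.1
  set T : Finset ℕ := (Finset.range α.arcs).filter α.selfArc ∪
    (Finset.range k).image (· + α.arcs) with hT
  have hmem : ∀ a ∈ T, a < α.arcs + k := by
    intro a ha
    simp only [hT, Finset.mem_union, Finset.mem_filter, Finset.mem_range,
      Finset.mem_image] at ha
    rcases ha with ha | ⟨c, hc, rfl⟩ <;> omega
  have hreg : ∀ a r r', (arc a false, r) ∈ rawGlue j α w → (arc a true, r') ∈ rawGlue j α w →
      ((glue j α w).selfArc (num (gw j α w) a) ↔ r = r') := by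
    intro a r r' h1 h2
    have e1 : (glue j α w).reg (arc (num (gw j α w) a) false) = r := reg_cf hR.word h1
    have e2 : (glue j α w).reg (arc (num (gw j α w) a) true) = r' := reg_cf hR.word h2
    unfold Fam.selfArc
    rw [e1, e2]
  have himg : (Finset.range (glue j α w).arcs).filter (glue j α w).selfArc =
      T.image (num (gw j α w)) := by
    ext c
    simp only [Finset.mem_filter, Finset.mem_range, Finset.mem_image]
    rw [harcs]
    constructor
    · rintro ⟨h1, h2⟩
      rw [← gw_narc hw.1] at h1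
      obtain ⟨a, r, r', h3, h4, h5⟩ := exists_of_lt hR.word h1
      subst h3
      have h6 := (hreg a r r' h4 h5).1 h2
      subst h6
      refine ⟨a, ?_, rfl⟩
      simp only [hT, Finset.mem_union, Finset.mem_filter, Finset.mem_range, Finset.mem_image]
      have h4' := (mem_raw h.fam hw.1).1 h4
      have h5' := (mem_raw h.fam hw.1).1 h5
      by_cases ha : a < α.arcs
      · left
        refine ⟨ha, ?_⟩
        rcases h4' with h4' | ⟨_, c, _, rfl⟩
        · rcases h5' with h5' | ⟨_, c, _, rfl⟩
          · unfold Fam.selfArc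
            rw [Fam.reg_eq h.fam.word.nodup h4', Fam.reg_eq h.fam.word.nodup h5']
          · omega
        · omega
      · right
        have : a < α.arcs + k := (mem_gw h.fam hw.1).1 (List.mem_map_of_mem (f := Prod.fst) h4)
        exact ⟨a - α.arcs, by omega, by omega⟩
    · rintro ⟨a, ha, rfl⟩
      refine ⟨num_gw_lt h.fam hw.1 (hmem a ha), ?_⟩
      simp only [hT, Finset.mem_union, Finset.mem_filter, Finset.mem_range,
        Finset.mem_image] at ha
      rcases ha with ⟨h1, h2⟩ | ⟨c, hc, rfl⟩
      · have h3 := Fam.mem_sides_reg h.fam.word.nodup ((h.fam.word.mem a false).2 h1)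
        have h4 := Fam.mem_sides_reg h.fam.word.nodup ((h.fam.word.mem a true).2 h1)
        exact (hreg a _ _ ((mem_raw h.fam hw.1).2 (Or.inl h3))
          ((mem_raw h.fam hw.1).2 (Or.inl h4))).2 h2
      · exact (hreg _ j j ((mem_raw h.fam hw.1).2 (Or.inr ⟨rfl, c, hc, rfl⟩))
          ((mem_raw h.fam hw.1).2 (Or.inr ⟨rfl, c, hc, rfl⟩))).2 rfl
  rw [himg, Finset.sum_image, hT, Finset.sum_union, Finset.sum_image]
  · intro a _ b _ hab; exact add_injective _ hab
  · rw [Finset.disjoint_left]
    intro x hx hx'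
    simp only [Finset.mem_filter, Finset.mem_range] at hx
    simp only [Finset.mem_image, Finset.mem_range] at hx'
    obtain ⟨y, _, rfl⟩ := hx'
    omega
  · intro a ha b hb hab
    apply num_gw_inj h.fam hw.1 _ _ hab
    · simpa using hmem a ha
    · simpa using hmem b hb

lemma del_glue_old (h : α.Stage F (j + 1)) (hj : j < α.numReg) {k : ℕ} {w : List Side}
    (hw : w ∈ α.CW F j k) {c : ℕ} (hc : c < α.arcs) (hs : α.selfArc c) :
    (glue j α w).del (num (gw j α w) c) = glue j (α.del c) w := by
  have hR := rawGlue_rawFam h.fam hj hw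
  have hcj := h.self c hc hs
  have h3 := Fam.mem_sides_reg h.fam.word.nodup ((h.fam.word.mem c false).2 hc)
  have h4 := Fam.mem_sides_reg h.fam.word.nodup ((h.fam.word.mem c true).2 hc)
  have hs' : α.reg (arc c false) = α.reg (arc c true) := hs
  rw [← hs'] at h4
  have e1 := (del_cf hR ((mem_raw h.fam hw.1).2 (Or.inl h3))
    ((mem_raw h.fam hw.1).2 (Or.inl h4))).2
  change (glue j α w).del (num (gw j α w) c) = _ at e1
  rw [e1]
  have e2 := rawGlue_del_old h hw.1 hc hs
  have hnot : ∀ b, arc c b ∉
      ((rawGlue j α w).filter (fun s => !(isArc c s.1))).map Prod.fst := by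
    intro b hb
    rw [List.mem_map] at hb
    obtain ⟨s, hs, hs'⟩ := hb
    have := (List.mem_filter.1 hs).2
    rw [hs'] at this
    simp at this
  have e3 := cf_rs (shift_injOn_lab c hnot)
  change cf (((rawGlue j α w).filter (fun s => !(isArc c s.1))).map (rs (sh c))) = _ at e3
  rw [e2] at e3
  unfold glue
  rw [e3, punc_del_self hs, betti_del_self hs]
  congr 1
  ext i
  rw [Finsupp.add_apply, Finsupp.tsub_apply, Finsupp.tsub_apply, Finsupp.add_apply]
  by_cases hi : i = j
  · subst hi
    rw [Finsupp.single_eq_of_ne (by omega : i ≠ α.reg (arc c false))]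
    simp
  · rw [Finsupp.single_eq_of_ne hi]; simp

lemma del_glue_new (h : α.Stage F (j + 1)) (hj : j < α.numReg) {k : ℕ} {w : List Side}
    (hw : w ∈ α.CW F j (k + 1)) {c : ℕ} (hc : c < k + 1) :
    (glue j α w).del (num (gw j α w) (c + α.arcs)) = glue j α (wdel c w) := by
  have hR := rawGlue_rawFam h.fam hj hw
  have e1 := (del_cf hR ((mem_raw h.fam hw.1).2 (Or.inr ⟨rfl, c, hc, rfl⟩) :
      (arc (c + α.arcs) false, j) ∈ rawGlue j α w)
    ((mem_raw h.fam hw.1).2 (Or.inr ⟨rfl, c, hc, rfl⟩))).2
  change (glue j α w).del (num (gw j α w) (c + α.arcs)) = _ at e1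
  rw [e1]
  have e2 := rawGlue_del_new h.fam hw.1 hc
  have hnot : ∀ b, arc (c + α.arcs) b ∉
      ((rawGlue j α w).filter (fun s => !(isArc (c + α.arcs) s.1))).map Prod.fst := by
    intro b hb
    rw [List.mem_map] at hb
    obtain ⟨s, hs, hs'⟩ := hb
    have := (List.mem_filter.1 hs).2
    rw [hs'] at this
    simp at this
  have e3 := cf_rs (shift_injOn_lab (c + α.arcs) hnot)
  change cf (((rawGlue j α w).filter (fun s => !(isArc (c + α.arcs) s.1))).map
    (rs (sh (c + α.arcs)))) = _ at e3
  rw [e2] at e3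
  have hle := Fam.CW_le hw
  unfold glue
  rw [e3, hw.1.narc_eq, (hw.1.del hc).narc_eq]
  congr 1
  ext i
  rw [Finsupp.add_apply, Finsupp.tsub_apply, Finsupp.tsub_apply]
  by_cases hi : i = j
  · subst hi
    simp only [Finsupp.single_eq_same]
    omega
  · simp [Finsupp.single_eq_of_ne hi]

end ArcC.Da

namespace ArcC

open Equiv Side Da

variable {F : Surf} {j : ℕ} {α : Fam}

theorem fbd_Gl {A : Type*} [AddCommGroup A] (h : α.Stage F (j + 1)) (hj : j < α.numReg) {k : ℕ}
    (x : List Side →₀ A) (hx : ∀ w ∈ x.support, w ∈ α.CW F j k) :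
    fbd A Fam.selfArc (Gl A j α x) = (-1 : ℤ) ^ α.arcs • Gl A j α (wbd A x) +
      (by classical exact ∑ c ∈ (Finset.range α.arcs).filter α.selfArc,
        (-1 : ℤ) ^ c • Gl A j (α.del c) x) := by
  classical
  have key := linear_ext_support ((fbd A Fam.selfArc).comp (Gl A j α))
    ((-1 : ℤ) ^ α.arcs • (Gl A j α).comp (wbd A) +
      ∑ c ∈ (Finset.range α.arcs).filter α.selfArc, (-1 : ℤ) ^ c • Gl A j (α.del c)) x (by
    intro w hw' a
    have hw := hx w hw'
    simp only [LinearMap.comp_apply, LinearMap.add_apply, LinearMap.smul_apply,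
      LinearMap.sum_apply]
    rw [Gl_single, wbd_single, map_smul, Da.fbd_single, sum_glue h hj hw, smul_add, map_sum,
      add_comm, hw.1.narc_eq]
    congr 1
    · -- new arcs
      rw [Finset.smul_sum, Finset.smul_sum]
      apply Finset.sum_congr rfl
      intro c hc
      rw [Finset.mem_range] at hc
      obtain ⟨k', rfl⟩ : ∃ k', k = k' + 1 := ⟨k - 1, by omega⟩
      rw [map_smul, Gl_single, del_glue_new h hj hw hc, smul_smul, smul_smul, smul_smul]
      congr 1
      rw [mul_comm, sign_new h.fam hw.1 hc]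
      ring
    · -- old arcs
      rw [Finset.smul_sum]
      apply Finset.sum_congr rfl
      intro c hc
      rw [Finset.mem_filter, Finset.mem_range] at hc
      rw [Gl_single, del_glue_old h hj hw hc.1 hc.2, smul_smul, smul_smul]
      congr 1
      rw [mul_comm, sign_old h hw.1 hc.1 hc.2])
  simp only [LinearMap.comp_apply, LinearMap.add_apply, LinearMap.smul_apply,
      LinearMap.sum_apply] at key
  exact key

end ArcC
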