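import Mathlib
import Pool.Agent.Lib.MP_e5080e_gt.GlueBd

/-! Interface of the decomposition of a family at a region: `Fam.sidesL_pos`, `Fam.rho_fix`,
`Fam.rho_parity`, `Fam.CW_le`, `Fam.Stage.del_self`, `glue_stage`, `exists_glue`, `glue_inj`,
`fbd_Gl`. -/
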