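import Pool.Agent.Lib.MP_e5080e_gt.DbSq
import Pool.Agent.Lib.MP_e5080e_gt.GlueIface

/-!
Kuenneth type algebra for Claim 1: induction on stages.
-/

namespace ArcC

open Side Equiv

/-- what is needed about words -/
structure WData : Prop where
  wdel_mem : ∀ (n : ℕ) (ρ : Perm ℕ) (d k : ℕ), 0 < n → (∀ x, n ≤ x → ρ x = x) →
    ∀ w ∈ CW n ρ d (k + 1), ∀ c < k + 1, wdel c w ∈ CW n ρ d k
  spherical : ∀ (A : Type) [AddCommGroup A] (n : ℕ) (_ : 0 < n) (ρ : Perm ℕ)
    (_ : ∀ j, n ≤ j → ρ j = j) (d : ℕ) (_ : (d + 1) % 2 = ncyc ρ (Set.Iio n) % 2)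
    (k : ℕ) (_ : k < d) (z : List Side →₀ A) (_ : ∀ w ∈ z.support, w ∈ CW n ρ d k)
    (_ : wbd A z = 0), ∃ y : List Side →₀ A, (∀ w ∈ y.support, w ∈ CW n ρ d (k + 1)) ∧
      wbd A y = z

theorem CW_length {n : ℕ} {ρ : Perm ℕ} {d k : ℕ} {w : List Side} (h : w ∈ CW n ρ d k) :
    (w.filter isFirst).length = k := by
  rw [h.1.firsts, List.length_map, List.length_range]

theorem ncyc_pos {α : Type*} (p : Perm α) {s : Set α} (hs : s.Finite) (h : s.Nonempty) :
    0 < ncyc p s := by
  unfold ncyc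
  rw [Set.ncard_pos (hs.image _)]
  exact h.image _

theorem CW_le' {n : ℕ} {ρ : Perm ℕ} {d k : ℕ} {w : List Side} (h : w ∈ CW n ρ d k) :
    k ≤ d := by
  have h1 : 0 < ncyc (face ρ n w) {x | x ∈ w} := by
    refine ncyc_pos _ (List.finite_toSet w) ?_
    have h2 := h.1.head
    cases w with
    | nil => simp at h2
    | cons x l => exact ⟨x, by simp⟩
  have := h.2
  omega

/-! ### Betti numbers -/

/-- the sum of the Betti numbers of the regions with number at least `j` -/
def tbB (j : ℕ) (b : ℕ →₀ ℕ) : ℕ := b.sum (fun i m => if j ≤ i then m else 0)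

theorem tbB_add (j : ℕ) (b b' : ℕ →₀ ℕ) : tbB j (b + b') = tbB j b + tbB j b' := by
  unfold tbB
  apply Finsupp.sum_add_index'
  · intro i; split_ifs <;> rfl
  · intro i m m'; split_ifs <;> rfl

theorem tbB_single (j i m : ℕ) : tbB j (Finsupp.single i m) = if j ≤ i then m else 0 := by
  unfold tbB
  apply Finsupp.sum_single_index
  split_ifs <;> rfl

theorem tbB_succ (j : ℕ) (b : ℕ →₀ ℕ) : tbB j b = b j + tbB (j + 1) b := by
  induction b using Finsupp.induction_linear with
  | zero => simp [tbB]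
  | add x y hx hy => rw [tbB_add, tbB_add, hx, hy, Finsupp.add_apply]; ring
  | single i m =>
    rw [tbB_single, tbB_single, Finsupp.single_apply]
    split_ifs <;> omega

theorem tbB_sub {j k : ℕ} {b : ℕ →₀ ℕ} (h : k ≤ b j) :
    tbB j (b - Finsupp.single j k) + k = b j + tbB (j + 1) b := by
  have h1 : b = (b - Finsupp.single j k) + Finsupp.single j k := by
    ext i
    rw [Finsupp.add_apply, Finsupp.tsub_apply, Finsupp.single_apply]
    split_ifs with h2
    · subst h2; omega
    · omega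
  have h2 : tbB j b = tbB j (b - Finsupp.single j k) + k := by
    conv_lhs => rw [h1]
    rw [tbB_add, tbB_single, if_pos le_rfl]
  rw [← h2, tbB_succ]

theorem tbB_pos {j : ℕ} {b : ℕ →₀ ℕ} (h : 1 ≤ tbB j b) : ∃ i, j ≤ i ∧ b i ≠ 0 := by
  by_contra hc
  push Not at hc
  have h1 : tbB j b = 0 := by
    unfold tbB
    refine Finset.sum_eq_zero fun i _ => ?_
    simp only
    split_ifs with h2
    · exact hc i h2
    · rfl
  omega

/-- the sum of the Betti numbers of the regions with number at least `j` -/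
def tbS (j : ℕ) (α : Fam) : ℕ := tbB j α.betti

theorem tbS_zero (α : Fam) : tbS 0 α = α.totalBetti := by
  unfold tbS tbB Fam.totalBetti
  refine Finset.sum_congr rfl fun i _ => ?_
  simp

theorem tbS_del {F : Surf} {j : ℕ} {α : Fam} (h : α.Stage F j) {c : ℕ} (hc : c < α.arcs)
    (hs : α.selfArc c) : tbS j (α.del c) = tbS j α + 1 := by
  unfold tbS
  rw [del_betti_self hs, tbB_add, tbB_single, if_pos (h.self c hc hs)]

/-! ### regions -/

theorem mem_regs_iff {F : Surf} {α : Fam} (h : α.IsFam0 F) (i : ℕ) :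
    i ∈ α.regs ↔ i < α.numReg := by
  have key : ∀ r ∈ α.regs, ∀ r' < r, r' ∈ α.regs := by
    intro r hr r' hr'
    obtain ⟨p, q, hpq⟩ := List.append_of_mem hr
    have := h.canon p r q hpq r' hr'
    rw [hpq]
    exact List.mem_append_left _ this
  unfold Fam.numReg
  constructor
  · intro hi
    have h1 : Finset.range (i + 1) ⊆ α.regs.toFinset := by
      intro x hx
      rw [Finset.mem_range] at hx
      rw [List.mem_toFinset]
      rcases eq_or_lt_of_le (Nat.lt_succ_iff.1 hx) with h2 | h2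
      · rw [h2]; exact hi
      · exact key i hi x h2
    have h2 := Finset.card_le_card h1
    rw [Finset.card_range] at h2
    omega
  · intro hi
    by_contra hn
    have h1 : α.regs.toFinset ⊆ Finset.range i := by
      intro x hx
      rw [List.mem_toFinset] at hx
      rw [Finset.mem_range]
      by_contra hc
      rcases eq_or_lt_of_le (not_lt.1 hc) with h2 | h2
      · exact hn (h2 ▸ hx)
      · exact hn (key x hx i h2)
    have h2 := Finset.card_le_card h1
    rw [Finset.card_range] at h2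
    omega

theorem word_length_le {n k : ℕ} {w : List Side} (h : IsWord n k w) : w.length ≤ n + 2 * k := by
  classical
  have h1 : w.length = (w.filter isPt).length + (w.filter (fun x => !(isPt x))).length :=
    List.length_eq_length_filter_add isPt
  have h2 : (w.filter isPt).length = n := by rw [h.pts, List.length_map, List.length_range]
  have h3 : (w.filter (fun x => !(isPt x))).length ≤ 2 * k := by
    have h4 : (w.filter (fun x => !(isPt x))).Nodup := h.nodup.filter _
    rw [← List.toFinset_card_of_nodup h4]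
    have h5 : (w.filter (fun x => !(isPt x))).toFinset ⊆
        ((Finset.range k) ×ˢ (Finset.univ : Finset Bool)).image (fun p => arc p.1 p.2) := by
      intro x hx
      rw [List.mem_toFinset, List.mem_filter] at hx
      cases x with
      | pt j => simp [isPt] at hx
      | arc a b =>
        rw [Finset.mem_image]
        refine ⟨(a, b), ?_, rfl⟩
        rw [Finset.mem_product]
        exact ⟨Finset.mem_range.2 ((h.mem a b).1 hx.1), Finset.mem_univ _⟩
    refine (Finset.card_le_card h5).trans (Finset.card_image_le.trans ?_)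
    rw [Finset.card_product, Finset.card_range]
    simp
    omega
  omega

theorem numReg_le {F : Surf} {α : Fam} (h : α.IsFam0 F) : α.numReg ≤ F.n + 2 * α.arcs := by
  unfold Fam.numReg
  refine (List.toFinset_card_le _).trans ?_
  have h1 := word_length_le h.word
  unfold Fam.word at h1
  unfold Fam.regs
  rw [List.length_map] at h1 ⊢
  exact h1

theorem lt_numReg {F : Surf} {j : ℕ} {α : Fam} (h : α.IsFam0 F) (ht : 1 ≤ tbS j α) :
    j < α.numReg := by
  obtain ⟨i, hi, hb⟩ := tbB_pos ht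
  have h1 : i ∈ α.regs := by
    by_contra hc
    exact hb (h.supp i hc)
  have := (mem_regs_iff h i).1 h1
  omega

/-! ### bichains and chains -/

section

variable (F : Surf) (j : ℕ)

/-- valid pairs -/
def VP : Set (Fam × List Side) :=
  {p | p.1.Stage F (j + 1) ∧ j < p.1.numReg ∧ ∃ k, p.2 ∈ p.1.CW F j k}

/-- the total map -/
noncomputable def Phi (A : Type) [AddCommGroup A] :
    (Fam →₀ (List Side →₀ A)) →ₗ[ℤ] (Fam →₀ A) :=
  Finsupp.lsum ℤ fun α => Gl A j α

variable {F j} {A : Type} [AddCommGroup A]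

theorem Gl_single (α : Fam) (w : List Side) (a : A) :
    Gl A j α (Finsupp.single w a) = eps j α w • Finsupp.single (glue j α w) a := by
  unfold Gl
  rw [Finsupp.lsum_single]
  rfl

theorem Phi_single (α : Fam) (x : List Side →₀ A) :
    Phi j A (Finsupp.single α x) = Gl A j α x := by
  unfold Phi
  rw [Finsupp.lsum_single]

theorem eps_sq (α : Fam) (w : List Side) : eps j α w * eps j α w = 1 := by
  unfold eps
  rw [← mul_pow]
  simp

theorem eps_eps (α : Fam) (w : List Side) (a : A) : eps j α w • (eps j α w • a) = a := by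
  rw [smul_smul, eps_sq, one_smul]

theorem single_sum (α : Fam) (s : Finset (List Side)) (u : List Side → (List Side →₀ A)) :
    Finsupp.single α (∑ w ∈ s, u w) = ∑ w ∈ s, Finsupp.single α (u w) :=
  map_sum (Finsupp.singleAddHom α) u s

/-- induction for bichains -/
theorem supp2_ind {P : Set (Fam × List Side)} {M : Type*} [AddCommGroup M]
    (f g : (Fam →₀ (List Side →₀ A)) →+ M)
    (h : ∀ α w a, (α, w) ∈ P → f (Finsupp.single α (Finsupp.single w a)) =
      g (Finsupp.single α (Finsupp.single w a)))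
    {x : Fam →₀ (List Side →₀ A)} (hx : x ∈ Supp2 A P) : f x = g x := by
  classical
  conv_lhs => rw [← Finsupp.sum_single x]
  conv_rhs => rw [← Finsupp.sum_single x]
  rw [Finsupp.sum, map_sum, map_sum]
  refine Finset.sum_congr rfl fun α hα => ?_
  rw [← Finsupp.sum_single (x α), Finsupp.sum, single_sum, map_sum, map_sum]
  refine Finset.sum_congr rfl fun w hw => h α w _ (hx α w (Finsupp.mem_support_iff.1 hw))

theorem Phi_apply {x : Fam →₀ (List Side →₀ A)} (hx : x ∈ Supp2 A (VP F j)) {α : Fam}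
    {w : List Side} (h : (α, w) ∈ VP F j) :
    Phi j A x (glue j α w) = eps j α w • x α w := by
  classical
  have key := supp2_ind (P := VP F j)
    (f := (Finsupp.applyAddHom (glue j α w) : (Fam →₀ A) →+ A).comp (Phi j A).toAddMonoidHom)
    (g := (zsmulAddGroupHom (eps j α w) : A →+ A).comp
      ((Finsupp.applyAddHom w : (List Side →₀ A) →+ A).comp
      (Finsupp.applyAddHom α : (Fam →₀ (List Side →₀ A)) →+ _))) ?_ hx
  · exact key
  · rintro β v a hβ
    simp only [AddMonoidHom.comp_apply, LinearMap.toAddMonoidHom_coe, Finsupp.applyAddHom_apply,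
      zsmulAddGroupHom_apply]
    rw [Phi_single, Gl_single, Finsupp.smul_apply, Finsupp.single_apply]
    by_cases h1 : glue j β v = glue j α w
    · obtain ⟨h2, h3, k, h4⟩ := hβ
      obtain ⟨h5, h6, k', h7⟩ := h
      obtain ⟨rfl, rfl⟩ := glue_inj h2 h3 h4 h5 h6 h7 h1
      rw [if_pos rfl, Finsupp.single_eq_same, Finsupp.single_eq_same]
    · rw [if_neg h1, smul_zero]
      by_cases h2 : β = α
      · subst h2
        rw [Finsupp.single_eq_same]
        have h3 : v ≠ w := by
          rintro rfl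
          exact h1 rfl
        rw [Finsupp.single_eq_of_ne h3.symm, smul_zero]
      · rw [Finsupp.single_eq_of_ne (Ne.symm h2)]
        simp

theorem Phi_inj {x : Fam →₀ (List Side →₀ A)} (hx : x ∈ Supp2 A (VP F j))
    (h : Phi j A x = 0) : x = 0 := by
  ext α w
  by_contra hne
  have h1 := hx α w hne
  have h2 := Phi_apply hx h1
  rw [h] at h2
  have h3 : eps j α w • (eps j α w • x α w) = 0 := by
    rw [← h2]; simp
  rw [eps_eps] at h3
  exact hne h3

/-- the boundary of bichains corresponds to the boundary of chains -/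
theorem fbd_Phi {x : Fam →₀ (List Side →₀ A)} (hx : x ∈ Supp2 A (VP F j)) :
    fbd A Fam.selfArc (Phi j A x) = Phi j A (DDb A x) := by
  classical
  refine supp2_ind (P := VP F j) (f := (fbd A Fam.selfArc ∘ₗ Phi j A).toAddMonoidHom)
    (g := (Phi j A ∘ₗ DDb A).toAddMonoidHom) ?_ hx
  rintro α w a ⟨h1, h2, k, h3⟩
  simp only [LinearMap.toAddMonoidHom_coe, LinearMap.comp_apply]
  have e1 : DDb A (Finsupp.single α (Finsupp.single w a)) =
      wbdS A (Finsupp.single α (Finsupp.single w a)) +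
      fbd (List Side →₀ A) Fam.selfArc (Finsupp.single α (Finsupp.single w a)) := rfl
  rw [Phi_single, fbd_Gl (k := k) h1 h2 (Finsupp.single w a) (by
    intro v hv
    have h4 := (Finsupp.mem_support_single _ _ _).1 hv
    rw [h4.1]; exact h3), e1, map_add, wbdS_single, map_zsmul, Phi_single]
  congr 1
  rw [fbd_single, map_sum]
  refine Finset.sum_congr rfl fun c _ => ?_
  rw [map_zsmul, Phi_single]

theorem DDb_VP (W : WData) {x : Fam →₀ (List Side →₀ A)} (hx : x ∈ Supp2 A (VP F j)) :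
    DDb A x ∈ Supp2 A (VP F j) := by
  have h1 : wbdS A x ∈ Supp2 A (VP F j) := by
    refine wbd_supp2 (fun α w hw c hc => ?_) hx
    obtain ⟨h1, h2, k, h3⟩ := hw
    have hk := CW_length h3
    rw [hk] at hc
    obtain ⟨k, rfl⟩ : ∃ k', k = k' + 1 := ⟨k - 1, by omega⟩
    exact ⟨h1, h2, k, W.wdel_mem _ _ _ _ (Fam.sidesL_pos h1.fam h2)
      (fun x hx => Fam.rho_fix F j α x hx) w h3 c hc⟩
  have h2 : fbd (List Side →₀ A) Fam.selfArc x ∈ Supp2 A (VP F j) := by
    refine fbd_supp2 (fun α w hw c hc hs => ?_) hx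
    obtain ⟨h1, h2, k, h3⟩ := hw
    obtain ⟨t1, t2, t3, t4, t5⟩ := Fam.Stage.del_self h1 hc hs
    refine ⟨t1, by rw [t5]; exact h2, k, ?_⟩
    unfold Fam.CW
    simp only
    rw [t2, t3, t4]
    exact h3
  exact Submodule.add_mem _ h1 h2

theorem Phi_supp {x : Fam →₀ (List Side →₀ A)} {P : Set (Fam × List Side)} {T : Set Fam}
    (h : ∀ α w, (α, w) ∈ P → glue j α w ∈ T) (hx : x ∈ Supp2 A P) :
    Phi j A x ∈ SuppF A T := by
  classical
  rw [← Finsupp.sum_single x, Finsupp.sum, map_sum]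
  refine Submodule.sum_mem _ fun α hα => ?_
  rw [← Finsupp.sum_single (x α), Finsupp.sum, single_sum, map_sum]
  refine Submodule.sum_mem _ fun w hw => ?_
  rw [Phi_single, Gl_single]
  exact Submodule.smul_mem _ _ (Finsupp.single_mem_supported ℤ _
    (h α w (hx α w (Finsupp.mem_support_iff.1 hw))))

theorem DDb_DDb (W : WData) {x : Fam →₀ (List Side →₀ A)} (hx : x ∈ Supp2 A (VP F j)) :
    DDb A (DDb A x) = 0 := by
  have h1 := DDb_VP W hx
  have h2 := DDb_VP W h1
  apply Phi_inj h2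
  rw [← fbd_Phi h1, ← fbd_Phi hx]
  refine fbd_fbd (F := F) (Phi_supp (P := VP F j) (fun α w hw => ?_) hx)
  obtain ⟨h3, h4, k, h5⟩ := hw
  exact (glue_stage h3 h4 h5).1.fam

/-- preimage under `Phi` -/
theorem exists_pre {z : Fam →₀ A} {T : Set Fam} (hT : ∀ β ∈ T, β.Stage F j ∧ j < β.numReg)
    (hz : z ∈ SuppF A T) :
    ∃ x ∈ Supp2 A {p | p ∈ VP F j ∧ glue j p.1 p.2 ∈ T}, Phi j A x = z := by
  classical
  have hz' := mem_suppF.1 hz
  have hch : ∀ β, ∃ x ∈ Supp2 A {p | p ∈ VP F j ∧ glue j p.1 p.2 ∈ T},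
      Phi j A x = Finsupp.single β (z β) := by
    intro β
    by_cases h0 : z β = 0
    · exact ⟨0, Submodule.zero_mem _, by rw [map_zero, h0, Finsupp.single_zero]⟩
    · have hβ := hz' β h0
      obtain ⟨α, k, w, h1, h2, h3, h4⟩ := exists_glue (hT β hβ).1 (hT β hβ).2
      refine ⟨Finsupp.single α (Finsupp.single w (eps j α w • z β)),
        single_mem_supp2 fun v hv => ?_, ?_⟩
      · rw [Finsupp.single_apply] at hv
        split_ifs at hv with h5
        · subst h5
          exact ⟨⟨h1, h2, k, h3⟩, by simp only; rw [h4]; exact hβ⟩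
        · exact absurd rfl hv
      · rw [Phi_single, Gl_single, h4, Finsupp.smul_single, eps_eps]
  choose g hg1 hg2 using hch
  refine ⟨∑ β ∈ z.support, g β, Submodule.sum_mem _ fun β _ => hg1 β, ?_⟩
  rw [map_sum, Finset.sum_congr rfl fun β _ => hg2 β]
  exact Finsupp.sum_single z

end

/-! ### decomposition by types -/

theorem fbd_filter {B : Type} [AddCommGroup B] {T : Set Fam}
    (P : Fam → Prop) [DecidablePred P]
    (hP : ∀ α ∈ T, ∀ c < α.arcs, α.selfArc c → (P (α.del c) ↔ P α))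
    {x : Fam →₀ B} (hx : x ∈ SuppF B T) :
    fbd B Fam.selfArc (x.filter P) = (fbd B Fam.selfArc x).filter P := by
  classical
  have hx' := mem_suppF.1 hx
  have e0 : ∀ (s : Finset Fam) (u : Fam → (Fam →₀ B)),
      (∑ i ∈ s, u i).filter P = ∑ i ∈ s, (u i).filter P := by
    intro s u
    exact map_sum (Finsupp.filterAddHom P) u s
  have e0' : ∀ (s : Finset ℕ) (u : ℕ → (Fam →₀ B)),
      (∑ i ∈ s, u i).filter P = ∑ i ∈ s, (u i).filter P := by
    intro s u
    exact map_sum (Finsupp.filterAddHom P) u s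
  have e2 : ∀ (m : ℤ) (u : Fam →₀ B), (m • u).filter P = m • u.filter P := by
    intro m u
    exact map_zsmul (Finsupp.filterAddHom P) m u
  have e1 : ∀ α ∈ x.support, fbd B Fam.selfArc ((Finsupp.single α (x α)).filter P) =
      (fbd B Fam.selfArc (Finsupp.single α (x α))).filter P := by
    intro α hα
    have hT := hx' α (Finsupp.mem_support_iff.1 hα)
    rw [fbd_single, e0']
    by_cases hPα : P α
    · rw [Finsupp.filter_single_of_pos _ hPα, fbd_single]
      refine Finset.sum_congr rfl fun c hc => ?_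
      rw [Finset.mem_filter, Finset.mem_range] at hc
      rw [e2, Finsupp.filter_single_of_pos _ ((hP α hT c hc.1 hc.2).2 hPα)]
    · rw [Finsupp.filter_single_of_neg _ hPα, map_zero]
      symm
      refine Finset.sum_eq_zero fun c hc => ?_
      rw [Finset.mem_filter, Finset.mem_range] at hc
      rw [e2, Finsupp.filter_single_of_neg _ (fun h => hPα ((hP α hT c hc.1 hc.2).1 h)),
        smul_zero]
  conv_lhs => rw [← Finsupp.sum_single x]
  conv_rhs => rw [← Finsupp.sum_single x]
  rw [Finsupp.sum, e0, map_sum, map_sum, e0]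
  exact Finset.sum_congr rfl e1

theorem wbdS_filter {A : Type} [AddCommGroup A] (P : Fam → Prop) [DecidablePred P]
    (x : Fam →₀ (List Side →₀ A)) : wbdS A (x.filter P) = (wbdS A x).filter P := by
  ext1 α
  rw [wbdS_apply, Finsupp.filter_apply, Finsupp.filter_apply, wbdS_apply]
  split_ifs
  · rfl
  · rw [map_zero, smul_zero]

/-- the statement of Claim 1 for one stage, for families with at most `K0` arcs -/
def ClaimJ (F : Surf) (j K0 : ℕ) : Prop :=
  ∀ (A : Type) [AddCommGroup A] (K R : ℕ), 1 ≤ R → K ≤ K0 →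
    ∀ z ∈ SuppF A {α | α.Stage F j ∧ α.arcs = K ∧ tbS j α = R}, fbd A Fam.selfArc z = 0 →
    ∃ y ∈ SuppF A {α | α.Stage F j ∧ α.arcs = K + 1 ∧ tbS j α + 1 = R},
      fbd A Fam.selfArc y = z

/-- the type of the region `j` of a family -/
noncomputable def typ (F : Surf) (j : ℕ) (α : Fam) : ℕ × Perm ℕ × ℕ :=
  ((α.sidesL j).length, α.rho F j, α.betti j)

theorem typ_del {F : Surf} {j : ℕ} {α : Fam} (h : α.Stage F (j + 1)) {c : ℕ} (hc : c < α.arcs)
    (hs : α.selfArc c) : typ F j (α.del c) = typ F j α ∧ (α.del c).numReg = α.numReg := by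
  obtain ⟨t1, t2, t3, t4, t5⟩ := Fam.Stage.del_self h hc hs
  refine ⟨?_, t5⟩
  unfold typ
  rw [t2, t3, t4]

theorem claimJ_step {F : Surf} {j : ℕ} (W : WData) {K0 : ℕ}
    (ih : ClaimJ F (j + 1) K0) : ClaimJ F j K0 := by
  classical
  intro A _ K R hR hK z hz hd
  set T0 : Set Fam := {α | α.Stage F j ∧ α.arcs = K ∧ tbS j α = R} with hT0
  have hT0' : ∀ β ∈ T0, β.Stage F j ∧ j < β.numReg := by
    rintro β ⟨h1, h2, h3⟩
    exact ⟨h1, lt_numReg h1.fam (by omega)⟩
  obtain ⟨x, hx, hxz⟩ := exists_pre hT0' hz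
  have hxV : x ∈ Supp2 A (VP F j) := fun α w hw => (hx α w hw).1
  have hDx : DDb A x = 0 := by
    apply Phi_inj (DDb_VP W hxV)
    rw [← fbd_Phi hxV, hxz, hd]
  -- the pairs which occur
  have hxp : ∀ α w, x α w ≠ 0 → α.Stage F (j + 1) ∧ j < α.numReg ∧ ∃ k, w ∈ α.CW F j k ∧
      α.arcs + k = K ∧ α.betti j + tbS (j + 1) α = R + k := by
    intro α w hw
    obtain ⟨⟨h1, h2, k, h3⟩, h4, h5, h6⟩ := hx α w hw
    replace h1 : α.Stage F (j + 1) := h1
    replace h2 : j < α.numReg := h2
    replace h3 : w ∈ α.CW F j k := h3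
    replace h5 : (glue j α w).arcs = K := h5
    obtain ⟨g1, g2, g3, -, -⟩ := glue_stage h1 h2 h3
    refine ⟨h1, h2, k, h3, by omega, ?_⟩
    have h7 : tbS j (glue j α w) = R := h6
    unfold tbS at h7 ⊢
    rw [g3] at h7
    have h8 := tbB_sub (CW_le' h3)
    omega
  -- one type
  have hone : ∀ t : ℕ × Perm ℕ × ℕ, ∃ y ∈ Supp2 A {p | p ∈ VP F j ∧ ∃ k, p.2 ∈ p.1.CW F j k ∧
      p.1.arcs + k = K + 1 ∧ p.1.betti j + tbS (j + 1) p.1 + 1 = R + k},
      DDb A y = x.filter (fun α => typ F j α = t) := by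
    intro t
    by_cases hne : x.filter (fun α => typ F j α = t) = 0
    · exact ⟨0, Submodule.zero_mem _, by rw [map_zero, hne]⟩
    obtain ⟨α₀, hα₀⟩ : ∃ α, x.filter (fun α => typ F j α = t) α ≠ 0 := by
      by_contra hc
      push Not at hc
      exact hne (Finsupp.ext hc)
    obtain ⟨n, ρ, d⟩ := t
    rw [Finsupp.filter_apply] at hα₀
    have hα₁ : typ F j α₀ = (n, ρ, d) := by
      by_contra hc
      rw [if_neg hc] at hα₀
      exact hα₀ rfl
    rw [if_pos hα₁] at hα₀
    obtain ⟨w₀, hw₀⟩ : ∃ w, x α₀ w ≠ 0 := by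
      by_contra hc
      push Not at hc
      exact hα₀ (Finsupp.ext hc)
    obtain ⟨s1, s2, -⟩ := hxp α₀ w₀ hw₀
    simp only [typ, Prod.mk.injEq] at hα₁
    obtain ⟨a1, a2, a3⟩ := hα₁
    have hn : 0 < n := by rw [← a1]; exact Fam.sidesL_pos s1.fam s2
    have hρ : ∀ x, n ≤ x → ρ x = x := by
      intro x hx
      rw [← a2]
      exact Fam.rho_fix F j α₀ x (by rw [a1]; exact hx)
    have hpar : (d + 1) % 2 = ncyc ρ (Set.Iio n) % 2 := by
      rw [← a1, ← a2, ← a3]; exact Fam.rho_parity s1.fam s2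
    set T : Set Fam := {α | α.Stage F (j + 1) ∧ j < α.numReg ∧ typ F j α = (n, ρ, d)} with hT
    have hCW : ∀ α ∈ T, ∀ k, α.CW F j k = CW n ρ d k := by
      rintro α ⟨-, -, h3⟩ k
      simp only [typ, Prod.mk.injEq] at h3
      unfold Fam.CW
      rw [h3.1, h3.2.1, h3.2.2]
    have hTd : ∀ α ∈ T, α.betti j = d := by
      rintro α ⟨-, -, h3⟩
      simp only [typ, Prod.mk.injEq] at h3
      exact h3.2.2
    have T1 : ∀ α ∈ T, ∀ c < α.arcs, α.selfArc c → α.del c ∈ T ∧
        (α.del c).arcs + 1 = α.arcs ∧ tbS (j + 1) (α.del c) = tbS (j + 1) α + 1 := by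
      rintro α ⟨h1, h2, h3⟩ c hc hs
      obtain ⟨t1, -, -, -, t5⟩ := Fam.Stage.del_self h1 hc hs
      exact ⟨⟨t1, by rw [t5]; exact h2, by rw [(typ_del h1 hc hs).1]; exact h3⟩,
        arcs_del' h1.fam hc, tbS_del h1 hc hs⟩
    have hXV : ∀ K' R', XC T (fun k => CW n ρ d k) (tbS (j + 1)) d K' R' ⊆ VP F j := by
      rintro K' R' ⟨α, w⟩ ⟨h1, k, h2, -, -⟩
      exact ⟨h1.1, h1.2.1, k, by rw [hCW α h1]; exact h2⟩
    have hmono : ∀ {P Q : Set (Fam × List Side)}, P ⊆ Q → ∀ y, y ∈ Supp2 A P → y ∈ Supp2 A Q :=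
      fun hPQ y hy α w hw => hPQ (hy α w hw)
    have hxt : x.filter (fun α => typ F j α = (n, ρ, d)) ∈
        Supp2 A (XC T (fun k => CW n ρ d k) (tbS (j + 1)) d K R) := by
      intro α w hw
      rw [Finsupp.filter_apply] at hw
      have h1 : typ F j α = (n, ρ, d) := by
        by_contra hc
        rw [if_neg hc] at hw
        exact hw rfl
      rw [if_pos h1] at hw
      obtain ⟨h2, h3, k, h4, h5, h6⟩ := hxp α w hw
      have hαT : α ∈ T := ⟨h2, h3, h1⟩
      rw [hTd α hαT] at h6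
      rw [hCW α hαT] at h4
      exact ⟨hαT, k, h4, h5, h6⟩
    have hDxt : DDb A (x.filter (fun α => typ F j α = (n, ρ, d))) = 0 := by
      have e1 : ∀ y, DDb A y = wbdS A y + fbd (List Side →₀ A) Fam.selfArc y := fun _ => rfl
      have e2 := fbd_filter (T := {α | α.Stage F (j + 1)})
        (fun α => typ F j α = (n, ρ, d)) (fun α hα c hc hs => by rw [(typ_del hα hc hs).1])
        (x := x) (by
          refine mem_suppF.2 fun α hα => ?_
          obtain ⟨w, hw⟩ := mem_suppF.1 (supp2_col hxV) α hα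
          exact hw.1)
      have e3 : (DDb A x).filter (fun α => typ F j α = (n, ρ, d)) = 0 := by
        rw [hDx]; exact Finsupp.filter_zero _
      rw [e1, wbdS_filter, e2, ← Finsupp.filter_add, ← e1, e3]
    have T2 : ∀ (B : Type) [AddCommGroup B] (K R : ℕ), 1 ≤ R → K ≤ K0 →
        ∀ z ∈ SuppF B {α | α ∈ T ∧ α.arcs = K ∧ tbS (j + 1) α = R}, fbd B Fam.selfArc z = 0 →
        ∃ y ∈ SuppF B {α | α ∈ T ∧ α.arcs = K + 1 ∧ tbS (j + 1) α + 1 = R},
          fbd B Fam.selfArc y = z := by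
      intro B _ K' R' hR' hK' z' hz' hd'
      have hz'' := mem_suppF.1 hz'
      obtain ⟨y, hy, hy2⟩ := ih B K' R' hR' hK' z' (mem_suppF.2 fun α hα =>
        ⟨(hz'' α hα).1.1, (hz'' α hα).2⟩) hd'
      have hy' := mem_suppF.1 hy
      refine ⟨y.filter (fun α => j < α.numReg ∧ typ F j α = (n, ρ, d)),
        mem_suppF.2 fun α hα => ?_, ?_⟩
      · rw [Finsupp.filter_apply] at hα
        have h1 : j < α.numReg ∧ typ F j α = (n, ρ, d) := by
          by_contra hc
          rw [if_neg hc] at hα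
          exact hα rfl
        rw [if_pos h1] at hα
        obtain ⟨h2, h3, h4⟩ := hy' α hα
        exact ⟨⟨h2, h1⟩, h3, h4⟩
      · rw [fbd_filter (T := {α | α.Stage F (j + 1)}) _ (fun α hα c hc hs => by
          rw [(typ_del hα hc hs).1, (typ_del hα hc hs).2]) (mem_suppF.2 fun α hα => (hy' α hα).1),
          hy2]
        ext1 α
        rw [Finsupp.filter_apply]
        split_ifs with h1
        · rfl
        · by_contra hc
          exact h1 (hz'' α (Ne.symm hc)).1.2
    obtain ⟨y, hy, hy2⟩ := kunneth_type (A := A) (T := T) (V := fun k => CW n ρ d k)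
      (tb := tbS (j + 1)) (d := d) (K0 := K0)
      (fun k w hw => CW_length hw) (fun k w hw c hc => W.wdel_mem n ρ d k hn hρ w hw c hc)
      (fun k w hw => CW_le' hw)
      (fun k hk z hz hz0 => by
        obtain ⟨y, hy1, hy2⟩ := W.spherical A n hn ρ hρ d hpar k hk z (fun w hw =>
          mem_suppW.1 hz w (Finsupp.mem_support_iff.1 hw)) hz0
        exact ⟨y, mem_suppW.2 fun w hw => hy1 w (Finsupp.mem_support_iff.2 hw), hy2⟩)
      T1 T2 hR hK (fun K' R' y hy => DDb_DDb W (hmono (hXV K' R') y hy)) d 0 (by omega)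
      _ hxt hDxt (fun α hα => by
        obtain ⟨w, hw⟩ : ∃ w, (x.filter (fun α => typ F j α = (n, ρ, d))) α w ≠ 0 := by
          by_contra hc
          push Not at hc
          exact hα (Finsupp.ext hc)
        obtain ⟨-, k, -, h3, -⟩ := hxt α w hw
        simp only at h3
        omega)
    refine ⟨y, ?_, hy2⟩
    intro α w hw
    obtain ⟨h1, k, h2, h3, h4⟩ := hy α w hw
    simp only at h1 h2 h3 h4
    refine ⟨⟨h1.1, h1.2.1, k, by rw [hCW α h1]; exact h2⟩, k, by rw [hCW α h1]; exact h2,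
      h3, ?_⟩
    simp only
    rw [hTd α h1]
    omega
  choose g hg1 hg2 using hone
  set S := x.support.image (typ F j) with hS
  have hsum : ∑ t ∈ S, x.filter (fun α => typ F j α = t) = x := by
    ext1 α
    rw [Finsupp.finsetSum_apply]
    by_cases hα : x α = 0
    · rw [hα]
      refine Finset.sum_eq_zero fun t _ => ?_
      rw [Finsupp.filter_apply]
      split_ifs
      · exact hα
      · rfl
    · rw [Finset.sum_eq_single (typ F j α)]
      · rw [Finsupp.filter_apply, if_pos rfl]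
      · intro t _ ht
        rw [Finsupp.filter_apply, if_neg (Ne.symm ht)]
      · intro hn
        exact absurd (Finset.mem_image_of_mem _ (Finsupp.mem_support_iff.2 hα)) hn
  set y := ∑ t ∈ S, g t with hy
  have hyS := Submodule.sum_mem (Supp2 A {p | p ∈ VP F j ∧ ∃ k, p.2 ∈ p.1.CW F j k ∧
      p.1.arcs + k = K + 1 ∧ p.1.betti j + tbS (j + 1) p.1 + 1 = R + k})
    (fun t (_ : t ∈ S) => hg1 t)
  have hDy : DDb A y = x := by
    rw [hy, map_sum, Finset.sum_congr rfl fun t _ => hg2 t, hsum]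
  refine ⟨Phi j A y, Phi_supp (fun α w hw => ?_) hyS, ?_⟩
  · obtain ⟨⟨h1, h2, -⟩, k, h3, h4, h5⟩ := hw
    simp only at h1 h2 h3 h4 h5
    obtain ⟨g1, g2, g3, -, -⟩ := glue_stage h1 h2 h3
    refine ⟨g1, by omega, ?_⟩
    unfold tbS at h5 ⊢
    rw [g3]
    have h8 := tbB_sub (CW_le' h3)
    omega
  · rw [fbd_Phi (F := F) (fun α w hw => (hyS α w hw).1), hDy, hxz]

theorem claimJ {F : Surf} (W : WData) (K0 : ℕ) : ∀ m j : ℕ, F.n + 2 * K0 ≤ j + m →
    ClaimJ F j K0 := by
  intro m
  induction m with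
  | zero =>
    intro j hj A _ K R hR hK z hz hd
    have h0 : z = 0 := by
      ext1 α
      by_contra hc
      obtain ⟨h1, h2, h3⟩ := mem_suppF.1 hz α hc
      have h4 := lt_numReg (j := j) h1.fam (by omega)
      have h5 := numReg_le h1.fam
      omega
    exact ⟨0, Submodule.zero_mem _, by rw [h0, map_zero]⟩
  | succ m ih =>
    intro j hj
    exact claimJ_step W (ih (j + 1) (by omega))

theorem stage_zero {F : Surf} {α : Fam} : α.Stage F 0 ↔ α.IsFam0 F ∧ α.punc.Nodup :=
  ⟨fun h => ⟨h.fam, h.nodup⟩, fun h => ⟨h.1, h.2, fun _ _ _ => Nat.zero_le _⟩⟩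

theorem claim1_of (W : WData) {A : Type} [AddCommGroup A] (F : Surf) (K R : ℕ) (hR : 1 ≤ R)
    (z : Fam →₀ A)
    (hz : ∀ α ∈ z.support, α.IsFam0 F ∧ α.arcs = K ∧ α.totalBetti = R ∧ α.punc.Nodup)
    (hd : fbd A Fam.selfArc z = 0) :
    ∃ y : Fam →₀ A, (∀ α ∈ y.support, α.IsFam0 F ∧ α.arcs = K + 1 ∧ α.totalBetti + 1 = R ∧
      α.punc.Nodup) ∧ fbd A Fam.selfArc y = z := by
  obtain ⟨y, hy, hy2⟩ := claimJ (F := F) W K (F.n + 2 * K) 0 (by omega) A K R hR le_rfl z
    (mem_suppF.2 fun α hα => by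
      obtain ⟨h1, h2, h3, h4⟩ := hz α (Finsupp.mem_support_iff.2 hα)
      exact ⟨stage_zero.2 ⟨h1, h4⟩, h2, by rw [tbS_zero]; exact h3⟩) hd
  refine ⟨y, fun α hα => ?_, hy2⟩
  obtain ⟨h1, h2, h3⟩ := mem_suppF.1 hy α (Finsupp.mem_support_iff.1 hα)
  obtain ⟨h4, h5⟩ := stage_zero.1 h1
  rw [tbS_zero] at h3
  exact ⟨h4, h2, h3, h5⟩

end ArcC
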