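import Mathlib
import Pool.Agent.Lib.MP_e5080e_gt.Defs

/-! Elementary facts about the deletion of an arc from the raw data of an arc family, and the proof
that deletions of two arcs commute (MP_e5080e_gt). -/

namespace ArcC.Sq

open ArcC ArcC.Side ArcC.Fam

lemma find_eq (x : Side) (i : ℕ) : ∀ l : List (Side × ℕ), (l.map Prod.fst).Nodup → (x, i) ∈ l →
    l.find? (fun s => s.1 = x) = some (x, i) := by
  intro l
  induction l with
  | nil => intro _ h; simp at h
  | cons a l ih =>
    intro hn h
    rw [List.map_cons, List.nodup_cons] at hn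
    by_cases ha : a.1 = x
    · rw [List.find?_cons_of_pos (by simp [ha])]
      rcases List.mem_cons.1 h with h | h
      · rw [h]
      · exact absurd (List.mem_map.2 ⟨_, h, ha.symm⟩) hn.1
    · rw [List.find?_cons_of_neg (by simp [ha])]
      rcases List.mem_cons.1 h with h | h
      · exact absurd (by rw [← h]) ha
      · exact ih hn.2 h

lemma reg_eq {α : Fam} (h : α.word.Nodup) {x : Side} {i : ℕ} (hx : (x, i) ∈ α.sides) :
    α.reg x = i := by
  unfold Fam.reg
  rw [find_eq x i α.sides h hx]; rfl

lemma mem_reg {α : Fam} (h : α.word.Nodup) {x : Side} (hx : x ∈ α.word) :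
    (x, α.reg x) ∈ α.sides := by
  obtain ⟨⟨y, i⟩, h1, h2⟩ := List.mem_map.1 hx
  simp only at h2
  subst h2
  rw [reg_eq h h1]; exact h1

lemma mem_word {α : Fam} {x : Side} {i : ℕ} (hx : (x, i) ∈ α.sides) : x ∈ α.word :=
  List.mem_map.2 ⟨_, hx, rfl⟩

lemma mem_regs {α : Fam} {x : Side} {i : ℕ} (hx : (x, i) ∈ α.sides) : i ∈ α.regs :=
  List.mem_map.2 ⟨_, hx, rfl⟩

lemma reg_mem_regs {α : Fam} (h : α.word.Nodup) {x : Side} (hx : x ∈ α.word) :
    α.reg x ∈ α.regs := mem_regs (mem_reg h hx)

lemma shift_inj {c : ℕ} {x y : Side} (hx : isArc c x = false) (hy : isArc c y = false)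
    (h : shift c x = shift c y) : x = y := by
  cases x with
  | pt i =>
    cases y with
    | pt j => simpa [shift] using h
    | arc a b => simp [shift] at h
  | arc a b =>
    cases y with
    | pt j => simp [shift] at h
    | arc a' b' =>
      simp only [isArc, beq_eq_false_iff_ne, ne_eq] at hx hy
      simp only [shift, Side.arc.injEq] at h ⊢
      refine ⟨?_, h.2⟩
      have := h.1
      split_ifs at this <;> omega

lemma word_del (c : ℕ) (α : Fam) : (α.del c).word = wdel c α.word := by
  simp only [Fam.word, Fam.del, wdel, List.map_map, List.filter_map]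
  rfl

lemma wdel_nodup {c : ℕ} {w : List Side} (h : w.Nodup) : (wdel c w).Nodup := by
  unfold wdel
  refine List.Nodup.map_on ?_ (h.filter _)
  intro x hx y hy hxy
  simp only [List.mem_filter, Bool.not_eq_eq_eq_not, Bool.not_true] at hx hy
  exact shift_inj hx.2 hy.2 hxy

/-- the renumbering of the regions after the deletion of the arc `c` -/
def U (α : Fam) (c : ℕ) : ℕ → ℕ := union (α.reg (arc c false)) (α.reg (arc c true))

lemma del_sides (c : ℕ) (α : Fam) : (α.del c).sides =
    (α.sides.filter (fun s => !(isArc c s.1))).map (fun s => (shift c s.1, U α c s.2)) := rfl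

lemma del_betti (c : ℕ) (α : Fam) : (α.del c).betti = α.betti.mapDomain (U α c) +
    (if α.reg (arc c false) = α.reg (arc c true) then Finsupp.single (α.reg (arc c false)) 1
      else 0) := rfl

lemma del_punc (c : ℕ) (α : Fam) : (α.del c).punc = α.punc.map (U α c) := rfl

lemma mem_del {α : Fam} {c : ℕ} {x : Side} {i : ℕ} (hx : (x, i) ∈ α.sides)
    (hc : isArc c x = false) : (shift c x, U α c i) ∈ (α.del c).sides := by
  rw [del_sides]
  exact List.mem_map.2 ⟨(x, i), List.mem_filter.2 ⟨hx, by simp [hc]⟩, rfl⟩

lemma reg_del {α : Fam} (h : α.word.Nodup) {c : ℕ} {x : Side} (hx : x ∈ α.word)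
    (hc : isArc c x = false) : (α.del c).reg (shift c x) = U α c (α.reg x) := by
  apply reg_eq
  · rw [word_del]; exact wdel_nodup h
  · exact mem_del (mem_reg h hx) hc

lemma union_comm (a b r : ℕ) : union a b r = union b a r := by
  unfold union
  rw [max_comm, min_comm]
  by_cases h : a = b
  · simp [h]
  · have h' : b ≠ a := fun e => h e.symm
    simp [h, h']

lemma union_self (a r : ℕ) : union a a r = r := by simp [union]

lemma union_lt {a b : ℕ} (h : a < b) (r : ℕ) :
    (r = b ∧ union a b r = a) ∨ (b < r ∧ union a b r = r - 1) ∨ (r < b ∧ union a b r = r) := by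
  unfold union
  rw [if_neg h.ne, max_eq_right h.le, min_eq_left h.le]
  split_ifs <;> omega

lemma union_union_lt {a b p q : ℕ} (r : ℕ) (h : a < b) (h' : p < q) :
    union (union a b p) (union a b q) (union a b r) =
      union (union p q a) (union p q b) (union p q r) := by
  obtain ⟨p', hp'⟩ : ∃ p', union a b p = p' := ⟨_, rfl⟩
  obtain ⟨q', hq'⟩ : ∃ p', union a b q = p' := ⟨_, rfl⟩
  obtain ⟨r', hr'⟩ : ∃ p', union a b r = p' := ⟨_, rfl⟩
  obtain ⟨a', ha'⟩ : ∃ p', union p q a = p' := ⟨_, rfl⟩
  obtain ⟨b', hb'⟩ : ∃ p', union p q b = p' := ⟨_, rfl⟩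
  obtain ⟨s', hs'⟩ : ∃ p', union p q r = p' := ⟨_, rfl⟩
  have h1 := union_lt h p
  have h2 := union_lt h q
  have h3 := union_lt h r
  have h4 := union_lt h' a
  have h5 := union_lt h' b
  have h6 := union_lt h' r
  rw [hp'] at h1
  rw [hq'] at h2
  rw [hr'] at h3
  rw [ha'] at h4
  rw [hb'] at h5
  rw [hs'] at h6
  rw [hp', hq', hr', ha', hb', hs']
  clear hp' hq' hr' ha' hb' hs'
  rcases lt_trichotomy p' q' with e | e | e
  · rcases lt_trichotomy a' b' with f | f | f
    · have h7 := union_lt e r'
      have h8 := union_lt f s'
      generalize union p' q' r' = x at *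
      generalize union a' b' s' = y at *
      omega
    · omega
    · rw [union_comm a' b']
      have h7 := union_lt e r'
      have h8 := union_lt f s'
      generalize union p' q' r' = x at *
      generalize union b' a' s' = y at *
      omega
  · have f : a' = b' := by omega
    subst e; subst f
    rw [union_self, union_self]
    omega
  · rw [union_comm p' q']
    rcases lt_trichotomy a' b' with f | f | f
    · have h7 := union_lt e r'
      have h8 := union_lt f s'
      generalize union q' p' r' = x at *
      generalize union a' b' s' = y at *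
      omega
    · omega
    · rw [union_comm a' b']
      have h7 := union_lt e r'
      have h8 := union_lt f s'
      generalize union q' p' r' = x at *
      generalize union b' a' s' = y at *
      omega

lemma union_union (a b p q r : ℕ) :
    union (union a b p) (union a b q) (union a b r) =
      union (union p q a) (union p q b) (union p q r) := by
  rcases lt_trichotomy a b with h | h | h
  · rcases lt_trichotomy p q with h' | h' | h'
    · exact union_union_lt r h h'
    · subst h'; simp only [union_self]
    · rw [union_comm (union a b p), union_union_lt r h h', union_comm p q, union_comm p q,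
        union_comm p q]
  · subst h; simp only [union_self]
  · rcases lt_trichotomy p q with h' | h' | h'
    · rw [union_comm a b, union_comm a b, union_comm a b, union_union_lt r h h',
        union_comm (union p q a)]
    · subst h'; simp only [union_self]
    · rw [union_comm a b, union_comm a b, union_comm a b, union_comm p q, union_comm p q,
        union_comm p q, union_comm (union b a p), union_union_lt r h h', 
        union_comm (union q p a)]

/-- the renumbering identifies exactly the two regions -/
lemma union_eq_iff {a b p q : ℕ} (h : a ≠ b) (hpq : p ≠ q) :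
    union a b p = union a b q ↔ (p = a ∧ q = b) ∨ (p = b ∧ q = a) := by
  unfold union
  rcases lt_or_gt_of_ne h with h' | h'
  · simp only [if_neg h, max_eq_right h'.le, min_eq_left h'.le]
    split_ifs <;> omega
  · simp only [if_neg h, max_eq_left h'.le, min_eq_right h'.le]
    split_ifs <;> omega

lemma union_left (a b : ℕ) : union a b a = min a b := by
  unfold union
  rcases lt_trichotomy a b with h | h | h
  · rw [if_neg h.ne, max_eq_right h.le, min_eq_left h.le, if_neg h.ne, if_neg (by omega)]
  · subst h; simp
  · rw [if_neg h.ne', max_eq_left h.le, min_eq_right h.le, if_pos rfl]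

lemma U_self {α : Fam} {c : ℕ} (h : α.reg (arc c false) = α.reg (arc c true)) : U α c = id := by
  unfold U; rw [h]; ext r; exact union_self _ _

/-- both ends of the arc `c` are in the word -/
def Has (α : Fam) (c : ℕ) : Prop := ∀ b, arc c b ∈ α.word

lemma reg_del_gt {α : Fam} (h : α.word.Nodup) {c d : ℕ} (hd : Has α d) (hcd : c < d) (b : Bool) :
    (α.del c).reg (arc (d - 1) b) = U α c (α.reg (arc d b)) := by
  have := reg_del h (c := c) (hd b) (by simp [isArc]; omega)
  rwa [shift, if_pos hcd] at this

lemma reg_del_lt {α : Fam} (h : α.word.Nodup) {c d : ℕ} (hc : Has α c) (hcd : c < d) (b : Bool) :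
    (α.del d).reg (arc c b) = U α d (α.reg (arc c b)) := by
  have := reg_del h (c := d) (hc b) (by simp [isArc]; omega)
  rwa [shift, if_neg (by omega)] at this

lemma U_del_gt {α : Fam} (h : α.word.Nodup) {c d : ℕ} (hd : Has α d) (hcd : c < d) (r : ℕ) :
    U (α.del c) (d - 1) r =
      union (U α c (α.reg (arc d false))) (U α c (α.reg (arc d true))) r := by
  conv_lhs => rw [U]
  rw [reg_del_gt h hd hcd, reg_del_gt h hd hcd]

lemma U_del_lt {α : Fam} (h : α.word.Nodup) {c d : ℕ} (hc : Has α c) (hcd : c < d) (r : ℕ) :
    U (α.del d) c r =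
      union (U α d (α.reg (arc c false))) (U α d (α.reg (arc c true))) r := by
  conv_lhs => rw [U]
  rw [reg_del_lt h hc hcd, reg_del_lt h hc hcd]

lemma U_U {α : Fam} (h : α.word.Nodup) {c d : ℕ} (hc : Has α c) (hd : Has α d) (hcd : c < d)
    (r : ℕ) : U (α.del c) (d - 1) (U α c r) = U (α.del d) c (U α d r) := by
  rw [U_del_gt h hd hcd, U_del_lt h hc hcd]
  unfold U
  rw [union_union]

/-- Deletions commute. -/
theorem del_del {α : Fam} (h : α.word.Nodup) {c d : ℕ} (hc : Has α c) (hd : Has α d)
    (hcd : c < d) : (α.del c).del (d - 1) = (α.del d).del c := by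
  apply Fam.ext
  · rw [del_sides, del_sides, del_sides, del_sides, List.filter_map, List.filter_map,
      List.map_map, List.map_map, List.filter_filter, List.filter_filter]
    have hf : (fun a : Side × ℕ => ((fun s : Side × ℕ => !(isArc (d - 1) s.1)) ∘
        fun s => (shift c s.1, U α c s.2)) a && !(isArc c a.1)) =
        (fun a : Side × ℕ => ((fun s : Side × ℕ => !(isArc c s.1)) ∘
        fun s => (shift d s.1, U α d s.2)) a && !(isArc d a.1)) := by
      funext s
      obtain ⟨x, i⟩ := s
      cases x with
      | pt j => simp [shift, isArc]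
      | arc a b =>
        simp only [Function.comp, shift, isArc]
        rw [Bool.eq_iff_iff]
        simp only [Bool.and_eq_true, Bool.not_eq_eq_eq_not, Bool.not_true, beq_eq_false_iff_ne,
          ne_eq]
        split_ifs <;> omega
    rw [hf]
    apply List.map_congr_left
    intro s hs
    obtain ⟨x, i⟩ := s
    simp only [Function.comp]
    rw [U_U h hc hd hcd]
    refine Prod.ext ?_ rfl
    simp only
    have hx := (List.mem_filter.1 hs).2
    cases x with
    | pt j => simp [shift]
    | arc a b =>
      simp only [Function.comp, shift, isArc, Bool.and_eq_true, Bool.not_eq_eq_eq_not,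
        Bool.not_true, beq_eq_false_iff_ne, ne_eq] at hx
      simp only [shift, Side.arc.injEq, and_true]
      obtain ⟨hx1, hx2⟩ := hx
      split_ifs at hx1 ⊢ <;> omega
  · rw [del_betti, del_betti, del_betti, del_betti, Finsupp.mapDomain_add, Finsupp.mapDomain_add,
      ← Finsupp.mapDomain_comp, ← Finsupp.mapDomain_comp]
    have hU : (U (α.del c) (d - 1)) ∘ (U α c) = (U (α.del d) c) ∘ (U α d) := by
      funext r; exact U_U h hc hd hcd r
    rw [hU, add_assoc, add_assoc]
    congr 1
    rw [reg_del_gt h hd hcd, reg_del_gt h hd hcd, reg_del_lt h hc hcd, reg_del_lt h hc hcd]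
    by_cases hab : α.reg (arc c false) = α.reg (arc c true)
    · by_cases hpq : α.reg (arc d false) = α.reg (arc d true)
      · rw [if_pos hab, if_pos hpq, if_pos (by rw [hpq]), if_pos (by rw [hab]),
          Finsupp.mapDomain_single, Finsupp.mapDomain_single, U_del_gt h hd hcd,
          U_del_lt h hc hcd, U_self hab, U_self hpq]
        simp only [id_eq, hab, hpq, union_self]
        rw [_root_.add_comm]
      · rw [if_pos hab, if_neg hpq, U_self hab, if_neg (by simpa using hpq),
          if_pos (by rw [hab]), Finsupp.mapDomain_single, U_del_gt h hd hcd, U_self hab]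
        simp [U]
    · by_cases hpq : α.reg (arc d false) = α.reg (arc d true)
      · rw [if_neg hab, if_pos hpq, if_pos (by rw [hpq]), U_self hpq,
          if_neg (by simpa using hab), Finsupp.mapDomain_single, U_del_lt h hc hcd, U_self hpq]
        simp [U]
      · rw [if_neg hab, if_neg hpq]
        simp only [Finsupp.mapDomain_zero, zero_add]
        have e1 := union_eq_iff (a := α.reg (arc c false)) (b := α.reg (arc c true)) hab hpq
        have e2 := union_eq_iff (a := α.reg (arc d false)) (b := α.reg (arc d true)) hpq hab
        by_cases he : U α c (α.reg (arc d false)) = U α c (α.reg (arc d true))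
        · have he' : U α d (α.reg (arc c false)) = U α d (α.reg (arc c true)) := by
            unfold U at he ⊢
            rw [e2]; rw [e1] at he
            rcases he with he | he
            · left; exact ⟨he.1.symm, he.2.symm⟩
            · right; exact ⟨he.2.symm, he.1.symm⟩
          rw [if_pos he, if_pos he']
          congr 1
          unfold U at he ⊢
          rw [e1] at he
          rcases he with he | he
          · rw [he.1, he.2]
          · rw [he.1, he.2, ← union_comm, union_left, union_comm, union_left]
            exact min_comm _ _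
        · have he' : ¬ U α d (α.reg (arc c false)) = U α d (α.reg (arc c true)) := by
            unfold U at he ⊢
            rw [e2]; rw [e1] at he
            intro h3; apply he
            rcases h3 with h3 | h3
            · left; exact ⟨h3.1.symm, h3.2.symm⟩
            · right; exact ⟨h3.2.symm, h3.1.symm⟩
          rw [if_neg he, if_neg he']
  · rw [del_punc, del_punc, del_punc, del_punc, List.map_map, List.map_map]
    apply List.map_congr_left
    intro r _
    exact U_U h hc hd hcd r

open Classical in
lemma fbd_single {A : Type*} [AddCommGroup A] (S : Fam → ℕ → Prop) (α : Fam) (a : A) :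
    fbd A S (Finsupp.single α a) = ∑ c ∈ Finset.range α.arcs,
      if S α c then (-1 : ℤ) ^ c • Finsupp.single (Fam.del c α) a else 0 := by
  unfold fbd
  rw [Finsupp.lsum_apply, Finsupp.sum_single_index (by simp), ← Finset.sum_filter]
  simp only [LinearMap.coe_sum, Finset.sum_apply, LinearMap.smul_apply, Finsupp.lsingle_apply]

lemma has_of_lt {F : Surf} {α : Fam} (h : α.IsFam0 F) {c : ℕ} (hc : c < α.arcs) : Has α c :=
  fun b => (h.word.mem c b).2 hc

end ArcC.Sq
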