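import Mathlib
import Pool.Agent.Lib.MP_e5080e_gt.DelBasic
import Pool.Agent.Lib.MP_e5080e_gt.Faces

/-! `fbd changes` squares to zero (MP_e5080e_gt). -/

namespace ArcC.Sq

open ArcC ArcC.Side ArcC.Fam

lemma rank_del {F : Surf} {α : Fam} {c : ℕ} (h : α.IsFam0 F) (hc : c < α.arcs) :
    (α.del c).rank = α.rank + 1 ∨ (α.del c).rank = α.rank := by
  by_cases hs : α.selfArc c
  · exact Or.inl (Fam.rank_del_self h hc hs)
  · by_cases h1 : α.reg (arc c false) ∈ α.punc ∧ α.reg (arc c true) ∈ α.punc
    · exact Or.inl (Fam.rank_del_punc h hc hs h1.1 h1.2)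
    · exact Or.inr (Fam.rank_del_other h hc hs h1)

lemma changes_iff {F : Surf} {α : Fam} {c : ℕ} (h : α.IsFam0 F) (hc : c < α.arcs) :
    α.changes c ↔ (α.del c).rank = α.rank + 1 := by
  unfold Fam.changes
  rcases rank_del h hc with h1 | h1 <;> omega

lemma changes_iff' {F : Surf} {α : Fam} {c : ℕ} (h : α.IsFam0 F) (hc : c < α.arcs) :
    α.changes c ↔ α.selfArc c ∨ (¬ α.selfArc c ∧
      α.reg (arc c false) ∈ α.punc ∧ α.reg (arc c true) ∈ α.punc) := by
  rw [changes_iff h hc]
  by_cases hs : α.selfArc c
  · simp [hs, Fam.rank_del_self h hc hs]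
  · by_cases h1 : α.reg (arc c false) ∈ α.punc ∧ α.reg (arc c true) ∈ α.punc
    · simp [hs, Fam.rank_del_punc h hc hs h1.1 h1.2, h1]
    · simp [hs, Fam.rank_del_other h hc hs h1, h1]

lemma changes_swap {F : Surf} {α : Fam} (h : α.IsFam0 F) {c e : ℕ} (hce : c ≤ e)
    (he : e + 1 < α.arcs) : (α.changes c ∧ (α.del c).changes e) ↔
      (α.changes (e + 1) ∧ (α.del (e + 1)).changes c) := by
  have hc : c < α.arcs := by omega
  have a1 := Fam.arcs_del h hc
  have a2 := Fam.arcs_del h he
  have h1 := Fam.IsFam0.del h hc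
  have h2 := Fam.IsFam0.del h he
  rw [changes_iff h hc, changes_iff h1 (by omega), changes_iff h he, changes_iff h2 (by omega)]
  have hd := del_del h.word.nodup (has_of_lt h hc) (has_of_lt h he) (by omega : c < e + 1)
  simp only [Nat.add_sub_cancel] at hd
  rw [hd]
  have r1 := rank_del h hc
  have r2 := rank_del h1 (c := e) (by omega)
  have r3 := rank_del h he
  have r4 := rank_del h2 (c := c) (by omega)
  rw [hd] at r2
  omega

open Classical in
/-- `∂²` squares to zero. -/
theorem fbd_sq_single {A : Type*} [AddCommGroup A] {F : Surf} {α : Fam} (h : α.IsFam0 F) (a : A) :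
    fbd A Fam.changes (fbd A Fam.changes (Finsupp.single α a)) = 0 := by
  rw [fbd_single, map_sum]
  have key : ∀ c ∈ Finset.range α.arcs, fbd A Fam.changes
      (if α.changes c then (-1 : ℤ) ^ c • Finsupp.single (Fam.del c α) a else 0) =
      ∑ e ∈ Finset.range (α.arcs - 1), if α.changes c ∧ (α.del c).changes e then
        (-1 : ℤ) ^ (c + e) • Finsupp.single (Fam.del e (Fam.del c α)) a else 0 := by
    intro c hc
    rw [Finset.mem_range] at hc
    have h1 := Fam.arcs_del h hc
    have h2 : (α.del c).arcs = α.arcs - 1 := by omega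
    split_ifs with hch
    · rw [map_smul, fbd_single, h2, Finset.smul_sum]
      apply Finset.sum_congr rfl
      intro e _
      by_cases h3 : (α.del c).changes e
      · rw [if_pos h3, if_pos ⟨hch, h3⟩, smul_smul, pow_add]
      · rw [if_neg h3, if_neg (fun h => h3 h.2), smul_zero]
    · rw [map_zero]
      symm
      apply Finset.sum_eq_zero
      intro e _
      rw [if_neg (fun h => hch h.1)]
  rw [Finset.sum_congr rfl key, ← Finset.sum_product']
  refine Finset.sum_involution (fun p _ => if p.1 ≤ p.2 then (p.2 + 1, p.1) else (p.2, p.1 - 1))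
    ?_ ?_ ?_ ?_
  · rintro ⟨c, e⟩ hp
    simp only [Finset.mem_product, Finset.mem_range] at hp
    by_cases hce : c ≤ e
    · simp only [if_pos hce]
      have hsw := changes_swap h hce (by omega)
      have hd := del_del h.word.nodup (has_of_lt h hp.1) (has_of_lt h (by omega : e + 1 < α.arcs))
        (by omega : c < e + 1)
      simp only [Nat.add_sub_cancel] at hd
      by_cases h3 : α.changes c ∧ (α.del c).changes e
      · rw [if_pos h3, if_pos (hsw.1 h3), hd, ← add_smul]
        have : (-1 : ℤ) ^ (c + e) + (-1) ^ (e + 1 + c) = 0 := by ring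
        rw [this, zero_smul]
      · rw [if_neg h3, if_neg (fun h4 => h3 (hsw.2 h4)), add_zero]
    · simp only [if_neg hce]
      have hsw := changes_swap h (c := e) (e := c - 1) (by omega) (by omega)
      rw [show c - 1 + 1 = c by omega] at hsw
      have hd := del_del h.word.nodup (has_of_lt h (by omega : e < α.arcs)) (has_of_lt h hp.1)
        (by omega : e < c)
      by_cases h3 : α.changes c ∧ (α.del c).changes e
      · rw [if_pos h3, if_pos (hsw.2 h3), hd, ← add_smul]
        have : (-1 : ℤ) ^ (c + e) + (-1) ^ (e + (c - 1)) = 0 := by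
          obtain ⟨m, rfl⟩ : ∃ m, c = m + 1 := ⟨c - 1, by omega⟩
          simp only [Nat.add_sub_cancel]
          ring
        rw [this, zero_smul]
      · rw [if_neg h3, if_neg (fun h4 => h3 (hsw.1 h4)), add_zero]
  · rintro ⟨c, e⟩ hp _
    simp only
    split_ifs with hce
    · simp only [ne_eq, Prod.mk.injEq, not_and]; omega
    · simp only [ne_eq, Prod.mk.injEq, not_and]; omega
  · rintro ⟨c, e⟩ hp
    simp only [Finset.mem_product, Finset.mem_range] at hp ⊢
    split_ifs with hce
    · simp only; omega
    · simp only; omega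
  · rintro ⟨c, e⟩ hp
    simp only [Finset.mem_product, Finset.mem_range] at hp ⊢
    by_cases hce : c ≤ e
    · simp only [if_pos hce]
      rw [if_neg (by omega)]
      simp
    · simp only [if_neg hce]
      rw [if_pos (by omega)]
      refine Prod.ext ?_ rfl
      change c - 1 + 1 = c
      omega

/-- `∂²` squares to zero. -/
theorem fbd_sq {A : Type*} [AddCommGroup A] {F : Surf} (z : Fam →₀ A)
    (h : ∀ α ∈ z.support, α.IsFam0 F) : fbd A Fam.changes (fbd A Fam.changes z) = 0 := by
  have : z = ∑ α ∈ z.support, Finsupp.single α (z α) := (Finsupp.sum_single z).symm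
  rw [this, map_sum, map_sum]
  exact Finset.sum_eq_zero fun α hα => fbd_sq_single (h α hα) _

end ArcC.Sq
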