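import Mathlib
import Pool.Agent.Lib.MP_e5080e_gt.Sq

/-! Assembly of the collapse theorem from the two claims (MP_e5080e_gt). -/

namespace ArcC.Assemble

open ArcC ArcC.Side ArcC.Fam ArcC.Sq

variable {A : Type*} [AddCommGroup A] {F : Surf}

lemma rank_of_nodup {α : Fam} (h : α.punc.Nodup) : α.rank = α.totalBetti := by
  unfold Fam.rank
  rw [List.toFinset_card_of_nodup h, Nat.sub_self, Nat.add_zero]

lemma nodup_del_self {α : Fam} {c : ℕ} (hs : α.selfArc c) : (α.del c).punc = α.punc := by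
  rw [del_punc, U_self hs, List.map_id]

lemma not_nodup_del {α : Fam} (c : ℕ) (h : ¬ α.punc.Nodup) : ¬ (α.del c).punc.Nodup := by
  rw [del_punc]
  exact fun h' => h (List.Nodup.of_map _ h')

lemma not_nodup_del_punc {α : Fam} {c : ℕ} (hs : ¬ α.selfArc c)
    (h1 : α.reg (arc c false) ∈ α.punc) (h2 : α.reg (arc c true) ∈ α.punc) :
    ¬ (α.del c).punc.Nodup := by
  rw [del_punc]
  intro h'
  have := List.inj_on_of_nodup_map h' h1 h2 (by
    unfold U
    rw [Fam.union_left, Fam.union_right])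
  exact hs this

/-- the support of the boundary -/
lemma mem_support_fbd {S : Fam → ℕ → Prop} {z : Fam →₀ A} {β : Fam}
    (h : β ∈ (fbd A S z).support) : ∃ α ∈ z.support, ∃ c < α.arcs, S α c ∧ β = α.del c := by
  classical
  by_contra hc
  push Not at hc
  rw [Finsupp.mem_support_iff] at h
  apply h
  have : z = ∑ α ∈ z.support, Finsupp.single α (z α) := (Finsupp.sum_single z).symm
  rw [this, map_sum, Finsupp.finsetSum_apply]
  apply Finset.sum_eq_zero
  intro α hα
  rw [fbd_single, Finsupp.finsetSum_apply]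
  apply Finset.sum_eq_zero
  intro c hc'
  rw [Finset.mem_range] at hc'
  split_ifs with h3
  · rw [Finsupp.smul_apply, Finsupp.single_eq_of_ne (hc α hα c hc' h3), smul_zero]
  · rfl

open Classical in
/-- The part of `∂²` on families with at most one puncture in every region which keeps this
property is the deletion of the arcs with the same region on both sides. -/
lemma filter_fbd_nodup {z : Fam →₀ A} (hz : ∀ α ∈ z.support, α.IsFam0 F)
    (hn : ∀ α ∈ z.support, α.punc.Nodup) :
    (fbd A Fam.changes z).filter (fun α => α.punc.Nodup) = fbd A Fam.selfArc z := by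
  have e : z = ∑ α ∈ z.support, Finsupp.single α (z α) := (Finsupp.sum_single z).symm
  have fz : ∀ x : Fam →₀ A, x.filter (fun α => α.punc.Nodup) =
    Finsupp.filterAddHom (M := A) (fun α : Fam => α.punc.Nodup) x := fun _ => rfl
  rw [e, map_sum, map_sum, fz, map_sum]
  apply Finset.sum_congr rfl
  intro α hα
  rw [fbd_single, fbd_single, map_sum]
  apply Finset.sum_congr rfl
  intro c hc
  rw [Finset.mem_range] at hc
  have hch := changes_iff' (hz α hα) hc
  by_cases hs : α.selfArc c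
  · rw [if_pos (hch.2 (Or.inl hs)), if_pos hs, map_zsmul, ← fz,
      Finsupp.filter_single_of_pos]
    rw [nodup_del_self hs]; exact hn α hα
  · rw [if_neg hs]
    split_ifs with h1
    · rcases hch.1 h1 with h2 | h2
      · exact absurd h2 hs
      · rw [map_zsmul, ← fz, Finsupp.filter_single_of_neg, smul_zero]
        exact not_nodup_del_punc hs h2.2.1 h2.2.2
    · exact map_zero _

open Classical in
lemma filter_fbd_not_nodup {z : Fam →₀ A} (hn : ∀ α ∈ z.support, ¬ α.punc.Nodup) :
    (fbd A Fam.changes z).filter (fun α => α.punc.Nodup) = 0 := by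
  rw [Finsupp.filter_eq_zero_iff]
  intro β hβ
  by_contra hc
  obtain ⟨α, hα, c, _, _, rfl⟩ := mem_support_fbd (Finsupp.mem_support_iff.2 hc)
  exact not_nodup_del c (hn α hα) hβ

/-- Assembly of the collapse theorem from the two claims. -/
theorem main_of (F : Surf) (K R : ℕ)
    (claim1 : ∀ z : Fam →₀ A,
      (∀ α ∈ z.support, α.IsFam0 F ∧ α.arcs = K ∧ α.totalBetti = R ∧ α.punc.Nodup) →
      fbd A Fam.selfArc z = 0 →
      ∃ y : Fam →₀ A, (∀ α ∈ y.support, α.IsFam0 F ∧ α.arcs = K + 1 ∧ α.totalBetti + 1 = R ∧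
        α.punc.Nodup) ∧ fbd A Fam.selfArc y = z)
    (claim2 : ∀ u : Fam →₀ A,
      (∀ α ∈ u.support, α.IsFam0 F ∧ α.arcs = K ∧ α.rank = R ∧ ¬ α.punc.Nodup) →
      fbd A Fam.changes u = 0 →
      ∃ y : Fam →₀ A, (∀ α ∈ y.support, α.IsFam0 F ∧ α.arcs = K + 1 ∧ α.rank + 1 = R) ∧
        fbd A Fam.changes y = u)
    (z : Fam →₀ A) (hz : ∀ α ∈ z.support, α.IsFam0 F ∧ α.arcs = K ∧ α.rank = R)
    (hd : fbd A Fam.changes z = 0) :
    ∃ y : Fam →₀ A, (∀ α ∈ y.support, α.IsFam0 F ∧ α.arcs = K + 1 ∧ α.rank + 1 = R) ∧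
      fbd A Fam.changes y = z := by
  classical
  set z1 := z.filter (fun α => α.punc.Nodup) with hz1
  set z2 := z.filter (fun α => ¬ α.punc.Nodup) with hz2
  have h12 : z1 + z2 = z := Finsupp.filter_add_filter_not z _
  have m1 : ∀ α ∈ z1.support, α ∈ z.support ∧ α.punc.Nodup := by
    intro α hα
    rw [hz1, Finsupp.support_filter, Finset.mem_filter] at hα
    exact hα
  have m2 : ∀ α ∈ z2.support, α ∈ z.support ∧ ¬ α.punc.Nodup := by
    intro α hα
    rw [hz2, Finsupp.support_filter, Finset.mem_filter] at hα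
    exact hα
  have c1 : fbd A Fam.selfArc z1 = 0 := by
    rw [← filter_fbd_nodup (F := F) (fun α hα => (hz α (m1 α hα).1).1) (fun α hα => (m1 α hα).2)]
    have : (fbd A Fam.changes z).filter (fun α => α.punc.Nodup) = 0 := by
      rw [hd, Finsupp.filter_zero]
    rw [← h12, map_add, Finsupp.filter_add,
      filter_fbd_not_nodup (fun α hα => (m2 α hα).2), add_zero] at this
    exact this
  obtain ⟨y1, hy1, hy1'⟩ := claim1 z1 (fun α hα => by
    obtain ⟨ha, hb⟩ := m1 α hα
    obtain ⟨h1, h2, h3⟩ := hz α ha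
    exact ⟨h1, h2, by rw [← rank_of_nodup hb]; exact h3, hb⟩) c1
  set u := z - fbd A Fam.changes y1 with hu
  have hbd : ∀ β ∈ (fbd A Fam.changes y1).support, β.IsFam0 F ∧ β.arcs = K ∧ β.rank = R := by
    intro β hβ
    obtain ⟨α, hα, c, hc, hch, rfl⟩ := mem_support_fbd hβ
    obtain ⟨h1, h2, h3, h4⟩ := hy1 α hα
    have h5 := Fam.arcs_del h1 hc
    refine ⟨Fam.IsFam0.del h1 hc, by omega, ?_⟩
    rw [(ArcC.Sq.changes_iff h1 hc).1 hch, rank_of_nodup h4]; exact h3
  have hu1 : u.filter (fun α => α.punc.Nodup) = 0 := by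
    rw [hu, Finsupp.filter_sub, filter_fbd_nodup (F := F) (fun α hα => (hy1 α hα).1)
      (fun α hα => (hy1 α hα).2.2.2), hy1', hz1, sub_self]
  obtain ⟨y2, hy2, hy2'⟩ := claim2 u (fun α hα => by
    have hn : ¬ α.punc.Nodup := by
      intro hn
      have := (Finsupp.filter_eq_zero_iff _ _).1 hu1 α hn
      exact (Finsupp.mem_support_iff.1 hα) this
    have : α ∈ z.support ∪ (fbd A Fam.changes y1).support := by
      rw [hu] at hα
      exact Finsupp.support_sub hα
    rcases Finset.mem_union.1 this with h | h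
    · obtain ⟨h1, h2, h3⟩ := hz α h
      exact ⟨h1, h2, h3, hn⟩
    · obtain ⟨h1, h2, h3⟩ := hbd α h
      exact ⟨h1, h2, h3, hn⟩) (by
    rw [hu, map_sub, hd, fbd_sq (F := F) y1 (fun α hα => (hy1 α hα).1), sub_zero])
  refine ⟨y1 + y2, ?_, ?_⟩
  · intro α hα
    rcases Finset.mem_union.1 (Finsupp.support_add hα) with h | h
    · obtain ⟨h1, h2, h3, h4⟩ := hy1 α h
      exact ⟨h1, h2, by rw [rank_of_nodup h4]; exact h3⟩
    · exact hy2 α h
  · rw [map_add, hy2', hu]; abel

end ArcC.Assemble
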