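import Mathlib
import Pool.Agent.Lib.MP_e5080e_gt.Faces

/-! Insertion of a small loop into a word: `p ++ x₀ :: q` becomes
`p ++ x₀ :: arc c false :: arc c true :: q` after renumbering (MP_e5080e_gt, JOB P). -/

namespace ArcC.Pu

open ArcC ArcC.Side Equiv Equiv.Perm

lemma unshift_inj (c : ℕ) : Function.Injective (unshift c) := by
  intro x y h
  have := congrArg (shift c) h
  simpa using this

lemma unshift_ne (c : ℕ) (x : Side) (b : Bool) : unshift c x ≠ arc c b := by
  intro h
  have h1 := isArc_unshift c x
  rw [h] at h1
  simp at h1

lemma unshift_mate (c : ℕ) (x : Side) : unshift c (mate x) = mate (unshift c x) := by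
  cases x <;> simp

lemma unshift_ptPerm (c : ℕ) (q : Perm ℕ) (x : Side) :
    unshift c (ptPerm q x) = ptPerm q (unshift c x) := by
  cases x <;> simp

@[simp] lemma isPt_unshift (c : ℕ) (x : Side) : isPt (unshift c x) = isPt x := by cases x <;> simp
@[simp] lemma isFirst_unshift (c : ℕ) (x : Side) : isFirst (unshift c x) = isFirst x := by
  cases x <;> simp

/-- the new word -/
def insW (c : ℕ) (p q : List Side) (x0 : Side) : List Side :=
  (p ++ [x0]).map (unshift c) ++ [arc c false, arc c true] ++ q.map (unshift c)

lemma mem_insW {c : ℕ} {p q : List Side} {x0 y : Side} : y ∈ insW c p q x0 ↔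
    (∃ x ∈ p ++ x0 :: q, unshift c x = y) ∨ y = arc c false ∨ y = arc c true := by
  unfold insW
  simp only [List.mem_append, List.mem_map, List.mem_cons, List.not_mem_nil, or_false]
  constructor
  · rintro ((⟨x, hx, rfl⟩ | h) | ⟨x, hx, rfl⟩)
    · rcases hx with hx | hx
      · exact Or.inl ⟨x, Or.inl hx, rfl⟩
      · exact Or.inl ⟨x, Or.inr (Or.inl hx), rfl⟩
    · exact Or.inr h
    · exact Or.inl ⟨x, Or.inr (Or.inr hx), rfl⟩
  · rintro (⟨x, (hx | hx | hx), rfl⟩ | h)
    · exact Or.inl (Or.inl ⟨x, Or.inl hx, rfl⟩)
    · exact Or.inl (Or.inl ⟨x, Or.inr hx, rfl⟩)
    · exact Or.inr ⟨x, hx, rfl⟩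
    · exact Or.inl (Or.inr h)

lemma insW_nodup {c : ℕ} {p q : List Side} {x0 : Side} (h : (p ++ x0 :: q).Nodup) :
    (insW c p q x0).Nodup := by
  have h1 : (insW c p q x0).Perm ([arc c false, arc c true] ++
      (p ++ x0 :: q).map (unshift c)) := by
    unfold insW
    refine (List.Perm.append_right _ (List.perm_append_comm)).trans ?_
    rw [List.append_assoc, ← List.map_append]
    simp
  rw [h1.nodup_iff, List.nodup_append]
  refine ⟨by simp, h.map (unshift_inj c), ?_⟩
  intro a ha b hb hab
  obtain ⟨x, _, rfl⟩ := List.mem_map.1 hb
  simp only [List.mem_cons, List.not_mem_nil, or_false] at ha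
  rcases ha with ha | ha
  · exact unshift_ne c x false (by rw [← hab, ha])
  · exact unshift_ne c x true (by rw [← hab, ha])

lemma range_split {c k : ℕ} (hc : c ≤ k) :
    List.range (k + 1) = List.range c ++ [c] ++ ((List.range k).drop c).map (· + 1) := by
  apply List.ext_getElem
  · simp; omega
  · intro i h1 h2
    simp only [List.getElem_range]
    rcases lt_trichotomy i c with h | h | h
    · rw [List.getElem_append_left (by simp; omega), List.getElem_append_left (by simpa using h)]
      simp
    · subst h
      rw [List.getElem_append_left (by simp), List.getElem_append_right (by simp)]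
      simp
    · rw [List.getElem_append_right (by simp; omega)]
      simp; omega

lemma isWord_ins {n k c : ℕ} {p q : List Side} {x0 : Side} (h : IsWord n k (p ++ x0 :: q))
    (hc : c = ((p ++ [x0]).filter isFirst).length) : IsWord n (k + 1) (insW c p q x0) where
  nodup := insW_nodup h.nodup
  head := by
    have h1 := h.head
    unfold insW
    cases p with
    | nil =>
      simp only [List.nil_append, List.head?_cons, Option.some.injEq] at h1
      simp [h1]
    | cons y t =>
      simp only [List.cons_append, List.head?_cons, Option.some.injEq] at h1
      simp [h1]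
  pts := by
    rw [← h.pts]
    unfold insW
    rw [List.filter_append, List.filter_append, List.filter_map, List.filter_map]
    have h1 : (isPt ∘ unshift c) = isPt := by ext x; simp
    rw [h1]
    have h2 : ∀ l : List Side, (l.filter isPt).map (unshift c) = l.filter isPt := by
      intro l
      conv_rhs => rw [← List.map_id (l.filter isPt)]
      apply List.map_congr_left
      intro x hx
      rw [List.mem_filter] at hx
      cases x with
      | pt j => simp
      | arc a b => simp at hx
    rw [h2, h2]
    simp only [List.filter_append, List.filter_cons, List.filter_nil,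
      isPt_arc, Bool.false_eq_true, if_false, List.append_nil]
    split_ifs <;> simp
  firsts := by
    have h1 := h.firsts
    have e1 : p ++ x0 :: q = (p ++ [x0]) ++ q := by simp
    rw [e1, List.filter_append] at h1
    have hck : c ≤ k := by
      have := congrArg List.length h1
      simp only [List.length_append, List.length_map, List.length_range] at this
      omega
    have hA : (p ++ [x0]).filter isFirst = (List.range c).map (fun a => arc a false) := by
      have := congrArg (List.take c) h1
      rw [List.take_append_of_le_length hc.le, List.take_of_length_le hc.ge, ← List.map_take,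
        List.take_range, min_eq_left hck] at this
      exact this
    have hB : q.filter isFirst = ((List.range k).drop c).map (fun a => arc a false) := by
      have := congrArg (List.drop c) h1
      rw [List.drop_append_of_le_length hc.le, List.drop_of_length_le hc.ge, List.nil_append,
        ← List.map_drop] at this
      exact this
    unfold insW
    rw [List.filter_append, List.filter_append, List.filter_map, List.filter_map]
    have h3 : (isFirst ∘ unshift c) = isFirst := by ext x; simp
    rw [h3, hA, hB, range_split hck, List.map_append, List.map_append, List.map_map, List.map_map,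
      List.map_map]
    have h4 : [arc c false, arc c true].filter isFirst = [arc c false] := by
      simp
    rw [h4]
    congr 1
    · congr 1
      apply List.map_congr_left
      intro a ha
      rw [List.mem_range] at ha
      simp [ha]
    · apply List.map_congr_left
      intro a ha
      have ha' : c ≤ a := by
        obtain ⟨i, hi, rfl⟩ := List.mem_iff_getElem.1 ha
        simp
      simp only [Function.comp, unshift_arc, arc.injEq, and_true]
      rw [if_neg (by omega)]
  mem := by
    intro a b
    have hck : c ≤ k := by
      have h1 := congrArg List.length h.firsts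
      have e1 : p ++ x0 :: q = (p ++ [x0]) ++ q := by simp
      rw [e1, List.filter_append] at h1
      simp only [List.length_append, List.length_map, List.length_range] at h1
      omega
    rw [mem_insW]
    constructor
    · rintro (⟨x, hx, hxy⟩ | h1 | h1)
      · cases x with
        | pt j => simp at hxy
        | arc a' b' =>
          rw [h.mem] at hx
          simp only [unshift_arc, arc.injEq] at hxy
          have := hxy.1
          split_ifs at this <;> omega
      · simp only [arc.injEq] at h1; omega
      · simp only [arc.injEq] at h1; omega
    · intro ha
      by_cases hac : a = c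
      · right
        cases b
        · left; rw [hac]
        · right; rw [hac]
      · left
        refine ⟨arc (if a < c then a else a - 1) b, ?_, ?_⟩
        · rw [h.mem]; split_ifs <;> omega
        · simp only [unshift_arc, arc.injEq, and_true]
          split_ifs <;> omega
  mates := by
    intro a ha
    have hck : c ≤ k := by
      have h1 := congrArg List.length h.firsts
      have e1 : p ++ x0 :: q = (p ++ [x0]) ++ q := by simp
      rw [e1, List.filter_append] at h1
      simp only [List.length_append, List.length_map, List.length_range] at h1
      omega
    by_cases hac : a = c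
    · subst hac
      unfold insW
      exact (List.sublist_append_right _ _).trans (List.sublist_append_left _ _)
    · have h1 := (h.mates (if a < c then a else a - 1) (by split_ifs <;> omega)).map (unshift c)
      have h2 : ([arc (if a < c then a else a - 1) false,
          arc (if a < c then a else a - 1) true] : List Side).map (unshift c) =
          [arc a false, arc a true] := by
        simp only [List.map_cons, List.map_nil, unshift_arc, List.cons.injEq, arc.injEq, and_true]
        split_ifs <;> omega
      rw [h2] at h1
      refine h1.trans ?_
      unfold insW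
      have e1 : (p ++ x0 :: q).map (unshift c) =
          (p ++ [x0]).map (unshift c) ++ q.map (unshift c) := by simp
      rw [e1]
      exact (List.sublist_append_left _ _).append_right _

/-- the new word contains the old one -/
lemma wdel_insW (c : ℕ) (p q : List Side) (x0 : Side) :
    wdel c (insW c p q x0) = p ++ x0 :: q := by
  unfold wdel insW
  have h1 : ∀ l : List Side, ((l.map (unshift c)).filter (fun x => !(isArc c x))).map (shift c) =
      l := by
    intro l
    rw [List.filter_eq_self.2]
    · rw [List.map_map]
      conv_rhs => rw [← List.map_id l]
      apply List.map_congr_left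
      intro x _; simp
    · intro x hx
      obtain ⟨y, _, rfl⟩ := List.mem_map.1 hx
      simp
  rw [List.filter_append, List.filter_append, List.map_append, List.map_append, h1, h1]
  simp

/-! ### the cyclic permutation of the new word -/

section perm

variable {c : ℕ} {p q : List Side} {x0 : Side}

lemma insW_perm_x0 (h : (p ++ x0 :: q).Nodup) :
    (insW c p q x0).formPerm (unshift c x0) = arc c false := by
  have h1 : insW c p q x0 = p.map (unshift c) ++ unshift c x0 :: arc c false ::
      (arc c true :: q.map (unshift c)) := by
    unfold insW; simp
  have h2 := insW_nodup (c := c) h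
  rw [h1] at h2 ⊢
  exact formPerm_next h2

lemma insW_perm_false (h : (p ++ x0 :: q).Nodup) :
    (insW c p q x0).formPerm (arc c false) = arc c true := by
  have h1 : insW c p q x0 = (p ++ [x0]).map (unshift c) ++ arc c false :: arc c true ::
      q.map (unshift c) := by
    unfold insW; simp
  have h2 := insW_nodup (c := c) h
  rw [h1] at h2 ⊢
  exact formPerm_next h2

lemma insW_rem (h : (p ++ x0 :: q).Nodup) :
    ((p ++ x0 :: q).map (unshift c)).formPerm =
      rem (arc c true) (rem (arc c false) (insW c p q x0).formPerm) := by
  have h1 : insW c p q x0 = (p ++ [x0]).map (unshift c) ++ arc c false :: (arc c true ::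
      q.map (unshift c)) := by
    unfold insW; simp
  have h2 := insW_nodup (c := c) h
  rw [h1] at h2 ⊢
  rw [← formPerm_rem h2]
  have h3 : ((p ++ [x0]).map (unshift c) ++ (arc c true :: q.map (unshift c))).Nodup := by
    refine h2.sublist ?_
    apply List.Sublist.append_left
    exact List.sublist_cons_self _ _
  rw [← formPerm_rem h3]
  simp

lemma insW_perm_true (h : (p ++ x0 :: q).Nodup) :
    (insW c p q x0).formPerm (arc c true) = unshift c ((p ++ x0 :: q).formPerm x0) := by
  have h1 := formPerm_map_apply h (unshift c) (fun x _ y _ hxy => unshift_inj c hxy)
    (x := x0) (by simp)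
  rw [← h1, insW_rem h]
  have hne : (arc c false : Side) ≠ arc c true := by simp
  have e1 : rem (arc c false) (insW c p q x0).formPerm (unshift c x0) = arc c true := by
    rw [rem_apply_of_eq (insW_perm_x0 h), insW_perm_false h]
  rw [rem_apply_of_eq e1, rem_apply_of_ne hne.symm]
  intro h2
  have h3 := (insW c p q x0).formPerm.injective (h2.trans (insW_perm_x0 h).symm)
  exact unshift_ne c x0 true h3.symm

lemma insW_perm_other (h : (p ++ x0 :: q).Nodup) {y : Side} (hy : y ∈ p ++ x0 :: q)
    (hyx : y ≠ x0) :
    (insW c p q x0).formPerm (unshift c y) = unshift c ((p ++ x0 :: q).formPerm y) := by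
  have h1 := formPerm_map_apply h (unshift c) (fun x _ y _ hxy => unshift_inj c hxy) hy
  rw [← h1, insW_rem h]
  have e0 : (insW c p q x0).formPerm (unshift c y) ≠ arc c false := by
    intro h2
    have h3 := (insW c p q x0).formPerm.injective (h2.trans (insW_perm_x0 h).symm)
    exact hyx (unshift_inj c h3)
  have e2 : (insW c p q x0).formPerm (unshift c y) ≠ arc c true := by
    intro h2
    have h3 := (insW c p q x0).formPerm.injective (h2.trans (insW_perm_false h).symm)
    exact unshift_ne c y false h3
  have e1 : rem (arc c false) (insW c p q x0).formPerm (unshift c y) =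
      (insW c p q x0).formPerm (unshift c y) := by
    rw [rem_apply_of_ne (unshift_ne c y false) e0]
  rw [rem_apply_of_ne (unshift_ne c y true) (by rw [e1]; exact e2), e1]

variable {ρ : Perm ℕ} {n : ℕ}

lemma face_ins_x0 (h : (p ++ x0 :: q).Nodup) :
    face ρ n (insW c p q x0) (unshift c x0) = arc c true := by
  rw [face, Perm.mul_apply, Perm.mul_apply, insW_perm_x0 h]; simp

lemma face_ins_false (h : (p ++ x0 :: q).Nodup) :
    face ρ n (insW c p q x0) (arc c false) = arc c false := by
  rw [face, Perm.mul_apply, Perm.mul_apply, insW_perm_false h]; simp

lemma face_ins_true (h : (p ++ x0 :: q).Nodup) :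
    face ρ n (insW c p q x0) (arc c true) = unshift c (face ρ n (p ++ x0 :: q) x0) := by
  rw [face, face, Perm.mul_apply, Perm.mul_apply, Perm.mul_apply, Perm.mul_apply,
    insW_perm_true h, unshift_mate, unshift_ptPerm]

lemma face_ins_other (h : (p ++ x0 :: q).Nodup) {y : Side} (hy : y ∈ p ++ x0 :: q)
    (hyx : y ≠ x0) :
    face ρ n (insW c p q x0) (unshift c y) = unshift c (face ρ n (p ++ x0 :: q) y) := by
  rw [face, face, Perm.mul_apply, Perm.mul_apply, Perm.mul_apply, Perm.mul_apply,
    insW_perm_other h hy hyx, unshift_mate, unshift_ptPerm]

end perm

end ArcC.Pu
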