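import Mathlib
import Pool.Agent.Lib.MP_e5080e_gt.PunctWord

/-! Cutting off a puncture `x` of the region `j` by a small loop based at the first side of this
region is an arc family (MP_e5080e_gt, JOB P). -/

namespace ArcC.Pu

open ArcC ArcC.Side ArcC.Fam Equiv Equiv.Perm

/-- renumbering of the regions: there is a new region with the number `j + 1` -/
def upReg (j r : ℕ) : ℕ := if r ≤ j then r else r + 1

lemma upReg_inj (j : ℕ) : Function.Injective (upReg j) := by
  intro a b h
  unfold upReg at h
  split_ifs at h <;> omega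

lemma upReg_ne (j r : ℕ) : upReg j r ≠ j + 1 := by
  unfold upReg; split_ifs <;> omega

@[simp] lemma upReg_self (j : ℕ) : upReg j j = j := by simp [upReg]

@[simp] lemma upReg_zero (j : ℕ) : upReg j 0 = 0 := by simp [upReg]

lemma upReg_eq_self_iff {j r : ℕ} : upReg j r = j ↔ r = j := by
  unfold upReg; split_ifs <;> omega

lemma upReg_of_le {j r : ℕ} (h : r ≤ j) : upReg j r = r := by simp [upReg, h]

lemma upReg_of_gt {j r : ℕ} (h : j < r) : upReg j r = r + 1 := by
  unfold upReg; rw [if_neg (by omega)]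

lemma exists_upReg {j i : ℕ} (h : i ≠ j + 1) : ∃ r, upReg j r = i := by
  by_cases hi : i ≤ j
  · exact ⟨i, upReg_of_le hi⟩
  · exact ⟨i - 1, by rw [upReg_of_gt (by omega)]; omega⟩

lemma union_upReg (j r : ℕ) : union (j + 1) j (upReg j r) = r := by
  unfold union upReg
  split_ifs <;> omega

/-- the new family -/
noncomputable def insF (c j x : ℕ) (P Q : List (Side × ℕ)) (x0 : Side) (β : ℕ →₀ ℕ)
    (pu : List ℕ) : Fam where
  sides := (P ++ [(x0, j)]).map (fun s => (unshift c s.1, upReg j s.2)) ++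
    [(arc c false, j + 1), (arc c true, j)] ++ Q.map (fun s => (unshift c s.1, upReg j s.2))
  betti := β.mapDomain (upReg j)
  punc := (pu.map (upReg j)).set x (j + 1)

/-- `(x0, j)` is the first side of the region `j`, there are `c` arcs whose first end is not
after `x0`, the region `j` contains the puncture `x` and another one -/
structure Dec (α : Fam) (c j x : ℕ) (P Q : List (Side × ℕ)) (x0 : Side) : Prop where
  sides : α.sides = P ++ (x0, j) :: Q
  first : j ∉ P.map Prod.snd
  count : c = ((P.map Prod.fst ++ [x0]).filter isFirst).length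
  get : α.punc[x]? = some j
  two : 2 ≤ α.punc.count j

lemma word_insF (c j x : ℕ) (P Q : List (Side × ℕ)) (x0 : Side) (β : ℕ →₀ ℕ) (pu : List ℕ) :
    (insF c j x P Q x0 β pu).word = insW c (P.map Prod.fst) (Q.map Prod.fst) x0 := by
  unfold Fam.word insF insW
  simp [List.map_map, Function.comp_def]

lemma regs_insF (c j x : ℕ) (P Q : List (Side × ℕ)) (x0 : Side) (β : ℕ →₀ ℕ) (pu : List ℕ) :
    (insF c j x P Q x0 β pu).regs = (P.map Prod.snd).map (upReg j) ++ [j, j + 1, j] ++
      (Q.map Prod.snd).map (upReg j) := by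
  unfold Fam.regs insF
  simp [List.map_map, Function.comp_def]

/-- canonical numbering -/
def Canon (l : List ℕ) : Prop := ∀ p r q, l = p ++ r :: q → ∀ r' < r, r' ∈ p

lemma canon_concat {l : List ℕ} {a : ℕ} :
    Canon (l ++ [a]) ↔ Canon l ∧ ∀ r' < a, r' ∈ l := by
  constructor
  · intro h
    refine ⟨fun p r q hl => h p r (q ++ [a]) (by rw [hl]; simp), h l a [] rfl⟩
  · rintro ⟨h1, h2⟩ p r q hl
    rcases List.eq_nil_or_concat q with hq | ⟨q0, b, hq⟩
    · subst hq
      have := List.append_inj' hl rfl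
      simp only [List.cons.injEq, and_true] at this
      rw [← this.1, ← this.2]; exact h2
    · rw [List.concat_eq_append] at hq
      subst hq
      have h3 : l ++ [a] = (p ++ r :: q0) ++ [b] := by rw [hl]; simp
      have := List.append_inj' h3 rfl
      exact h1 p r q0 this.1

lemma canon_prefix {l m : List ℕ} (h : Canon (l ++ m)) : Canon l :=
  fun p r q hl => h p r (q ++ m) (by rw [hl]; simp)

/-- the regions before the first side of the region `j` -/
lemma canon_lt {P Q : List ℕ} {j : ℕ} (h : Canon (P ++ j :: Q)) (hj : j ∉ P) : ∀ r ∈ P, r < j := by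
  intro r hr
  by_contra h1
  obtain ⟨p, q, hpq⟩ := List.append_of_mem hr
  rcases Nat.lt_or_ge j r with h2 | h2
  · have := h p r (q ++ j :: Q) (by rw [hpq]; simp) j h2
    exact hj (by rw [hpq]; simp [this])
  · have : r = j := by omega
    exact hj (this ▸ hr)

lemma canon_ins {P Q : List ℕ} {j : ℕ} (h : Canon (P ++ j :: Q)) (hj : j ∉ P) :
    Canon (P.map (upReg j) ++ [j, j + 1, j] ++ Q.map (upReg j)) := by
  have hlt := canon_lt h hj
  have hP : P.map (upReg j) = P := by
    conv_rhs => rw [← List.map_id P]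
    apply List.map_congr_left
    intro r hr
    exact upReg_of_le (hlt r hr).le
  rw [hP]
  have hbase : Canon (P ++ [j, j + 1, j]) := by
    have e : P ++ [j, j + 1, j] = ((P ++ [j]) ++ [j + 1]) ++ [j] := by simp
    have hPj : ∀ r' < j, r' ∈ P := h P j Q rfl
    rw [e, canon_concat, canon_concat, canon_concat]
    refine ⟨⟨⟨canon_prefix h, hPj⟩, ?_⟩, ?_⟩
    · intro r' hr'
      rw [List.mem_append, List.mem_singleton]
      rcases Nat.lt_or_ge r' j with h1 | h1
      · exact Or.inl (hPj r' h1)
      · right; omega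
    · intro r' hr'
      simp [hPj r' hr']
  induction Q using List.reverseRecOn with
  | nil => simpa using hbase
  | append_singleton Q0 a ih =>
    have e1 : P ++ j :: (Q0 ++ [a]) = (P ++ j :: Q0) ++ [a] := by simp
    rw [e1, canon_concat] at h
    have h2 := ih h.1
    rw [List.map_append, ← List.append_assoc]
    rw [List.map_singleton, canon_concat]
    refine ⟨h2, ?_⟩
    intro r' hr'
    rcases Nat.lt_or_ge r' j with h3 | h3
    · have : r' ∈ P := h.1 P j Q0 rfl r' h3
      simp [this]
    · rcases Nat.lt_or_ge (j + 1) r' with h4 | h4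
      · have h5 : r' - 1 < a := by
          unfold upReg at hr'
          split_ifs at hr' <;> omega
        have h6 := h.2 _ h5
        rw [List.mem_append, List.mem_cons] at h6
        have h7 : r' - 1 ∈ Q0 := by
          rcases h6 with h6 | h6 | h6
          · have := hlt _ h6; omega
          · omega
          · exact h6
        rw [List.mem_append]
        right
        rw [List.mem_map]
        exact ⟨r' - 1, h7, by rw [upReg_of_gt (by omega)]; omega⟩
      · have : r' = j ∨ r' = j + 1 := by omega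
        rcases this with h5 | h5 <;> simp [h5]

section fam

variable {F : Surf} {α : Fam} {c j x : ℕ} {P Q : List (Side × ℕ)} {x0 : Side}


lemma Dec.word (D : Dec α c j x P Q x0) : α.word = P.map Prod.fst ++ x0 :: Q.map Prod.fst := by
  unfold Fam.word; rw [D.sides]; simp

lemma Dec.regs (D : Dec α c j x P Q x0) : α.regs = P.map Prod.snd ++ j :: Q.map Prod.snd := by
  unfold Fam.regs; rw [D.sides]; simp

lemma Dec.mem_x0 (D : Dec α c j x P Q x0) : (x0, j) ∈ α.sides := by rw [D.sides]; simp

lemma Dec.mem_j (D : Dec α c j x P Q x0) : j ∈ α.regs := by rw [D.regs]; simp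

lemma Dec.mem_sides (D : Dec α c j x P Q x0) {y : Side} {i : ℕ} :
    (y, i) ∈ (insF c j x P Q x0 (Fam.betti α) (Fam.punc α)).sides ↔ (∃ z r, (z, r) ∈ α.sides ∧ unshift c z = y ∧ upReg j r = i) ∨
      (y = arc c false ∧ i = j + 1) ∨ (y = arc c true ∧ i = j) := by
  rw [D.sides]
  unfold insF
  simp only [List.mem_append, List.mem_map, List.mem_cons, List.not_mem_nil, or_false,
    Prod.mk.injEq, Prod.exists]
  constructor
  · rintro ((⟨z, r, hx, h1, h2⟩ | h) | ⟨z, r, hx, h1, h2⟩)
    · rcases hx with hx | hx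
      · exact Or.inl ⟨z, r, Or.inl hx, h1, h2⟩
      · exact Or.inl ⟨z, r, Or.inr (Or.inl hx), h1, h2⟩
    · exact Or.inr h
    · exact Or.inl ⟨z, r, Or.inr (Or.inr hx), h1, h2⟩
  · rintro (⟨z, r, (hx | hx | hx), h1, h2⟩ | h)
    · exact Or.inl (Or.inl ⟨z, r, Or.inl hx, h1, h2⟩)
    · exact Or.inl (Or.inl ⟨z, r, Or.inr hx, h1, h2⟩)
    · exact Or.inr ⟨z, r, hx, h1, h2⟩
    · exact Or.inl (Or.inr h)

lemma Dec.mem_regs (D : Dec α c j x P Q x0) {i : ℕ} :
    i ∈ (insF c j x P Q x0 (Fam.betti α) (Fam.punc α)).regs ↔ (∃ r ∈ α.regs, upReg j r = i) ∨ i = j + 1 := by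
  rw [regs_insF, D.regs]
  simp only [List.mem_append, List.mem_map, List.mem_cons, List.not_mem_nil, or_false]
  constructor
  · rintro ((⟨r, hr, h1⟩ | (h | h | h)) | ⟨r, hr, h1⟩)
    · exact Or.inl ⟨r, Or.inl hr, h1⟩
    · exact Or.inl ⟨j, Or.inr (Or.inl rfl), by rw [h]; simp⟩
    · exact Or.inr h
    · exact Or.inl ⟨j, Or.inr (Or.inl rfl), by rw [h]; simp⟩
    · exact Or.inl ⟨r, Or.inr (Or.inr hr), h1⟩
  · rintro (⟨r, (hr | hr | hr), h1⟩ | h)
    · exact Or.inl (Or.inl ⟨r, hr, h1⟩)
    · left; right; left; rw [← h1, hr]; simp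
    · exact Or.inr ⟨r, hr, h1⟩
    · left; right; right; left; exact h

lemma Dec.isWord (D : Dec α c j x P Q x0) (h : α.IsFam0 F) :
    IsWord F.n (α.arcs + 1) (insF c j x P Q x0 (Fam.betti α) (Fam.punc α)).word := by
  rw [word_insF]
  have hw := h.word
  rw [D.word] at hw
  exact isWord_ins hw D.count

lemma Dec.arcs (D : Dec α c j x P Q x0) (h : α.IsFam0 F) : (insF c j x P Q x0 (Fam.betti α) (Fam.punc α)).arcs = α.arcs + 1 :=
  (D.isWord h).length_firsts

lemma Dec.face_x0 (D : Dec α c j x P Q x0) (h : α.IsFam0 F) :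
    bdPerm F (insF c j x P Q x0 (Fam.betti α) (Fam.punc α)) (unshift c x0) = arc c true := by
  have hw := h.word.nodup
  rw [D.word] at hw
  rw [bdPerm, word_insF, face_ins_x0 hw]

lemma Dec.face_false (D : Dec α c j x P Q x0) (h : α.IsFam0 F) :
    bdPerm F (insF c j x P Q x0 (Fam.betti α) (Fam.punc α)) (arc c false) = arc c false := by
  have hw := h.word.nodup
  rw [D.word] at hw
  rw [bdPerm, word_insF, face_ins_false hw]

lemma Dec.face_true (D : Dec α c j x P Q x0) (h : α.IsFam0 F) :
    bdPerm F (insF c j x P Q x0 (Fam.betti α) (Fam.punc α)) (arc c true) = unshift c (bdPerm F α x0) := by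
  have hw := h.word.nodup
  rw [D.word] at hw
  rw [bdPerm, word_insF, face_ins_true hw, bdPerm, D.word]

lemma Dec.face_other (D : Dec α c j x P Q x0) (h : α.IsFam0 F) {y : Side} (hy : y ∈ α.word)
    (hyx : y ≠ x0) : bdPerm F (insF c j x P Q x0 (Fam.betti α) (Fam.punc α)) (unshift c y) = unshift c (bdPerm F α y) := by
  have hw := h.word.nodup
  rw [D.word] at hw hy
  rw [bdPerm, word_insF, face_ins_other hw hy hyx, bdPerm, D.word]

lemma Dec.betti_up (_D : Dec α c j x P Q x0) (r : ℕ) :
    (insF c j x P Q x0 (Fam.betti α) (Fam.punc α)).betti (upReg j r) = α.betti r :=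
  Finsupp.mapDomain_apply (upReg_inj j) _ _

lemma Dec.betti_new (_D : Dec α c j x P Q x0) :
    (insF c j x P Q x0 (Fam.betti α) (Fam.punc α)).betti (j + 1) = 0 := by
  apply Finsupp.mapDomain_of_notMem_range
  rintro ⟨r, hr⟩
  exact upReg_ne j r hr

lemma Dec.totalBetti (_D : Dec α c j x P Q x0) :
    (insF c j x P Q x0 (Fam.betti α) (Fam.punc α)).totalBetti = α.totalBetti := by
  unfold Fam.totalBetti insF
  simp only
  rw [Finsupp.sum_mapDomain_index (by simp) (by simp)]

lemma Dec.numReg (D : Dec α c j x P Q x0) : (insF c j x P Q x0 (Fam.betti α) (Fam.punc α)).numReg = α.numReg + 1 := by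
  classical
  unfold Fam.numReg
  have h1 : (insF c j x P Q x0 (Fam.betti α) (Fam.punc α)).regs.toFinset = insert (j + 1) (α.regs.toFinset.image (upReg j)) := by
    ext i
    rw [List.mem_toFinset, D.mem_regs, Finset.mem_insert, Finset.mem_image]
    simp only [List.mem_toFinset]
    exact or_comm
  rw [h1, Finset.card_insert_of_notMem, Finset.card_image_of_injective _ (upReg_inj j)]
  rw [Finset.mem_image]
  rintro ⟨r, _, hr⟩
  exact upReg_ne j r hr

/-- the sides of the regions of the new family -/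
lemma Dec.sidesOf_new (D : Dec α c j x P Q x0) : (insF c j x P Q x0 (Fam.betti α) (Fam.punc α)).sidesOf (j + 1) = {arc c false} := by
  ext y
  simp only [Fam.sidesOf, Set.mem_ofPred_eq, Set.mem_singleton_iff, D.mem_sides]
  constructor
  · rintro (⟨z, r, _, _, h⟩ | h | h)
    · exact absurd h (upReg_ne j r)
    · exact h.1
    · omega
  · intro h
    exact Or.inr (Or.inl ⟨h, trivial⟩)

lemma Dec.sidesOf_other (D : Dec α c j x P Q x0) {r : ℕ} (hr : r ≠ j) :
    (insF c j x P Q x0 (Fam.betti α) (Fam.punc α)).sidesOf (upReg j r) = unshift c '' α.sidesOf r := by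
  ext y
  simp only [Fam.sidesOf, Set.mem_ofPred_eq, Set.mem_image, D.mem_sides]
  constructor
  · rintro (⟨z, r', h1, h2, h3⟩ | h | h)
    · rw [upReg_inj j h3] at h1
      exact ⟨z, h1, h2⟩
    · exact absurd h.2 (upReg_ne j r)
    · exact absurd (upReg_eq_self_iff.1 h.2) hr
  · rintro ⟨z, h1, h2⟩
    exact Or.inl ⟨z, r, h1, h2, rfl⟩

lemma Dec.sidesOf_j (D : Dec α c j x P Q x0) :
    (insF c j x P Q x0 (Fam.betti α) (Fam.punc α)).sidesOf j = insert (arc c true) (unshift c '' α.sidesOf j) := by
  ext y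
  simp only [Fam.sidesOf, Set.mem_ofPred_eq, Set.mem_insert_iff, Set.mem_image, D.mem_sides]
  constructor
  · rintro (⟨z, r', h1, h2, h3⟩ | h | h)
    · rw [upReg_eq_self_iff.1 h3] at h1
      exact Or.inr ⟨z, h1, h2⟩
    · omega
    · exact Or.inl h.1
  · rintro (h | ⟨z, h1, h2⟩)
    · exact Or.inr (Or.inr ⟨h, trivial⟩)
    · exact Or.inl ⟨z, j, h1, h2, by simp⟩

lemma Dec.face_reg (D : Dec α c j x P Q x0) (h : α.IsFam0 F) :
    ∀ y i, (y, i) ∈ (insF c j x P Q x0 (Fam.betti α) (Fam.punc α)).sides → (bdPerm F (insF c j x P Q x0 (Fam.betti α) (Fam.punc α)) y, i) ∈ (insF c j x P Q x0 (Fam.betti α) (Fam.punc α)).sides := by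
  intro y i hy
  rcases D.mem_sides.1 hy with ⟨z, r, h1, h2, h3⟩ | h1 | h1
  · subst h2; subst h3
    by_cases hz : z = x0
    · subst hz
      have : r = j := by
        rw [← reg_eq h.word.nodup h1, reg_eq h.word.nodup D.mem_x0]
      subst this
      rw [D.face_x0 h, D.mem_sides]
      exact Or.inr (Or.inr ⟨rfl, by simp⟩)
    · rw [D.face_other h (mem_word h1) hz, D.mem_sides]
      exact Or.inl ⟨_, r, h.face_reg _ _ h1, rfl, rfl⟩
  · rw [h1.1, D.face_false h, D.mem_sides]
    exact Or.inr (Or.inl ⟨rfl, h1.2⟩)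
  · rw [h1.1, D.face_true h, D.mem_sides]
    exact Or.inl ⟨_, j, h.face_reg _ _ D.mem_x0, rfl, by rw [h1.2]; simp⟩

/-- the number of boundary cycles of the new regions -/
lemma Dec.ncyc_new (D : Dec α c j x P Q x0) :
    ncyc (bdPerm F (insF c j x P Q x0 (Fam.betti α) (Fam.punc α))) ((insF c j x P Q x0 (Fam.betti α) (Fam.punc α)).sidesOf (j + 1)) = 1 := by
  rw [D.sidesOf_new, ncyc_singleton]

lemma Dec.ncyc_other (D : Dec α c j x P Q x0) (h : α.IsFam0 F) {r : ℕ} (hr : r ≠ j) :
    ncyc (bdPerm F (insF c j x P Q x0 (Fam.betti α) (Fam.punc α))) ((insF c j x P Q x0 (Fam.betti α) (Fam.punc α)).sidesOf (upReg j r)) = ncyc (bdPerm F α) (α.sidesOf r) := by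
  rw [D.sidesOf_other hr]
  apply ncyc_image (sidesOf_finite α r) (sidesOf_inv h r) _ ((unshift_inj c).injOn)
  intro y hy
  apply D.face_other h (mem_word hy)
  rintro rfl
  apply hr
  rw [← reg_eq h.word.nodup hy, reg_eq h.word.nodup D.mem_x0]

lemma Dec.ncyc_j (D : Dec α c j x P Q x0) (h : α.IsFam0 F) :
    ncyc (bdPerm F (insF c j x P Q x0 (Fam.betti α) (Fam.punc α))) ((insF c j x P Q x0 (Fam.betti α) (Fam.punc α)).sidesOf j) = ncyc (bdPerm F α) (α.sidesOf j) := by
  have hfin : ((insF c j x P Q x0 (Fam.betti α) (Fam.punc α)).sidesOf j).Finite := sidesOf_finite _ _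
  have hinv : ∀ y ∈ (insF c j x P Q x0 (Fam.betti α) (Fam.punc α)).sidesOf j, bdPerm F (insF c j x P Q x0 (Fam.betti α) (Fam.punc α)) y ∈ (insF c j x P Q x0 (Fam.betti α) (Fam.punc α)).sidesOf j :=
    fun y hy => D.face_reg h y j hy
  have hs : arc c true ∈ (insF c j x P Q x0 (Fam.betti α) (Fam.punc α)).sidesOf j := by
    rw [D.sidesOf_j]; exact Set.mem_insert _ _
  have h1 := ncyc_remove (bdPerm F (insF c j x P Q x0 (Fam.betti α) (Fam.punc α))) hfin hinv hs
  have h2 : bdPerm F (insF c j x P Q x0 (Fam.betti α) (Fam.punc α)) (arc c true) ≠ arc c true := by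
    rw [D.face_true h]; exact unshift_ne _ _ _
  rw [if_neg h2, add_zero] at h1
  rw [h1]
  have h3 : (insF c j x P Q x0 (Fam.betti α) (Fam.punc α)).sidesOf j \ {arc c true} = unshift c '' α.sidesOf j := by
    rw [D.sidesOf_j]
    ext y
    simp only [Set.mem_sdiff, Set.mem_insert_iff, Set.mem_image, Set.mem_singleton_iff]
    constructor
    · rintro ⟨h4 | h4, h5⟩
      · exact absurd h4 h5
      · exact h4
    · rintro ⟨z, hz, rfl⟩
      exact ⟨Or.inr ⟨z, hz, rfl⟩, unshift_ne _ _ _⟩
  rw [h3]
  apply ncyc_image (sidesOf_finite α j) (sidesOf_inv h j) _ ((unshift_inj c).injOn)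
  intro y hy
  change rem (arc c true) (bdPerm F (insF c j x P Q x0 (Fam.betti α) (Fam.punc α))) (unshift c y) = _
  by_cases hyx : y = x0
  · subst hyx
    rw [rem_apply_of_eq (D.face_x0 h), D.face_true h]
  · have h4 := D.face_other h (mem_word hy) hyx
    rw [rem_apply_of_ne (unshift_ne _ _ _), h4]
    rw [h4]; exact unshift_ne _ _ _

lemma Dec.punc_getElem? (_D : Dec α c j x P Q x0) (i : ℕ) (hi : i ≠ x) : (insF c j x P Q x0 (Fam.betti α) (Fam.punc α)).punc[i]? = (α.punc[i]?).map (upReg j) := by
  unfold insF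
  simp only
  rw [List.getElem?_set_ne (Ne.symm hi), List.getElem?_map]

lemma Dec.x_lt (D : Dec α c j x P Q x0) : x < α.punc.length := by
  by_contra h
  have := D.get
  rw [List.getElem?_eq_none (by omega)] at this
  simp at this

lemma Dec.mem_punc_new (D : Dec α c j x P Q x0) : j + 1 ∈ (insF c j x P Q x0 (Fam.betti α) (Fam.punc α)).punc := by
  unfold insF
  apply List.mem_set
  rw [List.length_map]
  exact D.x_lt

/-- there is another puncture in the region `j` -/
lemma Dec.other (D : Dec α c j x P Q x0) : ∃ y, y ≠ x ∧ α.punc[y]? = some j := by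
  have h1 := D.two
  by_contra h2
  push Not at h2
  have h3 : α.punc.count j ≤ 1 := by
    have h4 : j ∉ α.punc.take x := by
      intro h5
      obtain ⟨y, hy, hy2⟩ := List.mem_iff_getElem.1 h5
      rw [List.length_take] at hy
      rw [List.getElem_take] at hy2
      exact h2 y (by omega) (by rw [List.getElem?_eq_getElem (by omega), hy2])
    have h5 : j ∉ α.punc.drop (x + 1) := by
      intro h5
      obtain ⟨y, hy, hy2⟩ := List.mem_iff_getElem.1 h5
      rw [List.length_drop] at hy
      rw [List.getElem_drop] at hy2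
      exact h2 (x + 1 + y) (by omega) (by rw [List.getElem?_eq_getElem (by omega), hy2])
    have h6 := D.x_lt
    have h7 : α.punc = α.punc.take x ++ α.punc[x] :: α.punc.drop (x + 1) := by
      rw [List.getElem_cons_drop, List.take_append_drop]
    rw [h7, List.count_append, List.count_eq_zero_of_not_mem h4]
    have h8 := List.count_cons (a := j) (b := α.punc[x]) (l := α.punc.drop (x + 1))
    rw [List.count_eq_zero_of_not_mem h5] at h8
    rw [h8]
    split_ifs <;> omega
  omega

lemma Dec.mem_punc_iff (D : Dec α c j x P Q x0) {r : ℕ} :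
    upReg j r ∈ (insF c j x P Q x0 (Fam.betti α) (Fam.punc α)).punc ↔ r ∈ α.punc := by
  constructor
  · intro h
    obtain ⟨y, hy⟩ := List.mem_iff_getElem?.1 h
    by_cases hyx : y = x
    · subst hyx
      unfold insF at hy
      simp only at hy
      rw [List.getElem?_set_self (by rw [List.length_map]; exact D.x_lt)] at hy
      simp only [Option.some.injEq] at hy
      exact absurd hy.symm (upReg_ne j r)
    · rw [D.punc_getElem? y hyx] at hy
      rw [Option.map_eq_some_iff] at hy
      obtain ⟨a, h1, h2⟩ := hy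
      rw [← upReg_inj j h2]
      exact List.mem_of_getElem? h1
  · intro h
    have key : ∃ y, y ≠ x ∧ α.punc[y]? = some r := by
      by_cases hr : r = j
      · rw [hr]; exact D.other
      · obtain ⟨y, hy⟩ := List.mem_iff_getElem?.1 h
        refine ⟨y, ?_, hy⟩
        rintro rfl
        rw [D.get] at hy
        simp only [Option.some.injEq] at hy
        exact hr hy.symm
    obtain ⟨y, hyx, hy⟩ := key
    apply List.mem_of_getElem? (i := y)
    rw [D.punc_getElem? y hyx, hy]
    rfl

/-- a family without arcs has only one region -/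
lemma regs_of_arcs_zero (h : α.IsFam0 F) (h0 : α.arcs = 0) {i : ℕ} (hi : i ∈ α.regs) : i = 0 := by
  have h1 := h.conn i hi
  rcases Relation.ReflTransGen.cases_tail h1 with h2 | ⟨k, _, a, b, h3, _⟩
  · exact h2
  · have := (h.word.mem a b).1 (mem_word h3)
    omega

theorem Dec.isFam0 (D : Dec α c j x P Q x0) (h : α.IsFam0 F) : (insF c j x P Q x0 (Fam.betti α) (Fam.punc α)).IsFam0 F where
  word := by rw [D.arcs h]; exact D.isWord h
  canon := by
    have h1 : Canon α.regs := h.canon
    rw [D.regs] at h1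
    rw [regs_insF]
    exact canon_ins h1 D.first
  face_reg := D.face_reg h
  supp := by
    intro i hi
    rw [D.mem_regs, not_or] at hi
    obtain ⟨r, rfl⟩ := exists_upReg hi.2
    rw [D.betti_up]
    apply h.supp
    intro h1
    exact hi.1 ⟨r, h1, rfl⟩
  genus := by
    intro i hi
    rcases D.mem_regs.1 hi with ⟨r, hr, rfl⟩ | h1
    · rw [D.betti_up]
      by_cases hrj : r = j
      · subst hrj
        rw [upReg_self, D.ncyc_j h]
        exact h.genus r hr
      · rw [D.ncyc_other h hrj]
        exact h.genus r hr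
    · subst h1
      rw [D.betti_new, D.ncyc_new]
      exact ⟨0, rfl⟩
  euler := by
    rw [D.numReg, D.totalBetti, D.arcs h]
    have := h.euler
    push_cast
    omega
  conn := by
    have hmap : ∀ r, Relation.ReflTransGen
        (fun i j => ∃ a b, (arc a b, i) ∈ α.sides ∧ (arc a (!b), j) ∈ α.sides) 0 r →
        Relation.ReflTransGen
          (fun i' j' => ∃ a b, (arc a b, i') ∈ (insF c j x P Q x0 (Fam.betti α) (Fam.punc α)).sides ∧
            (arc a (!b), j') ∈ (insF c j x P Q x0 (Fam.betti α) (Fam.punc α)).sides) 0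
          (upReg j r) := by
      intro r hr
      induction hr with
      | refl => rw [upReg_zero]
      | tail _ hst ih =>
        rename_i i k hik
        obtain ⟨a, b, h1, h2⟩ := hst
        refine ih.tail ⟨if a < c then a else a + 1, b, ?_, ?_⟩
        · rw [D.mem_sides]; exact Or.inl ⟨_, i, h1, rfl, rfl⟩
        · rw [D.mem_sides]; exact Or.inl ⟨_, k, h2, rfl, rfl⟩
    intro i hi
    rcases D.mem_regs.1 hi with ⟨r, hr, rfl⟩ | h1
    · exact hmap r (h.conn r hr)
    · subst h1
      have h2 := hmap j (h.conn j D.mem_j)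
      rw [upReg_self] at h2
      refine h2.tail ⟨c, true, ?_, ?_⟩
      · rw [D.mem_sides]; exact Or.inr (Or.inr ⟨rfl, rfl⟩)
      · rw [D.mem_sides]; exact Or.inr (Or.inl ⟨rfl, rfl⟩)
  punc_len := by
    rw [← h.punc_len]
    unfold insF
    simp
  punc_mem := by
    intro i hi
    rw [D.mem_regs]
    by_cases h1 : i = j + 1
    · exact Or.inr h1
    · left
      obtain ⟨r, rfl⟩ := exists_upReg h1
      exact ⟨r, h.punc_mem r (D.mem_punc_iff.1 hi), rfl⟩
  small := by
    intro _ i hi hp hb
    rcases D.mem_regs.1 hi with ⟨r, hr, rfl⟩ | h1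
    · rw [D.mem_punc_iff] at hp
      rw [D.betti_up] at hb
      have hrj : r ≠ j := by
        rintro rfl
        exact hp (List.mem_of_getElem? D.get)
      have h0 : α.arcs ≠ 0 := by
        intro h0
        exact hrj ((regs_of_arcs_zero h h0 hr).trans (regs_of_arcs_zero h h0 D.mem_j).symm)
      have h2 := h.small h0 r hr hp hb
      rw [D.regs] at h2
      rw [regs_insF]
      rw [List.count_append, List.count_cons_of_ne (Ne.symm hrj)] at h2
      rw [List.count_append, List.count_append, List.count_map_of_injective _ _ (upReg_inj j),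
        List.count_map_of_injective _ _ (upReg_inj j)]
      omega
    · subst h1
      exact absurd D.mem_punc_new hp

end fam

end ArcC.Pu
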