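import Mathlib
import Pool.Agent.Lib.MP_e5080e_gt.PunctFam

/-! The faces of the family with the additional small loop around a puncture
(MP_e5080e_gt, JOB P). -/

namespace ArcC.Pu

open ArcC ArcC.Side ArcC.Fam Equiv Equiv.Perm

/-- the new number of an old arc when an arc with the number `c` is inserted -/
def hat (c a : ℕ) : ℕ := if a < c then a else a + 1

lemma hat_ne (c a : ℕ) : hat c a ≠ c := by unfold hat; split_ifs <;> omega

lemma hat_inj (c : ℕ) : Function.Injective (hat c) := by
  intro a b h
  unfold hat at h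
  split_ifs at h <;> omega

lemma unshift_arc' (c a : ℕ) (b : Bool) : unshift c (arc a b) = arc (hat c a) b := rfl

section fam

variable {F : Surf} {α : Fam} {c j x : ℕ} {P Q : List (Side × ℕ)} {x0 : Side}


lemma Dec.nodup (D : Dec α c j x P Q x0) (h : α.IsFam0 F) : (insF c j x P Q x0 (Fam.betti α) (Fam.punc α)).word.Nodup :=
  (D.isWord h).nodup

lemma Dec.reg_false (D : Dec α c j x P Q x0) (h : α.IsFam0 F) :
    (insF c j x P Q x0 (Fam.betti α) (Fam.punc α)).reg (arc c false) = j + 1 :=
  reg_eq (D.nodup h) (D.mem_sides.2 (Or.inr (Or.inl ⟨rfl, rfl⟩)))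

lemma Dec.reg_true (D : Dec α c j x P Q x0) (h : α.IsFam0 F) :
    (insF c j x P Q x0 (Fam.betti α) (Fam.punc α)).reg (arc c true) = j :=
  reg_eq (D.nodup h) (D.mem_sides.2 (Or.inr (Or.inr ⟨rfl, rfl⟩)))

lemma Dec.reg_old (D : Dec α c j x P Q x0) (h : α.IsFam0 F) {z : Side} (hz : z ∈ α.word) :
    (insF c j x P Q x0 (Fam.betti α) (Fam.punc α)).reg (unshift c z) = upReg j (α.reg z) :=
  reg_eq (D.nodup h) (D.mem_sides.2 (Or.inl ⟨z, _, mem_sides_reg h.word.nodup hz, rfl, rfl⟩))

lemma Dec.reg_arc (D : Dec α c j x P Q x0) (h : α.IsFam0 F) {a : ℕ} (ha : a < α.arcs) (b : Bool) :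
    (insF c j x P Q x0 (Fam.betti α) (Fam.punc α)).reg (arc (hat c a) b) = upReg j (α.reg (arc a b)) :=
  D.reg_old h (arc_mem_word h ha b)

lemma Dec.c_le (D : Dec α c j x P Q x0) : c ≤ α.arcs := by
  rw [D.count]
  unfold Fam.arcs
  rw [D.word]
  apply List.Sublist.length_le
  apply List.Sublist.filter
  apply List.Sublist.append_left
  simp

/-- deletion of the new arc -/
lemma Dec.del_new (D : Dec α c j x P Q x0) (h : α.IsFam0 F) : (insF c j x P Q x0 (Fam.betti α) (Fam.punc α)).del c = α := by
  have hu : ∀ r, union ((insF c j x P Q x0 (Fam.betti α) (Fam.punc α)).reg (arc c false)) ((insF c j x P Q x0 (Fam.betti α) (Fam.punc α)).reg (arc c true)) r =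
      union (j + 1) j r := by
    intro r; rw [D.reg_false h, D.reg_true h]
  apply Fam.ext
  · have h1 : ∀ l : List (Side × ℕ), ((l.map (fun s : Side × ℕ => (unshift c s.1, upReg j s.2))).filter
        (fun s => !(isArc c s.1))).map (fun s => (shift c s.1,
          union ((insF c j x P Q x0 (Fam.betti α) (Fam.punc α)).reg (arc c false)) ((insF c j x P Q x0 (Fam.betti α) (Fam.punc α)).reg (arc c true)) s.2)) = l := by
      intro l
      rw [List.filter_eq_self.2]
      · rw [List.map_map]
        conv_rhs => rw [← List.map_id l]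
        apply List.map_congr_left
        rintro ⟨z, r⟩ _
        simp only [Function.comp, shift_unshift, hu, union_upReg, id]
      · intro s hs
        obtain ⟨z, _, rfl⟩ := List.mem_map.1 hs
        simp
    conv_lhs => unfold Fam.del
    rw [D.sides]
    conv_lhs =>
      rw [show (insF c j x P Q x0 (Fam.betti α) (Fam.punc α)).sides = (P ++ [(x0, j)]).map (fun s => (unshift c s.1, upReg j s.2)) ++
        [(arc c false, j + 1), (arc c true, j)] ++
          Q.map (fun s => (unshift c s.1, upReg j s.2)) from rfl]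
    rw [List.filter_append, List.filter_append, List.map_append, List.map_append, h1, h1]
    simp
  · unfold Fam.del
    simp only
    rw [if_neg (by rw [D.reg_false h, D.reg_true h]; omega), add_zero]
    have h1 : union ((insF c j x P Q x0 (Fam.betti α) (Fam.punc α)).reg (arc c false)) ((insF c j x P Q x0 (Fam.betti α) (Fam.punc α)).reg (arc c true)) = union (j + 1) j :=
      funext hu
    rw [h1]
    unfold insF
    simp only
    rw [← Finsupp.mapDomain_comp]
    have h2 : union (j + 1) j ∘ upReg j = id := funext (union_upReg j)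
    rw [h2, Finsupp.mapDomain_id]
  · unfold Fam.del
    simp only
    have h1 : union ((insF c j x P Q x0 (Fam.betti α) (Fam.punc α)).reg (arc c false)) ((insF c j x P Q x0 (Fam.betti α) (Fam.punc α)).reg (arc c true)) = union (j + 1) j :=
      funext hu
    rw [h1]
    unfold insF
    simp only
    rw [List.map_set, List.map_map]
    have h2 : union (j + 1) j ∘ upReg j = id := funext (union_upReg j)
    rw [h2, List.map_id]
    have h3 : union (j + 1) j (j + 1) = j := by rw [Fam.union_left]; omega
    rw [h3]
    apply List.ext_getElem?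
    intro i
    rw [List.getElem?_set]
    split_ifs with h4 h5
    · rw [← h4]; exact D.get.symm
    · rw [← h4] at *
      exact absurd D.x_lt h5
    · rfl

/-- the rank of the new family -/
lemma Dec.rank (D : Dec α c j x P Q x0) (h : α.IsFam0 F) : (insF c j x P Q x0 (Fam.betti α) (Fam.punc α)).rank + 1 = α.rank := by
  have h1 := rank_del_punc (c := c) (D.isFam0 h) (by rw [D.arcs h]; have := D.c_le; omega)
    (by unfold selfArc; rw [D.reg_false h, D.reg_true h]; omega)
    (by rw [D.reg_false h]; exact D.mem_punc_new)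
    (by
      rw [D.reg_true h]
      have h2 := D.mem_punc_iff.2 (List.mem_of_getElem? D.get)
      rwa [upReg_self] at h2)
  rw [D.del_new h] at h1
  exact h1.symm

lemma Dec.changes_new (D : Dec α c j x P Q x0) (h : α.IsFam0 F) : (insF c j x P Q x0 (Fam.betti α) (Fam.punc α)).changes c := by
  unfold Fam.changes
  rw [D.del_new h]
  have := D.rank h
  omega

lemma Dec.selfArc_iff (D : Dec α c j x P Q x0) (h : α.IsFam0 F) {a : ℕ} (ha : a < α.arcs) :
    (insF c j x P Q x0 (Fam.betti α) (Fam.punc α)).selfArc (hat c a) ↔ α.selfArc a := by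
  unfold selfArc
  rw [D.reg_arc h ha, D.reg_arc h ha]
  exact (upReg_inj j).eq_iff

lemma Dec.hat_lt (D : Dec α c j x P Q x0) (h : α.IsFam0 F) {a : ℕ} (ha : a < α.arcs) :
    hat c a < (insF c j x P Q x0 (Fam.betti α) (Fam.punc α)).arcs := by
  rw [D.arcs h]
  unfold hat
  split_ifs <;> omega

lemma Dec.changes_iff (D : Dec α c j x P Q x0) (h : α.IsFam0 F) {a : ℕ} (ha : a < α.arcs) :
    (insF c j x P Q x0 (Fam.betti α) (Fam.punc α)).changes (hat c a) ↔ α.changes a := by
  rw [Fam.changes_iff (D.isFam0 h) (D.hat_lt h ha), Fam.changes_iff h ha, D.selfArc_iff h ha,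
    D.reg_arc h ha, D.reg_arc h ha, D.mem_punc_iff, D.mem_punc_iff]

end fam

/-! ### the key of a family -/

/-- `j` is the smallest value attained twice, at `x` for the first time -/
structure Top (l : List ℕ) (j x : ℕ) : Prop where
  low : ∀ i < j, l.count i ≤ 1
  two : 2 ≤ l.count j
  get : l[x]? = some j
  first : ∀ y < x, l[y]? ≠ some j

lemma Top.unique {l : List ℕ} {j x j' x' : ℕ} (h : Top l j x) (h' : Top l j' x') :
    j = j' ∧ x = x' := by
  have h1 : j = j' := by
    rcases lt_trichotomy j j' with h1 | h1 | h1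
    · have := h'.low j h1
      have := h.two
      omega
    · exact h1
    · have := h.low j' h1
      have := h'.two
      omega
  subst h1
  refine ⟨rfl, ?_⟩
  rcases lt_trichotomy x x' with h1 | h1 | h1
  · exact absurd h.get (h'.first x h1)
  · exact h1
  · exact absurd h'.get (h.first x' h1)

lemma exists_top {l : List ℕ} (h : ¬ l.Nodup) : ∃ j x, Top l j x := by
  classical
  rw [List.nodup_iff_count_le_one] at h
  push Not at h
  have h1 : ∃ j, 2 ≤ l.count j := by
    obtain ⟨a, ha⟩ := h
    exact ⟨a, ha⟩
  have h2 : ∃ x : ℕ, l[x]? = some (Nat.find h1) := by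
    apply List.mem_iff_getElem?.1
    have := Nat.find_spec h1
    exact List.count_pos_iff.1 (by omega)
  refine ⟨Nat.find h1, Nat.find h2, ?_, Nat.find_spec h1, Nat.find_spec h2, ?_⟩
  · intro i hi
    have := Nat.find_min h1 hi
    omega
  · intro y hy
    exact Nat.find_min h2 hy

lemma Top.not_nodup {l : List ℕ} {j x : ℕ} (h : Top l j x) : ¬ l.Nodup := by
  intro h1
  rw [List.nodup_iff_count_le_one] at h1
  have := h1 j
  have := h.two
  omega

/-- the key of a list -/
noncomputable def keyL (l : List ℕ) : ℕ := by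
  classical
  exact if h : ∃ p : ℕ × ℕ, Top l p.1 p.2 then h.choose.1 * (l.length + 1) + h.choose.2 else 0

lemma Top.keyL {l : List ℕ} {j x : ℕ} (h : Top l j x) : keyL l = j * (l.length + 1) + x := by
  have h1 : ∃ p : ℕ × ℕ, Top l p.1 p.2 := ⟨(j, x), h⟩
  unfold Pu.keyL
  rw [dif_pos h1]
  obtain ⟨h2, h3⟩ := h.unique h1.choose_spec
  rw [← h2, ← h3]

lemma Top.lt {l : List ℕ} {j x : ℕ} (h : Top l j x) : x < l.length := by
  by_contra h1
  have := h.get
  rw [List.getElem?_eq_none (by omega)] at this
  simp at this

lemma keyL_lt {l : List ℕ} {a y j x : ℕ} (h2 : 2 ≤ l.count a) (hy : l[y]? = some a)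
    (h : a < j ∨ (a = j ∧ y < x)) : ¬ l.Nodup ∧ keyL l < j * (l.length + 1) + x := by
  have hn : ¬ l.Nodup := by
    intro h1
    rw [List.nodup_iff_count_le_one] at h1
    have := h1 a
    omega
  refine ⟨hn, ?_⟩
  obtain ⟨j', x', ht⟩ := exists_top hn
  rw [ht.keyL]
  have h3 := ht.lt
  have h4 : j' ≤ a := by
    by_contra h5
    have := ht.low a (by omega)
    omega
  rcases h with h | ⟨h, h5⟩
  · have h6 : j' + 1 ≤ j := by omega
    have h7 := Nat.mul_le_mul_right (l.length + 1) h6
    rw [Nat.add_mul] at h7
    omega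
  · subst h
    rcases Nat.lt_or_ge j' a with h6 | h6
    · have h7 := Nat.mul_le_mul_right (l.length + 1) h6
      rw [Nat.succ_mul] at h7
      omega
    · have h7 : j' = a := by omega
      subst h7
      have h8 : x' ≤ y := by
        by_contra h9
        exact ht.first y (by omega) hy
      omega

section low

variable {F : Surf} {β : Fam}

/-- two punctured regions are united -/
lemma count_del_punc {a : ℕ} (hs : ¬ β.selfArc a) (h1 : β.reg (arc a false) ∈ β.punc)
    (h2 : β.reg (arc a true) ∈ β.punc) :
    2 ≤ (β.del a).punc.count (min (β.reg (arc a false)) (β.reg (arc a true))) := by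
  rw [punc_del]
  unfold selfArc at hs
  have key : ∀ l : List ℕ, l.count (β.reg (arc a false)) + l.count (β.reg (arc a true)) ≤
      (l.map (β.un a)).count (min (β.reg (arc a false)) (β.reg (arc a true))) := by
    intro l
    induction l with
    | nil => simp
    | cons r l ih =>
      rw [List.map_cons, List.count_cons, List.count_cons, List.count_cons]
      by_cases h3 : r = β.reg (arc a false)
      · have e1 : ¬ (r = β.reg (arc a true)) := by omega
        have e2 : β.un a r = min (β.reg (arc a false)) (β.reg (arc a true)) := by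
          rw [h3]; exact Fam.union_left _ _
        rw [if_pos (by simp [h3]), if_neg (by simpa using e1), if_pos (by simp [e2])]
        omega
      · by_cases h4 : r = β.reg (arc a true)
        · have e2 : β.un a r = min (β.reg (arc a false)) (β.reg (arc a true)) := by
            rw [h4]; exact Fam.union_right _ _
          rw [if_neg (by simpa using h3), if_pos (by simp [h4]), if_pos (by simp [e2])]
          omega
        · rw [if_neg (by simpa using h3), if_neg (by simpa using h4)]
          omega
  have := key β.punc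
  have h3 := List.count_pos_iff.2 h1
  have h4 := List.count_pos_iff.2 h2
  omega

lemma getElem?_del {a y : ℕ} (hy : β.punc[y]? = some (β.reg (arc a false)) ∨
    β.punc[y]? = some (β.reg (arc a true))) :
    (β.del a).punc[y]? = some (min (β.reg (arc a false)) (β.reg (arc a true))) := by
  rw [punc_del, List.getElem?_map]
  rcases hy with hy | hy
  · rw [hy]; simp only [Option.map_some, Option.some.injEq]; exact Fam.union_left _ _
  · rw [hy]; simp only [Option.map_some, Option.some.injEq]; exact Fam.union_right _ _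

lemma lt_of_del {a j x : ℕ} (hs : ¬ β.selfArc a) (h1 : β.reg (arc a false) ∈ β.punc)
    (h2 : β.reg (arc a true) ∈ β.punc)
    (h : min (β.reg (arc a false)) (β.reg (arc a true)) < j ∨
      (min (β.reg (arc a false)) (β.reg (arc a true)) = j ∧
        ∃ y < x, β.punc[y]? = some (max (β.reg (arc a false)) (β.reg (arc a true))))) :
    ¬ (β.del a).punc.Nodup ∧ keyL (β.del a).punc < j * (β.punc.length + 1) + x := by
  have hl : (β.del a).punc.length = β.punc.length := by rw [punc_del, List.length_map]
  rw [← hl]
  rcases h with h | ⟨h, y, hy, hyx⟩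
  · obtain ⟨y, hy⟩ := List.mem_iff_getElem?.1 h1
    exact keyL_lt (count_del_punc hs h1 h2) (getElem?_del (Or.inl hy)) (Or.inl h)
  · refine keyL_lt (count_del_punc hs h1 h2) (getElem?_del (y := y) ?_) (Or.inr ⟨h, hy⟩)
    rcases max_choice (β.reg (arc a false)) (β.reg (arc a true)) with h3 | h3
    · left; rw [hyx, h3]
    · right; rw [hyx, h3]

end low

/-- the deletion of the arc `a` does not change the key `(j, x)` -/
def Keep (α : Fam) (j x a : ℕ) : Prop :=
  α.reg (arc a false) = α.reg (arc a true) ∨
  (j ≤ min (α.reg (arc a false)) (α.reg (arc a true)) ∧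
    (min (α.reg (arc a false)) (α.reg (arc a true)) = j → ∀ y < x,
      α.punc[y]? ≠ some (max (α.reg (arc a false)) (α.reg (arc a true)))))

lemma not_keep {α : Fam} {j x a : ℕ} (h : ¬ Keep α j x a) : ¬ α.selfArc a ∧
    (min (α.reg (arc a false)) (α.reg (arc a true)) < j ∨
      (min (α.reg (arc a false)) (α.reg (arc a true)) = j ∧
        ∃ y < x, α.punc[y]? = some (max (α.reg (arc a false)) (α.reg (arc a true))))) := by
  unfold Keep at h
  rw [not_or] at h
  refine ⟨h.1, ?_⟩
  have h2 := h.2
  by_cases h3 : j ≤ min (α.reg (arc a false)) (α.reg (arc a true))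
  · right
    rw [not_and] at h2
    have h4 := h2 h3
    push Not at h4
    exact h4
  · left; omega

section lower

variable {F : Surf} {α : Fam} {c j x : ℕ} {P Q : List (Side × ℕ)} {x0 : Side}


lemma min_upReg (j a b : ℕ) : min (upReg j a) (upReg j b) = upReg j (min a b) := by
  unfold upReg; split_ifs <;> omega

lemma max_upReg (j a b : ℕ) : max (upReg j a) (upReg j b) = upReg j (max a b) := by
  unfold upReg; split_ifs <;> omega

/-- the key becomes smaller in `α` -/
lemma lower_old (h : α.IsFam0 F) {a : ℕ} (ha : a < α.arcs) (hch : α.changes a)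
    (hk : ¬ Keep α j x a) :
    ¬ (α.del a).punc.Nodup ∧ keyL (α.del a).punc < j * (α.punc.length + 1) + x := by
  obtain ⟨hs, h1⟩ := not_keep hk
  rcases (Fam.changes_iff h ha).1 hch with h2 | h2
  · exact absurd h2 hs
  · exact lt_of_del hs h2.1 h2.2 h1

/-- the key becomes smaller in the new family -/
lemma Dec.lower_new (D : Dec α c j x P Q x0) (h : α.IsFam0 F) {a : ℕ} (ha : a < α.arcs)
    (hch : α.changes a) (hk : ¬ Keep α j x a) :
    ¬ ((insF c j x P Q x0 (Fam.betti α) (Fam.punc α)).del (hat c a)).punc.Nodup ∧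
      keyL ((insF c j x P Q x0 (Fam.betti α) (Fam.punc α)).del (hat c a)).punc < j * (α.punc.length + 1) + x := by
  obtain ⟨hs, h1⟩ := not_keep hk
  have hl : α.punc.length = (insF c j x P Q x0 (Fam.betti α) (Fam.punc α)).punc.length := by unfold insF; simp
  rw [hl]
  rcases (Fam.changes_iff h ha).1 hch with h2 | h2
  · exact absurd h2 hs
  · apply lt_of_del
    · rw [D.selfArc_iff h ha]; exact hs
    · rw [D.reg_arc h ha, D.mem_punc_iff]; exact h2.1
    · rw [D.reg_arc h ha, D.mem_punc_iff]; exact h2.2
    · rw [D.reg_arc h ha, D.reg_arc h ha, min_upReg, max_upReg]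
      rcases h1 with h1 | ⟨h1, y, hy, hyx⟩
      · left
        rw [upReg_of_le h1.le]; exact h1
      · right
        refine ⟨by rw [h1]; simp, y, hy, ?_⟩
        rw [D.punc_getElem? y (by omega), hyx]
        rfl

end lower

end ArcC.Pu
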