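import Mathlib
import Pool.Agent.Lib.MP_e5080e_gt.PunctDel

/-! Deletion of an arc commutes with the insertion of the small loop if the key does not change
(MP_e5080e_gt, JOB P). -/

namespace ArcC.Pu

open ArcC ArcC.Side ArcC.Fam Equiv Equiv.Perm

section nat

variable {r1 r2 j i r : ℕ}

lemma keep_lt (h : r1 = r2 ∨ j ≤ min r1 r2) (hi : i < j) : union r1 r2 r = i ↔ r = i := by
  unfold union
  rcases h with h | h
  · rw [if_pos h]
  · split_ifs <;> omega

lemma keep_j (h : r1 = r2 ∨ j ≤ min r1 r2) : union r1 r2 j = j := by
  unfold union
  rcases h with h | h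
  · rw [if_pos h]
  · split_ifs <;> omega

lemma keep_eq_j (h : r1 = r2 ∨ j ≤ min r1 r2) (hr : union r1 r2 r = j) :
    r = j ∨ (r1 ≠ r2 ∧ min r1 r2 = j ∧ r = max r1 r2) := by
  unfold union at hr
  rcases h with h | h
  · rw [if_pos h] at hr; exact Or.inl hr
  · split_ifs at hr <;> omega

lemma keep_up (h : r1 = r2 ∨ j ≤ min r1 r2) :
    union (upReg j r1) (upReg j r2) (upReg j r) = upReg j (union r1 r2 r) := by
  rcases h with h | h
  · rw [h, Fam.union_self, Fam.union_self]
  · unfold union upReg
    rcases lt_trichotomy r1 r2 with h1 | h1 | h1
    · rw [min_eq_left h1.le] at h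
      split_ifs <;> omega
    · subst h1; simp
    · rw [min_eq_right h1.le] at h
      split_ifs <;> omega

lemma keep_new (h : r1 = r2 ∨ j ≤ min r1 r2) :
    union (upReg j r1) (upReg j r2) (j + 1) = j + 1 := by
  rcases h with h | h
  · rw [h, Fam.union_self]
  · unfold union upReg
    split_ifs <;> omega

end nat

lemma Keep.weak {α : Fam} {j x a : ℕ} (K : Keep α j x a) :
    α.reg (arc a false) = α.reg (arc a true) ∨
      j ≤ min (α.reg (arc a false)) (α.reg (arc a true)) := by
  rcases K with h | h
  · exact Or.inl h
  · exact Or.inr h.1

lemma Top.keep {α : Fam} {j x a : ℕ} (T : Top α.punc j x) (K : Keep α j x a) :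
    Top (α.del a).punc j x where
  low := by
    intro i hi
    rw [punc_del]
    refine le_trans (le_of_eq ?_) (T.low i hi)
    rw [List.count_eq_countP, List.count_eq_countP, List.countP_map]
    apply List.countP_congr
    intro r _
    simp only [Function.comp, beq_iff_eq]
    exact keep_lt K.weak hi
  two := by
    rw [punc_del]
    refine le_trans T.two ?_
    have h1 := List.count_le_count_map (l := α.punc) (f := α.un a) (x := j)
    rwa [un, keep_j K.weak] at h1
  get := by
    rw [punc_del, List.getElem?_map, T.get]
    simp only [Option.map_some, Option.some.injEq]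
    exact keep_j K.weak
  first := by
    intro y hy hyj
    rw [punc_del, List.getElem?_map, Option.map_eq_some_iff] at hyj
    obtain ⟨r, hr, hr2⟩ := hyj
    rcases keep_eq_j K.weak hr2 with h1 | ⟨h1, h2, h3⟩
    · exact T.first y hy (h1 ▸ hr)
    · rcases K with K | K
      · exact h1 K
      · exact K.2 h2 y hy (h3 ▸ hr)

/-- the first ends before the insertion -/
lemma first_prefix {n k c : ℕ} {p q : List Side} {x0 : Side} (h : IsWord n k (p ++ x0 :: q))
    (hc : c = ((p ++ [x0]).filter isFirst).length) :
    (p ++ [x0]).filter isFirst = (List.range c).map (fun a => arc a false) := by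
  have h1 := h.firsts
  have e1 : p ++ x0 :: q = (p ++ [x0]) ++ q := by simp
  rw [e1, List.filter_append] at h1
  have hck : c ≤ k := by
    have := congrArg List.length h1
    simp only [List.length_append, List.length_map, List.length_range] at this
    omega
  have := congrArg (List.take c) h1
  rw [List.take_append_of_le_length hc.le, List.take_of_length_le hc.ge, ← List.map_take,
    List.take_range, min_eq_left hck] at this
  exact this

lemma length_range_filter (c a : ℕ) :
    ((List.range c).filter (fun b => !(b == a))).length = if a < c then c - 1 else c := by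
  induction c with
  | zero => simp
  | succ c ih =>
    rw [List.range_succ, List.filter_append, List.length_append, ih]
    by_cases h1 : c = a
    · subst h1; simp
    · have h2 : (!(c == a)) = true := by simp [h1]
      rw [List.filter_cons_of_pos (p := fun b => !(b == a)) h2]
      simp only [List.filter_nil, List.length_cons, List.length_nil]
      split_ifs <;> omega

/-- the map on labelled sides -/
def delS (α : Fam) (a : ℕ) (l : List (Side × ℕ)) : List (Side × ℕ) :=
  (l.filter (fun s => !(isArc a s.1))).map (fun s => (shift a s.1, α.un a s.2))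

lemma delS_append (α : Fam) (a : ℕ) (l m : List (Side × ℕ)) :
    delS α a (l ++ m) = delS α a l ++ delS α a m := by
  unfold delS; rw [List.filter_append, List.map_append]

lemma delS_map_fst (α : Fam) (a : ℕ) (l : List (Side × ℕ)) :
    (delS α a l).map Prod.fst = ((l.map Prod.fst).filter (fun z => !(isArc a z))).map (shift a) := by
  unfold delS
  rw [List.map_map, List.filter_map, List.map_map]
  rfl

section fam

variable {F : Surf} {α : Fam} {c j x a : ℕ} {P Q : List (Side × ℕ)} {x0 : Side}


/-- the new value of `c` -/
def low (a c : ℕ) : ℕ := if a < c then c - 1 else c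

lemma Dec.x0_not (D : Dec α c j x P Q x0) (h : α.IsFam0 F) (K : Keep α j x a) :
    isArc a x0 = false := by
  by_contra h1
  rw [Bool.not_eq_false] at h1
  cases x0 with
  | pt i => simp at h1
  | arc a' b =>
    have h2 : a' = a := by simpa using h1
    subst h2
    have h3 := first_end h D.sides D.first
    have h4 := reg_eq h.word.nodup D.mem_x0
    have h5 := K.weak
    cases b
    · rw [Bool.not_false] at h3
      omega
    · rw [Bool.not_true] at h3
      omega

theorem Dec.keep (D : Dec α c j x P Q x0) (h : α.IsFam0 F) (K : Keep α j x a)
    (T : Top α.punc j x) :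
    Dec (α.del a) (low a c) j x (delS α a P) (delS α a Q) (shift a x0) where
  sides := by
    have h1 : (α.del a).sides = delS α a α.sides := rfl
    rw [h1, D.sides, delS_append]
    congr 1
    unfold delS
    rw [List.filter_cons_of_pos (by simp [D.x0_not h K]), List.map_cons, un, keep_j K.weak]
  first := by
    intro h1
    obtain ⟨⟨y, r'⟩, h2, h3⟩ := List.mem_map.1 h1
    simp only at h3
    subst h3
    obtain ⟨⟨z, r⟩, h4, h5⟩ := List.mem_map.1 h2
    simp only [Prod.mk.injEq] at h5
    have h6 : r ∈ P.map Prod.snd := List.mem_map.2 ⟨(z, r), (List.mem_filter.1 h4).1, rfl⟩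
    have hcan : Canon α.regs := h.canon
    rw [D.regs] at hcan
    have h7 := canon_lt hcan D.first r h6
    rcases keep_eq_j K.weak h5.2 with h8 | h8
    · omega
    · omega
  count := by
    have h1 : (delS α a P).map Prod.fst ++ [shift a x0] =
        ((P.map Prod.fst ++ [x0]).filter (fun z => !(isArc a z))).map (shift a) := by
      rw [delS_map_fst, List.filter_append, List.map_append]
      congr 1
      rw [List.filter_cons_of_pos (by simp [D.x0_not h K])]
      rfl
    rw [h1, List.filter_map]
    have h2 : (isFirst ∘ shift a) = isFirst := by ext z; simp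
    rw [h2, List.length_map, List.filter_filter]
    have h3 : (P.map Prod.fst ++ [x0]).filter (fun z => isFirst z && !(isArc a z)) =
        ((P.map Prod.fst ++ [x0]).filter isFirst).filter (fun z => !(isArc a z)) := by
      rw [List.filter_filter]
      congr 1; ext z; rw [Bool.and_comm]
    have hw := h.word
    rw [D.word] at hw
    rw [h3, first_prefix hw D.count, List.filter_map, List.length_map]
    exact (length_range_filter c a).symm
  get := (T.keep K).get
  two := (T.keep K).two

lemma shift_hat {z : Side} (hz : isArc a z = false) :
    shift (hat c a) (unshift c z) = unshift (low a c) (shift a z) := by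
  cases z with
  | pt i => simp
  | arc e b =>
    simp only [isArc_arc, beq_eq_false_iff_ne, ne_eq] at hz
    simp only [unshift_arc, shift_arc, arc.injEq, and_true]
    unfold hat low
    split_ifs <;> omega

lemma isArc_hat (z : Side) : isArc (hat c a) (unshift c z) = isArc a z := by
  cases z with
  | pt i => simp
  | arc e b =>
    simp only [unshift_arc, isArc_arc]
    rw [Bool.eq_iff_iff]
    simp only [beq_iff_eq]
    unfold hat
    split_ifs <;> omega

/-- Deletion of an arc commutes with the insertion of the loop. -/
theorem Dec.del_keep (D : Dec α c j x P Q x0) (h : α.IsFam0 F) (K : Keep α j x a)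
    (ha : a < α.arcs) : (insF c j x P Q x0 (Fam.betti α) (Fam.punc α)).del (hat c a) =
      insF (low a c) j x (delS α a P) (delS α a Q) (shift a x0) (α.del a).betti
        (α.del a).punc := by
  have hu : ∀ r, (insF c j x P Q x0 (Fam.betti α) (Fam.punc α)).un (hat c a) (upReg j r) = upReg j (α.un a r) := by
    intro r
    rw [un, D.reg_arc h ha, D.reg_arc h ha, keep_up K.weak]
  have hun : (insF c j x P Q x0 (Fam.betti α) (Fam.punc α)).un (hat c a) (j + 1) = j + 1 := by
    rw [un, D.reg_arc h ha, D.reg_arc h ha, keep_new K.weak]
  have huj : (insF c j x P Q x0 (Fam.betti α) (Fam.punc α)).un (hat c a) j = j := by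
    have := hu j
    rwa [upReg_self, un, un, keep_j K.weak, upReg_self] at this
  have hcomp : (insF c j x P Q x0 (Fam.betti α) (Fam.punc α)).un (hat c a) ∘ upReg j = upReg j ∘ α.un a := funext hu
  apply Fam.ext
  · have h1 : ∀ l : List (Side × ℕ), ((l.map (fun s : Side × ℕ => (unshift c s.1, upReg j s.2))).filter
        (fun s => !(isArc (hat c a) s.1))).map (fun s => (shift (hat c a) s.1,
          (insF c j x P Q x0 (Fam.betti α) (Fam.punc α)).un (hat c a) s.2)) =
        (delS α a l).map (fun s : Side × ℕ => (unshift (low a c) s.1, upReg j s.2)) := by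
      intro l
      unfold delS
      rw [List.filter_map, List.map_map, List.map_map]
      have h2 : ((fun s : Side × ℕ => !(isArc (hat c a) s.1)) ∘
          (fun s : Side × ℕ => (unshift c s.1, upReg j s.2))) =
          (fun s : Side × ℕ => !(isArc a s.1)) := by
        funext s
        simp only [Function.comp, isArc_hat]
      rw [h2]
      apply List.map_congr_left
      rintro ⟨z, r⟩ hz
      have hz2 : isArc a z = false := by simpa using (List.mem_filter.1 hz).2
      simp only [Function.comp, shift_hat hz2, hu]
    have h0 : ((insF c j x P Q x0 (Fam.betti α) (Fam.punc α)).del (hat c a)).sides = ((insF c j x P Q x0 (Fam.betti α) (Fam.punc α)).sides.filter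
        (fun s => !(isArc (hat c a) s.1))).map (fun s => (shift (hat c a) s.1,
          (insF c j x P Q x0 (Fam.betti α) (Fam.punc α)).un (hat c a) s.2)) := rfl
    rw [h0]
    conv_lhs =>
      rw [show (insF c j x P Q x0 (Fam.betti α) (Fam.punc α)).sides = (P ++ [(x0, j)]).map (fun s => (unshift c s.1, upReg j s.2)) ++
        [(arc c false, j + 1), (arc c true, j)] ++
          Q.map (fun s => (unshift c s.1, upReg j s.2)) from rfl]
    rw [List.filter_append, List.filter_append, List.map_append, List.map_append, h1, h1]
    rw [show (insF (low a c) j x (delS α a P) (delS α a Q) (shift a x0) (α.del a).betti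
        (α.del a).punc).sides = (delS α a P ++ [(shift a x0, j)]).map
          (fun s => (unshift (low a c) s.1, upReg j s.2)) ++
        [(arc (low a c) false, j + 1), (arc (low a c) true, j)] ++
          (delS α a Q).map (fun s => (unshift (low a c) s.1, upReg j s.2)) from rfl]
    congr 2
    · rw [delS_append]
      congr 2
      unfold delS
      rw [List.filter_cons_of_pos (by simp [D.x0_not h K]), List.map_cons, un, keep_j K.weak]
      rfl
    · have h3 : ¬ (c = hat c a) := fun h => hat_ne c a h.symm
      have h4 : (if hat c a < c then c - 1 else c) = low a c := by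
        unfold hat low; split_ifs <;> omega
      simp only [List.filter_cons, isArc_arc, beq_eq_false_iff_ne.2 h3, Bool.not_false, if_true,
        List.filter_nil, List.map_cons, List.map_nil, shift_arc, h4]
      rw [hun, huj]
  · have h0 : ((insF c j x P Q x0 (Fam.betti α) (Fam.punc α)).del (hat c a)).betti = (insF c j x P Q x0 (Fam.betti α) (Fam.punc α)).betti.mapDomain ((insF c j x P Q x0 (Fam.betti α) (Fam.punc α)).un (hat c a)) +
      (if (insF c j x P Q x0 (Fam.betti α) (Fam.punc α)).reg (arc (hat c a) false) = (insF c j x P Q x0 (Fam.betti α) (Fam.punc α)).reg (arc (hat c a) true) then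
        Finsupp.single ((insF c j x P Q x0 (Fam.betti α) (Fam.punc α)).reg (arc (hat c a) false)) 1 else 0) := rfl
    have h0' : (α.del a).betti = α.betti.mapDomain (α.un a) +
      (if α.reg (arc a false) = α.reg (arc a true) then
        Finsupp.single (α.reg (arc a false)) 1 else 0) := rfl
    rw [h0, D.reg_arc h ha, D.reg_arc h ha]
    change _ = (α.del a).betti.mapDomain (upReg j)
    rw [h0', Finsupp.mapDomain_add]
    change (α.betti.mapDomain (upReg j)).mapDomain _ + _ = _
    rw [← Finsupp.mapDomain_comp, ← Finsupp.mapDomain_comp, hcomp]
    congr 1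
    by_cases h1 : α.reg (arc a false) = α.reg (arc a true)
    · rw [if_pos h1, if_pos (by rw [h1]), Finsupp.mapDomain_single]
    · rw [if_neg h1, if_neg (fun h => h1 (upReg_inj j h)), Finsupp.mapDomain_zero]
  · change (((α.punc.map (upReg j)).set x (j + 1)).map ((insF c j x P Q x0 (Fam.betti α) (Fam.punc α)).un (hat c a))) =
      (((α.punc.map (α.un a)).map (upReg j)).set x (j + 1))
    rw [List.map_set, List.map_map, List.map_map, hcomp, hun]

end fam

end ArcC.Pu
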