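import Mathlib
import Pool.Agent.Lib.MP_e5080e_gt.PunctKeep
import Pool.Agent.Lib.MP_e5080e_gt.Sq

/-! Claim 2 (JOB P of MP_e5080e_gt): the part of the column in which some region has at least two
punctures is acyclic. -/

namespace ArcC.Pu

open ArcC ArcC.Side ArcC.Fam Equiv Equiv.Perm

/-- `β` is obtained from `α` by cutting off the first puncture of the first region with at least
two punctures, the new arc has the number `c` -/
def IsSig (α : Fam) (c : ℕ) (β : Fam) : Prop :=
  ∃ j x P Q x0, Top α.punc j x ∧ Dec α c j x P Q x0 ∧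
    β = insF c j x P Q x0 α.betti α.punc

lemma dec_unique {α : Fam} {c c' j x : ℕ} {P Q P' Q' : List (Side × ℕ)} {x0 x0' : Side}
    (D : Dec α c j x P Q x0) (D' : Dec α c' j x P' Q' x0') :
    c = c' ∧ P = P' ∧ Q = Q' ∧ x0 = x0' := by
  have key : ∀ P P' Q Q' : List (Side × ℕ), j ∉ P.map Prod.snd → j ∉ P'.map Prod.snd →
      P ++ (x0, j) :: Q = P' ++ (x0', j) :: Q' → P = P' ∧ x0 = x0' ∧ Q = Q' := by
    intro P
    induction P with
    | nil =>
      intro P' Q Q' _ h' h
      cases P' with
      | nil =>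
        simp only [List.nil_append, List.cons.injEq, Prod.mk.injEq, and_true] at h
        exact ⟨rfl, h.1, h.2⟩
      | cons s t =>
        simp only [List.nil_append, List.cons_append, List.cons.injEq] at h
        exfalso
        apply h'
        rw [← h.1]; simp
    | cons s t ih =>
      intro P' Q Q' h0 h' h
      cases P' with
      | nil =>
        simp only [List.nil_append, List.cons_append, List.cons.injEq] at h
        exfalso
        apply h0
        rw [h.1]; simp
      | cons s' t' =>
        simp only [List.cons_append, List.cons.injEq] at h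
        simp only [List.map_cons, List.mem_cons, not_or] at h0 h'
        obtain ⟨h1, h2, h3⟩ := ih t' Q Q' h0.2 h'.2 h.2
        exact ⟨by rw [h.1, h1], h2, h3⟩
  obtain ⟨h1, h2, h3⟩ := key P P' Q Q' D.first D'.first (D.sides.symm.trans D'.sides)
  refine ⟨?_, h1, h3, h2⟩
  rw [D.count, D'.count, h1, h2]

lemma IsSig.unique {α : Fam} {c c' : ℕ} {β β' : Fam} (h : IsSig α c β) (h' : IsSig α c' β') :
    c = c' ∧ β = β' := by
  obtain ⟨j, x, P, Q, x0, T, D, rfl⟩ := h
  obtain ⟨j', x', P', Q', x0', T', D', rfl⟩ := h'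
  obtain ⟨rfl, rfl⟩ := T.unique T'
  obtain ⟨rfl, rfl, rfl, rfl⟩ := dec_unique D D'
  exact ⟨rfl, rfl⟩

lemma exists_isSig {F : Surf} {α : Fam} (h : α.IsFam0 F) (hn : ¬ α.punc.Nodup) :
    ∃ c β, IsSig α c β := by
  obtain ⟨j, x, T⟩ := exists_top hn
  have hj : j ∈ α.regs := h.punc_mem j (List.mem_of_getElem? T.get)
  obtain ⟨P, Q, x0, h1, h2⟩ : ∃ P Q x0, α.sides = P ++ (x0, j) :: Q ∧ j ∉ P.map Prod.snd := by
    unfold Fam.regs at hj
    generalize α.sides = l at hj
    induction l with
    | nil => simp at hj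
    | cons s t ih =>
      obtain ⟨y, r⟩ := s
      by_cases hr : r = j
      · subst hr; exact ⟨[], t, y, rfl, by simp⟩
      · rw [List.map_cons, List.mem_cons] at hj
        rcases hj with hj | hj
        · exact absurd hj.symm hr
        · obtain ⟨P, Q, x0, h1, h2⟩ := ih hj
          refine ⟨(y, r) :: P, Q, x0, by rw [h1]; rfl, ?_⟩
          rw [List.map_cons, List.mem_cons, not_or]
          exact ⟨fun h => hr h.symm, h2⟩
  exact ⟨_, _, j, x, P, Q, x0, T, ⟨h1, h2, rfl, T.get, T.two⟩, rfl⟩

/-- the number of the new arc -/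
noncomputable def cN (α : Fam) : ℕ := by
  classical
  exact if h : ∃ p : ℕ × Fam, IsSig α p.1 p.2 then h.choose.1 else 0

/-- the new family -/
noncomputable def sg (α : Fam) : Fam := by
  classical
  exact if h : ∃ p : ℕ × Fam, IsSig α p.1 p.2 then h.choose.2 else α

lemma IsSig.eq {α : Fam} {c : ℕ} {β : Fam} (h : IsSig α c β) : cN α = c ∧ sg α = β := by
  have h1 : ∃ p : ℕ × Fam, IsSig α p.1 p.2 := ⟨(c, β), h⟩
  unfold cN sg
  rw [dif_pos h1, dif_pos h1]
  exact h1.choose_spec.unique h

section chain

variable {A : Type*} [AddCommGroup A]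

/-- the homotopy -/
noncomputable def S : (Fam →₀ A) →ₗ[ℤ] (Fam →₀ A) :=
  Finsupp.lsum ℤ fun α => (-1 : ℤ) ^ (cN α) • (Finsupp.lsingle (sg α) : A →ₗ[ℤ] _)

lemma S_single (α : Fam) (a : A) :
    S (Finsupp.single α a) = (-1 : ℤ) ^ (cN α) • Finsupp.single (sg α) a := by
  unfold S
  rw [Finsupp.lsum_apply, Finsupp.sum_single_index (by simp)]
  simp

/-- projection to the families with the key `n` -/
noncomputable def proj (n : ℕ) : (Fam →₀ A) →ₗ[ℤ] (Fam →₀ A) := by
  classical
  exact Finsupp.lsum ℤ fun α => if keyL α.punc = n then (Finsupp.lsingle α : A →ₗ[ℤ] _) else 0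

lemma proj_single (n : ℕ) (α : Fam) (a : A) [Decidable (keyL α.punc = n)] :
    proj n (Finsupp.single α a) = if keyL α.punc = n then Finsupp.single α a else 0 := by
  classical
  unfold proj
  rw [Finsupp.lsum_apply, Finsupp.sum_single_index (by split_ifs <;> simp)]
  split_ifs <;> simp

/-- the families in question -/
def TT (F : Surf) (K R n : ℕ) : Set Fam :=
  {α | α.IsFam0 F ∧ α.arcs = K ∧ α.rank = R ∧ ¬ α.punc.Nodup ∧ keyL α.punc < n}

/-- the families in question with the key `n` -/
def TE (F : Surf) (K R n : ℕ) : Set Fam :=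
  {α | α.IsFam0 F ∧ α.arcs = K ∧ α.rank = R ∧ ¬ α.punc.Nodup ∧ keyL α.punc = n}

/-- linear maps and supports -/
lemma map_mem_supported {X Y : Set Fam} (Φ : (Fam →₀ A) →ₗ[ℤ] (Fam →₀ A))
    (hΦ : ∀ α ∈ X, ∀ a : A, Φ (Finsupp.single α a) ∈ Finsupp.supported A ℤ Y)
    {z : Fam →₀ A} (hz : z ∈ Finsupp.supported A ℤ X) : Φ z ∈ Finsupp.supported A ℤ Y := by
  have h1 : z = ∑ α ∈ z.support, Finsupp.single α (z α) := (Finsupp.sum_single z).symm
  rw [h1, map_sum]
  apply Submodule.sum_mem
  intro α hα
  exact hΦ α (hz hα) _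

lemma sum_range_hat {M : Type*} [AddCommMonoid M] {c K : ℕ} (hc : c ≤ K) (f : ℕ → M) :
    ∑ e ∈ Finset.range (K + 1), f e = f c + ∑ a ∈ Finset.range K, f (hat c a) := by
  classical
  have h1 : Finset.range (K + 1) = insert c ((Finset.range K).image (hat c)) := by
    ext e
    rw [Finset.mem_range, Finset.mem_insert, Finset.mem_image]
    constructor
    · intro he
      by_cases h : e = c
      · exact Or.inl h
      · right
        refine ⟨if e < c then e else e - 1, ?_, ?_⟩
        · rw [Finset.mem_range]; split_ifs <;> omega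
        · unfold hat; split_ifs <;> omega
    · rintro (h | ⟨a, ha, rfl⟩)
      · omega
      · rw [Finset.mem_range] at ha
        unfold hat; split_ifs <;> omega
  rw [h1, Finset.sum_insert, Finset.sum_image]
  · intro a _ b _ h
    exact hat_inj c h
  · rw [Finset.mem_image]
    rintro ⟨a, _, h⟩
    exact hat_ne c a h

lemma sign_keep (c a : ℕ) :
    (-1 : ℤ) ^ c * (-1) ^ (hat c a) + (-1) ^ a * (-1) ^ (low a c) = 0 := by
  unfold hat low
  by_cases h : a < c
  · rw [if_pos h, if_pos h]
    obtain ⟨m, rfl⟩ : ∃ m, c = m + 1 := ⟨c - 1, by omega⟩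
    simp only [Nat.add_sub_cancel]
    ring
  · rw [if_neg h, if_neg h]
    ring

/-- the key does not increase -/
lemma key_del_le {F : Surf} {α : Fam} (h : α.IsFam0 F) (hn : ¬ α.punc.Nodup) {a : ℕ}
    (ha : a < α.arcs) (hch : α.changes a) :
    ¬ (α.del a).punc.Nodup ∧ keyL (α.del a).punc ≤ keyL α.punc := by
  obtain ⟨j, x, T⟩ := exists_top hn
  rw [T.keyL]
  by_cases K : Keep α j x a
  · have T' := T.keep K
    refine ⟨T'.not_nodup, ?_⟩
    rw [T'.keyL, punc_del, List.length_map]
  · obtain ⟨h1, h2⟩ := lower_old h ha hch K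
    exact ⟨h1, h2.le⟩

/-- the main computation -/
lemma homotopy_single {F : Surf} {K R n : ℕ} {α : Fam} (hα : α ∈ TE F K R n) (a : A) :
    fbd A Fam.changes (S (Finsupp.single α a)) +
      S (proj n (fbd A Fam.changes (Finsupp.single α a))) - Finsupp.single α a ∈
        Finsupp.supported A ℤ (TT F K R n) := by
  classical
  obtain ⟨h, hK, hR, hn, hkey⟩ := hα
  obtain ⟨c, β, hs⟩ := exists_isSig h hn
  obtain ⟨e1, e2⟩ := hs.eq
  obtain ⟨j, x, P, Q, x0, T, D, hβ⟩ := hs
  have hβF : β.IsFam0 F := by rw [hβ]; exact D.isFam0 h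
  have hβa : β.arcs = α.arcs + 1 := by rw [hβ]; exact D.arcs h
  have hβr : β.rank + 1 = α.rank := by rw [hβ]; exact D.rank h
  have hβd : β.del c = α := by rw [hβ]; exact D.del_new h
  have hβc : β.changes c := by rw [hβ]; exact D.changes_new h
  have hβch : ∀ e < α.arcs, (β.changes (hat c e) ↔ α.changes e) := by
    intro e he
    rw [hβ]; exact D.changes_iff h he
  rw [S_single, e1, e2, map_smul, Sq.fbd_single, hβa, sum_range_hat D.c_le, if_pos hβc, hβd,
    Sq.fbd_single, map_sum, map_sum, smul_add, smul_smul]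
  have hsq : (-1 : ℤ) ^ c * (-1) ^ c = 1 := by
    rw [← pow_add, ← two_mul, pow_mul]; simp
  rw [hsq, one_smul, Finset.smul_sum]
  have e3 : ∀ u v w : Fam →₀ A, u + v + w - u = v + w := by intro u v w; abel
  rw [e3, ← Finset.sum_add_distrib]
  apply Submodule.sum_mem
  intro e he
  rw [Finset.mem_range] at he
  by_cases hch : α.changes e
  · rw [if_pos ((hβch e he).2 hch), if_pos hch, map_smul, map_smul, proj_single]
    by_cases Kp : Keep α j x e
    · have T' := T.keep Kp
      have hk : keyL (α.del e).punc = n := by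
        rw [T'.keyL, punc_del, List.length_map, ← hkey, T.keyL]
      have hsig : IsSig (α.del e) (low e c) (β.del (hat c e)) := by
        refine ⟨j, x, _, _, _, T', D.keep h Kp T, ?_⟩
        rw [hβ]; exact D.del_keep h Kp he
      obtain ⟨f1, f2⟩ := hsig.eq
      rw [if_pos hk, S_single, f1, f2, smul_smul, smul_smul, ← add_smul, sign_keep, zero_smul]
      exact Submodule.zero_mem _
    · obtain ⟨g1, g2⟩ := lower_old h he hch Kp
      rw [← T.keyL, hkey] at g2
      rw [if_neg g2.ne, map_zero, smul_zero, add_zero]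
      apply Submodule.smul_mem
      apply Submodule.smul_mem
      apply Finsupp.single_mem_supported
      have hlt : hat c e < β.arcs := by
        rw [hβa]; unfold hat; split_ifs <;> omega
      obtain ⟨g3, g4⟩ := D.lower_new h he hch Kp
      rw [← hβ] at g3 g4
      rw [← T.keyL, hkey] at g4
      refine ⟨hβF.del hlt, ?_, ?_, g3, g4⟩
      · have := Fam.arcs_del hβF hlt
        omega
      · have := (Sq.changes_iff hβF hlt).1 ((hβch e he).2 hch)
        omega
  · rw [if_neg (fun h1 => hch ((hβch e he).1 h1)), if_neg hch, map_zero, map_zero, smul_zero,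
      add_zero]
    exact Submodule.zero_mem _

lemma S_mem_supported {F : Surf} {K R n : ℕ} {z : Fam →₀ A}
    (hz : z ∈ Finsupp.supported A ℤ (TE F K R n)) :
    S z ∈ Finsupp.supported A ℤ {α : Fam | α.IsFam0 F ∧ α.arcs = K + 1 ∧ α.rank + 1 = R} := by
  apply map_mem_supported S _ hz
  rintro α ⟨h, hK, hR, hn, hkey⟩ a
  obtain ⟨c, β, hs⟩ := exists_isSig h hn
  obtain ⟨e1, e2⟩ := hs.eq
  obtain ⟨j, x, P, Q, x0, T, D, hβ⟩ := hs
  rw [S_single, e2]
  apply Submodule.smul_mem
  apply Finsupp.single_mem_supported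
  rw [hβ]
  exact ⟨D.isFam0 h, by rw [D.arcs h, hK], by rw [D.rank h, hR]⟩

lemma aux (F : Surf) (K R : ℕ) : ∀ (n : ℕ) (u : Fam →₀ A),
    u ∈ Finsupp.supported A ℤ (TT F K R n) → fbd A Fam.changes u = 0 →
    ∃ y ∈ Finsupp.supported A ℤ {α : Fam | α.IsFam0 F ∧ α.arcs = K + 1 ∧ α.rank + 1 = R},
      fbd A Fam.changes y = u := by
  classical
  intro n
  induction n with
  | zero =>
    intro u hu _
    refine ⟨0, Submodule.zero_mem _, ?_⟩
    have h1 : TT F K R 0 = ∅ := by
      ext α
      simp [TT]
    rw [h1, Finsupp.supported_empty, Submodule.mem_bot] at hu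
    rw [hu, map_zero]
  | succ n ih =>
    intro u hu hd
    -- the part with the key n
    have hv : proj n u ∈ Finsupp.supported A ℤ (TE F K R n) := by
      apply map_mem_supported _ _ hu
      rintro α ⟨h, hK, hR, hn, hkey⟩ a
      rw [proj_single]
      split_ifs with h1
      · exact Finsupp.single_mem_supported _ _ ⟨h, hK, hR, hn, h1⟩
      · exact Submodule.zero_mem _
    have hw : u - proj n u ∈ Finsupp.supported A ℤ (TT F K R n) := by
      have := map_mem_supported (X := TT F K R (n + 1)) (Y := TT F K R n)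
        ((LinearMap.id : (Fam →₀ A) →ₗ[ℤ] (Fam →₀ A)) - proj n) ?_ hu
      · simpa using this
      · rintro α ⟨h, hK, hR, hn, hkey⟩ a
        rw [LinearMap.sub_apply, LinearMap.id_apply, proj_single]
        split_ifs with h1
        · rw [sub_self]; exact Submodule.zero_mem _
        · rw [sub_zero]
          exact Finsupp.single_mem_supported _ _ ⟨h, hK, hR, hn, by omega⟩
    -- the boundary has no part with the key n
    have hpw : proj n (fbd A Fam.changes (u - proj n u)) = 0 := by
      have h1 := map_mem_supported (X := TT F K R n) (Y := ∅)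
        ((proj n).comp (fbd A Fam.changes)) ?_ hw
      · rw [Finsupp.supported_empty, Submodule.mem_bot] at h1
        exact h1
      · rintro α ⟨h, hK, hR, hn, hkey⟩ a
        rw [LinearMap.comp_apply, Sq.fbd_single, map_sum]
        apply Submodule.sum_mem
        intro e he
        rw [Finset.mem_range] at he
        split_ifs with hch
        · rw [map_smul, proj_single, if_neg, smul_zero]
          · exact Submodule.zero_mem _
          · have := (key_del_le h hn he hch).2
            omega
        · rw [map_zero]; exact Submodule.zero_mem _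
    have hpv : proj n (fbd A Fam.changes (proj n u)) = 0 := by
      have h1 : proj n u = u - (u - proj n u) := by abel
      rw [h1, map_sub, map_sub, hpw, hd, map_zero, sub_zero]
    -- the homotopy
    have hh : fbd A Fam.changes (S (proj n u)) - proj n u ∈
        Finsupp.supported A ℤ (TT F K R n) := by
      have h1 := map_mem_supported (X := TE F K R n) (Y := TT F K R n)
        ((fbd A Fam.changes).comp S + S.comp ((proj n).comp (fbd A Fam.changes)) -
          LinearMap.id) ?_ hv
      · simp only [LinearMap.sub_apply, LinearMap.add_apply, LinearMap.comp_apply,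
          LinearMap.id_apply] at h1
        rw [hpv, map_zero, add_zero] at h1
        exact h1
      · intro α hα a
        simp only [LinearMap.sub_apply, LinearMap.add_apply, LinearMap.comp_apply,
          LinearMap.id_apply]
        exact homotopy_single hα a
    have hS := S_mem_supported hv
    have hu' : u - fbd A Fam.changes (S (proj n u)) ∈ Finsupp.supported A ℤ (TT F K R n) := by
      have h1 : u - fbd A Fam.changes (S (proj n u)) =
          (u - proj n u) - (fbd A Fam.changes (S (proj n u)) - proj n u) := by abel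
      rw [h1]
      exact Submodule.sub_mem _ hw hh
    have hd' : fbd A Fam.changes (u - fbd A Fam.changes (S (proj n u))) = 0 := by
      rw [map_sub, hd, zero_sub, neg_eq_zero]
      apply Sq.fbd_sq (F := F)
      intro α hα
      exact (hS hα).1
    obtain ⟨y, hy, hy2⟩ := ih _ hu' hd'
    refine ⟨y + S (proj n u), Submodule.add_mem _ hy hS, ?_⟩
    rw [map_add, hy2, sub_add_cancel]

end chain

end ArcC.Pu

namespace ArcC

/-- Claim 2: the families with a region containing at least two punctures form an acyclic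
complex. -/
theorem claim2 {A : Type*} [AddCommGroup A] (F : Surf) (K R : ℕ) (u : Fam →₀ A)
    (hu : ∀ α ∈ u.support, α.IsFam0 F ∧ α.arcs = K ∧ α.rank = R ∧ ¬ α.punc.Nodup)
    (hd : fbd A Fam.changes u = 0) :
    ∃ y : Fam →₀ A, (∀ α ∈ y.support, α.IsFam0 F ∧ α.arcs = K + 1 ∧ α.rank + 1 = R) ∧
      fbd A Fam.changes y = u := by
  obtain ⟨n, hn⟩ : ∃ n, ∀ α ∈ u.support, Pu.keyL α.punc < n := by
    refine ⟨(u.support.sup fun α => Pu.keyL α.punc) + 1, fun α hα => ?_⟩
    have := Finset.le_sup (f := fun α : Fam => Pu.keyL α.punc) hα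
    exact Nat.lt_succ_of_le this
  obtain ⟨y, hy, hy2⟩ := Pu.aux F K R n u (by
    intro α hα
    obtain ⟨h1, h2, h3, h4⟩ := hu α hα
    exact ⟨h1, h2, h3, h4, hn α hα⟩) hd
  exact ⟨y, fun α hα => hy hα, hy2⟩

end ArcC
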