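import Mathlib
import Pool.Agent.Lib.MP_e5080e_gt.Codes
import Pool.Agent.Lib.MP_e5080e_gt.Defs
import Pool.Agent.Lib.MP_e5080e_gt.Ncyc

/-! Codes of chord diagrams and words. -/

namespace ArcC

open Equiv Code Side

/-- renaming used for `emp` -/
def up : Side → Side
  | pt j => pt (j + 1)
  | arc a b => arc a b

/-- renaming used for `ch i` -/
def ren (i : ℕ) : Side → Side
  | pt j => if j = 0 then arc 0 false else if j = i + 1 then arc 0 true
      else if j ≤ i then pt j else pt (j - 1)
  | arc a b => arc (a + 1) b

/-- the word of a code -/
def enc : Code → List Side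
  | .nil => []
  | .emp N => pt 0 :: (enc N).map up
  | .ch i N => pt 0 :: (enc N).map (ren i)

lemma up_injective : Function.Injective up := by
  intro x y h
  cases x <;> cases y <;> simp_all [up]

lemma ren_pt_zero (i : ℕ) : ren i (pt 0) = arc 0 false := by simp [ren]
lemma ren_pt_succ (i : ℕ) : ren i (pt (i + 1)) = arc 0 true := by simp [ren]
lemma ren_pt_le {i j : ℕ} (h0 : j ≠ 0) (h : j ≤ i) : ren i (pt j) = pt j := by
  have : j ≠ i + 1 := by omega
  simp [ren, h0, this, h]
lemma ren_pt_gt {i j : ℕ} (h : i + 1 < j) : ren i (pt j) = pt (j - 1) := by
  have h1 : j ≠ 0 := by omega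
  have h2 : j ≠ i + 1 := by omega
  have h3 : ¬ j ≤ i := by omega
  simp [ren, h1, h2, h3]
lemma ren_arc (i a : ℕ) (b : Bool) : ren i (arc a b) = arc (a + 1) b := rfl

/-- case distinction for points -/
lemma pt_cases (i j : ℕ) : j = 0 ∨ j = i + 1 ∨ (j ≠ 0 ∧ j ≤ i) ∨ i + 1 < j := by omega

lemma ren_injective (i : ℕ) : Function.Injective (ren i) := by
  intro x y h
  rcases x with j | ⟨a, b⟩ <;> rcases y with j' | ⟨a', b'⟩
  · rcases pt_cases i j with h1 | h1 | h1 | h1 <;> rcases pt_cases i j' with h2 | h2 | h2 | h2
    · rw [h1, h2]
    · rw [h1, h2, ren_pt_zero, ren_pt_succ] at h; simp at h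
    · rw [h1, ren_pt_zero, ren_pt_le h2.1 h2.2] at h; simp at h
    · rw [h1, ren_pt_zero, ren_pt_gt h2] at h; simp at h
    · rw [h1, h2, ren_pt_zero, ren_pt_succ] at h; simp at h
    · rw [h1, h2]
    · rw [h1, ren_pt_succ, ren_pt_le h2.1 h2.2] at h; simp at h
    · rw [h1, ren_pt_succ, ren_pt_gt h2] at h; simp at h
    · rw [h2, ren_pt_zero, ren_pt_le h1.1 h1.2] at h; simp at h
    · rw [h2, ren_pt_succ, ren_pt_le h1.1 h1.2] at h; simp at h
    · rw [ren_pt_le h1.1 h1.2, ren_pt_le h2.1 h2.2] at h; exact h
    · rw [ren_pt_le h1.1 h1.2, ren_pt_gt h2] at h
      simp only [pt.injEq] at h; omega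
    · rw [h2, ren_pt_zero, ren_pt_gt h1] at h; simp at h
    · rw [h2, ren_pt_succ, ren_pt_gt h1] at h; simp at h
    · rw [ren_pt_le h2.1 h2.2, ren_pt_gt h1] at h
      simp only [pt.injEq] at h; omega
    · rw [ren_pt_gt h1, ren_pt_gt h2] at h
      simp only [pt.injEq] at h ⊢; omega
  · exfalso
    rcases pt_cases i j with h1 | h1 | h1 | h1
    · rw [h1, ren_pt_zero, ren_arc] at h; simp at h
    · rw [h1, ren_pt_succ, ren_arc] at h; simp at h
    · rw [ren_pt_le h1.1 h1.2, ren_arc] at h; simp at h
    · rw [ren_pt_gt h1, ren_arc] at h; simp at h
  · exfalso
    rcases pt_cases i j' with h1 | h1 | h1 | h1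
    · rw [h1, ren_pt_zero, ren_arc] at h; simp at h
    · rw [h1, ren_pt_succ, ren_arc] at h; simp at h
    · rw [ren_pt_le h1.1 h1.2, ren_arc] at h; simp at h
    · rw [ren_pt_gt h1, ren_arc] at h; simp at h
  · simpa [ren_arc] using h

lemma up_ne (x : Side) : up x ≠ pt 0 := by
  cases x <;> simp [up]

lemma ren_ne (i : ℕ) (x : Side) : ren i x ≠ pt 0 := by
  rcases x with j | ⟨a, b⟩
  · rcases pt_cases i j with h1 | h1 | h1 | h1
    · rw [h1, ren_pt_zero]; simp
    · rw [h1, ren_pt_succ]; simp
    · rw [ren_pt_le h1.1 h1.2]; simp [h1.1]
    · rw [ren_pt_gt h1]; simp; omega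
  · simp [ren_arc]

lemma isWord_cons {n k : ℕ} {w : List Side} (h : IsWord n k w) :
    ∃ t, w = pt 0 :: t ∧ pt 0 ∉ t := by
  cases w with
  | nil => have := h.head; simp at this
  | cons x t =>
    have h1 := h.head
    simp only [List.head?_cons, Option.some.injEq] at h1
    subst h1
    exact ⟨t, rfl, (List.nodup_cons.mp h.nodup).1⟩

lemma isWord_pos {n k : ℕ} {w : List Side} (h : IsWord n k w) : 0 < n := by
  obtain ⟨t, rfl, _⟩ := isWord_cons h
  have h1 := h.pts
  by_contra hn
  have : n = 0 := by omega
  subst this
  simp [isPt] at h1

lemma isWord_pt_mem {n k : ℕ} {w : List Side} (h : IsWord n k w) (j : ℕ) : pt j ∈ w ↔ j < n := by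
  have h1 : pt j ∈ w.filter isPt ↔ pt j ∈ w := by simp [isPt]
  rw [← h1, h.pts]
  simp

lemma isWord_one : IsWord 1 0 [pt 0] where
  nodup := by simp
  head := rfl
  pts := by simp [isPt]
  firsts := by simp [isFirst]
  mem := by simp
  mates := by intro a ha; omega

lemma isWord_up {n k : ℕ} {w : List Side} (h : IsWord n k w) :
    IsWord (n + 1) k (pt 0 :: w.map up) where
  nodup := by
    rw [List.nodup_cons]
    refine ⟨fun hm => ?_, h.nodup.map up_injective⟩
    obtain ⟨x, _, hx⟩ := List.mem_map.mp hm
    exact up_ne x hx
  head := rfl
  pts := by
    have h1 : (isPt ∘ up) = isPt := by funext x; cases x <;> rfl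
    rw [List.filter_cons_of_pos (by rfl), List.filter_map, h1, h.pts, List.map_map,
      List.range_succ_eq_map, List.map_cons, List.map_map]
    rfl
  firsts := by
    have h1 : (isFirst ∘ up) = isFirst := by funext x; cases x <;> rfl
    rw [List.filter_cons_of_neg (by simp [isFirst]), List.filter_map, h1, h.firsts, List.map_map]
    rfl
  mem := by
    intro a b
    rw [← h.mem a b]
    constructor
    · intro hm
      rcases List.mem_cons.mp hm with h1 | h1
      · simp at h1
      · obtain ⟨x, hx, hxe⟩ := List.mem_map.mp h1
        cases x with
        | pt j => simp [up] at hxe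
        | arc a' b' => simp only [up] at hxe; rw [← hxe]; exact hx
    · intro hm
      exact List.mem_cons_of_mem _ (List.mem_map.mpr ⟨_, hm, rfl⟩)
  mates := by
    intro a ha
    have := (h.mates a ha).map up
    exact this.trans (List.sublist_cons_self _ _)

lemma filter_ren_range (n i : ℕ) (hi : i ≤ n) :
    (((List.range (n + 2)).map pt).filter (isPt ∘ ren i)).map (ren i) =
      (List.range n).map (fun j => pt (j + 1)) := by
  obtain ⟨m, rfl⟩ := Nat.exists_eq_add_of_le hi
  have h1 : List.range (i + m + 2) =
      0 :: ((List.range i).map (fun j => j + 1) ++ ((i + 1) :: (List.range m).map (fun j => j + (i + 2)))) := by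
    rw [List.range_succ_eq_map]
    congr 1
    have h2 : i + m + 1 = i + (m + 1) := by ring
    rw [h2, List.range_add, List.map_append]
    congr 1
    rw [List.range_succ_eq_map, List.map_cons, List.map_cons]
    congr 1
    rw [List.map_map, List.map_map]
    apply List.map_congr_left
    intro j _
    simp only [Function.comp_apply, Nat.succ_eq_add_one]
    omega
  rw [h1]
  simp only [List.map_cons, List.map_append, List.map_map]
  rw [List.filter_cons_of_neg (by simp [ren_pt_zero, isPt]), List.filter_append,
    List.filter_cons_of_neg (by simp [ren_pt_succ, isPt])]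
  have h3 : ((List.range i).map (pt ∘ fun j => j + 1)).filter (isPt ∘ ren i) =
      (List.range i).map (pt ∘ fun j => j + 1) := by
    rw [List.filter_eq_self]
    intro x hx
    obtain ⟨j, hj, rfl⟩ := List.mem_map.mp hx
    rw [List.mem_range] at hj
    simp only [Function.comp_apply]
    rw [ren_pt_le (by omega) (by omega)]
    rfl
  have h4 : ((List.range m).map (pt ∘ fun j => j + (i + 2))).filter (isPt ∘ ren i) =
      (List.range m).map (pt ∘ fun j => j + (i + 2)) := by
    rw [List.filter_eq_self]
    intro x hx
    obtain ⟨j, hj, rfl⟩ := List.mem_map.mp hx
    simp only [Function.comp_apply]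
    rw [ren_pt_gt (by omega)]
    rfl
  rw [h3, h4, List.map_append, List.map_map, List.map_map, List.range_add, List.map_append,
    List.map_map]
  congr 1
  · apply List.map_congr_left
    intro j hj
    rw [List.mem_range] at hj
    simp only [Function.comp_apply]
    rw [ren_pt_le (by omega) (by omega)]
  · apply List.map_congr_left
    intro j hj
    simp only [Function.comp_apply]
    rw [ren_pt_gt (by omega)]
    congr 1
    omega

lemma isWord_ren {n k i : ℕ} {w : List Side} (h : IsWord (n + 2) k w) (hi : i ≤ n) :
    IsWord (n + 1) (k + 1) (pt 0 :: w.map (ren i)) where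
  nodup := by
    rw [List.nodup_cons]
    refine ⟨fun hm => ?_, h.nodup.map (ren_injective i)⟩
    obtain ⟨x, _, hx⟩ := List.mem_map.mp hm
    exact ren_ne i x hx
  head := rfl
  pts := by
    have h1 : w.filter (isPt ∘ ren i) = (w.filter isPt).filter (isPt ∘ ren i) := by
      rw [List.filter_filter]
      apply List.filter_congr
      intro x _
      rcases x with j | ⟨a, b⟩
      · simp [isPt]
      · simp [isPt, ren_arc]
    rw [List.filter_cons_of_pos (by rfl), List.filter_map, h1, h.pts, filter_ren_range n i hi,
      List.range_succ_eq_map, List.map_cons, List.map_map]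
    rfl
  firsts := by
    obtain ⟨t, rfl, ht⟩ := isWord_cons h
    rw [List.filter_cons_of_neg (by simp [isFirst]), List.map_cons, ren_pt_zero,
      List.filter_cons_of_pos (by rfl), List.filter_map]
    have h1 : t.filter (isFirst ∘ ren i) = t.filter isFirst := by
      apply List.filter_congr
      intro x hx
      rcases x with j | ⟨a, b⟩
      · simp only [Function.comp_apply]
        rcases pt_cases i j with h1 | h1 | h1 | h1
        · subst h1; exact absurd hx ht
        · rw [h1, ren_pt_succ]; rfl
        · rw [ren_pt_le h1.1 h1.2]
        · rw [ren_pt_gt h1]; rfl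
      · rfl
    have h2 := h.firsts
    rw [List.filter_cons_of_neg (by simp [isFirst])] at h2
    rw [h1, h2, List.map_map, List.range_succ_eq_map, List.map_cons, List.map_map]
    rfl
  mem := by
    intro a b
    rw [List.mem_cons, List.mem_map]
    constructor
    · rintro (h1 | ⟨x, hx, hxe⟩)
      · simp at h1
      · rcases x with j | ⟨a', b'⟩
        · rcases pt_cases i j with h1 | h1 | h1 | h1
          · rw [h1, ren_pt_zero] at hxe
            simp only [arc.injEq] at hxe; omega
          · rw [h1, ren_pt_succ] at hxe
            simp only [arc.injEq] at hxe; omega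
          · rw [ren_pt_le h1.1 h1.2] at hxe; simp at hxe
          · rw [ren_pt_gt h1] at hxe; simp at hxe
        · rw [ren_arc] at hxe
          simp only [arc.injEq] at hxe
          have := (h.mem a' b').mp hx
          omega
    · intro ha
      right
      cases a with
      | zero =>
        cases b with
        | false => exact ⟨pt 0, (isWord_pt_mem h 0).mpr (by omega), ren_pt_zero i⟩
        | true => exact ⟨pt (i + 1), (isWord_pt_mem h (i + 1)).mpr (by omega), ren_pt_succ i⟩
      | succ a => exact ⟨arc a b, (h.mem a b).mpr (by omega), rfl⟩
  mates := by
    intro a ha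
    refine List.Sublist.trans ?_ (List.sublist_cons_self _ _)
    cases a with
    | zero =>
      obtain ⟨t, rfl, ht⟩ := isWord_cons h
      rw [List.map_cons, ren_pt_zero]
      apply List.Sublist.cons_cons
      rw [List.singleton_sublist, List.mem_map]
      refine ⟨pt (i + 1), ?_, ren_pt_succ i⟩
      have := (isWord_pt_mem h (i + 1)).mpr (by omega)
      simpa using this
    | succ a => exact (h.mates a (by omega)).map (ren i)

theorem enc_isWord {n : ℕ} {N : Code} (hn : 0 < n) (h : wf n N) : IsWord n (kk N) (enc N) := by
  induction N generalizing n with
  | nil => cases n with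
    | zero => omega
    | succ n => exact absurd h (by simp [wf])
  | emp N ih => cases n with
    | zero => omega
    | succ n =>
      rcases Nat.eq_zero_or_pos n with h0 | h0
      · subst h0
        cases N with
        | nil => exact isWord_one
        | emp N => exact absurd h (by simp [wf])
        | ch i N => exact absurd h (by simp [wf])
      · exact isWord_up (ih h0 h)
  | ch i N ih => cases n with
    | zero => omega
    | succ n => exact isWord_ren (ih (by omega) h.2) h.1

/-! ### deletion of chords -/

/-- renaming of the points when the words `i` and `i + 1` are concatenated -/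
def gm (i : ℕ) : Side → Side
  | pt j => if j ≤ i then pt j else pt (j - 1)
  | arc a b => arc a b

lemma gm_le {i j : ℕ} (h : j ≤ i) : gm i (pt j) = pt j := by simp [gm, h]
lemma gm_gt {i j : ℕ} (h : i < j) : gm i (pt j) = pt (j - 1) := by
  have : ¬ j ≤ i := by omega
  simp [gm, this]
lemma gm_arc (i a : ℕ) (b : Bool) : gm i (arc a b) = arc a b := rfl

lemma filter_ne_self {t : List Side} {x : Side} (h : x ∉ t) :
    t.filter (fun y => decide (y ≠ x)) = t := by
  rw [List.filter_eq_self]
  intro y hy
  rw [decide_eq_true_eq]
  rintro rfl
  exact h hy

lemma enc_merge {n : ℕ} {N : Code} {i : ℕ} (h : wf n N) (hi : i + 1 < n) :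
    enc (merge i N) = ((enc N).filter (fun x => decide (x ≠ pt (i + 1)))).map (gm i) := by
  induction N generalizing n i with
  | nil => simp [merge, enc]
  | emp N ih =>
    cases n with
    | zero => omega
    | succ n =>
      cases i with
      | zero =>
        have hw := enc_isWord (n := n) (by omega) h
        obtain ⟨t, ht, ht0⟩ := isWord_cons hw
        have hup : (t.map up).filter (fun x => decide (x ≠ pt 1)) = t.map up := by
          apply filter_ne_self
          intro hm
          obtain ⟨x, hx, hxe⟩ := List.mem_map.mp hm
          rcases x with j | ⟨a, b⟩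
          · simp only [up, pt.injEq] at hxe
            have : j = 0 := by omega
            subst this
            exact ht0 hx
          · simp [up] at hxe
        have h1 : enc (merge 0 (emp N)) = enc N := rfl
        rw [h1]
        simp only [enc]
        rw [ht, List.map_cons, List.filter_cons_of_pos (by simp),
          List.filter_cons_of_neg (by simp [up]), hup, List.map_cons, List.map_map, gm_le le_rfl]
        congr 1
        symm
        rw [List.map_congr_left (g := id), List.map_id]
        intro x hx
        rcases x with j | ⟨a, b⟩
        · simp only [Function.comp_apply, up, id]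
          rw [gm_gt (by omega)]; rfl
        · rfl
      | succ i =>
        have h1 : enc (merge (i + 1) (emp N)) = pt 0 :: (enc (merge i N)).map up := rfl
        rw [h1, ih h (by omega)]
        simp only [enc]
        rw [List.filter_cons_of_pos (by simp), List.map_cons, gm_le (by omega)]
        congr 1
        rw [List.filter_map, List.map_map, List.map_map]
        have h2 : ((fun x => decide (x ≠ pt (i + 1 + 1))) ∘ up) =
            (fun x => decide (x ≠ pt (i + 1))) := by
          funext x
          rcases x with j | ⟨a, b⟩ <;> simp [up]
        rw [h2]
        apply List.map_congr_left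
        intro x _
        rcases x with j | ⟨a, b⟩
        · simp only [Function.comp_apply]
          by_cases hj : j ≤ i
          · rw [gm_le hj]; simp only [up]; rw [gm_le (by omega)]
          · rw [gm_gt (by omega)]; simp only [up]; rw [gm_gt (by omega)]
            congr 1; omega
        · rfl
  | ch j N ih =>
    cases n with
    | zero => omega
    | succ n =>
      obtain ⟨hj, hN⟩ := h
      by_cases hji : j ≤ i
      · have h1 : merge i (ch j N) = ch j (merge (i + 1) N) := by
          cases i <;> simp [merge, hji]
        rw [h1]
        simp only [enc]
        rw [ih hN (by omega), List.filter_cons_of_pos (by simp), List.map_cons,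
          gm_le (by omega)]
        congr 1
        rw [List.filter_map, List.map_map, List.map_map]
        have h2 : ((fun x => decide (x ≠ pt (i + 1))) ∘ ren j) =
            (fun x => decide (x ≠ pt (i + 1 + 1))) := by
          funext x
          have h3 : ren j (pt (i + 2)) = pt (i + 1) := by rw [ren_pt_gt (by omega)]; rfl
          simp only [Function.comp_apply]
          rw [← h3, decide_eq_decide, (ren_injective j).ne_iff]
        rw [h2]
        apply List.map_congr_left
        intro x hx
        have hx2 : x ≠ pt (i + 1 + 1) := by
          have := (List.mem_filter.mp hx).2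
          simpa using this
        rcases x with m | ⟨a, b⟩
        · simp only [Function.comp_apply]
          have hm : m ≠ i + 1 + 1 := fun h => hx2 (by rw [h])
          rcases pt_cases j m with h3 | h3 | h3 | h3
          · rw [h3, gm_le (by omega), ren_pt_zero, gm_arc]
          · rw [h3, gm_le (by omega), ren_pt_succ, gm_arc]
          · rw [gm_le (by omega), ren_pt_le h3.1 h3.2, gm_le (by omega)]
          · by_cases h4 : m ≤ i + 1
            · rw [gm_le h4, ren_pt_gt h3, gm_le (by omega)]
            · rw [gm_gt (by omega), ren_pt_gt (by omega), ren_pt_gt h3, gm_gt (by omega)]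
        · rfl
      · have h1 : merge i (ch j N) = ch (j - 1) (merge i N) := by
          cases i <;> simp [merge, hji]
        rw [h1]
        simp only [enc]
        rw [ih hN (by omega), List.filter_cons_of_pos (by simp), List.map_cons,
          gm_le (by omega)]
        congr 1
        rw [List.filter_map, List.map_map, List.map_map]
        have h2 : ((fun x => decide (x ≠ pt (i + 1))) ∘ ren j) =
            (fun x => decide (x ≠ pt (i + 1))) := by
          funext x
          have h3 : ren j (pt (i + 1)) = pt (i + 1) := ren_pt_le (by omega) (by omega)
          simp only [Function.comp_apply]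
          conv_lhs => rw [← h3]
          rw [decide_eq_decide, (ren_injective j).ne_iff]
        rw [h2]
        apply List.map_congr_left
        intro x hx
        have hx2 : x ≠ pt (i + 1) := by
          have := (List.mem_filter.mp hx).2
          simpa using this
        obtain ⟨j', rfl⟩ : ∃ j', j = j' + 1 := ⟨j - 1, by omega⟩
        rw [Nat.add_sub_cancel]
        rcases x with m | ⟨a, b⟩
        · simp only [Function.comp_apply]
          have hm : m ≠ i + 1 := fun h => hx2 (by rw [h])
          rcases pt_cases (j' + 1) m with h3 | h3 | h3 | h3
          · rw [h3, gm_le (by omega), ren_pt_zero, ren_pt_zero, gm_arc]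
          · rw [h3, gm_gt (by omega), ren_pt_succ, gm_arc, Nat.add_sub_cancel, ren_pt_succ]
          · by_cases h4 : m ≤ i
            · rw [gm_le h4, ren_pt_le h3.1 h3.2, gm_le h4, ren_pt_le h3.1 (by omega)]
            · rw [gm_gt (by omega), ren_pt_le h3.1 h3.2, gm_gt (by omega),
                ren_pt_le (by omega) (by omega)]
          · rw [gm_gt (by omega), ren_pt_gt h3, ren_pt_gt (by omega), gm_gt (by omega)]
        · rfl

theorem enc_cdel {n : ℕ} {N : Code} {c : ℕ} (h : wf n N) (hc : c < kk N) :
    enc (cdel c N) = wdel c (enc N) := by
  induction N generalizing n c with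
  | nil => simp [kk] at hc
  | emp N ih =>
    cases n with
    | zero => exact absurd h (by simp [wf])
    | succ n =>
      have h1 : enc (cdel c (emp N)) = pt 0 :: (enc (cdel c N)).map up := by
        cases c <;> rfl
      rw [h1, ih h hc]
      simp only [wdel, enc]
      rw [List.filter_cons_of_pos (by simp [isArc]), List.map_cons]
      congr 1
      rw [List.filter_map, List.map_map, List.map_map]
      have h2 : ((fun x => !isArc c x) ∘ up) = (fun x => !isArc c x) := by
        funext x; rcases x with j | ⟨a, b⟩ <;> rfl
      rw [h2]
      apply List.map_congr_left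
      intro x _
      rcases x with j | ⟨a, b⟩ <;> rfl
  | ch i N ih =>
    cases n with
    | zero => exact absurd h (by simp [wf])
    | succ n =>
      obtain ⟨hi, hN⟩ := h
      cases c with
      | zero =>
        have h1 : cdel 0 (ch i N) = merge i N := rfl
        rw [h1, enc_merge hN (by omega)]
        obtain ⟨t, ht, ht0⟩ := isWord_cons (enc_isWord (n := n + 2) (by omega) hN)
        simp only [wdel, enc]
        rw [ht, List.map_cons, ren_pt_zero, List.filter_cons_of_pos (by simp), List.map_cons,
          gm_le (by omega), List.filter_cons_of_pos (by simp [isArc]),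
          List.filter_cons_of_neg (by simp [isArc]), List.map_cons]
        congr 1
        rw [List.filter_map, List.map_map]
        have h2 : t.filter ((fun x => !isArc 0 x) ∘ ren i) =
            t.filter (fun x => decide (x ≠ pt (i + 1))) := by
          apply List.filter_congr
          intro x hx
          rcases x with m | ⟨a, b⟩
          · simp only [Function.comp_apply]
            rcases pt_cases i m with h3 | h3 | h3 | h3
            · subst h3; exact absurd hx ht0
            · rw [h3, ren_pt_succ]; simp [isArc]
            · rw [ren_pt_le h3.1 h3.2]
              have : m ≠ i + 1 := by omega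
              simp [isArc, this]
            · rw [ren_pt_gt h3]
              have : m ≠ i + 1 := by omega
              simp [isArc, this]
          · simp [ren_arc, isArc]
        rw [h2]
        apply List.map_congr_left
        intro x hx
        have hx2 : x ≠ pt (i + 1) := by
          have := (List.mem_filter.mp hx).2
          simpa using this
        have hx1 := (List.mem_filter.mp hx).1
        rcases x with m | ⟨a, b⟩
        · simp only [Function.comp_apply]
          have hm : m ≠ i + 1 := fun h => hx2 (by rw [h])
          rcases pt_cases i m with h3 | h3 | h3 | h3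
          · subst h3; exact absurd hx1 ht0
          · exact absurd h3 hm
          · rw [ren_pt_le h3.1 h3.2, gm_le (by omega)]; rfl
          · rw [ren_pt_gt h3, gm_gt (by omega)]; rfl
        · simp [ren_arc, gm_arc, shift]
      | succ c =>
        have hc' : c < kk N := by simp only [kk] at hc; omega
        have h1 : enc (cdel (c + 1) (ch i N)) = pt 0 :: (enc (cdel c N)).map (ren i) := rfl
        rw [h1, ih hN hc']
        simp only [wdel, enc]
        rw [List.filter_cons_of_pos (by simp [isArc]), List.map_cons]
        congr 1
        rw [List.filter_map, List.map_map, List.map_map]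
        have h2 : ((fun x => !isArc (c + 1) x) ∘ ren i) = (fun x => !isArc c x) := by
          funext x
          rcases x with m | ⟨a, b⟩
          · simp only [Function.comp_apply]
            rcases pt_cases i m with h3 | h3 | h3 | h3
            · rw [h3, ren_pt_zero]; simp [isArc]
            · rw [h3, ren_pt_succ]; simp [isArc]
            · rw [ren_pt_le h3.1 h3.2]; rfl
            · rw [ren_pt_gt h3]; rfl
          · simp [ren_arc, isArc]
        rw [h2]
        apply List.map_congr_left
        intro x hx
        have hx2 : isArc c x = false := by
          have := (List.mem_filter.mp hx).2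
          simpa using this
        rcases x with m | ⟨a, b⟩
        · simp only [Function.comp_apply, shift]
          rcases pt_cases i m with h3 | h3 | h3 | h3
          · rw [h3, ren_pt_zero]; simp
          · rw [h3, ren_pt_succ]; simp
          · rw [ren_pt_le h3.1 h3.2]
          · rw [ren_pt_gt h3]
        · simp only [Function.comp_apply, shift, ren_arc]
          simp only [isArc, beq_eq_false_iff_ne, ne_eq] at hx2
          by_cases h4 : c < a
          · rw [if_pos h4, if_pos (by omega)]
            congr 1; omega
          · rw [if_neg h4, if_neg (by omega)]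

/-! ### injectivity -/

lemma enc_injective {n : ℕ} {N N' : Code} (h : wf n N) (h' : wf n N') (he : enc N = enc N') :
    N = N' := by
  induction N generalizing n N' with
  | nil =>
    cases n with
    | zero =>
      cases N' with
      | nil => rfl
      | emp N => exact absurd h' (by simp [wf])
      | ch i N => exact absurd h' (by simp [wf])
    | succ n => exact absurd h (by simp [wf])
  | emp N ih =>
    cases n with
    | zero => exact absurd h (by simp [wf])
    | succ n =>
      cases N' with
      | nil => exact absurd h' (by simp [wf])
      | emp N' =>
        simp only [enc, List.cons.injEq, true_and] at he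
        rw [ih h h' (List.map_injective_iff.mpr up_injective he)]
      | ch i N' =>
        exfalso
        simp only [enc, List.cons.injEq, true_and] at he
        obtain ⟨t, ht, _⟩ := isWord_cons (enc_isWord (n := n + 2) (by omega) h'.2)
        rw [ht, List.map_cons, ren_pt_zero] at he
        have h1 : arc 0 false ∈ (enc N).map up := by rw [he]; exact List.mem_cons_self
        cases hN : enc N with
        | nil => rw [hN] at h1; simp at h1
        | cons x t' =>
          rcases Nat.eq_zero_or_pos n with h0 | h0
          · subst h0
            cases N with
            | nil => simp [enc] at hN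
            | emp N => exact absurd h (by simp [wf])
            | ch i N => exact absurd h (by simp [wf])
          · obtain ⟨t'', ht'', _⟩ := isWord_cons (enc_isWord h0 h)
            rw [ht'', List.map_cons] at he
            simp [up] at he
  | ch i N ih =>
    cases n with
    | zero => exact absurd h (by simp [wf])
    | succ n =>
      cases N' with
      | nil => exact absurd h' (by simp [wf])
      | emp N' =>
        exfalso
        simp only [enc, List.cons.injEq, true_and] at he
        obtain ⟨t, ht, _⟩ := isWord_cons (enc_isWord (n := n + 2) (by omega) h.2)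
        rw [ht, List.map_cons, ren_pt_zero] at he
        rcases Nat.eq_zero_or_pos n with h0 | h0
        · subst h0
          cases N' with
          | nil => simp [enc] at he
          | emp N => exact absurd h' (by simp [wf])
          | ch i N => exact absurd h' (by simp [wf])
        · obtain ⟨t'', ht'', _⟩ := isWord_cons (enc_isWord h0 h')
          rw [ht'', List.map_cons] at he
          simp [up] at he
      | ch i' N' =>
        have key : ∀ (j : ℕ) (M : Code), j ≤ n → wf (n + 2) M →
            ((enc M).map (ren j)).filter (fun x => isPt x || decide (x = arc 0 true)) =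
              ((List.range (n + 1)).map (fun m => ren j (pt (m + 1)))) := by
          intro j M hj hM
          have hw := enc_isWord (n := n + 2) (by omega) hM
          obtain ⟨t, ht, ht0⟩ := isWord_cons hw
          rw [ht, List.map_cons, ren_pt_zero, List.filter_cons_of_neg (by simp [isPt]),
            List.filter_map]
          have h1 : t.filter ((fun x => isPt x || decide (x = arc 0 true)) ∘ ren j) =
              t.filter isPt := by
            apply List.filter_congr
            intro x hx
            rcases x with m | ⟨a, b⟩
            · simp only [Function.comp_apply]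
              rcases pt_cases j m with h3 | h3 | h3 | h3
              · subst h3; exact absurd hx ht0
              · rw [h3, ren_pt_succ]; simp [isPt]
              · rw [ren_pt_le h3.1 h3.2]; simp [isPt]
              · rw [ren_pt_gt h3]; simp [isPt]
            · simp [ren_arc, isPt]
          have h2 := hw.pts
          rw [ht, List.filter_cons_of_pos (by rfl), List.range_succ_eq_map, List.map_cons] at h2
          simp only [List.cons.injEq, true_and] at h2
          rw [h1, h2, List.map_map, List.map_map]
          rfl
        simp only [enc, List.cons.injEq, true_and] at he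
        have h1 := key i N h.1 h.2
        rw [he, key i' N' h'.1 h'.2] at h1
        have h2 : ∀ m < n + 1, ren i' (pt (m + 1)) = ren i (pt (m + 1)) := by
          intro m hm
          exact List.map_inj_left.mp h1 m (List.mem_range.mpr hm)
        have h3 := h2 i (by have := h.1; omega)
        rw [ren_pt_succ, ← ren_pt_succ i'] at h3
        have h4 := ren_injective i' h3
        simp only [pt.injEq, Nat.add_right_cancel_iff] at h4
        subst h4
        rw [ih h.2 h'.2 (List.map_injective_iff.mpr (ren_injective _) he)]

end ArcC
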