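import Mathlib
import Pool.Agent.Lib.MP_e5080e_gt.Words

/-! Every word has a code. -/

namespace ArcC

open Equiv Code Side

lemma sublist_of_cons {x y z : Side} {l : List Side} (h : List.Sublist [x, y] (z :: l))
    (hx : x ≠ z) : List.Sublist [x, y] l := by
  cases h with
  | cons _ h => exact h
  | cons_cons _ h => exact absurd rfl hx

lemma sublist_of_map {f : Side → Side} (hf : Function.Injective f) {x y : Side} {l : List Side}
    (h : List.Sublist [f x, f y] (l.map f)) : List.Sublist [x, y] l := by
  obtain ⟨l', h1, h2⟩ := List.sublist_map_iff.mp h
  have : [x, y].map f = l'.map f := by simpa using h2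
  rw [List.map_injective_iff.mpr hf this]
  exact h1

lemma isWord_of_up {n k : ℕ} {w : List Side} (h : IsWord (n + 1) k (pt 0 :: w.map up))
    (hw : w.head? = some (pt 0)) : IsWord n k w where
  nodup := List.Nodup.of_map _ (List.nodup_cons.mp h.nodup).2
  head := hw
  pts := by
    have h1 : (isPt ∘ up) = isPt := by funext x; cases x <;> rfl
    have h2 := h.pts
    rw [List.filter_cons_of_pos (by rfl), List.filter_map, h1, List.range_succ_eq_map,
      List.map_cons, List.map_map] at h2
    simp only [List.cons.injEq, true_and] at h2
    apply List.map_injective_iff.mpr up_injective
    rw [h2, List.map_map]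
    rfl
  firsts := by
    have h1 : (isFirst ∘ up) = isFirst := by funext x; cases x <;> rfl
    have h2 := h.firsts
    rw [List.filter_cons_of_neg (by simp [isFirst]), List.filter_map, h1] at h2
    apply List.map_injective_iff.mpr up_injective
    rw [h2, List.map_map]
    rfl
  mem := by
    intro a b
    rw [← h.mem a b]
    constructor
    · intro hm
      exact List.mem_cons_of_mem _ (List.mem_map.mpr ⟨_, hm, rfl⟩)
    · intro hm
      rcases List.mem_cons.mp hm with h1 | h1
      · simp at h1
      · obtain ⟨x, hx, hxe⟩ := List.mem_map.mp h1
        cases x with
        | pt j => simp [up] at hxe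
        | arc a' b' => simp only [up] at hxe; rw [← hxe]; exact hx
  mates := by
    intro a ha
    exact sublist_of_map up_injective (x := arc a false) (y := arc a true)
      (sublist_of_cons (h.mates a ha) (up_ne (arc a false)))

lemma isWord_of_ren {n k i : ℕ} {t : List Side}
    (h : IsWord (n + 1) (k + 1) (pt 0 :: (pt 0 :: t).map (ren i)))
    (hp : (pt 0 :: t).filter isPt = (List.range (n + 2)).map pt) :
    IsWord (n + 2) k (pt 0 :: t) where
  nodup := List.Nodup.of_map _ (List.nodup_cons.mp h.nodup).2
  head := rfl
  pts := hp
  firsts := by
    have hnd : (pt 0 :: t).Nodup := List.Nodup.of_map _ (List.nodup_cons.mp h.nodup).2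
    have ht := (List.nodup_cons.mp hnd).1
    have h2 := h.firsts
    rw [List.filter_cons_of_neg (by simp [isFirst]), List.map_cons, ren_pt_zero,
      List.filter_cons_of_pos (by rfl), List.filter_map] at h2
    have h1 : t.filter (isFirst ∘ ren i) = t.filter isFirst := by
      apply List.filter_congr
      intro x hx
      rcases x with j | ⟨a, b⟩
      · simp only [Function.comp_apply]
        rcases pt_cases i j with h1 | h1 | h1 | h1
        · subst h1; exact absurd hx ht
        · rw [h1, ren_pt_succ]; rfl
        · rw [ren_pt_le h1.1 h1.2]
        · rw [ren_pt_gt h1]; rfl
      · rfl
    rw [h1, List.range_succ_eq_map, List.map_cons, List.map_map] at h2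
    simp only [List.cons.injEq, true_and] at h2
    rw [List.filter_cons_of_neg (by simp [isFirst])]
    apply List.map_injective_iff.mpr (ren_injective i)
    rw [h2, List.map_map]
    rfl
  mem := by
    intro a b
    have h1 := h.mem (a + 1) b
    rw [Nat.add_lt_add_iff_right] at h1
    rw [← h1]
    constructor
    · intro hm
      exact List.mem_cons_of_mem _ (List.mem_map.mpr ⟨_, hm, rfl⟩)
    · intro hm
      rcases List.mem_cons.mp hm with h1 | h1
      · simp at h1
      · obtain ⟨x, hx, hxe⟩ := List.mem_map.mp h1
        rw [← ren_arc i] at hxe
        rw [← ren_injective i hxe]; exact hx
  mates := by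
    intro a ha
    exact sublist_of_map (ren_injective i) (x := arc a false) (y := arc a true)
      (sublist_of_cons (h.mates (a + 1) (by omega)) (ren_ne i (arc a false)))

/-- inverse of the renaming -/
def unren (i : ℕ) : Side → Side
  | pt j => if j ≤ i then pt j else pt (j + 1)
  | arc a b => arc (a - 1) b

lemma ren_unren {i : ℕ} {x : Side} (h0 : x ≠ pt 0) (h1 : ∀ b, x ≠ arc 0 b) :
    ren i (unren i x) = x := by
  rcases x with j | ⟨a, b⟩
  · have hj : j ≠ 0 := fun h => h0 (by rw [h])
    by_cases h : j ≤ i
    · simp only [unren, if_pos h]; exact ren_pt_le hj h
    · simp only [unren, if_neg h]; rw [ren_pt_gt (by omega)]; rfl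
  · have ha : a ≠ 0 := fun h => h1 b (by rw [h])
    simp only [unren, ren_arc]
    congr 1; omega

theorem exists_code {n k : ℕ} {w : List Side} (h : IsWord n k w) :
    ∃ N, wf n N ∧ kk N = k ∧ enc N = w := by
  induction hL : w.length using Nat.strong_induction_on generalizing n k w with
  | _ L ih =>
    obtain ⟨t, rfl, ht0⟩ := isWord_cons h
    obtain ⟨n, rfl⟩ : ∃ m, n = m + 1 := ⟨n - 1, by have := isWord_pos h; omega⟩
    cases t with
    | nil =>
      have hk : k = 0 := by
        by_contra hk
        have := (h.mem 0 false).mpr (by omega)
        simp at this
      have hn : n = 0 := by
        by_contra hn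
        have := (isWord_pt_mem h 1).mpr (by omega)
        simp at this
      subst hk hn
      exact ⟨emp nil, trivial, rfl, rfl⟩
    | cons x t =>
      rcases x with j | ⟨a, b⟩
      · -- a point
        have hpts := h.pts
        rw [List.filter_cons_of_pos (by rfl), List.filter_cons_of_pos (by rfl),
          List.range_succ_eq_map, List.map_cons, List.map_map] at hpts
        simp only [List.cons.injEq, true_and] at hpts
        obtain ⟨m, rfl⟩ : ∃ m, n = m + 1 := by
          cases n with
          | zero => simp at hpts
          | succ m => exact ⟨m, rfl⟩
        rw [List.range_succ_eq_map, List.map_cons] at hpts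
        simp only [List.cons.injEq, Function.comp_apply, pt.injEq] at hpts
        have hj : j = 1 := hpts.1
        subst hj
        let down : Side → Side := fun x => match x with
          | pt j => pt (j - 1)
          | arc a b => arc a b
        have hdown : ∀ x ∈ (pt 1 :: t), up (down x) = x := by
          intro x hx
          rcases x with j | ⟨a, b⟩
          · have : j ≠ 0 := fun h => ht0 (by rw [← h]; exact hx)
            simp only [down, up]
            congr 1; omega
          · rfl
        have hmap : ((pt 1 :: t).map down).map up = pt 1 :: t := by
          rw [List.map_map]
          conv_rhs => rw [← List.map_id (pt 1 :: t)]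
          exact List.map_congr_left hdown
        have hw : IsWord (m + 1) k ((pt 1 :: t).map down) := by
          apply isWord_of_up
          · rw [hmap]; exact h
          · rfl
        obtain ⟨N, hN1, hN2, hN3⟩ := ih _ (by rw [← hL]; simp) hw rfl
        refine ⟨emp N, hN1, hN2, ?_⟩
        simp only [enc]
        rw [hN3, hmap]
      · -- an arc
        have hb : b = false := by
          by_contra hb
          have hb' : b = true := by simpa using hb
          subst hb'
          have ha : a < k := (h.mem a true).mp (by simp)
          have h1 := sublist_of_cons (h.mates a ha) (by simp)
          have h2 := sublist_of_cons h1 (by simp)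
          have h3 : arc a true ∈ t := h2.subset (by simp)
          have h4 := (List.nodup_cons.mp (List.nodup_cons.mp h.nodup).2).1
          exact h4 h3
        subst hb
        obtain ⟨k, rfl⟩ : ∃ m, k = m + 1 := by
          have ha : a < k := (h.mem a false).mp (by simp)
          exact ⟨k - 1, by omega⟩
        have ha0 : a = 0 := by
          have h1 := h.firsts
          rw [List.filter_cons_of_neg (by simp [isFirst]), List.filter_cons_of_pos (by rfl),
            List.range_succ_eq_map, List.map_cons] at h1
          simp only [List.cons.injEq, arc.injEq, and_true] at h1
          exact h1.1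
        subst ha0
        have hmem : arc 0 true ∈ t := by
          have := (h.mem 0 true).mpr (by omega)
          simpa using this
        obtain ⟨u, v, rfl⟩ := List.append_of_mem hmem
        have hnd := h.nodup
        set i := (u.filter isPt).length with hi
        have hpts := h.pts
        rw [List.filter_cons_of_pos (by rfl), List.filter_cons_of_neg (by simp [isPt]),
          List.filter_append, List.filter_cons_of_neg (by simp [isPt]),
          List.range_succ_eq_map, List.map_cons, List.map_map] at hpts
        simp only [List.cons.injEq, true_and] at hpts
        have hlen : n = i + (v.filter isPt).length := by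
          have := congrArg List.length hpts
          simpa using this.symm
        obtain ⟨m, hm⟩ : ∃ m, m = (v.filter isPt).length := ⟨_, rfl⟩
        rw [← hm] at hlen
        subst hlen
        rw [List.range_add, List.map_append] at hpts
        have hinj := List.append_inj hpts (by simp [hi])
        -- the membership facts
        have hu : ∀ x ∈ u, x ≠ pt 0 ∧ ∀ b, x ≠ arc 0 b := by
          intro x hx
          refine ⟨?_, ?_⟩
          · rintro rfl
            exact ht0 (by simp [hx])
          · rintro b rfl
            have h1 := (List.nodup_cons.mp hnd).2
            rcases b with _ | _
            · exact (List.nodup_cons.mp h1).1 (by simp [hx])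
            · have h2 := (List.nodup_cons.mp h1).2
              rw [List.nodup_append] at h2
              exact h2.2.2 _ hx _ (by simp) rfl
        have hv : ∀ x ∈ v, x ≠ pt 0 ∧ ∀ b, x ≠ arc 0 b := by
          intro x hx
          refine ⟨?_, ?_⟩
          · rintro rfl
            exact ht0 (by simp [hx])
          · rintro b rfl
            have h1 := (List.nodup_cons.mp hnd).2
            rcases b with _ | _
            · exact (List.nodup_cons.mp h1).1 (by simp [hx])
            · have h2 := (List.nodup_cons.mp h1).2
              rw [List.nodup_append] at h2
              exact (List.nodup_cons.mp h2.2.1).1 hx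
        set t0 : List Side := u.map (unren i) ++ pt (i + 1) :: v.map (unren i) with ht0'
        have hmap : (pt 0 :: t0).map (ren i) = arc 0 false :: (u ++ arc 0 true :: v) := by
          rw [ht0', List.map_cons, List.map_append, List.map_cons, ren_pt_zero, ren_pt_succ,
            List.map_map, List.map_map]
          congr 2
          · conv_rhs => rw [← List.map_id u]
            exact List.map_congr_left fun x hx => ren_unren (hu x hx).1 (hu x hx).2
          · congr 1
            conv_rhs => rw [← List.map_id v]
            exact List.map_congr_left fun x hx => ren_unren (hv x hx).1 (hv x hx).2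
        have hfil : ∀ l : List Side, (l.map (unren i)).filter isPt =
            (l.filter isPt).map (unren i) := by
          intro l
          rw [List.filter_map]
          congr 1
          apply List.filter_congr
          intro x _
          rcases x with j | ⟨a, b⟩
          · simp only [Function.comp_apply, unren]
            split_ifs <;> rfl
          · rfl
        have hw : IsWord (i + m + 2) k (pt 0 :: t0) := by
          apply isWord_of_ren (i := i)
          · rw [hmap]; exact h
          · rw [ht0', List.filter_cons_of_pos (by rfl), List.filter_append,
              List.filter_cons_of_pos (by rfl), hfil, hfil, hinj.1, hinj.2]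
            have h2 : i + m + 2 = (i + (1 + m)) + 1 := by ring
            rw [h2, List.range_succ_eq_map, List.map_cons, List.range_add, List.range_add,
              List.map_append, List.map_append, List.map_append, List.map_append]
            simp only [List.map_map]
            congr 1
            congr 1
            · apply List.map_congr_left
              intro j hj
              rw [List.mem_range] at hj
              simp only [Function.comp_apply, unren, Nat.succ_eq_add_one]
              rw [if_pos (by omega)]
            · have h3 : List.range 1 = [0] := rfl
              rw [h3]
              simp only [List.map_cons, List.map_nil, List.singleton_append, Function.comp_apply]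
              congr 1
              rw [List.map_map]
              apply List.map_congr_left
              intro j hj
              simp only [Function.comp_apply, unren, Nat.succ_eq_add_one]
              rw [if_neg (by omega)]
              congr 1; omega
        obtain ⟨N, hN1, hN2, hN3⟩ := ih _ (by
          rw [← hL, ht0']; simp) hw rfl
        refine ⟨ch i N, ⟨by omega, hN1⟩, by simp [kk, hN2], ?_⟩
        simp only [enc]
        rw [hN3, hmap]

end ArcC
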