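import Mathlib
import Pool.Agent.Lib.MP_e5080e_gt.Words2
import Pool.Agent.Lib.MP_e5080e_gt.FWord

/-! The number of boundary cycles of the word of a code. -/

namespace ArcC

open Equiv Code Side

lemma formPerm_map {α β : Type*} [DecidableEq α] [DecidableEq β] {f : α → β}
    (hf : Function.Injective f) (l : List α) (x : α) :
    (l.map f).formPerm (f x) = f (l.formPerm x) := by
  induction l generalizing x with
  | nil => simp
  | cons a l ih =>
    cases l with
    | nil => simp
    | cons b l =>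
      rw [List.map_cons, List.map_cons, List.formPerm_cons_cons, List.formPerm_cons_cons,
        ← List.map_cons, Perm.mul_apply, Perm.mul_apply, ih, hf.swap_apply]

/-- the cyclic shift -/
lemma cyc_lt {n j : ℕ} (h : j + 1 < n) : (List.range n).formPerm j = j + 1 := by
  have h1 := List.formPerm_apply_lt_getElem (List.range n) List.nodup_range j (by simpa using h)
  simpa using h1

lemma cyc_last (n : ℕ) : (List.range (n + 1)).formPerm n = 0 := by
  have h2 := List.formPerm_apply_getElem (List.range (n + 1)) List.nodup_range n (by simp)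
  simpa using h2

lemma cyc_inv_zero (n : ℕ) : (List.range (n + 1)).formPerm⁻¹ 0 = n := by
  rw [Perm.inv_eq_iff_eq, cyc_last]

lemma cyc_inv_succ {n j : ℕ} (h : j + 1 < n) : (List.range n).formPerm⁻¹ (j + 1) = j := by
  rw [Perm.inv_eq_iff_eq, cyc_lt h]

lemma cyc_inv_lt {n j : ℕ} (h : j < n) : (List.range n).formPerm⁻¹ j < n := by
  obtain ⟨m, rfl⟩ : ∃ m, n = m + 1 := ⟨n - 1, by omega⟩
  cases j with
  | zero => rw [cyc_inv_zero]; omega
  | succ j => rw [cyc_inv_succ (by omega)]; omega

lemma face_apply (ρ : Perm ℕ) (n : ℕ) (w : List Side) (x : Side) :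
    face ρ n w x = mate (ptPerm (ρ * (List.range n).formPerm⁻¹) (w.formPerm x)) := rfl

lemma perm_lt_of_fix {ρ : Perm ℕ} {n : ℕ} (hρ : ∀ j, n ≤ j → ρ j = j) {j : ℕ} (hj : j < n) :
    ρ j < n := by
  by_contra h
  push Not at h
  have h1 := hρ _ h
  have h2 := ρ.injective h1
  omega

lemma inv_fix {ρ : Perm ℕ} {n : ℕ} (hρ : ∀ j, n ≤ j → ρ j = j) :
    ∀ j, n ≤ j → ρ⁻¹ j = j := by
  intro j hj
  rw [Perm.inv_eq_iff_eq, hρ j hj]

/-- the boundary permutation preserves the set of symbols of the word -/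
lemma face_mem_w {ρ : Perm ℕ} {n k : ℕ} {w : List Side} (h : IsWord n k w)
    (hρ : ∀ j, n ≤ j → ρ j = j) {x : Side} (hx : x ∈ w) : face ρ n w x ∈ w := by
  rw [face_apply]
  have h1 : w.formPerm x ∈ w := List.formPerm_apply_mem_of_mem hx
  rcases hy : w.formPerm x with j | ⟨a, b⟩
  · rw [hy] at h1
    rw [ptPerm_pt, mate_pt, isWord_pt_mem h, Perm.mul_apply]
    exact perm_lt_of_fix hρ (cyc_inv_lt ((isWord_pt_mem h j).mp h1))
  · rw [hy] at h1
    rw [ptPerm_arc, mate_arc, h.mem]
    exact (h.mem a b).mp h1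

/-! ### codes -/

lemma nu_fix_w {n : ℕ} {N : Code} (h : wf n N) : ∀ x, n ≤ x → nu N x = x := by
  induction N generalizing n with
  | nil => intro x _; rfl
  | emp N ih =>
    cases n with
    | zero => exact absurd h (by simp [wf])
    | succ n =>
      intro x hx
      obtain ⟨y, rfl⟩ : ∃ y, x = y + 1 := ⟨x - 1, by omega⟩
      simp only [nu, sh_succ]
      rw [ih h y (by omega)]
  | ch i N ih =>
    cases n with
    | zero => exact absurd h (by simp [wf])
    | succ n =>
      obtain ⟨hi, hN⟩ := h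
      intro x hx
      have h1 : (A i)⁻¹ x = x := by rw [Perm.inv_eq_iff_eq, A_apply_gt (by omega)]
      have h2 : (A i * nu N) (x + 1) = x + 1 := by
        rw [Perm.mul_apply, ih hN (x + 1) (by omega), A_apply_gt (by omega)]
      have h3 : sh (tr (A i * nu N)) (x + 1) = x + 1 := by
        rw [sh_tr, Perm.mul_apply, h2]
        apply swap_apply_of_ne_of_ne (by omega)
        intro h4
        have := (A i * nu N).injective (h2.trans h4)
        omega
      rw [sh_succ] at h3
      simp only [nu, Perm.mul_apply]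
      rw [h1]
      omega

/-- the partial trace and the number of cycles -/
lemma ncyc_tr {q : Perm ℕ} {n : ℕ} (hq : ∀ x, n + 1 ≤ x → q x = x) :
    ncyc q (Set.Iio (n + 1)) = fx q + ncyc (tr q) (Set.Iio n) := by
  have h1 : ∀ x ∈ Set.Iio (n + 1), q x ∈ Set.Iio (n + 1) := by
    intro x hx
    exact perm_lt_of_fix hq hx
  rw [ncyc_remove q (Set.finite_Iio _) h1 (s := 0) (by simp), ← sh_tr]
  have h2 : Set.Iio (n + 1) \ {0} = Nat.succ '' (Set.Iio n) := by
    ext x
    simp only [Set.mem_sdiff, Set.mem_Iio, Set.mem_singleton_iff, Set.mem_image]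
    constructor
    · rintro ⟨h3, h4⟩; exact ⟨x - 1, by omega, by omega⟩
    · rintro ⟨y, hy, rfl⟩; exact ⟨by omega, by omega⟩
  have h3 : ∀ x ∈ Set.Iio n, tr q x ∈ Set.Iio n := by
    intro x hx
    apply perm_lt_of_fix (n := n) _ hx
    intro y hy
    have h4 : sh (tr q) (y + 1) = y + 1 := by
      rw [sh_tr, Perm.mul_apply, hq (y + 1) (by omega)]
      apply swap_apply_of_ne_of_ne (by omega)
      intro h5
      have := q.injective ((hq (y + 1) (by omega)).trans h5)
      omega
    rw [sh_succ] at h4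
    omega
  rw [h2, ncyc_image (p := tr q) (Set.finite_Iio _) h3 Nat.succ Nat.succ_injective.injOn
    (fun x _ => by simp)]
  unfold fx
  rw [add_comm]

lemma mem_A_inv {i n x : ℕ} (hi : i ≤ n) (hx : n + 1 ≤ x) : (A i)⁻¹ x = x := by
  rw [Perm.inv_eq_iff_eq, A_apply_gt (by omega)]

lemma ncyc_code_ch {n i : ℕ} {N : Code} (hi : i ≤ n) (hN : wf (n + 2) N) (ρ : Perm ℕ)
    (hρ : ∀ j, n + 1 ≤ j → ρ j = j) :
    cc (ch i N) + ncyc (ρ * nu (ch i N)) (Set.Iio (n + 1)) =
      cc N + ncyc (sh ((A i)⁻¹ * ρ) * A i * nu N) (Set.Iio (n + 2)) := by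
  have hAfix : ∀ x, n + 1 ≤ x → A i x = x := fun x hx => A_apply_gt (by omega)
  have hρ' : ∀ x, n + 2 ≤ x → (sh ((A i)⁻¹ * ρ) * A i * nu N) x = x := by
    intro x hx
    rw [Perm.mul_apply, Perm.mul_apply, nu_fix_w hN x hx, hAfix x (by omega)]
    obtain ⟨y, rfl⟩ : ∃ y, x = y + 1 := ⟨x - 1, by omega⟩
    rw [sh_succ, Perm.mul_apply, hρ y (by omega), mem_A_inv hi (by omega)]
  rw [ncyc_tr hρ', mul_assoc, fx_sh_mul, tr_sh_mul]
  simp only [cc, nu]
  set T := tr (A i * nu N) with hT
  have hTfix : ∀ x, n + 1 ≤ x → (ρ * (T * (A i)⁻¹)) x = x := by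
    intro x hx
    have h1 : (T * (A i)⁻¹) x = x := nu_fix_w (N := ch i N) (n := n + 1) ⟨hi, hN⟩ x hx
    rw [Perm.mul_apply, h1, hρ x hx]
  have h2 : ∀ x ∈ Set.Iio (n + 1), (ρ * (T * (A i)⁻¹)) x ∈ Set.Iio (n + 1) :=
    fun x hx => perm_lt_of_fix hTfix hx
  have h3 := ncyc_conj (ρ * (T * (A i)⁻¹)) (A i)⁻¹ (Set.Iio (n + 1)) (Set.finite_Iio _) h2
  have h4 : (A i)⁻¹ * (ρ * (T * (A i)⁻¹)) * (A i)⁻¹⁻¹ = (A i)⁻¹ * ρ * T := by group
  have h5 : (⇑((A i)⁻¹ : Perm ℕ)) '' Set.Iio (n + 1) = Set.Iio (n + 1) := by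
    ext x
    simp only [Set.mem_image, Set.mem_Iio]
    constructor
    · rintro ⟨y, hy, rfl⟩
      exact perm_lt_of_fix (fun j hj => mem_A_inv hi hj) hy
    · intro hx
      exact ⟨A i x, perm_lt_of_fix hAfix hx, by simp⟩
  rw [h4, h5] at h3
  rw [h3]
  ring

/-! ### words -/

lemma ren_A_inv (i m : ℕ) :
    ren i (pt ((A i)⁻¹ m + 1)) = if m = 0 then arc 0 true else pt m := by
  rcases Nat.eq_zero_or_pos m with h | h
  · subst h
    have h1 : (A i)⁻¹ 0 = i := by rw [Perm.inv_eq_iff_eq, A_apply_self]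
    rw [h1, ren_pt_succ, if_pos rfl]
  · rw [if_neg (by omega)]
    by_cases h2 : m ≤ i
    · have h1 : (A i)⁻¹ m = m - 1 := by
        rw [Perm.inv_eq_iff_eq, A_apply_lt (by omega)]; omega
      rw [h1, Nat.sub_add_cancel h, ren_pt_le (by omega) h2]
    · have h1 : (A i)⁻¹ m = m := by
        rw [Perm.inv_eq_iff_eq, A_apply_gt (by omega)]
      rw [h1, ren_pt_gt (by omega)]; rfl

lemma swap_pt_zero (m : ℕ) :
    swap (pt 0) (arc 0 true) (pt m) = if m = 0 then arc 0 true else pt m := by
  split_ifs with h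
  · rw [h, swap_apply_left]
  · exact swap_apply_of_ne_of_ne (by simp [h]) (by simp)

lemma sw_in_pt {j : ℕ} (h : j ≠ 0) : swap (pt 0) (arc 0 false) (pt j) = pt j :=
  swap_apply_of_ne_of_ne (by simp [h]) (by simp)
lemma sw_in_arc : swap (pt 0) (arc 0 false) (arc 0 true) = arc 0 true :=
  swap_apply_of_ne_of_ne (by simp) (by simp)
lemma sw_in_arc' (a : ℕ) (b : Bool) :
    swap (pt 0) (arc 0 false) (arc (a + 1) b) = arc (a + 1) b :=
  swap_apply_of_ne_of_ne (by simp) (by simp)
lemma sw_out_arc : swap (pt 0) (arc 0 true) (arc 0 false) = arc 0 false :=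
  swap_apply_of_ne_of_ne (by simp) (by simp)
lemma sw_out_arc' (a : ℕ) (b : Bool) :
    swap (pt 0) (arc 0 true) (arc (a + 1) b) = arc (a + 1) b :=
  swap_apply_of_ne_of_ne (by simp) (by simp)

lemma face_ren {n k i : ℕ} {w : List Side} (h : IsWord (n + 2) k w) (hi : i ≤ n) (ρ : Perm ℕ)
    {x : Side} (hx : x ∈ w) :
    swap (pt 0) (arc 0 true) (face ρ (n + 1) (pt 0 :: w.map (ren i)) (ren i x)) =
      ren i (face (sh ((A i)⁻¹ * ρ) * A i) (n + 2) w x) := by
  obtain ⟨t, rfl, ht⟩ := isWord_cons h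
  rw [face_apply, face_apply, List.map_cons, ren_pt_zero, List.formPerm_cons_cons,
    ← ren_pt_zero i, ← List.map_cons, Perm.mul_apply, formPerm_map (ren_injective i),
    ren_pt_zero]
  have h1 : (pt 0 :: t).formPerm x ∈ (pt 0 :: t) := List.formPerm_apply_mem_of_mem hx
  generalize (pt 0 :: t).formPerm x = y at h1
  rcases y with j | ⟨a, b⟩
  · have hj := (isWord_pt_mem h j).mp h1
    rcases pt_cases i j with h3 | h3 | h3 | h3
    · subst h3
      rw [ren_pt_zero, swap_apply_right, ptPerm_pt, mate_pt, Perm.mul_apply, cyc_inv_zero,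
        ptPerm_pt, mate_pt, Perm.mul_apply, cyc_inv_zero, Perm.mul_apply, A_apply_gt (by omega),
        sh_succ, Perm.mul_apply, ren_A_inv, swap_pt_zero]
    · subst h3
      rw [ren_pt_succ, sw_in_arc, ptPerm_arc, mate_arc,
        ptPerm_pt, mate_pt, Perm.mul_apply, cyc_inv_succ (by omega), Perm.mul_apply,
        A_apply_self, sh_zero, ren_pt_zero]
      exact sw_out_arc
    · obtain ⟨j, rfl⟩ : ∃ m, j = m + 1 := ⟨j - 1, by omega⟩
      rw [ren_pt_le h3.1 h3.2, sw_in_pt (by omega), ptPerm_pt, mate_pt,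
        Perm.mul_apply, cyc_inv_succ (by omega), ptPerm_pt, mate_pt, Perm.mul_apply,
        cyc_inv_succ (by omega), Perm.mul_apply, A_apply_lt (by omega), sh_succ, Perm.mul_apply,
        ren_A_inv, swap_pt_zero]
    · obtain ⟨j, rfl⟩ : ∃ m, j = m + 2 := ⟨j - 2, by omega⟩
      rw [ren_pt_gt h3, show j + 2 - 1 = j + 1 by omega, sw_in_pt (by omega), ptPerm_pt, mate_pt,
        Perm.mul_apply, cyc_inv_succ (by omega), ptPerm_pt, mate_pt, Perm.mul_apply,
        show j + 2 = (j + 1) + 1 by omega, cyc_inv_succ (by omega), Perm.mul_apply,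
        A_apply_gt (by omega), sh_succ, Perm.mul_apply, ren_A_inv, swap_pt_zero]
  · rw [ren_arc, sw_in_arc', ptPerm_arc, mate_arc, ptPerm_arc,
      mate_arc, ren_arc, sw_out_arc']

lemma face_ren_zero {n k i : ℕ} {w : List Side} (h : IsWord (n + 2) k w) (ρ : Perm ℕ) :
    face ρ (n + 1) (pt 0 :: w.map (ren i)) (pt 0) = arc 0 true := by
  obtain ⟨t, rfl, ht⟩ := isWord_cons h
  rw [face_apply, List.map_cons, ren_pt_zero, List.formPerm_cons_cons, ← ren_pt_zero i,
    ← List.map_cons, Perm.mul_apply, List.formPerm_apply_of_notMem, ren_pt_zero,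
    swap_apply_left, ptPerm_arc, mate_arc]
  · rfl
  · intro hm
    obtain ⟨x, _, hx⟩ := List.mem_map.mp hm
    exact ren_ne i x hx

lemma face_up {n k : ℕ} {w : List Side} (h : IsWord n k w) (ρ : Perm ℕ)
    {x : Side} (hx : x ∈ w) :
    swap (pt 0) (pt (ρ 0)) (face ρ (n + 1) (pt 0 :: w.map up) (up x)) =
      up (face (tr ρ) n w x) := by
  obtain ⟨m, rfl⟩ : ∃ m, n = m + 1 := ⟨n - 1, by have := isWord_pos h; omega⟩
  obtain ⟨t, rfl, ht⟩ := isWord_cons h
  have hup0 : up (pt 0) = pt 1 := rfl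
  have key : ∀ j, swap (pt 0) (pt (ρ 0)) (pt (ρ (j + 1))) = up (pt (tr ρ j)) := by
    intro j
    have h1 : sh (tr ρ) (j + 1) = swap 0 (ρ 0) (ρ (j + 1)) := by rw [sh_tr]; rfl
    rw [sh_succ] at h1
    have hinj : Function.Injective pt := fun a b h => by simpa using h
    rw [hinj.swap_apply, ← h1]
    rfl
  rw [face_apply, face_apply, List.map_cons, hup0, List.formPerm_cons_cons,
    ← hup0, ← List.map_cons, Perm.mul_apply, formPerm_map up_injective, hup0]
  have h1 : (pt 0 :: t).formPerm x ∈ (pt 0 :: t) := List.formPerm_apply_mem_of_mem hx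
  generalize (pt 0 :: t).formPerm x = y at h1
  have hin : ∀ x : Side, x ≠ pt 0 → x ≠ pt 1 → swap (pt 0) (pt 1) x = x :=
    fun x hx hx' => swap_apply_of_ne_of_ne hx hx'
  rcases y with j | ⟨a, b⟩
  · have hj := (isWord_pt_mem h j).mp h1
    cases j with
    | zero =>
      rw [hup0, swap_apply_right, ptPerm_pt, mate_pt, Perm.mul_apply, cyc_inv_zero, ptPerm_pt,
        mate_pt, Perm.mul_apply, cyc_inv_zero, key]
    | succ j =>
      have h2 : up (pt (j + 1)) = pt (j + 1 + 1) := rfl
      rw [h2, hin _ (by simp) (by simp), ptPerm_pt, mate_pt, Perm.mul_apply,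
        cyc_inv_succ (by omega), ptPerm_pt, mate_pt, Perm.mul_apply, cyc_inv_succ (by omega), key]
  · have h2 : up (arc a b) = arc a b := rfl
    have h3 : up (arc a (!b)) = arc a (!b) := rfl
    rw [h2, hin _ (by simp) (by simp), ptPerm_arc, mate_arc, ptPerm_arc,
      mate_arc, h3, swap_apply_of_ne_of_ne (by simp) (by simp)]

lemma face_up_zero {n k : ℕ} {w : List Side} (h : IsWord n k w) (ρ : Perm ℕ) :
    face ρ (n + 1) (pt 0 :: w.map up) (pt 0) = pt (ρ 0) := by
  obtain ⟨m, rfl⟩ : ∃ m, n = m + 1 := ⟨n - 1, by have := isWord_pos h; omega⟩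
  obtain ⟨t, rfl, ht⟩ := isWord_cons h
  have hup0 : up (pt 0) = pt 1 := rfl
  rw [face_apply, List.map_cons, hup0, List.formPerm_cons_cons, ← hup0,
    ← List.map_cons, Perm.mul_apply, List.formPerm_apply_of_notMem, hup0,
    swap_apply_left, ptPerm_pt, mate_pt, Perm.mul_apply, cyc_inv_succ (by omega)]
  intro hm
  obtain ⟨x, _, hx⟩ := List.mem_map.mp hm
  exact up_ne x hx

lemma tr_fix {ρ : Perm ℕ} {n : ℕ} (hρ : ∀ j, n + 1 ≤ j → ρ j = j) :
    ∀ j, n ≤ j → tr ρ j = j := by
  intro j hj
  have h1 : sh (tr ρ) (j + 1) = j + 1 := by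
    rw [sh_tr, Perm.mul_apply, hρ (j + 1) (by omega)]
    apply swap_apply_of_ne_of_ne (by omega)
    intro h2
    have := ρ.injective ((hρ (j + 1) (by omega)).trans h2)
    omega
  rw [sh_succ] at h1
  omega

/-- the number of boundary cycles -/
theorem ncyc_face_enc {n : ℕ} {N : Code} (hn : 0 < n) (h : wf n N) (ρ : Perm ℕ)
    (hρ : ∀ j, n ≤ j → ρ j = j) :
    ncyc (face ρ n (enc N)) {x | x ∈ enc N} = cc N + ncyc (ρ * nu N) (Set.Iio n) := by
  induction N generalizing n ρ with
  | nil => cases n with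
    | zero => omega
    | succ n => exact absurd h (by simp [wf])
  | emp N ih =>
    cases n with
    | zero => omega
    | succ n =>
      have hcode : ncyc (ρ * nu (emp N)) (Set.Iio (n + 1)) =
          fx ρ + ncyc (tr ρ * nu N) (Set.Iio n) := by
        simp only [nu]
        rw [ncyc_tr, fx_mul_sh, tr_mul_sh]
        intro x hx
        obtain ⟨y, rfl⟩ : ∃ y, x = y + 1 := ⟨x - 1, by omega⟩
        rw [Perm.mul_apply, sh_succ, nu_fix_w (n := n) h y (by omega), hρ _ (by omega)]
      rw [hcode]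
      rcases Nat.eq_zero_or_pos n with h0 | h0
      · subst h0
        cases N with
        | nil =>
          have hρ1 : ρ = 1 := by
            ext x
            rcases Nat.eq_zero_or_pos x with h1 | h1
            · subst h1
              have := perm_lt_of_fix hρ (j := 0) (by omega)
              simp only [Perm.coe_one, id]
              omega
            · exact hρ x h1
          subst hρ1
          have h1 : {x | x ∈ enc (emp nil)} = {pt 0} := by
            ext x; simp [enc]
          rw [h1, ncyc_singleton]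
          simp [cc]
        | emp N => exact absurd h (by simp [wf])
        | ch i N => exact absurd h (by simp [wf])
      · have hw := enc_isWord h0 h
        have hw' := enc_isWord (n := n + 1) (N := emp N) (by omega) h
        have hfin : ({x | x ∈ enc (emp N)} : Set Side).Finite := List.finite_toSet _
        rw [ncyc_remove (face ρ (n + 1) (enc (emp N))) hfin
          (fun x hx => face_mem_w hw' hρ hx) (s := pt 0) (by simp [enc])]
        have h1 : {x | x ∈ enc (emp N)} \ {pt 0} = up '' {x | x ∈ enc N} := by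
          ext x
          simp only [enc, Set.mem_sdiff, Set.mem_ofPred_eq, List.mem_cons, List.mem_map,
            Set.mem_singleton_iff, Set.mem_image]
          constructor
          · rintro ⟨h2 | h2, h3⟩
            · exact absurd h2 h3
            · exact h2
          · rintro ⟨y, hy, rfl⟩
            exact ⟨Or.inr ⟨y, hy, rfl⟩, up_ne y⟩
        have h2 : face ρ (n + 1) (enc (emp N)) (pt 0) = pt (ρ 0) := face_up_zero hw ρ
        rw [h1, h2, ncyc_image (p := face (tr ρ) n (enc N)) (List.finite_toSet _)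
          (fun x hx => face_mem_w hw (tr_fix hρ) hx) up up_injective.injOn
          (fun x hx => face_up hw ρ hx), ih h0 h (tr ρ) (tr_fix hρ)]
        simp only [cc, fx, pt.injEq]
        ring
  | ch i N ih =>
    cases n with
    | zero => omega
    | succ n =>
      obtain ⟨hi, hN⟩ := h
      have hρ' : ∀ j, n + 2 ≤ j → (sh ((A i)⁻¹ * ρ) * A i) j = j := by
        intro x hx
        rw [Perm.mul_apply, A_apply_gt (by omega)]
        obtain ⟨y, rfl⟩ : ∃ y, x = y + 1 := ⟨x - 1, by omega⟩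
        rw [sh_succ, Perm.mul_apply, hρ y (by omega), mem_A_inv hi (by omega)]
      rw [ncyc_code_ch hi hN ρ hρ, ← ih (by omega) hN _ hρ']
      have hw := enc_isWord (n := n + 2) (by omega) hN
      have hw' := enc_isWord (n := n + 1) (N := ch i N) (by omega) ⟨hi, hN⟩
      have hfin : ({x | x ∈ enc (ch i N)} : Set Side).Finite := List.finite_toSet _
      rw [ncyc_remove (face ρ (n + 1) (enc (ch i N))) hfin
        (fun x hx => face_mem_w hw' hρ hx) (s := pt 0) (by simp [enc])]
      have h1 : {x | x ∈ enc (ch i N)} \ {pt 0} = ren i '' {x | x ∈ enc N} := by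
        ext x
        simp only [enc, Set.mem_sdiff, Set.mem_ofPred_eq, List.mem_cons, List.mem_map,
          Set.mem_singleton_iff, Set.mem_image]
        constructor
        · rintro ⟨h2 | h2, h3⟩
          · exact absurd h2 h3
          · exact h2
        · rintro ⟨y, hy, rfl⟩
          exact ⟨Or.inr ⟨y, hy, rfl⟩, ren_ne i y⟩
      have h2 : face ρ (n + 1) (enc (ch i N)) (pt 0) = arc 0 true := face_ren_zero hw ρ
      rw [h1, h2, if_neg (by simp), add_zero]
      exact ncyc_image (p := face (sh ((A i)⁻¹ * ρ) * A i) (n + 2) (enc N)) (List.finite_toSet _)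
        (fun x hx => face_mem_w hw hρ' hx) (ren i) (ren_injective i).injOn
        (fun x hx => face_ren hw hi ρ hx)

end ArcC
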