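import Mathlib
import Pool.Agent.Lib.MP_e5080e_gt.Words3
import Pool.Agent.Lib.MP_e5080e_gt.CodeBasic

/-! From chains of codes to chains of words. -/

namespace ArcC

open Equiv Code Side

variable {A : Type*} [AddCommGroup A]

lemma wbd_single (w : List Side) (a : A) : wbd A (Finsupp.single w a) =
    ∑ c ∈ Finset.range (w.filter isFirst).length, (-1 : ℤ) ^ c • Finsupp.single (wdel c w) a := by
  simp [wbd]

/-- the two boundary operators -/
lemma wbd_map_enc {n : ℕ} (hn : 0 < n) (Z : Code →₀ A) (hZ : ∀ N ∈ Z.support, wf n N) :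
    wbd A (Z.mapDomain enc) = (cbd A Z).mapDomain enc := by
  classical
  induction Z using Finsupp.induction with
  | zero => simp
  | single_add N a Z hN ha ih =>
    have h1 : ∀ M ∈ Z.support, wf n M := by
      intro M hM
      apply hZ
      rw [Finsupp.mem_support_iff, Finsupp.add_apply, Finsupp.single_apply, if_neg, zero_add]
      · exact Finsupp.mem_support_iff.mp hM
      · rintro rfl; exact hN hM
    have h2 : wf n N := by
      apply hZ
      rw [Finsupp.mem_support_iff, Finsupp.add_apply, Finsupp.single_eq_same,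
        Finsupp.notMem_support_iff.mp hN, add_zero]
      exact ha
    rw [Finsupp.mapDomain_add, map_add, map_add, Finsupp.mapDomain_add, ih h1]
    congr 1
    rw [Finsupp.mapDomain_single, cbd_single, wbd_single]
    have h3 : ((enc N).filter isFirst).length = kk N := by
      rw [(enc_isWord hn h2).firsts]; simp
    rw [h3]
    have h4 : Finsupp.mapDomain enc (∑ c ∈ Finset.range (kk N),
        (-1 : ℤ) ^ c • Finsupp.single (cdel c N) a) =
        ∑ c ∈ Finset.range (kk N), (-1 : ℤ) ^ c • Finsupp.single (enc (cdel c N)) a := by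
      have := map_sum (Finsupp.lmapDomain A ℤ enc)
        (fun c => (-1 : ℤ) ^ c • (Finsupp.single (cdel c N) a : Code →₀ A)) (Finset.range (kk N))
      simp only [map_smul, Finsupp.lmapDomain_apply, Finsupp.mapDomain_single] at this
      exact this
    rw [h4]
    apply Finset.sum_congr rfl
    intro c hc
    rw [enc_cdel h2 (Finset.mem_range.mp hc)]

open Classical in
/-- the code of a word -/
noncomputable def dec (n : ℕ) (w : List Side) : Code :=
  if h : ∃ N, wf n N ∧ enc N = w then h.choose else Code.nil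

lemma dec_enc {n : ℕ} {N : Code} (h : wf n N) : dec n (enc N) = N := by
  have hex : ∃ M, wf n M ∧ enc M = enc N := ⟨N, h, rfl⟩
  unfold dec
  rw [dif_pos hex]
  exact enc_injective hex.choose_spec.1 h hex.choose_spec.2

lemma mapDomain_dec_enc {n : ℕ} (Z : Code →₀ A) (hZ : ∀ N ∈ Z.support, wf n N) :
    (Z.mapDomain enc).mapDomain (dec n) = Z := by
  rw [← Finsupp.mapDomain_comp]
  conv_rhs => rw [← Finsupp.mapDomain_id (v := Z)]
  exact Finsupp.mapDomain_congr fun N hN => dec_enc (hZ N hN)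

lemma support_cbd {n : ℕ} (Z : Code →₀ A) (hZ : ∀ N ∈ Z.support, wf n N) :
    ∀ N ∈ (cbd A Z).support, wf n N := by
  classical
  intro M hM
  have h1 : cbd A Z = Z.sum fun N a => ∑ c ∈ Finset.range (kk N),
      (-1 : ℤ) ^ c • Finsupp.single (cdel c N) a := by
    conv_lhs => rw [← Finsupp.sum_single Z]
    rw [Finsupp.sum, map_sum, Finsupp.sum]
    exact Finset.sum_congr rfl fun N _ => cbd_single N _
  rw [h1, Finsupp.sum] at hM
  obtain ⟨N, hN, hN2⟩ := Finset.mem_biUnion.mp (Finsupp.support_finsetSum hM)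
  obtain ⟨c, hc, hc2⟩ := Finset.mem_biUnion.mp (Finsupp.support_finsetSum hN2)
  have h2 := Finsupp.support_smul hc2
  have h3 := Finsupp.support_single_subset h2
  rw [Finset.mem_singleton] at h3
  rw [h3]
  exact wf_cdel (hZ N hN) (Finset.mem_range.mp hc)

/-- Theorem C for words, from Theorem C for codes -/
theorem words_spherical_of {n : ℕ} (hn : 0 < n) (ρ : Perm ℕ)
    (hρ : ∀ j, n ≤ j → ρ j = j) (d k : ℕ)
    (hcodes : ∀ z : Code →₀ A, (∀ N ∈ z.support, wf n N ∧ kk N = k ∧
        k + (cc N + ncyc (ρ * nu N) (Set.Iio n)) ≤ d + 1) → cbd A z = 0 →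
      ∃ y : Code →₀ A, (∀ N ∈ y.support, wf n N ∧ kk N = k + 1 ∧
        k + 1 + (cc N + ncyc (ρ * nu N) (Set.Iio n)) ≤ d + 1) ∧ cbd A y = z)
    (z : List Side →₀ A) (hz : ∀ w ∈ z.support, w ∈ CW n ρ d k)
    (hd : wbd A z = 0) :
    ∃ y : List Side →₀ A, (∀ w ∈ y.support, w ∈ CW n ρ d (k + 1)) ∧ wbd A y = z := by
  classical
  set Z := z.mapDomain (dec n) with hZdef
  have hw : ∀ w ∈ z.support, ∃ N, wf n N ∧ kk N = k ∧ enc N = w :=
    fun w hw => exists_code (hz w hw).1
  have hZ : ∀ N ∈ Z.support, wf n N ∧ kk N = k ∧ enc N ∈ z.support := by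
    intro N hN
    obtain ⟨w, hw1, rfl⟩ := Finset.mem_image.mp (Finsupp.mapDomain_support hN)
    obtain ⟨M, hM1, hM2, rfl⟩ := hw w hw1
    rw [dec_enc hM1]
    exact ⟨hM1, hM2, hw1⟩
  have hback : Z.mapDomain enc = z := by
    rw [hZdef, ← Finsupp.mapDomain_comp]
    conv_rhs => rw [← Finsupp.mapDomain_id (v := z)]
    apply Finsupp.mapDomain_congr
    intro w hw1
    obtain ⟨M, hM1, hM2, rfl⟩ := hw w hw1
    simp only [Function.comp_apply, dec_enc hM1, id]
  have hZwf : ∀ N ∈ Z.support, wf n N := fun N hN => (hZ N hN).1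
  have hcyc : cbd A Z = 0 := by
    have h1 := wbd_map_enc hn Z hZwf
    rw [hback, hd] at h1
    have h2 := mapDomain_dec_enc (cbd A Z) (support_cbd Z hZwf)
    rw [← h1, Finsupp.mapDomain_zero] at h2
    exact h2.symm
  obtain ⟨Y, hY, hYZ⟩ := hcodes Z (by
    intro N hN
    obtain ⟨h1, h2, h3⟩ := hZ N hN
    have h4 := (hz _ h3).2
    rw [ncyc_face_enc hn h1 ρ hρ] at h4
    exact ⟨h1, h2, h4⟩) hcyc
  refine ⟨Y.mapDomain enc, ?_, ?_⟩
  · intro w hw1
    obtain ⟨N, hN, rfl⟩ := Finset.mem_image.mp (Finsupp.mapDomain_support hw1)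
    obtain ⟨h1, h2, h3⟩ := hY N hN
    refine ⟨?_, ?_⟩
    · rw [← h2]; exact enc_isWord hn h1
    · rw [ncyc_face_enc hn h1 ρ hρ]; exact h3
  · rw [wbd_map_enc hn Y (fun N hN => (hY N hN).1), hYZ, hback]

end ArcC
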