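import Mathlib
import Pool.Agent.Lib.MP_e5080e_gt.Words4
import Pool.Agent.Lib.MP_e5080e_gt.LevLemmas

/-! Deletion of an arc preserves the sets `CW`. -/

namespace ArcC

open Equiv Code Side

lemma ncyc_swap_mul_le {α : Type*} [DecidableEq α] (p : Perm α) {F : Set α} (hfin : F.Finite)
    (hF : ∀ x ∈ F, p x ∈ F) {a b : α} (ha : a ∈ F) (hb : b ∈ F) :
    ncyc (swap a b * p) F ≤ ncyc p F + 1 := by
  by_cases hab : a = b
  · subst hab
    rw [swap_self]
    have : (Equiv.refl α : Perm α) * p = p := one_mul p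
    rw [this]; omega
  by_cases h : p.SameCycle a b
  · rw [ncyc_swap_mul_split p hfin hF ha hb hab h]
  · have := ncyc_swap_mul_merge p hfin hF ha hb h
    omega

/-- the level of the closed code does not increase under a deletion -/
theorem lev_ncyc_cdel_le {n : ℕ} {N : Code} {c : ℕ} (h : wf n N) (hc : c < kk N) (ρ : Perm ℕ)
    (hρ : ∀ j, n ≤ j → ρ j = j) :
    lev (cdel c N) + ncyc (ρ * nu (cdel c N)) (Set.Iio n) ≤
      lev N + ncyc (ρ * nu N) (Set.Iio n) := by
  rcases step_cases hc with ⟨h1, h2⟩ | ⟨a, b, hab, h1, h2⟩ | ⟨h1, h2⟩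
  · rw [h1, h2]
  · have hq : ∀ j, n ≤ j → (ρ * nu N) j = j := fun j hj => by
      rw [Perm.mul_apply, nu_fix_w h j hj, hρ j hj]
    have hsw : ∀ j, n ≤ j → swap a b j = j := by
      intro j hj
      have h3 := nu_fix_w (wf_cdel h hc) j hj
      rw [h2, Perm.mul_apply] at h3
      have h4 := nu_fix_w h j hj
      exact (nu N).injective (h3.trans h4.symm)
    have ha : a < n := by
      by_contra h3
      have := hsw a (by omega)
      rw [swap_apply_left] at this
      exact hab this.symm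
    have hb : b < n := by
      by_contra h3
      have := hsw b (by omega)
      rw [swap_apply_right] at this
      exact hab this
    have h5 : ρ * nu (cdel c N) = swap ((ρ * nu N) a) ((ρ * nu N) b) * (ρ * nu N) := by
      rw [h2, ← mul_assoc, Equiv.mul_swap_eq_swap_mul]
    have h6 : ∀ x ∈ Set.Iio n, (ρ * nu N) x ∈ Set.Iio n := fun x hx => perm_lt_of_fix hq hx
    have h7 := ncyc_swap_mul_le (ρ * nu N) (Set.finite_Iio n) h6 (h6 a ha) (h6 b hb)
    rw [h5]
    omega
  · rw [h2]; omega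

/-- deletion of an arc preserves the sets `CW` -/
theorem wdel_mem_CW {n : ℕ} {ρ : Perm ℕ} (hρ : ∀ j, n ≤ j → ρ j = j) {d k c : ℕ}
    {w : List Side} (hw : w ∈ CW n ρ d (k + 1)) (hc : c < k + 1) : wdel c w ∈ CW n ρ d k := by
  obtain ⟨h1, h2⟩ := hw
  have hn := isWord_pos h1
  obtain ⟨N, hN, hk, rfl⟩ := exists_code h1
  have hc' : c < kk N := by omega
  have hkk := kk_cdel hc'
  have hN' := wf_cdel hN hc'
  rw [ncyc_face_enc hn hN ρ hρ] at h2
  rw [← enc_cdel hN hc']
  refine ⟨?_, ?_⟩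
  · have := enc_isWord hn hN'
    rwa [show kk (cdel c N) = k by omega] at this
  · rw [ncyc_face_enc hn hN' ρ hρ]
    have := lev_ncyc_cdel_le hN hc' ρ hρ
    unfold lev at this
    omega

end ArcC
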