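import Mathlib
import Pool.Agent.Lib.MP_e5080e_gt.Words5
import Pool.Agent.Lib.MP_e5080e_gt.CodesSph

/-! Theorem C for words. -/

namespace ArcC

open Equiv Code Side

/-- The complex of the words with rotation `ρ` and at most the given Betti number is exact below
the top degree. -/
theorem words_spherical {A : Type} [AddCommGroup A] {n : ℕ} (hn : 0 < n) (ρ : Perm ℕ)
    (hρ : ∀ j, n ≤ j → ρ j = j) (d : ℕ) (hpar : (d + 1) % 2 = ncyc ρ (Set.Iio n) % 2)
    (k : ℕ) (hk : k < d) (z : List Side →₀ A) (hz : ∀ w ∈ z.support, w ∈ CW n ρ d k)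
    (hd : wbd A z = 0) :
    ∃ y : List Side →₀ A, (∀ w ∈ y.support, w ∈ CW n ρ d (k + 1)) ∧ wbd A y = z :=
  words_spherical_of hn ρ hρ d k (codes_spherical hn ρ hρ d hpar k hk) z hz hd

end ArcC
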