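import Mathlib
import Pool.Agent.Lib.MP_e5080e_gt.Db
import Pool.Agent.Lib.MP_e5080e_gt.WordsSph
import Pool.Agent.Lib.MP_e5080e_gt.Punct
import Pool.Agent.Lib.MP_e5080e_gt.Main

/-! The main theorem on the chains of arc families. -/

namespace ArcC

open Side Equiv

lemma wData : WData :=
  ⟨fun _ _ _ _ _ hρ _ hw _ hc => wdel_mem_CW hρ hw hc,
    fun _ _ _ hn ρ hρ d hpar k hk z hz hd => words_spherical hn ρ hρ d hpar k hk z hz hd⟩

theorem main {A : Type} [AddCommGroup A] (F : Surf) (K R : ℕ) (hR : 1 ≤ R) (z : Fam →₀ A)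
    (hz : ∀ α ∈ z.support, α.IsFam0 F ∧ α.arcs = K ∧ α.rank = R)
    (hd : fbd A Fam.changes z = 0) :
    ∃ y : Fam →₀ A, (∀ α ∈ y.support, α.IsFam0 F ∧ α.arcs = K + 1 ∧ α.rank + 1 = R) ∧
      fbd A Fam.changes y = z :=
  Assemble.main_of F K R (fun z hz hd => claim1_of wData F K R hR z hz hd)
    (fun u hu hd => claim2 F K R u hu hd) z hz hd

end ArcC
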