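import Mathlib
import Pool.Agent.Lib.MP_e5080e_gt.Final

/-! Collapse of the spectral sequence in terms of finitely supported functions. -/

namespace ArcC.Coll

open ArcC

/-- `α` is (the normal form of) the orbit of an arc family in `F`: arc families are nonempty. -/
def IsArcFam' (F : Surf) (α : Fam) : Prop := α.IsFam0 F ∧ 1 ≤ α.arcs

/-- `E^0_{u,v}`: the integral chains all of whose cells `σ[α]`, of dimension `p = |α| - 1`, satisfy
`v = - rank H_1(F_α)` and `u = p - v`. -/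
def E0 (F : Surf) (u v : ℤ) : AddSubgroup (Fam →₀ ℤ) where
  carrier := {x | ∀ α, x α ≠ 0 →
    IsArcFam' F α ∧ v = -(α.rank : ℤ) ∧ u = ((α.arcs : ℤ) - 1) - v}
  zero_mem' := fun _ h => absurd rfl h
  add_mem' := fun {x y} hx hy α h => by
    by_cases hxα : x α = 0
    · exact hy α (by rwa [Finsupp.add_apply, hxα, zero_add] at h)
    · exact hx α hxα
  neg_mem' := fun {x} hx α h => hx α (by rwa [Finsupp.neg_apply, neg_ne_zero] at h)

/-- The part `∂²` of the cellular boundary operator: the sum over those codimension one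
faces `σ[α.del c]` (with the sign `(-1)^c` given by the ordering of the arcs) of `σ[α]` for which the
rank of `H_1` changes.  (The family `α.del c` has to be nonempty.) -/
noncomputable def d2 : (Fam →₀ ℤ) →+ (Fam →₀ ℤ) where
  toFun := fun x => x.sum fun α a => ∑ c ∈ (Finset.range α.arcs).filter
    (fun c => 2 ≤ α.arcs ∧ (α.del c).rank ≠ α.rank), Finsupp.single (α.del c) ((-1) ^ c * a)
  map_zero' := Finsupp.sum_zero_index
  map_add' := fun x y => by
    refine Finsupp.sum_add_index' (fun α => ?_) (fun α a b => ?_)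
    · simp
    · rw [← Finset.sum_add_distrib]
      refine Finset.sum_congr rfl fun c _ => ?_
      rw [mul_add, Finsupp.single_add]

/-- The cycles of `∂²` in `E^0_{u,v}`. -/
noncomputable def Z1 (F : Surf) (u v : ℤ) : AddSubgroup (Fam →₀ ℤ) := E0 F u v ⊓ d2.ker

/-- The boundaries of `∂²` in `E^0_{u,v}`: the image of `E^0_{u,v+1}`. -/
noncomputable def B1 (F : Surf) (u v : ℤ) : AddSubgroup (Fam →₀ ℤ) := (E0 F u (v + 1)).map d2

/-- The top horizontal row is the row with the largest value of `v` that occurs. -/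
def IsTop (F : Surf) (v : ℤ) : Prop := IsGreatest {w : ℤ | ∃ u, E0 F u w ≠ ⊥} v

lemma mem_E0 {F : Surf} {u v : ℤ} {x : Fam →₀ ℤ} : x ∈ E0 F u v ↔
    ∀ α, x α ≠ 0 → IsArcFam' F α ∧ v = -(α.rank : ℤ) ∧ u = ((α.arcs : ℤ) - 1) - v := Iff.rfl

lemma d2_single (α : Fam) (a : ℤ) : d2 (Finsupp.single α a) =
    if 2 ≤ α.arcs then fbd ℤ Fam.changes (Finsupp.single α a) else 0 := by
  classical
  rw [ArcC.Sq.fbd_single, ← Finset.sum_filter]
  change (Finsupp.single α a).sum (fun α a => ∑ c ∈ (Finset.range α.arcs).filter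
    (fun c => 2 ≤ α.arcs ∧ (α.del c).rank ≠ α.rank),
      Finsupp.single (α.del c) ((-1) ^ c * a)) = _
  rw [Finsupp.sum_single_index (by simp)]
  split_ifs with h
  · refine Finset.sum_congr ?_ fun c _ => ?_
    · refine Finset.filter_congr fun c _ => ?_
      simp [h, Fam.changes]
    · rw [Finsupp.smul_single, smul_eq_mul]
  · rw [Finset.filter_false_of_mem, Finset.sum_empty]
    intro c _ h'
    exact h h'.1

lemma eq_sum (x : Fam →₀ ℤ) : x = ∑ α ∈ x.support, Finsupp.single α (x α) :=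
  (Finsupp.sum_single x).symm

/-- In positive dimensions `d2` is the operator `fbd` of the library. -/
lemma d2_eq_fbd {x : Fam →₀ ℤ} (hx : ∀ α, x α ≠ 0 → 2 ≤ α.arcs) :
    d2 x = fbd ℤ Fam.changes x := by
  rw [eq_sum x, map_sum, map_sum]
  refine Finset.sum_congr rfl fun α hα => ?_
  rw [d2_single, if_pos (hx α (Finsupp.mem_support_iff.1 hα))]

lemma d2_eq_zero {x : Fam →₀ ℤ} (hx : ∀ α, x α ≠ 0 → α.arcs < 2) : d2 x = 0 := by
  rw [eq_sum x, map_sum]
  refine Finset.sum_eq_zero fun α hα => ?_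
  rw [d2_single, if_neg (by have := hx α (Finsupp.mem_support_iff.1 hα); omega)]

/-- `∂²` maps `E^0_{u,v}` to `E^0_{u,v-1}` -/
theorem d2_mem {F : Surf} {u v : ℤ} {x : Fam →₀ ℤ} (hx : x ∈ E0 F u v) :
    d2 x ∈ E0 F u (v - 1) := by
  rw [mem_E0] at hx
  by_cases h : ∀ α, x α ≠ 0 → α.arcs < 2
  · rw [d2_eq_zero h]; exact AddSubgroup.zero_mem _
  · have h2 : ∀ α, x α ≠ 0 → 2 ≤ α.arcs := by
      push Not at h
      obtain ⟨β, hβ, hβ2⟩ := h
      intro α hα
      have h1 := (hx α hα).2.2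
      have h2 := (hx β hβ).2.2
      omega
    rw [d2_eq_fbd h2, mem_E0]
    intro β hβ
    obtain ⟨α, hα, c, hc, h3, rfl⟩ := ArcC.Assemble.mem_support_fbd
      (Finsupp.mem_support_iff.2 hβ)
    rw [Finsupp.mem_support_iff] at hα
    obtain ⟨⟨h4, _⟩, h5, h6⟩ := hx α hα
    have h7 := Fam.arcs_del h4 hc
    have h8 := (ArcC.Sq.changes_iff h4 hc).1 h3
    have h9 := h2 α hα
    refine ⟨⟨Fam.IsFam0.del h4 hc, by omega⟩, by rw [h8]; push_cast; omega, by omega⟩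

/-- `∂² ∂² = 0` on `E^0_{u,v}` -/
theorem d2_d2 {F : Surf} {u v : ℤ} {x : Fam →₀ ℤ} (hx : x ∈ E0 F u v) : d2 (d2 x) = 0 := by
  have hx' := hx
  rw [mem_E0] at hx
  by_cases h0 : x = 0
  · rw [h0, map_zero, map_zero]
  obtain ⟨β, hβ⟩ := Finsupp.ne_iff.1 h0
  rw [Finsupp.zero_apply] at hβ
  by_cases h : β.arcs < 3
  · refine d2_eq_zero fun α hα => ?_
    obtain ⟨_, h2, h3⟩ := (mem_E0.1 (d2_mem hx')) α hα
    have h4 := (hx β hβ).2.2
    omega
  · have h2 : ∀ α, x α ≠ 0 → 3 ≤ α.arcs := by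
      intro α hα
      have h1 := (hx α hα).2.2
      have h2 := (hx β hβ).2.2
      omega
    have h3 : ∀ α, d2 x α ≠ 0 → 2 ≤ α.arcs := by
      intro α hα
      obtain ⟨_, h4, h5⟩ := (mem_E0.1 (d2_mem hx')) α hα
      have h6 := (hx β hβ).2.2
      omega
    rw [d2_eq_fbd h3, d2_eq_fbd (fun α hα => by have := h2 α hα; omega)]
    exact ArcC.Sq.fbd_sq (F := F) x (fun α hα => (hx α (Finsupp.mem_support_iff.1 hα)).1.1)

theorem B1_le_Z1 (F : Surf) (u v : ℤ) : B1 F u v ≤ Z1 F u v := by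
  rintro _ ⟨x, hx, rfl⟩
  refine ⟨?_, ?_⟩
  · have := d2_mem hx
    rwa [add_sub_cancel_right] at this
  · exact d2_d2 hx

/-- exactness below the top row in positive dimensions -/
theorem exact (F : Surf) (u v : ℤ) (hv : ¬ IsTop F v) (huv : u + v ≠ 0) :
    Z1 F u v ≤ B1 F u v := by
  rintro x ⟨hx1, hx2⟩
  replace hx1 : x ∈ E0 F u v := hx1
  replace hx2 : d2 x = 0 := hx2
  have hx := mem_E0.1 hx1
  by_cases h0 : x = 0
  · rw [h0]
    exact AddSubgroup.zero_mem _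
  obtain ⟨α, hα⟩ := Finsupp.ne_iff.1 h0
  rw [Finsupp.zero_apply] at hα
  obtain ⟨⟨h1, h2⟩, h3, h4⟩ := hx α hα
  -- there is a family in a higher row
  obtain ⟨w, ⟨u', hw⟩, hvw⟩ : ∃ w ∈ {w : ℤ | ∃ u, E0 F u w ≠ ⊥}, v < w := by
    by_contra hc
    push Not at hc
    refine hv ⟨⟨u, ?_⟩, fun w hw => hc w hw⟩
    intro h
    rw [h, AddSubgroup.mem_bot] at hx1
    exact h0 hx1
  obtain ⟨⟨x', hx'⟩, hx'0⟩ := AddSubgroup.ne_bot_iff_exists_ne_zero.1 hw
  obtain ⟨β, hβ⟩ := Finsupp.ne_iff.1 (fun h => hx'0 (Subtype.ext h) : x' ≠ 0)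
  rw [Finsupp.zero_apply] at hβ
  have hβ2 := ((mem_E0.1 hx') β hβ).2.1
  have hsup : ∀ γ, x γ ≠ 0 → γ.IsFam0 F ∧ γ.arcs = α.arcs ∧ γ.rank = α.rank := by
    intro γ hγ
    obtain ⟨⟨h5, _⟩, h6, h7⟩ := hx γ hγ
    exact ⟨h5, by omega, by omega⟩
  rw [d2_eq_fbd (fun γ hγ => by have := (hsup γ hγ).2.1; omega)] at hx2
  obtain ⟨y, hy1, hy2⟩ := ArcC.main F α.arcs α.rank (by omega) x
    (fun γ hγ => hsup γ (Finsupp.mem_support_iff.1 hγ)) hx2
  refine ⟨y, ?_, ?_⟩
  · change y ∈ E0 F u (v + 1)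
    rw [mem_E0]
    intro γ hγ
    obtain ⟨h5, h6, h7⟩ := hy1 γ (Finsupp.mem_support_iff.2 hγ)
    exact ⟨⟨h5, by omega⟩, by omega, by omega⟩
  · rw [d2_eq_fbd (fun γ hγ => by
      have := (hy1 γ (Finsupp.mem_support_iff.2 hγ)).2.1; omega)]
    exact hy2

end ArcC.Coll
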