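import Mathlib
import Pool.Agent.Lib.MP_e5080e_gt.Base

/-!
# The columns of the spectral sequence of the arc complex and its `E^1`-term (MP_e5080e_gt)

The bordered surface `F` (genus `F.g`, `F.s` punctures, `F.n` distinguished points on the boundary,
numbered `0, ..., F.n - 1`, the next distinguished point after `j` along its boundary component
being `F.rot j`) and the orbits of arc families in `F` under the pure mapping class group are
encoded as in `Base.lean`.
-/

namespace ArcC.Page

open ArcC

/-- `α` is (the normal form of) the orbit of an arc family in `F`: arc families are nonempty. -/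
def IsArcFam (F : Surf) (α : Fam) : Prop := α.IsFam0 F ∧ 1 ≤ α.arcs

/-- `E^0_{u,v}`: the span of the cells `σ[α]`, of dimension `p = |α| - 1`, with
`v = - rank H_1(F_α)` and `u = p - v`. -/
def E0 (F : Surf) (u v : ℤ) : AddSubgroup (FreeAbelianGroup Fam) :=
  AddSubgroup.closure (FreeAbelianGroup.of ''
    {α | IsArcFam F α ∧ v = -(α.rank : ℤ) ∧ u = ((α.arcs : ℤ) - 1) - v})

/-- The part `∂²` of the cellular boundary operator: the sum over those codimension one
faces `σ[α.del c]` (with the sign `(-1)^c` given by the ordering of the arcs) of `σ[α]` for which the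
rank of `H_1` changes.  (The family `α.del c` has to be nonempty.) -/
noncomputable def d2 : FreeAbelianGroup Fam →+ FreeAbelianGroup Fam :=
  FreeAbelianGroup.lift fun α => ∑ c ∈ (Finset.range α.arcs).filter
    (fun c => 2 ≤ α.arcs ∧ (α.del c).rank ≠ α.rank), (-1 : ℤ) ^ c • FreeAbelianGroup.of (α.del c)

/-- The cycles of `∂²` in `E^0_{u,v}`. -/
noncomputable def Z1 (F : Surf) (u v : ℤ) : AddSubgroup (FreeAbelianGroup Fam) :=
  E0 F u v ⊓ d2.ker

/-- The boundaries of `∂²` in `E^0_{u,v}`: the image of `E^0_{u,v+1}`. -/
noncomputable def B1 (F : Surf) (u v : ℤ) : AddSubgroup (FreeAbelianGroup Fam) :=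
  (E0 F u (v + 1)).map d2

/-- The group `E^1_{u,v}`. -/
abbrev E1 (F : Surf) (u v : ℤ) : Type := Z1 F u v ⧸ (B1 F u v).addSubgroupOf (Z1 F u v)

/-- The top horizontal row is the row with the largest value of `v` that occurs. -/
def IsTop (F : Surf) (v : ℤ) : Prop := IsGreatest {w : ℤ | ∃ u, E0 F u w ≠ ⊥} v

end ArcC.Page
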