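import Mathlib
import Pool.Agent.Lib.MP_e5080e_gt.CollapseF
import Pool.Agent.Lib.MP_e5080e_gt.Page

/-! Collapse of the spectral sequence: comparison of free abelian groups and finitely supported
functions. -/

namespace ArcC.Page

open ArcC

open FreeAbelianGroup

lemma toFinsupp_d2 (x : FreeAbelianGroup Fam) : toFinsupp (d2 x) = Coll.d2 (toFinsupp x) := by
  have h : toFinsupp.comp d2 = Coll.d2.comp toFinsupp := by
    refine FreeAbelianGroup.lift_ext _ _ fun α => ?_
    rw [AddMonoidHom.comp_apply, AddMonoidHom.comp_apply, toFinsupp_of, d2,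
      FreeAbelianGroup.lift_apply_of, map_sum]
    change _ = (Finsupp.single α 1).sum fun α a => ∑ c ∈ (Finset.range α.arcs).filter
      (fun c => 2 ≤ α.arcs ∧ (α.del c).rank ≠ α.rank), Finsupp.single (α.del c) ((-1) ^ c * a)
    rw [Finsupp.sum_single_index (by simp)]
    refine Finset.sum_congr rfl fun c _ => ?_
    rw [map_zsmul, toFinsupp_of, Finsupp.smul_single, smul_eq_mul]
  exact DFunLike.congr_fun h x

lemma toFinsupp_mem {F : Surf} {u v : ℤ} {x : FreeAbelianGroup Fam} :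
    toFinsupp x ∈ Coll.E0 F u v ↔ x ∈ E0 F u v := by
  constructor
  · intro h
    rw [eq_sum_support_coeff_smul_of x]
    refine AddSubgroup.sum_mem _ fun α hα => AddSubgroup.zsmul_mem _ ?_ _
    refine AddSubgroup.subset_closure ⟨α, ?_, rfl⟩
    exact h α ((FreeAbelianGroup.mem_support_iff α x).1 hα)
  · intro h
    refine AddSubgroup.closure_induction (p := fun x _ => toFinsupp x ∈ Coll.E0 F u v)
      ?_ ?_ ?_ ?_ h
    · rintro _ ⟨α, hα, rfl⟩ β hβ
      rw [toFinsupp_of] at hβ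
      by_cases hαβ : β = α
      · rw [hαβ]; exact hα
      · exact absurd (Finsupp.single_eq_of_ne hαβ) hβ
    · rw [map_zero]; exact AddSubgroup.zero_mem _
    · intro x y _ _ hx hy
      rw [map_add]; exact AddSubgroup.add_mem _ hx hy
    · intro x _ hx
      rw [map_neg]; exact AddSubgroup.neg_mem _ hx

lemma toFinsupp_inj {x y : FreeAbelianGroup Fam} (h : toFinsupp x = toFinsupp y) : x = y := by
  rw [← Finsupp.toFreeAbelianGroup_toFinsupp x, h, Finsupp.toFreeAbelianGroup_toFinsupp]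

/-- `∂²` maps `E^0_{u,v}` to `E^0_{u,v-1}`. -/
theorem d2_mem {F : Surf} {u v : ℤ} {x : FreeAbelianGroup Fam} (hx : x ∈ E0 F u v) :
    d2 x ∈ E0 F u (v - 1) := by
  rw [← toFinsupp_mem, toFinsupp_d2]
  exact Coll.d2_mem (toFinsupp_mem.2 hx)

/-- `∂² ∂² = 0`. -/
theorem d2_d2 {F : Surf} {u v : ℤ} {x : FreeAbelianGroup Fam} (hx : x ∈ E0 F u v) :
    d2 (d2 x) = 0 := by
  refine toFinsupp_inj ?_
  rw [toFinsupp_d2, toFinsupp_d2, map_zero]
  exact Coll.d2_d2 (toFinsupp_mem.2 hx)

/-- Boundaries are cycles. -/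
theorem B1_le_Z1 (F : Surf) (u v : ℤ) : B1 F u v ≤ Z1 F u v := by
  rintro _ ⟨x, hx, rfl⟩
  refine ⟨?_, ?_⟩
  · have := d2_mem hx
    rwa [add_sub_cancel_right] at this
  · exact d2_d2 hx

lemma isTop_iff (F : Surf) (v : ℤ) : IsTop F v ↔ Coll.IsTop F v := by
  have h : ∀ u w, E0 F u w = ⊥ ↔ Coll.E0 F u w = ⊥ := by
    intro u w
    constructor
    · intro h
      rw [AddSubgroup.eq_bot_iff_forall] at h ⊢
      intro y hy
      have h1 := h (Finsupp.toFreeAbelianGroup y) (by
        rw [← toFinsupp_mem, toFinsupp_toFreeAbelianGroup]; exact hy)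
      rw [← toFinsupp_toFreeAbelianGroup y, h1, map_zero]
    · intro h
      rw [AddSubgroup.eq_bot_iff_forall] at h ⊢
      intro x hx
      refine toFinsupp_inj ?_
      rw [map_zero]
      exact h _ (toFinsupp_mem.2 hx)
  unfold IsTop Coll.IsTop
  simp only [ne_eq, h]

/-- **Collapse of the spectral sequence at `E^1`**: for every bordered surface `F`, `E^1_{u,v} = 0`
whenever `v` is not the top value and `u + v ≠ 0`. -/
theorem collapse (F : Surf) (u v : ℤ) (hv : ¬ IsTop F v) (huv : u + v ≠ 0) :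
    Subsingleton (E1 F u v) := by
  rw [QuotientAddGroup.subsingleton_iff, AddSubgroup.addSubgroupOf_eq_top]
  rintro x ⟨hx1, hx2⟩
  obtain ⟨y, hy1, hy2⟩ := Coll.exact F u v (fun h => hv ((isTop_iff F v).2 h)) huv
    (show toFinsupp x ∈ Coll.Z1 F u v from ⟨toFinsupp_mem.2 hx1, by
      change Coll.d2 (toFinsupp x) = 0
      rw [← toFinsupp_d2, show d2 x = 0 from hx2, map_zero]⟩)
  refine ⟨Finsupp.toFreeAbelianGroup y, ?_, ?_⟩
  · change _ ∈ E0 F u (v + 1)
    rw [← toFinsupp_mem, toFinsupp_toFreeAbelianGroup]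
    exact hy1
  · refine toFinsupp_inj ?_
    rw [toFinsupp_d2, toFinsupp_toFreeAbelianGroup]
    exact hy2

end ArcC.Page
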