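import Pool.Agent.Lib.MP_e5080e_gt.Defs

/-!
Kuenneth type algebra for Claim 1 (abstract part).
-/

namespace ArcC

open Side

section Bi

variable {A : Type} [AddCommGroup A]

/-- the word part of the boundary of bichains -/
noncomputable def wbdS (A : Type) [AddCommGroup A] :
    (Fam →₀ (List Side →₀ A)) →ₗ[ℤ] (Fam →₀ (List Side →₀ A)) :=
  Finsupp.lsum ℤ fun α => (-1 : ℤ) ^ α.arcs •
    ((Finsupp.lsingle α : (List Side →₀ A) →ₗ[ℤ] _) ∘ₗ wbd A)

/-- the boundary of bichains -/
noncomputable def DDb (A : Type) [AddCommGroup A] :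
    (Fam →₀ (List Side →₀ A)) →ₗ[ℤ] (Fam →₀ (List Side →₀ A)) :=
  wbdS A + fbd (List Side →₀ A) Fam.selfArc

theorem wbdS_single (α : Fam) (b : List Side →₀ A) :
    wbdS A (Finsupp.single α b) = (-1 : ℤ) ^ α.arcs • Finsupp.single α (wbd A b) := by
  unfold wbdS
  rw [Finsupp.lsum_single]
  rfl

theorem wbdS_apply (x : Fam →₀ (List Side →₀ A)) (α : Fam) :
    wbdS A x α = (-1 : ℤ) ^ α.arcs • wbd A (x α) := by
  classical
  induction x using Finsupp.induction_linear with
  | zero => simp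
  | add x y hx hy => rw [map_add, Finsupp.add_apply, hx, hy, Finsupp.add_apply, map_add, smul_add]
  | single β b =>
    rw [wbdS_single, Finsupp.smul_apply]
    by_cases h : β = α
    · subst h; rw [Finsupp.single_eq_same, Finsupp.single_eq_same]
    · rw [Finsupp.single_eq_of_ne (Ne.symm h), Finsupp.single_eq_of_ne (Ne.symm h), map_zero,
        smul_zero, smul_zero]

theorem wbd_singleD (w : List Side) (a : A) :
    wbd A (Finsupp.single w a) = ∑ c ∈ Finset.range (w.filter isFirst).length,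
      (-1 : ℤ) ^ c • Finsupp.single (wdel c w) a := by
  unfold wbd
  rw [Finsupp.lsum_single, LinearMap.sum_apply]
  rfl

open Classical in
theorem fbd_single {B : Type} [AddCommGroup B] (S : Fam → ℕ → Prop) (α : Fam) (b : B) :
    fbd B S (Finsupp.single α b) = ∑ c ∈ (Finset.range α.arcs).filter (S α),
      (-1 : ℤ) ^ c • Finsupp.single (α.del c) b := by
  unfold fbd
  rw [Finsupp.lsum_single, LinearMap.sum_apply]
  rfl

/-- naturality in the coefficients -/
theorem fbd_map {B C : Type} [AddCommGroup B] [AddCommGroup C] (φ : B →ₗ[ℤ] C)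
    (S : Fam → ℕ → Prop) (x : Fam →₀ B) :
    fbd C S (Finsupp.mapRange.linearMap φ x) = Finsupp.mapRange.linearMap φ (fbd B S x) := by
  classical
  induction x using Finsupp.induction_linear with
  | zero => simp
  | add x y hx hy => rw [map_add, map_add, hx, hy, map_add, map_add]
  | single α b =>
    rw [Finsupp.mapRange.linearMap_apply, Finsupp.mapRange_single, fbd_single, fbd_single, map_sum]
    refine Finset.sum_congr rfl fun c _ => ?_
    rw [map_zsmul, Finsupp.mapRange.linearMap_apply, Finsupp.mapRange_single]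

/-- chains supported on a set of families -/
def SuppF (B : Type) [AddCommGroup B] (T : Set Fam) : Submodule ℤ (Fam →₀ B) :=
  Finsupp.supported B ℤ T

theorem mem_suppF {B : Type} [AddCommGroup B] {T : Set Fam} {x : Fam →₀ B} :
    x ∈ SuppF B T ↔ ∀ α, x α ≠ 0 → α ∈ T := by
  unfold SuppF
  rw [Finsupp.mem_supported]
  constructor
  · intro h α hα
    exact h (Finsupp.mem_support_iff.2 hα)
  · intro h α hα
    exact h α (Finsupp.mem_support_iff.1 hα)

/-- chains supported on a set of words -/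
def SuppW (A : Type) [AddCommGroup A] (V : Set (List Side)) : Submodule ℤ (List Side →₀ A) :=
  Finsupp.supported A ℤ V

theorem mem_suppW {V : Set (List Side)} {x : List Side →₀ A} :
    x ∈ SuppW A V ↔ ∀ w, x w ≠ 0 → w ∈ V := by
  unfold SuppW
  rw [Finsupp.mem_supported]
  constructor
  · intro h α hα
    exact h (Finsupp.mem_support_iff.2 hα)
  · intro h α hα
    exact h α (Finsupp.mem_support_iff.1 hα)

theorem fbd_suppF {B : Type} [AddCommGroup B] {S : Fam → ℕ → Prop} {T T' : Set Fam}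
    (h : ∀ α ∈ T, ∀ c < α.arcs, S α c → α.del c ∈ T') {x : Fam →₀ B} (hx : x ∈ SuppF B T) :
    fbd B S x ∈ SuppF B T' := by
  classical
  have hx' := mem_suppF.1 hx
  rw [← Finsupp.sum_single x, Finsupp.sum, map_sum]
  refine Submodule.sum_mem _ fun α hα => ?_
  rw [fbd_single]
  refine Submodule.sum_mem _ fun c hc => Submodule.smul_mem _ _ ?_
  rw [Finset.mem_filter, Finset.mem_range] at hc
  exact Finsupp.single_mem_supported ℤ _ (h α (hx' α (Finsupp.mem_support_iff.1 hα)) c hc.1 hc.2)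

theorem wbd_suppW {V V' : Set (List Side)}
    (h : ∀ w ∈ V, ∀ c < (w.filter isFirst).length, wdel c w ∈ V') {x : List Side →₀ A}
    (hx : x ∈ SuppW A V) : wbd A x ∈ SuppW A V' := by
  classical
  have hx' := mem_suppW.1 hx
  rw [← Finsupp.sum_single x, Finsupp.sum, map_sum]
  refine Submodule.sum_mem _ fun w hw => ?_
  rw [wbd_singleD]
  refine Submodule.sum_mem _ fun c hc => Submodule.smul_mem _ _ ?_
  rw [Finset.mem_range] at hc
  exact Finsupp.single_mem_supported ℤ _ (h w (hx' w (Finsupp.mem_support_iff.1 hw)) c hc)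

/-- bichains supported on a set of pairs -/
def Supp2 (A : Type) [AddCommGroup A] (P : Set (Fam × List Side)) :
    Submodule ℤ (Fam →₀ (List Side →₀ A)) where
  carrier := {x | ∀ α w, x α w ≠ 0 → (α, w) ∈ P}
  add_mem' := by
    intro x y hx hy α w h
    rw [Finsupp.add_apply, Finsupp.add_apply] at h
    by_cases h1 : x α w = 0
    · rw [h1, zero_add] at h; exact hy α w h
    · exact hx α w h1
  zero_mem' := by
    intro α w h
    exact absurd rfl h
  smul_mem' := by
    intro c x hx α w h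
    rw [Finsupp.smul_apply, Finsupp.smul_apply] at h
    exact hx α w fun h1 => h (by rw [h1, smul_zero])

theorem mem_supp2 {P : Set (Fam × List Side)} {x : Fam →₀ (List Side →₀ A)} :
    x ∈ Supp2 A P ↔ ∀ α w, x α w ≠ 0 → (α, w) ∈ P := Iff.rfl

theorem single_mem_supp2 {P : Set (Fam × List Side)} {α : Fam} {b : List Side →₀ A}
    (h : ∀ w, b w ≠ 0 → (α, w) ∈ P) : Finsupp.single α b ∈ Supp2 A P := by
  classical
  intro β w hw
  rw [Finsupp.single_apply] at hw
  split_ifs at hw with h1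
  · subst h1; exact h w hw
  · exact absurd rfl hw

theorem supp2_row {P : Set (Fam × List Side)} {x : Fam →₀ (List Side →₀ A)}
    (hx : x ∈ Supp2 A P) (α : Fam) : x α ∈ SuppW A {w | (α, w) ∈ P} :=
  mem_suppW.2 fun w hw => hx α w hw

theorem supp2_col {P : Set (Fam × List Side)} {x : Fam →₀ (List Side →₀ A)}
    (hx : x ∈ Supp2 A P) : x ∈ SuppF (List Side →₀ A) {α | ∃ w, (α, w) ∈ P} := by
  refine mem_suppF.2 fun α hα => ?_
  by_contra hc
  apply hα
  ext w
  by_contra hw
  exact hc ⟨w, hx α w hw⟩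

theorem wbd_supp2 {P P' : Set (Fam × List Side)}
    (h : ∀ α w, (α, w) ∈ P → ∀ c < (w.filter isFirst).length, (α, wdel c w) ∈ P')
    {x : Fam →₀ (List Side →₀ A)} (hx : x ∈ Supp2 A P) :
    wbdS A x ∈ Supp2 A P' := by
  intro α w hw
  rw [wbdS_apply] at hw
  exact mem_suppW.1 (Submodule.smul_mem _ _ (wbd_suppW (V := {w | (α, w) ∈ P})
    (V' := {w | (α, w) ∈ P'}) (fun w hw c hc => h α w hw c hc) (supp2_row hx α))) w hw

theorem fbd_supp2 {P P' : Set (Fam × List Side)}
    (h : ∀ α w, (α, w) ∈ P → ∀ c < α.arcs, α.selfArc c → (α.del c, w) ∈ P')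
    {x : Fam →₀ (List Side →₀ A)} (hx : x ∈ Supp2 A P) :
    fbd (List Side →₀ A) Fam.selfArc x ∈ Supp2 A P' := by
  classical
  rw [← Finsupp.sum_single x, Finsupp.sum, map_sum]
  refine Submodule.sum_mem _ fun α hα => ?_
  rw [fbd_single]
  refine Submodule.sum_mem _ fun c hc => Submodule.smul_mem _ _ ?_
  rw [Finset.mem_filter, Finset.mem_range] at hc
  exact single_mem_supp2 fun w hw => h α w (hx α w hw) c hc.1 hc.2

theorem DDb_apply (x : Fam →₀ (List Side →₀ A)) (α : Fam) :
    DDb A x α = (-1 : ℤ) ^ α.arcs • wbd A (x α) + fbd (List Side →₀ A) Fam.selfArc x α := by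
  rw [← wbdS_apply]; rfl

theorem smul_wbd_eq_zero {n : ℕ} {x : List Side →₀ A} (h : (-1 : ℤ) ^ n • x = 0) : x = 0 := by
  have h1 : (-1 : ℤ) ^ n • ((-1 : ℤ) ^ n • x) = 0 := by rw [h, smul_zero]
  rw [smul_smul, ← mul_pow] at h1
  simpa using h1

/-- pairs of a fixed type in given degrees -/
def XC (T : Set Fam) (V : ℕ → Set (List Side)) (tb : Fam → ℕ) (d K R : ℕ) :
    Set (Fam × List Side) :=
  {p | p.1 ∈ T ∧ ∃ k, p.2 ∈ V k ∧ p.1.arcs + k = K ∧ d + tb p.1 = R + k}

theorem DDb_XC {T : Set Fam} {V : ℕ → Set (List Side)} {tb : Fam → ℕ} {d : ℕ}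
    (V1 : ∀ k, ∀ w ∈ V k, (w.filter isFirst).length = k)
    (V2 : ∀ k, ∀ w ∈ V (k + 1), ∀ c < k + 1, wdel c w ∈ V k)
    (T1 : ∀ α ∈ T, ∀ c < α.arcs, α.selfArc c → α.del c ∈ T ∧ (α.del c).arcs + 1 = α.arcs ∧
      tb (α.del c) = tb α + 1)
    {K R : ℕ} {x : Fam →₀ (List Side →₀ A)} (hx : x ∈ Supp2 A (XC T V tb d (K + 1) R)) :
    DDb A x ∈ Supp2 A (XC T V tb d K (R + 1)) := by
  have h1 : wbdS A x ∈ Supp2 A (XC T V tb d K (R + 1)) := by
    refine wbd_supp2 (fun α w hw c hc => ?_) hx
    obtain ⟨hT, k, hV, hK, hR⟩ := hw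
    have hk := V1 k w hV
    rw [hk] at hc
    obtain ⟨k, rfl⟩ : ∃ k', k = k' + 1 := ⟨k - 1, by omega⟩
    exact ⟨hT, k, V2 k w hV c hc, by simp only at hK ⊢; omega, by simp only at hR ⊢; omega⟩
  have h2 : fbd (List Side →₀ A) Fam.selfArc x ∈ Supp2 A (XC T V tb d K (R + 1)) := by
    refine fbd_supp2 (fun α w hw c hc hs => ?_) hx
    obtain ⟨hT, k, hV, hK, hR⟩ := hw
    obtain ⟨t1, t2, t3⟩ := T1 α hT c hc hs
    exact ⟨t1, k, hV, by simp only at hK ⊢; omega, by simp only at hR ⊢; omega⟩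
  exact Submodule.add_mem _ h1 h2

/-- the Kuenneth type argument for pairs of a fixed type -/
theorem kunneth_type {T : Set Fam} {V : ℕ → Set (List Side)} {tb : Fam → ℕ} {d K0 : ℕ}
    (V1 : ∀ k, ∀ w ∈ V k, (w.filter isFirst).length = k)
    (V2 : ∀ k, ∀ w ∈ V (k + 1), ∀ c < k + 1, wdel c w ∈ V k)
    (V3 : ∀ k, ∀ w ∈ V k, k ≤ d)
    (V4 : ∀ k < d, ∀ z ∈ SuppW A (V k), wbd A z = 0 → ∃ y ∈ SuppW A (V (k + 1)), wbd A y = z)
    (T1 : ∀ α ∈ T, ∀ c < α.arcs, α.selfArc c → α.del c ∈ T ∧ (α.del c).arcs + 1 = α.arcs ∧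
      tb (α.del c) = tb α + 1)
    (T2 : ∀ (B : Type) [AddCommGroup B] (K R : ℕ), 1 ≤ R → K ≤ K0 →
      ∀ z ∈ SuppF B {α | α ∈ T ∧ α.arcs = K ∧ tb α = R}, fbd B Fam.selfArc z = 0 →
      ∃ y ∈ SuppF B {α | α ∈ T ∧ α.arcs = K + 1 ∧ tb α + 1 = R}, fbd B Fam.selfArc y = z)
    {K R : ℕ} (hR : 1 ≤ R) (hK0 : K ≤ K0)
    (hDD : ∀ K' R', ∀ y ∈ Supp2 A (XC T V tb d K' R'), DDb A (DDb A y) = 0) :
    ∀ e m : ℕ, m + e = d → ∀ x ∈ Supp2 A (XC T V tb d K R), DDb A x = 0 →
      (∀ α, x α ≠ 0 → α.arcs + m ≤ K) →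
      ∃ y ∈ Supp2 A (XC T V tb d (K + 1) (R - 1)), DDb A y = x := by
  classical
  obtain ⟨R, rfl⟩ : ∃ R', R = R' + 1 := ⟨R - 1, by omega⟩
  simp only [Nat.add_sub_cancel]
  -- the contribution of `fbd` vanishes in the relevant degrees
  have hvan : ∀ (m : ℕ) (x : Fam →₀ (List Side →₀ A)), (∀ α, x α ≠ 0 → α ∈ T) →
      (∀ α, x α ≠ 0 → α.arcs + m ≤ K) → ∀ α : Fam, K ≤ α.arcs + m →
      fbd (List Side →₀ A) Fam.selfArc x α = 0 := by
    intro m x hxT hx α hα
    have h1 : x ∈ SuppF (List Side →₀ A) {β | β ∈ T ∧ β.arcs + m ≤ K} :=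
      mem_suppF.2 fun β hβ => ⟨hxT β hβ, hx β hβ⟩
    have h2 := fbd_suppF (S := Fam.selfArc) (T' := {β | β.arcs + 1 + m ≤ K}) (fun β hβ c hc hs => by
      have := (T1 β hβ.1 c hc hs).2.1
      have h3 := hβ.2
      show (β.del c).arcs + 1 + m ≤ K
      omega) h1
    by_contra hne
    have h3 := mem_suppF.1 h2 α hne
    have h4 : α.arcs + 1 + m ≤ K := h3
    omega
  have hxT : ∀ (K' R' : ℕ) (x : Fam →₀ (List Side →₀ A)), x ∈ Supp2 A (XC T V tb d K' R') →
      ∀ α, x α ≠ 0 → α ∈ T := by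
    intro K' R' x hx α hα
    obtain ⟨w, hw⟩ := mem_suppF.1 (supp2_col hx) α hα
    exact hw.1
  intro e
  induction e with
  | zero =>
    intro m hm x hx hDx hxm
    have hmd : m = d := by omega
    subst hmd
    -- every nonzero entry is in top degree
    have hdeg : ∀ α w, x α w ≠ 0 → α ∈ T ∧ w ∈ V m ∧ α.arcs + m = K ∧ tb α = R + 1 := by
      intro α w hw
      obtain ⟨hT, k, hV, hK, hR'⟩ := hx α w hw
      have h1 : x α ≠ 0 := by
        intro h2; rw [h2] at hw; exact hw rfl
      have h2 := hxm α h1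
      have h3 := V3 k w hV
      simp only at hK hR'
      have h4 : k = m := by omega
      subst h4
      exact ⟨hT, hV, hK, by omega⟩
    have hdeg' : ∀ α, x α ≠ 0 → α ∈ T ∧ α.arcs + m = K ∧ tb α = R + 1 := by
      intro α hα
      obtain ⟨w, hw⟩ : ∃ w, x α w ≠ 0 := by
        by_contra hc
        push Not at hc
        exact hα (Finsupp.ext hc)
      obtain ⟨a, -, b, c⟩ := hdeg α w hw
      exact ⟨a, b, c⟩
    have hrow : ∀ α, x α ∈ SuppW A (V m) := fun α =>
      mem_suppW.2 fun w hw => (hdeg α w hw).2.1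
    have hw0 : ∀ α, wbd A (x α) = 0 := by
      intro α
      by_cases h1 : x α = 0
      · rw [h1, map_zero]
      · have h2 := hvan m x (hxT _ _ x hx) hxm α (hdeg' α h1).2.1.ge
        have h3 : DDb A x α = 0 := by rw [hDx]; rfl
        rw [DDb_apply, h2, add_zero] at h3
        exact smul_wbd_eq_zero h3
    have hf0 : fbd (List Side →₀ A) Fam.selfArc x = 0 := by
      have h1 : wbdS A x = 0 := by
        ext1 α
        rw [wbdS_apply, hw0 α, smul_zero]
        rfl
      have h2 : DDb A x = wbdS A x + fbd (List Side →₀ A) Fam.selfArc x := rfl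
      rw [hDx, h1, zero_add] at h2
      exact h2.symm
    -- coefficients in the group of top cycles
    set B : Submodule ℤ (List Side →₀ A) := SuppW A (V m) ⊓ LinearMap.ker (wbd A) with hB
    have hxB : ∀ α, x α ∈ B := fun α => ⟨hrow α, LinearMap.mem_ker.2 (hw0 α)⟩
    set xB : Fam →₀ B := Finsupp.onFinset x.support (fun α => ⟨x α, hxB α⟩) (by
      intro α hα
      rw [Finsupp.mem_support_iff]
      intro h1
      apply hα
      exact Subtype.ext h1) with hxBdef
    have hmap : Finsupp.mapRange.linearMap B.subtype xB = x := by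
      ext1 α
      rw [Finsupp.mapRange.linearMap_apply, Finsupp.mapRange_apply]
      rfl
    have hinj : Function.Injective
        (Finsupp.mapRange.linearMap B.subtype : (Fam →₀ B) →ₗ[ℤ] (Fam →₀ (List Side →₀ A))) := by
      intro u v huv
      ext1 α
      have h1 := DFunLike.congr_fun huv α
      rw [Finsupp.mapRange.linearMap_apply, Finsupp.mapRange.linearMap_apply,
        Finsupp.mapRange_apply, Finsupp.mapRange_apply] at h1
      exact Subtype.ext h1
    have hfB : fbd B Fam.selfArc xB = 0 := by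
      apply hinj
      rw [← fbd_map, hmap, hf0, map_zero]
    obtain ⟨yB, hyB, hyB2⟩ := T2 B (K - m) (R + 1) hR (by omega) xB (by
      refine mem_suppF.2 fun α hα => ?_
      have h1 : x α ≠ 0 := by
        intro h2
        apply hα
        exact Subtype.ext h2
      obtain ⟨a, b, c⟩ := hdeg' α h1
      exact ⟨a, by omega, c⟩) hfB
    set y : Fam →₀ (List Side →₀ A) := Finsupp.mapRange.linearMap B.subtype yB with hy
    have hyrow : ∀ α, y α ∈ B := by
      intro α
      rw [hy, Finsupp.mapRange.linearMap_apply, Finsupp.mapRange_apply]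
      exact (yB α).2
    have hyx : fbd (List Side →₀ A) Fam.selfArc y = x := by
      rw [hy, fbd_map, hyB2, hmap]
    have hmK : x = 0 ∨ m ≤ K := by
      by_cases hx0 : x = 0
      · exact Or.inl hx0
      · right
        obtain ⟨α, hα⟩ : ∃ α, x α ≠ 0 := by
          by_contra hc
          push Not at hc
          exact hx0 (Finsupp.ext hc)
        have := (hdeg' α hα).2.1
        omega
    rcases hmK with hx0 | hmK
    · exact ⟨0, Submodule.zero_mem _, by rw [map_zero, hx0]⟩
    refine ⟨y, ?_, ?_⟩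
    · intro α w hw
      have h1 : yB α ≠ 0 := by
        intro h2
        apply hw
        rw [hy, Finsupp.mapRange.linearMap_apply, Finsupp.mapRange_apply, h2]
        rfl
      obtain ⟨a, b, c⟩ := mem_suppF.1 hyB α h1
      have h2 : w ∈ V m := mem_suppW.1 (hyrow α).1 w hw
      exact ⟨a, m, h2, by simp only; omega, by simp only; omega⟩
    · have h1 : wbdS A y = 0 := by
        ext1 α
        rw [wbdS_apply, LinearMap.mem_ker.1 (hyrow α).2, smul_zero]
        rfl
      have h3 : DDb A y = wbdS A y + fbd (List Side →₀ A) Fam.selfArc y := rfl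
      rw [h3, h1, zero_add, hyx]
  | succ e ih =>
    intro m hm x hx hDx hxm
    have hmd : m < d := by omega
    -- lowest degree part
    have hlow : ∀ α, α.arcs + m = K → x α ∈ SuppW A (V m) ∧ wbd A (x α) = 0 := by
      intro α hα
      constructor
      · refine mem_suppW.2 fun w hw => ?_
        obtain ⟨hT, k, hV, hK, hR'⟩ := hx α w hw
        simp only at hK
        have h4 : k = m := by omega
        rw [← h4]; exact hV
      · have h2 := hvan m x (hxT _ _ x hx) hxm α hα.ge
        have h3 : DDb A x α = 0 := by rw [hDx]; rfl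
        rw [DDb_apply, h2, add_zero] at h3
        exact smul_wbd_eq_zero h3
    have hch : ∀ α, ∃ y : List Side →₀ A, (x α = 0 → y = 0) ∧ (α.arcs + m ≠ K → y = 0) ∧
        y ∈ SuppW A (V (m + 1)) ∧ (α.arcs + m = K → (-1 : ℤ) ^ α.arcs • wbd A y = x α) := by
      intro α
      by_cases h1 : α.arcs + m = K
      · by_cases h2 : x α = 0
        · exact ⟨0, fun _ => rfl, fun _ => rfl, Submodule.zero_mem _, fun _ => by
            rw [h2, map_zero, smul_zero]⟩
        · obtain ⟨y, hy1, hy2⟩ := V4 m hmd (x α) (hlow α h1).1 (hlow α h1).2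
          refine ⟨(-1 : ℤ) ^ α.arcs • y, fun h => absurd h h2, fun h => absurd h1 h,
            Submodule.smul_mem _ _ hy1, fun _ => ?_⟩
          rw [map_zsmul, hy2, smul_smul, ← mul_pow]
          simp
      · exact ⟨0, fun _ => rfl, fun _ => rfl, Submodule.zero_mem _, fun h => absurd h h1⟩
    choose g hg0 hg1 hg2 hg3 using hch
    set y : Fam →₀ (List Side →₀ A) := Finsupp.onFinset x.support g (by
      intro α hα
      rw [Finsupp.mem_support_iff]
      intro h
      exact hα (hg0 α h)) with hy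
    have hyα : ∀ α, y α = g α := fun α => rfl
    have hyX : y ∈ Supp2 A (XC T V tb d (K + 1) R) := by
      intro α w hw
      have h1 : g α ≠ 0 := by
        intro h2
        apply hw
        rw [hyα, h2]
        rfl
      have h2 : x α ≠ 0 := fun h => h1 (hg0 α h)
      have h3 : α.arcs + m = K := by
        by_contra hc
        exact h1 (hg1 α hc)
      obtain ⟨w', hw'⟩ : ∃ w, x α w ≠ 0 := by
        by_contra hc
        push Not at hc
        exact h2 (Finsupp.ext hc)
      obtain ⟨hT, k, hV, hK, hR'⟩ := hx α w' hw'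
      simp only at hK hR'
      exact ⟨hT, m + 1, mem_suppW.1 (hg2 α) w hw, by simp only; omega, by simp only; omega⟩
    have hDy := DDb_XC V1 V2 T1 hyX
    have hx' : x - DDb A y ∈ Supp2 A (XC T V tb d K (R + 1)) := Submodule.sub_mem _ hx hDy
    have hDx' : DDb A (x - DDb A y) = 0 := by
      rw [map_sub, hDx, hDD _ _ y hyX, sub_zero]
    have hym : ∀ α, y α ≠ 0 → α.arcs + m ≤ K := by
      intro α hα
      by_contra hc
      exact hα (hg1 α (by omega))
    obtain ⟨y', hy', hy2'⟩ := ih (m + 1) (by omega) (x - DDb A y) hx' hDx' (by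
      intro α hα
      by_contra hc
      apply hα
      have h1 : K ≤ α.arcs + m := by omega
      have h2 := hvan m y (hxT _ _ y hyX) hym α h1
      have h3 : (x - DDb A y) α = x α - DDb A y α := rfl
      rw [h3, DDb_apply, h2, add_zero, hyα]
      rcases eq_or_lt_of_le h1 with h4 | h4
      · rw [hg3 α h4.symm, sub_self]
      · have h5 : x α = 0 := by
          by_contra h6
          have := hxm α h6
          omega
        rw [h5, hg0 α h5, map_zero, smul_zero, sub_zero])
    refine ⟨y + y', Submodule.add_mem _ hyX hy', ?_⟩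
    rw [map_add, hy2']
    abel

end Bi

end ArcC
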