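import Pool.Agent.Lib.MP_e5080e_gt.DbAlg

/-!
The self arc part of the boundary has square zero.
-/

namespace ArcC

open Side

theorem Fam.union_selfD (r : ℕ) : Fam.union r r = id := by
  funext x; simp [Fam.union]

/-- the sides after the deletion of an arc with the same region on both sides -/
def dsides (c : ℕ) (L : List (Side × ℕ)) : List (Side × ℕ) :=
  (L.filter (fun s => !(isArc c s.1))).map (fun s => (shift c s.1, s.2))

theorem del_sides_self {α : Fam} {c : ℕ} (h : α.selfArc c) :
    (α.del c).sides = dsides c α.sides := by
  have h' : α.reg (arc c false) = α.reg (arc c true) := h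
  simp only [Fam.del, dsides, h', Fam.union_selfD, id]

theorem del_betti_self {α : Fam} {c : ℕ} (h : α.selfArc c) :
    (α.del c).betti = α.betti + Finsupp.single (α.reg (arc c false)) 1 := by
  have h' : α.reg (arc c false) = α.reg (arc c true) := h
  simp only [Fam.del, h', Fam.union_selfD, Finsupp.mapDomain_id, if_true]

theorem del_punc_self {α : Fam} {c : ℕ} (h : α.selfArc c) : (α.del c).punc = α.punc := by
  have h' : α.reg (arc c false) = α.reg (arc c true) := h
  simp only [Fam.del, h', Fam.union_selfD, List.map_id]

/-- the number before the deletion of the arc `c'` -/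
def up1 (c' c : ℕ) : ℕ := if c < c' then c else c + 1

theorem find_dsides (c' c : ℕ) (b : Bool) (L : List (Side × ℕ)) :
    ((dsides c' L).find? (fun s => s.1 = arc c b)).map Prod.snd =
      (L.find? (fun s => s.1 = arc (up1 c' c) b)).map Prod.snd := by
  induction L with
  | nil => rfl
  | cons s L ih =>
    obtain ⟨x, r⟩ := s
    unfold dsides at ih ⊢
    cases x with
    | pt j =>
      have h1 : isArc c' (pt j) = false := rfl
      simp only [List.filter_cons, h1, Bool.not_false, if_true, List.map_cons]
      rw [List.find?_cons_of_neg (by simp [shift]), List.find?_cons_of_neg (by simp)]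
      exact ih
    | arc a b' =>
      by_cases ha : a = c'
      · subst ha
        have h1 : isArc a (arc a b') = true := by simp [isArc]
        simp only [List.filter_cons, h1, Bool.not_true]
        rw [if_neg (by simp), List.find?_cons_of_neg (by
          simp only [arc.injEq, decide_eq_true_eq]
          unfold up1
          split_ifs <;> omega)]
        exact ih
      · have h1 : isArc c' (arc a b') = false := by simp [isArc, ha]
        simp only [List.filter_cons, h1, Bool.not_false, if_true, List.map_cons]
        by_cases h2 : a = up1 c' c ∧ b' = b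
        · obtain ⟨h2, rfl⟩ := h2
          have h3 : shift c' (arc a b') = arc c b' := by
            simp only [shift, arc.injEq, and_true]
            unfold up1 at h2
            split_ifs at h2 ⊢ <;> omega
          rw [List.find?_cons_of_pos (by simp [h3]), List.find?_cons_of_pos (by simp [h2])]
          rfl
        · rw [List.find?_cons_of_neg, List.find?_cons_of_neg]
          · exact ih
          · simpa using h2
          · simp only [shift, arc.injEq, decide_eq_true_eq]
            intro h3
            apply h2
            refine ⟨?_, h3.2⟩
            have h4 := h3.1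
            unfold up1
            split_ifs at h4 ⊢ <;> omega

theorem reg_del_self {α : Fam} {c' : ℕ} (h : α.selfArc c') (c : ℕ) (b : Bool) :
    (α.del c').reg (arc c b) = α.reg (arc (up1 c' c) b) := by
  unfold Fam.reg
  rw [del_sides_self h, find_dsides]

theorem selfArc_del_self {α : Fam} {c' : ℕ} (h : α.selfArc c') (c : ℕ) :
    (α.del c').selfArc c ↔ α.selfArc (up1 c' c) := by
  unfold Fam.selfArc
  rw [reg_del_self h, reg_del_self h]

theorem dsides_cons_true {e : ℕ} {x : Side} (h : isArc e x = true) (r : ℕ)
    (L : List (Side × ℕ)) : dsides e ((x, r) :: L) = dsides e L := by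
  unfold dsides; simp [h]

theorem dsides_cons_false {e : ℕ} {x : Side} (h : isArc e x = false) (r : ℕ)
    (L : List (Side × ℕ)) : dsides e ((x, r) :: L) = (shift e x, r) :: dsides e L := by
  unfold dsides; simp [h]

theorem dsides_comm {c c' : ℕ} (h : c < c') (L : List (Side × ℕ)) :
    dsides c (dsides c' L) = dsides (c' - 1) (dsides c L) := by
  induction L with
  | nil => rfl
  | cons s L ih =>
    obtain ⟨x, r⟩ := s
    cases x with
    | pt j =>
      have h1 : ∀ e, isArc e (pt j) = false := fun e => rfl
      have h2 : ∀ e, shift e (pt j) = pt j := fun e => rfl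
      rw [dsides_cons_false (h1 _), dsides_cons_false (h1 _), h2, h2, dsides_cons_false (h1 _),
        dsides_cons_false (h1 _), h2, h2, ih]
    | arc a b =>
      rcases lt_trichotomy a c with h1 | h1 | h1
      · have e1 : isArc c' (arc a b) = false := by simp [isArc]; omega
        have e2 : isArc c (arc a b) = false := by simp [isArc]; omega
        have e3 : shift c' (arc a b) = arc a b := by simp only [shift]; rw [if_neg (by omega)]
        have e4 : shift c (arc a b) = arc a b := by simp only [shift]; rw [if_neg (by omega)]
        have e5 : isArc (c' - 1) (arc a b) = false := by simp [isArc]; omega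
        have e6 : shift (c' - 1) (arc a b) = arc a b := by
          simp only [shift]; rw [if_neg (by omega)]
        rw [dsides_cons_false e1, dsides_cons_false e2, e3, e4, dsides_cons_false e2,
          dsides_cons_false e5, e4, e6, ih]
      · subst h1
        have e1 : isArc c' (arc a b) = false := by simp [isArc]; omega
        have e2 : isArc a (arc a b) = true := by simp [isArc]
        have e3 : shift c' (arc a b) = arc a b := by simp only [shift]; rw [if_neg (by omega)]
        rw [dsides_cons_false e1, dsides_cons_true e2, e3, dsides_cons_true e2, ih]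
      · rcases lt_trichotomy a c' with h2 | h2 | h2
        · have e1 : isArc c' (arc a b) = false := by simp [isArc]; omega
          have e2 : isArc c (arc a b) = false := by simp [isArc]; omega
          have e3 : shift c' (arc a b) = arc a b := by simp only [shift]; rw [if_neg (by omega)]
          have e4 : shift c (arc a b) = arc (a - 1) b := by simp only [shift]; rw [if_pos h1]
          have e5 : isArc (c' - 1) (arc (a - 1) b) = false := by simp [isArc]; omega
          have e6 : shift (c' - 1) (arc (a - 1) b) = arc (a - 1) b := by
            simp only [shift]; rw [if_neg (by omega)]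
          rw [dsides_cons_false e1, dsides_cons_false e2, e3, e4, dsides_cons_false e2,
            dsides_cons_false e5, e4, e6, ih]
        · subst h2
          have e1 : isArc a (arc a b) = true := by simp [isArc]
          have e2 : isArc c (arc a b) = false := by simp [isArc]; omega
          have e4 : shift c (arc a b) = arc (a - 1) b := by simp only [shift]; rw [if_pos h1]
          have e5 : isArc (a - 1) (arc (a - 1) b) = true := by simp [isArc]
          rw [dsides_cons_true e1, dsides_cons_false e2, e4, dsides_cons_true e5, ih]
        · have e1 : isArc c' (arc a b) = false := by simp [isArc]; omega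
          have e2 : isArc c (arc a b) = false := by simp [isArc]; omega
          have e3 : shift c' (arc a b) = arc (a - 1) b := by simp only [shift]; rw [if_pos h2]
          have e4 : shift c (arc a b) = arc (a - 1) b := by simp only [shift]; rw [if_pos h1]
          have e2' : isArc c (arc (a - 1) b) = false := by simp [isArc]; omega
          have e4' : shift c (arc (a - 1) b) = arc (a - 1 - 1) b := by
            simp only [shift]; rw [if_pos (by omega)]
          have e5 : isArc (c' - 1) (arc (a - 1) b) = false := by simp [isArc]; omega
          have e6 : shift (c' - 1) (arc (a - 1) b) = arc (a - 1 - 1) b := by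
            simp only [shift]; rw [if_pos (by omega)]
          rw [dsides_cons_false e1, dsides_cons_false e2, e3, e4, dsides_cons_false e2',
            dsides_cons_false e5, e4', e6, ih]

theorem del_comm_self {α : Fam} {c c' : ℕ} (h : c < c') (hc : α.selfArc c)
    (hc' : α.selfArc c') : (α.del c').del c = (α.del c).del (c' - 1) := by
  have u1 : up1 c' c = c := by unfold up1; rw [if_pos h]
  have u2 : up1 c (c' - 1) = c' := by unfold up1; rw [if_neg (by omega)]; omega
  have s1 : (α.del c').selfArc c := by rw [selfArc_del_self hc', u1]; exact hc
  have s2 : (α.del c).selfArc (c' - 1) := by rw [selfArc_del_self hc, u2]; exact hc'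
  apply Fam.ext
  · rw [del_sides_self s1, del_sides_self s2, del_sides_self hc, del_sides_self hc',
      dsides_comm h]
  · rw [del_betti_self s1, del_betti_self s2, del_betti_self hc, del_betti_self hc',
      reg_del_self hc', reg_del_self hc, u1, u2]
    abel
  · rw [del_punc_self s1, del_punc_self s2, del_punc_self hc, del_punc_self hc']

theorem word_delD (α : Fam) (c : ℕ) : (α.del c).word = wdel c α.word := by
  unfold Fam.word wdel Fam.del
  simp only [List.map_map]
  rw [List.filter_map, List.map_map]
  rfl

theorem isFirst_shiftD (c : ℕ) (x : Side) : isFirst (shift c x) = isFirst x := by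
  cases x <;> rfl

theorem filter_isFirst_wdel (c : ℕ) (w : List Side) :
    (wdel c w).filter isFirst = ((w.filter isFirst).filter (fun x => !(isArc c x))).map
      (shift c) := by
  unfold wdel
  rw [List.filter_map]
  congr 1
  have h1 : (isFirst ∘ shift c) = isFirst := funext fun x => isFirst_shiftD c x
  rw [h1, List.filter_filter, List.filter_filter]
  congr 1
  funext x
  exact Bool.and_comm _ _

theorem length_wdel {n k : ℕ} {w : List Side} (h : IsWord n k w) {c : ℕ} (hc : c < k) :
    ((wdel c w).filter isFirst).length + 1 = k := by
  rw [filter_isFirst_wdel, List.length_map, h.firsts, List.filter_map, List.length_map]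
  have h1 : ((fun x => !(isArc c x)) ∘ fun a => arc a false) = fun a => !(a == c) := by
    funext a; rfl
  rw [h1]
  have h2 : (List.range k).filter (fun a => !(a == c)) = (List.range k).erase c := by
    rw [List.Nodup.erase_eq_filter List.nodup_range]
    rfl
  rw [h2, List.length_erase_of_mem (List.mem_range.2 hc), List.length_range]
  omega

theorem arcs_del' {F : Surf} {α : Fam} (h : α.IsFam0 F) {c : ℕ} (hc : c < α.arcs) :
    (α.del c).arcs + 1 = α.arcs := by
  unfold Fam.arcs
  rw [word_delD]
  exact length_wdel h.word hc

theorem fbd_fbd_single {A : Type} [AddCommGroup A] {F : Surf} {α : Fam} (h : α.IsFam0 F)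
    (a : A) : fbd A Fam.selfArc (fbd A Fam.selfArc (Finsupp.single α a)) = 0 := by
  classical
  rw [fbd_single, map_sum]
  have h1 : ∀ c' ∈ (Finset.range α.arcs).filter α.selfArc,
      fbd A Fam.selfArc ((-1 : ℤ) ^ c' • Finsupp.single (α.del c') a) =
      ∑ c ∈ (Finset.range (α.arcs - 1)).filter (fun c => α.selfArc (up1 c' c)),
        (-1 : ℤ) ^ (c' + c) • Finsupp.single ((α.del c').del c) a := by
    intro c' hc'
    rw [Finset.mem_filter, Finset.mem_range] at hc'
    have h2 : (α.del c').arcs = α.arcs - 1 := by
      have := arcs_del' h hc'.1
      omega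
    rw [map_zsmul, fbd_single, h2, Finset.smul_sum]
    have h3 : (Finset.range (α.arcs - 1)).filter (α.del c').selfArc =
        (Finset.range (α.arcs - 1)).filter (fun c => α.selfArc (up1 c' c)) := by
      refine Finset.filter_congr fun c _ => ?_
      rw [selfArc_del_self hc'.2]
    rw [h3]
    refine Finset.sum_congr rfl fun c _ => ?_
    rw [smul_smul, pow_add]
  rw [Finset.sum_congr rfl h1]
  rw [Finset.sum_sigma']
  refine Finset.sum_involution (fun p _ => if p.2 < p.1 then ⟨p.2, p.1 - 1⟩ else
    ⟨p.2 + 1, p.1⟩) ?_ ?_ ?_ ?_
  · rintro ⟨c', c⟩ hp
    rw [Finset.mem_sigma, Finset.mem_filter, Finset.mem_filter, Finset.mem_range,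
      Finset.mem_range] at hp
    obtain ⟨⟨h2, h3⟩, h4, h5⟩ := hp
    simp only at h2 h3 h4 h5 ⊢
    by_cases hlt : c < c'
    · have u1 : up1 c' c = c := by unfold up1; rw [if_pos hlt]
      rw [u1] at h5
      simp only [hlt, if_true]
      rw [del_comm_self hlt h5 h3]
      have h6 : c' + c = (c + (c' - 1)) + 1 := by omega
      rw [h6, pow_succ]
      simp
    · have u1 : up1 c' c = c + 1 := by unfold up1; rw [if_neg hlt]
      rw [u1] at h5
      simp only [hlt, if_false]
      have h6 := del_comm_self (α := α) (c := c') (c' := c + 1) (by omega) h3 h5
      simp only [Nat.add_sub_cancel] at h6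
      rw [← h6]
      have h7 : c + 1 + c' = (c' + c) + 1 := by omega
      rw [h7, pow_succ]
      simp
  · rintro ⟨c', c⟩ hp hne
    simp only
    intro heq
    split_ifs at heq with hlt
    · have := congrArg Sigma.fst heq
      simp only at this
      omega
    · have := congrArg Sigma.fst heq
      simp only at this
      omega
  · rintro ⟨c', c⟩ hp
    rw [Finset.mem_sigma, Finset.mem_filter, Finset.mem_filter, Finset.mem_range,
      Finset.mem_range] at hp
    obtain ⟨⟨h2, h3⟩, h4, h5⟩ := hp
    simp only at h2 h3 h4 h5
    rw [Finset.mem_sigma, Finset.mem_filter, Finset.mem_filter, Finset.mem_range,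
      Finset.mem_range]
    by_cases hlt : c < c'
    · simp only [hlt, if_true]
      have u1 : up1 c' c = c := by unfold up1; rw [if_pos hlt]
      have u2 : up1 c (c' - 1) = c' := by unfold up1; rw [if_neg (by omega)]; omega
      rw [u1] at h5
      rw [u2]
      exact ⟨⟨by omega, h5⟩, by omega, h3⟩
    · simp only [hlt, if_false]
      have u1 : up1 c' c = c + 1 := by unfold up1; rw [if_neg hlt]
      have u2 : up1 (c + 1) c' = c' := by unfold up1; rw [if_pos (by omega)]
      rw [u1] at h5
      rw [u2]
      exact ⟨⟨by omega, h5⟩, by omega, h3⟩
  · rintro ⟨c', c⟩ hp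
    simp only
    by_cases hlt : c < c'
    · have h6 : ¬ (c' - 1 < c) := by omega
      simp only [hlt, if_true, h6, if_false]
      have h7 : c' - 1 + 1 = c' := by omega
      rw [h7]
    · have h6 : c' < c + 1 := by omega
      simp only [hlt, if_false, h6, if_true, Nat.add_sub_cancel]

theorem fbd_fbd {A : Type} [AddCommGroup A] {F : Surf} {x : Fam →₀ A}
    (hx : x ∈ SuppF A {α | α.IsFam0 F}) : fbd A Fam.selfArc (fbd A Fam.selfArc x) = 0 := by
  classical
  have hx' := mem_suppF.1 hx
  rw [← Finsupp.sum_single x, Finsupp.sum, map_sum, map_sum]
  exact Finset.sum_eq_zero fun α hα => fbd_fbd_single (hx' α (Finsupp.mem_support_iff.1 hα)) _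

end ArcC
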